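import Pool.Agent.NH8.KA
import Pool.Agent.TH729.CC.Hom

/-!
# Pieces of functions of several real variables
-/

set_option autoImplicit false
set_option linter.unusedSectionVars false
set_option linter.unusedVariables false

open Set Filter Topology Pool.Agent.H581R2 Pool.Agent.TH729.SQ Pool.Agent.TH729.CC

namespace Pool.Agent.NH8.C

variable {K : Subfield ℝ}

/-- pieces of a function -/
structure FP (K : Subfield ℝ) {N : ℕ} (m : ℕ) (φ : E N → ℝ) (P O : Set (E N)) : Prop where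
  rt : ∀ z ∈ P, Rt K z
  sa : SA O
  sub : P ⊆ O
  move : ∀ x ∈ O, ∃ r : ℝ, 0 < r ∧ ∀ z ∈ P, dist z x < r → ∀ y ∈ O, dist y x < r →
    ∀ ε : ℝ, 0 < ε → ∃ z' ∈ P, dist z' y < ε ∧ ∃ s ∈ K, s ≠ 0 ∧ φ z' = s ^ m * φ z

/-- cones -/
def Cn (K : Subfield ℝ) {N : ℕ} (P : Set (E N)) : Prop := ∀ z ∈ P, ∀ t ∈ K, t ≠ 0 → t • z ∈ P

/-- finite unions of pieces which are cones -/
def HB (K : Subfield ℝ) {N : ℕ} (m : ℕ) (φ : E N → ℝ) (Q : Set (E N)) : Prop :=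
  ∃ (k : ℕ) (P O : Fin k → Set (E N)), (∀ z, z ∈ Q ↔ ∃ i, z ∈ P i) ∧
    ∀ i, FP K m φ (P i) (O i) ∧ Cn K (P i)

/-- finite unions of pieces -/
def FB (K : Subfield ℝ) {N : ℕ} (m : ℕ) (φ : E N → ℝ) (Q : Set (E N)) : Prop :=
  ∃ (k : ℕ) (P O : Fin k → Set (E N)), (∀ z, z ∈ Q ↔ ∃ i, z ∈ P i) ∧
    ∀ i, FP K m φ (P i) (O i)

section basic

variable {N m : ℕ} {φ : E N → ℝ}

lemma HB.empty : HB K m φ ∅ :=
  ⟨0, fun i => i.elim0, fun i => i.elim0, fun z => by simp, fun i => i.elim0⟩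

lemma HB.union {Q Q' : Set (E N)} (h : HB K m φ Q) (h' : HB K m φ Q') : HB K m φ (Q ∪ Q') := by
  obtain ⟨k, P, O, h1, h2⟩ := h
  obtain ⟨k', P', O', h1', h2'⟩ := h'
  refine ⟨k + k', Fin.append P P', Fin.append O O', fun z => ?_, fun i => ?_⟩
  · rw [Set.mem_union, h1, h1']
    constructor
    · rintro (⟨i, hi⟩ | ⟨i, hi⟩)
      · exact ⟨Fin.castAdd k' i, by rwa [Fin.append_left]⟩
      · exact ⟨Fin.natAdd k i, by rwa [Fin.append_right]⟩
    · rintro ⟨i, hi⟩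
      induction i using Fin.addCases with
      | left i => rw [Fin.append_left] at hi; exact Or.inl ⟨i, hi⟩
      | right i => rw [Fin.append_right] at hi; exact Or.inr ⟨i, hi⟩
  · induction i using Fin.addCases with
    | left i => rw [Fin.append_left, Fin.append_left]; exact h2 i
    | right i => rw [Fin.append_right, Fin.append_right]; exact h2' i

lemma HB.of_piece {P O : Set (E N)} (h : FP K m φ P O) (hc : Cn K P) : HB K m φ P :=
  ⟨1, fun _ => P, fun _ => O, fun z => by simp, fun _ => ⟨h, hc⟩⟩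

lemma HB.biUnion {α : Type*} {S : Set α} (hS : S.Finite) {Q : α → Set (E N)}
    (h : ∀ a ∈ S, HB K m φ (Q a)) : HB K m φ (⋃ a ∈ S, Q a) := by
  induction S, hS using Set.Finite.induction_on with
  | empty => simpa using HB.empty
  | insert ha hs ih =>
    rw [Set.biUnion_insert]
    exact (h _ (by simp)).union (ih fun b hb => h b (by simp [hb]))

lemma HB.congr {Q Q' : Set (E N)} (h : HB K m φ Q) (hQ : Q = Q') : HB K m φ Q' := hQ ▸ h

/-- the function matters at rational points only -/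
lemma FP.congr_fun {ψ : E N → ℝ} {P O : Set (E N)} (h : FP K m φ P O)
    (e : ∀ z, Rt K z → ψ z = φ z) : FP K m ψ P O where
  rt := h.rt
  sa := h.sa
  sub := h.sub
  move := by
    intro x hx
    obtain ⟨r, hr, hm⟩ := h.move x hx
    refine ⟨r, hr, fun z hz hzx y hy hyx ε hε => ?_⟩
    obtain ⟨z', hz', h1, s, hs, hs0, h2⟩ := hm z hz hzx y hy hyx ε hε
    exact ⟨z', hz', h1, s, hs, hs0, by rw [e _ (h.rt z' hz'), e _ (h.rt z hz), h2]⟩

lemma HB.congr_fun {ψ : E N → ℝ} {Q : Set (E N)} (h : HB K m φ Q)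
    (e : ∀ z, Rt K z → ψ z = φ z) : HB K m ψ Q := by
  obtain ⟨k, P, O, h1, h2⟩ := h
  exact ⟨k, P, O, h1, fun i => ⟨(h2 i).1.congr_fun e, (h2 i).2⟩⟩

/-- **lifting of pieces** -/
theorem FP.lift {n : ℕ} {φ₀ : E n → ℝ} {P₀ O₀ : Set (E n)} (h : FP K m φ₀ P₀ O₀)
    {μ : E N → E n} {g : E N → ℝ} {A : Set (E N)}
    (h1 : ∀ z ∈ A, Rt K z → Rt K (μ z) ∧ g z ∈ K ∧ g z ≠ 0 ∧ φ z = g z ^ m * φ₀ (μ z))
    (h2 : SA {x | x ∈ A ∧ μ x ∈ O₀}) (h3 : ∀ x ∈ A, ContinuousAt μ x)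
    (h4 : ∀ y ∈ A, ∀ ε : ℝ, 0 < ε → ∃ δ : ℝ, 0 < δ ∧ ∀ t, Rt K t → dist t (μ y) < δ →
      ∃ z, Rt K z ∧ z ∈ A ∧ μ z = t ∧ dist z y < ε) :
    FP K m φ {z | Rt K z ∧ z ∈ A ∧ μ z ∈ P₀} {x | x ∈ A ∧ μ x ∈ O₀} where
  rt := fun z hz => hz.1
  sa := h2
  sub := fun z hz => ⟨hz.2.1, h.sub hz.2.2⟩
  move := by
    rintro x ⟨hxA, hxO⟩
    obtain ⟨r, hr, hm⟩ := h.move _ hxO
    obtain ⟨ρ, hρ, hρ'⟩ := Metric.continuousAt_iff.1 (h3 x hxA) r hr
    refine ⟨ρ, hρ, ?_⟩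
    rintro z ⟨hz1, hz2, hz3⟩ hzx y ⟨hy1, hy2⟩ hyx ε hε
    obtain ⟨δ, hδ, hl⟩ := h4 y hy1 ε hε
    obtain ⟨t, ht, htd, s, hs, hs0, hst⟩ := hm _ hz3 (hρ' hzx) _ hy2 (hρ' hyx) δ hδ
    obtain ⟨z', hz'1, hz'2, hz'3, hz'4⟩ := hl t (h.rt t ht) htd
    obtain ⟨-, g1, g2, g3⟩ := h1 z hz2 hz1
    obtain ⟨-, g1', g2', g3'⟩ := h1 z' hz'2 hz'1
    refine ⟨z', ⟨hz'1, hz'2, by rwa [hz'3]⟩, hz'4, g z' * s / g z,
      K.div_mem (K.mul_mem g1' hs) g1, div_ne_zero (mul_ne_zero g2' hs0) g2, ?_⟩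
    rw [g3', hz'3, hst, g3]
    rw [div_pow, mul_pow]
    field_simp

end basic

/-! ### Hyperplanes -/

section push

variable {N m : ℕ} {φ : E (N + 1) → ℝ}

lemma FP.push (hK : KA K) {a : Fin (N + 1) → K} {j : Fin (N + 1)} (hj : a j ≠ 0) {P O : Set (E N)}
    (h : FP K m (fun u => φ (par a j u)) P O) :
    FP K m φ {v | Rt K v ∧ dt a v = 0 ∧ (fun i => v (j.succAbove i)) ∈ P}
      {v | dt a v = 0 ∧ (fun i => v (j.succAbove i)) ∈ O} where
  rt := fun z hz => hz.1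
  sa := by
    refine SAP.and (SAP.eq_zeroA (dt_PA hK a fun i => PA.coord i)) ?_
    exact SAP.preimage (p := fun u => u ∈ O) h.sa (fun i => PF.coord _)
  sub := fun z hz => ⟨hz.2.1, h.sub hz.2.2⟩
  move := by
    have hres : ∀ v w : E (N + 1), dist (fun i => v (j.succAbove i)) (fun i => w (j.succAbove i)) ≤
        dist v w := fun v w => (dist_pi_le_iff dist_nonneg).2 fun i => dist_le_pi_dist v w _
    rintro x ⟨hx1, hx2⟩
    obtain ⟨r, hr, hm⟩ := h.move _ hx2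
    refine ⟨r, hr, ?_⟩
    rintro z ⟨hz1, hz2, hz3⟩ hzx y ⟨hy1, hy2⟩ hyx ε hε
    have hpc : Continuous (par a j) := LinearMap.continuous_of_finiteDimensional _
    obtain ⟨δ, hδ, hδ'⟩ := Metric.continuousAt_iff.1
      (hpc.continuousAt (x := fun i => y (j.succAbove i))) ε hε
    obtain ⟨u, hu, hud, s, hs, hs0, hst⟩ := hm _ hz3 (lt_of_le_of_lt (hres _ _) hzx) _ hy2
      (lt_of_le_of_lt (hres _ _) hyx) δ hδ
    refine ⟨par a j u, ⟨par_rt (h.rt u hu), par_dt hj u, ?_⟩, ?_, s, hs, hs0, ?_⟩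
    · refine cast ?_ hu
      congr 1
      funext i
      rw [par_succ]
    · have := hδ' hud
      rwa [par_res hj hy1] at this
    · have e : φ (par a j (fun i => z (j.succAbove i))) = φ z := by rw [par_res hj hz2]
      rw [← e]
      exact hst

/-- pieces in a hyperplane -/
theorem HB.push (hK : KA K) {a : Fin (N + 1) → K} {j : Fin (N + 1)} (hj : a j ≠ 0) {Q : Set (E N)}
    (h : HB K m (fun u => φ (par a j u)) Q) :
    HB K m φ {v | Rt K v ∧ dt a v = 0 ∧ (fun i => v (j.succAbove i)) ∈ Q} := by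
  obtain ⟨k, P, O, h1, h2⟩ := h
  refine ⟨k, fun i => {v | Rt K v ∧ dt a v = 0 ∧ (fun i => v (j.succAbove i)) ∈ P i},
    fun i => {v | dt a v = 0 ∧ (fun i => v (j.succAbove i)) ∈ O i}, fun z => ?_,
    fun i => ⟨(h2 i).1.push hK hj, ?_⟩⟩
  · constructor
    · rintro ⟨hz1, hz2, hz3⟩
      obtain ⟨i, hi⟩ := (h1 _).1 hz3
      exact ⟨i, hz1, hz2, hi⟩
    · rintro ⟨i, hz1, hz2, hi⟩
      exact ⟨hz1, hz2, (h1 _).2 ⟨i, hi⟩⟩
  · rintro z ⟨hz1, hz2, hz3⟩ t ht ht0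
    refine ⟨hz1.smul ht, by rw [map_smul, hz2, smul_zero], ?_⟩
    exact (h2 i).2 _ hz3 t ht ht0

end push

/-! ### Connectedness -/

/-- an interior point gives all points of a connected set of smooth zeros -/
theorem W_conn {M : ℕ} {F : Tri M} (hF : Rat3 F K) (hN : NH F K) {R : E M} (hR : Int' F K R)
    {X : Type*} [TopologicalSpace X] {U : Set X} (hU : IsPreconnected U) {ω : X → E M}
    (hω : ContinuousOn ω U) (h0 : ∀ u ∈ U, F.f (ω u) (ω u) (ω u) = 0)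
    (hs : ∀ u ∈ U, ∃ e, F.f (ω u) (ω u) e ≠ 0) {z : X} (hz : z ∈ U) (hzW : ω z ∈ W F K) :
    ∀ u ∈ U, ω u ∈ W F K := by
  have hloc : IsLocallyConstant (fun u : U => (ω u ∈ W F K)) := by
    rw [IsLocallyConstant.iff_eventually_eq]
    intro u
    have hc : ContinuousAt (fun u : U => ω u) u :=
      (continuousOn_iff_continuous_domRestrict.1 hω).continuousAt
    by_cases hu : ω u ∈ W F K
    · obtain ⟨e, he⟩ := hs u u.2
      have hint := int_all hF hN hR hu he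
      filter_upwards [hc.eventually hint.2.2] with v hv
      exact propext ⟨fun _ => hu, fun _ => hv (h0 v v.2)⟩
    · have hop : (W F K)ᶜ ∈ 𝓝 (ω u) := isClosed_closure.isOpen_compl.mem_nhds hu
      filter_upwards [hc.eventually hop] with v hv
      exact propext ⟨fun h => absurd h hv, fun h => absurd h hu⟩
  have : PreconnectedSpace U := Subtype.preconnectedSpace hU
  intro u hu
  have := hloc.apply_eq_of_preconnectedSpace ⟨z, hz⟩ ⟨u, hu⟩
  exact (this : (ω z ∈ W F K) = (ω u ∈ W F K)) ▸ hzW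

end Pool.Agent.NH8.C
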