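import Pool.Agent.NH8.CA

/-!
# Twisted cubic forms
-/

set_option autoImplicit false
set_option linter.unusedSectionVars false
set_option linter.unusedVariables false
set_option linter.unusedSimpArgs false

open Set Filter Topology Pool.Agent.H581R2 Pool.Agent.TH729.SQ Pool.Agent.TH729.CC

namespace Pool.Agent.NH8.C

variable {K : Subfield ℝ} {N : ℕ}

/-- forgetting the first coordinate -/
noncomputable def pv : E (N + 1) →ₗ[ℝ] E N := LinearMap.funLeft ℝ ℝ Fin.succ

/-- the first coordinate -/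
noncomputable def pw : E (N + 1) →ₗ[ℝ] ℝ := LinearMap.proj 0

/-- adding a first coordinate -/
def cv (w : ℝ) (v : E N) : E (N + 1) := Fin.cons w v

@[simp] lemma pv_cv (w : ℝ) (v : E N) : pv (cv w v) = v := by
  funext i
  rfl
@[simp] lemma pw_cv (w : ℝ) (v : E N) : pw (cv w v) = w := rfl
lemma cv_eta (a : E (N + 1)) : cv (pw a) (pv a) = a := by
  funext i
  refine Fin.cases ?_ (fun i => ?_) i <;> rfl
lemma cv_zero (w : ℝ) (v : E N) : cv w v 0 = w := rfl
lemma cv_succ (w : ℝ) (v : E N) (i : Fin N) : cv w v i.succ = v i := rfl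

lemma rt_cv {w : ℝ} {v : E N} (hw : w ∈ K) (hv : Rt K v) : Rt K (cv w v) := by
  intro i
  refine Fin.cases ?_ (fun i => ?_) i
  · exact hw
  · exact hv i
lemma rt_pv {a : E (N + 1)} (ha : Rt K a) : Rt K (pv a) := fun i => ha i.succ
lemma rt_pw {a : E (N + 1)} (ha : Rt K a) : pw a ∈ K := ha 0

lemma cv_cont {X : Type*} [TopologicalSpace X] {S : Set X} {f : X → ℝ} {g : X → E N}
    (hf : ContinuousOn f S) (hg : ContinuousOn g S) :
    ContinuousOn (fun x => cv (f x) (g x)) S := by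
  refine continuousOn_pi.2 fun i => ?_
  refine Fin.cases ?_ (fun i => ?_) i
  · exact hf
  · exact (continuousOn_pi.1 hg) i

lemma dist_pv (a b : E (N + 1)) : dist (pv a) (pv b) ≤ dist a b :=
  (dist_pi_le_iff dist_nonneg).2 fun i => dist_le_pi_dist a b _
lemma dist_pw (a b : E (N + 1)) : |pw a - pw b| ≤ dist a b := by
  have := dist_le_pi_dist a b 0
  rwa [Real.dist_eq] at this

/-- the twisted form -/
noncomputable def Tw (G : Tri N) (η : E (N + 1) →ₗ[ℝ] ℝ) (d : ℝ) : Tri (N + 1) :=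
  ((G.comap pv).smul d).add ((Tri.prod pw pw η).smul (-1))

lemma Tw_apply (G : Tri N) (η : E (N + 1) →ₗ[ℝ] ℝ) (d : ℝ) (a b c : E (N + 1)) :
    (Tw G η d).f a b c = d * G.f (pv a) (pv b) (pv c) - 1 / 3 * (pw a * pw b * η c +
      pw a * pw c * η b + pw b * pw c * η a) := by
  simp only [Tw, Tri.add, Tri.smul, LinearMap.add_apply, LinearMap.smul_apply,
    Tri.comap_apply, Tri.prod, pr3_apply, smul_eq_mul]
  ring

lemma Tw_rat {G : Tri N} (hG : Rat3 G K) {η : E (N + 1) →ₗ[ℝ] ℝ} (hη : RL K η) {d : ℝ}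
    (hd : d ∈ K) : Rat3 (Tw G η d) K := by
  intro a b c ha hb hc
  rw [Tw_apply]
  have h3 : (1 / 3 : ℝ) ∈ K := by
    refine K.div_mem K.one_mem ?_
    exact_mod_cast SubfieldClass.ratCast_mem K 3
  exact K.sub_mem (K.mul_mem hd (hG _ _ _ (rt_pv ha) (rt_pv hb) (rt_pv hc)))
    (K.mul_mem h3 (K.add_mem (K.add_mem
      (K.mul_mem (K.mul_mem (rt_pw ha) (rt_pw hb)) (hη _ hc))
      (K.mul_mem (K.mul_mem (rt_pw ha) (rt_pw hc)) (hη _ hb)))
      (K.mul_mem (K.mul_mem (rt_pw hb) (rt_pw hc)) (hη _ ha))))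

/-- the form `d G(v) - w³` -/
noncomputable def T3 (G : Tri N) (d : ℝ) : Tri (N + 1) := Tw G pw d

/-- the form `d G(v) - w² ζ(v)` -/
noncomputable def T2 (G : Tri N) (ζ : E N →ₗ[ℝ] ℝ) (d : ℝ) : Tri (N + 1) := Tw G (ζ.comp pv) d

lemma T3_apply (G : Tri N) (d : ℝ) (a b c : E (N + 1)) : (T3 G d).f a b c =
    d * G.f (pv a) (pv b) (pv c) - pw a * pw b * pw c := by
  rw [T3, Tw_apply]
  ring

lemma T2_apply (G : Tri N) (ζ : E N →ₗ[ℝ] ℝ) (d : ℝ) (a b c : E (N + 1)) : (T2 G ζ d).f a b c =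
    d * G.f (pv a) (pv b) (pv c) - 1 / 3 * (pw a * pw b * ζ (pv c) +
      pw a * pw c * ζ (pv b) + pw b * pw c * ζ (pv a)) := by
  rw [T2, Tw_apply]
  rfl

lemma T3_rat {G : Tri N} (hG : Rat3 G K) {d : ℝ} (hd : d ∈ K) : Rat3 (T3 G d) K :=
  Tw_rat hG (fun _ hv => rt_pw hv) hd

lemma T2_rat {G : Tri N} (hG : Rat3 G K) {ζ : E N →ₗ[ℝ] ℝ} (hζ : RL K ζ) {d : ℝ} (hd : d ∈ K) :
    Rat3 (T2 G ζ d) K :=
  Tw_rat hG (fun _ hv => hζ _ (rt_pv hv)) hd

lemma zero_rt (N : ℕ) : Rt K (0 : E N) := fun _ => K.zero_mem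

/-- a rational hyperplane in `d G(v) = w³` -/
lemma NH3 {G : Tri N} {d : ℝ} (h : ¬ NH (T3 G d) K) :
    ∃ a : Fin N → K, ∀ v, Rt K v → d * G.f v v v = dt a v ^ 3 := by
  unfold NH at h
  push Not at h
  obtain ⟨A, hA, hz⟩ := h
  by_cases hA0 : A 0 = 0
  · exfalso
    have h1 := hz (cv 1 0) (rt_cv K.one_mem (zero_rt N)) (by
      rw [Fin.sum_univ_succ, hA0]
      simp [cv_succ])
    rw [T3_apply] at h1
    simp at h1
  · have hA0' : (A 0 : ℝ) ≠ 0 := fun h => hA0 (Subtype.ext h)
    refine ⟨fun i => -(A i.succ) / A 0, fun v hv => ?_⟩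
    set w : ℝ := dt (fun i : Fin N => -(A i.succ) / A 0) v with hw
    have hwK : w ∈ K := dt_mem _ hv
    have hsum : ∑ i : Fin N, (A i.succ : ℝ) * v i = - (A 0 : ℝ) * w := by
      rw [hw, dt_apply, Finset.mul_sum]
      refine Finset.sum_congr rfl fun i _ => ?_
      have : (((-(A i.succ) / A 0 : K)) : ℝ) = -(A i.succ : ℝ) / (A 0 : ℝ) := by
        push_cast
        rfl
      rw [this]
      field_simp
    have h1 := hz (cv w v) (rt_cv hwK hv) (by
      rw [Fin.sum_univ_succ]
      simp only [cv_zero, cv_succ]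
      rw [hsum]
      ring)
    rw [T3_apply] at h1
    simp only [pv_cv, pw_cv] at h1
    linear_combination h1

/-- a rational hyperplane in `d G(v) = w² ζ(v)` -/
lemma NH2 {G : Tri N} {ζ : E N →ₗ[ℝ] ℝ} (hζ0 : ∃ v, Rt K v ∧ ζ v ≠ 0) {d : ℝ} (hd : d ≠ 0)
    (h : ¬ NH (T2 G ζ d) K) : ∀ v, Rt K v → ζ v = 0 → G.f v v v = 0 := by
  unfold NH at h
  push Not at h
  obtain ⟨A, hA, hz⟩ := h
  intro v hv hζv
  by_cases hA0 : A 0 = 0
  · have key : ∀ u, Rt K u → ∑ i : Fin N, (A i.succ : ℝ) * u i = 0 → G.f u u u = 0 ∧ ζ u = 0 := by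
      intro u hu hsum
      have h1 := hz (cv 0 u) (rt_cv K.zero_mem hu) (by
        rw [Fin.sum_univ_succ, hA0]
        simp only [cv_zero, cv_succ]
        rw [hsum]; simp)
      have h2 := hz (cv 1 u) (rt_cv K.one_mem hu) (by
        rw [Fin.sum_univ_succ, hA0]
        simp only [cv_zero, cv_succ]
        rw [hsum]; simp)
      rw [T2_apply] at h1 h2
      simp only [pv_cv, pw_cv] at h1 h2
      have h3 : G.f u u u = 0 := by
        have : d * G.f u u u = 0 := by linear_combination h1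
        exact (mul_eq_zero.1 this).resolve_left hd
      exact ⟨h3, by rw [h3] at h2; linear_combination -h2⟩
    by_cases hs : ∑ i : Fin N, (A i.succ : ℝ) * v i = 0
    · exact (key v hv hs).1
    · exfalso
      obtain ⟨u, hu, hζu⟩ := hζ0
      set a : Fin N → K := fun i => A i.succ with ha
      have hdt : ∀ u : E N, ∑ i : Fin N, (A i.succ : ℝ) * u i = dt a u := fun u => rfl
      rw [hdt] at hs
      have h1 := (key (u - (dt a u / dt a v) • v) (hu.sub (hv.smul (K.div_mem (dt_mem a hu)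
        (dt_mem a hv)))) (by
          rw [hdt, map_sub, map_smul, smul_eq_mul]
          field_simp
          ring)).2
      rw [map_sub, map_smul, hζv, smul_zero, sub_zero] at h1
      exact hζu h1
  · have hA0' : (A 0 : ℝ) ≠ 0 := fun h => hA0 (Subtype.ext h)
    set w : ℝ := dt (fun i : Fin N => -(A i.succ) / A 0) v with hw
    have hwK : w ∈ K := dt_mem _ hv
    have hsum : ∑ i : Fin N, (A i.succ : ℝ) * v i = - (A 0 : ℝ) * w := by
      rw [hw, dt_apply, Finset.mul_sum]
      refine Finset.sum_congr rfl fun i _ => ?_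
      have : (((-(A i.succ) / A 0 : K)) : ℝ) = -(A i.succ : ℝ) / (A 0 : ℝ) := by
        push_cast
        rfl
      rw [this]
      field_simp
    have h1 := hz (cv w v) (rt_cv hwK hv) (by
      rw [Fin.sum_univ_succ]
      simp only [cv_zero, cv_succ]
      rw [hsum]
      ring)
    rw [T2_apply] at h1
    simp only [pv_cv, pw_cv] at h1
    rw [hζv] at h1
    have : d * G.f v v v = 0 := by linear_combination h1
    exact (mul_eq_zero.1 this).resolve_left hd

/-- a continuous cube root -/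
lemma exists_cbrt : ∃ c : ℝ → ℝ, Continuous c ∧ ∀ x, c x ^ 3 = x := by
  have h3 : Odd 3 := by decide
  have hs : Function.Surjective fun x : ℝ => x ^ 3 := by
    intro y
    have h0 := abs_nonneg y
    have h1 := neg_abs_le y
    have h2 := le_abs_self y
    have hc : ContinuousOn (fun x : ℝ => x ^ 3) (Icc (-(|y| + 1)) (|y| + 1)) :=
      (continuous_pow 3).continuousOn
    obtain ⟨x, -, hx⟩ := intermediate_value_Icc (by linarith) hc (show y ∈ Icc _ _ from
      ⟨by nlinarith [mul_nonneg h0 h0, mul_nonneg (mul_nonneg h0 h0) h0],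
        by nlinarith [mul_nonneg h0 h0, mul_nonneg (mul_nonneg h0 h0) h0]⟩)
    exact ⟨x, hx⟩
  let e : ℝ ≃o ℝ := StrictMono.orderIsoOfSurjective (fun x : ℝ => x ^ 3) h3.strictMono_pow hs
  refine ⟨e.symm, e.symm.continuous, fun x => ?_⟩
  exact e.apply_symm_apply x

lemma cube_inj {a b : ℝ} (h : a ^ 3 = b ^ 3) : a = b := by
  have h3 : Odd 3 := by decide
  exact h3.strictMono_pow.injective h

/-- the vectors with many points on the twist, exponent three -/
def P3 (K : Subfield ℝ) (G : Tri N) : Set (E N) :=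
  {v | Rt K v ∧ ∃ d ∈ K, d ≠ 0 ∧ ∃ w ∈ K, w ≠ 0 ∧ d * G.f v v v = w ^ 3 ∧ ∃ R, Int' (T3 G d) K R}

/-- the vectors with many points on the twist, exponent two -/
def P2 (K : Subfield ℝ) (G : Tri N) (ζ : E N →ₗ[ℝ] ℝ) : Set (E N) :=
  {v | Rt K v ∧ ζ v ≠ 0 ∧ ∃ d ∈ K, d ≠ 0 ∧ ∃ w ∈ K, w ≠ 0 ∧ d * G.f v v v = w ^ 2 * ζ v ∧
    ∃ R, Int' (T2 G ζ d) K R}

/-- a rational point near a point of the closure -/
lemma W_near {M : ℕ} {F : Tri M} {x : E M} (hx : x ∈ W F K) {δ : ℝ} (hδ : 0 < δ) :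
    ∃ z ∈ Z F K, dist z x < δ := by
  obtain ⟨z, hz, hd⟩ := Metric.mem_closure_iff.1 hx δ hδ
  exact ⟨z, hz, by rwa [dist_comm]⟩

theorem FP3 (hK : KA K) {G : Tri N} (hG : Rat3 G K) (hN : ∀ d ∈ K, d ≠ 0 → NH (T3 G d) K) :
    FP K 3 (fun v => G.f v v v) (P3 K G) {x | G.f x x x ≠ 0} where
  rt := fun z hz => hz.1
  sa := SAP.not (SAP.eq_zeroA (tri_PA hK hG (fun i => PA.coord i) (fun i => PA.coord i)
    (fun i => PA.coord i)))
  sub := by
    rintro z ⟨-, d, -, -, w, -, hw, h, -⟩
    intro h0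
    have h0' : G.f z z z = 0 := h0
    rw [h0', mul_zero] at h
    exact pow_ne_zero 3 hw h.symm
  move := by
    intro x hx
    have hc : Continuous fun u : E N => G.f u u u := cont G continuous_id continuous_id continuous_id
    have hop : IsOpen {u : E N | G.f u u u ≠ 0} := isOpen_ne_fun hc continuous_const
    obtain ⟨r, hr, hball⟩ := Metric.isOpen_iff.1 hop x hx
    refine ⟨r, hr, ?_⟩
    rintro z ⟨hz, d, hdK, hd, w, hwK, hw, hdw, R, hR⟩ hzx y hy hyx ε hε
    obtain ⟨c, hcc, hc3⟩ := exists_cbrt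
    have hmem := W_conn (T3_rat hG hdK) (hN d hdK hd) hR
      (convex_ball x r).isPreconnected (ω := fun u => cv (c (d * G.f u u u)) u)
      (cv_cont ((hcc.comp (continuous_const.mul hc)).continuousOn) continuousOn_id)
      (fun u hu => by
        rw [T3_apply]
        simp only [pv_cv, pw_cv]
        have := hc3 (d * G.f u u u)
        linear_combination -this)
      (fun u hu => ⟨cv 1 0, by
        rw [T3_apply]
        simp only [pv_cv, pw_cv, map_zero, mul_zero, zero_sub, mul_one, neg_ne_zero]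
        intro h0
        have h1 : c (d * G.f u u u) = 0 := by simpa using h0
        have h2 := hc3 (d * G.f u u u)
        rw [h1] at h2
        have h3 : G.f u u u ≠ 0 := hball hu
        apply mul_ne_zero hd h3
        rw [← h2]; ring⟩) hzx (by
        refine subset_closure ⟨?_, ?_⟩
        · refine rt_cv ?_ hz
          rw [hdw, cube_inj (hc3 (w ^ 3))]
          exact hwK
        · rw [T3_apply]
          simp only [pv_cv, pw_cv]
          have := hc3 (d * G.f z z z)
          linear_combination -this) y hyx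
    have hy0 : c (d * G.f y y y) ≠ 0 := by
      intro h0
      have h2 := hc3 (d * G.f y y y)
      rw [h0] at h2
      apply mul_ne_zero hd hy
      rw [← h2]; ring
    obtain ⟨V, ⟨hVr, hVz⟩, hV⟩ := W_near hmem (lt_min hε (abs_pos.2 hy0))
    have hVy : dist (pv V) y < ε := by
      have h1 := dist_pv V (cv (c (d * G.f y y y)) y)
      rw [pv_cv] at h1
      exact lt_of_le_of_lt h1 (lt_of_lt_of_le hV (min_le_left _ _))
    have hVw : pw V ≠ 0 := by
      intro h0
      have h1 := dist_pw V (cv (c (d * G.f y y y)) y)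
      rw [pw_cv, h0, zero_sub, abs_neg] at h1
      have h2 := lt_of_le_of_lt h1 (lt_of_lt_of_le hV (min_le_right _ _))
      exact lt_irrefl _ h2
    rw [T3_apply] at hVz
    have hVz' : d * G.f (pv V) (pv V) (pv V) = pw V ^ 3 := by linear_combination hVz
    refine ⟨pv V, ⟨rt_pv hVr, d, hdK, hd, pw V, rt_pw hVr, hVw, hVz', R, hR⟩, hVy, pw V / w,
      K.div_mem (rt_pw hVr) hwK, div_ne_zero hVw hw, ?_⟩
    have : d * (G.f (pv V) (pv V) (pv V) * w ^ 3) = d * (pw V ^ 3 * G.f z z z) := by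
      calc _ = (d * G.f (pv V) (pv V) (pv V)) * w ^ 3 := by ring
        _ = pw V ^ 3 * (d * G.f z z z) := by rw [hVz', hdw]
        _ = _ := by ring
    have h2 := mul_left_cancel₀ hd this
    field_simp
    linear_combination h2

theorem FP2 (hK : KA K) {G : Tri N} (hG : Rat3 G K) {ζ : E N →ₗ[ℝ] ℝ} (hζ : RL K ζ)
    (hN : ∀ d ∈ K, d ≠ 0 → NH (T2 G ζ d) K) :
    FP K 2 (fun v => G.f v v v * ζ v) (P2 K G ζ) {x | G.f x x x * ζ x ≠ 0} where
  rt := fun z hz => hz.1
  sa := by
    obtain ⟨a, ha⟩ := exists_dt ζ hζ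
    refine SAP.not (SAP.eq_zeroA ((tri_PA hK hG (fun i => PA.coord i) (fun i => PA.coord i)
      (fun i => PA.coord i)).mul ?_))
    have := dt_PA hK a (f := fun v : E N => v) (fun i => PA.coord i)
    simpa only [ha] using this
  sub := by
    rintro z ⟨-, hζz, d, -, -, w, -, hw, h, -⟩
    intro h0
    have h0' : G.f z z z * ζ z = 0 := h0
    have h1 := (mul_eq_zero.1 h0').resolve_right hζz
    rw [h1, mul_zero] at h
    exact mul_ne_zero (pow_ne_zero 2 hw) hζz h.symm
  move := by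
    intro x hx
    have hx0 : G.f x x x * ζ x ≠ 0 := hx
    have hc : Continuous fun u : E N => G.f u u u := cont G continuous_id continuous_id continuous_id
    have hcζ : Continuous ζ := LinearMap.continuous_of_finiteDimensional ζ
    have hop : IsOpen {u : E N | 0 < (G.f u u u * ζ u) * (G.f x x x * ζ x)} :=
      isOpen_lt continuous_const ((hc.mul hcζ).mul continuous_const)
    obtain ⟨r, hr, hball⟩ := Metric.isOpen_iff.1 hop x (mul_self_pos.2 hx0)
    refine ⟨r, hr, ?_⟩
    rintro z ⟨hz, hζz, d, hdK, hd, w, hwK, hw, hdw, R, hR⟩ hzx y hy hyx ε hε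
    have hpos : ∀ u ∈ Metric.ball x r, 0 < d * G.f u u u / ζ u := by
      intro u hu
      have h1 : 0 < (G.f u u u * ζ u) * (G.f x x x * ζ x) := hball hu
      have h2 : 0 < (G.f z z z * ζ z) * (G.f x x x * ζ x) := hball hzx
      have h3 : 0 < d * (G.f z z z * ζ z) := by
        have : d * (G.f z z z * ζ z) = w ^ 2 * ζ z ^ 2 := by
          calc _ = (d * G.f z z z) * ζ z := by ring
            _ = _ := by rw [hdw]; ring
        rw [this]
        positivity
      set A := G.f u u u * ζ u with hA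
      set B := G.f z z z * ζ z with hB
      set C := G.f x x x * ζ x with hC
      have h4 : 0 < A * B := by
        have h5 : 0 < (A * B) * C ^ 2 := by nlinarith
        exact pos_of_mul_pos_left h5 (sq_nonneg C)
      have h6 : 0 < d * A := by
        have h7 : 0 < (d * A) * B ^ 2 := by nlinarith
        exact pos_of_mul_pos_left h7 (sq_nonneg B)
      have hζu : ζ u ≠ 0 := by
        intro h0
        rw [hA, h0, mul_zero, mul_zero] at h6
        exact lt_irrefl _ h6
      have h8 : d * G.f u u u / ζ u = (d * A) / ζ u ^ 2 := by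
        rw [hA]
        field_simp
      rw [h8]
      positivity
    have hζb : ∀ u ∈ Metric.ball x r, ζ u ≠ 0 := by
      intro u hu h0
      have := hpos u hu
      rw [h0, div_zero] at this
      exact lt_irrefl _ this
    have hsq : ∀ u ∈ Metric.ball x r, Real.sqrt (d * G.f u u u / ζ u) ^ 2 * ζ u =
        d * G.f u u u := by
      intro u hu
      rw [Real.sq_sqrt (hpos u hu).le]
      have := hζb u hu
      field_simp
    have hmem := W_conn (T2_rat hG hζ hdK) (hN d hdK hd) hR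
      (convex_ball x r).isPreconnected (ω := fun u => cv (Real.sqrt (d * G.f u u u / ζ u)) u)
      (cv_cont (Real.continuous_sqrt.comp_continuousOn
        (((continuous_const.mul hc).continuousOn).div hcζ.continuousOn hζb)) continuousOn_id)
      (fun u hu => by
        rw [T2_apply]
        simp only [pv_cv, pw_cv]
        have := hsq u hu
        linear_combination -this)
      (fun u hu => ⟨cv 1 0, by
        rw [T2_apply]
        simp only [pv_cv, pw_cv, map_zero, mul_zero, zero_sub, mul_one, neg_ne_zero, zero_add]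
        have h1 := (Real.sqrt_pos.2 (hpos u hu)).ne'
        have h2 := hζb u hu
        have : 1 / 3 * (Real.sqrt (d * G.f u u u / ζ u) * ζ u +
            Real.sqrt (d * G.f u u u / ζ u) * ζ u) = (2 / 3) * (Real.sqrt (d * G.f u u u / ζ u) *
            ζ u) := by ring
        rw [this]
        exact mul_ne_zero (by norm_num) (mul_ne_zero h1 h2)⟩) hzx (by
        have h1 : Real.sqrt (d * G.f z z z / ζ z) = |w| := by
          rw [hdw, mul_div_assoc, div_self hζz, mul_one, Real.sqrt_sq_eq_abs]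
        refine subset_closure ⟨?_, ?_⟩
        · refine rt_cv ?_ hz
          rw [h1]
          rcases abs_choice w with h | h <;> rw [h]
          · exact hwK
          · exact K.neg_mem hwK
        · rw [T2_apply]
          simp only [pv_cv, pw_cv]
          have := hsq z hzx
          linear_combination -this) y hyx
    have hy0 : Real.sqrt (d * G.f y y y / ζ y) ≠ 0 := (Real.sqrt_pos.2 (hpos y hyx)).ne'
    have hopζ : IsOpen {u : E N | ζ u ≠ 0} := isOpen_ne_fun hcζ continuous_const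
    obtain ⟨ρ, hρ, hballζ⟩ := Metric.isOpen_iff.1 hopζ y (hζb y hyx)
    obtain ⟨V, ⟨hVr, hVz⟩, hV⟩ := W_near hmem (lt_min (lt_min hε hρ) (abs_pos.2 hy0))
    have hVy' : dist (pv V) y < min ε ρ := by
      have h1 := dist_pv V (cv (Real.sqrt (d * G.f y y y / ζ y)) y)
      rw [pv_cv] at h1
      exact lt_of_le_of_lt h1 (lt_of_lt_of_le hV (min_le_left _ _))
    have hVy : dist (pv V) y < ε := lt_of_lt_of_le hVy' (min_le_left _ _)
    have hVζ : ζ (pv V) ≠ 0 := hballζ (lt_of_lt_of_le hVy' (min_le_right _ _))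
    have hVw : pw V ≠ 0 := by
      intro h0
      have h1 := dist_pw V (cv (Real.sqrt (d * G.f y y y / ζ y)) y)
      rw [pw_cv, h0, zero_sub, abs_neg] at h1
      have h2 := lt_of_le_of_lt h1 (lt_of_lt_of_le hV (min_le_right _ _))
      exact lt_irrefl _ h2
    rw [T2_apply] at hVz
    have hVz' : d * G.f (pv V) (pv V) (pv V) = pw V ^ 2 * ζ (pv V) := by linear_combination hVz
    refine ⟨pv V, ⟨rt_pv hVr, hVζ, d, hdK, hd, pw V, rt_pw hVr, hVw, hVz', R, hR⟩, hVy,
      pw V * ζ (pv V) / (w * ζ z), K.div_mem (K.mul_mem (rt_pw hVr) (hζ _ (rt_pv hVr)))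
      (K.mul_mem hwK (hζ _ hz)), div_ne_zero (mul_ne_zero hVw hVζ) (mul_ne_zero hw hζz), ?_⟩
    have : d * (G.f (pv V) (pv V) (pv V) * (w ^ 2 * ζ z)) = d * (pw V ^ 2 * ζ (pv V) *
        G.f z z z) := by
      calc _ = (d * G.f (pv V) (pv V) (pv V)) * (w ^ 2 * ζ z) := by ring
        _ = pw V ^ 2 * ζ (pv V) * (d * G.f z z z) := by rw [hVz', hdw]
        _ = _ := by ring
    have h2 := mul_left_cancel₀ hd this
    field_simp
    linear_combination h2

lemma P3_cone {G : Tri N} : Cn K (P3 K G) := by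
  rintro z ⟨hz, d, hdK, hd, w, hwK, hw, hdw, R, hR⟩ t ht ht0
  refine ⟨hz.smul ht, d, hdK, hd, t * w, K.mul_mem ht hwK, mul_ne_zero ht0 hw, ?_, R, hR⟩
  simp only [map_smul, LinearMap.smul_apply, smul_eq_mul]
  linear_combination t ^ 3 * hdw

lemma P2_cone {G : Tri N} {ζ : E N →ₗ[ℝ] ℝ} : Cn K (P2 K G ζ) := by
  rintro z ⟨hz, hζz, d, hdK, hd, w, hwK, hw, hdw, R, hR⟩ t ht ht0
  refine ⟨hz.smul ht, by rw [map_smul]; exact mul_ne_zero ht0 hζz, d, hdK, hd, t * w,
    K.mul_mem ht hwK, mul_ne_zero ht0 hw, ?_, R, hR⟩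
  simp only [map_smul, LinearMap.smul_apply, smul_eq_mul]
  linear_combination t ^ 3 * hdw

end Pool.Agent.NH8.C
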