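import Pool.Agent.NH8.CB

/-!
# The special vectors are covered by finitely many hyperplanes
-/

set_option autoImplicit false
set_option linter.unusedSectionVars false
set_option linter.unusedVariables false
set_option linter.unusedSimpArgs false

open Set Filter Topology Pool.Agent.H581R2 Pool.Agent.TH729.SQ Pool.Agent.TH729.CC

namespace Pool.Agent.NH8.C

variable {K : Subfield ℝ} {N : ℕ}

/-- maximal finite sets for a relation with a bound -/
lemma exists_max {α : Type*} [DecidableEq α] (B : Set α) (r : α → α → Prop)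
    (hsymm : ∀ v ∈ B, ∀ w ∈ B, r v w → r w v) (M : ℕ)
    (hb : ∀ S : Finset α, (∀ v ∈ S, v ∈ B) → (∀ v ∈ S, ∀ w ∈ S, v ≠ w → r v w) → S.card ≤ M) :
    ∃ S : Finset α, (∀ v ∈ S, v ∈ B) ∧ ∀ v ∈ B, v ∈ S ∨ ∃ s ∈ S, ¬ r s v := by
  set T : Set ℕ := {n | ∃ S : Finset α, (∀ v ∈ S, v ∈ B) ∧
    (∀ v ∈ S, ∀ w ∈ S, v ≠ w → r v w) ∧ S.card = n} with hT
  have hne : T.Nonempty := ⟨0, ∅, by simp, by simp, by simp⟩
  have hbd : BddAbove T := ⟨M, by rintro n ⟨S, h1, h2, rfl⟩; exact hb S h1 h2⟩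
  obtain ⟨S, h1, h2, h3⟩ := Nat.sSup_mem hne hbd
  refine ⟨S, h1, fun v hv => ?_⟩
  by_contra hcon
  push Not at hcon
  obtain ⟨hvS, hall⟩ := hcon
  have h4 : S.card + 1 ∈ T := by
    refine ⟨insert v S, ?_, ?_, Finset.card_insert_of_notMem hvS⟩
    · intro w hw
      rcases Finset.mem_insert.1 hw with rfl | hw
      · exact hv
      · exact h1 w hw
    · intro w hw w' hw' hne
      rcases Finset.mem_insert.1 hw with h5 | h5
      · rcases Finset.mem_insert.1 hw' with h6 | h6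
        · exact absurd (h5.trans h6.symm) hne
        · rw [h5]
          exact hsymm _ (h1 _ h6) _ hv (hall _ h6)
      · rcases Finset.mem_insert.1 hw' with h6 | h6
        · rw [h6]
          exact hall _ h5
        · exact h2 _ h5 _ h6 hne
  have h5 := le_csSup hbd h4
  omega

/-! ### The exponent three -/

/-- the special vectors -/
def B3 (K : Subfield ℝ) (G : Tri N) : Set (E N) :=
  {v | Rt K v ∧ G.f v v v ≠ 0 ∧ ∀ u, G.f v v v * G.f v u u = G.f v v u ^ 2}

lemma B3_pol {G : Tri N} {v : E N} (hv : v ∈ B3 K G) (u u' : E N) :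
    G.f v v v * G.f v u u' = G.f v v u * G.f v v u' := by
  have h1 := hv.2.2 (u + u')
  have h2 := hv.2.2 u
  have h3 := hv.2.2 u'
  simp only [map_add, LinearMap.add_apply] at h1
  rw [G.s23 v u' u] at h1
  linear_combination (1 / 2) * h1 - (1 / 2) * h2 - (1 / 2) * h3

lemma B3_symm {G : Tri N} {v₁ v₂ : E N} (h₁ : v₁ ∈ B3 K G) (h₂ : v₂ ∈ B3 K G)
    (h : G.f v₁ v₁ v₂ = 0) : G.f v₂ v₂ v₁ = 0 := by
  have h3 := h₁.2.2 v₂
  rw [h] at h3
  have h4 : G.f v₁ v₂ v₂ = 0 := by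
    rcases mul_eq_zero.1 (h3.trans (by ring)) with h5 | h5
    · exact absurd h5 h₁.2.1
    · exact h5
  rw [← h4]
  exact (G.n3 v₁ v₂ v₂).2.2.2.1

/-- two special vectors which are not orthogonal are proportional modulo the radical -/
lemma B3_same {G : Tri N} {v₁ v₂ : E N} (h₁ : v₁ ∈ B3 K G) (h₂ : v₂ ∈ B3 K G)
    (h : G.f v₁ v₁ v₂ ≠ 0) :
    ∀ u u', G.f (v₂ - (G.f v₁ v₁ v₂ / G.f v₁ v₁ v₁) • v₁) u u' = 0 := by
  have hg1 := h₁.2.1
  have hg2 := h₂.2.1
  have e1 := h₁.2.2 v₂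
  have e2 := h₂.2.2 v₁
  have c1 : G.f v₂ v₂ v₁ = G.f v₁ v₂ v₂ := (G.n2 v₁ v₂).2.2.1
  have c2 : G.f v₂ v₁ v₁ = G.f v₁ v₁ v₂ := (G.n2 v₁ v₂).1
  rw [c1, c2] at e2
  have p1 := B3_pol h₁
  have p2 := B3_pol h₂
  set g1 := G.f v₁ v₁ v₁ with hg1'
  set g2 := G.f v₂ v₂ v₂ with hg2'
  set p := G.f v₁ v₁ v₂ with hp
  set q := G.f v₁ v₂ v₂ with hq
  set t := p / g1 with ht
  have hq0 : q = p ^ 2 / g1 := by
    field_simp
    linear_combination e1
  have hg2p : g2 = t ^ 3 * g1 := by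
    have h3 : g2 * p = (p ^ 2 / g1) ^ 2 := by rw [← hq0]; exact e2
    rw [ht]
    field_simp at h3 ⊢
    linear_combination h3
  have ht0 : t ≠ 0 := div_ne_zero h hg1
  set x := v₂ - t • v₁ with hx
  have hv2 : v₂ = x + t • v₁ := by rw [hx]; simp
  -- `G v₁ x u = 0`
  have s1 : G.f v₁ v₁ x = 0 := by
    rw [hx, map_sub, map_smul, smul_eq_mul, ← hp, ← hg1', ht]
    field_simp
    ring
  have s2 : ∀ u, G.f v₁ x u = 0 := by
    intro u
    have h3 := p1 x u
    rw [s1, zero_mul] at h3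
    exact (mul_eq_zero.1 h3).resolve_left hg1
  have s3 : G.f v₂ v₂ x = 0 := by
    rw [hx, map_sub, map_smul, smul_eq_mul, c1, ← hg2', hg2p, hq0, ht]
    field_simp
    ring
  have s4 : ∀ u, G.f v₂ x u = 0 := by
    intro u
    have h3 := p2 x u
    rw [s3, zero_mul] at h3
    exact (mul_eq_zero.1 h3).resolve_left hg2
  have s5 : ∀ u, G.f x x u = 0 := by
    intro u
    have h3 := s4 u
    rw [hv2] at h3
    simp only [map_add, map_smul, LinearMap.add_apply, LinearMap.smul_apply, smul_eq_mul] at h3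
    rw [s2 u, mul_zero, add_zero] at h3
    exact h3
  have s6 : ∀ u, G.f v₂ v₂ u = t ^ 2 * G.f v₁ v₁ u := by
    intro u
    have h3 := s4 u
    have h4 : G.f v₂ v₂ u = G.f v₂ x u + t * G.f v₂ v₁ u := by
      conv_lhs => rw [show (G.f v₂) v₂ = G.f v₂ (x + t • v₁) by rw [← hv2]]
      simp only [map_add, map_smul, LinearMap.add_apply, LinearMap.smul_apply, smul_eq_mul]
    have h5 : G.f v₂ v₁ u = G.f x v₁ u + t * G.f v₁ v₁ u := by
      conv_lhs => rw [hv2]
      simp only [map_add, map_smul, LinearMap.add_apply, LinearMap.smul_apply, smul_eq_mul]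
    rw [h4, h5, h3, G.p1 v₁ x u, s2 u]
    ring
  intro u u'
  have k1 := p1 u u'
  have k2 := p2 u u'
  rw [s6, s6, hg2p] at k2
  rw [hx]
  simp only [map_sub, map_smul, LinearMap.sub_apply, LinearMap.smul_apply, smul_eq_mul]
  have k3 : t ^ 3 * g1 * G.f v₂ u u' = t ^ 3 * g1 * (t * G.f v₁ u u') := by
    rw [k2]
    linear_combination (-t ^ 4) * k1
  have k4 := mul_left_cancel₀ (mul_ne_zero (pow_ne_zero 3 ht0) hg1) k3
  rw [k4]
  ring

/-- pairwise orthogonal special vectors are few -/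
lemma B3_card {G : Tri N} (S : Finset (E N)) (h1 : ∀ v ∈ S, v ∈ B3 K G)
    (h2 : ∀ v ∈ S, ∀ w ∈ S, v ≠ w → G.f v v w = 0) : S.card ≤ N := by
  have hli : LinearIndependent ℝ (fun v : S => (v : E N)) := by
    rw [Fintype.linearIndependent_iff]
    intro c hc v
    have h3 := congrArg (G.f v v) hc
    rw [map_sum, map_zero, Finset.sum_eq_single v] at h3
    · rw [map_smul, smul_eq_mul] at h3
      exact (mul_eq_zero.1 h3).resolve_right (h1 v v.2).2.1
    · intro w _ hw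
      rw [map_smul, h2 v v.2 w w.2 (fun h => hw (Subtype.ext h.symm)), smul_zero]
    · simp
  have h3 := hli.fintype_card_le_finrank
  simpa using h3

/-- rational vectors determine the functional -/
lemma rational_real {φ : E N → ℝ} (hφ : Continuous φ) (h : ∀ v, Rt K v → φ v = 0) : ∀ v, φ v = 0 := by
  intro v
  have hcl : IsClosed {v | φ v = 0} := isClosed_eq hφ continuous_const
  have : (univ : Set (E N)) ⊆ {v | φ v = 0} := by
    rw [← (dense_rt (K := K) (m := N)).closure_eq]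
    exact closure_minimal (fun v hv => h v hv) hcl
  exact this (mem_univ v)

/-- **the cover, exponent three** -/
theorem cover3 {G : Tri N} (hG : Rat3 G K)
    (hnc : ¬ ∃ c ∈ K, ∃ a : Fin N → K, ∀ v, Rt K v → G.f v v v = c * dt a v ^ 3) :
    ∃ L : Set (Fin N → K), L.Finite ∧ (∀ a ∈ L, a ≠ 0) ∧ ∀ v ∈ B3 K G, ∃ a ∈ L, dt a v = 0 := by
  classical
  have hfun : ∀ s ∈ B3 K G, ∃ a : Fin N → K, a ≠ 0 ∧ dt a s = 0 ∧
      ∀ y, (∀ u u', G.f y u u' = 0) → dt a y = 0 := by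
    intro s hs
    obtain ⟨hsr, hg, hsq⟩ := hs
    obtain ⟨u0, hu0, hne⟩ : ∃ u0, Rt K u0 ∧ G.f u0 u0 u0 ≠ (G.f s s s)⁻¹ ^ 2 * G.f s s u0 ^ 3 := by
      by_contra hcon
      push Not at hcon
      obtain ⟨a, ha⟩ := exists_dt (K := K) (G.f s s) fun v hv => hG _ _ _ hsr hsr hv
      exact hnc ⟨(G.f s s s)⁻¹ ^ 2, K.pow_mem (K.inv_mem (hG _ _ _ hsr hsr hsr)) 2, a,
        fun v hv => by rw [ha]; exact hcon v hv⟩
    set τ := G.f s s u0 / G.f s s s with hτ
    have hτK : τ ∈ K := K.div_mem (hG _ _ _ hsr hsr hu0) (hG _ _ _ hsr hsr hsr)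
    set x0 := u0 - τ • s with hx0
    have hx0r : Rt K x0 := hu0.sub (hsr.smul hτK)
    have e1 : G.f s s x0 = 0 := by
      rw [hx0, map_sub, map_smul, smul_eq_mul, hτ]
      field_simp
      ring
    have e2 : G.f s x0 x0 = 0 := by
      have := hsq x0
      rw [e1] at this
      rcases mul_eq_zero.1 (this.trans (by ring)) with h | h
      · exact absurd h hg
      · exact h
    have e3 : G.f x0 x0 x0 ≠ 0 := by
      intro h0
      apply hne
      have hu : u0 = x0 + τ • s := by rw [hx0]; simp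
      have : G.f u0 u0 u0 = τ ^ 3 * G.f s s s := by
        conv_lhs => rw [hu]
        clear_value x0
        simp only [map_add, map_smul, LinearMap.add_apply, LinearMap.smul_apply, smul_eq_mul]
        have c1 : G.f x0 s s = G.f s s x0 := (G.n2 s x0).1
        have c2 : G.f s x0 s = G.f s s x0 := (G.n2 s x0).2.1
        have c3 : G.f x0 x0 s = G.f s x0 x0 := (G.n2 s x0).2.2.1
        have c4 : G.f x0 s x0 = G.f s x0 x0 := (G.n2 s x0).2.2.2
        rw [c1, c2, c3, c4, e1, e2, h0]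
        ring
      rw [this, hτ]
      field_simp
    obtain ⟨a, ha⟩ := exists_dt (K := K) (G.f x0 x0) fun v hv => hG _ _ _ hx0r hx0r hv
    refine ⟨a, ?_, ?_, fun y hy => ?_⟩
    · rintro rfl
      have := ha x0
      rw [dt_apply] at this
      apply e3
      rw [← this]
      simp
    · rw [ha, (G.n2 s x0).2.2.1, e2]
    · rw [ha, (G.n2 y x0).2.2.1]
      exact hy _ _
  obtain ⟨S, hS1, hS2⟩ := exists_max (B3 K G) (fun v w => G.f v v w = 0)
    (fun v hv w hw h => B3_symm hv hw h) N (fun S h1 h2 => B3_card S h1 h2)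
  choose! af h1 h2 h3 using hfun
  refine ⟨af '' (S : Set (E N)), S.finite_toSet.image af, ?_, fun v hv => ?_⟩
  · rintro _ ⟨s, hs, rfl⟩
    exact h1 s (hS1 s hs)
  · rcases hS2 v hv with hvS | ⟨s, hs, hsv⟩
    · exact ⟨af v, ⟨v, hvS, rfl⟩, h2 v hv⟩
    · refine ⟨af s, ⟨s, hs, rfl⟩, ?_⟩
      have hsB := hS1 s hs
      have h4 := h3 s hsB _ (B3_same hsB hv hsv)
      rw [map_sub, map_smul, h2 s hsB, smul_zero, sub_zero] at h4
      exact h4

end Pool.Agent.NH8.C
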