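import Pool.Agent.NH8.CD

/-!
# The special vectors are covered by finitely many hyperplanes: the exponent two
-/

set_option autoImplicit false
set_option linter.unusedSectionVars false
set_option linter.unusedVariables false
set_option linter.unusedSimpArgs false

open Set Filter Topology Pool.Agent.H581R2 Pool.Agent.TH729.SQ Pool.Agent.TH729.CC

namespace Pool.Agent.NH8.C

variable {K : Subfield ℝ} {N : ℕ}

/-- the tangent functional -/
noncomputable def Lf (G : Tri N) (ζ : E N →ₗ[ℝ] ℝ) (v : E N) : E N →ₗ[ℝ] ℝ :=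
  (3 / (2 * G.f v v v)) • G.f v v - (1 / 2 : ℝ) • ζ

/-- the special vectors -/
def B2 (K : Subfield ℝ) (G : Tri N) (ζ : E N →ₗ[ℝ] ℝ) : Set (E N) :=
  {v | Rt K v ∧ ζ v = 1 ∧ G.f v v v ≠ 0 ∧ ∀ u, 12 * G.f v v v * G.f v u u =
    (3 * G.f v v u + G.f v v v * ζ u) ^ 2 - 4 * (G.f v v v * ζ u) ^ 2}

lemma B2_lin {G : Tri N} {ζ : E N →ₗ[ℝ] ℝ} {v : E N} (hg : G.f v v v ≠ 0) (u : E N) :
    G.f v v u = G.f v v v / 3 * (2 * Lf G ζ v u + ζ u) := by
  simp only [Lf, LinearMap.sub_apply, LinearMap.smul_apply, smul_eq_mul]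
  field_simp
  ring

lemma B2_quad {G : Tri N} {ζ : E N →ₗ[ℝ] ℝ} {v : E N} (hv : v ∈ B2 K G ζ) (u u' : E N) :
    G.f v u u' = G.f v v v / 3 * (Lf G ζ v u * Lf G ζ v u' + Lf G ζ v u * ζ u' +
      ζ u * Lf G ζ v u') := by
  obtain ⟨-, -, hg, h⟩ := hv
  have h1 := h (u + u')
  have h2 := h u
  have h3 := h u'
  simp only [map_add, LinearMap.add_apply] at h1
  rw [G.s23 v u' u] at h1
  rw [B2_lin (ζ := ζ) hg u] at h1 h2
  rw [B2_lin (ζ := ζ) hg u'] at h1 h3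
  generalize Lf G ζ v u = l at *
  generalize Lf G ζ v u' = l' at *
  generalize ζ u = z at *
  generalize ζ u' = z' at *
  generalize G.f v v v = g at *
  generalize G.f v u u = A at *
  generalize G.f v u' u' = B at *
  generalize G.f v u u' = C at *
  have : 24 * g * C = 24 * g * (g / 3 * (l * l' + l * z' + z * l')) := by
    linear_combination h1 - h2 - h3
  exact mul_left_cancel₀ (mul_ne_zero (by norm_num) hg) this

lemma Lf_self {G : Tri N} {ζ : E N →ₗ[ℝ] ℝ} {v : E N} (hv : v ∈ B2 K G ζ) : Lf G ζ v v = 1 := by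
  obtain ⟨-, h1, hg, h⟩ := hv
  simp only [Lf, LinearMap.sub_apply, LinearMap.smul_apply, smul_eq_mul, h1]
  field_simp
  norm_num

/-- the relation of two special vectors of the same sign -/
lemma B2_two {G : Tri N} {ζ : E N →ₗ[ℝ] ℝ} {v₁ v₂ : E N} (h₁ : v₁ ∈ B2 K G ζ)
    (h₂ : v₂ ∈ B2 K G ζ) (hs : 0 < G.f v₁ v₁ v₁ * G.f v₂ v₂ v₂) :
    Lf G ζ v₁ v₂ * Lf G ζ v₂ v₁ = 1 ∧
      G.f v₂ v₂ v₂ = Lf G ζ v₁ v₂ ^ 2 * G.f v₁ v₁ v₁ := by
  have hg1 := h₁.2.2.1
  have hg2 := h₂.2.2.1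
  have z1 := h₁.2.1
  have z2 := h₂.2.1
  have a1 := B2_lin (ζ := ζ) hg1 v₂
  have a2 := B2_quad h₁ v₂ v₂
  have b1 := B2_lin (ζ := ζ) hg2 v₁
  have b2 := B2_quad h₂ v₁ v₁
  have c1 : G.f v₂ v₂ v₁ = G.f v₁ v₂ v₂ := (G.n2 v₁ v₂).2.2.1
  have c2 : G.f v₂ v₁ v₁ = G.f v₁ v₁ v₂ := (G.n2 v₁ v₂).1
  rw [c1] at b1
  rw [c2] at b2
  rw [z2] at a1 a2
  rw [z1] at b1 b2
  generalize Lf G ζ v₁ v₂ = a at *
  generalize Lf G ζ v₂ v₁ = b at *
  generalize G.f v₁ v₁ v₁ = g1 at *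
  generalize G.f v₂ v₂ v₂ = g2 at *
  generalize G.f v₁ v₁ v₂ = p at *
  generalize G.f v₁ v₂ v₂ = q at *
  have e1 : g1 * (2 * a + 1) = g2 * (b ^ 2 + 2 * b) := by
    linear_combination 3 * b2 - 3 * a1
  have e2 : g1 * (a ^ 2 + 2 * a) = g2 * (2 * b + 1) := by
    linear_combination 3 * b1 - 3 * a2
  have e3 : (1 - a * b) * (1 + a * b + 2 * (a + b)) = 0 := by
    have : g1 * g2 * ((1 - a * b) * (1 + a * b + 2 * (a + b))) = 0 := by
      linear_combination (g2 * (2 * b + 1)) * e1 - (g2 * (b ^ 2 + 2 * b)) * e2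
    exact (mul_eq_zero.1 this).resolve_left hs.ne'
  have hab : a * b = 1 := by
    rcases mul_eq_zero.1 e3 with h | h
    · linear_combination -h
    · exfalso
      have e4 : a * (g1 ^ 2 * (a + 2) ^ 2 + 3 * (g1 * g2)) = 0 := by
        linear_combination (g1 * (a + 2)) * e2 + 2 * g1 * g2 * h
      have e5 : g1 ^ 2 * (a + 2) ^ 2 + 3 * (g1 * g2) ≠ 0 := by
        have : 0 ≤ g1 ^ 2 * (a + 2) ^ 2 := by positivity
        linarith
      have ha := (mul_eq_zero.1 e4).resolve_right e5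
      rw [ha] at h e1
      have hb : b = -1 / 2 := by linarith
      rw [hb] at e1
      have : g1 = -(3 / 4) * g2 := by linear_combination e1
      rw [this] at hs
      nlinarith [mul_self_nonneg g2]
  refine ⟨hab, ?_⟩
  have e6 : (a + 2) * (a ^ 2 * g1 - g2) = 0 := by
    linear_combination a * e2 + 2 * g2 * hab
  rcases mul_eq_zero.1 e6 with h | h
  · have ha : a = -2 := by linarith
    rw [ha] at hab e1
    have hb : b = -1 / 2 := by linarith
    rw [hb] at e1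
    rw [ha]
    linear_combination (4 / 3) * e1
  · linear_combination -h

/-- special vectors of the same class -/
lemma B2_same {G : Tri N} {ζ : E N →ₗ[ℝ] ℝ} {v₁ v₂ : E N} (h₁ : v₁ ∈ B2 K G ζ)
    (h₂ : v₂ ∈ B2 K G ζ) (hs : 0 < G.f v₁ v₁ v₁ * G.f v₂ v₂ v₂) (hne : Lf G ζ v₁ v₂ ≠ -1)
    {u u' : E N} (hu : ζ u = 0) (hu' : ζ u' = 0) : G.f (v₂ - v₁) u u' = 0 := by
  obtain ⟨hab, hg2⟩ := B2_two h₁ h₂ hs
  have hg1 := h₁.2.2.1
  have hg2' := h₂.2.2.1
  have z1 := h₁.2.1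
  have z2 := h₂.2.1
  have l1 := Lf_self h₁
  have l2 := Lf_self h₂
  have hD : ζ (v₂ - v₁) = 0 := by rw [map_sub, z1, z2, sub_self]
  have key : ∀ u, ζ u = 0 → Lf G ζ v₁ u = Lf G ζ v₁ v₂ * Lf G ζ v₂ u := by
    intro u hu
    have e1 := B2_lin (ζ := ζ) hg1 u
    have e2 := B2_lin (ζ := ζ) hg2' u
    have e3 := B2_quad h₁ (v₂ - v₁) u
    have e4 := B2_quad h₂ (v₂ - v₁) u
    rw [hD, hu] at e3 e4
    rw [hu] at e1 e2
    have e5 : G.f v₂ v₂ u = G.f v₁ v₁ u + G.f v₁ (v₂ - v₁) u + G.f v₂ (v₂ - v₁) u := by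
      simp only [map_sub, LinearMap.sub_apply]
      rw [G.p1 v₁ v₂ u]
      ring
    rw [e1, e2, e3, e4] at e5
    simp only [map_sub, l1, l2] at e5
    rw [hg2] at e5
    generalize Lf G ζ v₁ v₂ = a at *
    generalize Lf G ζ v₂ v₁ = b at *
    generalize G.f v₁ v₁ v₁ = g1 at *
    generalize Lf G ζ v₁ u = x at *
    generalize Lf G ζ v₂ u = y at *
    have h6 : g1 * ((1 + a) * (x - a * y)) = 0 := by
      linear_combination (-3) * e5 + a * g1 * y * hab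
    have h7 := (mul_eq_zero.1 h6).resolve_left hg1
    rcases mul_eq_zero.1 h7 with h8 | h8
    · exact absurd (by linarith) hne
    · linarith
  have e1 := B2_quad h₁ u u'
  have e2 := B2_quad h₂ u u'
  rw [hu, hu', key u hu, key u' hu'] at e1
  rw [hu, hu', hg2] at e2
  rw [map_sub, LinearMap.sub_apply, LinearMap.sub_apply, e1, e2]
  ring

/-- pairwise different classes -/
lemma B2_card {G : Tri N} {ζ : E N →ₗ[ℝ] ℝ} (S : Finset (E N)) (h1 : ∀ v ∈ S, v ∈ B2 K G ζ)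
    (h2 : ∀ v ∈ S, ∀ w ∈ S, v ≠ w → Lf G ζ v w = -1) : S.card ≤ N + 2 := by
  classical
  by_cases hc2 : S.card = 2
  · omega
  have hli : LinearIndependent ℝ (fun v : S => (v : E N)) := by
    rw [Fintype.linearIndependent_iff]
    intro c hc
    set σ := ∑ w, c w with hσ
    have key : ∀ v : S, 2 * c v = σ := by
      intro v
      have h3 := congrArg (Lf G ζ v) hc
      rw [map_sum, map_zero] at h3
      have h4 : ∀ w : S, Lf G ζ v (c w • (w : E N)) = 2 * (if w = v then c w else 0) - c w := by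
        intro w
        rw [map_smul, smul_eq_mul]
        by_cases hw : w = v
        · rw [hw, if_pos rfl, Lf_self (h1 v v.2)]
          ring
        · rw [if_neg hw, h2 v v.2 w w.2 (fun h => hw (Subtype.ext h.symm))]
          ring
      rw [Finset.sum_congr rfl (fun w _ => h4 w), Finset.sum_sub_distrib, ← Finset.mul_sum,
        Finset.sum_ite_eq' Finset.univ v c, if_pos (Finset.mem_univ v)] at h3
      linarith
    have h5 : 2 * σ = (S.card : ℝ) * σ := by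
      calc 2 * σ = ∑ v : S, 2 * c v := by rw [hσ, Finset.mul_sum]
        _ = ∑ v : S, σ := Finset.sum_congr rfl fun v _ => key v
        _ = _ := by
          rw [Finset.sum_const, nsmul_eq_mul, Finset.card_univ, Fintype.card_coe]
    have h6 : σ = 0 := by
      have h7 : (2 - (S.card : ℝ)) * σ = 0 := by linear_combination h5
      rcases mul_eq_zero.1 h7 with h8 | h8
      · exfalso
        apply hc2
        have : (S.card : ℝ) = 2 := by linarith
        exact_mod_cast this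
      · exact h8
    intro v
    have := key v
    rw [h6] at this
    linarith
  have h3 := hli.fintype_card_le_finrank
  have h4 : S.card ≤ N := by simpa using h3
  omega

/-- **the cover, exponent two** -/
theorem cover2 {G : Tri N} (hG : Rat3 G K) {ζ : E N →ₗ[ℝ] ℝ} (hζ : RL K ζ) {x0 : E N}
    (hx0 : Rt K x0) (hx0ζ : ζ x0 = 0) (hx0G : G.f x0 x0 x0 ≠ 0) :
    ∃ L : Set (Fin N → K), L.Finite ∧ (∀ a ∈ L, a ≠ 0) ∧ ∀ v ∈ B2 K G ζ, ∃ a ∈ L, dt a v = 0 := by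
  classical
  have hfun : ∀ s ∈ B2 K G ζ, ∃ a : Fin N → K, a ≠ 0 ∧ ∀ u, dt a u = G.f x0 x0 u -
      ζ u * G.f x0 x0 s := by
    intro s hs
    obtain ⟨a, ha⟩ := exists_dt (K := K) (G.f x0 x0 - G.f x0 x0 s • ζ) fun v hv => by
      simp only [LinearMap.sub_apply, LinearMap.smul_apply, smul_eq_mul]
      exact K.sub_mem (hG _ _ _ hx0 hx0 hv) (K.mul_mem (hG _ _ _ hx0 hx0 hs.1) (hζ _ hv))
    have ha' : ∀ u, dt a u = G.f x0 x0 u - ζ u * G.f x0 x0 s := by
      intro u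
      rw [ha]
      simp only [LinearMap.sub_apply, LinearMap.smul_apply, smul_eq_mul]
      ring
    refine ⟨a, ?_, ha'⟩
    rintro rfl
    have := ha' x0
    rw [hx0ζ, zero_mul, sub_zero, dt_apply] at this
    apply hx0G
    rw [← this]
    simp
  choose! af h1 h2 using hfun
  have hsgn : ∀ ε : ℝ, ε ≠ 0 → ∃ L : Set (Fin N → K), L.Finite ∧ (∀ a ∈ L, a ≠ 0) ∧
      ∀ v ∈ B2 K G ζ, 0 < ε * G.f v v v → ∃ a ∈ L, dt a v = 0 := by
    intro ε hε
    have hpos : ∀ v w, 0 < ε * G.f v v v → 0 < ε * G.f w w w → 0 < G.f v v v * G.f w w w := by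
      intro v w hv hw
      have h3 : 0 < (G.f v v v * G.f w w w) * ε ^ 2 := by nlinarith
      exact pos_of_mul_pos_left h3 (sq_nonneg ε)
    obtain ⟨S, hS1, hS2⟩ := exists_max {v | v ∈ B2 K G ζ ∧ 0 < ε * G.f v v v}
      (fun v w => Lf G ζ v w = -1)
      (fun v hv w hw h => by
        have h3 := (B2_two hv.1 hw.1 (hpos v w hv.2 hw.2)).1
        rw [h] at h3
        linarith) (N + 2)
      (fun S h1 h2 => B2_card S (fun v hv => (h1 v hv).1) h2)
    refine ⟨af '' (S : Set (E N)), S.finite_toSet.image af, ?_, fun v hv hvs => ?_⟩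
    · rintro _ ⟨s, hs, rfl⟩
      exact h1 s (hS1 s hs).1
    · rcases hS2 v ⟨hv, hvs⟩ with hvS | ⟨s, hs, hsv⟩
      · exact ⟨af v, ⟨v, hvS, rfl⟩, by rw [h2 v hv, hv.2.1, one_mul, sub_self]⟩
      · refine ⟨af s, ⟨s, hs, rfl⟩, ?_⟩
        obtain ⟨hsB, hss⟩ := hS1 s hs
        have h4 := B2_same hsB hv (hpos s v hss hvs) hsv hx0ζ hx0ζ
        rw [h2 s hsB, hv.2.1, one_mul]
        rw [map_sub, LinearMap.sub_apply, LinearMap.sub_apply] at h4
        rw [(G.n2 v x0).2.2.1, (G.n2 s x0).2.2.1]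
        exact h4
  obtain ⟨L1, f1, n1, c1⟩ := hsgn 1 one_ne_zero
  obtain ⟨L2, f2, n2, c2⟩ := hsgn (-1) (by norm_num)
  refine ⟨L1 ∪ L2, f1.union f2, ?_, fun v hv => ?_⟩
  · rintro a (ha | ha)
    · exact n1 a ha
    · exact n2 a ha
  · rcases lt_or_gt_of_ne hv.2.2.1 with h | h
    · obtain ⟨a, ha, ha'⟩ := c2 v hv (by linarith)
      exact ⟨a, Or.inr ha, ha'⟩
    · obtain ⟨a, ha, ha'⟩ := c1 v hv (by linarith)
      exact ⟨a, Or.inl ha, ha'⟩

end Pool.Agent.NH8.C
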