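import Pool.Agent.NH8.CE

/-!
# Twists without interior points: the exponent three
-/

set_option autoImplicit false
set_option linter.unusedSectionVars false
set_option linter.unusedVariables false
set_option linter.unusedSimpArgs false

open Set Filter Topology Pool.Agent.H581R2 Pool.Agent.TH729.SQ Pool.Agent.TH729.CC

namespace Pool.Agent.NH8.C

variable {K : Subfield ℝ} {N : ℕ}

/-- the form depends on two functionals only -/
def Low (K : Subfield ℝ) (G : Tri N) : Prop := ∃ a b : Fin N → K, ∀ y, Rt K y → dt a y = 0 →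
  dt b y = 0 → ∀ u u', G.f y u u' = 0

/-- vanishing of the polar form -/
lemma polar {G : Tri N} {y : E N} (h : ∀ u, G.f y u u = 0) (u u' : E N) : G.f y u u' = 0 := by
  have h1 := h (u + u')
  have h2 := h u
  have h3 := h u'
  simp only [map_add, LinearMap.add_apply] at h1
  rw [G.s23 y u' u] at h1
  linarith

lemma mem_three : (3 : ℝ) ∈ K := by exact_mod_cast SubfieldClass.ratCast_mem K 3
lemma mem_two : (2 : ℝ) ∈ K := by exact_mod_cast SubfieldClass.ratCast_mem K 2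

/-- the inclusion of the base -/
noncomputable def ci : E N →ₗ[ℝ] E (N + 1) where
  toFun v := cv 0 v
  map_add' v v' := by
    funext i
    refine Fin.cases ?_ (fun i => ?_) i <;> simp [cv]
  map_smul' c v := by
    funext i
    refine Fin.cases ?_ (fun i => ?_) i <;> simp [cv]

/-- **the structure at a vector which is not special** -/
theorem ann3 {G : Tri N} (hG : Rat3 G K) {d : ℝ} (hdK : d ∈ K) (hd : d ≠ 0)
    (hH : Hyp (T3 G d) K) {v₀ : E N} (hv₀ : Rt K v₀) {w₀ : ℝ} (hw₀K : w₀ ∈ K) (hw₀ : w₀ ≠ 0)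
    (hz : d * G.f v₀ v₀ v₀ = w₀ ^ 3) (hB : v₀ ∉ B3 K G) :
    Low K G ∨ ∀ u, G.f v₀ v₀ u = 0 → ∀ v, G.f u u v * G.f v₀ v₀ v₀ =
      G.f v₀ u u * G.f v₀ v₀ v := by
  have hg : G.f v₀ v₀ v₀ ≠ 0 := by
    intro h0
    rw [h0, mul_zero] at hz
    exact pow_ne_zero 3 hw₀ hz.symm
  set g := G.f v₀ v₀ v₀ with hgd
  -- a rational direction
  obtain ⟨u, hu, hune⟩ : ∃ u, Rt K u ∧ g * G.f v₀ u u - G.f v₀ v₀ u ^ 2 ≠ 0 := by
    by_contra hcon
    push Not at hcon
    apply hB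
    refine ⟨hv₀, hg, fun u => ?_⟩
    have hc : Continuous fun u : E N => g * G.f v₀ u u - G.f v₀ v₀ u ^ 2 :=
      (continuous_const.mul (cont G continuous_const continuous_id continuous_id)).sub
        ((cont G continuous_const continuous_const continuous_id).pow 2)
    have := rational_real hc hcon u
    linarith
  set F := T3 G d with hF
  set P : E (N + 1) := cv w₀ v₀ with hP
  have hPr : Rt K P := rt_cv hw₀K hv₀
  have hP0 : F.f P P P = 0 := by
    rw [hF, T3_apply]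
    simp only [hP, pv_cv, pw_cv]
    linear_combination hz
  have hPW : P ∈ W F K := subset_closure ⟨hPr, hP0⟩
  have hPP : ∀ U, F.f P P U = d * G.f v₀ v₀ (pv U) - w₀ ^ 2 * pw U := by
    intro U
    rw [hF, T3_apply]
    simp only [hP, pv_cv, pw_cv]
    ring
  have he : F.f P P (cv 1 0) ≠ 0 := by
    rw [hPP]
    simp [hw₀]
  set U : E (N + 1) := cv (d * G.f v₀ v₀ u / w₀ ^ 2) u with hU
  have hUr : Rt K U := rt_cv (K.div_mem (K.mul_mem hdK (hG _ _ _ hv₀ hv₀ hu))
    (K.pow_mem hw₀K 2)) hu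
  have hUt : F.f P P U = 0 := by
    rw [hPP]
    simp only [hU, pv_cv, pw_cv]
    field_simp
    ring
  have hUU : F.f P U U ≠ 0 := by
    rw [hF, T3_apply]
    simp only [hP, hU, pv_cv, pw_cv]
    intro h0
    apply hune
    have h1 : w₀ ^ 3 * (d * G.f v₀ u u - w₀ * (d * G.f v₀ v₀ u / w₀ ^ 2) *
        (d * G.f v₀ v₀ u / w₀ ^ 2)) = 0 := by rw [h0, mul_zero]
    have h2 : w₀ ^ 3 * (d * G.f v₀ u u - w₀ * (d * G.f v₀ v₀ u / w₀ ^ 2) *
        (d * G.f v₀ v₀ u / w₀ ^ 2)) = w₀ ^ 3 * (d * G.f v₀ u u) - d ^ 2 * G.f v₀ v₀ u ^ 2 := by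
      field_simp
    rw [h2, ← hz] at h1
    have h3 : d ^ 2 * (g * G.f v₀ u u - G.f v₀ v₀ u ^ 2) = 0 := by linear_combination h1
    exact (mul_eq_zero.1 h3).resolve_left (pow_ne_zero 2 hd)
  obtain ⟨g1, -, -, -, -, g6⟩ := tan_vals hP0 hUt
  have g7 := tan_zero F hP0 hUt
  have gZ := Z.tan hH.rat ⟨hPr, hP0⟩ hUr hUt
  set Z := tan' F P U with hZ
  have hα : F.f P Z Z ≠ 0 := by
    rw [← F.p3 P Z Z, g1]
    exact mul_ne_zero (by norm_num) (pow_ne_zero _ hUU)
  have hZP : F.f Z Z P = F.f P Z Z := F.p3 P Z Z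
  have hann : ∀ W, F.f P P W = 0 → F.f Z Z W = 0 → ∀ V, F.f W W V * F.f P Z Z =
      F.f P W W * F.f Z Z V := fun W h1 h2 V => ann_id hH hPW he g6 g7 hα h1 h2 V
  set α := F.f P Z Z with hαd
  by_cases hXE : F.f Z Z (cv 1 0) = 0
  · -- the second case
    right
    -- all vectors `(0, u)` tangent at `P` are in the annihilator
    have hN : ∀ u, G.f v₀ v₀ u = 0 → F.f Z Z (cv 0 u) = 0 := by
      intro u hu
      set β := F.f Z Z (cv 0 u) with hβ
      have h1 : F.f P P (cv 0 u - (β / α) • P) = 0 := by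
        rw [map_sub, map_smul, hP0, hPP]
        simp [hu]
      have h2 : F.f Z Z (cv 0 u - (β / α) • P) = 0 := by
        rw [map_sub, map_smul, hZP, ← hβ, smul_eq_mul]
        field_simp
        ring
      have h3 := hann _ h1 h2 (cv 1 0)
      rw [hXE, mul_zero] at h3
      have h4 := (mul_eq_zero.1 h3).resolve_right hα
      rw [hF, T3_apply] at h4
      simp only [map_sub, map_smul, pw_cv, pv_cv, hP, map_zero, mul_zero, smul_eq_mul] at h4
      have h5 : ((β / α) * w₀) ^ 2 = 0 := by linear_combination -h4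
      have h6 := (mul_eq_zero.1 (pow_eq_zero_iff two_ne_zero |>.1 h5)).resolve_right hw₀
      exact (div_eq_zero_iff.1 h6).resolve_right hα
    have hX : ∀ v, F.f Z Z (cv 0 v) = G.f v₀ v₀ v / g * α := by
      intro v
      have h1 := hN (v - (G.f v₀ v₀ v / g) • v₀) (by
        rw [map_sub, map_smul, smul_eq_mul]
        field_simp
        ring)
      have h2 : (cv 0 (v - (G.f v₀ v₀ v / g) • v₀) : E (N + 1)) =
          cv 0 v - (G.f v₀ v₀ v / g) • (P - w₀ • cv 1 0) := by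
        funext i
        refine Fin.cases ?_ (fun i => ?_) i
        · simp [cv, hP]
        · simp [cv, hP]
      rw [h2, map_sub, map_smul, map_sub, map_smul, hXE, hZP] at h1
      simp only [smul_eq_mul, mul_zero, sub_zero] at h1
      linarith
    intro u hu v
    have h1 := hann (cv 0 u) (by rw [hPP]; simp [hu]) (hN u hu) (cv 0 v)
    rw [hX] at h1
    rw [hF, T3_apply, T3_apply] at h1
    simp only [pv_cv, pw_cv, hP, mul_zero, sub_zero, zero_mul] at h1
    field_simp at h1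
    exact h1
  · -- few variables
    left
    obtain ⟨a, ha⟩ := exists_dt (K := K) (G.f v₀ v₀) fun v hv => hG _ _ _ hv₀ hv₀ hv
    obtain ⟨b, hb⟩ := exists_dt (K := K) ((F.f Z Z).comp ci) fun v hv =>
      hH.rat _ _ _ gZ.1 gZ.1 (rt_cv K.zero_mem hv)
    refine ⟨a, b, fun y hy hay hby => ?_⟩
    rw [ha] at hay
    rw [hb] at hby
    change F.f Z Z (cv 0 y) = 0 at hby
    have h0 : F.f P P (cv 0 y) = 0 := by rw [hPP]; simp [hay]
    have h1 := hann (cv 0 y) h0 hby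
    have h2 := h1 (cv 1 0)
    have h3 : F.f (cv 0 y) (cv 0 y) (cv 1 0) = 0 := by
      rw [hF, T3_apply]
      simp
    rw [h3, zero_mul] at h2
    have h4 := (mul_eq_zero.1 h2.symm).resolve_right hXE
    have h5 : ∀ V, F.f (cv 0 y) (cv 0 y) V = 0 := by
      intro V
      have := h1 V
      rw [h4, zero_mul] at this
      exact (mul_eq_zero.1 this).resolve_right hα
    intro u u'
    have h6 := vertex_of hH (rt_cv K.zero_mem hy) h5 (cv 0 u) (cv 0 u')
    rw [T3_apply] at h6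
    simp only [pv_cv, pw_cv, mul_zero, sub_zero] at h6
    exact (mul_eq_zero.1 h6).resolve_left hd

/-- the explicit points -/
lemma extra {a D p κ x y : ℝ} (ha : a ≠ 0) (hD : D ≠ 0) (hp : p ≠ 0)
    (hκ : κ = (D ^ 3 - (a * p ^ 2 + 1) ^ 2) / (4 * a * D * p ^ 2))
    (hx : x = ((a * p ^ 2 - 1) + D * κ) / (2 * a * p))
    (hy : y = (-D ^ 2 + (a * p ^ 2 + 1) * κ) / (2 * a * D * p)) :
    a * x ^ 2 - a * D * y ^ 2 = κ ^ 3 - 1 := by
  have h1 : 4 * a * D * p ^ 2 * κ = D ^ 3 - (a * p ^ 2 + 1) ^ 2 := by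
    rw [hκ]
    field_simp
  rw [hx, hy]
  field_simp
  linear_combination (D - κ ^ 2) * h1

/-- a good parameter -/
lemma exists_p {a D : ℝ} (ha : a ≠ 0) : ∃ p : ℚ, (p : ℝ) ≠ 0 ∧
    (a * (p : ℝ) ^ 2 + 1) ^ 2 ≠ D ^ 3 ∧ a * (p : ℝ) ^ 2 - 1 + D ≠ 0 := by
  by_contra hcon
  push Not at hcon
  -- polynomial with many roots
  have h : ∀ p : ℚ, (p : ℝ) * ((a * (p : ℝ) ^ 2 + 1) ^ 2 - D ^ 3) * (a * (p : ℝ) ^ 2 - 1 + D) = 0 := by
    intro p
    by_cases h1 : (p : ℝ) = 0
    · rw [h1]; ring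
    · by_cases h2 : (a * (p : ℝ) ^ 2 + 1) ^ 2 = D ^ 3
      · rw [h2]; ring
      · rw [hcon p h1 h2]; ring
  set Q : Polynomial ℝ := Polynomial.X * ((Polynomial.C a * Polynomial.X ^ 2 + 1) ^ 2 -
    Polynomial.C (D ^ 3)) * (Polynomial.C a * Polynomial.X ^ 2 - 1 + Polynomial.C D) with hQ
  have hev : ∀ t : ℝ, Q.eval t = t * ((a * t ^ 2 + 1) ^ 2 - D ^ 3) * (a * t ^ 2 - 1 + D) := by
    intro t
    simp [hQ]
  have hQ0 : Q = 0 := by
    apply Polynomial.eq_of_infinite_eval_eq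
    refine Set.Infinite.mono ?_ (Set.infinite_range_of_injective (Rat.cast_injective (α := ℝ)))
    rintro _ ⟨p, rfl⟩
    show Q.eval (p : ℝ) = Polynomial.eval (p : ℝ) 0
    rw [hev, h p, Polynomial.eval_zero]
  have hcoef : Q.coeff 7 = a ^ 3 := by
    have : Q = Polynomial.C (a ^ 3) * Polynomial.X ^ 7 + (Polynomial.C (2 * a ^ 2 + a ^ 2 * (D - 1)) *
        Polynomial.X ^ 5 + Polynomial.C ((1 - D ^ 3) * a + 2 * a * (D - 1)) * Polynomial.X ^ 3 +
        Polynomial.C ((1 - D ^ 3) * (D - 1)) * Polynomial.X) := by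
      rw [hQ]
      simp only [map_pow, map_add, map_sub, map_mul, Polynomial.C_ofNat, map_one]
      ring
    rw [this]
    simp only [Polynomial.coeff_add, Polynomial.coeff_C_mul, Polynomial.coeff_X_pow,
      Polynomial.coeff_X]
    norm_num
  rw [hQ0, Polynomial.coeff_zero] at hcoef
  exact pow_ne_zero 3 ha hcoef.symm

/-- **If the twist has no interior points and the form does not depend on two functionals only,
then all rational points outside the branch locus are special.** -/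
theorem special3 {G : Tri N} (hG : Rat3 G K) (hlow : ¬ Low K G) {d : ℝ} (hdK : d ∈ K) (hd : d ≠ 0)
    (hH : Hyp (T3 G d) K) {v₀ : E N} (hv₀ : Rt K v₀) {w₀ : ℝ} (hw₀K : w₀ ∈ K) (hw₀ : w₀ ≠ 0)
    (hz : d * G.f v₀ v₀ v₀ = w₀ ^ 3) : v₀ ∈ B3 K G := by
  by_contra hB
  have hst := (ann3 hG hdK hd hH hv₀ hw₀K hw₀ hz hB).resolve_left hlow
  have hg : G.f v₀ v₀ v₀ ≠ 0 := by
    intro h0
    rw [h0, mul_zero] at hz
    exact pow_ne_zero 3 hw₀ hz.symm
  set g := G.f v₀ v₀ v₀ with hgd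
  have hgK : g ∈ K := hG _ _ _ hv₀ hv₀ hv₀
  -- polarized structure
  have hpol : ∀ u u', G.f v₀ v₀ u = 0 → G.f v₀ v₀ u' = 0 → ∀ v, G.f u u' v * g =
      G.f v₀ u u' * G.f v₀ v₀ v := by
    intro u u' hu hu' v
    have h1 := hst (u + u') (by rw [map_add, hu, hu', add_zero]) v
    have h2 := hst u hu v
    have h3 := hst u' hu' v
    simp only [map_add, LinearMap.add_apply] at h1
    rw [G.p1 u u' v, G.s23 v₀ u' u] at h1
    linear_combination (1 / 2) * h1 - (1 / 2) * h2 - (1 / 2) * h3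
  -- projection to the kernel
  have hproj : ∀ u, Rt K u → Rt K (u - (G.f v₀ v₀ u / g) • v₀) ∧
      G.f v₀ v₀ (u - (G.f v₀ v₀ u / g) • v₀) = 0 := by
    intro u hu
    refine ⟨hu.sub (hv₀.smul (K.div_mem (hG _ _ _ hv₀ hv₀ hu) hgK)), ?_⟩
    rw [map_sub, map_smul, smul_eq_mul]
    field_simp
    ring
  -- two orthogonal vectors
  obtain ⟨e₁, he₁, hl₁, hc₁⟩ : ∃ e₁, Rt K e₁ ∧ G.f v₀ v₀ e₁ = 0 ∧ G.f v₀ e₁ e₁ ≠ 0 := by
    by_contra hcon
    push Not at hcon
    apply hB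
    refine ⟨hv₀, hg, ?_⟩
    have hc : Continuous fun u : E N => g * G.f v₀ u u - G.f v₀ v₀ u ^ 2 :=
      (continuous_const.mul (cont G continuous_const continuous_id continuous_id)).sub
        ((cont G continuous_const continuous_const continuous_id).pow 2)
    intro u
    have := rational_real (K := K) hc (fun u hu => by
      obtain ⟨h1, h2⟩ := hproj u hu
      have h3 := hcon _ h1 h2
      have h4 : G.f v₀ (u - (G.f v₀ v₀ u / g) • v₀) (u - (G.f v₀ v₀ u / g) • v₀) =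
          G.f v₀ u u - G.f v₀ v₀ u ^ 2 / g := by
        simp only [map_sub, map_smul, LinearMap.sub_apply, LinearMap.smul_apply, smul_eq_mul]
        rw [G.s23 v₀ u v₀]
        field_simp
        ring
      rw [h4] at h3
      field_simp at h3
      linear_combination h3) u
    linarith
  obtain ⟨e₂, he₂, hl₂, h12, hc₂⟩ : ∃ e₂, Rt K e₂ ∧ G.f v₀ v₀ e₂ = 0 ∧ G.f v₀ e₁ e₂ = 0 ∧
      G.f v₀ e₂ e₂ ≠ 0 := by
    by_contra hcon
    push Not at hcon
    apply hlow
    obtain ⟨a, ha⟩ := exists_dt (K := K) (G.f v₀ v₀) fun v hv => hG _ _ _ hv₀ hv₀ hv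
    obtain ⟨b, hb⟩ := exists_dt (K := K) (G.f v₀ e₁) fun v hv => hG _ _ _ hv₀ he₁ hv
    refine ⟨a, b, fun y hy hay hby => ?_⟩
    rw [ha] at hay
    rw [hb] at hby
    -- `c(y, u) = 0` for rational `u`
    have k1 : ∀ u, Rt K u → G.f v₀ y u = 0 := by
      intro u hu
      obtain ⟨h1, h2⟩ := hproj u hu
      set u₁ := u - (G.f v₀ v₀ u / g) • v₀ with hu₁
      set u₂ := u₁ - (G.f v₀ e₁ u₁ / G.f v₀ e₁ e₁) • e₁ with hu₂
      have hu₂r : Rt K u₂ := h1.sub (he₁.smul (K.div_mem (hG _ _ _ hv₀ he₁ h1)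
        (hG _ _ _ hv₀ he₁ he₁)))
      have h3 : G.f v₀ v₀ u₂ = 0 := by
        rw [hu₂, map_sub, map_smul, h2, hl₁]
        simp
      have h4 : G.f v₀ e₁ u₂ = 0 := by
        rw [hu₂, map_sub, map_smul, smul_eq_mul]
        field_simp
        ring
      have q1 := hcon (u₂ + y) (hu₂r.add hy) (by rw [map_add, h3, hay, add_zero])
        (by rw [map_add, h4, hby, add_zero])
      have q2 := hcon u₂ hu₂r h3 h4
      have q3 := hcon y hy hay hby
      have h5 : G.f v₀ y u₂ = 0 := by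
        simp only [map_add, LinearMap.add_apply] at q1
        rw [G.s23 v₀ u₂ y, q2, q3] at q1
        linarith
      have h6 : u = u₂ + (G.f v₀ e₁ u₁ / G.f v₀ e₁ e₁) • e₁ + (G.f v₀ v₀ u / g) • v₀ := by
        rw [hu₂, hu₁]
        simp
      rw [h6, map_add, map_add, map_smul, map_smul, h5, G.s23 v₀ y e₁, hby, G.s23 v₀ y v₀, hay]
      simp
    have k2 : ∀ u, G.f v₀ y u = 0 :=
      rational_real (cont G continuous_const continuous_const continuous_id) k1
    intro u u'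
    -- decompose `u`
    set u₁ := u - (G.f v₀ v₀ u / g) • v₀ with hu₁
    have h2 : G.f v₀ v₀ u₁ = 0 := by
      rw [hu₁, map_sub, map_smul, smul_eq_mul]
      field_simp
      ring
    have h3 := hpol y u₁ hay h2 u'
    rw [k2 u₁, zero_mul] at h3
    have h4 := (mul_eq_zero.1 h3).resolve_right hg
    have h6 : u = u₁ + (G.f v₀ v₀ u / g) • v₀ := by
      rw [hu₁]
      simp
    rw [h6]
    simp only [map_add, map_smul, LinearMap.add_apply, LinearMap.smul_apply, smul_eq_mul]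
    rw [h4, G.p1 v₀ y u', k2 u']
    ring
  set c₁ := G.f v₀ e₁ e₁ with hc₁d
  set c₂ := G.f v₀ e₂ e₂ with hc₂d
  have hc₁K : c₁ ∈ K := hG _ _ _ hv₀ he₁ he₁
  have hc₂K : c₂ ∈ K := hG _ _ _ hv₀ he₂ he₂
  -- the new point
  set a := 3 * c₁ / g with ha
  set D := -c₂ / c₁ with hD
  have ha0 : a ≠ 0 := div_ne_zero (mul_ne_zero (by norm_num) hc₁) hg
  have hD0 : D ≠ 0 := div_ne_zero (neg_ne_zero.2 hc₂) hc₁
  have haK : a ∈ K := K.div_mem (K.mul_mem mem_three hc₁K) hgK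
  have hDK : D ∈ K := K.div_mem (K.neg_mem hc₂K) hc₁K
  obtain ⟨p, hp0, hp1, hp2⟩ := exists_p (a := a) (D := D) ha0
  have hpK : (p : ℝ) ∈ K := SubfieldClass.ratCast_mem K p
  obtain ⟨κ, hκ⟩ : ∃ κ, κ = (D ^ 3 - (a * (p : ℝ) ^ 2 + 1) ^ 2) / (4 * a * D * (p : ℝ) ^ 2) :=
    ⟨_, rfl⟩
  obtain ⟨x, hx⟩ : ∃ x, x = ((a * (p : ℝ) ^ 2 - 1) + D * κ) / (2 * a * p) := ⟨_, rfl⟩
  obtain ⟨y, hy⟩ : ∃ y, y = (-D ^ 2 + (a * (p : ℝ) ^ 2 + 1) * κ) / (2 * a * D * p) := ⟨_, rfl⟩
  have hid := extra ha0 hD0 hp0 hκ hx hy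
  have h4K : (4 : ℝ) ∈ K := by exact_mod_cast SubfieldClass.ratCast_mem K 4
  have hκK : κ ∈ K := by
    rw [hκ]
    exact K.div_mem (K.sub_mem (K.pow_mem hDK 3) (K.pow_mem (K.add_mem (K.mul_mem haK
      (K.pow_mem hpK 2)) K.one_mem) 2)) (K.mul_mem (K.mul_mem (K.mul_mem h4K haK) hDK)
      (K.pow_mem hpK 2))
  have hxK : x ∈ K := by
    rw [hx]
    exact K.div_mem (K.add_mem (K.sub_mem (K.mul_mem haK (K.pow_mem hpK 2)) K.one_mem)
      (K.mul_mem hDK hκK)) (K.mul_mem (K.mul_mem mem_two haK) hpK)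
  have hyK : y ∈ K := by
    rw [hy]
    exact K.div_mem (K.add_mem (K.neg_mem (K.pow_mem hDK 2)) (K.mul_mem (K.add_mem (K.mul_mem haK
      (K.pow_mem hpK 2)) K.one_mem) hκK)) (K.mul_mem (K.mul_mem (K.mul_mem mem_two haK) hDK) hpK)
  have hκ0 : κ ≠ 0 := by
    rw [hκ]
    exact div_ne_zero (sub_ne_zero.2 (Ne.symm hp1)) (by positivity)
  have hxy : ¬ (x = 0 ∧ y = 0) := by
    rintro ⟨hx0, hy0⟩
    have h1 : κ ^ 3 = 1 ^ 3 := by
      rw [hx0, hy0] at hid
      linear_combination -hid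
    have h2 := cube_inj h1
    rw [h2] at hx
    rw [hx0] at hx
    apply hp2
    have h3 := hx.symm
    rw [div_eq_zero_iff] at h3
    rcases h3 with h3 | h3
    · linear_combination h3
    · exact absurd h3 (mul_ne_zero (mul_ne_zero two_ne_zero ha0) hp0)
  -- values
  set X : E N := x • e₁ + y • e₂ with hX
  have hXr : Rt K X := (he₁.smul hxK).add (he₂.smul hyK)
  have hlX : G.f v₀ v₀ X = 0 := by
    rw [hX, map_add, map_smul, map_smul, hl₁, hl₂]
    simp
  have hcX : ∀ s t : ℝ, G.f v₀ X (s • e₁ + t • e₂) = x * s * c₁ + y * t * c₂ := by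
    intro s t
    rw [hX]
    simp only [map_add, map_smul, LinearMap.add_apply, LinearMap.smul_apply, smul_eq_mul]
    rw [h12, G.s23 v₀ e₂ e₁, h12]
    ring
  have hcc : ∀ s t : ℝ, G.f v₀ (s • e₁ + t • e₂) (s • e₁ + t • e₂) = s ^ 2 * c₁ + t ^ 2 * c₂ := by
    intro s t
    simp only [map_add, map_smul, LinearMap.add_apply, LinearMap.smul_apply, smul_eq_mul]
    rw [h12, G.s23 v₀ e₂ e₁, h12]
    ring
  have hls : ∀ s t : ℝ, G.f v₀ v₀ (s • e₁ + t • e₂) = 0 := by
    intro s t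
    rw [map_add, map_smul, map_smul, hl₁, hl₂]
    simp
  have hvan : ∀ u u' u'', G.f v₀ v₀ u = 0 → G.f v₀ v₀ u' = 0 → G.f v₀ v₀ u'' = 0 →
      G.f u u' u'' = 0 := by
    intro u u' u'' h1 h2 h3
    have := hpol u u' h1 h2 u''
    rw [h3, mul_zero] at this
    exact (mul_eq_zero.1 this).resolve_right hg
  set v₁ : E N := v₀ + X with hv₁
  have hv₁r : Rt K v₁ := hv₀.add hXr
  -- values at the new point
  have hGv₁ : G.f v₁ v₁ v₁ = g + 3 * (x ^ 2 * c₁ + y ^ 2 * c₂) := by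
    have h1 := hcc x y
    rw [← hX] at h1
    have h2 := hvan X X X hlX hlX hlX
    rw [hv₁]
    simp only [map_add, LinearMap.add_apply]
    obtain ⟨n1, n2, n3, n4⟩ := G.n2 v₀ X
    rw [n1, n2, n3, n4, hlX, h1, h2, ← hgd]
    ring
  have hz₁ : d * G.f v₁ v₁ v₁ = (κ * w₀) ^ 3 := by
    have h1 : g + 3 * (x ^ 2 * c₁ + y ^ 2 * c₂) = κ ^ 3 * g := by
      have h2 : g * (a * x ^ 2 - a * D * y ^ 2) = g * (κ ^ 3 - 1) := by rw [hid]
      have h3 : g * (a * x ^ 2 - a * D * y ^ 2) = 3 * (x ^ 2 * c₁ + y ^ 2 * c₂) := by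
        rw [ha, hD]
        field_simp
        ring
      rw [h3] at h2
      linear_combination h2
    rw [hGv₁, h1, mul_pow, ← hz]
    ring
  have hg₁ : G.f v₁ v₁ v₁ ≠ 0 := by
    intro h0
    rw [h0, mul_zero] at hz₁
    exact pow_ne_zero 3 (mul_ne_zero hκ0 hw₀) hz₁.symm
  have hl₁v : ∀ τ s t : ℝ, G.f v₁ v₁ (τ • v₀ + (s • e₁ + t • e₂)) =
      τ * (g + (x ^ 2 * c₁ + y ^ 2 * c₂)) + 2 * (x * s * c₁ + y * t * c₂) := by
    intro τ s t
    have h1 := hcc x y
    rw [← hX] at h1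
    have h2 := hvan X X (s • e₁ + t • e₂) hlX hlX (hls s t)
    have h3 := hcX s t
    have h4 := hls s t
    set u := s • e₁ + t • e₂ with hu
    rw [hv₁]
    simp only [map_add, map_smul, LinearMap.add_apply, smul_eq_mul]
    obtain ⟨n1, n2, n3, n4⟩ := G.n2 v₀ X
    rw [n1, n2, n3, G.p1 v₀ X u, h4, hlX, h1, h2, h3, ← hgd]
    ring
  by_cases hB1 : v₁ ∈ B3 K G
  · -- the new point is not special
    have key : ∀ s t : ℝ, G.f v₁ v₁ v₁ * (s ^ 2 * c₁ + t ^ 2 * c₂) =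
        (2 * (x * s * c₁ + y * t * c₂)) ^ 2 := by
      intro s t
      have h1 := hB1.2.2 (s • e₁ + t • e₂)
      have h2 := hl₁v 0 s t
      rw [zero_smul, zero_add, zero_mul, zero_add] at h2
      have h3 : G.f v₁ (s • e₁ + t • e₂) (s • e₁ + t • e₂) = s ^ 2 * c₁ + t ^ 2 * c₂ := by
        have h4 := hvan X _ _ hlX (hls s t) (hls s t)
        have h5 := hcc s t
        set u := s • e₁ + t • e₂ with hu
        rw [hv₁]
        simp only [map_add, LinearMap.add_apply]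
        rw [h4, h5, add_zero]
      rw [h2, h3] at h1
      exact h1
    have k1 := key 1 0
    have k2 := key 0 1
    have k3 := key 1 1
    have k4 : x * y * (c₁ * c₂) = 0 := by
      linear_combination (-1 / 8) * k3 + (1 / 8) * k1 + (1 / 8) * k2
    have k5 := (mul_eq_zero.1 k4).resolve_right (mul_ne_zero hc₁ hc₂)
    rcases mul_eq_zero.1 k5 with h | h
    · rw [h] at k1
      have : G.f v₁ v₁ v₁ * c₁ = 0 := by linear_combination k1
      exact mul_ne_zero hg₁ hc₁ this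
    · rw [h] at k2
      have : G.f v₁ v₁ v₁ * c₂ = 0 := by linear_combination k2
      exact mul_ne_zero hg₁ hc₂ this
  · have hst₁ := (ann3 hG hdK hd hH hv₁r (K.mul_mem hκK hw₀K) (mul_ne_zero hκ0 hw₀) hz₁
      hB1).resolve_left hlow
    -- the form vanishes on the tangent hyperplane
    have key : ∀ τ s t : ℝ, τ * (g + (x ^ 2 * c₁ + y ^ 2 * c₂)) + 2 * (x * s * c₁ + y * t * c₂) = 0 →
        τ * (g * τ ^ 2 + 3 * (s ^ 2 * c₁ + t ^ 2 * c₂)) = 0 := by
      intro τ s t h0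
      have h1 := hst₁ (τ • v₀ + (s • e₁ + t • e₂)) (by rw [hl₁v]; exact h0)
        (τ • v₀ + (s • e₁ + t • e₂))
      rw [hl₁v, h0, mul_zero] at h1
      have h2 := (mul_eq_zero.1 h1).resolve_right hg₁
      rw [← h2]
      have h3 := hcc s t
      have h4 := hls s t
      have h5 := hvan _ _ _ (hls s t) (hls s t) (hls s t)
      set u := s • e₁ + t • e₂ with hu
      simp only [map_add, map_smul, LinearMap.add_apply, LinearMap.smul_apply, smul_eq_mul]
      obtain ⟨n1, n2, n3, n4⟩ := G.n2 v₀ u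
      rw [n1, n2, n3, n4, h4, h3, h5, ← hgd]
      ring
    set h := g + (x ^ 2 * c₁ + y ^ 2 * c₂) with hh
    by_cases hh0 : h = 0
    · have := key 1 0 0 (by rw [hh0]; ring)
      apply hg
      linear_combination this
    · have key2 : ∀ s t : ℝ, (x * s * c₁ + y * t * c₂) * (4 * g * (x * s * c₁ + y * t * c₂) ^ 2 +
          3 * h ^ 2 * (s ^ 2 * c₁ + t ^ 2 * c₂)) = 0 := by
        intro s t
        have h1 := key (-(2 * (x * s * c₁ + y * t * c₂)) / h) s t (by field_simp; ring)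
        generalize x * s * c₁ + y * t * c₂ = ρ at *
        generalize s ^ 2 * c₁ + t ^ 2 * c₂ = q at *
        have h2 : (-(2 * ρ) / h) * (g * (-(2 * ρ) / h) ^ 2 + 3 * q) =
            -(2 / h ^ 3) * (ρ * (4 * g * ρ ^ 2 + 3 * h ^ 2 * q)) := by
          field_simp
          ring
        rw [h2] at h1
        exact (mul_eq_zero.1 h1).resolve_left (neg_ne_zero.2 (div_ne_zero two_ne_zero
          (pow_ne_zero 3 hh0)))
      have k1 := key2 1 0
      have k2 := key2 0 1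
      have k3 := key2 1 1
      have k4 := key2 1 (-1)
      have hαβ : ¬ (x * c₁ = 0 ∧ y * c₂ = 0) := by
        rintro ⟨h1, h2⟩
        exact hxy ⟨(mul_eq_zero.1 h1).resolve_right hc₁, (mul_eq_zero.1 h2).resolve_right hc₂⟩
      obtain ⟨α, hα⟩ : ∃ α, α = x * c₁ := ⟨_, rfl⟩
      obtain ⟨β, hβ⟩ : ∃ β, β = y * c₂ := ⟨_, rfl⟩
      have m1 : α * (4 * g * α ^ 2 + 3 * h ^ 2 * c₁) = 0 := by
        rw [hα]; linear_combination k1
      have m2 : β * (4 * g * β ^ 2 + 3 * h ^ 2 * c₂) = 0 := by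
        rw [hβ]; linear_combination k2
      have m3 : α * (4 * g * β ^ 2 + 3 * h ^ 2 * c₂) + β * (8 * g * α * β) = 0 := by
        have : α * (4 * g * α ^ 2 + 3 * h ^ 2 * c₁) + (α * (4 * g * β ^ 2 + 3 * h ^ 2 * c₂) +
            β * (8 * g * α * β)) = 0 := by
          rw [hα, hβ]; linear_combination (1 / 2) * k3 + (1 / 2) * k4
        rw [m1, zero_add] at this
        exact this
      have m4 : β * (4 * g * α ^ 2 + 3 * h ^ 2 * c₁) + α * (8 * g * α * β) = 0 := by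
        have : β * (4 * g * β ^ 2 + 3 * h ^ 2 * c₂) + (β * (4 * g * α ^ 2 + 3 * h ^ 2 * c₁) +
            α * (8 * g * α * β)) = 0 := by
          rw [hα, hβ]; linear_combination (1 / 2) * k3 - (1 / 2) * k4
        rw [m2, zero_add] at this
        exact this
      rw [← hα, ← hβ] at hαβ
      by_cases hα0 : α = 0
      · have hβ0 : β ≠ 0 := fun h0 => hαβ ⟨hα0, h0⟩
        rw [hα0] at m4
        have m5 : β * (3 * h ^ 2 * c₁) = 0 := by linear_combination m4
        exact mul_ne_zero hβ0 (mul_ne_zero (mul_ne_zero (by norm_num) (pow_ne_zero 2 hh0)) hc₁) m5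
      · have m5 := (mul_eq_zero.1 m1).resolve_left hα0
        rw [m5, mul_zero, zero_add] at m4
        have m6 : β = 0 := by
          rcases mul_eq_zero.1 m4 with h1 | h1
          · exact absurd h1 hα0
          · rcases mul_eq_zero.1 h1 with h1 | h1
            · exact absurd h1 (mul_ne_zero (mul_ne_zero (by norm_num) hg) hα0)
            · exact h1
        rw [m6] at m3
        have m7 : α * (3 * h ^ 2 * c₂) = 0 := by linear_combination m3
        exact mul_ne_zero hα0 (mul_ne_zero (mul_ne_zero (by norm_num) (pow_ne_zero 2 hh0)) hc₂) m7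

end Pool.Agent.NH8.C
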