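import Pool.Agent.NH8.CF

/-!
# Twists without interior points: the exponent two
-/

set_option autoImplicit false
set_option linter.unusedSectionVars false
set_option linter.unusedVariables false
set_option linter.unusedSimpArgs false

open Set Filter Topology Pool.Agent.H581R2 Pool.Agent.TH729.SQ Pool.Agent.TH729.CC

namespace Pool.Agent.NH8.C

variable {K : Subfield ℝ} {N : ℕ}

/-- the pair depends on `ζ` and one more functional only -/
def Low2 (K : Subfield ℝ) (G : Tri N) (ζ : E N →ₗ[ℝ] ℝ) : Prop := ∃ b : Fin N → K, ∀ y, Rt K y →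
  ζ y = 0 → dt b y = 0 → ∀ u u', G.f y u u' = 0

/-- **the structure at a vector which is not special** -/
theorem ann2 {G : Tri N} (hG : Rat3 G K) {ζ : E N →ₗ[ℝ] ℝ} (hζ : RL K ζ)
    {x₀ : E N} (hx₀ζ : ζ x₀ = 0) (hx₀G : G.f x₀ x₀ x₀ ≠ 0) {d : ℝ} (hdK : d ∈ K) (hd : d ≠ 0)
    (hH : Hyp (T2 G ζ d) K) {v₀ : E N} (hv₀ : Rt K v₀) (hζ₀ : ζ v₀ = 1) {w₀ : ℝ} (hw₀K : w₀ ∈ K)
    (hw₀ : w₀ ≠ 0) (hz : d * G.f v₀ v₀ v₀ = w₀ ^ 2) (hB : v₀ ∉ B2 K G ζ) :
    Low2 K G ζ ∨ ∀ u, Lf G ζ v₀ u = 0 → ∀ v, G.f u u v = G.f v₀ u u * Lf G ζ v₀ v := by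
  have hg : G.f v₀ v₀ v₀ ≠ 0 := by
    intro h0
    rw [h0, mul_zero] at hz
    exact pow_ne_zero 2 hw₀ hz.symm
  have hlin : ∀ u, G.f v₀ v₀ u = G.f v₀ v₀ v₀ / 3 * (2 * Lf G ζ v₀ u + ζ u) := B2_lin hg
  have hL0 : Lf G ζ v₀ v₀ = 1 := by
    simp only [Lf, LinearMap.sub_apply, LinearMap.smul_apply, smul_eq_mul, hζ₀]
    field_simp
    norm_num
  have hLK : ∀ u, Rt K u → Lf G ζ v₀ u ∈ K := by
    intro u hu
    simp only [Lf, LinearMap.sub_apply, LinearMap.smul_apply, smul_eq_mul]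
    exact K.sub_mem (K.mul_mem (K.div_mem mem_three (K.mul_mem mem_two (hG _ _ _ hv₀ hv₀ hv₀)))
      (hG _ _ _ hv₀ hv₀ hu)) (K.mul_mem (K.div_mem K.one_mem mem_two) (hζ _ hu))
  set g := G.f v₀ v₀ v₀ with hgd
  set L := Lf G ζ v₀ with hLd
  -- a rational direction
  obtain ⟨u, hu, hune⟩ : ∃ u, Rt K u ∧ G.f v₀ u u - g / 3 * (L u ^ 2 + 2 * L u * ζ u) ≠ 0 := by
    by_contra hcon
    push Not at hcon
    apply hB
    refine ⟨hv₀, hζ₀, hg, fun u => ?_⟩
    have hcL : Continuous L := LinearMap.continuous_of_finiteDimensional L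
    have hcζ : Continuous ζ := LinearMap.continuous_of_finiteDimensional ζ
    have hc : Continuous fun u : E N => G.f v₀ u u - g / 3 * (L u ^ 2 + 2 * L u * ζ u) :=
      (cont G continuous_const continuous_id continuous_id).sub
        (continuous_const.mul ((hcL.pow 2).add ((continuous_const.mul hcL).mul hcζ)))
    have h1 := rational_real hc hcon u
    have h2 := hlin u
    rw [← hgd, h2]
    linear_combination 12 * g * h1
  set F := T2 G ζ d with hF
  set P : E (N + 1) := cv w₀ v₀ with hP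
  have hPr : Rt K P := rt_cv hw₀K hv₀
  have hP0 : F.f P P P = 0 := by
    rw [hF, T2_apply]
    simp only [hP, pv_cv, pw_cv, hζ₀]
    linear_combination hz
  have hPW : P ∈ W F K := subset_closure ⟨hPr, hP0⟩
  have hPP : ∀ U, F.f P P U = 2 / 3 * w₀ * (w₀ * L (pv U) - pw U) := by
    intro U
    rw [hF, T2_apply]
    simp only [hP, pv_cv, pw_cv, hζ₀]
    rw [hlin]
    linear_combination (1 / 3) * (2 * L (pv U) + ζ (pv U)) * hz
  have he : F.f P P (cv 1 0) ≠ 0 := by
    rw [hPP]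
    simp [hw₀]
  set U : E (N + 1) := cv (w₀ * L u) u with hU
  have hUr : Rt K U := rt_cv (K.mul_mem hw₀K (hLK u hu)) hu
  have hUt : F.f P P U = 0 := by
    rw [hPP]
    simp only [hU, pv_cv, pw_cv]
    ring
  have hUU : F.f P U U ≠ 0 := by
    rw [hF, T2_apply]
    simp only [hP, hU, pv_cv, pw_cv, hζ₀]
    intro h0
    have h1 : d * (G.f v₀ u u - g / 3 * (L u ^ 2 + 2 * L u * ζ u)) = 0 := by
      linear_combination h0 - (1 / 3) * (L u ^ 2 + 2 * L u * ζ u) * hz
    rcases mul_eq_zero.1 h1 with h2 | h2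
    · exact hd h2
    · exact hune h2
  obtain ⟨g1, -, -, -, -, g6⟩ := tan_vals hP0 hUt
  have g7 := tan_zero F hP0 hUt
  have gZ := Z.tan hH.rat ⟨hPr, hP0⟩ hUr hUt
  set Z := tan' F P U with hZ
  have hα : F.f P Z Z ≠ 0 := by
    rw [← F.p3 P Z Z, g1]
    exact mul_ne_zero (by norm_num) (pow_ne_zero _ hUU)
  have hZP : F.f Z Z P = F.f P Z Z := F.p3 P Z Z
  have hann : ∀ W, F.f P P W = 0 → F.f Z Z W = 0 → ∀ V, F.f W W V * F.f P Z Z =
      F.f P W W * F.f Z Z V := fun W h1 h2 V => ann_id hH hPW he g6 g7 hα h1 h2 V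
  set α := F.f P Z Z with hαd
  -- correction by a multiple of `P`
  have hcor : ∀ W, F.f P P W = 0 → F.f P P (W - (F.f Z Z W / α) • P) = 0 ∧
      F.f Z Z (W - (F.f Z Z W / α) • P) = 0 := by
    intro W hW
    constructor
    · rw [map_sub, map_smul, hP0, hW]
      simp
    · rw [map_sub, map_smul, hZP, smul_eq_mul]
      field_simp
      ring
  have hEE : ∀ W, F.f W W (cv 1 0) = - (2 / 3) * (pw W * ζ (pv W)) := by
    intro W
    rw [hF, T2_apply]
    simp only [pv_cv, pw_cv, map_zero]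
    ring
  by_cases hXE : F.f Z Z (cv 1 0) = 0
  · right
    -- the product vanishes on the annihilator
    have hprod : ∀ W, F.f P P W = 0 → F.f Z Z W = 0 → pw W * ζ (pv W) = 0 := by
      intro W h1 h2
      have h3 := hann W h1 h2 (cv 1 0)
      rw [hXE, mul_zero, hEE] at h3
      have h4 := (mul_eq_zero.1 h3).resolve_right hα
      linear_combination (-3 / 2) * h4
    have halt : (∀ W, F.f P P W = 0 → F.f Z Z W = 0 → pw W = 0) ∨
        (∀ W, F.f P P W = 0 → F.f Z Z W = 0 → ζ (pv W) = 0) := by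
      by_contra hcon
      push Not at hcon
      obtain ⟨⟨W, a1, a2, a3⟩, W', b1, b2, b3⟩ := hcon
      have a4 := (mul_eq_zero.1 (hprod W a1 a2)).resolve_left a3
      have b4 := (mul_eq_zero.1 (hprod W' b1 b2)).resolve_right b3
      have h := hprod (W + W') (by rw [map_add, a1, b1, add_zero]) (by rw [map_add, a2, b2, add_zero])
      rw [map_add, map_add, map_add, a4, b4, add_zero, zero_add] at h
      rcases mul_eq_zero.1 h with h | h
      · exact a3 h
      · exact b3 h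
    rcases halt with halt | halt
    · have hN : ∀ u, L u = 0 → F.f Z Z (cv 0 u) = 0 := by
        intro u hu
        have h0 : F.f P P (cv 0 u) = 0 := by rw [hPP]; simp [hu]
        obtain ⟨h1, h2⟩ := hcor _ h0
        have h3 := halt _ h1 h2
        rw [map_sub, map_smul, hP, pw_cv, pw_cv, smul_eq_mul, zero_sub, neg_eq_zero] at h3
        exact (div_eq_zero_iff.1 ((mul_eq_zero.1 h3).resolve_right hw₀)).resolve_right hα
      have hX : ∀ v, F.f Z Z (cv 0 v) = L v * α := by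
        intro v
        have h1 := hN (v - L v • v₀) (by
          rw [map_sub, map_smul, smul_eq_mul, hL0]
          ring)
        have h2 : (cv 0 (v - L v • v₀) : E (N + 1)) = cv 0 v - L v • (P - w₀ • cv 1 0) := by
          funext i
          refine Fin.cases ?_ (fun i => ?_) i
          · simp [cv, hP]
          · simp [cv, hP]
        rw [h2, map_sub, map_smul, map_sub, map_smul, hXE, hZP] at h1
        simp only [smul_eq_mul, mul_zero, sub_zero] at h1
        linarith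
      intro u hu v
      have h1 := hann (cv 0 u) (by rw [hPP]; simp [hu]) (hN u hu) (cv 0 v)
      rw [hX] at h1
      rw [hF, T2_apply, T2_apply] at h1
      simp only [pv_cv, pw_cv, hP, mul_zero, sub_zero, zero_mul, add_zero] at h1
      have h2 : (d * α) * G.f u u v = (d * α) * (G.f v₀ u u * L v) := by linear_combination h1
      exact mul_left_cancel₀ (mul_ne_zero hd hα) h2
    · exfalso
      have hN : ∀ u, ζ u = 0 → F.f Z Z (cv (w₀ * L u) u) = 0 := by
        intro u hu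
        have h0 : F.f P P (cv (w₀ * L u) u) = 0 := by rw [hPP]; simp
        obtain ⟨h1, h2⟩ := hcor _ h0
        have h3 := halt _ h1 h2
        rw [map_sub, map_smul, hP, pv_cv, pv_cv, map_sub, map_smul, smul_eq_mul, hu, hζ₀, zero_sub,
          neg_eq_zero, mul_one] at h3
        exact (div_eq_zero_iff.1 h3).resolve_right hα
      have h1 := hann (cv (w₀ * L x₀) x₀) (by rw [hPP]; simp) (hN x₀ hx₀ζ) (cv (w₀ * L x₀) x₀)
      rw [hN x₀ hx₀ζ, mul_zero] at h1
      have h2 := (mul_eq_zero.1 h1).resolve_right hα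
      rw [hF, T2_apply] at h2
      simp only [pv_cv, pw_cv, hx₀ζ, mul_zero, add_zero, sub_zero] at h2
      exact hx₀G ((mul_eq_zero.1 h2).resolve_left hd)
  · -- few variables
    left
    obtain ⟨b, hb⟩ := exists_dt (K := K) ((F.f Z Z).comp (ci + L.smulRight (cv w₀ 0))) fun v hv => by
      refine hH.rat _ _ _ gZ.1 gZ.1 ?_
      exact (rt_cv K.zero_mem hv).add ((rt_cv hw₀K (zero_rt N)).smul (hLK v hv))
    have hb' : ∀ y, dt b y = F.f Z Z (cv (w₀ * L y) y) := by
      intro y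
      rw [hb]
      have : ((ci + L.smulRight (cv w₀ 0) : E N →ₗ[ℝ] E (N + 1)) y) = cv (w₀ * L y) y := by
        rw [LinearMap.add_apply, LinearMap.smulRight_apply]
        change cv 0 y + L y • cv w₀ 0 = _
        funext i
        refine Fin.cases ?_ (fun i => ?_) i
        · simp [cv, mul_comm]
        · simp [cv]
      rw [LinearMap.comp_apply, this]
    refine ⟨b, fun y hy hay hby => ?_⟩
    rw [hb'] at hby
    have h0 : F.f P P (cv (w₀ * L y) y) = 0 := by rw [hPP]; simp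
    have h1 := hann _ h0 hby
    have h2 := h1 (cv 1 0)
    rw [hEE, pv_cv, hay, mul_zero, mul_zero, zero_mul] at h2
    have h4 := (mul_eq_zero.1 h2.symm).resolve_right hXE
    have h5 : ∀ V, F.f (cv (w₀ * L y) y) (cv (w₀ * L y) y) V = 0 := by
      intro V
      have := h1 V
      rw [h4, zero_mul] at this
      exact (mul_eq_zero.1 this).resolve_right hα
    intro u u'
    have h6 := vertex_of hH (rt_cv (K.mul_mem hw₀K (hLK y hy)) hy) h5 (cv 0 u) (cv 0 u')
    rw [T2_apply] at h6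
    simp only [pv_cv, pw_cv, mul_zero, sub_zero, zero_mul, add_zero] at h6
    exact (mul_eq_zero.1 h6).resolve_left hd

/-- **If the twist has no interior points and the pair does not depend on two functionals only,
then all rational points outside the branch locus are special.** -/
theorem special2 {G : Tri N} (hG : Rat3 G K) {ζ : E N →ₗ[ℝ] ℝ} (hζ : RL K ζ)
    {x₀ : E N} (hx₀ζ : ζ x₀ = 0) (hx₀G : G.f x₀ x₀ x₀ ≠ 0) (hlow : ¬ Low2 K G ζ) {d : ℝ}
    (hdK : d ∈ K) (hd : d ≠ 0) (hH : Hyp (T2 G ζ d) K) {v₀ : E N} (hv₀ : Rt K v₀) (hζ₀ : ζ v₀ = 1)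
    {w₀ : ℝ} (hw₀K : w₀ ∈ K) (hw₀ : w₀ ≠ 0) (hz : d * G.f v₀ v₀ v₀ = w₀ ^ 2) : v₀ ∈ B2 K G ζ := by
  by_contra hB
  have hst := (ann2 hG hζ hx₀ζ hx₀G hdK hd hH hv₀ hζ₀ hw₀K hw₀ hz hB).resolve_left hlow
  have hg : G.f v₀ v₀ v₀ ≠ 0 := by
    intro h0
    rw [h0, mul_zero] at hz
    exact pow_ne_zero 2 hw₀ hz.symm
  have hlin : ∀ u, G.f v₀ v₀ u = G.f v₀ v₀ v₀ / 3 * (2 * Lf G ζ v₀ u + ζ u) := B2_lin hg
  have hL0 : Lf G ζ v₀ v₀ = 1 := by
    simp only [Lf, LinearMap.sub_apply, LinearMap.smul_apply, smul_eq_mul, hζ₀]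
    field_simp
    norm_num
  have hLK : RL K (Lf G ζ v₀) := by
    intro u hu
    simp only [Lf, LinearMap.sub_apply, LinearMap.smul_apply, smul_eq_mul]
    exact K.sub_mem (K.mul_mem (K.div_mem mem_three (K.mul_mem mem_two (hG _ _ _ hv₀ hv₀ hv₀)))
      (hG _ _ _ hv₀ hv₀ hu)) (K.mul_mem (K.div_mem K.one_mem mem_two) (hζ _ hu))
  set g := G.f v₀ v₀ v₀ with hgd
  set L := Lf G ζ v₀ with hLd
  -- polarized structure
  have hpol : ∀ u u', L u = 0 → L u' = 0 → ∀ v, G.f u u' v = G.f v₀ u u' * L v := by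
    intro u u' hu hu' v
    have h1 := hst (u + u') (by rw [map_add, hu, hu', add_zero]) v
    have h2 := hst u hu v
    have h3 := hst u' hu' v
    simp only [map_add, LinearMap.add_apply] at h1
    rw [G.p1 u u' v, G.s23 v₀ u' u] at h1
    linear_combination (1 / 2) * h1 - (1 / 2) * h2 - (1 / 2) * h3
  have hLx : L x₀ ≠ 0 := by
    intro h0
    apply hx₀G
    rw [hst x₀ h0, h0, mul_zero]
  -- a vector with nonzero value
  obtain ⟨y, hy, hζy, hLy, hc⟩ : ∃ y, Rt K y ∧ ζ y = 0 ∧ L y = 0 ∧ G.f v₀ y y ≠ 0 := by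
    by_contra hcon
    push Not at hcon
    apply hlow
    obtain ⟨b, hb⟩ := exists_dt (K := K) L hLK
    refine ⟨b, fun y hy hζy hby => ?_⟩
    rw [hb] at hby
    have h1 := hcon y hy hζy hby
    have h2 : ∀ V, (T2 G ζ d).f (cv 0 y) (cv 0 y) V = 0 := by
      intro V
      rw [T2_apply]
      simp only [pv_cv, pw_cv, hst y hby, h1, hζy]
      ring
    intro u u'
    have h6 := vertex_of hH (rt_cv K.zero_mem hy) h2 (cv 0 u) (cv 0 u')
    rw [T2_apply] at h6
    simp only [pv_cv, pw_cv, mul_zero, sub_zero, zero_mul, add_zero] at h6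
    exact (mul_eq_zero.1 h6).resolve_left hd
  set c := G.f v₀ y y with hcd
  set F := T2 G ζ d with hF
  -- the curve
  set γ : ℝ → E (N + 1) := fun t => cv (1 + t) y with hγ
  have hγc : Continuous γ := by
    refine continuous_pi fun i => ?_
    refine Fin.cases ?_ (fun i => ?_) i
    · exact continuous_const.add continuous_id
    · exact continuous_const
  have hyy : ∀ v, G.f y y v = c * L v := fun v => hst y hLy v
  have hγγ : ∀ t V, F.f (γ t) (γ t) V = d * (c * L (pv V)) - 1 / 3 * ((1 + t) ^ 2 * ζ (pv V)) := by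
    intro t V
    rw [hF, T2_apply]
    simp only [hγ, pv_cv, pw_cv, hyy, hζy]
    ring
  have hγ0 : ∀ t, F.f (γ t) (γ t) (γ t) = 0 := by
    intro t
    rw [hγγ]
    simp only [hγ, pv_cv, hLy, hζy]
    ring
  have hγW : ∀ t, γ t ∈ W F K := by
    intro t
    obtain ⟨s, hs, hs'⟩ := seq_K (K := K) t
    refine W.of_seq (u := fun n => γ (s n)) (Eventually.of_forall fun n =>
      ⟨rt_cv (K.add_mem K.one_mem (hs n)) hy, hγ0 _⟩) ((hγc.tendsto t).comp hs')
  have hTG : ∀ t, TG F K (γ t) := by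
    intro t
    refine tg_of_mem hH.rat (hγW t) (e := cv 0 x₀) ?_
    rw [hγγ, pv_cv, hx₀ζ, mul_zero, mul_zero, sub_zero]
    exact mul_ne_zero hd (mul_ne_zero hc hLx)
  -- the point
  set τ : ℝ := 1 / (3 * d * c) with hτ
  have hdc : d * c ≠ 0 := mul_ne_zero hd hc
  have hτ1 : 3 * d * τ * c = 1 := by
    rw [hτ]
    field_simp
  have hτ0 : τ ≠ 0 := by
    intro h0
    rw [h0] at hτ1
    simp at hτ1
  obtain ⟨x₁, hx₁L, hx₁ζ⟩ : ∃ x₁, L x₁ = 0 ∧ ζ x₁ = 1 - τ := by
    refine ⟨(-(1 - τ) / L x₀) • (x₀ - L x₀ • v₀), ?_, ?_⟩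
    · rw [map_smul, map_sub, map_smul, hL0]
      simp
    · rw [map_smul, map_sub, map_smul, hx₀ζ, hζ₀, smul_eq_mul, smul_eq_mul]
      field_simp
      ring
  -- values of the form
  have hval : ∀ s : ℝ, G.f (τ • v₀ + (x₁ + s • y)) (τ • v₀ + (x₁ + s • y))
      (τ • v₀ + (x₁ + s • y)) = g * τ ^ 2 + 3 * τ * (G.f v₀ x₁ x₁ + 2 * s * G.f v₀ x₁ y +
        s ^ 2 * c) := by
    intro s
    have hx' : L (x₁ + s • y) = 0 := by rw [map_add, map_smul, hx₁L, hLy]; simp
    have hζx' : ζ (x₁ + s • y) = 1 - τ := by rw [map_add, map_smul, hx₁ζ, hζy]; simp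
    have h1 := hlin (x₁ + s • y)
    rw [hx', hζx'] at h1
    have h2 := hst (x₁ + s • y) hx' (x₁ + s • y)
    rw [hx', mul_zero] at h2
    have h3 : G.f v₀ (x₁ + s • y) (x₁ + s • y) = G.f v₀ x₁ x₁ + 2 * s * G.f v₀ x₁ y +
        s ^ 2 * c := by
      simp only [map_add, map_smul, LinearMap.add_apply, LinearMap.smul_apply, smul_eq_mul]
      rw [G.s23 v₀ y x₁, hcd]
      ring
    set x' := x₁ + s • y with hx'd
    rw [← h3]
    simp only [map_add, map_smul, LinearMap.add_apply, LinearMap.smul_apply, smul_eq_mul]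
    obtain ⟨n1, n2, n3, n4⟩ := G.n2 v₀ x'
    rw [n1, n2, n3, n4, h1, h2, ← hgd]
    ring
  -- a large parameter
  obtain ⟨s, hs⟩ : ∃ s : ℝ, 0 < d * (g * τ ^ 2 + 3 * τ * (G.f v₀ x₁ x₁ + 2 * s * G.f v₀ x₁ y +
      s ^ 2 * c)) := by
    set A := d * (g * τ ^ 2 + 3 * τ * G.f v₀ x₁ x₁) with hA
    set B := 6 * d * τ * G.f v₀ x₁ y with hB
    refine ⟨1 + |A| + |B|, ?_⟩
    have e : ∀ s : ℝ, d * (g * τ ^ 2 + 3 * τ * (G.f v₀ x₁ x₁ + 2 * s * G.f v₀ x₁ y +
      s ^ 2 * c)) = s ^ 2 + B * s + A := by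
      intro s
      rw [hA, hB]
      linear_combination s ^ 2 * hτ1
    rw [e]
    have h1 := neg_abs_le A
    have h2 := neg_abs_le B
    have h3 := abs_nonneg A
    have h4 := abs_nonneg B
    nlinarith [mul_nonneg h3 h4, mul_nonneg h3 h3, mul_nonneg h4 h4]
  set v : E N := τ • v₀ + (x₁ + s • y) with hv
  have hGv : 0 < d * G.f v v v := by rw [hval]; exact hs
  have hζv : ζ v = 1 := by
    rw [hv, map_add, map_add, map_smul, map_smul, hζ₀, hx₁ζ, hζy]
    simp
  have hLv : L v = τ := by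
    rw [hv, map_add, map_add, map_smul, map_smul, hL0, hx₁L, hLy]
    simp
  -- the sign
  obtain ⟨w, hw, hwne⟩ : ∃ w : ℝ, w ^ 2 = d * G.f v v v ∧ F.f (γ 0) (cv w v) (cv w v) ≠ 0 := by
    have hsq := Real.sq_sqrt hGv.le
    have hpos := Real.sqrt_pos.2 hGv
    set w := Real.sqrt (d * G.f v v v) with hw
    have e : ∀ w' : ℝ, F.f (γ 0) (cv w' v) (cv w' v) = d * G.f y v v - 2 / 3 * w' := by
      intro w'
      rw [hF, T2_apply]
      simp only [hγ, pv_cv, pw_cv, hζy, hζv]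
      ring
    by_cases h0 : F.f (γ 0) (cv w v) (cv w v) = 0
    · refine ⟨-w, by rw [neg_sq]; exact hsq, ?_⟩
      intro h1
      rw [e] at h0 h1
      have : w = 0 := by linarith
      exact hpos.ne' this
    · exact ⟨w, hsq, h0⟩
  refine hH.int (cv w v) (sweep hγc (Eventually.of_forall hTG) (Y := cv w v) ?_ hwne
    (χ := fun t => -(2 + t) / 3) (by fun_prop) (by norm_num) (Eventually.of_forall fun t => ?_))
  · rw [hF, T2_apply]
    simp only [pv_cv, pw_cv, hζv]
    linear_combination -hw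
  · rw [hγγ, pv_cv, hζv, hLv]
    linear_combination (1 / 3) * hτ1

end Pool.Agent.NH8.C
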