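import Pool.Agent.R847.HG.Ht

/-!
# The tangent map of a binary cubic form
-/

set_option autoImplicit false
set_option linter.unusedSectionVars false
set_option linter.unusedVariables false
set_option linter.unusedSimpArgs false

namespace Pool.Agent.NH8.C

section alg

variable {R : Type*} [CommRing R]

/-- the form -/
def qB (a b c e x y : R) : R := a * x ^ 3 + b * x ^ 2 * y + c * x * y ^ 2 + e * y ^ 3
/-- the first derivative -/
def qX (a b c e x y : R) : R := 3 * a * x ^ 2 + 2 * b * x * y + c * y ^ 2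
/-- the second derivative -/
def qY (a b c e x y : R) : R := b * x ^ 2 + 2 * c * x * y + 3 * e * y ^ 2
/-- the Hessian covariant -/
def qH (a b c e x y : R) : R :=
  (b ^ 2 - 3 * a * c) * x ^ 2 + (b * c - 9 * a * e) * x * y + (c ^ 2 - 3 * b * e) * y ^ 2
/-- the cubic covariant -/
def qQ (a b c e x y : R) : R :=
  (2 * b ^ 3 - 9 * a * b * c + 27 * a ^ 2 * e) * x ^ 3 +
  (3 * b ^ 2 * c - 18 * a * c ^ 2 + 27 * a * b * e) * x ^ 2 * y +
  (-3 * b * c ^ 2 + 18 * b ^ 2 * e - 27 * a * c * e) * x * y ^ 2 +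
  (-2 * c ^ 3 + 9 * b * c * e - 27 * a * e ^ 2) * y ^ 3
/-- the discriminant -/
def qD (a b c e : R) : R := b ^ 2 * c ^ 2 - 4 * a * c ^ 3 - 4 * b ^ 3 * e - 27 * a ^ 2 * e ^ 2 +
  18 * a * b * c * e
/-- the tangent map -/
def qT (a b c e x y : R) : R := (27 * a ^ 2 * e - b ^ 3) * (x ^ 4) +
  (54 * a * b * e - 6 * b ^ 2 * c) * (x ^ 3 * y) +
  (54 * a * c * e - 12 * b * c ^ 2 + 18 * b ^ 2 * e) * (x ^ 2 * y ^ 2) +
  (54 * a * e ^ 2 + 18 * b * c * e - 8 * c ^ 3) * (x * y ^ 3) +
  (27 * b * e ^ 2 - 9 * c ^ 2 * e) * (y ^ 4)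
/-- the tangent map -/
def qU (a b c e x y : R) : R := (9 * a * b ^ 2 - 27 * a ^ 2 * c) * (x ^ 4) +
  (8 * b ^ 3 - 18 * a * b * c - 54 * a ^ 2 * e) * (x ^ 3 * y) +
  (12 * b ^ 2 * c - 54 * a * b * e - 18 * a * c ^ 2) * (x ^ 2 * y ^ 2) +
  (6 * b * c ^ 2 - 54 * a * c * e) * (x * y ^ 3) +
  (c ^ 3 - 27 * a * e ^ 2) * (y ^ 4)

variable (a b c e x y : R)

lemma qT_eq : qT a b c e x y = qQ a b c e x y * x + 3 * qH a b c e x y * (-qY a b c e x y) := by
  unfold qT qQ qH qY
  ring

lemma qU_eq : qU a b c e x y = qQ a b c e x y * y + 3 * qH a b c e x y * qX a b c e x y := by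
  unfold qU qQ qH qX
  ring

lemma euler : x * qX a b c e x y + y * qY a b c e x y = 3 * qB a b c e x y := by
  unfold qX qY qB
  ring

lemma syz : qQ a b c e x y ^ 2 + 27 * qD a b c e * qB a b c e x y ^ 2 =
    4 * qH a b c e x y ^ 3 := by
  unfold qQ qD qB qH
  ring

lemma qB_exp (s t u v : R) : qB a b c e (s * x + t * u) (s * y + t * v) =
    s ^ 3 * qB a b c e x y + s ^ 2 * t * (qX a b c e x y * u + qY a b c e x y * v) +
      s * t ^ 2 * (3 * a * x * u ^ 2 + b * (y * u ^ 2 + 2 * x * u * v) +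
        c * (x * v ^ 2 + 2 * y * u * v) + 3 * e * y * v ^ 2) + t ^ 3 * qB a b c e u v := by
  unfold qB qX qY
  ring

lemma qB_two : 3 * a * x * (-qY a b c e x y) ^ 2 + b * (y * (-qY a b c e x y) ^ 2 +
      2 * x * (-qY a b c e x y) * qX a b c e x y) +
      c * (x * qX a b c e x y ^ 2 + 2 * y * (-qY a b c e x y) * qX a b c e x y) +
      3 * e * y * qX a b c e x y ^ 2 = -3 * qB a b c e x y * qH a b c e x y := by
  unfold qX qY qB qH
  ring

lemma qB_three : qB a b c e (-qY a b c e x y) (qX a b c e x y) =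
    qB a b c e x y * qQ a b c e x y := by
  unfold qX qY qB qQ
  ring

/-- **the value of the form at the tangent point** -/
theorem qB_tangent : qB a b c e (qT a b c e x y) (qU a b c e x y) =
    qB a b c e x y * qQ a b c e x y ^ 3 := by
  rw [qT_eq, qU_eq, qB_exp, qB_two, qB_three]
  generalize qX a b c e x y = X
  generalize qY a b c e x y = Y
  ring

lemma i1 : x ^ 2 * qH a b c e x y = qY a b c e x y ^ 2 + qB a b c e x y * (-3 * c * x - 9 * e * y) := by
  unfold qH qY qB
  ring

lemma i2 : x ^ 3 * qQ a b c e x y = 2 * qY a b c e x y ^ 3 + qB a b c e x y *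
    ((27 * a * e - 9 * b * c) * x ^ 3 - 18 * c ^ 2 * x ^ 2 * y - 54 * c * e * x * y ^ 2 -
      54 * e ^ 2 * y ^ 3) := by
  unfold qQ qY qB
  ring

lemma i3 : -3 * qD a b c e * x ^ 3 = (27 * a * e ^ 2 * x - 15 * b * c * e * x - 18 * b * e ^ 2 * y +
      6 * c ^ 2 * e * y + 4 * c ^ 3 * x) * qX a b c e x y +
    (-9 * a * c * e * x + 6 * b * c * e * y - 3 * b * c ^ 2 * x + 12 * b ^ 2 * e * x -
      2 * c ^ 3 * y) * qY a b c e x y := by
  unfold qD qX qY
  ring

lemma i3' : -3 * qD a b c e * y ^ 3 = (6 * a * b * c * x - 9 * a * b * e * y + 12 * a * c ^ 2 * y -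
      3 * b ^ 2 * c * y - 2 * b ^ 3 * x) * qX a b c e x y +
    (-15 * a * b * c * y + 6 * a * b ^ 2 * x - 18 * a ^ 2 * c * x + 27 * a ^ 2 * e * y +
      4 * b ^ 3 * y) * qY a b c e x y := by
  unfold qD qX qY
  ring

end alg

/-- no common zeros -/
theorem qTU_zero {F : Type*} [Field F] [CharZero F] {a b c e x y : F} (hD : qD a b c e ≠ 0)
    (hT : qT a b c e x y = 0) (hU : qU a b c e x y = 0) : x = 0 ∧ y = 0 := by
  have h3 : (3 : F) ≠ 0 := by norm_num
  have hdbl : qX a b c e x y = 0 → qY a b c e x y = 0 → x = 0 ∧ y = 0 := by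
    intro h1 h2
    have e1 := i3 a b c e x y
    have e2 := i3' a b c e x y
    rw [h1, h2, mul_zero, mul_zero, add_zero] at e1 e2
    constructor
    · have := (mul_eq_zero.1 e1).resolve_left (mul_ne_zero (neg_ne_zero.2 h3) hD)
      exact pow_eq_zero_iff (n := 3) (by norm_num) |>.1 this
    · have := (mul_eq_zero.1 e2).resolve_left (mul_ne_zero (neg_ne_zero.2 h3) hD)
      exact pow_eq_zero_iff (n := 3) (by norm_num) |>.1 this
  have hBz : qB a b c e x y = 0 → x = 0 ∧ y = 0 := by
    intro hB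
    have e1 := i1 a b c e x y
    have e2 := i2 a b c e x y
    rw [hB, zero_mul, add_zero] at e1 e2
    have e3 := qT_eq a b c e x y
    rw [hT] at e3
    have e4 : x * qY a b c e x y ^ 3 = 0 := by
      linear_combination x ^ 3 * e3 + x * e2 - 3 * x * qY a b c e x y * e1
    rcases mul_eq_zero.1 e4 with hx | hy
    · rw [hx] at hB hU
      have h5 : e * y ^ 3 = 0 := by
        unfold qB at hB
        linear_combination hB
      rcases mul_eq_zero.1 h5 with h6 | h6
      · have h7 : c ^ 3 * y ^ 4 = 0 := by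
          unfold qU at hU
          rw [h6] at hU
          linear_combination hU
        rcases mul_eq_zero.1 h7 with h8 | h8
        · exfalso
          apply hD
          have h9 : c = 0 := pow_eq_zero_iff (n := 3) (by norm_num) |>.1 h8
          unfold qD
          rw [h6, h9]
          ring
        · exact ⟨hx, pow_eq_zero_iff (n := 4) (by norm_num) |>.1 h8⟩
      · exact ⟨hx, pow_eq_zero_iff (n := 3) (by norm_num) |>.1 h6⟩
    · have hy' : qY a b c e x y = 0 := pow_eq_zero_iff (n := 3) (by norm_num) |>.1 hy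
      have e5 := euler a b c e x y
      rw [hy', hB, mul_zero, mul_zero, add_zero] at e5
      rcases mul_eq_zero.1 e5 with hx | hx
      · -- `x = 0`
        rw [hx] at hy' hU
        have h5 : e * y ^ 2 = 0 := by
          unfold qY at hy'
          have : 3 * (e * y ^ 2) = 0 := by linear_combination hy'
          exact (mul_eq_zero.1 this).resolve_left h3
        rcases mul_eq_zero.1 h5 with h6 | h6
        · have h7 : c ^ 3 * y ^ 4 = 0 := by
            unfold qU at hU
            rw [h6] at hU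
            linear_combination hU
          rcases mul_eq_zero.1 h7 with h8 | h8
          · exfalso
            apply hD
            have h9 : c = 0 := pow_eq_zero_iff (n := 3) (by norm_num) |>.1 h8
            unfold qD
            rw [h6, h9]
            ring
          · exact ⟨hx, pow_eq_zero_iff (n := 4) (by norm_num) |>.1 h8⟩
        · exact ⟨hx, pow_eq_zero_iff (n := 2) (by norm_num) |>.1 h6⟩
      · exact hdbl hx hy'
  have e1 : 9 * (qH a b c e x y * qB a b c e x y) = 0 := by
    have h1 := qT_eq a b c e x y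
    have h2 := qU_eq a b c e x y
    have h4 := euler a b c e x y
    rw [hT] at h1
    rw [hU] at h2
    linear_combination y * h1 - x * h2 - 3 * qH a b c e x y * h4
  rcases mul_eq_zero.1 ((mul_eq_zero.1 e1).resolve_left (by norm_num)) with hH | hB
  · have h1 := qT_eq a b c e x y
    have h2 := qU_eq a b c e x y
    rw [hT, hH] at h1
    rw [hU, hH] at h2
    have h1' : qQ a b c e x y * x = 0 := by linear_combination -h1
    have h2' : qQ a b c e x y * y = 0 := by linear_combination -h2
    rcases mul_eq_zero.1 h1' with hQ | hx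
    · apply hBz
      have h4 := syz a b c e x y
      rw [hQ, hH] at h4
      have h5 : 27 * qD a b c e * qB a b c e x y ^ 2 = 0 := by linear_combination h4
      have h6 := (mul_eq_zero.1 h5).resolve_left (mul_ne_zero (by norm_num) hD)
      exact pow_eq_zero_iff (n := 2) (by norm_num) |>.1 h6
    · rcases mul_eq_zero.1 h2' with hQ | hy
      · apply hBz
        have h4 := syz a b c e x y
        rw [hQ, hH] at h4
        have h5 : 27 * qD a b c e * qB a b c e x y ^ 2 = 0 := by linear_combination h4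
        have h6 := (mul_eq_zero.1 h5).resolve_left (mul_ne_zero (by norm_num) hD)
        exact pow_eq_zero_iff (n := 2) (by norm_num) |>.1 h6
      · exact ⟨hx, hy⟩
  · exact hBz hB

/-- a rational singular zero if the discriminant vanishes -/
theorem exists_double {F : Type*} [Field F] [CharZero F] {a b c e : F} (hD : qD a b c e = 0) :
    (∃ x y : F, ¬ (x = 0 ∧ y = 0) ∧ qX a b c e x y = 0 ∧ qY a b c e x y = 0) ∨
    (b ^ 2 = 3 * a * c ∧ b * c = 9 * a * e ∧ c ^ 2 = 3 * b * e) := by
  have k1 : qX a b c e (-(b * c - 9 * a * e)) (2 * (b ^ 2 - 3 * a * c)) = -9 * a * qD a b c e := by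
    unfold qX qD
    ring
  have k2 : qY a b c e (-(b * c - 9 * a * e)) (2 * (b ^ 2 - 3 * a * c)) = -3 * b * qD a b c e := by
    unfold qY qD
    ring
  have k3 : qX a b c e (2 * (c ^ 2 - 3 * b * e)) (-(b * c - 9 * a * e)) = -3 * c * qD a b c e := by
    unfold qX qD
    ring
  have k4 : qY a b c e (2 * (c ^ 2 - 3 * b * e)) (-(b * c - 9 * a * e)) = -9 * e * qD a b c e := by
    unfold qY qD
    ring
  rw [hD, mul_zero] at k1 k2 k3 k4
  by_cases h1 : b * c - 9 * a * e = 0
  · by_cases h2 : b ^ 2 - 3 * a * c = 0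
    · by_cases h3 : c ^ 2 - 3 * b * e = 0
      · right
        exact ⟨by linear_combination h2, by linear_combination h1, by linear_combination h3⟩
      · left
        refine ⟨_, _, ?_, k3, k4⟩
        rintro ⟨h4, -⟩
        exact h3 ((mul_eq_zero.1 h4).resolve_left two_ne_zero)
    · left
      refine ⟨_, _, ?_, k1, k2⟩
      rintro ⟨-, h4⟩
      exact h2 ((mul_eq_zero.1 h4).resolve_left two_ne_zero)
  · left
    refine ⟨_, _, ?_, k1, k2⟩
    rintro ⟨h4, -⟩
    exact h1 (neg_eq_zero.1 h4)

section height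

open MvPolynomial Height Pool.Agent.R847.HG

variable (a b c e : ℚ)

/-- the tangent map as polynomials -/
noncomputable def tp : Fin (1 + 1) → MvPolynomial (Fin (1 + 1)) ℚ :=
  ![qT (C a) (C b) (C c) (C e) (X 0) (X 1), qU (C a) (C b) (C c) (C e) (X 0) (X 1)]

lemma tp0 : tp a b c e 0 = qT (C a) (C b) (C c) (C e) (X 0) (X 1) := rfl
lemma tp1 : tp a b c e 1 = qU (C a) (C b) (C c) (C e) (X 0) (X 1) := rfl

lemma mono4 (k : ℚ) (i j : ℕ) (h : i + j = 4) :
    (C k * (X 0 ^ i * X 1 ^ j) : MvPolynomial (Fin (1 + 1)) ℚ).IsHomogeneous 4 := by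
  have h1 := (isHomogeneous_C (Fin (1 + 1)) k).mul ((isHomogeneous_X_pow (R := ℚ)
    (0 : Fin (1 + 1)) i).mul (isHomogeneous_X_pow (R := ℚ) (1 : Fin (1 + 1)) j))
  rwa [zero_add, h] at h1

lemma tp_hom (i : Fin (1 + 1)) : (tp a b c e i).IsHomogeneous 4 := by
  fin_cases i
  · have : tp a b c e 0 = C (27 * a ^ 2 * e - b ^ 3) * (X 0 ^ 4 * X 1 ^ 0) +
      C (54 * a * b * e - 6 * b ^ 2 * c) * (X 0 ^ 3 * X 1 ^ 1) +
      C (54 * a * c * e - 12 * b * c ^ 2 + 18 * b ^ 2 * e) * (X 0 ^ 2 * X 1 ^ 2) +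
      C (54 * a * e ^ 2 + 18 * b * c * e - 8 * c ^ 3) * (X 0 ^ 1 * X 1 ^ 3) +
      C (27 * b * e ^ 2 - 9 * c ^ 2 * e) * (X 0 ^ 0 * X 1 ^ 4) := by
      simp only [tp0, qT, map_sub, map_mul, map_pow, map_ofNat, map_add]
      ring
    change (tp a b c e 0).IsHomogeneous 4
    rw [this]
    exact ((((mono4 _ 4 0 rfl).add (mono4 _ 3 1 rfl)).add (mono4 _ 2 2 rfl)).add
      (mono4 _ 1 3 rfl)).add (mono4 _ 0 4 rfl)
  · have : tp a b c e 1 = C (9 * a * b ^ 2 - 27 * a ^ 2 * c) * (X 0 ^ 4 * X 1 ^ 0) +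
      C (8 * b ^ 3 - 18 * a * b * c - 54 * a ^ 2 * e) * (X 0 ^ 3 * X 1 ^ 1) +
      C (12 * b ^ 2 * c - 54 * a * b * e - 18 * a * c ^ 2) * (X 0 ^ 2 * X 1 ^ 2) +
      C (6 * b * c ^ 2 - 54 * a * c * e) * (X 0 ^ 1 * X 1 ^ 3) +
      C (c ^ 3 - 27 * a * e ^ 2) * (X 0 ^ 0 * X 1 ^ 4) := by
      simp only [tp1, qU, map_sub, map_mul, map_pow, map_ofNat, map_add]
      ring
    change (tp a b c e 1).IsHomogeneous 4
    rw [this]
    exact ((((mono4 _ 4 0 rfl).add (mono4 _ 3 1 rfl)).add (mono4 _ 2 2 rfl)).add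
      (mono4 _ 1 3 rfl)).add (mono4 _ 0 4 rfl)

lemma aeval_tp0 {A : Type*} [CommRing A] [Algebra ℚ A] (x : Fin (1 + 1) → A) :
    aeval x (tp a b c e 0) = qT (algebraMap ℚ A a) (algebraMap ℚ A b) (algebraMap ℚ A c)
      (algebraMap ℚ A e) (x 0) (x 1) := by
  simp only [tp0, qT, map_add, map_sub, map_mul, map_pow, map_ofNat,
    aeval_X, algHom_C]

lemma aeval_tp1 {A : Type*} [CommRing A] [Algebra ℚ A] (x : Fin (1 + 1) → A) :
    aeval x (tp a b c e 1) = qU (algebraMap ℚ A a) (algebraMap ℚ A b) (algebraMap ℚ A c)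
      (algebraMap ℚ A e) (x 0) (x 1) := by
  simp only [tp1, qU, map_add, map_sub, map_mul, map_pow, map_ofNat,
    aeval_X, algHom_C]

/-- the orbit -/
def orb (x y : ℚ) : ℕ → Fin (1 + 1) → ℚ
  | 0 => ![x, y]
  | n + 1 => ![qT a b c e (orb x y n 0) (orb x y n 1), qU a b c e (orb x y n 0) (orb x y n 1)]

/-- **the orbits of the tangent map are infinite, off finitely many lines** -/
theorem orbits (hD : qD a b c e ≠ 0) : ∃ L : Set (ℚ × ℚ), L.Finite ∧ (∀ l ∈ L, l ≠ 0) ∧
    ∀ x y : ℚ, (x, y) ≠ (0, 0) → (∃ l ∈ L, l.1 * x + l.2 * y = 0) ∨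
      ∀ m n, m < n → orb a b c e x y m 0 * orb a b c e x y n 1 ≠
        orb a b c e x y m 1 * orb a b c e x y n 0 := by
  obtain ⟨C', hC⟩ := exists_lower (K := ℚ) (N := 1) (d := 4) (tp a b c e) (tp_hom a b c e) (by
    intro x hx
    have h0 := hx 0
    have h1 := hx 1
    rw [aeval_tp0] at h0
    rw [aeval_tp1] at h1
    obtain ⟨h2, h3⟩ := qTU_zero (by
      have : qD (algebraMap ℚ (AlgebraicClosure ℚ) a) (algebraMap ℚ (AlgebraicClosure ℚ) b)
          (algebraMap ℚ (AlgebraicClosure ℚ) c) (algebraMap ℚ (AlgebraicClosure ℚ) e) =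
          algebraMap ℚ (AlgebraicClosure ℚ) (qD a b c e) := by
        simp only [qD, map_add, map_sub, map_mul, map_pow, map_ofNat]
      intro h
      have h5 : algebraMap ℚ (AlgebraicClosure ℚ) (qD a b c e) = 0 := this.symm.trans h
      exact hD (by simpa using h5)) h0 h1
    funext i
    fin_cases i
    · exact h2
    · exact h3)
  have hstep : ∀ v : Fin (1 + 1) → ℚ, stepR (tp a b c e) v = ![qT a b c e (v 0) (v 1),
      qU a b c e (v 0) (v 1)] := by
    intro v
    funext i
    unfold stepR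
    fin_cases i
    · exact aeval_tp0 a b c e v
    · exact aeval_tp1 a b c e v
  set M := |C'| with hM
  have hM0 : 0 ≤ M := abs_nonneg C'
  have hCM : -M ≤ C' := neg_abs_le C'
  have hfin : {z : ℚ | mulHeight₁ z ≤ Real.exp M}.Finite := Northcott.finite_le _
  refine ⟨(fun r : ℚ => ((1 : ℚ), -r)) '' {z : ℚ | mulHeight₁ z ≤ Real.exp M} ∪ {(0, 1)},
    (hfin.image _).union (Set.finite_singleton _), ?_, fun x y hxy => ?_⟩
  · rintro l (⟨r, -, rfl⟩ | rfl)
    · intro h
      have := congrArg Prod.fst h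
      simp at this
    · intro h
      have := congrArg Prod.snd h
      simp at this
  by_cases hh : logHeight (![x, y] : Fin (1 + 1) → ℚ) ≤ M
  · left
    by_cases hy : y = 0
    · exact ⟨(0, 1), Or.inr rfl, by rw [hy]; ring⟩
    · refine ⟨(1, -(x / y)), Or.inl ⟨x / y, ?_, rfl⟩, by field_simp; ring⟩
      have h1 := ratio_le (![x, y] : Fin (1 + 1) → ℚ) 1 0
      rw [logHeight_eq_log_mulHeight, Real.log_le_iff_le_exp (mulHeight_pos _)] at hh
      exact le_trans h1 hh
  · right
    push Not at hh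
    have hs : ∀ n, orb a b c e x y (n + 1) = stepR (tp a b c e) (orb a b c e x y n) := by
      intro n
      rw [hstep]
      rfl
    have key : ∀ n, M < logHeight (orb a b c e x y n) ∧
        logHeight (orb a b c e x y n) < logHeight (orb a b c e x y (n + 1)) := by
      have hgrow : ∀ n, M < logHeight (orb a b c e x y n) →
          logHeight (orb a b c e x y n) < logHeight (orb a b c e x y (n + 1)) := by
        intro n hn
        have h1 := hC (orb a b c e x y n)
        rw [← hs] at h1
        push_cast at h1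
        linarith
      intro n
      induction n with
      | zero => exact ⟨hh, hgrow 0 hh⟩
      | succ n ih => exact ⟨ih.1.trans ih.2, hgrow _ (ih.1.trans ih.2)⟩
    have hmono : StrictMono fun n => logHeight (orb a b c e x y n) :=
      strictMono_nat_of_lt_succ fun n => (key n).2
    have hne : ∀ n, orb a b c e x y n ≠ 0 := by
      intro n h0
      have := (key n).1
      rw [h0, logHeight_zero] at this
      linarith
    intro m n hmn heq
    have hlt := hmono hmn
    simp only at hlt
    -- proportional vectors have the same height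
    have hprop : ∃ t : ℚ, t ≠ 0 ∧ orb a b c e x y n = t • orb a b c e x y m := by
      have hm := hne m
      have hn := hne n
      set u := orb a b c e x y m with hu
      set v := orb a b c e x y n with hv
      have hv0 : ∀ t : ℚ, v = t • u → t ≠ 0 := by
        rintro t ht rfl
        rw [zero_smul] at ht
        exact hn ht
      by_cases h0 : u 0 = 0
      · have h1 : u 1 ≠ 0 := by
          intro h1
          apply hm
          funext i
          fin_cases i
          · exact h0
          · exact h1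
        have : v = (v 1 / u 1) • u := by
          funext i
          fin_cases i
          · change v 0 = (v 1 / u 1) * u 0
            rw [h0, mul_zero]
            rw [h0, zero_mul] at heq
            exact (mul_eq_zero.1 heq.symm).resolve_left h1
          · change v 1 = (v 1 / u 1) * u 1
            field_simp
        exact ⟨_, hv0 _ this, this⟩
      · have : v = (v 0 / u 0) • u := by
          funext i
          fin_cases i
          · change v 0 = (v 0 / u 0) * u 0
            field_simp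
          · change v 1 = (v 0 / u 0) * u 1
            field_simp
            linear_combination heq
        exact ⟨_, hv0 _ this, this⟩
    obtain ⟨t, ht, h⟩ := hprop
    rw [h, logHeight_smul_eq_logHeight _ ht] at hlt
    exact lt_irrefl _ hlt

end height

end Pool.Agent.NH8.C
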