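import Pool.Agent.NH8.CG
import Pool.Agent.NH8.CH

/-!
# Binary cubic forms, the exponent three
-/

set_option autoImplicit false
set_option linter.unusedSectionVars false
set_option linter.unusedVariables false
set_option linter.unusedSimpArgs false

open Set Filter Topology Pool.Agent.H581R2 Pool.Agent.TH729.SQ Pool.Agent.TH729.CC

namespace Pool.Agent.NH8.C

/-- the rational numbers -/
noncomputable abbrev Kq : Subfield ℝ := (Rat.castHom ℝ).fieldRange

lemma mem_Kq {x : ℝ} (h : x ∈ Kq) : ∃ q : ℚ, (q : ℝ) = x := by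
  obtain ⟨q, hq⟩ := h
  exact ⟨q, hq⟩

lemma Kq_mem (q : ℚ) : (q : ℝ) ∈ Kq := ⟨q, rfl⟩

lemma KA_q : KA Kq := by
  rintro _ ⟨q, rfl⟩
  exact isAlgebraic_algebraMap q

section two

variable {G : Tri 2}

/-- the coefficients -/
lemma vec2 (v : E 2) : v = v 0 • ![1, 0] + v 1 • ![0, 1] := by
  funext i
  fin_cases i <;> simp

lemma coords2 (G : Tri 2) (v : E 2) : G.f v v v = qB (G.f ![1, 0] ![1, 0] ![1, 0])
    (3 * G.f ![1, 0] ![1, 0] ![0, 1]) (3 * G.f ![1, 0] ![0, 1] ![0, 1])
    (G.f ![0, 1] ![0, 1] ![0, 1]) (v 0) (v 1) := by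
  conv_lhs => rw [vec2 v]
  obtain ⟨n1, n2, n3, n4⟩ := G.n2 (![1, 0] : E 2) ![0, 1]
  generalize (![1, 0] : E 2) = p at *
  generalize (![0, 1] : E 2) = q at *
  simp only [map_add, map_smul, LinearMap.add_apply, LinearMap.smul_apply, smul_eq_mul]
  rw [n1, n2, n3, n4, qB]
  ring

lemma coords2' (G : Tri 2) (v u : E 2) : 3 * G.f v v u = qX (G.f ![1, 0] ![1, 0] ![1, 0])
    (3 * G.f ![1, 0] ![1, 0] ![0, 1]) (3 * G.f ![1, 0] ![0, 1] ![0, 1])
    (G.f ![0, 1] ![0, 1] ![0, 1]) (v 0) (v 1) * u 0 + qY (G.f ![1, 0] ![1, 0] ![1, 0])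
    (3 * G.f ![1, 0] ![1, 0] ![0, 1]) (3 * G.f ![1, 0] ![0, 1] ![0, 1])
    (G.f ![0, 1] ![0, 1] ![0, 1]) (v 0) (v 1) * u 1 := by
  conv_lhs => rw [vec2 v, vec2 u]
  obtain ⟨n1, n2, n3, n4⟩ := G.n2 (![1, 0] : E 2) ![0, 1]
  generalize (![1, 0] : E 2) = p at *
  generalize (![0, 1] : E 2) = q at *
  simp only [map_add, map_smul, LinearMap.add_apply, LinearMap.smul_apply, smul_eq_mul]
  rw [n1, n2, n3, n4, qX, qY]
  ring

lemma rt_e0 {K : Subfield ℝ} : Rt K (![1, 0] : E 2) := by
  intro i
  fin_cases i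
  · exact K.one_mem
  · exact K.zero_mem
lemma rt_e1 {K : Subfield ℝ} : Rt K (![0, 1] : E 2) := by
  intro i
  fin_cases i
  · exact K.zero_mem
  · exact K.one_mem

/-- a vertex gives a cube -/
lemma cube_of_vertex {K : Subfield ℝ} (hG : Rat3 G K) {P : E 2} (hP : Rt K P) (hP0 : P ≠ 0)
    (h : ∀ u u', G.f P u u' = 0) :
    ∃ c ∈ K, ∃ a : Fin 2 → K, ∀ v, Rt K v → G.f v v v = c * dt a v ^ 3 := by
  have key : ∀ (t : ℝ) (q : E 2) (s : ℝ), G.f (t • P + s • q) (t • P + s • q) (t • P + s • q) =
      s ^ 3 * G.f q q q := by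
    intro t q s
    obtain ⟨n1, n2, n3, n4⟩ := G.n2 P q
    simp only [map_add, map_smul, LinearMap.add_apply, LinearMap.smul_apply, smul_eq_mul]
    rw [n1, n2, n3, n4, h, h, h]
    ring
  by_cases h0 : P 0 = 0
  · have h1 : P 1 ≠ 0 := by
      intro h1
      apply hP0
      funext i
      fin_cases i
      · exact h0
      · exact h1
    refine ⟨G.f ![1, 0] ![1, 0] ![1, 0], hG _ _ _ rt_e0 rt_e0 rt_e0, ![1, 0], fun v hv => ?_⟩
    have hv' : v = (v 1 / P 1) • P + v 0 • ![1, 0] := by
      funext i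
      fin_cases i
      · simp [h0]
      · simp
        field_simp
    have hd : dt (![1, 0] : Fin 2 → K) v = v 0 := by
      rw [dt_apply, Fin.sum_univ_two]
      simp
    rw [hd]
    conv_lhs => rw [hv']
    rw [key]
    ring
  · refine ⟨G.f ![0, 1] ![0, 1] ![0, 1] / P 0 ^ 3, K.div_mem (hG _ _ _ rt_e1 rt_e1 rt_e1)
      (K.pow_mem (hP 0) 3), ![-⟨P 1, hP 1⟩, ⟨P 0, hP 0⟩], fun v hv => ?_⟩
    have hd : dt (![-⟨P 1, hP 1⟩, ⟨P 0, hP 0⟩] : Fin 2 → K) v = P 0 * v 1 - P 1 * v 0 := by
      rw [dt_apply, Fin.sum_univ_two]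
      simp only [Matrix.cons_val_zero, Matrix.cons_val_one]
      have h3 : ((-(⟨P 1, hP 1⟩ : K) : K) : ℝ) = -P 1 := rfl
      rw [h3]
      ring
    have hv' : v = (v 0 / P 0) • P + ((P 0 * v 1 - P 1 * v 0) / P 0) • ![0, 1] := by
      funext i
      fin_cases i
      · simp
        field_simp
      · simp
        field_simp
        ring
    rw [hd]
    conv_lhs => rw [hv']
    rw [key]
    field_simp

/-- **binary cubic forms: there are interior points on the twists, off finitely many lines** -/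
theorem bin3 (hG : Rat3 G Kq)
    (hnc : ¬ ∃ c ∈ Kq, ∃ a : Fin 2 → Kq, ∀ v, Rt Kq v → G.f v v v = c * dt a v ^ 3) :
    ∃ L : Set (Fin 2 → Kq), L.Finite ∧ (∀ a ∈ L, a ≠ 0) ∧ ∀ v, Rt Kq v → G.f v v v ≠ 0 →
      (∃ a ∈ L, dt a v = 0) ∨ ∀ d ∈ Kq, d ≠ 0 → ∀ w ∈ Kq, w ≠ 0 → d * G.f v v v = w ^ 3 →
        ∃ R, Int' (T3 G d) Kq R := by
  obtain ⟨a, ha⟩ := mem_Kq (hG ![1, 0] ![1, 0] ![1, 0] rt_e0 rt_e0 rt_e0)
  obtain ⟨b, hb⟩ := mem_Kq (Kq.mul_mem mem_three (hG ![1, 0] ![1, 0] ![0, 1] rt_e0 rt_e0 rt_e1))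
  obtain ⟨c, hc⟩ := mem_Kq (Kq.mul_mem mem_three (hG ![1, 0] ![0, 1] ![0, 1] rt_e0 rt_e1 rt_e1))
  obtain ⟨e, he⟩ := mem_Kq (hG ![0, 1] ![0, 1] ![0, 1] rt_e1 rt_e1 rt_e1)
  have hval : ∀ v : E 2, G.f v v v = qB (a : ℝ) b c e (v 0) (v 1) := by
    intro v
    rw [coords2, ha, hb, hc, he]
  have hder : ∀ v u : E 2, 3 * G.f v v u = qX (a : ℝ) b c e (v 0) (v 1) * u 0 +
      qY (a : ℝ) b c e (v 0) (v 1) * u 1 := by
    intro v u
    rw [coords2', ha, hb, hc, he]
  by_cases hD : qD a b c e = 0
  · refine ⟨∅, Set.finite_empty, by simp, fun v hv hv0 => Or.inr fun d hd hd0 w hw hw0 hdw => ?_⟩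
    by_contra hI
    have hH : Hyp (T3 G d) Kq := ⟨T3_rat hG hd, fun R hR => hI ⟨R, hR⟩⟩
    rcases exists_double hD with ⟨x, y, hxy, hX, hY⟩ | ⟨h1, h2, h3⟩
    · set P : E 2 := ![(x : ℝ), (y : ℝ)] with hP
      have hPr : Rt Kq P := by
        intro i
        fin_cases i
        · exact Kq_mem x
        · exact Kq_mem y
      have hP0 : P ≠ 0 := by
        intro h0
        apply hxy
        have h4 := congrFun h0 0
        have h5 := congrFun h0 1
        simp only [hP, Matrix.cons_val_zero, Matrix.cons_val_one, Pi.zero_apply,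
          Rat.cast_eq_zero] at h4 h5
        exact ⟨h4, h5⟩
      have hX' : qX (a : ℝ) b c e x y = 0 := by
        have : qX (a : ℝ) b c e x y = ((qX a b c e x y : ℚ) : ℝ) := by
          unfold qX
          push_cast
          ring
        rw [this, hX, Rat.cast_zero]
      have hY' : qY (a : ℝ) b c e x y = 0 := by
        have : qY (a : ℝ) b c e x y = ((qY a b c e x y : ℚ) : ℝ) := by
          unfold qY
          push_cast
          ring
        rw [this, hY, Rat.cast_zero]
      have hPP : ∀ u, G.f P P u = 0 := by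
        intro u
        have h4 := hder P u
        have e0 : P 0 = x := rfl
        have e1 : P 1 = y := rfl
        rw [e0, e1, hX', hY'] at h4
        linarith
      apply hnc
      refine cube_of_vertex hG hPr hP0 fun u u' => ?_
      have h6 := vertex_of hH (rt_cv Kq.zero_mem hPr) (fun V => by
        rw [T3_apply]
        simp only [pv_cv, pw_cv, hPP]
        ring) (cv 0 u) (cv 0 u')
      rw [T3_apply] at h6
      simp only [pv_cv, pw_cv, mul_zero, sub_zero] at h6
      exact (mul_eq_zero.1 h6).resolve_left hd0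
    · apply hnc
      by_cases ha0 : a = 0
      · rw [ha0] at h1 h2
        have hb0 : b = 0 := by
          have : b ^ 2 = 0 := by rw [h1]; ring
          exact pow_eq_zero_iff (n := 2) (by norm_num) |>.1 this
        rw [hb0] at h3
        have hc0 : c = 0 := by
          have : c ^ 2 = 0 := by rw [h3]; ring
          exact pow_eq_zero_iff (n := 2) (by norm_num) |>.1 this
        refine ⟨(e : ℝ), Kq_mem e, ![0, 1], fun v hv => ?_⟩
        have hd : dt (![0, 1] : Fin 2 → Kq) v = v 1 := by
          rw [dt_apply, Fin.sum_univ_two]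
          simp
        rw [hd, hval, ha0, hb0, hc0, qB]
        push_cast
        ring
      · refine ⟨(a : ℝ), Kq_mem a, ![1, ⟨((b / (3 * a) : ℚ) : ℝ), Kq_mem _⟩], fun v hv => ?_⟩
        have hd : dt (![1, ⟨((b / (3 * a) : ℚ) : ℝ), Kq_mem _⟩] : Fin 2 → Kq) v =
            v 0 + ((b / (3 * a) : ℚ) : ℝ) * v 1 := by
          rw [dt_apply, Fin.sum_univ_two]
          simp
        have hc' : c = b ^ 2 / (3 * a) := by
          field_simp
          linear_combination -h1
        have he' : e = b * c / (9 * a) := by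
          field_simp
          linear_combination -h2
        have haR : (a : ℝ) ≠ 0 := by exact_mod_cast ha0
        rw [hd, hval, he', hc', qB]
        push_cast
        field_simp
        ring
  · obtain ⟨L, hL, hL0, horb⟩ := orbits a b c e hD
    refine ⟨(fun l : ℚ × ℚ => (![⟨(l.1 : ℝ), Kq_mem _⟩, ⟨(l.2 : ℝ), Kq_mem _⟩] : Fin 2 → Kq)) '' L,
      hL.image _, ?_, fun v hv hv0 => ?_⟩
    · rintro _ ⟨l, hl, rfl⟩ h0
      apply hL0 l hl
      have h1 := congrArg Subtype.val (congrFun h0 0)
      have h2 := congrArg Subtype.val (congrFun h0 1)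
      have h1' : (l.1 : ℝ) = 0 := h1
      have h2' : (l.2 : ℝ) = 0 := h2
      exact Prod.ext (by exact_mod_cast h1') (by exact_mod_cast h2')
    obtain ⟨x, hx⟩ := mem_Kq (hv 0)
    obtain ⟨y, hy⟩ := mem_Kq (hv 1)
    have hxy : (x, y) ≠ (0, 0) := by
      intro h0
      apply hv0
      rw [Prod.mk.injEq] at h0
      rw [hval, ← hx, ← hy, h0.1, h0.2, qB]
      push_cast
      ring
    rcases horb x y hxy with ⟨l, hl, hlz⟩ | hinf
    · left
      refine ⟨_, ⟨l, hl, rfl⟩, ?_⟩
      rw [dt_apply, Fin.sum_univ_two, ← hx, ← hy]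
      change (l.1 : ℝ) * x + l.2 * y = 0
      exact_mod_cast hlz
    · right
      intro d hdK hd w hwK hw hdw
      by_contra hI
      have hH : Hyp (T3 G d) Kq := ⟨T3_rat hG hdK, fun R hR => hI ⟨R, hR⟩⟩
      have hN : NH (T3 G d) Kq := by
        by_contra h
        obtain ⟨l, hl⟩ := NH3 h
        exact hnc ⟨d⁻¹, Kq.inv_mem hdK, l, fun v hv => by rw [← hl v hv]; field_simp⟩
      have hS : NSg (T3 G d) Kq := by
        intro P hP hP0
        by_contra h
        push Not at h
        have h1 := h (cv 1 0)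
        rw [T3_apply] at h1
        simp only [pv_cv, pw_cv, map_zero, mul_zero, zero_sub, mul_one, neg_eq_zero] at h1
        have h2 : pw P = 0 := by
          rcases mul_eq_zero.1 h1 with h | h <;> exact h
        have h3 : ∀ u, G.f (pv P) (pv P) u = 0 := by
          intro u
          have h4 := h (cv 0 u)
          rw [T3_apply] at h4
          simp only [pv_cv, pw_cv, mul_zero, sub_zero] at h4
          exact (mul_eq_zero.1 h4).resolve_left hd
        have h5 := hder (pv P) ![1, 0]
        have h6 := hder (pv P) ![0, 1]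
        rw [h3] at h5 h6
        simp only [Matrix.cons_val_zero, Matrix.cons_val_one, mul_one, mul_zero, add_zero,
          zero_add] at h5 h6
        have hDR : qD (a : ℝ) b c e ≠ 0 := by
          have : qD (a : ℝ) b c e = ((qD a b c e : ℚ) : ℝ) := by
            unfold qD
            push_cast
            ring
          rw [this]
          exact_mod_cast hD
        have e1 := i3 (a : ℝ) b c e (pv P 0) (pv P 1)
        have e2 := i3' (a : ℝ) b c e (pv P 0) (pv P 1)
        rw [← h5, ← h6, mul_zero, mul_zero, add_zero] at e1 e2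
        have e3 : pv P 0 = 0 := by
          have := (mul_eq_zero.1 e1).resolve_left (mul_ne_zero (by norm_num) hDR)
          exact pow_eq_zero_iff (n := 3) (by norm_num) |>.1 this
        have e4 : pv P 1 = 0 := by
          have := (mul_eq_zero.1 e2).resolve_left (mul_ne_zero (by norm_num) hDR)
          exact pow_eq_zero_iff (n := 3) (by norm_num) |>.1 this
        apply hP0
        rw [← cv_eta P, h2]
        funext i
        refine Fin.cases rfl (fun i => ?_) i
        rw [cv_succ]
        fin_cases i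
        · exact e3
        · exact e4
      obtain ⟨L', hL', hL'0, hcov⟩ := thmB hH hN hS
      obtain ⟨dq, hdq⟩ := mem_Kq hdK
      obtain ⟨w0, hw0⟩ := mem_Kq hwK
      set o := orb a b c e x y with ho
      -- the third coordinates
      obtain ⟨ws, hws0, hws⟩ : ∃ ws : ℕ → ℚ, ws 0 = w0 ∧
          ∀ n, ws (n + 1) = qQ a b c e (o n 0) (o n 1) * ws n :=
        ⟨fun n => Nat.rec w0 (fun n w => qQ a b c e (o n 0) (o n 1) * w) n, rfl, fun n => rfl⟩
      have hzero : ∀ n, dq * qB a b c e (o n 0) (o n 1) = ws n ^ 3 := by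
        intro n
        induction n with
        | zero =>
          have h1 : (dq : ℝ) * qB (a : ℝ) b c e x y = (w0 : ℝ) ^ 3 := by
            rw [hdq, hw0, hx, hy, ← hval]
            exact hdw
          have h2 : (dq : ℝ) * qB (a : ℝ) b c e x y = ((dq * qB a b c e x y : ℚ) : ℝ) := by
            unfold qB
            push_cast
            ring
          rw [h2] at h1
          rw [hws0]
          exact_mod_cast h1
        | succ n ih =>
          have h1 : o (n + 1) 0 = qT a b c e (o n 0) (o n 1) := rfl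
          have h2 : o (n + 1) 1 = qU a b c e (o n 0) (o n 1) := rfl
          rw [h1, h2, qB_tangent, hws, mul_pow, ← ih]
          ring
      set V : ℕ → E 3 := fun n => cv (ws n : ℝ) ![(o n 0 : ℝ), (o n 1 : ℝ)] with hV
      have hVZ : ∀ n, V n ∈ Z (T3 G d) Kq := by
        intro n
        refine ⟨rt_cv (Kq_mem _) ?_, ?_⟩
        · intro i
          fin_cases i
          · exact Kq_mem _
          · exact Kq_mem _
        · rw [T3_apply]
          simp only [hV, pv_cv, pw_cv]
          rw [hval]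
          simp only [Matrix.cons_val_zero, Matrix.cons_val_one]
          have h1 : ((dq * qB a b c e (o n 0) (o n 1) : ℚ) : ℝ) = ((ws n ^ 3 : ℚ) : ℝ) := by
            rw [hzero n]
          unfold qB at h1 ⊢
          push_cast at h1
          rw [hdq] at h1
          linear_combination h1
      have hcov' : ∀ n, ∃ A : L', ∑ i, ((A : Fin 3 → Kq) i : ℝ) * V n i = 0 := by
        intro n
        obtain ⟨A, hA, hA'⟩ := hcov _ (hVZ n)
        exact ⟨⟨A, hA⟩, hA'⟩
      choose A hA using hcov'
      have : Finite L' := hL'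
      obtain ⟨A0, hA0⟩ := Finite.exists_infinite_fiber A
      rw [Set.infinite_coe_iff] at hA0
      have hAn0 : (A0 : Fin 3 → Kq) ≠ 0 := hL'0 _ A0.2
      set α := (A0 : Fin 3 → Kq) with hα
      have hS : ∀ n ∈ A ⁻¹' {A0}, (α 0 : ℝ) * ws n + (α 1 : ℝ) * o n 0 + (α 2 : ℝ) * o n 1 = 0 := by
        intro n hn
        have h1 := hA n
        have h2 : A n = A0 := hn
        rw [h2, Fin.sum_univ_three] at h1
        exact h1
      -- nonproportional
      have hnp : ∀ m n, m ≠ n → o m 0 * o n 1 ≠ o m 1 * o n 0 := by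
        intro m n hmn
        rcases lt_or_gt_of_ne hmn with h | h
        · exact hinf m n h
        · intro h1
          exact hinf n m h (by linear_combination -h1)
      have hα0 : (α 0 : ℝ) ≠ 0 := by
        intro h0
        obtain ⟨m, hm⟩ := hA0.nonempty
        obtain ⟨n, hn, hnm⟩ := hA0.exists_gt m
        have h1 := hS m hm
        have h2 := hS n hn
        rw [h0] at h1 h2
        have h3 : (o m 0 : ℝ) * o n 1 - (o m 1 : ℝ) * o n 0 ≠ 0 := by
          have := hnp m n (by omega)
          intro h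
          apply this
          have h4 : ((o m 0 * o n 1 - o m 1 * o n 0 : ℚ) : ℝ) = 0 := by
            push_cast
            exact h
          have h5 : o m 0 * o n 1 - o m 1 * o n 0 = 0 := by exact_mod_cast h4
          linarith
        have h4 : (α 1 : ℝ) * ((o m 0 : ℝ) * o n 1 - (o m 1 : ℝ) * o n 0) = 0 := by
          linear_combination (o n 1 : ℝ) * h1 - (o m 1 : ℝ) * h2
        have h5 : (α 2 : ℝ) * ((o m 0 : ℝ) * o n 1 - (o m 1 : ℝ) * o n 0) = 0 := by
          linear_combination (o m 0 : ℝ) * h2 - (o n 0 : ℝ) * h1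
        have h6 := (mul_eq_zero.1 h4).resolve_right h3
        have h7 := (mul_eq_zero.1 h5).resolve_right h3
        apply hAn0
        funext i
        apply Subtype.ext
        fin_cases i
        · exact h0
        · exact h6
        · exact h7
      -- the cubic polynomial
      set l0 : ℝ := -(α 1 : ℝ) / α 0 with hl0
      set l1 : ℝ := -(α 2 : ℝ) / α 0 with hl1
      set p : Polynomial ℝ := Polynomial.C (d * a - l0 ^ 3) * Polynomial.X ^ 3 +
        Polynomial.C (d * b - 3 * l0 ^ 2 * l1) * Polynomial.X ^ 2 +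
        Polynomial.C (d * c - 3 * l0 * l1 ^ 2) * Polynomial.X + Polynomial.C (d * e - l1 ^ 3) with hp
      have hroot : ∀ n ∈ A ⁻¹' {A0}, o n 1 ≠ 0 → p.eval ((o n 0 : ℝ) / o n 1) = 0 := by
        intro n hn hn1
        have h1 := hS n hn
        have hn1' : (o n 1 : ℝ) ≠ 0 := by exact_mod_cast hn1
        have h2 : (ws n : ℝ) = l0 * o n 0 + l1 * o n 1 := by
          rw [hl0, hl1]
          field_simp
          linear_combination h1
        have h3 : d * qB (a : ℝ) b c e (o n 0) (o n 1) = (ws n : ℝ) ^ 3 := by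
          have h1 : ((dq * qB a b c e (o n 0) (o n 1) : ℚ) : ℝ) = ((ws n ^ 3 : ℚ) : ℝ) := by
            rw [hzero n]
          unfold qB at h1 ⊢
          push_cast at h1
          rw [hdq] at h1
          linear_combination h1
        rw [h2] at h3
        have h4 : p.eval ((o n 0 : ℝ) / o n 1) * (o n 1 : ℝ) ^ 3 = 0 := by
          simp only [hp, Polynomial.eval_add, Polynomial.eval_mul, Polynomial.eval_C,
            Polynomial.eval_pow, Polynomial.eval_X]
          unfold qB at h3
          field_simp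
          linear_combination h3
        exact (mul_eq_zero.1 h4).resolve_right (pow_ne_zero 3 hn1')
      have hp0 : p = 0 := by
        apply Polynomial.eq_of_infinite_eval_eq
        have hinj : Set.InjOn (fun n => (o n 0 : ℝ) / o n 1) (A ⁻¹' {A0} \ {n | o n 1 = 0}) := by
          rintro m ⟨hm, hm1⟩ n ⟨hn, hn1⟩ h
          by_contra hmn
          have hm1' : (o m 1 : ℝ) ≠ 0 := by exact_mod_cast hm1
          have hn1' : (o n 1 : ℝ) ≠ 0 := by exact_mod_cast hn1
          simp only at h
          field_simp at h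
          apply hnp m n hmn
          have h4 : ((o m 0 * o n 1 : ℚ) : ℝ) = ((o m 1 * o n 0 : ℚ) : ℝ) := by
            push_cast
            linear_combination h
          exact_mod_cast h4
        have hfin : ({n | o n 1 = 0} : Set ℕ).Finite := by
          refine Set.Subsingleton.finite ?_
          intro m hm n hn
          by_contra hmn
          apply hnp m n hmn
          have h1 : o m 1 = 0 := hm
          have h2 : o n 1 = 0 := hn
          rw [h1, h2]
          ring
        refine Set.Infinite.mono ?_ ((hA0.sdiff hfin).image hinj)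
        rintro _ ⟨n, ⟨hn, hn1⟩, rfl⟩
        show p.eval _ = Polynomial.eval _ 0
        rw [hroot n hn hn1, Polynomial.eval_zero]
      have hcf : ∀ k, p.coeff k = 0 := fun k => by rw [hp0, Polynomial.coeff_zero]
      have k0 := hcf 0
      have k1 := hcf 1
      have k2 := hcf 2
      have k3 := hcf 3
      simp only [hp, Polynomial.coeff_add, Polynomial.coeff_C_mul, Polynomial.coeff_X_pow,
        Polynomial.coeff_X, Polynomial.coeff_C] at k0 k1 k2 k3
      norm_num at k0 k1 k2 k3
      apply hnc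
      refine ⟨d⁻¹, Kq.inv_mem hdK, ![-(α 1) / α 0, -(α 2) / α 0], fun v hv => ?_⟩
      have hdv : dt (![-(α 1) / α 0, -(α 2) / α 0] : Fin 2 → Kq) v = l0 * v 0 + l1 * v 1 := by
        rw [dt_apply, Fin.sum_univ_two]
        simp only [Matrix.cons_val_zero, Matrix.cons_val_one]
        rw [hl0, hl1]
        push_cast
        rfl
      rw [hdv, hval]
      field_simp
      unfold qB
      linear_combination (v 0) ^ 3 * k3 + (v 0) ^ 2 * v 1 * k2 + v 0 * (v 1) ^ 2 * k1 +
        (v 1) ^ 3 * k0

end two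

end Pool.Agent.NH8.C
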