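import Pool.Agent.NH8.CI

/-!
# Cubic forms: finite unions of pieces for the exponent three
-/

set_option autoImplicit false
set_option linter.unusedSectionVars false
set_option linter.unusedVariables false
set_option linter.unusedSimpArgs false

open Set Filter Topology Pool.Agent.H581R2 Pool.Agent.TH729.SQ Pool.Agent.TH729.CC

namespace Pool.Agent.NH8.C

variable {K : Subfield ℝ} {N : ℕ}

/-- cubes of functionals -/
def Cube (K : Subfield ℝ) (G : Tri N) : Prop :=
  ∃ c ∈ K, ∃ a : Fin N → K, ∀ v, Rt K v → G.f v v v = c * dt a v ^ 3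

/-- the nonzero values -/
def NZ (K : Subfield ℝ) (φ : E N → ℝ) : Set (E N) := {v | Rt K v ∧ φ v ≠ 0}

lemma NZ3_cone (G : Tri N) : Cn K (NZ K (fun v => G.f v v v)) := by
  rintro z ⟨hz, hz0⟩ t ht ht0
  refine ⟨hz.smul ht, ?_⟩
  simp only [map_smul, LinearMap.smul_apply, smul_eq_mul]
  exact mul_ne_zero ht0 (mul_ne_zero ht0 (mul_ne_zero ht0 hz0))

/-- the multiples of powers of one functional -/
lemma FP_cube (hK : KA K) {m : ℕ} {φ : E N → ℝ} {c : ℝ} (hc : c ∈ K) (a : Fin N → K)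
    (h : ∀ v, Rt K v → φ v = c * dt a v ^ m) :
    FP K m φ {v | Rt K v ∧ dt a v ≠ 0} {x | dt a x ≠ 0} where
  rt := fun z hz => hz.1
  sa := SAP.not (SAP.eq_zeroA (dt_PA hK a fun i => PA.coord i))
  sub := fun z hz => hz.2
  move := by
    intro x hx
    refine ⟨1, one_pos, ?_⟩
    rintro z ⟨hz, hz0⟩ - y hy - ε hε
    have hop : IsOpen {u : E N | dt a u ≠ 0} := isOpen_ne_fun (dt_cont a) continuous_const
    obtain ⟨z', ⟨hz'0, hz'd⟩, hz'⟩ := exists_rt (K := K) (hop.inter (Metric.isOpen_ball (x := y)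
      (ε := ε))) ⟨y, hy, Metric.mem_ball_self hε⟩
    refine ⟨z', ⟨hz', hz'0⟩, hz'd, dt a z' / dt a z, K.div_mem (dt_mem a hz') (dt_mem a hz),
      div_ne_zero hz'0 hz0, ?_⟩
    rw [h z' hz', h z hz, div_pow]
    field_simp

lemma HB_cube (hK : KA K) {G : Tri N} (h : Cube K G) :
    HB K 3 (fun v => G.f v v v) (NZ K (fun v => G.f v v v)) := by
  obtain ⟨c, hc, a, h⟩ := h
  by_cases hc0 : c = 0
  · refine HB.empty.congr ?_
    ext v
    simp only [NZ, mem_empty_iff_false, mem_setOf_eq, false_iff, not_and, not_not]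
    intro hv
    rw [h v hv, hc0, zero_mul]
  · refine (HB.of_piece (FP_cube hK hc a h) ?_).congr ?_
    · rintro z ⟨hz, hz0⟩ t ht ht0
      exact ⟨hz.smul ht, by rw [map_smul]; exact mul_ne_zero ht0 hz0⟩
    · ext v
      simp only [NZ, mem_setOf_eq]
      refine and_congr_right fun hv => ?_
      rw [h v hv]
      constructor
      · intro h1
        exact mul_ne_zero hc0 (pow_ne_zero 3 h1)
      · intro h1 h2
        apply h1
        rw [h2]
        ring

/-- the form depends on one functional -/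
lemma cube_of_one {G : Tri N} (hG : Rat3 G K) {b : Fin N → K}
    (h : ∀ y, Rt K y → dt b y = 0 → ∀ u u', G.f y u u' = 0) : Cube K G := by
  by_cases hq : ∃ q, Rt K q ∧ dt b q ≠ 0
  · obtain ⟨q, hq, hq0⟩ := hq
    refine ⟨G.f q q q / dt b q ^ 3, K.div_mem (hG _ _ _ hq hq hq) (K.pow_mem (dt_mem b hq) 3), b,
      fun v hv => ?_⟩
    set t := dt b v / dt b q with ht
    set y := v - t • q with hy
    have hyr : Rt K y := hv.sub (hq.smul (K.div_mem (dt_mem b hv) (dt_mem b hq)))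
    have hby : dt b y = 0 := by
      rw [hy, map_sub, map_smul, smul_eq_mul, ht]
      field_simp
      ring
    have hv' : v = y + t • q := by rw [hy]; simp
    have h1 := h y hyr hby
    have : G.f v v v = t ^ 3 * G.f q q q := by
      conv_lhs => rw [hv']
      clear_value y
      obtain ⟨n1, n2, n3, n4⟩ := G.n2 y q
      simp only [map_add, map_smul, LinearMap.add_apply, LinearMap.smul_apply, smul_eq_mul]
      rw [n1, n2, n3, n4, h1, h1, h1]
      ring
    rw [this, ht]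
    field_simp
  · push Not at hq
    refine ⟨0, K.zero_mem, 0, fun v hv => ?_⟩
    rw [h v hv (hq v hv)]
    ring

/-- dual vectors -/
lemma exists_dual {G : Tri N} (hG : Rat3 G K) {a b : Fin N → K}
    (h : ∀ y, Rt K y → dt a y = 0 → dt b y = 0 → ∀ u u', G.f y u u' = 0) (hnc : ¬ Cube K G) :
    ∃ p, Rt K p ∧ dt a p = 1 ∧ dt b p = 0 := by
  by_contra hcon
  push Not at hcon
  apply hnc
  refine cube_of_one hG (b := b) fun y hy hby => h y hy ?_ hby
  by_contra ha
  apply hcon ((dt a y)⁻¹ • y) (hy.smul (K.inv_mem (dt_mem a hy)))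
  · rw [map_smul, smul_eq_mul, inv_mul_cancel₀ ha]
  · rw [map_smul, hby, smul_zero]

/-- the map given by two functionals -/
noncomputable def mu2 (l₁ l₂ : E N →ₗ[ℝ] ℝ) : E N →ₗ[ℝ] E 2 where
  toFun v := ![l₁ v, l₂ v]
  map_add' v w := by
    funext i
    fin_cases i <;> simp
  map_smul' c v := by
    funext i
    fin_cases i <;> simp

/-- the section -/
noncomputable def sg2 (p q : E N) : E 2 →ₗ[ℝ] E N where
  toFun s := s 0 • p + s 1 • q
  map_add' s t := by
    simp only [Pi.add_apply, add_smul]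
    abel
  map_smul' c s := by
    simp only [Pi.smul_apply, smul_eq_mul, RingHom.id_apply, smul_add, smul_smul]

/-- **pulling back along a surjection onto the plane** -/
theorem HB.pull {m : ℕ} {φ : E N → ℝ} {φ₀ : E 2 → ℝ} {l₁ l₂ : E N →ₗ[ℝ] ℝ} (hl₁ : RL K l₁)
    (hl₂ : RL K l₂) (hK : KA K) {p q : E N} (hp : Rt K p) (hq : Rt K q) (h11 : l₁ p = 1) (h12 : l₁ q = 0)
    (h21 : l₂ p = 0) (h22 : l₂ q = 1) (h : ∀ v, Rt K v → φ v = φ₀ (mu2 l₁ l₂ v))
    (hB : HB K m φ₀ (NZ K φ₀)) : HB K m φ (NZ K φ) := by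
  obtain ⟨k, P, O, h1, h2⟩ := hB
  have hμr : ∀ v, Rt K v → Rt K (mu2 l₁ l₂ v) := by
    intro v hv i
    fin_cases i
    · exact hl₁ v hv
    · exact hl₂ v hv
  have hμσ : ∀ s : E 2, mu2 l₁ l₂ (sg2 p q s) = s := by
    intro s
    funext i
    fin_cases i
    · change l₁ (s 0 • p + s 1 • q) = s 0
      rw [map_add, map_smul, map_smul, h11, h12]
      simp
    · change l₂ (s 0 • p + s 1 • q) = s 1
      rw [map_add, map_smul, map_smul, h21, h22]
      simp
  have hσr : ∀ s : E 2, Rt K s → Rt K (sg2 p q s) := by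
    intro s hs
    exact (hp.smul (hs 0)).add (hq.smul (hs 1))
  have hcμ : Continuous (mu2 l₁ l₂) := LinearMap.continuous_of_finiteDimensional _
  have hcσ : Continuous (sg2 p q) := LinearMap.continuous_of_finiteDimensional _
  obtain ⟨a₁, ha₁⟩ := exists_dt l₁ hl₁
  obtain ⟨a₂, ha₂⟩ := exists_dt l₂ hl₂
  refine ⟨k, fun i => {z | Rt K z ∧ z ∈ (univ : Set (E N)) ∧ mu2 l₁ l₂ z ∈ P i},
    fun i => {x | x ∈ (univ : Set (E N)) ∧ mu2 l₁ l₂ x ∈ O i}, fun z => ?_, fun i => ⟨?_, ?_⟩⟩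
  · constructor
    · rintro ⟨hz, hz0⟩
      rw [h z hz] at hz0
      obtain ⟨i, hi⟩ := (h1 _).1 ⟨hμr z hz, hz0⟩
      exact ⟨i, hz, mem_univ _, hi⟩
    · rintro ⟨i, hz, -, hi⟩
      refine ⟨hz, ?_⟩
      rw [h z hz]
      exact ((h1 _).2 ⟨i, hi⟩).2
  · refine FP.lift (h2 i).1 (g := fun _ => 1) ?_ ?_ ?_ ?_
    · intro z _ hz
      refine ⟨hμr z hz, K.one_mem, one_ne_zero, ?_⟩
      rw [h z hz]
      simp
    · refine SAP.and (SAP.const True |>.congr fun v => by simp) ?_
      refine SAP.preimageA (p := fun v => v ∈ O i) (h2 i).1.sa (φ := fun v => mu2 l₁ l₂ v)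
        fun j => ?_
      fin_cases j
      · change PA (fun v => l₁ v)
        have := dt_PA (n := N) (K := K) hK a₁ (f := fun v : E N => v) (fun i => PA.coord i)
        simpa only [ha₁] using this
      · change PA (fun v => l₂ v)
        have := dt_PA (n := N) (K := K) hK a₂ (f := fun v : E N => v) (fun i => PA.coord i)
        simpa only [ha₂] using this
    · intro x _
      exact hcμ.continuousAt
    · intro y _ ε hε
      -- continuity of `(t, y') ↦ y' + σ (t - μ y')`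
      have hc : Continuous fun w : E 2 × E N => w.2 + sg2 p q (w.1 - mu2 l₁ l₂ w.2) :=
        continuous_snd.add (hcσ.comp (continuous_fst.sub (hcμ.comp continuous_snd)))
      obtain ⟨δ, hδ, hδ'⟩ := Metric.continuousAt_iff.1
        (hc.continuousAt (x := (mu2 l₁ l₂ y, y))) ε hε
      refine ⟨δ, hδ, fun t ht htd => ?_⟩
      obtain ⟨y', hy'd, hy'⟩ := exists_rt (K := K) (Metric.isOpen_ball (x := y) (ε := δ))
        ⟨y, Metric.mem_ball_self hδ⟩
      refine ⟨y' + sg2 p q (t - mu2 l₁ l₂ y'), hy'.add (hσr _ (ht.sub (hμr _ hy'))), mem_univ _,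
        ?_, ?_⟩
      · rw [map_add, hμσ]
        abel
      · have := hδ' (x := (t, y')) (by
          rw [Prod.dist_eq]
          exact max_lt htd hy'd)
        simpa using this
  · rintro z ⟨hz, -, hzP⟩ t ht ht0
    refine ⟨hz.smul ht, mem_univ _, ?_⟩
    rw [map_smul]
    exact (h2 i).2 _ hzP t ht ht0

/-- hyperplane sections -/
lemma HB_hyper (hK : KA K) {m : ℕ} {φ : E (N + 1) → ℝ} {a : Fin (N + 1) → K} (ha : a ≠ 0)
    (h : ∀ j, a j ≠ 0 → HB K m (fun u => φ (par a j u)) (NZ K (fun u => φ (par a j u)))) :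
    HB K m φ {v | Rt K v ∧ dt a v = 0 ∧ φ v ≠ 0} := by
  obtain ⟨j, hj⟩ := Function.ne_iff.1 ha
  refine (HB.push hK (j := j) hj (h j hj)).congr ?_
  ext v
  simp only [NZ, mem_setOf_eq]
  constructor
  · rintro ⟨hv, hav, -, h3⟩
    rw [par_res hj hav] at h3
    exact ⟨hv, hav, h3⟩
  · rintro ⟨hv, hav, h3⟩
    refine ⟨hv, hav, fun i => hv _, ?_⟩
    rw [par_res hj hav]
    exact h3

/-- from the cover to the finite union -/
lemma HB_cover {m : ℕ} {φ : E N → ℝ} {P : Set (E N)} (hP : HB K m φ P) (hPN : P ⊆ NZ K φ)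
    {L : Set (Fin N → K)} (hL : L.Finite) (hcov : ∀ v ∈ NZ K φ, (∃ a ∈ L, dt a v = 0) ∨ v ∈ P)
    (h : ∀ a ∈ L, HB K m φ {v | Rt K v ∧ dt a v = 0 ∧ φ v ≠ 0}) : HB K m φ (NZ K φ) := by
  refine (hP.union (HB.biUnion hL h)).congr ?_
  ext v
  constructor
  · rintro (hv | hv)
    · exact hPN hv
    · rw [Set.mem_iUnion₂] at hv
      obtain ⟨a, -, h1, -, h3⟩ := hv
      exact ⟨h1, h3⟩
  · intro hv
    rcases hcov v hv with ⟨a, ha, hav⟩ | hvP
    · right
      rw [Set.mem_iUnion₂]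
      exact ⟨a, ha, hv.1, hav, hv.2⟩
    · exact Or.inl hvP

lemma P3_sub {G : Tri N} : P3 K G ⊆ NZ K (fun v => G.f v v v) := by
  rintro z ⟨hz, d, -, -, w, -, hw, h, -⟩
  refine ⟨hz, fun h0 => ?_⟩
  have h0' : G.f z z z = 0 := h0
  rw [h0', mul_zero] at h
  exact pow_ne_zero 3 hw h.symm

/-- the forms in one variable -/
lemma cube_one {G : Tri 1} (hG : Rat3 G K) : Cube K G := by
  refine ⟨G.f (fun _ => 1) (fun _ => 1) (fun _ => 1), hG _ _ _ (fun _ => K.one_mem)
    (fun _ => K.one_mem) (fun _ => K.one_mem), fun _ => 1, fun v hv => ?_⟩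
  have h1 : v = v 0 • (fun _ => (1 : ℝ)) := by
    funext i
    rw [Subsingleton.elim i 0]
    simp
  have h2 : dt (fun _ => (1 : K)) v = v 0 := by
    rw [dt_apply, Fin.sum_univ_one]
    simp
  rw [h2]
  conv_lhs => rw [h1]
  simp only [map_smul, LinearMap.smul_apply, smul_eq_mul]
  ring

lemma NH3_of {G : Tri N} (hnc : ¬ Cube K G) {d : ℝ} (hd : d ∈ K) (hd0 : d ≠ 0) :
    NH (T3 G d) K := by
  by_contra h
  obtain ⟨l, hl⟩ := NH3 h
  exact hnc ⟨d⁻¹, K.inv_mem hd, l, fun v hv => by rw [← hl v hv]; field_simp⟩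

lemma par_rat {G : Tri (N + 1)} (hG : Rat3 G K) (a : Fin (N + 1) → K) (j : Fin (N + 1)) :
    Rat3 (G.comap (par a j)) K :=
  fun _ _ _ hu hv hw => hG _ _ _ (par_rt hu) (par_rt hv) (par_rt hw)

/-- **binary forms** -/
theorem HB3_two {G : Tri 2} (hG : Rat3 G Kq) :
    HB Kq 3 (fun v => G.f v v v) (NZ Kq (fun v => G.f v v v)) := by
  by_cases hnc : Cube Kq G
  · exact HB_cube KA_q hnc
  obtain ⟨L, hL, hL0, hcov⟩ := bin3 hG hnc
  refine HB_cover (HB.of_piece (FP3 KA_q hG fun d hd hd0 => NH3_of hnc hd hd0) P3_cone) P3_sub hL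
    ?_ ?_
  · rintro v ⟨hv, hv0⟩
    rcases hcov v hv hv0 with h | h
    · exact Or.inl h
    · right
      have hv0' : G.f v v v ≠ 0 := hv0
      have hdK : (G.f v v v)⁻¹ ∈ Kq := Kq.inv_mem (hG _ _ _ hv hv hv)
      refine ⟨hv, (G.f v v v)⁻¹, hdK, inv_ne_zero hv0, 1, Kq.one_mem, one_ne_zero, ?_, ?_⟩
      · rw [inv_mul_cancel₀ hv0']; ring
      · exact h _ hdK (inv_ne_zero hv0) 1 Kq.one_mem one_ne_zero (by
          rw [inv_mul_cancel₀ hv0']; ring)
  · intro a ha
    refine HB_hyper KA_q (hL0 a ha) fun j hj => ?_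
    exact HB_cube KA_q (cube_one (par_rat hG a j))

/-- **cubic forms** -/
theorem HB3 : ∀ (N : ℕ) (G : Tri N), Rat3 G Kq →
    HB Kq 3 (fun v => G.f v v v) (NZ Kq (fun v => G.f v v v)) := by
  intro N
  induction N with
  | zero =>
    intro G hG
    refine HB.empty.congr ?_
    ext v
    simp only [NZ, mem_empty_iff_false, mem_setOf_eq, false_iff, not_and, not_not]
    intro hv
    have h0 : v = 0 := Subsingleton.elim _ _
    rw [h0, map_zero]
  | succ N ih =>
    intro G hG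
    by_cases hnc : Cube Kq G
    · exact HB_cube KA_q hnc
    by_cases hlow : Low Kq G
    · obtain ⟨a, b, hab⟩ := hlow
      obtain ⟨p, hp, hp1, hp2⟩ := exists_dual hG hab hnc
      obtain ⟨q, hq, hq1, hq2⟩ := exists_dual hG (a := b) (b := a)
        (fun y hy h1 h2 => hab y hy h2 h1) hnc
      refine HB.pull (l₁ := dt a) (l₂ := dt b) (fun v hv => dt_mem a hv) (fun v hv => dt_mem b hv)
        KA_q hp hq hp1 hq2 hp2 hq1 (φ₀ := fun s => (G.comap (sg2 p q)).f s s s) (fun v hv => ?_)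
        (HB3_two fun x y z hx hy hz => hG _ _ _ ((hp.smul (hx 0)).add (hq.smul (hx 1)))
          ((hp.smul (hy 0)).add (hq.smul (hy 1))) ((hp.smul (hz 0)).add (hq.smul (hz 1))))
      set s := mu2 (dt a) (dt b) v with hs
      set v' := sg2 p q s with hv'
      have hv'd : v' = dt a v • p + dt b v • q := rfl
      set y := v - v' with hy
      have hyr : Rt Kq y := hv.sub ((hp.smul (dt_mem a hv)).add (hq.smul (dt_mem b hv)))
      have h1 : dt a y = 0 := by
        rw [hy, hv'd, map_sub, map_add, map_smul, map_smul, hp1, hq2]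
        simp
      have h2 : dt b y = 0 := by
        rw [hy, hv'd, map_sub, map_add, map_smul, map_smul, hp2, hq1]
        simp
      have h3 := hab y hyr h1 h2
      have hv2 : v = y + v' := by rw [hy]; simp
      change G.f v v v = G.f v' v' v'
      conv_lhs => rw [hv2]
      clear_value y v'
      obtain ⟨n1, n2, n3, n4⟩ := G.n2 y v'
      simp only [map_add, LinearMap.add_apply]
      rw [n1, n2, n3, n4, h3, h3, h3]
      ring
    · obtain ⟨L, hL, hL0, hcov⟩ := cover3 hG hnc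
      refine HB_cover (HB.of_piece (FP3 KA_q hG fun d hd hd0 => NH3_of hnc hd hd0) P3_cone) P3_sub
        hL ?_ ?_
      · rintro v ⟨hv, hv0⟩
        have hv0' : G.f v v v ≠ 0 := hv0
        have hdK : (G.f v v v)⁻¹ ∈ Kq := Kq.inv_mem (hG _ _ _ hv hv hv)
        have hdw : (G.f v v v)⁻¹ * G.f v v v = 1 ^ 3 := by rw [inv_mul_cancel₀ hv0']; ring
        by_cases hI : ∃ R, Int' (T3 G (G.f v v v)⁻¹) Kq R
        · right
          exact ⟨hv, _, hdK, inv_ne_zero hv0, 1, Kq.one_mem, one_ne_zero, hdw, hI⟩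
        · left
          apply hcov
          exact special3 hG hlow hdK (inv_ne_zero hv0) ⟨T3_rat hG hdK, fun R hR => hI ⟨R, hR⟩⟩ hv
            Kq.one_mem one_ne_zero hdw
      · intro a ha
        refine HB_hyper KA_q (hL0 a ha) fun j hj => ?_
        exact ih (G.comap (par a j)) (par_rat hG a j)

end Pool.Agent.NH8.C
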