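import Pool.Agent.NH8.KB

/-!
# Polynomials of degree at most four in one variable
-/

set_option autoImplicit false
set_option linter.unusedSectionVars false
set_option linter.unusedVariables false

open Set Filter Topology Pool.Agent.H581R2 Pool.Agent.TH729.SQ Pool.Agent.Y718
  Pool.Agent.Y718.X Pool.Agent.Y720.MZ

namespace Pool.Agent.NH8.K

/-- the coefficients of a shifted polynomial -/
lemma qpol_shift (q₀ q₁ q₂ q₃ q₄ c t : ℚ) :
    Polynomial.C c * (qpol q₀ q₁ q₂ q₃ q₄).comp (Polynomial.C t + Polynomial.X) =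
      qpol (c * (q₀ + q₁ * t + q₂ * t ^ 2 + q₃ * t ^ 3 + q₄ * t ^ 4))
        (c * (q₁ + 2 * q₂ * t + 3 * q₃ * t ^ 2 + 4 * q₄ * t ^ 3))
        (c * (q₂ + 3 * q₃ * t + 6 * q₄ * t ^ 2)) (c * (q₃ + 4 * q₄ * t)) (c * q₄) := by
  simp only [qpol, Polynomial.add_comp, Polynomial.mul_comp, Polynomial.C_comp,
    Polynomial.X_comp, Polynomial.pow_comp, map_mul, map_add, map_pow, map_ofNat]
  ring

/-- infinite order off a finite set, on all twists -/
theorem inf_off {q₀ q₁ q₂ q₃ q₄ : ℚ} (hs : (qpol q₀ q₁ q₂ q₃ q₄).Separable)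
    (hd : 3 ≤ (qpol q₀ q₁ q₂ q₃ q₄).natDegree) : ∃ T : Set ℚ, T.Finite ∧ ∀ t₀ ∉ T,
      (qpol q₀ q₁ q₂ q₃ q₄).eval t₀ ≠ 0 ∧ ∀ (c w : ℚ), w ≠ 0 →
        w ^ 2 = c * (qpol q₀ q₁ q₂ q₃ q₄).eval t₀ →
        Inf (Polynomial.C c * (qpol q₀ q₁ q₂ q₃ q₄).comp (Polynomial.C t₀ + Polynomial.X)) := by
  have hdc := dc_ne_zero hs hd
  obtain ⟨Ξ, hΞ, htors⟩ := torsion_finite (K := ℚ) (a := q₂) (b := q₁ * q₃ - 4 * q₀ * q₄)
    (c := q₁ ^ 2 * q₄ + q₀ * q₃ ^ 2 - 4 * q₀ * q₂ * q₄) hdc
  set P := qpol q₀ q₁ q₂ q₃ q₄ with hP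
  have hPe : ∀ t, P.eval t = q₀ + q₁ * t + q₂ * t ^ 2 + q₃ * t ^ 3 + q₄ * t ^ 4 :=
    eval_qpol q₀ q₁ q₂ q₃ q₄
  have hP0 : P ≠ 0 := by
    intro h
    rw [h, Polynomial.natDegree_zero] at hd
    omega
  have hP1 : ∀ t, (Polynomial.derivative P).eval t =
      q₁ + 2 * q₂ * t + 3 * q₃ * t ^ 2 + 4 * q₄ * t ^ 3 := by
    intro t
    simp only [hP, qpol, Polynomial.derivative_add, Polynomial.derivative_C_mul,
      Polynomial.derivative_C, Polynomial.derivative_X, Polynomial.derivative_X_pow,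
      Polynomial.eval_add, Polynomial.eval_mul, Polynomial.eval_C, Polynomial.eval_pow,
      Polynomial.eval_X, Polynomial.eval_one, Polynomial.eval_zero]
    push_cast
    ring
  -- the exceptional set
  set M : ℚ → Polynomial ℚ := fun ξ => Polynomial.C (q₂ + ξ) + Polynomial.C (2 * q₃) *
    Polynomial.X + Polynomial.C (4 * q₄) * Polynomial.X ^ 2 with hM
  have hMe : ∀ ξ t, (M ξ).eval t = (q₂ + 3 * q₃ * t + 6 * q₄ * t ^ 2) -
      (q₃ * t + 2 * q₄ * t ^ 2) + ξ := by
    intro ξ t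
    simp only [hM, Polynomial.eval_add, Polynomial.eval_mul, Polynomial.eval_C,
      Polynomial.eval_X, Polynomial.eval_pow]
    ring
  have hfin : ∀ ξ : ℚ, {t : ℚ | (Polynomial.derivative P).eval t ^ 2 =
      4 * P.eval t * (M ξ).eval t}.Finite := by
    intro ξ
    by_contra hinf
    have e : Polynomial.derivative P ^ 2 = Polynomial.C 4 * P * M ξ := by
      apply Polynomial.eq_of_infinite_eval_eq
      refine Set.Infinite.mono ?_ hinf
      intro t ht
      change (Polynomial.derivative P ^ 2).eval t = (Polynomial.C 4 * P * M ξ).eval t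
      rw [Polynomial.eval_pow, Polynomial.eval_mul, Polynomial.eval_mul, Polynomial.eval_C]
      exact ht
    have h1 : P ∣ Polynomial.derivative P ^ 2 := ⟨Polynomial.C 4 * M ξ, by rw [e]; ring⟩
    have h2 : IsCoprime P (Polynomial.derivative P) := hs
    have h3 : IsCoprime P (Polynomial.derivative P ^ 2) := h2.pow_right
    have h4 : IsUnit P := h3.isUnit_of_dvd' dvd_rfl h1
    have h5 := Polynomial.natDegree_eq_zero_of_isUnit h4
    omega
  refine ⟨{t | P.eval t = 0} ∪ ⋃ ξ ∈ Ξ, {t : ℚ | (Polynomial.derivative P).eval t ^ 2 =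
    4 * P.eval t * (M ξ).eval t}, ?_, ?_⟩
  · refine Set.Finite.union ?_ (hΞ.biUnion fun ξ _ => hfin ξ)
    exact (P.roots.toFinset.finite_toSet).subset fun t ht => by
      rw [Finset.mem_coe, Multiset.mem_toFinset, Polynomial.mem_roots hP0]
      exact ht
  intro t₀ ht₀
  rw [Set.mem_union, not_or, Set.mem_iUnion₂] at ht₀
  obtain ⟨ht1, ht2⟩ := ht₀
  have hq0 : P.eval t₀ ≠ 0 := ht1
  refine ⟨hq0, ?_⟩
  intro C' w hw hwC
  have hC' : C' ≠ 0 := by
    rintro rfl
    rw [zero_mul] at hwC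
    exact hw (pow_eq_zero_iff two_ne_zero |>.1 hwC)
  rw [hP, qpol_shift]
  set a0 := q₀ + q₁ * t₀ + q₂ * t₀ ^ 2 + q₃ * t₀ ^ 3 + q₄ * t₀ ^ 4 with ha0
  set a1 := q₁ + 2 * q₂ * t₀ + 3 * q₃ * t₀ ^ 2 + 4 * q₄ * t₀ ^ 3 with ha1
  set a2 := q₂ + 3 * q₃ * t₀ + 6 * q₄ * t₀ ^ 2 with ha2
  set a3 := q₃ + 4 * q₄ * t₀ with ha3
  have hPa : P.eval t₀ = a0 := hPe t₀
  rw [hPa] at hwC hq0
  obtain ⟨c0, c1, c2, c3, c4⟩ := qpol_coeff (C' * a0) (C' * a1) (C' * a2) (C' * a3) (C' * q₄)
  refine ⟨?_, w, hw, by rw [c0]; exact hwC, ?_⟩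
  · have h1 : Db (qpol (C' * a0) (C' * a1) (C' * a2) (C' * a3) (C' * q₄)) =
        dc (C' * a0) (C' * a1) (C' * a2) (C' * a3) (C' * q₄) := by
      rw [Db, X.Ab, Bb, Cb, dc, c0, c1, c2, c3, c4]
    rw [h1, dc_smul]
    have h2 := dc_shift t₀ q₀ q₁ q₂ q₃ q₄
    have h3 : dc a0 a1 a2 a3 q₄ = dc q₀ q₁ q₂ q₃ q₄ := by
      rw [← h2]
      congr 1 <;> simp only [ha0, ha1, ha2, ha3] <;> ring
    rw [h3]
    exact mul_ne_zero (pow_ne_zero 6 hC') hdc
  · intro h n hn
    refine htors C' hC' (q₃ * t₀ + 2 * q₄ * t₀ ^ 2) _ _ _ ?_ ?_ ?_ _ _ h ?_ n hn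
    · rw [X.Ab, c2, ha2]; ring
    · rw [Bb, c0, c1, c3, c4, ← shift_b, ha0, ha1, ha3]
      ring
    · rw [Cb, c0, c1, c2, c3, c4, ← shift_c, ha0, ha1, ha2, ha3]
      ring
    · intro hmem
      apply ht2
      refine ⟨_, hmem, ?_⟩
      change (Polynomial.derivative P).eval t₀ ^ 2 = 4 * P.eval t₀ * (M _).eval t₀
      rw [hMe, hP1, hPa, xs, hwC, c1, c2, ← ha1, ← ha2]
      field_simp
      ring

/-- the square part -/
lemma sq_part : ∀ (d : ℕ) (P : Polynomial ℚ), P.natDegree ≤ d → P ≠ 0 →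
    ∃ g h : Polynomial ℚ, P = g ^ 2 * h ∧ Squarefree h := by
  intro d
  induction d with
  | zero =>
    intro P hd hP
    refine ⟨1, P, by ring, ?_⟩
    have h1 : P.natDegree = 0 := by omega
    have h2 : IsUnit P := by
      rw [Polynomial.isUnit_iff_degree_eq_zero]
      rw [Polynomial.degree_eq_natDegree hP, h1]
      rfl
    exact h2.squarefree
  | succ d ih =>
    intro P hd hP
    by_cases hs : Squarefree P
    · exact ⟨1, P, by ring, hs⟩
    · unfold Squarefree at hs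
      push Not at hs
      obtain ⟨x, ⟨P', hx⟩, hxu⟩ := hs
      have hx0 : x ≠ 0 := by
        rintro rfl
        apply hP
        rw [hx]; ring
      have hP' : P' ≠ 0 := by
        rintro rfl
        apply hP
        rw [hx]; ring
      have hxd : 1 ≤ x.natDegree := by
        by_contra hlt
        apply hxu
        rw [Polynomial.isUnit_iff_degree_eq_zero, Polynomial.degree_eq_natDegree hx0]
        have : x.natDegree = 0 := by omega
        rw [this]
        rfl
      have hnd : P.natDegree = x.natDegree + x.natDegree + P'.natDegree := by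
        rw [hx, Polynomial.natDegree_mul (mul_ne_zero hx0 hx0) hP', Polynomial.natDegree_mul hx0 hx0]
      obtain ⟨g, h, hgh, hsq⟩ := ih P' (by omega) hP'
      exact ⟨x * g, h, by rw [hx, hgh]; ring, hsq⟩

section uni

variable {n : ℕ}

/-- a polynomial in one of the variables -/
noncomputable def uni (i : Fin n) (h : Polynomial ℚ) : MvPolynomial (Fin n) ℚ :=
  Polynomial.aeval (MvPolynomial.X i : MvPolynomial (Fin n) ℚ) h

lemma uni_eval (i : Fin n) (h : Polynomial ℚ) (z : Fin n → ℚ) :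
    MvPolynomial.eval z (uni i h) = h.eval (z i) := by
  unfold uni
  have := Polynomial.aeval_algHom_apply (MvPolynomial.aeval z : MvPolynomial (Fin n) ℚ →ₐ[ℚ] ℚ)
    (MvPolynomial.X i) h
  rw [← MvPolynomial.aeval_eq_eval, ← this]
  simp [Polynomial.aeval_def, Polynomial.eval₂_eq_eval_map]

lemma uni_vars (i : Fin n) (h : Polynomial ℚ) : (uni i h).vars ⊆ {i} := by
  have h1 : uni i h ∈ MvPolynomial.supported ℚ ({i} : Set (Fin n)) := by
    unfold uni MvPolynomial.supported
    rw [Set.image_singleton]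
    exact Polynomial.aeval_mem_adjoin_singleton _ _
  rw [MvPolynomial.mem_supported] at h1
  intro k hk
  have := h1 (Finset.mem_coe.2 hk)
  rw [Set.mem_singleton_iff] at this
  rw [this]
  exact Finset.mem_singleton_self i

lemma uni_lk (i : Fin n) (h : Polynomial ℚ) (z u : Fin n → ℚ) :
    lk (uni i h) z u = h.comp (Polynomial.C (z i) + Polynomial.C (u i) * Polynomial.X) := by
  unfold lk uni
  have := Polynomial.aeval_algHom_apply (MvPolynomial.aeval (fun k => Polynomial.C (z k) +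
    Polynomial.C (u k) * Polynomial.X) : MvPolynomial (Fin n) ℚ →ₐ[ℚ] Polynomial ℚ)
    (MvPolynomial.X i) h
  rw [← this, MvPolynomial.aeval_X]
  rw [Polynomial.comp, Polynomial.aeval_def]
  rfl

lemma uni_DegLe (i : Fin n) {h : Polynomial ℚ} {d : ℕ} (hd : h.natDegree ≤ d) (c : ℚ)
    (u : Fin n → ℚ) : DegLe (MvPolynomial.C c * uni i h) u d := by
  intro z
  rw [lk_C_mul, uni_lk]
  refine (Polynomial.natDegree_C_mul_le _ _).trans ?_
  rw [Polynomial.natDegree_comp]
  have : (Polynomial.C (z i) + Polynomial.C (u i) * Polynomial.X).natDegree ≤ 1 := by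
    compute_degree
  calc h.natDegree * _ ≤ h.natDegree * 1 := by gcongr
    _ ≤ d := by omega

lemma uni_DegLe0 (i : Fin n) (h : Polynomial ℚ) (c : ℚ) {u : Fin n → ℚ} (hu : u i = 0) :
    DegLe (MvPolynomial.C c * uni i h) u 0 := by
  intro z
  rw [lk_C_mul, uni_lk, hu]
  refine (Polynomial.natDegree_C_mul_le _ _).trans ?_
  rw [Polynomial.natDegree_comp]
  simp

lemma single_indep : LinearIndependent ℚ (fun k : Fin n => (Pi.single k 1 : Fin n → ℚ)) := by
  have := (Pi.basisFun ℚ (Fin n)).linearIndependent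
  refine cast ?_ this
  congr 1
  funext k
  exact Pi.basisFun_apply ℚ (Fin n) k

/-- **all points off a finite set of values of the variable are nondegenerate** -/
theorem uni_NT (i : Fin n) {h : Polynomial ℚ} (hsq : Squarefree h) (hd : h.natDegree ≤ 4) :
    ∃ T : Set ℚ, T.Finite ∧ ∀ z : Fin n → ℚ, z i ∉ T → z ∈ NT (uni i h) := by
  classical
  have hh0 : h ≠ 0 := hsq.ne_zero
  by_cases h2 : h.natDegree ≤ 2
  · refine ⟨{t | h.eval t = 0}, ?_, fun z hz => ?_⟩
    · exact (h.roots.toFinset.finite_toSet).subset fun t ht => by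
        rw [Finset.mem_coe, Multiset.mem_toFinset, Polynomial.mem_roots hh0]
        exact ht
    · have hz0 : h.eval (z i) ≠ 0 := hz
      refine ⟨(h.eval (z i))⁻¹, inv_ne_zero hz0, ⟨1, one_ne_zero, ?_⟩, fun k => Pi.single k 1,
        single_indep, fun k => ⟨uni_DegLe i hd _ _, Or.inl (uni_DegLe i h2 _ _)⟩⟩
      rw [map_mul, MvPolynomial.eval_C, uni_eval, inv_mul_cancel₀ hz0, one_pow]
  · have hq : h = qpol (h.coeff 0) (h.coeff 1) (h.coeff 2) (h.coeff 3) (h.coeff 4) := by
      rw [Polynomial.as_sum_range_C_mul_X_pow' (p := h) (show h.natDegree < 5 by omega)]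
      simp only [Finset.sum_range_succ, Finset.sum_range_zero, zero_add, pow_zero, mul_one,
        pow_one, qpol, Polynomial.coeff_add, Polynomial.coeff_C_mul, Polynomial.coeff_X_pow,
        Polynomial.coeff_C, Polynomial.coeff_X]
      norm_num
    have hs : h.Separable := PerfectField.separable_iff_squarefree.2 hsq
    obtain ⟨T, hT, hT2⟩ := inf_off (q₀ := h.coeff 0) (q₁ := h.coeff 1) (q₂ := h.coeff 2)
      (q₃ := h.coeff 3) (q₄ := h.coeff 4) (by rw [← hq]; exact hs) (by rw [← hq]; omega)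
    rw [← hq] at hT2
    refine ⟨T, hT, fun z hz => ?_⟩
    obtain ⟨hz0, hinf⟩ := hT2 (z i) hz
    refine ⟨(h.eval (z i))⁻¹, inv_ne_zero hz0, ⟨1, one_ne_zero, ?_⟩, fun k => Pi.single k 1,
        single_indep, fun k => ⟨uni_DegLe i hd _ _, ?_⟩⟩
    · rw [map_mul, MvPolynomial.eval_C, uni_eval, inv_mul_cancel₀ hz0, one_pow]
    · by_cases hk : k = i
      · right
        subst hk
        refine ⟨0, fun _ _ => rfl, ?_⟩
        rw [lk_C_mul, uni_lk]
        have e1 : (z + ∑ j, (0 : Fin n → ℚ) j • (fun k => (Pi.single k 1 : Fin n → ℚ)) j) = z := by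
          simp
        have e2 : (fun k => (Pi.single k 1 : Fin n → ℚ)) k k = 1 := Pi.single_eq_same k 1
        rw [e1, e2, map_one, one_mul]
        exact hinf _ 1 one_ne_zero (by rw [inv_mul_cancel₀ hz0, one_pow])
      · left
        intro y
        refine (uni_DegLe0 i h _ (u := (Pi.single k 1 : Fin n → ℚ)) ?_ y).trans (by norm_num)
        exact Pi.single_eq_of_ne (Ne.symm hk) _

/-- **Polynomials in one variable, of the form `g² h` with `h` of degree at most four.** -/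
theorem blk_uni {f : MvPolynomial (Fin n) ℚ} {i : Fin n} (hv : f.vars ⊆ {i})
    (hd : ∃ g h : MvPolynomial (Fin n) ℚ, f = g ^ 2 * h ∧ h.totalDegree ≤ 4) :
    Blk {i} 2 f univ := by
  classical
  obtain ⟨g0, h0, hgh0, hh0d⟩ := hd
  set P : Polynomial ℚ := lk f 0 (Pi.single i 1) with hP
  have hPe : ∀ z : Fin n → ℚ, MvPolynomial.eval z f = P.eval (z i) := by
    intro z
    rw [hP, lk_eval]
    refine eval_congr' fun k hk => ?_
    have hk' := Finset.mem_singleton.1 (hv hk)
    subst hk'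
    simp
  have hPm : P = lk g0 0 (Pi.single i 1) ^ 2 * lk h0 0 (Pi.single i 1) := by
    rw [hP, hgh0]
    unfold lk
    rw [map_mul, map_pow]
  have hPd : (lk h0 0 (Pi.single i 1)).natDegree ≤ 4 :=
    (lk_natDegree h0 0 i).trans ((MvPolynomial.degreeOf_le_totalDegree h0 i).trans hh0d)
  by_cases hP0 : P = 0
  · have hf0 : f = 0 := by
      apply MvPolynomial.funext
      intro z
      rw [hPe, hP0, Polynomial.eval_zero, map_zero]
    exact Blk.of_piece (piece_const 2 (by rw [hf0, MvPolynomial.vars_0]))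
  · have hh1 : lk h0 0 (Pi.single i 1) ≠ 0 := by
      intro h
      apply hP0
      rw [hPm, h, mul_zero]
    obtain ⟨g1, h, hgh1, hsq⟩ := sq_part _ (lk h0 0 (Pi.single i 1)) le_rfl hh1
    have hg10 : g1 ≠ 0 := by
      rintro rfl
      apply hh1
      rw [hgh1]; ring
    set g : Polynomial ℚ := lk g0 0 (Pi.single i 1) * g1 with hg
    have hgh : P = g ^ 2 * h := by
      rw [hPm, hgh1, hg]
      ring
    have hh0 : h ≠ 0 := hsq.ne_zero
    have hg0 : g ≠ 0 := by
      intro h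
      apply hP0
      rw [hgh, h]; ring
    have hhd : h.natDegree ≤ 4 := by
      have := Polynomial.natDegree_mul (pow_ne_zero 2 hg10) hh0
      rw [← hgh1] at this
      omega
    obtain ⟨T, hT, hT2⟩ := uni_NT i hsq hhd
    have hp1 := piece_sq (f := f) (g := uni i g) (piece_TN (uni_vars i h)) (uni_vars i g) hv
      (fun z => by rw [hPe, uni_eval, uni_eval, hgh, Polynomial.eval_mul, Polynomial.eval_pow])
    have hfin : ({t | g.eval t = 0} : Set ℚ).Finite :=
      (g.roots.toFinset.finite_toSet).subset fun t ht => by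
        rw [Finset.mem_coe, Multiset.mem_toFinset, Polynomial.mem_roots hg0]
        exact ht
    refine ((Blk.of_piece hp1).union (Blk.biUnion (hT.union hfin)
      (Q := fun t => {z : Fin n → ℚ | z i = t}) fun t _ => Blk.of_piece (piece_pt 2 hv t))).congr ?_
    ext z
    simp only [mem_univ, iff_true]
    by_cases hz : z i ∈ T ∪ {t | g.eval t = 0}
    · right
      rw [Set.mem_iUnion₂]
      exact ⟨z i, hz, rfl⟩
    · left
      rw [Set.mem_union, not_or] at hz
      exact ⟨hT2 z hz.1, by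
        show MvPolynomial.eval z (uni i g) ≠ 0
        rw [uni_eval]
        exact hz.2⟩

/-- the same with the set of the variables of `f` -/
theorem blk_uni' {f : MvPolynomial (Fin n) ℚ} (hv : ∃ i, f.vars ⊆ {i})
    (hd : ∃ g h : MvPolynomial (Fin n) ℚ, f = g ^ 2 * h ∧ h.totalDegree ≤ 4) :
    Blk f.vars 2 f univ := by
  obtain ⟨i, hi⟩ := hv
  rcases Finset.subset_singleton_iff.1 hi with h | h
  · exact Blk.of_piece (piece_const 2 h)
  · rw [h]
    exact blk_uni hi hd

end uni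

end Pool.Agent.NH8.K
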