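import Pool.Agent.NH8.CJ
import Pool.Agent.NH8.KC

/-!
# Cubic forms times linear forms: finite unions of pieces for the exponent two
-/

set_option autoImplicit false
set_option linter.unusedSectionVars false
set_option linter.unusedVariables false
set_option linter.unusedSimpArgs false
set_option linter.deprecated false

open Set Filter Topology Pool.Agent.H581R2 Pool.Agent.TH729.SQ Pool.Agent.TH729.CC Pool.Agent.NH8.K

namespace Pool.Agent.NH8.C

variable {N : ℕ}

/-- pieces of polynomials -/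
lemma FP_of_piece {m : ℕ} {f : MvPolynomial (Fin N) ℚ} {P : Set (Fin N → ℚ)}
    {O : Set (Fin N → ℝ)} (h : Piece Finset.univ m f P O) :
    FP Kq m (fun x => (MvPolynomial.aeval x f : ℝ)) (rl P) O where
  rt := by
    rintro _ ⟨z, hz, rfl⟩ i
    exact Kq_mem _
  sa := h.sa
  sub := by
    rintro _ ⟨z, hz, rfl⟩
    exact h.sub z hz
  move := by
    intro x hx
    obtain ⟨r, hr, hm⟩ := h.move x hx
    refine ⟨r, hr, ?_⟩
    rintro _ ⟨z, hz, rfl⟩ hzx y hy hyx ε hε
    obtain ⟨z', hz', -, hd, s, hs, hst⟩ := hm z hz hzx y hy hyx ε hε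
    refine ⟨_, ⟨z', hz', rfl⟩, ?_, s, Kq_mem s, by exact_mod_cast hs, ?_⟩
    · rw [dist_pi_lt_iff hε]
      intro i
      rw [Real.dist_eq]
      exact hd i (Finset.mem_univ i)
    · rw [Pool.Agent.TH729.SQ.aeval_cast, Pool.Agent.TH729.SQ.aeval_cast, hst]
      push_cast
      rfl

/-- intersection with the nonzero set -/
lemma FP.inter_ne {K : Subfield ℝ} {m : ℕ} {φ : E N → ℝ} {P O : Set (E N)} (h : FP K m φ P O)
    (hs : SAP (fun x => φ x = 0)) : FP K m φ (P ∩ {x | φ x ≠ 0}) (O ∩ {x | φ x ≠ 0}) where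
  rt := fun z hz => h.rt z hz.1
  sa := SAP.and h.sa hs.not
  sub := fun z hz => ⟨h.sub hz.1, hz.2⟩
  move := by
    intro x hx
    obtain ⟨r, hr, hm⟩ := h.move x hx.1
    refine ⟨r, hr, ?_⟩
    rintro z ⟨hz, hz0⟩ hzx y hy hyx ε hε
    obtain ⟨z', hz', hd, s, hs, hs0, hst⟩ := hm z hz hzx y hy.1 hyx ε hε
    refine ⟨z', ⟨hz', ?_⟩, hd, s, hs, hs0, hst⟩
    show φ z' ≠ 0
    rw [hst]
    exact mul_ne_zero (pow_ne_zero m hs0) hz0

/-! ### Quadratic forms -/

/-- values of a bilinear form -/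
lemma bil_sum (B : E N →ₗ[ℝ] E N →ₗ[ℝ] ℝ) (u v : E N) :
    B u v = ∑ i, ∑ j, u i * v j * B (Pi.single i 1) (Pi.single j 1) := by
  have h1 : ∀ v : E N, v = ∑ i, v i • (Pi.single i (1 : ℝ) : E N) := by
    intro v
    rw [← pi_eq_sum_univ' v]
  conv_lhs => rw [h1 u]
  rw [map_sum, LinearMap.sum_apply]
  refine Finset.sum_congr rfl fun i _ => ?_
  conv_lhs => rw [h1 v]
  rw [map_sum]
  refine Finset.sum_congr rfl fun j _ => ?_
  rw [map_smul, map_smul, LinearMap.smul_apply, smul_eq_mul, smul_eq_mul]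
  ring

lemma single_rt {K : Subfield ℝ} (i : Fin N) : Rt K (Pi.single i (1 : ℝ) : E N) := by
  intro j
  by_cases h : j = i
  · subst h
    rw [Pi.single_eq_same]
    exact K.one_mem
  · rw [Pi.single_eq_of_ne h]
    exact K.zero_mem

/-- the polynomial -/
lemma bil_poly {B : E N →ₗ[ℝ] E N →ₗ[ℝ] ℝ} (hB : ∀ u v, Rt Kq u → Rt Kq v → B u v ∈ Kq) :
    ∃ f : MvPolynomial (Fin N) ℚ, f.totalDegree ≤ 2 ∧
      ∀ x : E N, (MvPolynomial.aeval x f : ℝ) = B x x := by
  choose b hb using fun i j => mem_Kq (hB (Pi.single i 1) (Pi.single j 1) (single_rt i)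
    (single_rt j))
  refine ⟨∑ i, ∑ j, MvPolynomial.C (b i j) * (MvPolynomial.X i * MvPolynomial.X j), ?_, fun x => ?_⟩
  · refine MvPolynomial.totalDegree_finsetSum_le fun i _ =>
      MvPolynomial.totalDegree_finsetSum_le fun j _ => ?_
    refine (MvPolynomial.totalDegree_mul _ _).trans ?_
    rw [MvPolynomial.totalDegree_C, zero_add]
    refine (MvPolynomial.totalDegree_mul _ _).trans ?_
    rw [MvPolynomial.totalDegree_X, MvPolynomial.totalDegree_X]
  · rw [bil_sum B x x, map_sum]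
    refine Finset.sum_congr rfl fun i _ => ?_
    rw [map_sum]
    refine Finset.sum_congr rfl fun j _ => ?_
    rw [map_mul, map_mul, MvPolynomial.aeval_C, MvPolynomial.aeval_X, MvPolynomial.aeval_X, ← hb i j,
      eq_ratCast]
    ring

/-- **quadratic forms** -/
theorem HB_bil {B : E N →ₗ[ℝ] E N →ₗ[ℝ] ℝ} (hB : ∀ u v, Rt Kq u → Rt Kq v → B u v ∈ Kq) :
    HB Kq 2 (fun v => B v v) (NZ Kq (fun v => B v v)) := by
  obtain ⟨f, hf, hfB⟩ := bil_poly hB
  have h1 := FP_of_piece (piece_TN (V := Finset.univ) (f := f) (Finset.subset_univ _))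
  rw [NT_two fun i => (MvPolynomial.degreeOf_le_totalDegree f i).trans hf] at h1
  simp only [hfB] at h1
  have e : rl {z : Fin N → ℚ | MvPolynomial.eval z f ≠ 0} = NZ Kq (fun v => B v v) := by
    ext v
    constructor
    · rintro ⟨z, hz, rfl⟩
      refine ⟨fun i => Kq_mem _, ?_⟩
      change B (fun i => (z i : ℝ)) (fun i => (z i : ℝ)) ≠ 0
      rw [← hfB, Pool.Agent.TH729.SQ.aeval_cast]
      exact_mod_cast hz
    · rintro ⟨hv, hv0⟩
      choose z hz using fun i => mem_Kq (hv i)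
      have hzv : v = fun i => (z i : ℝ) := by
        funext i
        exact (hz i).symm
      refine ⟨z, ?_, hzv⟩
      change MvPolynomial.eval z f ≠ 0
      have hv0' : B v v ≠ 0 := hv0
      rw [← hfB, hzv, Pool.Agent.TH729.SQ.aeval_cast] at hv0'
      exact_mod_cast hv0'
  rw [e] at h1
  refine HB.of_piece h1 ?_
  rintro z ⟨hz, hz0⟩ t ht ht0
  refine ⟨hz.smul ht, ?_⟩
  simp only [map_smul, LinearMap.smul_apply, smul_eq_mul]
  exact mul_ne_zero ht0 (mul_ne_zero ht0 hz0)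

/-- multiplication by the square of a functional -/
lemma HB.mul_sq {K : Subfield ℝ} (hK : KA K) {φ : E N → ℝ} {ζ : E N →ₗ[ℝ] ℝ} (hζ : RL K ζ)
    (h : HB K 2 φ (NZ K φ)) :
    HB K 2 (fun v => ζ v ^ 2 * φ v) (NZ K (fun v => ζ v ^ 2 * φ v)) := by
  obtain ⟨k, P, O, h1, h2⟩ := h
  obtain ⟨a, ha⟩ := exists_dt ζ hζ
  have hsa : SAP (fun v : E N => ζ v = 0) := by
    refine SAP.eq_zeroA ?_
    have := dt_PA hK a (f := fun v : E N => v) (fun i => PA.coord i)
    simpa only [ha] using this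
  have hcζ : Continuous ζ := LinearMap.continuous_of_finiteDimensional ζ
  have hop : IsOpen {u : E N | ζ u ≠ 0} := isOpen_ne_fun hcζ continuous_const
  refine ⟨k, fun i => {z | Rt K z ∧ z ∈ {v : E N | ζ v ≠ 0} ∧ id z ∈ P i},
    fun i => {x | x ∈ {v : E N | ζ v ≠ 0} ∧ id x ∈ O i}, fun z => ?_, fun i => ⟨?_, ?_⟩⟩
  · constructor
    · rintro ⟨hz, hz0⟩
      obtain ⟨i, hi⟩ := (h1 z).1 ⟨hz, right_ne_zero_of_mul hz0⟩
      refine ⟨i, hz, ?_, hi⟩
      intro h0
      apply hz0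
      show ζ z ^ 2 * φ z = 0
      rw [h0]
      ring
    · rintro ⟨i, hz, hz1, hi⟩
      refine ⟨hz, mul_ne_zero (pow_ne_zero 2 hz1) ((h1 z).2 ⟨i, hi⟩).2⟩
  · refine FP.lift (h2 i).1 (g := fun v => ζ v) ?_ ?_ ?_ ?_
    · intro z hz hzr
      exact ⟨hzr, hζ _ hzr, hz, rfl⟩
    · exact SAP.and hsa.not (h2 i).1.sa
    · intro x _
      exact continuousAt_id
    · intro y hy ε hε
      obtain ⟨ρ, hρ, hball⟩ := Metric.isOpen_iff.1 hop y hy
      refine ⟨min ρ ε, lt_min hρ hε, fun t ht htd => ⟨t, ht, ?_, rfl, ?_⟩⟩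
      · exact hball (lt_of_lt_of_le htd (min_le_left _ _))
      · exact lt_of_lt_of_le htd (min_le_right _ _)
  · rintro z ⟨hz, hz1, hz2⟩ t ht ht0
    refine ⟨hz.smul ht, ?_, (h2 i).2 z hz2 t ht ht0⟩
    show ζ (t • z) ≠ 0
    rw [map_smul]
    exact mul_ne_zero ht0 hz1

/-- the quotient by a functional -/
noncomputable def bq (G : Tri N) (ζ : E N →ₗ[ℝ] ℝ) (q : E N) : E N →ₗ[ℝ] E N →ₗ[ℝ] ℝ :=
  LinearMap.mk₂ ℝ (fun u v => 3 * G.f q (u - ζ u • q) (v - ζ v • q) +
    3 * ζ u * G.f q q (v - ζ v • q) + ζ u * ζ v * G.f q q q)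
    (fun u u' v => by
      simp only [map_add, map_sub, map_smul, add_smul, LinearMap.add_apply, LinearMap.sub_apply,
        LinearMap.smul_apply, smul_eq_mul]
      ring)
    (fun c u v => by
      simp only [map_add, map_sub, map_smul, add_smul, LinearMap.add_apply, LinearMap.sub_apply,
        LinearMap.smul_apply, smul_eq_mul, smul_assoc]
      ring)
    (fun u v v' => by
      simp only [map_add, map_sub, map_smul, add_smul, LinearMap.add_apply, LinearMap.sub_apply,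
        LinearMap.smul_apply, smul_eq_mul]
      ring)
    (fun c u v => by
      simp only [map_add, map_sub, map_smul, add_smul, LinearMap.add_apply, LinearMap.sub_apply,
        LinearMap.smul_apply, smul_eq_mul, smul_assoc]
      ring)

lemma bq_apply (G : Tri N) (ζ : E N →ₗ[ℝ] ℝ) (q u v : E N) :
    bq G ζ q u v = 3 * G.f q (u - ζ u • q) (v - ζ v • q) +
    3 * ζ u * G.f q q (v - ζ v • q) + ζ u * ζ v * G.f q q q := rfl

lemma dvd_id (G : Tri N) (y q : E N) (t : ℝ) (h0 : G.f y y y = 0) :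
    G.f (y + t • q) (y + t • q) (y + t • q) =
      t * (3 * G.f q y y + 3 * t * G.f q q y + t * t * G.f q q q) := by
  obtain ⟨n1, n2, n3, n4⟩ := G.n2 y q
  simp only [map_add, map_smul, LinearMap.add_apply, LinearMap.smul_apply, smul_eq_mul]
  rw [n1, n2, n3, n4, h0]
  ring

/-- the functional divides the form -/
theorem HB2_dvd {G : Tri N} (hG : Rat3 G Kq) {ζ : E N →ₗ[ℝ] ℝ} (hζ : RL Kq ζ) {q : E N}
    (hq : Rt Kq q) (hq1 : ζ q = 1) (h : ∀ v, Rt Kq v → ζ v = 0 → G.f v v v = 0) :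
    HB Kq 2 (fun v => G.f v v v * ζ v) (NZ Kq (fun v => G.f v v v * ζ v)) := by
  have h3 : (3 : ℝ) ∈ Kq := mem_three
  have hB : ∀ u v, Rt Kq u → Rt Kq v → bq G ζ q u v ∈ Kq := by
    intro u v hu hv
    rw [bq_apply]
    have hu' : Rt Kq (u - ζ u • q) := hu.sub (hq.smul (hζ u hu))
    have hv' : Rt Kq (v - ζ v • q) := hv.sub (hq.smul (hζ v hv))
    exact Kq.add_mem (Kq.add_mem (Kq.mul_mem h3 (hG _ _ _ hq hu' hv'))
      (Kq.mul_mem (Kq.mul_mem h3 (hζ u hu)) (hG _ _ _ hq hq hv')))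
      (Kq.mul_mem (Kq.mul_mem (hζ u hu) (hζ v hv)) (hG _ _ _ hq hq hq))
  have key : ∀ v, Rt Kq v → G.f v v v * ζ v = ζ v ^ 2 * bq G ζ q v v := by
    intro v hv
    have h0 : G.f (v - ζ v • q) (v - ζ v • q) (v - ζ v • q) = 0 := by
      refine h _ (hv.sub (hq.smul (hζ v hv))) ?_
      rw [map_sub, map_smul, hq1, smul_eq_mul, mul_one, sub_self]
    have h4 := dvd_id G _ q (ζ v) h0
    rw [sub_add_cancel] at h4
    rw [bq_apply, h4]
    ring
  refine ((HB_bil hB).mul_sq KA_q hζ).congr_fun key |>.congr ?_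
  ext v
  simp only [NZ, mem_setOf_eq]
  exact and_congr_right fun hv => by rw [key v hv]

/-! ### Binary forms -/

/-- the second coordinate -/
noncomputable def c1 : E 2 →ₗ[ℝ] ℝ := LinearMap.proj 1

/-- the polynomial `G(x, 1)` -/
lemma bin_poly {G : Tri 2} (hG : Rat3 G Kq) : ∃ f : MvPolynomial (Fin 1) ℚ, f.totalDegree ≤ 4 ∧
    ∀ x : E 1, (MvPolynomial.aeval x f : ℝ) = G.f ![x 0, 1] ![x 0, 1] ![x 0, 1] := by
  obtain ⟨a, ha⟩ := mem_Kq (hG ![1, 0] ![1, 0] ![1, 0] rt_e0 rt_e0 rt_e0)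
  obtain ⟨b, hb⟩ := mem_Kq (Kq.mul_mem mem_three (hG ![1, 0] ![1, 0] ![0, 1] rt_e0 rt_e0 rt_e1))
  obtain ⟨c, hc⟩ := mem_Kq (Kq.mul_mem mem_three (hG ![1, 0] ![0, 1] ![0, 1] rt_e0 rt_e1 rt_e1))
  obtain ⟨e, he⟩ := mem_Kq (hG ![0, 1] ![0, 1] ![0, 1] rt_e1 rt_e1 rt_e1)
  refine ⟨MvPolynomial.C a * MvPolynomial.X 0 ^ 3 + MvPolynomial.C b * MvPolynomial.X 0 ^ 2 +
    MvPolynomial.C c * MvPolynomial.X 0 + MvPolynomial.C e, ?_, fun x => ?_⟩
  · have hx : ∀ (r : ℚ) (k : ℕ), k ≤ 4 →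
        (MvPolynomial.C r * MvPolynomial.X 0 ^ k : MvPolynomial (Fin 1) ℚ).totalDegree ≤ 4 := by
      intro r k hk
      refine (MvPolynomial.totalDegree_mul _ _).trans ?_
      rw [MvPolynomial.totalDegree_C, zero_add, MvPolynomial.totalDegree_X_pow]
      exact hk
    refine (MvPolynomial.totalDegree_add _ _).trans (max_le ?_ ?_)
    · refine (MvPolynomial.totalDegree_add _ _).trans (max_le ?_ ?_)
      · exact (MvPolynomial.totalDegree_add _ _).trans (max_le (hx a 3 (by norm_num))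
          (hx b 2 (by norm_num)))
      · have := hx c 1 (by norm_num)
        rwa [pow_one] at this
    · rw [MvPolynomial.totalDegree_C]
      exact Nat.zero_le _
  · rw [coords2, ← ha, ← hb, ← hc, ← he, qB]
    simp only [map_add, map_mul, map_pow, MvPolynomial.aeval_C, MvPolynomial.aeval_X, eq_ratCast,
      Matrix.cons_val_zero, Matrix.cons_val_one]
    ring

/-- **binary forms** -/
theorem HB2_two {G : Tri 2} (hG : Rat3 G Kq) :
    HB Kq 2 (fun v => G.f v v v * c1 v) (NZ Kq (fun v => G.f v v v * c1 v)) := by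
  obtain ⟨f, hf, hfG⟩ := bin_poly hG
  have hb := blk_uni (n := 1) (f := f) (i := 0) (fun i _ => by
    rw [Subsingleton.elim i 0]
    exact Finset.mem_singleton_self 0) ⟨1, f, by ring, hf⟩
  have hu : ({0} : Finset (Fin 1)) = Finset.univ := rfl
  rw [hu] at hb
  obtain ⟨k, P, O, h1, h2⟩ := hb
  set A : Set (E 2) := {v | v 1 ≠ 0} with hA
  set μ : E 2 → E 1 := fun v _ => v 0 / v 1 with hμ
  have hval : ∀ z : E 2, z ∈ A → G.f z z z * c1 z = (z 1 ^ 2) ^ 2 *
      (MvPolynomial.aeval (μ z) f : ℝ) := by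
    intro z hz
    have hz1 : z 1 ≠ 0 := hz
    have hz2 : z = z 1 • (![z 0 / z 1, 1] : E 2) := by
      funext i
      fin_cases i
      · simp only [Fin.zero_eta, Pi.smul_apply, Matrix.cons_val_zero, smul_eq_mul]
        field_simp
      · simp
    rw [hfG]
    have h3 : G.f z z z = z 1 ^ 3 * G.f ![z 0 / z 1, 1] ![z 0 / z 1, 1] ![z 0 / z 1, 1] := by
      conv_lhs => rw [hz2]
      simp only [map_smul, LinearMap.smul_apply, smul_eq_mul]
      ring
    rw [h3]
    have h4 : c1 z = z 1 := rfl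
    rw [h4]
    ring
  have hne : SAP (fun x : E 2 => G.f x x x * c1 x = 0) := by
    refine SAP.eq_zeroA ((tri_PA KA_q hG (fun i => PA.coord i) (fun i => PA.coord i)
      (fun i => PA.coord i)).mul ?_)
    exact PA.coord 1
  have hop : IsOpen {u : E 2 | u 1 ≠ 0} := isOpen_ne_fun (continuous_apply 1) continuous_const
  refine ⟨k, fun i => {z | Rt Kq z ∧ z ∈ A ∧ μ z ∈ rl (P i)} ∩ {x | G.f x x x * c1 x ≠ 0},
    fun i => {x | x ∈ A ∧ μ x ∈ O i} ∩ {x | G.f x x x * c1 x ≠ 0}, fun z => ?_,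
    fun i => ⟨FP.inter_ne (FP.lift (FP_of_piece (h2 i)) (g := fun z => z 1 ^ 2) ?_ ?_ ?_ ?_) hne,
      ?_⟩⟩
  · constructor
    · rintro ⟨hz, hz0⟩
      have hz1 : z 1 ≠ 0 := right_ne_zero_of_mul hz0
      obtain ⟨a, ha⟩ := mem_Kq (hz 0)
      obtain ⟨b, hb⟩ := mem_Kq (hz 1)
      obtain ⟨i, hi⟩ := (h1 (fun _ => a / b)).1 (mem_univ _)
      refine ⟨i, ⟨hz, hz1, _, hi, ?_⟩, hz0⟩
      funext j
      simp only [hμ]
      rw [← ha, ← hb]
      push_cast
      rfl
    · rintro ⟨i, ⟨hz, -, -⟩, hz0⟩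
      exact ⟨hz, hz0⟩
  · intro z hz hzr
    refine ⟨fun j => Kq.div_mem (hzr 0) (hzr 1), Kq.pow_mem (hzr 1) 2, pow_ne_zero 2 hz, ?_⟩
    exact hval z hz
  · refine SAP.congr (SAP.exists_fun (Fin 1) (Fin 2) (fun w => ¬ w (Sum.inr 1) = 0 ∧
      w (Sum.inl 0) * w (Sum.inr 1) = w (Sum.inr 0) ∧ (fun i => w (Sum.inl i)) ∈ O i) ?_)
      fun v => ?_
    · refine SAP.and (SAP.eq_zero (PF.coord _)).not (SAP.and (SAP.eq ((PF.coord _).mul (PF.coord _))
        (PF.coord _)) ?_)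
      exact SAP.preimage (p := fun v => v ∈ O i) (h2 i).sa (fun i => PF.coord _)
    · constructor
      · rintro ⟨hv, hvO⟩
        refine ⟨μ v, hv, ?_, hvO⟩
        change v 0 / v 1 * v 1 = v 0
        exact div_mul_cancel₀ _ hv
      · rintro ⟨u, hv, huv, hu⟩
        have hv' : v 1 ≠ 0 := hv
        refine ⟨hv', ?_⟩
        have : μ v = u := by
          funext j
          rw [Subsingleton.elim j 0]
          change v 0 / v 1 = u 0
          have huv' : u 0 * v 1 = v 0 := huv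
          rw [← huv']
          field_simp
        rw [this]
        exact hu
  · intro x hx
    refine continuousAt_pi.2 fun _ => ?_
    exact (continuous_apply 0).continuousAt.div (continuous_apply 1).continuousAt hx
  · intro y hy ε hε
    have hy1 : y 1 ≠ 0 := hy
    have hc : Continuous fun w : E 1 × ℝ => (![w.1 0 * w.2, w.2] : E 2) := by
      refine continuous_pi fun i => ?_
      fin_cases i
      · exact ((continuous_apply 0).comp continuous_fst).mul continuous_snd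
      · exact continuous_snd
    obtain ⟨δ, hδ, hδ'⟩ := Metric.continuousAt_iff.1
      (hc.continuousAt (x := (μ y, y 1))) ε hε
    refine ⟨δ, hδ, fun t ht htd => ?_⟩
    obtain ⟨q, hq⟩ := exists_rat_near (y 1) (min δ |y 1|) (lt_min hδ (abs_pos.2 hy1))
    have hq0 : (q : ℝ) ≠ 0 := by
      intro h0
      rw [h0, zero_sub, abs_neg] at hq
      exact absurd (lt_of_lt_of_le hq (min_le_right _ _)) (lt_irrefl _)
    refine ⟨![t 0 * q, q], ?_, hq0, ?_, ?_⟩
    · intro i
      fin_cases i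
      · exact Kq.mul_mem (ht 0) (Kq_mem q)
      · exact Kq_mem q
    · funext j
      rw [Subsingleton.elim j 0]
      change t 0 * q / q = t 0
      field_simp
    · have h3 := hδ' (x := (t, (q : ℝ))) (by
        rw [Prod.dist_eq]
        exact max_lt htd (lt_of_lt_of_le (by rw [Real.dist_eq]; exact hq) (min_le_left _ _)))
      have h4 : (![μ y 0 * y 1, y 1] : E 2) = y := by
        funext i
        fin_cases i
        · change y 0 / y 1 * y 1 = y 0
          field_simp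
        · rfl
      simp only at h3
      rwa [h4] at h3
  · rintro z ⟨⟨hz, hz1, hz2⟩, hz0⟩ t ht ht0
    have hμt : μ (t • z) = μ z := by
      funext j
      simp only [hμ, Pi.smul_apply, smul_eq_mul]
      have hz1' : z 1 ≠ 0 := hz1
      field_simp
    refine ⟨⟨hz.smul ht, mul_ne_zero ht0 hz1, ?_⟩, ?_⟩
    · show μ (t • z) ∈ rl (P i)
      rw [hμt]
      exact hz2
    · show G.f (t • z) (t • z) (t • z) * c1 (t • z) ≠ 0
      simp only [map_smul, LinearMap.smul_apply, smul_eq_mul]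
      exact mul_ne_zero (mul_ne_zero ht0 (mul_ne_zero ht0 (mul_ne_zero ht0
        (left_ne_zero_of_mul hz0)))) (mul_ne_zero ht0 (right_ne_zero_of_mul hz0))

lemma P2_sub {K : Subfield ℝ} {G : Tri N} {ζ : E N →ₗ[ℝ] ℝ} :
    P2 K G ζ ⊆ NZ K (fun v => G.f v v v * ζ v) := by
  rintro z ⟨hz, hζ, d, -, -, w, -, hw, h, -⟩
  refine ⟨hz, fun h0 => ?_⟩
  have h0' : G.f z z z * ζ z = 0 := h0
  have h1 := (mul_eq_zero.1 h0').resolve_right hζ
  rw [h1, mul_zero] at h
  exact mul_ne_zero (pow_ne_zero 2 hw) hζ h.symm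

/-- **cubic forms times linear forms** -/
theorem HB2 : ∀ (N : ℕ) (G : Tri N), Rat3 G Kq → ∀ ζ : E N →ₗ[ℝ] ℝ, RL Kq ζ →
    HB Kq 2 (fun v => G.f v v v * ζ v) (NZ Kq (fun v => G.f v v v * ζ v)) := by
  intro N
  induction N with
  | zero =>
    intro G hG ζ hζ
    refine HB.empty.congr ?_
    ext v
    simp only [NZ, mem_empty_iff_false, mem_setOf_eq, false_iff, not_and, not_not]
    intro hv
    have h0 : v = 0 := Subsingleton.elim _ _
    rw [h0, map_zero, map_zero, mul_zero]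
  | succ N ih =>
    intro G hG ζ hζ
    by_cases hζ0 : ∀ v, Rt Kq v → ζ v = 0
    · refine HB.empty.congr ?_
      ext v
      simp only [NZ, mem_empty_iff_false, mem_setOf_eq, false_iff, not_and, not_not]
      intro hv
      rw [hζ0 v hv, mul_zero]
    push Not at hζ0
    obtain ⟨q₀, hq₀, hq₀0⟩ := hζ0
    obtain ⟨q₁, hq₁, hq₁1⟩ : ∃ q₁, Rt Kq q₁ ∧ ζ q₁ = 1 :=
      ⟨(ζ q₀)⁻¹ • q₀, hq₀.smul (Kq.inv_mem (hζ _ hq₀)), by
        rw [map_smul, smul_eq_mul, inv_mul_cancel₀ hq₀0]⟩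
    by_cases hdvd : ∀ v, Rt Kq v → ζ v = 0 → G.f v v v = 0
    · exact HB2_dvd hG hζ hq₁ hq₁1 hdvd
    have hdvd' := hdvd
    push Not at hdvd
    obtain ⟨x₀, hx₀, hx₀ζ, hx₀G⟩ := hdvd
    by_cases hlow : Low2 Kq G ζ
    · obtain ⟨b, hb⟩ := hlow
      have hbx : dt b x₀ ≠ 0 := fun h0 => hx₀G (hb x₀ hx₀ hx₀ζ h0 x₀ x₀)
      set p := (dt b x₀)⁻¹ • x₀ with hp
      have hpr : Rt Kq p := hx₀.smul (Kq.inv_mem (dt_mem b hx₀))
      have hp1 : dt b p = 1 := by rw [hp, map_smul, smul_eq_mul, inv_mul_cancel₀ hbx]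
      have hp2 : ζ p = 0 := by rw [hp, map_smul, hx₀ζ, smul_zero]
      set q := q₁ - dt b q₁ • p with hq
      have hqr : Rt Kq q := hq₁.sub (hpr.smul (dt_mem b hq₁))
      have hq1 : dt b q = 0 := by
        rw [hq, map_sub, map_smul, hp1, smul_eq_mul, mul_one, sub_self]
      have hq2 : ζ q = 1 := by
        rw [hq, map_sub, map_smul, hp2, smul_zero, sub_zero, hq₁1]
      clear_value p q
      refine HB.pull (l₁ := dt b) (l₂ := ζ) (fun v hv => dt_mem b hv) hζ
        KA_q hpr hqr hp1 hq1 hp2 hq2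
        (φ₀ := fun s => (G.comap (sg2 p q)).f s s s * c1 s) (fun v hv => ?_)
        (HB2_two fun x y z hx hy hz => hG _ _ _ ((hpr.smul (hx 0)).add (hqr.smul (hx 1)))
          ((hpr.smul (hy 0)).add (hqr.smul (hy 1))) ((hpr.smul (hz 0)).add (hqr.smul (hz 1))))
      set s := mu2 (dt b) ζ v with hs
      set v' := sg2 p q s with hv'
      have hv'd : v' = dt b v • p + ζ v • q := rfl
      set y := v - v' with hy
      have hyr : Rt Kq y := hv.sub ((hpr.smul (dt_mem b hv)).add (hqr.smul (hζ v hv)))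
      have h1 : dt b y = 0 := by
        rw [hy, hv'd, map_sub, map_add, map_smul, map_smul, hp1, hq1]
        simp
      have h2 : ζ y = 0 := by
        rw [hy, hv'd, map_sub, map_add, map_smul, map_smul, hp2, hq2]
        simp
      have h3 := hb y hyr h2 h1
      have hv2 : v = y + v' := by rw [hy]; simp
      have h5 : c1 s = ζ v := rfl
      have h4 : G.f v v v = G.f v' v' v' := by
        conv_lhs => rw [hv2]
        clear_value y v'
        obtain ⟨n1, n2, n3, n4⟩ := G.n2 y v'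
        simp only [map_add, LinearMap.add_apply]
        rw [n1, n2, n3, n4, h3, h3, h3]
        ring
      change G.f v v v * ζ v = G.f v' v' v' * c1 s
      rw [h4, h5]
    · obtain ⟨L, hL, hL0, hcov⟩ := cover2 hG hζ hx₀ hx₀ζ hx₀G
      have hNH : ∀ d ∈ Kq, d ≠ 0 → NH (T2 G ζ d) Kq := by
        intro d hd hd0
        by_contra h
        exact hdvd' (NH2 ⟨q₀, hq₀, hq₀0⟩ hd0 h)
      refine HB_cover (HB.of_piece (FP2 KA_q hG hζ hNH) P2_cone) P2_sub
        hL ?_ ?_
      · rintro v ⟨hv, hv0⟩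
        have hζv : ζ v ≠ 0 := right_ne_zero_of_mul hv0
        have hGv : G.f v v v ≠ 0 := left_ne_zero_of_mul hv0
        have hζK : (ζ v)⁻¹ ∈ Kq := Kq.inv_mem (hζ v hv)
        set v' := (ζ v)⁻¹ • v with hv'
        have hv'r : Rt Kq v' := hv.smul hζK
        have hv'1 : ζ v' = 1 := by rw [hv', map_smul, smul_eq_mul, inv_mul_cancel₀ hζv]
        have hGv' : G.f v' v' v' ≠ 0 := by
          rw [hv']
          simp only [map_smul, LinearMap.smul_apply, smul_eq_mul]
          have := inv_ne_zero hζv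
          exact mul_ne_zero this (mul_ne_zero this (mul_ne_zero this hGv))
        have hdK : (G.f v' v' v')⁻¹ ∈ Kq := Kq.inv_mem (hG _ _ _ hv'r hv'r hv'r)
        have hdw : (G.f v' v' v')⁻¹ * G.f v' v' v' = 1 ^ 2 := by
          rw [inv_mul_cancel₀ hGv']; ring
        have hvv : v = ζ v • v' := by rw [hv', smul_smul, mul_inv_cancel₀ hζv, one_smul]
        by_cases hI : ∃ R, Int' (T2 G ζ (G.f v' v' v')⁻¹) Kq R
        · right
          rw [hvv]
          refine P2_cone v' ⟨hv'r, by rw [hv'1]; exact one_ne_zero, _, hdK, inv_ne_zero hGv', 1,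
            Kq.one_mem, one_ne_zero, by rw [hdw, hv'1, mul_one], hI⟩ _ (hζ v hv) hζv
        · left
          obtain ⟨a, ha, hav⟩ := hcov v' (special2 hG hζ hx₀ζ hx₀G hlow hdK (inv_ne_zero hGv')
            ⟨T2_rat hG hζ hdK, fun R hR => hI ⟨R, hR⟩⟩ hv'r hv'1 Kq.one_mem one_ne_zero hdw)
          exact ⟨a, ha, by rw [hvv, map_smul, hav, smul_zero]⟩
      · intro a ha
        refine HB_hyper KA_q (hL0 a ha) fun j hj => ?_
        exact ih (G.comap (par a j)) (par_rat hG a j) (ζ.comp (par a j))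
          (fun u hu => hζ _ (par_rt hu))

end Pool.Agent.NH8.C
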