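import Pool.Agent.NH8.CK
import Pool.Agent.Y718.Img

/-!
# Polynomials of degree at most three are blocks for the exponents two and three
-/

set_option autoImplicit false
set_option linter.unusedSectionVars false
set_option linter.unusedVariables false
set_option linter.unusedSimpArgs false
set_option linter.deprecated false

open Set Filter Topology Pool.Agent.H581R2 Pool.Agent.TH729.SQ Pool.Agent.TH729.CC Pool.Agent.NH8.K

namespace Pool.Agent.NH8.C

section zero

variable {ι : Type} [Fintype ι]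

/-- zero sets -/
lemma zero_SA {f : MvPolynomial ι ℚ} (hf : f.totalDegree ≤ 3) :
    SA (closure (rl {z : ι → ℚ | MvPolynomial.eval z f = 0})) := by
  obtain ⟨n, ⟨e⟩⟩ := Finite.exists_equiv_fin ι
  have h1 := Pool.Agent.Y718.poly_SA (MvPolynomial.rename e f)
    ((MvPolynomial.totalDegree_rename_le e f).trans hf)
  let H : (ι → ℝ) ≃ₜ (Fin n → ℝ) :=
    { toFun := fun x k => x (e.symm k)
      invFun := fun y i => y (e i)
      left_inv := fun x => by
        funext i
        show x (e.symm (e i)) = x i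
        rw [e.symm_apply_apply]
      right_inv := fun y => by
        funext i
        show y (e (e.symm i)) = y i
        rw [e.apply_symm_apply]
      continuous_toFun := continuous_pi fun k => continuous_apply _
      continuous_invFun := continuous_pi fun k => continuous_apply _ }
  have h2 : rl {z : ι → ℚ | MvPolynomial.eval z f = 0} =
      H ⁻¹' rl {z : Fin n → ℚ | MvPolynomial.eval z (MvPolynomial.rename e f) = 0} := by
    ext x
    constructor
    · rintro ⟨z, hz, rfl⟩
      refine ⟨fun k => z (e.symm k), ?_, rfl⟩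
      show MvPolynomial.eval _ (MvPolynomial.rename e f) = 0
      rw [MvPolynomial.eval_rename]
      refine Eq.trans ?_ hz
      congr 2
      funext i
      show z (e.symm (e i)) = z i
      rw [e.symm_apply_apply]
    · rintro ⟨z, hz, hzx⟩
      refine ⟨fun i => z (e i), ?_, ?_⟩
      · have h3 : MvPolynomial.eval z (MvPolynomial.rename e f) = 0 := hz
        rw [MvPolynomial.eval_rename] at h3
        exact h3
      · have h3 : x = H.symm (H x) := (H.symm_apply_apply x).symm
        rw [h3, hzx]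
        rfl
  rw [h2, ← H.preimage_closure]
  exact SAP.preimage (p := fun v => v ∈ closure (rl {z : Fin n → ℚ |
    MvPolynomial.eval z (MvPolynomial.rename e f) = 0})) h1 (φ := fun x => H x) fun k => PF.coord _

lemma totalDegree_le_rename {τ σ : Type} {g : τ → σ} (hg : Function.Injective g)
    (q : MvPolynomial τ ℚ) : q.totalDegree ≤ (MvPolynomial.rename g q).totalDegree := by
  classical
  refine Finset.sup_le fun d hd => ?_
  have h1 : d.mapDomain g ∈ (MvPolynomial.rename g q).support := by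
    rw [MvPolynomial.support_rename_of_injective hg]
    exact Finset.mem_image_of_mem _ hd
  have h2 := MvPolynomial.le_totalDegree h1
  rwa [Finsupp.sum_mapDomain_index (fun _ => rfl) (fun _ _ _ => rfl)] at h2

end zero

section slice

variable {ι : Type} [Fintype ι] {V : Finset ι} {n : ℕ}

/-- the coordinates in `V` -/
noncomputable def au (e : V ≃ Fin n) (x : ι → ℝ) : E (n + 1) := aug (fun k => x (e.symm k))

lemma au_zero (e : V ≃ Fin n) (x : ι → ℝ) : au e x 0 = 1 := rfl
lemma au_succ (e : V ≃ Fin n) (x : ι → ℝ) (k : Fin n) : au e x k.succ = x (e.symm k) := rfl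

lemma dist_au (e : V ≃ Fin n) (x y : ι → ℝ) : dist (au e x) (au e y) ≤ dist x y := by
  refine (dist_pi_le_iff dist_nonneg).2 fun k => ?_
  refine Fin.cases ?_ (fun k => ?_) k
  · rw [au_zero, au_zero, dist_self]
    exact dist_nonneg
  · exact dist_le_pi_dist x y _

/-- **slices of pieces which are cones** -/
theorem Piece_slice (e : V ≃ Fin n) {m : ℕ} {f : MvPolynomial ι ℚ} (hv : f.vars ⊆ V)
    {φ : E (n + 1) → ℝ} {P O : Set (E (n + 1))} (h : FP Kq m φ P O) (hc : Cn Kq P)
    (hφ : ∀ z : ι → ℚ, φ (au e (fun i => (z i : ℝ))) = ((MvPolynomial.eval z f : ℚ) : ℝ))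
    (hh : ∀ v, ∀ t ∈ Kq, t ≠ 0 → ∃ s ∈ Kq, s ≠ 0 ∧ φ (t • v) = s ^ m * φ v) :
    Piece V m f {z | au e (fun i => (z i : ℝ)) ∈ P} {x | au e x ∈ O} where
  vars := hv
  cyl := by
    intro z z' hz hzz
    have e1 : au e (fun i => (z' i : ℝ)) = au e (fun i => (z i : ℝ)) := by
      funext k
      refine Fin.cases rfl (fun k => ?_) k
      show ((z' (e.symm k) : ℚ) : ℝ) = ((z (e.symm k) : ℚ) : ℝ)
      rw [hzz _ (e.symm k).2]
    show au e (fun i => (z' i : ℝ)) ∈ P
    rw [e1]
    exact hz
  sa := by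
    refine SAP.preimage (p := fun v => v ∈ O) h.sa (φ := fun x => au e x) fun k => ?_
    refine Fin.cases ?_ (fun k => ?_) k
    · exact PF.one
    · exact PF.coord _
  sub := fun z hz => h.sub hz
  move := by
    classical
    intro x hx
    obtain ⟨r, hr, hm⟩ := h.move _ hx
    refine ⟨r, hr, fun z hz hzx y hy hyx ε hε => ?_⟩
    have hnc : ContinuousAt (fun (v : E (n + 1)) (k : Fin n) => v k.succ / v 0) (au e y) :=
      continuousAt_pi.2 fun k => (continuous_apply _).continuousAt.div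
        (continuous_apply _).continuousAt (by rw [au_zero]; exact one_ne_zero)
    obtain ⟨δ, hδ, h1⟩ := Metric.continuousAt_iff.1 hnc ε hε
    obtain ⟨v, hv, hvd, s, hs, hs0, hst⟩ := hm _ hz (lt_of_le_of_lt (dist_au e _ _) hzx) _ hy
      (lt_of_le_of_lt (dist_au e _ _) hyx) (min δ 1) (lt_min hδ one_pos)
    have hv0 : v 0 ≠ 0 := by
      intro h0
      have h2 := dist_le_pi_dist v (au e y) 0
      rw [h0, au_zero, Real.dist_eq, zero_sub, abs_neg, abs_one] at h2
      exact absurd (lt_of_le_of_lt h2 (lt_of_lt_of_le hvd (min_le_right _ _))) (lt_irrefl _)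
    have h2 := h1 (lt_of_lt_of_le hvd (min_le_left _ _))
    have hq : ∀ k : Fin n, ∃ q : ℚ, (q : ℝ) = v k.succ / v 0 := fun k =>
      mem_Kq (Kq.div_mem (h.rt v hv _) (h.rt v hv _))
    choose q hq using hq
    set z' : ι → ℚ := fun i => if hi : i ∈ V then q (e ⟨i, hi⟩) else z i with hz'
    have hz'V : ∀ k : Fin n, z' (e.symm k) = q k := by
      intro k
      simp only [hz']
      rw [dif_pos (e.symm k).2]
      congr 1
      exact e.apply_symm_apply k
    have hau : au e (fun i => (z' i : ℝ)) = (v 0)⁻¹ • v := by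
      funext k
      refine Fin.cases ?_ (fun k => ?_) k
      · rw [au_zero, Pi.smul_apply, smul_eq_mul, inv_mul_cancel₀ hv0]
      · rw [au_succ, Pi.smul_apply, smul_eq_mul, hz'V, hq, div_eq_inv_mul]
    have hvK : (v 0)⁻¹ ∈ Kq := Kq.inv_mem (h.rt v hv 0)
    have hvn : (v 0)⁻¹ ≠ 0 := inv_ne_zero hv0
    refine ⟨z', ?_, fun i hi => ?_, fun i hi => ?_, ?_⟩
    · show au e (fun i => (z' i : ℝ)) ∈ P
      rw [hau]
      exact hc v hv _ hvK hvn
    · simp only [hz']
      rw [dif_neg hi]
    · have h3 := (dist_pi_lt_iff hε).1 h2 (e ⟨i, hi⟩)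
      rw [Real.dist_eq, au_succ, au_zero, div_one, ← hq, ← hz'V] at h3
      have e1 : ((e.symm (e ⟨i, hi⟩) : V) : ι) = i := by rw [e.symm_apply_apply]
      rw [e1] at h3
      exact h3
    · obtain ⟨s', hs', hs'0, hst'⟩ := hh v _ hvK hvn
      obtain ⟨a, ha⟩ := mem_Kq hs
      obtain ⟨b, hb⟩ := mem_Kq hs'
      refine ⟨b * a, ?_, ?_⟩
      · rintro h0
        rcases mul_eq_zero.1 h0 with h0 | h0
        · apply hs'0
          rw [← hb, h0, Rat.cast_zero]
        · apply hs0
          rw [← ha, h0, Rat.cast_zero]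
      · have h3 : ((MvPolynomial.eval z' f : ℚ) : ℝ) =
            ((b * a : ℚ) : ℝ) ^ m * ((MvPolynomial.eval z f : ℚ) : ℝ) := by
          rw [← hφ z', ← hφ z, hau, hst', hst, ← ha, ← hb]
          push_cast
          ring
        exact_mod_cast h3

lemma Rt_au (e : V ≃ Fin n) (z : ι → ℚ) : Rt Kq (au e (fun i => (z i : ℝ))) := by
  intro k
  refine Fin.cases ?_ (fun k => ?_) k
  · exact Kq.one_mem
  · exact Kq_mem _

/-- blocks from finite unions of cones -/
theorem Blk_slice (e : V ≃ Fin n) {m : ℕ} {f : MvPolynomial ι ℚ} (hv : f.vars ⊆ V)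
    {φ : E (n + 1) → ℝ} (h : HB Kq m φ (NZ Kq φ))
    (hφ : ∀ z : ι → ℚ, φ (au e (fun i => (z i : ℝ))) = ((MvPolynomial.eval z f : ℚ) : ℝ))
    (hh : ∀ v, ∀ t ∈ Kq, t ≠ 0 → ∃ s ∈ Kq, s ≠ 0 ∧ φ (t • v) = s ^ m * φ v)
    (h0 : SA (closure (rl {z : ι → ℚ | MvPolynomial.eval z f = 0}))) : Blk V m f univ := by
  obtain ⟨k, P, O, h1, h2⟩ := h
  refine Blk.congr (Q := {z : ι → ℚ | MvPolynomial.eval z f ≠ 0} ∪
    {z | MvPolynomial.eval z f = 0}) (Blk.union ?_ (Blk.of_piece (piece_zero m hv h0))) ?_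
  · refine ⟨k, fun i => {z | au e (fun i => (z i : ℝ)) ∈ P i}, fun i => {x | au e x ∈ O i},
      fun z => ?_, fun i => Piece_slice e hv (h2 i).1 (h2 i).2 hφ hh⟩
    refine Iff.trans ?_ (h1 _)
    constructor
    · intro hz
      refine ⟨Rt_au e z, ?_⟩
      rw [hφ]
      exact_mod_cast hz
    · rintro ⟨-, hz⟩
      rw [hφ] at hz
      exact_mod_cast hz
  · ext z
    simp only [mem_union, mem_univ, iff_true]
    exact ne_or_eq _ _

/-- the form -/
lemma form_exists (e : V ≃ Fin n) {f : MvPolynomial ι ℚ} (hv : f.vars ⊆ V)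
    (hf : f.totalDegree ≤ 3) : ∃ G : Tri (n + 1), Rat3 G Kq ∧ ∀ z : ι → ℚ,
      G.f (au e (fun i => (z i : ℝ))) (au e (fun i => (z i : ℝ))) (au e (fun i => (z i : ℝ))) =
        ((MvPolynomial.eval z f : ℚ) : ℝ) := by
  have hg : Function.Injective (fun k : Fin n => ((e.symm k : V) : ι)) :=
    Subtype.val_injective.comp e.symm.injective
  obtain ⟨q, hq⟩ := MvPolynomial.exists_rename_eq_of_vars_subset_range f
    (fun k : Fin n => ((e.symm k : V) : ι)) hg (by
      intro i hi
      exact ⟨e ⟨i, hv hi⟩, by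
        show ((e.symm (e ⟨i, hv hi⟩) : V) : ι) = i
        rw [e.symm_apply_apply]⟩)
  have hqd : q.totalDegree ≤ 3 := by
    refine (totalDegree_le_rename hg q).trans ?_
    rw [hq]
    exact hf
  obtain ⟨G, hG, hG'⟩ := rep_affine (Rat.castHom ℝ) q hqd
  refine ⟨G, hG, fun z => ?_⟩
  refine (hG' _).trans ?_
  have h1 : MvPolynomial.eval₂ (Rat.castHom ℝ) (fun k => (Rat.castHom ℝ) (z (e.symm k))) q =
      (Rat.castHom ℝ) (MvPolynomial.eval (fun k => z (e.symm k)) q) := by
    have := MvPolynomial.eval₂_comp_left (Rat.castHom ℝ) (RingHom.id ℚ) (fun k => z (e.symm k)) q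
    rw [RingHom.comp_id] at this
    exact this.symm
  refine h1.trans ?_
  rw [← hq, MvPolynomial.eval_rename]
  rfl

/-- **Polynomials of degree at most three.** -/
theorem blk_cubic {f : MvPolynomial ι ℚ} (hv : f.vars ⊆ V) (hf : f.totalDegree ≤ 3) {m : ℕ}
    (hm : m = 2 ∨ m = 3) : Blk V m f univ := by
  classical
  set e : V ≃ Fin (Fintype.card V) := Fintype.equivFin V with he
  obtain ⟨G, hG, hGf⟩ := form_exists e hv hf
  rcases hm with rfl | rfl
  · set ζ : E (Fintype.card V + 1) →ₗ[ℝ] ℝ := LinearMap.proj 0 with hζ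
    have hζr : RL Kq ζ := fun v hv => hv 0
    refine Blk_slice e hv (HB2 _ G hG ζ hζr) (fun z => ?_) (fun v t ht ht0 => ?_) (zero_SA hf)
    · rw [hGf]
      have : ζ (au e (fun i => (z i : ℝ))) = 1 := rfl
      rw [this, mul_one]
    · refine ⟨t ^ 2, Kq.pow_mem ht 2, pow_ne_zero 2 ht0, ?_⟩
      simp only [map_smul, LinearMap.smul_apply, smul_eq_mul]
      ring
  · refine Blk_slice e hv (HB3 _ G hG) hGf (fun v t ht ht0 => ?_) (zero_SA hf)
    refine ⟨t, ht, ht0, ?_⟩
    simp only [map_smul, LinearMap.smul_apply, smul_eq_mul]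
    ring

end slice

end Pool.Agent.NH8.C
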