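import Mathlib

/-!
# Rational points are dense on diagonal quadrics with a rational point
-/

set_option autoImplicit false
set_option linter.unusedSectionVars false
set_option linter.unusedVariables false

open Filter Topology

namespace Pool.Agent.NH8.K

variable {σ : Type} [Fintype σ]

lemma dense_rat_vec : DenseRange (fun (u : σ → ℚ) k => (u k : ℝ)) := by
  have h1 : DenseRange (Pi.map fun _ : σ => ((↑) : ℚ → ℝ)) :=
    DenseRange.piMap fun _ => Rat.denseRange_cast
  exact h1

section alg

variable {R : Type*} [Field R] (s : Finset σ)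

/-- the bilinear form -/
def bf (α p v : σ → R) : R := ∑ i ∈ s, α i * p i * v i

lemma bf_self (α p : σ → R) : bf s α p p = ∑ i ∈ s, α i * p i ^ 2 := by
  unfold bf
  exact Finset.sum_congr rfl fun i _ => by ring

lemma bf_comm (α p v : σ → R) : bf s α p v = bf s α v p := by
  unfold bf
  exact Finset.sum_congr rfl fun i _ => by ring

lemma bf_lin (α p q v : σ → R) (t : R) :
    bf s α (fun i => p i + t * q i) v = bf s α p v + t * bf s α q v := by
  unfold bf
  rw [Finset.mul_sum, ← Finset.sum_add_distrib]
  exact Finset.sum_congr rfl fun i _ => by ring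

lemma bf_lin' (α p q v : σ → R) (t : R) :
    bf s α v (fun i => p i + t * q i) = bf s α v p + t * bf s α v q := by
  rw [bf_comm, bf_lin, bf_comm s α v p, bf_comm s α v q]

/-- the square of a sum -/
lemma bf_sq (α p v : σ → R) (t : R) :
    bf s α (fun i => p i + t * v i) (fun i => p i + t * v i) =
      bf s α p p + 2 * t * bf s α p v + t ^ 2 * bf s α v v := by
  rw [bf_lin, bf_lin', bf_lin', bf_comm s α v p]
  ring

lemma bf_single [DecidableEq σ] (α p : σ → R) {i0 i1 : σ} (h0 : i0 ∈ s) (h1 : i1 ∈ s) (a t : R) :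
    bf s α p (fun k => (if k = i0 then a else 0) + (if k = i1 then t else 0)) =
      a * (α i0 * p i0) + t * (α i1 * p i1) := by
  unfold bf
  simp only [mul_add, Finset.sum_add_distrib, mul_ite, mul_zero, Finset.sum_ite_eq',
    if_pos h0, if_pos h1]
  ring

end alg

lemma bf_cast (s : Finset σ) (α p v : σ → ℚ) :
    bf s (fun i => (α i : ℝ)) (fun i => (p i : ℝ)) (fun i => (v i : ℝ)) = ((bf s α p v : ℚ) : ℝ) := by
  unfold bf
  push_cast
  rfl

/-- the final step -/
lemma quad_step (s : Finset σ) (α p : σ → ℚ) (u : σ → ℝ)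
    (hu : bf s (fun i => (α i : ℝ)) u u = ((bf s α p p : ℚ) : ℝ))
    (hne : bf s (fun i => (α i : ℝ)) u (fun i => (p i : ℝ)) ≠ ((bf s α p p : ℚ) : ℝ))
    {ε : ℝ} (hε : 0 < ε) :
    ∃ x : σ → ℚ, (∀ i, |(x i : ℝ) - u i| < ε) ∧ bf s α x x = bf s α p p := by
  set A : σ → ℝ := fun i => (α i : ℝ) with hA
  set P : σ → ℝ := fun i => (p i : ℝ) with hP
  have hPP : bf s A P P = ((bf s α p p : ℚ) : ℝ) := bf_cast s α p p
  set v0 : σ → ℝ := fun i => u i + (-1) * P i with hv0
  have hQ0 : bf s A v0 v0 = 2 * (((bf s α p p : ℚ) : ℝ) - bf s A u P) := by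
    rw [hv0, bf_sq, hu, hPP]
    ring
  have hQ0' : bf s A v0 v0 ≠ 0 := by
    rw [hQ0]
    exact mul_ne_zero two_ne_zero (sub_ne_zero.2 hne.symm)
  have hPv : 2 * bf s A P v0 = - bf s A v0 v0 := by
    rw [hQ0, hv0, bf_lin', hPP, bf_comm s A P u]
    ring
  have hc : ∀ w : σ → ℝ, Continuous fun v : σ → ℝ => bf s A w v := by
    intro w
    unfold bf
    fun_prop
  have hc2 : Continuous fun v : σ → ℝ => bf s A v v := by
    unfold bf
    fun_prop
  set F : (σ → ℝ) → σ → ℝ := fun v i => P i + (-(2 * bf s A P v / bf s A v v)) * v i with hF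
  have hF0 : F v0 = u := by
    funext i
    simp only [hF]
    rw [hPv, neg_div, div_self hQ0']
    simp only [hv0]
    ring
  have hFc : ContinuousAt F v0 := by
    refine continuousAt_pi.2 fun i => ?_
    refine continuousAt_const.add (ContinuousAt.mul ?_ (continuous_apply i).continuousAt)
    refine (ContinuousAt.div ?_ hc2.continuousAt hQ0').neg
    exact continuousAt_const.mul (hc P).continuousAt
  have h1 : ∀ᶠ v in 𝓝 v0, dist (F v) u < ε ∧ bf s A v v ≠ 0 := by
    refine Filter.Eventually.and ?_ (hc2.continuousAt.eventually_ne hQ0')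
    rw [ContinuousAt, hF0] at hFc
    exact hFc.eventually (Metric.ball_mem_nhds u hε)
  obtain ⟨_, ⟨v, rfl⟩, hv1, hv2⟩ := dense_rat_vec.inter_nhds_nonempty h1
  have hv2' : bf s α v v ≠ 0 := by
    intro h0
    apply hv2
    rw [hA, bf_cast, h0, Rat.cast_zero]
  refine ⟨fun i => p i + (-(2 * bf s α p v / bf s α v v)) * v i, fun i => ?_, ?_⟩
  · have h2 := (dist_pi_lt_iff hε).1 hv1 i
    rw [Real.dist_eq] at h2
    refine lt_of_eq_of_lt ?_ h2
    congr 1
    congr 1
    simp only [hF, hA, hP]
    rw [bf_cast, bf_cast]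
    push_cast
    ring
  · rw [bf_sq]
    field_simp
    ring

/-- **Rational points are dense on a diagonal quadric with a rational point.** -/
theorem quad_dense (s : Finset σ) (α : σ → ℚ) (γ : ℚ) (p : σ → ℚ)
    (hp : ∑ i ∈ s, α i * p i ^ 2 = γ) (hne : γ ≠ 0 ∨ ∃ i ∈ s, α i ≠ 0 ∧ p i ≠ 0) (u : σ → ℝ)
    (hu : ∑ i ∈ s, (α i : ℝ) * u i ^ 2 = (γ : ℝ)) {ε : ℝ} (hε : 0 < ε) :
    ∃ x : σ → ℚ, (∀ i, |(x i : ℝ) - u i| < ε) ∧ ∑ i ∈ s, α i * x i ^ 2 = γ := by
  classical
  have hpb : bf s α p p = γ := by rw [bf_self]; exact hp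
  have hub : bf s (fun i => (α i : ℝ)) u u = (γ : ℝ) := by rw [bf_self]; exact hu
  have key : ∀ q : σ → ℚ, bf s α q q = γ →
      bf s (fun i => (α i : ℝ)) u (fun i => (q i : ℝ)) ≠ (γ : ℝ) →
      ∃ x : σ → ℚ, (∀ i, |(x i : ℝ) - u i| < ε) ∧ ∑ i ∈ s, α i * x i ^ 2 = γ := by
    intro q hq hqn
    obtain ⟨x, h1, h2⟩ := quad_step s α q u (by rw [hub, hq]) (by rw [hq]; exact hqn) hε
    exact ⟨x, h1, by rw [← bf_self, h2, hq]⟩
  by_cases hγ : γ = 0
  · subst hγ
    have hne' : ∃ i ∈ s, α i ≠ 0 ∧ p i ≠ 0 := by
      rcases hne with h | h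
      · exact absurd rfl h
      · exact h
    obtain ⟨i0, hi0, hα0, hp0⟩ := hne'
    by_cases hz : ∀ i ∈ s, α i ≠ 0 → u i = 0
    · choose q hq using fun i => (show ∃ q : ℚ, |(q : ℝ) - u i| < ε by
        obtain ⟨q, h1, h2⟩ := exists_rat_btwn (show u i < u i + ε by linarith)
        exact ⟨q, by rw [abs_lt]; constructor <;> linarith⟩)
      refine ⟨fun i => if i ∈ s ∧ α i ≠ 0 then 0 else q i, fun i => ?_, ?_⟩
      · by_cases hi : i ∈ s ∧ α i ≠ 0
        · simp only [if_pos hi]
          rw [hz i hi.1 hi.2]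
          simpa using hε
        · simp only [if_neg hi]
          exact hq i
      · refine Finset.sum_eq_zero fun i hi => ?_
        by_cases hα : α i = 0
        · rw [hα, zero_mul]
        · have : i ∈ s ∧ α i ≠ 0 := ⟨hi, hα⟩
          simp only [if_pos this]
          ring
    · push Not at hz
      obtain ⟨i1, hi1, hα1, hu1⟩ := hz
      by_cases hup : bf s (fun i => (α i : ℝ)) u (fun i => (p i : ℝ)) = 0
      · -- reflect the point
        have hex : ∃ v : σ → ℚ, bf s α p v ≠ 0 ∧
            bf s (fun i => (α i : ℝ)) u (fun i => (v i : ℝ)) ≠ 0 ∧ bf s α v v ≠ 0 := by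
          have hB : ∀ (w : σ → ℚ) (a t : ℚ), bf s α w
              (fun k => (if k = i0 then a else 0) + (if k = i1 then t else 0)) =
              a * (α i0 * w i0) + t * (α i1 * w i1) := fun w a t => bf_single s α w hi0 hi1 a t
          have hBR : ∀ (a t : ℚ), bf s (fun i => (α i : ℝ)) u
              (fun k => (((if k = i0 then a else 0) + (if k = i1 then t else 0) : ℚ) : ℝ)) =
              a * (α i0 * u i0) + t * (α i1 * u i1) := by
            intro a t
            rw [← bf_single s (fun i => (α i : ℝ)) u hi0 hi1 (a : ℝ) (t : ℝ)]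
            congr 1
            funext k
            push_cast
            split_ifs <;> simp
          by_cases h1 : u i0 = 0
          · by_cases h2 : p i1 = 0
            · have h01 : i0 ≠ i1 := by
                rintro rfl
                exact hu1 h1
              obtain ⟨t, ht0, ht⟩ : ∃ t : ℚ, t ≠ 0 ∧ α i0 + t ^ 2 * α i1 ≠ 0 := by
                by_cases h3 : α i0 + 1 ^ 2 * α i1 = 0
                · refine ⟨2, two_ne_zero, fun h4 => hα1 ?_⟩
                  linarith
                · exact ⟨1, one_ne_zero, h3⟩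
              refine ⟨fun k => (if k = i0 then 1 else 0) + (if k = i1 then t else 0), ?_, ?_, ?_⟩
              · rw [hB, h2]
                simpa using ⟨hα0, hp0⟩
              · rw [hBR, h1]
                simpa using ⟨ht0, hα1, hu1⟩
              · rw [hB]
                simp only [if_true, if_neg h01, if_neg h01.symm, add_zero, zero_add]
                intro h7
                apply ht
                linear_combination h7
            · refine ⟨fun k => (if k = i0 then 0 else 0) + (if k = i1 then 1 else 0), ?_, ?_, ?_⟩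
              · rw [hB]
                simpa using ⟨hα1, h2⟩
              · rw [hBR]
                simpa using ⟨hα1, hu1⟩
              · rw [hB]
                simpa using hα1
          · refine ⟨fun k => (if k = i0 then 1 else 0) + (if k = i1 then 0 else 0), ?_, ?_, ?_⟩
            · rw [hB]
              simpa using ⟨hα0, hp0⟩
            · rw [hBR]
              simpa using ⟨hα0, h1⟩
            · rw [hB]
              simpa using hα0
        obtain ⟨v, h1, h2, h3⟩ := hex
        refine key (fun i => p i + (-(2 * bf s α p v / bf s α v v)) * v i) ?_ ?_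
        · rw [bf_sq, hpb]
          field_simp
          ring
        · have e : (fun i => ((p i + (-(2 * bf s α p v / bf s α v v)) * v i : ℚ) : ℝ)) =
              fun i => (p i : ℝ) + ((-(2 * bf s α p v / bf s α v v) : ℚ) : ℝ) * (v i : ℝ) := by
            funext i
            push_cast
            ring
          rw [e, bf_lin', hup, zero_add, Rat.cast_zero]
          refine mul_ne_zero ?_ h2
          rw [Rat.cast_ne_zero, neg_ne_zero]
          exact div_ne_zero (mul_ne_zero two_ne_zero h1) h3
      · exact key p hpb (by rw [Rat.cast_zero]; exact hup)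
  · by_cases hup : bf s (fun i => (α i : ℝ)) u (fun i => (p i : ℝ)) = (γ : ℝ)
    · refine key (fun i => 0 + (-1) * p i) ?_ ?_
      · rw [bf_sq s α (fun _ => 0) p, hpb]
        simp [bf]
      · have e : (fun i => ((0 + (-1) * p i : ℚ) : ℝ)) = fun i => (0 : ℝ) + (-1) * (p i : ℝ) := by
          funext i
          push_cast
          ring
        rw [e, bf_lin' s _ (fun _ => 0), hup]
        have h0 : bf s (fun i => (α i : ℝ)) u (fun _ => 0) = 0 := by simp [bf]
        rw [h0]
        intro h
        apply hγ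
        have : (γ : ℝ) = 0 := by linarith
        exact_mod_cast this
    · exact key p hpb hup

end Pool.Agent.NH8.K
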