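import Pool.Agent.NH8.KA
import Pool.Agent.NH8.KQ

/-!
# Systems of diagonal quadrics whose coefficients are monomials in the values of the blocks
-/

set_option autoImplicit false
set_option linter.unusedSectionVars false
set_option linter.unusedVariables false

open Set Filter Topology Pool.Agent.H581R2 Pool.Agent.TH729.SQ Pool.Agent.Y718

namespace Pool.Agent.NH8.K

variable {ι σ β κ : Type} [Fintype ι] [Fintype σ] [Fintype β] [Fintype κ]

/-- monomials -/
def mo {R : Type*} [CommMonoid R] (E : β → ℕ) (d : β → R) : R := ∏ b, d b ^ E b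

lemma mo_mul {R : Type*} [CommMonoid R] (E : β → ℕ) (s d : β → R) :
    mo E (fun b => s b * d b) = mo E s * mo E d := by
  unfold mo
  rw [← Finset.prod_mul_distrib]
  exact Finset.prod_congr rfl fun b _ => mul_pow _ _ _

lemma mo_pow {R : Type*} [CommMonoid R] (E : β → ℕ) (s : β → R) (m : ℕ) :
    mo E (fun b => s b ^ m) = mo E s ^ m := by
  unfold mo
  rw [← Finset.prod_pow]
  exact Finset.prod_congr rfl fun b _ => by rw [← pow_mul, ← pow_mul, mul_comm]

lemma mo_ne {R : Type*} [Field R] (E : β → ℕ) (d : β → R) :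
    mo E d ≠ 0 ↔ ∀ b, d b = 0 → E b = 0 := by
  unfold mo
  rw [Finset.prod_ne_zero_iff]
  constructor
  · intro h b hb
    by_contra hE
    exact h b (Finset.mem_univ b) (by rw [hb, zero_pow hE])
  · intro h b _
    by_cases hb : d b = 0
    · rw [h b hb, pow_zero]
      exact one_ne_zero
    · exact pow_ne_zero _ hb

lemma mo_cast (E : β → ℕ) (d : β → ℚ) : mo E (fun b => (d b : ℝ)) = ((mo E d : ℚ) : ℝ) := by
  unfold mo
  push_cast
  rfl

lemma PF_mo {α : Type} (E : β → ℕ) {g : β → (α → ℝ) → ℝ} (hg : ∀ b, PF (g b)) :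
    PF (fun w => mo E (fun b => g b w)) := by
  unfold mo
  have key : ∀ s : Finset β, PF (fun w => ∏ b ∈ s, g b w ^ E b) := by
    classical
    intro s
    induction s using Finset.induction_on with
    | empty => simpa using PF.one
    | insert b s hb ih =>
      simp only [Finset.prod_insert hb]
      exact ((hg b).pow _).mul ih
  exact key _

variable [DecidableEq κ] (e : σ → κ) (a : σ → ℚ) (E : σ → β → ℕ) (c : κ → ℚ) (E' : κ → β → ℕ)

/-- the equation with the number `j` -/
def Eqn (d : β → ℚ) (x : σ → ℚ) (j : κ) : Prop :=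
  ∑ i with e i = j, a i * mo (E i) d * x i ^ 2 = c j * mo (E' j) d

/-- a solution which is not trivial -/
def Iso (d : β → ℚ) (j : κ) : Prop :=
  ∃ x : σ → ℚ, Eqn e a E c E' d x j ∧
    (c j * mo (E' j) d ≠ 0 ∨ ∃ i, e i = j ∧ a i * mo (E i) d ≠ 0 ∧ x i ≠ 0)

variable {e a E c E'}

lemma Eqn_scale {d : β → ℚ} {x : σ → ℚ} {j : κ} (h : Eqn e a E c E' d x j) {s : β → ℚ}
    (hs : ∀ b, s b ≠ 0) :
    Eqn e a E c E' (fun b => s b ^ 2 * d b) (fun i => x i * (mo (E' j) s / mo (E i) s)) j := by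
  unfold Eqn at h ⊢
  have hne : ∀ F : β → ℕ, mo F s ≠ 0 := fun F => (mo_ne F s).2 fun b hb => absurd hb (hs b)
  rw [mo_mul, mo_pow]
  have : c j * (mo (E' j) s ^ 2 * mo (E' j) d) = mo (E' j) s ^ 2 * (c j * mo (E' j) d) := by ring
  rw [this, ← h, Finset.mul_sum]
  refine Finset.sum_congr rfl fun i _ => ?_
  rw [mo_mul, mo_pow]
  have := hne (E i)
  field_simp

lemma Iso_scale {d : β → ℚ} {j : κ} (h : Iso e a E c E' d j) {s : β → ℚ}
    (hs : ∀ b, s b ≠ 0) : Iso e a E c E' (fun b => s b ^ 2 * d b) j := by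
  obtain ⟨x, hx, h2⟩ := h
  have hne : ∀ F : β → ℕ, mo F s ≠ 0 := fun F => (mo_ne F s).2 fun b hb => absurd hb (hs b)
  refine ⟨_, Eqn_scale hx hs, ?_⟩
  rcases h2 with h2 | ⟨i, hi, h3, h4⟩
  · left
    rw [mo_mul, mo_pow]
    exact mul_ne_zero (left_ne_zero_of_mul h2)
      (mul_ne_zero (pow_ne_zero 2 (hne _)) (right_ne_zero_of_mul h2))
  · right
    refine ⟨i, hi, ?_, mul_ne_zero h4 (div_ne_zero (hne _) (hne _))⟩
    rw [mo_mul, mo_pow]
    exact mul_ne_zero (left_ne_zero_of_mul h3)
      (mul_ne_zero (pow_ne_zero 2 (hne _)) (right_ne_zero_of_mul h3))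

lemma unscale (d : β → ℚ) {s : β → ℚ} (hs : ∀ b, s b ≠ 0) :
    (fun b => (s b)⁻¹ ^ 2 * ((fun b => s b ^ 2 * d b) b)) = d := by
  funext b
  have := hs b
  field_simp

lemma Iso_scale_iff {d : β → ℚ} {j : κ} {s : β → ℚ} (hs : ∀ b, s b ≠ 0) :
    Iso e a E c E' (fun b => s b ^ 2 * d b) j ↔ Iso e a E c E' d j := by
  constructor
  · intro h
    have h1 := Iso_scale h (s := fun b => (s b)⁻¹) fun b => inv_ne_zero (hs b)
    rwa [unscale d hs] at h1
  · intro h
    exact Iso_scale h hs

variable (e a E c E')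

/-- the classes with given zeros and given nontrivial equations -/
def Dz (Z : Set β) (J : Set κ) : Set (β → ℚ) :=
  {d | (∀ b, d b = 0 ↔ b ∈ Z) ∧ ∀ j, (j ∈ J ↔ Iso e a E c E' d j) ∧ ∃ x, Eqn e a E c E' d x j}

lemma Dz_Stb (Z : Set β) (J : Set κ) : Stb (fun _ => 2) (Dz e a E c E' Z J) := by
  intro d hd s hs
  refine ⟨fun b => ?_, fun j => ⟨?_, ?_⟩⟩
  · rw [← hd.1 b]
    constructor
    · intro h
      rcases mul_eq_zero.1 h with h | h
      · exact absurd h (pow_ne_zero 2 (hs b))
      · exact h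
    · intro h
      show s b ^ 2 * d b = 0
      rw [h, mul_zero]
  · rw [(hd.2 j).1]
    exact (Iso_scale_iff hs).symm
  · obtain ⟨x, hx⟩ := (hd.2 j).2
    exact ⟨_, Eqn_scale hx hs⟩

/-- the system over a set of parameters -/
def Sy (f : β → MvPolynomial ι ℚ) (A : Set (ι → ℚ)) : Set (ι ⊕ σ → ℚ) :=
  {w | (fun i => w (Sum.inl i)) ∈ A ∧
    ∀ j, Eqn e a E c E' (fun b => MvPolynomial.eval (fun i => w (Sum.inl i)) (f b))
      (fun i => w (Sum.inr i)) j}

/-- the real points of one type -/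
def Yr (f : β → MvPolynomial ι ℚ) (A : Set (ι → ℚ)) (Z : Set β) (J : Set κ) :
    Set (ι ⊕ σ → ℝ) :=
  {w | (fun i => w (Sum.inl i)) ∈ closure (rl A) ∧
    (∀ b, (MvPolynomial.aeval (fun i => w (Sum.inl i)) (f b) : ℝ) = 0 ↔ b ∈ Z) ∧
    (∀ j, j ∈ J → ∑ i with e i = j, (a i : ℝ) *
        mo (E i) (fun b => (MvPolynomial.aeval (fun i => w (Sum.inl i)) (f b) : ℝ)) *
        w (Sum.inr i) ^ 2 =
      (c j : ℝ) * mo (E' j) (fun b => (MvPolynomial.aeval (fun i => w (Sum.inl i)) (f b) : ℝ))) ∧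
    ∀ i, e i ∉ J → a i ≠ 0 → (∀ b ∈ Z, E i b = 0) → w (Sum.inr i) = 0}

lemma Yr_SA {f : β → MvPolynomial ι ℚ} {A : Set (ι → ℚ)} (hA : SA (closure (rl A)))
    (Z : Set β) (J : Set κ) : SA (Yr e a E c E' f A Z J) := by
  have hf : ∀ b, PF (fun w : ι ⊕ σ → ℝ =>
      (MvPolynomial.aeval (fun i => w (Sum.inl i)) (f b) : ℝ)) := fun b =>
    PF.comp (PF.aeval (f b)) (φ := fun (w : ι ⊕ σ → ℝ) i => w (Sum.inl i)) (fun i => PF.coord _)
  refine SAP.and ?_ (SAP.and ?_ (SAP.and ?_ ?_))
  · exact SAP.preimage (p := fun v => v ∈ closure (rl A)) hA (fun i => PF.coord _)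
  · exact SAP.forall_fin fun b => SAP.iff (SAP.eq_zero (hf b)) (SAP.const _)
  · refine SAP.forall_fin fun j => SAP.imp (SAP.const _) (SAP.eq ?_ ?_)
    · exact PF.sum _ fun i _ => ((PF.const (a i)).mul (PF_mo (E i) hf)).mul ((PF.coord _).pow 2)
    · exact (PF.const (c j)).mul (PF_mo (E' j) hf)
  · exact SAP.forall_fin fun i => SAP.imp (SAP.const _) (SAP.imp (SAP.const _)
      (SAP.imp (SAP.const _) (SAP.eq_zero (PF.coord _))))

/-- **The closure of the set of the rational points of one type.** -/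
theorem Sy_closure {f : β → MvPolynomial ι ℚ} {A : Set (ι → ℚ)} {Z : Set β} {J : Set κ}
    (hA : ∀ z ∈ A, (fun b => MvPolynomial.eval z (f b)) ∈ Dz e a E c E' Z J) :
    closure (rl (Sy e a E c E' f A)) = closure (Yr e a E c E' f A Z J) := by
  classical
  apply Subset.antisymm
  · apply closure_mono
    rintro _ ⟨w, ⟨hwA, hwE⟩, rfl⟩
    obtain ⟨hZ, hJ⟩ := hA _ hwA
    have hev : ∀ b, (MvPolynomial.aeval (fun i => ((w (Sum.inl i) : ℚ) : ℝ)) (f b) : ℝ) =
        ((MvPolynomial.eval (fun i => w (Sum.inl i)) (f b) : ℚ) : ℝ) := fun b =>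
      Pool.Agent.TH729.SQ.aeval_cast _ _
    refine ⟨subset_closure ⟨_, hwA, rfl⟩, fun b => ?_, fun j _ => ?_, fun i hi ha hE => ?_⟩
    · rw [hev b, ← hZ b]
      exact Rat.cast_eq_zero
    · simp only [hev]
      have h1 := hwE j
      unfold Eqn at h1
      simp only [mo_cast]
      exact_mod_cast h1
    · by_contra hne
      apply hi
      rw [(hJ (e i)).1]
      refine ⟨_, hwE (e i), Or.inr ⟨i, rfl, mul_ne_zero ha ((mo_ne _ _).2 fun b hb => ?_), ?_⟩⟩
      · exact hE b ((hZ b).1 hb)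
      · intro h0
        apply hne
        show ((w (Sum.inr i) : ℚ) : ℝ) = 0
        rw [h0, Rat.cast_zero]
  · refine closure_minimal ?_ isClosed_closure
    rintro w ⟨hwc, hwZ, hwJ, hwN⟩
    rw [Metric.mem_closure_iff]
    intro ε hε
    set x : ι → ℝ := fun i => w (Sum.inl i) with hx
    set u : σ → ℝ := fun i => w (Sum.inr i) with hu
    set dv : (ι → ℝ) → β → ℝ := fun x' b => MvPolynomial.aeval x' (f b) with hdv
    set τ : κ → (β → ℝ) → ℝ := fun j d' =>
      if mo (E' j) (dv x) = 0 then 1 else mo (E' j) d' / mo (E' j) (dv x) with hτ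
    set ρ : σ → (β → ℝ) → ℝ := fun i d' =>
      if mo (E i) (dv x) = 0 then 1 else (mo (E i) (dv x) / mo (E i) d') * τ (e i) d' with hρ
    have hdvc : Continuous dv := continuous_pi fun b => continuous_aeval (f b)
    have hmoc : ∀ F : β → ℕ, Continuous fun x' => mo F (dv x') := by
      intro F
      unfold mo
      exact continuous_finsetProd _ fun b _ => ((continuous_apply b).comp hdvc).pow _
    have hτc : ∀ j, ContinuousAt (fun x' => τ j (dv x')) x := by
      intro j
      by_cases h0 : mo (E' j) (dv x) = 0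
      · simp only [hτ, if_pos h0]
        exact continuousAt_const
      · simp only [hτ, if_neg h0]
        exact (hmoc _).continuousAt.div_const _
    have hτ1 : ∀ j, τ j (dv x) = 1 := by
      intro j
      by_cases h0 : mo (E' j) (dv x) = 0
      · simp only [hτ, if_pos h0]
      · simp only [hτ, if_neg h0]
        exact div_self h0
    have hρc : ∀ i, ContinuousAt (fun x' => ρ i (dv x')) x := by
      intro i
      by_cases h0 : mo (E i) (dv x) = 0
      · simp only [hρ, if_pos h0]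
        exact continuousAt_const
      · simp only [hρ, if_neg h0]
        exact (continuousAt_const.div (hmoc _).continuousAt h0).mul (hτc _)
    have hρ1 : ∀ i, ρ i (dv x) = 1 := by
      intro i
      by_cases h0 : mo (E i) (dv x) = 0
      · simp only [hρ, if_pos h0]
      · simp only [hρ, if_neg h0, hτ1, mul_one]
        exact div_self h0
    have hev1 : ∀ᶠ x' in 𝓝 x, ∀ i, 0 < ρ i (dv x') ∧
        |u i * Real.sqrt (ρ i (dv x')) - u i| < ε / 2 := by
      rw [Filter.eventually_all]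
      intro i
      refine Filter.Eventually.and ?_ ?_
      · refine (hρc i).eventually_const_lt ?_
        show 0 < ρ i (dv x)
        rw [hρ1]
        exact one_pos
      · have h2 : ContinuousAt (fun x' => |u i * Real.sqrt (ρ i (dv x')) - u i|) x :=
          ((continuousAt_const.mul (Real.continuous_sqrt.continuousAt.comp (hρc i))).sub
            continuousAt_const).abs
        refine h2.eventually_lt_const ?_
        show |u i * Real.sqrt (ρ i (dv x)) - u i| < ε / 2
        rw [hρ1, Real.sqrt_one, mul_one, sub_self, abs_zero]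
        positivity
    have hev2 : ∀ᶠ x' in 𝓝 x, dist x' x < ε / 2 := Metric.ball_mem_nhds x (by positivity)
    obtain ⟨_, ⟨hz1, hz2⟩, z, hzA, rfl⟩ := mem_closure_iff_nhds.1 hwc _ (hev1.and hev2)
    obtain ⟨hZ, hJ⟩ := hA z hzA
    set d : β → ℚ := fun b => MvPolynomial.eval z (f b) with hd
    have hdd : dv (fun i => (z i : ℝ)) = fun b => (d b : ℝ) := by
      funext b
      exact Pool.Agent.TH729.SQ.aeval_cast z (f b)
    rw [hdd] at hz1
    -- the patterns of zeros are the same
    have hpat : ∀ F : β → ℕ, mo F (dv x) = 0 ↔ mo F d = 0 := by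
      intro F
      rw [← not_iff_not]
      show mo F (dv x) ≠ 0 ↔ mo F d ≠ 0
      rw [mo_ne, mo_ne]
      refine forall_congr' fun b => ?_
      rw [show dv x b = 0 ↔ b ∈ Z from hwZ b, ← hZ b]
    have hpatR : ∀ F : β → ℕ, mo F (fun b => (d b : ℝ)) = 0 ↔ mo F d = 0 := by
      intro F
      rw [mo_cast]
      exact Rat.cast_eq_zero
    set u' : σ → ℝ := fun i => u i * Real.sqrt (ρ i (fun b => (d b : ℝ))) with hu'
    have hterm : ∀ i, mo (E i) (fun b => (d b : ℝ)) * u' i ^ 2 =
        mo (E i) (dv x) * u i ^ 2 * τ (e i) (fun b => (d b : ℝ)) := by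
      intro i
      have h1 : u' i ^ 2 = u i ^ 2 * ρ i (fun b => (d b : ℝ)) := by
        simp only [hu', mul_pow, Real.sq_sqrt (hz1 i).1.le]
      rw [h1]
      by_cases h0 : mo (E i) (dv x) = 0
      · have h2 := (hpatR (E i)).2 ((hpat (E i)).1 h0)
        rw [h2, h0]
        ring
      · have h2 : mo (E i) (fun b => (d b : ℝ)) ≠ 0 := fun h => h0 ((hpat _).2 ((hpatR _).1 h))
        simp only [hρ, if_neg h0]
        field_simp
    have hsum : ∀ j ∈ J, ∑ i with e i = j, ((a i * mo (E i) d : ℚ) : ℝ) * u' i ^ 2 =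
        ((c j * mo (E' j) d : ℚ) : ℝ) := by
      intro j hj
      have h1 := hwJ j hj
      have h2 : ∑ i with e i = j, ((a i * mo (E i) d : ℚ) : ℝ) * u' i ^ 2 =
          (∑ i with e i = j, (a i : ℝ) * mo (E i) (dv x) * u i ^ 2) *
            τ j (fun b => (d b : ℝ)) := by
        rw [Finset.sum_mul]
        refine Finset.sum_congr rfl fun i hi => ?_
        rw [Finset.mem_filter] at hi
        rw [Rat.cast_mul, ← mo_cast, mul_assoc, hterm i, hi.2]
        ring
      rw [h2, h1, Rat.cast_mul, ← mo_cast]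
      by_cases h0 : mo (E' j) (dv x) = 0
      · have h3 := (hpatR (E' j)).2 ((hpat (E' j)).1 h0)
        rw [h3]
        have h4 : mo (E' j) (fun b => (MvPolynomial.aeval (fun i => w (Sum.inl i)) (f b) : ℝ)) = 0 :=
          h0
        rw [h4]
        ring
      · simp only [hτ, if_neg h0]
        have h4 : mo (E' j) (fun b => (MvPolynomial.aeval (fun i => w (Sum.inl i)) (f b) : ℝ)) =
            mo (E' j) (dv x) := rfl
        rw [h4]
        field_simp
    have hε2 : 0 < ε / 2 := by positivity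
    have hsol : ∀ j, ∃ X : σ → ℚ, j ∈ J → (∀ i, |(X i : ℝ) - u' i| < ε / 2) ∧
        ∑ i with e i = j, a i * mo (E i) d * X i ^ 2 = c j * mo (E' j) d := by
      intro j
      by_cases hj : j ∈ J
      · obtain ⟨p, hp, hp2⟩ := (hJ j).1.1 hj
        obtain ⟨X, h1, h2⟩ := quad_dense (Finset.univ.filter fun i => e i = j)
          (fun i => a i * mo (E i) d) (c j * mo (E' j) d) p hp (by
            rcases hp2 with h | ⟨i, hi, h1, h2⟩
            · exact Or.inl h
            · exact Or.inr ⟨i, Finset.mem_filter.2 ⟨Finset.mem_univ i, hi⟩, h1, h2⟩) u'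
          (hsum j hj) hε2
        exact ⟨X, fun _ => ⟨h1, h2⟩⟩
      · exact ⟨0, fun h => absurd h hj⟩
    choose X hX using hsol
    choose q hq using fun i => exists_rat_near (u i) ε hε
    set W : ι ⊕ σ → ℚ := Sum.elim z (fun i => if e i ∈ J then X (e i) i else
      if a i * mo (E i) d ≠ 0 then 0 else q i) with hW
    have hWl : (fun i => W (Sum.inl i)) = z := by
      funext i
      simp only [hW, Sum.elim_inl]
    refine ⟨fun i => (W i : ℝ), ⟨W, ⟨?_, fun j => ?_⟩, rfl⟩, ?_⟩
    · rw [hWl]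
      exact hzA
    · rw [hWl]
      show ∑ i with e i = j, a i * mo (E i) d * W (Sum.inr i) ^ 2 = c j * mo (E' j) d
      by_cases hj : j ∈ J
      · rw [← (hX j hj).2]
        refine Finset.sum_congr rfl fun i hi => ?_
        rw [Finset.mem_filter] at hi
        simp only [hW, Sum.elim_inr, hi.2, if_pos hj]
      · have hni : ¬ Iso e a E c E' d j := fun h => hj ((hJ j).1.2 h)
        obtain ⟨p, hp⟩ := (hJ j).2
        have h0 : c j * mo (E' j) d = 0 := by
          by_contra h
          exact hni ⟨p, hp, Or.inl h⟩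
        rw [h0]
        refine Finset.sum_eq_zero fun i hi => ?_
        rw [Finset.mem_filter] at hi
        by_cases h1 : a i * mo (E i) d = 0
        · rw [h1, zero_mul]
        · simp only [hW, Sum.elim_inr, hi.2, if_neg hj, if_pos (show a i * mo (E i) d ≠ 0 from h1)]
          ring
    · rw [dist_comm, dist_pi_lt_iff hε]
      rintro (i | i)
      · have h1 := (dist_pi_lt_iff hε2).1 hz2 i
        simp only [hW, Sum.elim_inl]
        exact lt_trans h1 (by linarith)
      · rw [Real.dist_eq]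
        by_cases hj : e i ∈ J
        · simp only [hW, Sum.elim_inr, if_pos hj]
          have h1 := (hX (e i) hj).1 i
          have h2 := (hz1 i).2
          have h3 : (X (e i) i : ℝ) - w (Sum.inr i) = ((X (e i) i : ℝ) - u' i) +
              (u' i - u i) := by
            simp only [hu]
            ring
          rw [h3]
          refine lt_of_le_of_lt (abs_add_le _ _) ?_
          have h4 : |u' i - u i| < ε / 2 := h2
          linarith
        · by_cases h1 : a i * mo (E i) d = 0
          · simp only [hW, Sum.elim_inr, if_neg hj, if_neg (not_not.2 h1)]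
            exact hq i
          · simp only [hW, Sum.elim_inr, if_neg hj, if_pos (show a i * mo (E i) d ≠ 0 from h1)]
            have h2 := hwN i hj (left_ne_zero_of_mul h1) fun b hb =>
              (mo_ne _ _).1 (right_ne_zero_of_mul h1) b ((hZ b).2 hb)
            rw [h2, Rat.cast_zero, sub_self, abs_zero]
            exact hε

/-- **The closure of the set of the rational points of the system.** -/
theorem Sy_SA {V : β → Finset ι} {f : β → MvPolynomial ι ℚ} {Q : β → Set (ι → ℚ)}
    {D : Set (β → ℚ)} (hd : ∀ b c, b ≠ c → Disjoint (V b) (V c))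
    (h : ∀ b, Blk (V b) 2 (f b) (Q b)) (hD : Stb (fun _ => 2) D) :
    SA (closure (rl (Sy e a E c E' f (As f Q D)))) := by
  classical
  have e1 : Sy e a E c E' f (As f Q D) = ⋃ s ∈ (Set.univ : Set (Set β × Set κ)),
      Sy e a E c E' f (As f Q (D ∩ Dz e a E c E' s.1 s.2)) := by
    ext w
    simp only [Set.mem_iUnion, Set.mem_univ, exists_true_left]
    constructor
    · rintro ⟨⟨hwQ, hwD⟩, hwE⟩
      refine ⟨⟨{b | MvPolynomial.eval (fun i => w (Sum.inl i)) (f b) = 0}, {j | Iso e a E c E'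
        (fun b => MvPolynomial.eval (fun i => w (Sum.inl i)) (f b)) j}⟩,
        ⟨hwQ, hwD, fun b => Iff.rfl, fun j => ⟨Iff.rfl, _, hwE j⟩⟩, hwE⟩
    · rintro ⟨s, ⟨hwQ, hwD, -⟩, hwE⟩
      exact ⟨⟨hwQ, hwD⟩, hwE⟩
  rw [e1]
  refine biUnion_SA (Set.toFinite _) fun s _ => ?_
  rw [Sy_closure e a E c E' (Z := s.1) (J := s.2) (fun z hz => hz.2.2)]
  refine Pool.Agent.TH729.SQ.SA.closure (Yr_SA e a E c E' (blk_SA hd h ?_) s.1 s.2)
  intro d hd' t ht
  exact ⟨hD d hd'.1 t ht, Dz_Stb e a E c E' s.1 s.2 d hd'.2 t ht⟩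

end Pool.Agent.NH8.K
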