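import Pool.Agent.NH8.CL
import Pool.Agent.NH8.KD

/-!
# Systems `g_j(x_j) = c_j ∏_b f_b(z_b)^{E_jb}` with forms `g_j`
-/

set_option autoImplicit false
set_option linter.unusedSectionVars false
set_option linter.unusedVariables false
set_option linter.unusedSimpArgs false
set_option linter.deprecated false

open Set Filter Topology Pool.Agent.H581R2 Pool.Agent.TH729.SQ Pool.Agent.Y718 Pool.Agent.NH8.K

namespace Pool.Agent.NH8.C

/-! ### Blocks and injective maps of the index sets -/

section ren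

variable {ι τ : Type} [Fintype ι] [Fintype τ] {V : Finset ι} {m : ℕ} {f : MvPolynomial ι ℚ}

lemma Piece_rename (g : ι ↪ τ) {P : Set (ι → ℚ)} {O : Set (ι → ℝ)} (h : Piece V m f P O) :
    Piece (V.map g) m (MvPolynomial.rename g f) {z | (fun i => z (g i)) ∈ P}
      {x | (fun i => x (g i)) ∈ O} where
  vars := by
    classical
    intro i hi
    obtain ⟨j, hj, rfl⟩ := Finset.mem_image.1 (MvPolynomial.vars_rename g f hi)
    exact Finset.mem_map_of_mem g (h.vars hj)
  cyl := fun z z' hz hzz => h.cyl _ _ hz fun i hi => hzz (g i) (Finset.mem_map_of_mem g hi)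
  sa := SAP.preimage (p := fun v => v ∈ O) h.sa fun i => PF.coord _
  sub := fun z hz => h.sub _ hz
  move := by
    classical
    intro x hx
    obtain ⟨r, hr, hm⟩ := h.move _ hx
    refine ⟨r, hr, fun z hz hzx y hy hyx ε hε => ?_⟩
    have hd : ∀ u v : τ → ℝ, dist (fun i => u (g i)) (fun i => v (g i)) ≤ dist u v := fun u v =>
      (dist_pi_le_iff dist_nonneg).2 fun i => dist_le_pi_dist u v _
    obtain ⟨z', hz', h1, h2, s, hs, hst⟩ := hm _ hz
      (lt_of_le_of_lt (hd (fun i => (z i : ℝ)) x) hzx) _ hy (lt_of_le_of_lt (hd y x) hyx) ε hε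
    set w : τ → ℚ := fun i => if hi : ∃ a, g a = i then z' hi.choose else z i with hw
    have hwg : ∀ a, w (g a) = z' a := by
      intro a
      simp only [hw]
      rw [dif_pos ⟨a, rfl⟩]
      congr 1
      exact g.injective (Exists.choose_spec (⟨a, rfl⟩ : ∃ b, g b = g a))
    refine ⟨w, ?_, fun i hi => ?_, fun i hi => ?_, s, hs, ?_⟩
    · show (fun i => w (g i)) ∈ P
      rw [show (fun i => w (g i)) = z' from funext hwg]
      exact hz'
    · by_cases hg : ∃ a, g a = i
      · obtain ⟨a, rfl⟩ := hg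
        rw [hwg]
        exact h1 a fun ha => hi (Finset.mem_map_of_mem g ha)
      · simp only [hw]
        rw [dif_neg hg]
    · obtain ⟨a, ha, rfl⟩ := Finset.mem_map.1 hi
      rw [hwg]
      exact h2 a ha
    · rw [MvPolynomial.eval_rename, MvPolynomial.eval_rename]
      rw [show w ∘ g = z' from funext hwg]
      exact hst

lemma Blk_rename (g : ι ↪ τ) (h : Blk V m f univ) :
    Blk (V.map g) m (MvPolynomial.rename g f) univ := by
  obtain ⟨k, P, O, h1, h2⟩ := h
  refine ⟨k, fun i => {z | (fun a => z (g a)) ∈ P i}, fun i => {x | (fun a => x (g a)) ∈ O i},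
    fun z => ?_, fun i => Piece_rename g (h2 i)⟩
  exact ⟨fun _ => (h1 _).1 (mem_univ _), fun _ => mem_univ _⟩

end ren

/-! ### Forms -/

lemma eval_form {σ : Type} {g : MvPolynomial σ ℚ} {k : ℕ} (hg : g.IsHomogeneous k) (t : ℚ)
    (x : σ → ℚ) : MvPolynomial.eval (fun i => t * x i) g = t ^ k * MvPolynomial.eval x g := by
  rw [MvPolynomial.eval_eq, MvPolynomial.eval_eq, Finset.mul_sum]
  refine Finset.sum_congr rfl fun d hd => ?_
  have h1 : d.degree = k := by
    by_contra h
    exact (MvPolynomial.mem_support_iff.1 hd) (hg.coeff_eq_zero h)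
  have h2 : ∏ i ∈ d.support, (t * x i) ^ d i = t ^ k * ∏ i ∈ d.support, x i ^ d i := by
    rw [← h1, Finsupp.degree_apply, ← Finset.prod_pow_eq_pow_sum, ← Finset.prod_mul_distrib]
    exact Finset.prod_congr rfl fun i _ => mul_pow _ _ _
  rw [h2]
  ring

/-! ### The system -/

variable {ι σ β κ : Type} [Fintype ι] [Fintype σ] [Fintype β] [Fintype κ] [DecidableEq κ]

/-- all polynomials -/
noncomputable def Fa (f : β → MvPolynomial ι ℚ) (g : κ → MvPolynomial σ ℚ) :
    β ⊕ κ → MvPolynomial (ι ⊕ σ) ℚ :=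
  Sum.elim (fun b => MvPolynomial.rename Sum.inl (f b)) (fun j => MvPolynomial.rename Sum.inr (g j))

/-- the classes -/
def Dc (D : Set (β → ℚ)) (k : κ → ℕ) (c : κ → ℚ) (E : κ → β → ℕ) (Z : Set β) : Set (β ⊕ κ → ℚ) :=
  {d | (fun b => d (Sum.inl b)) ∈ D ∧ (∀ b, d (Sum.inl b) = 0 ↔ b ∈ Z) ∧ ∀ j, ∃ s : ℚ, s ≠ 0 ∧
    d (Sum.inr j) = s ^ k j * (c j * mo (E j) (fun b => d (Sum.inl b)))}

lemma Dc_Stb {D : Set (β → ℚ)} {m : β → ℕ} (hD : Stb m D) {k : κ → ℕ} {c : κ → ℚ}
    {E : κ → β → ℕ} (hE : ∀ j b, k j ∣ m b * E j b) (Z : Set β) :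
    Stb (Sum.elim m k) (Dc D k c E Z) := by
  rintro d ⟨h1, h2, h3⟩ t ht
  refine ⟨hD _ h1 (fun b => t (Sum.inl b)) fun b => ht _, fun b => ?_, fun j => ?_⟩
  · rw [← h2 b]
    show t (Sum.inl b) ^ m b * d (Sum.inl b) = 0 ↔ _
    constructor
    · intro h
      rcases mul_eq_zero.1 h with h | h
      · exact absurd h (pow_ne_zero _ (ht _))
      · exact h
    · intro h
      rw [h, mul_zero]
  · obtain ⟨s, hs, hst⟩ := h3 j
    choose a ha using hE j
    have hT : mo a (fun b => t (Sum.inl b)) ≠ 0 := (mo_ne _ _).2 fun b hb => absurd hb (ht _)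
    refine ⟨t (Sum.inr j) * s / mo a (fun b => t (Sum.inl b)), div_ne_zero (mul_ne_zero (ht _) hs) hT,
      ?_⟩
    show t (Sum.inr j) ^ k j * d (Sum.inr j) = _ * (c j * mo (E j) (fun b =>
      t (Sum.inl b) ^ m b * d (Sum.inl b)))
    rw [mo_mul, hst]
    have h4 : mo (E j) (fun b => t (Sum.inl b) ^ m b) = mo a (fun b => t (Sum.inl b)) ^ k j := by
      unfold mo
      rw [← Finset.prod_pow]
      refine Finset.prod_congr rfl fun b _ => ?_
      rw [← pow_mul, ← pow_mul, ha b, mul_comm]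
    rw [h4, div_pow, mul_pow]
    have := pow_ne_zero (k j) hT
    field_simp

/-- the rational points -/
def Sx (f : β → MvPolynomial ι ℚ) (g : κ → MvPolynomial σ ℚ) (c : κ → ℚ) (E : κ → β → ℕ)
    (D : Set (β → ℚ)) : Set (ι ⊕ σ → ℚ) :=
  {w | (fun b => MvPolynomial.eval (fun i => w (Sum.inl i)) (f b)) ∈ D ∧
    ∀ j, MvPolynomial.eval (fun i => w (Sum.inr i)) (g j) =
      c j * mo (E j) (fun b => MvPolynomial.eval (fun i => w (Sum.inl i)) (f b))}

/-- the real points -/
def Yx (F : β ⊕ κ → MvPolynomial (ι ⊕ σ) ℚ) (c : κ → ℚ) (E : κ → β → ℕ) (Z : Set β)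
    (A : Set (ι ⊕ σ → ℚ)) : Set (ι ⊕ σ → ℝ) :=
  {w | w ∈ closure (rl A) ∧ ∀ j, (c j ≠ 0 ∧ ∀ b ∈ Z, E j b = 0) →
    (MvPolynomial.aeval w (F (Sum.inr j)) : ℝ) =
      (c j : ℝ) * mo (E j) (fun b => (MvPolynomial.aeval w (F (Sum.inl b)) : ℝ)) ∧
    (MvPolynomial.aeval w (F (Sum.inr j)) : ℝ) ≠ 0}

lemma Yx_SA {F : β ⊕ κ → MvPolynomial (ι ⊕ σ) ℚ} (c : κ → ℚ) (E : κ → β → ℕ) (Z : Set β)
    {A : Set (ι ⊕ σ → ℚ)} (hA : SA (closure (rl A))) : SA (Yx F c E Z A) := by
  refine SAP.and hA (SAP.forall_fin fun j => SAP.imp (SAP.const _) (SAP.and ?_ ?_))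
  · exact SAP.eq (PF.aeval _) ((PF.const (c j)).mul (PF_mo (E j) fun b => PF.aeval _))
  · exact (SAP.eq_zero (PF.aeval _)).not

/-- **The closure for one pattern of zeros.** -/
theorem Sx_closure {f : β → MvPolynomial ι ℚ} {g : κ → MvPolynomial σ ℚ} {e : σ → κ}
    (hv : ∀ j, ∀ i ∈ (g j).vars, e i = j) {k : κ → ℕ} (hk : ∀ j, k j ≠ 0)
    (hg : ∀ j, (g j).IsHomogeneous (k j)) {c : κ → ℚ} {E : κ → β → ℕ} {D : Set (β → ℚ)}
    {Z : Set β} : closure (rl {w | w ∈ Sx f g c E D ∧
        ∀ b, MvPolynomial.eval (fun i => w (Sum.inl i)) (f b) = 0 ↔ b ∈ Z}) =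
      closure (Yx (Fa f g) c E Z (As (Fa f g) (fun _ => univ) (Dc D k c E Z))) := by
  classical
  have evl : ∀ (w : ι ⊕ σ → ℚ) b, MvPolynomial.eval w (Fa f g (Sum.inl b)) =
      MvPolynomial.eval (fun i => w (Sum.inl i)) (f b) := by
    intro w b
    show MvPolynomial.eval w (MvPolynomial.rename Sum.inl (f b)) = _
    rw [MvPolynomial.eval_rename]
    rfl
  have evr : ∀ (w : ι ⊕ σ → ℚ) j, MvPolynomial.eval w (Fa f g (Sum.inr j)) =
      MvPolynomial.eval (fun i => w (Sum.inr i)) (g j) := by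
    intro w j
    show MvPolynomial.eval w (MvPolynomial.rename Sum.inr (g j)) = _
    rw [MvPolynomial.eval_rename]
    rfl
  apply Subset.antisymm
  · apply closure_mono
    rintro _ ⟨w, ⟨⟨hwD, hwE⟩, hwZ⟩, rfl⟩
    refine ⟨subset_closure ⟨w, ⟨fun _ => mem_univ _, ?_, ?_, ?_⟩, rfl⟩, ?_⟩
    · simp only [evl]
      exact hwD
    · intro b
      rw [← hwZ b, ← evl]
    · intro j
      refine ⟨1, one_ne_zero, ?_⟩
      simp only [evl, evr]
      rw [hwE j]
      ring
    · rintro j ⟨hc, hj⟩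
      simp only [Pool.Agent.TH729.SQ.aeval_cast, evl, evr, mo_cast]
      rw [hwE j]
      refine ⟨by push_cast; rfl, ?_⟩
      have h1 : mo (E j) (fun b => MvPolynomial.eval (fun i => w (Sum.inl i)) (f b)) ≠ 0 :=
        (mo_ne _ _).2 fun b hb => hj b ((hwZ b).1 hb)
      exact_mod_cast mul_ne_zero hc h1
  · refine closure_minimal ?_ isClosed_closure
    rintro w ⟨hwc, hwT⟩
    rw [Metric.mem_closure_iff]
    intro ε hε
    set T : κ → Prop := fun j => c j ≠ 0 ∧ ∀ b ∈ Z, E j b = 0 with hT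
    set R : κ → (ι ⊕ σ → ℝ) → ℝ := fun j v => (MvPolynomial.aeval v (Fa f g (Sum.inr j)) : ℝ) /
      ((c j : ℝ) * mo (E j) (fun b => (MvPolynomial.aeval v (Fa f g (Sum.inl b)) : ℝ))) with hR
    have hRw : ∀ j, T j → R j w = 1 := by
      intro j hj
      obtain ⟨h1, h2⟩ := hwT j hj
      simp only [hR]
      rw [← h1, div_self h2]
    have hRc : ∀ j, T j → ContinuousAt (R j) w := by
      intro j hj
      obtain ⟨h1, h2⟩ := hwT j hj
      refine ContinuousAt.div (continuous_aeval _).continuousAt ?_ ?_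
      · refine continuousAt_const.mul (Continuous.continuousAt ?_)
        unfold mo
        exact continuous_finsetProd _ fun b _ => (continuous_aeval _).pow _
      · rw [← h1]
        exact h2
    set Ψ : (ι ⊕ σ → ℝ) → (ι ⊕ σ → ℝ) := fun v => Sum.elim (fun i => v (Sum.inl i))
      (fun i => if T (e i) then v (Sum.inr i) / (R (e i) v) ^ ((k (e i) : ℝ)⁻¹) else v (Sum.inr i))
      with hΨ
    have hΨw : Ψ w = w := by
      funext s
      rcases s with i | i
      · rfl
      · simp only [hΨ, Sum.elim_inr]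
        split_ifs with h
        · rw [hRw _ h, Real.one_rpow, div_one]
        · rfl
    have hΨc : ContinuousAt Ψ w := by
      refine continuousAt_pi.2 fun s => ?_
      rcases s with i | i
      · exact (continuous_apply _).continuousAt
      · simp only [hΨ, Sum.elim_inr]
        by_cases h : T (e i)
        · simp only [if_pos h]
          refine (continuous_apply _).continuousAt.div
            ((hRc _ h).rpow_const (Or.inl (by rw [hRw _ h]; exact one_ne_zero))) ?_
          rw [hRw _ h, Real.one_rpow]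
          exact one_ne_zero
        · simp only [if_neg h]
          exact (continuous_apply _).continuousAt
    have hev1 : ∀ᶠ v in 𝓝 w, dist (Ψ v) w < ε := by
      have h1 := hΨc
      unfold ContinuousAt at h1
      rw [hΨw] at h1
      exact h1.eventually (Metric.ball_mem_nhds w hε)
    have hev2 : ∀ᶠ v in 𝓝 w, ∀ j, T j → 0 < R j v := by
      rw [Filter.eventually_all]
      intro j
      by_cases hj : T j
      · have h1 : 0 < R j w := by
          rw [hRw j hj]
          exact one_pos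
        have := (hRc j hj).eventually_const_lt h1
        filter_upwards [this] with v hv _ using hv
      · exact Filter.Eventually.of_forall fun v h => absurd h hj
    obtain ⟨_, ⟨hz1, hz2⟩, z, ⟨-, hzD, hzZ, hzE⟩, rfl⟩ :=
      mem_closure_iff_nhds.1 hwc _ (hev1.and hev2)
    simp only [evl, evr] at hzD hzZ hzE
    choose s hs hst using hzE
    set d : β → ℚ := fun b => MvPolynomial.eval (fun i => z (Sum.inl i)) (f b) with hd
    -- the value of `R`
    have hRz : ∀ j, T j → R j (fun i => (z i : ℝ)) = ((s j ^ k j : ℚ) : ℝ) := by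
      intro j hj
      have h1 : c j * mo (E j) d ≠ 0 := mul_ne_zero hj.1 ((mo_ne _ _).2 fun b hb =>
        hj.2 b ((hzZ b).1 hb))
      have h2 : ((c j : ℝ) * mo (E j) (fun b => (MvPolynomial.aeval (fun i => (z i : ℝ))
          (Fa f g (Sum.inl b)) : ℝ))) = ((c j * mo (E j) d : ℚ) : ℝ) := by
        simp only [Pool.Agent.TH729.SQ.aeval_cast, evl, mo_cast]
        push_cast
        rfl
      simp only [hR]
      rw [h2, Pool.Agent.TH729.SQ.aeval_cast, evr, hst j]
      have h3 : ((c j * mo (E j) d : ℚ) : ℝ) ≠ 0 := by exact_mod_cast h1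
      rw [Rat.cast_mul, mul_div_assoc, div_self h3, mul_one]
    have habs : ∀ j, T j → |s j| ^ k j = s j ^ k j := by
      intro j hj
      have h1 := hz2 j hj
      rw [hRz j hj] at h1
      have h2 : 0 < s j ^ k j := by exact_mod_cast h1
      rw [← abs_pow, abs_of_pos h2]
    have hroot : ∀ j, T j → (R j (fun i => (z i : ℝ))) ^ ((k j : ℝ)⁻¹) = ((|s j| : ℚ) : ℝ) := by
      intro j hj
      rw [hRz j hj, ← habs j hj, Rat.cast_pow]
      exact Real.pow_rpow_inv_natCast (by exact_mod_cast abs_nonneg (s j)) (hk j)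
    set X : ι ⊕ σ → ℚ := Sum.elim (fun i => z (Sum.inl i))
      (fun i => if T (e i) then z (Sum.inr i) / |s (e i)| else z (Sum.inr i)) with hX
    have hXΨ : (fun i => (X i : ℝ)) = Ψ (fun i => (z i : ℝ)) := by
      funext a
      rcases a with i | i
      · rfl
      · simp only [hX, hΨ, Sum.elim_inr]
        by_cases h : T (e i)
        · rw [if_pos h, if_pos h, hroot _ h]
          push_cast
          rfl
        · rw [if_neg h, if_neg h]
    have hXl : (fun i => X (Sum.inl i)) = fun i => z (Sum.inl i) := rfl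
    refine ⟨_, ⟨X, ⟨⟨?_, fun j => ?_⟩, ?_⟩, rfl⟩, ?_⟩
    · rw [hXl]
      exact hzD
    · rw [hXl]
      by_cases hj : T j
      · have h1 : MvPolynomial.eval (fun i => X (Sum.inr i)) (g j) =
            MvPolynomial.eval (fun i => |s j|⁻¹ * z (Sum.inr i)) (g j) := by
          refine eval_congr' fun i hi => ?_
          have h2 := hv j i hi
          simp only [hX, Sum.elim_inr]
          rw [if_pos (by rw [h2]; exact hj), h2, div_eq_inv_mul]
        rw [h1, eval_form (hg j), hst j, inv_pow, habs j hj]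
        exact inv_mul_cancel_left₀ (pow_ne_zero (k j) (hs j)) _
      · have h1 : MvPolynomial.eval (fun i => X (Sum.inr i)) (g j) =
            MvPolynomial.eval (fun i => z (Sum.inr i)) (g j) := by
          refine eval_congr' fun i hi => ?_
          have h2 := hv j i hi
          simp only [hX, Sum.elim_inr]
          rw [if_neg (by rw [h2]; exact hj)]
        have h3 : c j * mo (E j) d = 0 := by
          by_contra h
          apply hj
          exact ⟨left_ne_zero_of_mul h, fun b hb => (mo_ne _ _).1 (right_ne_zero_of_mul h) b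
            ((hzZ b).2 hb)⟩
        rw [h1, hst j]
        show s j ^ k j * (c j * mo (E j) d) = c j * mo (E j) d
        rw [h3, mul_zero]
    · exact hzZ
    · rw [dist_comm, hXΨ]
      exact hz1

/-- **The closure of the set of the rational points of the system.** -/
theorem Sx_SA {V : β → Finset ι} {f : β → MvPolynomial ι ℚ} {m : β → ℕ}
    (hd : ∀ b c, b ≠ c → Disjoint (V b) (V c)) (h : ∀ b, Blk (V b) (m b) (f b) univ)
    {e : σ → κ} {g : κ → MvPolynomial σ ℚ} (hv : ∀ j, ∀ i ∈ (g j).vars, e i = j)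
    {k : κ → ℕ} (hk : ∀ j, k j ≠ 0) (hg : ∀ j, (g j).IsHomogeneous (k j))
    (hgB : ∀ j, Blk (Finset.univ.filter fun i => e i = j) (k j) (g j) univ)
    {c : κ → ℚ} {E : κ → β → ℕ} (hE : ∀ j b, k j ∣ m b * E j b) {D : Set (β → ℚ)}
    (hD : Stb m D) : SA (closure (rl (Sx f g c E D))) := by
  classical
  have e1 : Sx f g c E D = ⋃ Z ∈ (Set.univ : Set (Set β)), {w | w ∈ Sx f g c E D ∧
        ∀ b, MvPolynomial.eval (fun i => w (Sum.inl i)) (f b) = 0 ↔ b ∈ Z} := by
    ext w
    simp only [Set.mem_iUnion, Set.mem_univ, exists_true_left]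
    constructor
    · intro hw
      exact ⟨{b | MvPolynomial.eval (fun i => w (Sum.inl i)) (f b) = 0}, hw, fun b => Iff.rfl⟩
    · rintro ⟨Z, hw, -⟩
      exact hw
  rw [e1]
  refine biUnion_SA (Set.toFinite _) fun Z _ => ?_
  rw [Sx_closure hv hk hg]
  refine Pool.Agent.TH729.SQ.SA.closure (Yx_SA c E Z ?_)
  refine blk_SA (V := Sum.elim (fun b => (V b).map Function.Embedding.inl)
    (fun j => (Finset.univ.filter fun i => e i = j).map Function.Embedding.inr))
    (m := Sum.elim m k) ?_ ?_ (Dc_Stb hD hE Z)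
  · rintro (b | j) (b' | j') hne
    · refine (Finset.disjoint_map _).2 (hd b b' fun h => hne (by rw [h]))
    · rw [Finset.disjoint_left]
      intro a ha ha'
      obtain ⟨i, -, rfl⟩ := Finset.mem_map.1 ha
      obtain ⟨i', -, h⟩ := Finset.mem_map.1 ha'
      exact Sum.inr_ne_inl h
    · rw [Finset.disjoint_left]
      intro a ha ha'
      obtain ⟨i, -, rfl⟩ := Finset.mem_map.1 ha
      obtain ⟨i', -, h⟩ := Finset.mem_map.1 ha'
      exact Sum.inl_ne_inr h
    · refine (Finset.disjoint_map _).2 ?_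
      rw [Finset.disjoint_left]
      intro i hi hi'
      rw [Finset.mem_filter] at hi hi'
      exact hne (by rw [← hi.2, ← hi'.2])
  · rintro (b | j)
    · exact Blk_rename Function.Embedding.inl (h b)
    · exact Blk_rename Function.Embedding.inr (hgB j)

end Pool.Agent.NH8.C
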