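import Pool.Agent.Y718.Img

/-!
# Classes of values modulo powers: the abstract theorem

A piece of a polynomial `f` for the exponent `m` is a set of rational points, contained in a
semialgebraic set `O`, such that one can move (in the variables of `f` only) from a point of the
piece close to points of `O` in such a way that the value of `f` is multiplied by an `m`-th power.
-/

set_option autoImplicit false
set_option linter.unusedSectionVars false

open Set Filter Topology Pool.Agent.H581R2 Pool.Agent.TH729.SQ Pool.Agent.Y718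

namespace Pool.Agent.NH8.K

variable {ι : Type}

/-- the value depends only on the variables which occur -/
lemma eval_congr {R : Type*} [CommRing R] [Algebra ℚ R] {f : MvPolynomial ι ℚ} {x y : ι → R}
    (h : ∀ i ∈ f.vars, x i = y i) : MvPolynomial.aeval x f = MvPolynomial.aeval y f := by
  rw [MvPolynomial.aeval_def, MvPolynomial.aeval_def]
  refine MvPolynomial.eval₂Hom_congr' rfl ?_ rfl
  intro i hi _
  exact h i hi

lemma eval_congr' {f : MvPolynomial ι ℚ} {x y : ι → ℚ}
    (h : ∀ i ∈ f.vars, x i = y i) : MvPolynomial.eval x f = MvPolynomial.eval y f := by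
  rw [← MvPolynomial.aeval_eq_eval, ← MvPolynomial.aeval_eq_eval]
  exact eval_congr h

/-- pieces; the variables of `f` are in the set `V` -/
structure Piece [Fintype ι] (V : Finset ι) (m : ℕ) (f : MvPolynomial ι ℚ) (P : Set (ι → ℚ))
    (O : Set (ι → ℝ)) : Prop where
  vars : f.vars ⊆ V
  cyl : ∀ z z' : ι → ℚ, z ∈ P → (∀ i ∈ V, z' i = z i) → z' ∈ P
  sa : SA O
  sub : ∀ z ∈ P, (fun i => (z i : ℝ)) ∈ O
  move : ∀ x ∈ O, ∃ r : ℝ, 0 < r ∧ ∀ z ∈ P, dist (fun i => (z i : ℝ)) x < r →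
    ∀ y ∈ O, dist y x < r → ∀ ε : ℝ, 0 < ε → ∃ z' ∈ P, (∀ i, i ∉ V → z' i = z i) ∧
      (∀ i ∈ V, |(z' i : ℝ) - y i| < ε) ∧
      ∃ s : ℚ, s ≠ 0 ∧ MvPolynomial.eval z' f = s ^ m * MvPolynomial.eval z f

lemma exists_rat_near (y ε : ℝ) (hε : 0 < ε) : ∃ q : ℚ, |(q : ℝ) - y| < ε := by
  obtain ⟨q, h1, h2⟩ := exists_rat_btwn (show y < y + ε by linarith)
  exact ⟨q, by rw [abs_lt]; constructor <;> linarith⟩

section main

variable [Fintype ι] {β : Type} [Fintype β] {V : β → Finset ι} {m : β → ℕ}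
  {f : β → MvPolynomial ι ℚ}
  {P : β → Set (ι → ℚ)} {O : β → Set (ι → ℝ)} {D : Set (β → ℚ)}

/-- stable under the multiplication by powers -/
def Stb (m : β → ℕ) (D : Set (β → ℚ)) : Prop :=
  ∀ d ∈ D, ∀ s : β → ℚ, (∀ b, s b ≠ 0) → (fun b => s b ^ m b * d b) ∈ D

/-- the points in the pieces with values in `D` -/
def As (f : β → MvPolynomial ι ℚ) (P : β → Set (ι → ℚ)) (D : Set (β → ℚ)) : Set (ι → ℚ) :=
  {z | (∀ b, z ∈ P b) ∧ (fun b => MvPolynomial.eval z (f b)) ∈ D}

lemma near (hd : ∀ b c, b ≠ c → Disjoint (V b) (V c))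
    (h : ∀ b, Piece (V b) (m b) (f b) (P b) (O b)) (hD : Stb m D) (x : ι → ℝ) (hx : ∀ b, x ∈ O b) :
    ∃ r : ℝ, 0 < r ∧ ∀ z ∈ As f P D, dist (fun i => (z i : ℝ)) x < r → ∀ y : ι → ℝ,
      (∀ b, y ∈ O b) → dist y x < r → y ∈ closure (rl (As f P D)) := by
  classical
  choose r hr hmove using fun b => (h b).move x (hx b)
  obtain ⟨R, hR0, hR⟩ : ∃ R : ℝ, 0 < R ∧ ∀ b, R ≤ r b := by
    rcases isEmpty_or_nonempty β with hβ | hβ
    · exact ⟨1, one_pos, fun b => hβ.elim b⟩
    · obtain ⟨b0, hb0⟩ := Finite.exists_min r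
      exact ⟨r b0, hr b0, hb0⟩
  refine ⟨R, hR0, fun z hz hzx y hy hyx => ?_⟩
  rw [Metric.mem_closure_iff]
  intro ε hε
  set ε' : ℝ := min (ε / 2) (R - dist y x) with hε'
  have hε'0 : 0 < ε' := lt_min (by positivity) (by linarith)
  -- the moves
  have claim : ∀ s : Finset β, ∃ z' ∈ As f P D,
      (∀ i, (∃ b ∈ s, i ∈ V b) → |(z' i : ℝ) - y i| < ε') ∧
      ∀ i, (¬ ∃ b ∈ s, i ∈ V b) → z' i = z i := by
    intro s
    induction s using Finset.induction_on with
    | empty => exact ⟨z, hz, fun i ⟨b, hb, _⟩ => absurd hb (Finset.notMem_empty b), fun i _ => rfl⟩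
    | insert b s hb ih =>
      obtain ⟨z1, ⟨h1P, h1D⟩, h2, h3⟩ := ih
      have hz1x : dist (fun i => (z1 i : ℝ)) x < r b := by
        refine lt_of_lt_of_le ?_ (hR b)
        rw [dist_pi_lt_iff hR0]
        intro i
        by_cases hi : ∃ c ∈ s, i ∈ V c
        · have e1 := h2 i hi
          have e2 : dist (y i) (x i) ≤ dist y x := dist_le_pi_dist y x i
          have e3 : dist (z1 i : ℝ) (x i) ≤ dist (z1 i : ℝ) (y i) + dist (y i) (x i) :=
            dist_triangle _ _ _
          rw [Real.dist_eq (z1 i : ℝ) (y i)] at e3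
          have e4 : ε' ≤ R - dist y x := min_le_right _ _
          linarith
        · rw [h3 i hi]
          exact (dist_pi_lt_iff hR0).1 hzx i
      obtain ⟨z2, hz2P, h4, h5, t, ht0, ht⟩ := hmove b z1 (h1P b) hz1x y (hy b)
        (lt_of_lt_of_le hyx (hR b)) ε' hε'0
      have hoff : ∀ c, c ≠ b → ∀ i ∈ V c, z2 i = z1 i := by
        intro c hc i hi
        refine h4 i fun hib => ?_
        exact (Finset.disjoint_left.1 (hd c b hc) hi) hib
      refine ⟨z2, ⟨fun c => ?_, ?_⟩, ?_, ?_⟩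
      · by_cases hc : c = b
        · rw [hc]; exact hz2P
        · exact (h c).cyl z1 z2 (h1P c) (hoff c hc)
      · have e1 := hD _ h1D (fun c => if c = b then t else 1) (fun c => by
          split_ifs
          · exact ht0
          · exact one_ne_zero)
        refine cast ?_ e1
        congr 1
        funext c
        by_cases hc : c = b
        · subst hc
          simp only [if_pos]
          exact ht.symm
        · simp only [if_neg hc, one_pow, one_mul]
          exact (eval_congr' fun i hi => hoff c hc i ((h c).vars hi)).symm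
      · rintro i ⟨c, hc, hi⟩
        by_cases hib : i ∈ V b
        · exact h5 i hib
        · rw [h4 i hib]
          refine h2 i ⟨c, ?_, hi⟩
          rcases Finset.mem_insert.1 hc with rfl | h
          · exact absurd hi hib
          · exact h
      · intro i hi
        have hib : i ∉ V b := fun hib => hi ⟨b, Finset.mem_insert_self _ _, hib⟩
        rw [h4 i hib]
        exact h3 i fun ⟨c, hc, hic⟩ => hi ⟨c, Finset.mem_insert_of_mem hc, hic⟩
  obtain ⟨z1, ⟨h1P, h1D⟩, h2, h3⟩ := claim Finset.univ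
  choose q hq using fun i => exists_rat_near (y i) ε' hε'0
  set z2 : ι → ℚ := fun i => if ∃ b, i ∈ V b then z1 i else q i with hz2
  have hon : ∀ b, ∀ i ∈ V b, z2 i = z1 i := fun b i hi => by
    simp only [hz2]
    rw [if_pos ⟨b, hi⟩]
  refine ⟨fun i => (z2 i : ℝ), ⟨z2, ⟨fun b => (h b).cyl z1 z2 (h1P b) (hon b), ?_⟩, rfl⟩, ?_⟩
  · refine cast ?_ h1D
    congr 1
    funext b
    exact (eval_congr' fun i hi => hon b i ((h b).vars hi)).symm
  · rw [dist_comm]
    refine lt_of_le_of_lt ((dist_pi_le_iff (by positivity : (0:ℝ) ≤ ε / 2)).2 fun i => ?_)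
      (by linarith : ε / 2 < ε)
    rw [Real.dist_eq]
    refine le_trans (le_of_lt ?_) (min_le_left (ε / 2) (R - dist y x))
    by_cases hi : ∃ b, i ∈ V b
    · simp only [hz2, if_pos hi]
      obtain ⟨b, hb⟩ := hi
      exact h2 i ⟨b, Finset.mem_univ _, hb⟩
    · simp only [hz2, if_neg hi]
      exact hq i

/-- **The closure for one choice of pieces.** -/
theorem piece_SA (hd : ∀ b c, b ≠ c → Disjoint (V b) (V c))
    (h : ∀ b, Piece (V b) (m b) (f b) (P b) (O b)) (hD : Stb m D) : SA (closure (rl (As f P D))) := by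
  have hV : SA {x : ι → ℝ | ∀ b, x ∈ O b} := SAP.forall_fin fun b => (h b).sa
  have hW : SA ({x : ι → ℝ | ∀ b, x ∈ O b} ∩ closure (rl (As f P D))) := by
    refine sa_of_lc ι _ _ hV inter_subset_left ?_
    intro x hx
    by_cases hxW : x ∈ closure (rl (As f P D))
    · obtain ⟨r, hr, hnear⟩ := near hd h hD x hx
      obtain ⟨_, ⟨z, hz, rfl⟩, hzx⟩ := Metric.mem_closure_iff.1 hxW r hr
      have h1 : ∀ᶠ y in 𝓝[{x : ι → ℝ | ∀ b, x ∈ O b}] x, dist y x < r :=
        nhdsWithin_le_nhds (Metric.ball_mem_nhds x hr)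
      filter_upwards [h1, self_mem_nhdsWithin] with y hy1 hy2
      refine ⟨fun _ => ⟨hx, hxW⟩, fun _ => ⟨hy2, ?_⟩⟩
      exact hnear z hz (by rw [dist_comm]; exact hzx) y hy2 hy1
    · have h1 : ∀ᶠ y in 𝓝[{x : ι → ℝ | ∀ b, x ∈ O b}] x, y ∈ (closure (rl (As f P D)))ᶜ :=
        nhdsWithin_le_nhds (isClosed_closure.isOpen_compl.mem_nhds hxW)
      filter_upwards [h1] with y hy
      exact ⟨fun hy2 => absurd hy2.2 hy, fun hx2 => absurd hx2.2 hxW⟩
  have heq : closure (rl (As f P D)) =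
      closure ({x : ι → ℝ | ∀ b, x ∈ O b} ∩ closure (rl (As f P D))) := by
    apply Subset.antisymm
    · apply closure_mono
      rintro _ ⟨z, hz, rfl⟩
      exact ⟨fun b => (h b).sub z (hz.1 b), subset_closure ⟨z, hz, rfl⟩⟩
    · exact closure_minimal inter_subset_right isClosed_closure
  rw [heq]
  exact Pool.Agent.TH729.SQ.SA.closure hW

/-- a finite union of pieces -/
def Blk (V : Finset ι) (m : ℕ) (f : MvPolynomial ι ℚ) (Q : Set (ι → ℚ)) : Prop :=
  ∃ (k : ℕ) (P : Fin k → Set (ι → ℚ)) (O : Fin k → Set (ι → ℝ)),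
    (∀ z, z ∈ Q ↔ ∃ i, z ∈ P i) ∧ ∀ i, Piece V m f (P i) (O i)

lemma Blk.empty (V : Finset ι) (m : ℕ) (f : MvPolynomial ι ℚ) : Blk V m f ∅ :=
  ⟨0, fun i => i.elim0, fun i => i.elim0, fun z => by simp, fun i => i.elim0⟩

lemma Blk.union {V : Finset ι} {m : ℕ} {f : MvPolynomial ι ℚ} {Q Q' : Set (ι → ℚ)} (h : Blk V m f Q)
    (h' : Blk V m f Q') : Blk V m f (Q ∪ Q') := by
  obtain ⟨k, P, O, h1, h2⟩ := h
  obtain ⟨k', P', O', h1', h2'⟩ := h'
  refine ⟨k + k', Fin.append P P', Fin.append O O', fun z => ?_, fun i => ?_⟩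
  · rw [Set.mem_union, h1, h1']
    constructor
    · rintro (⟨i, hi⟩ | ⟨i, hi⟩)
      · exact ⟨Fin.castAdd k' i, by rwa [Fin.append_left]⟩
      · exact ⟨Fin.natAdd k i, by rwa [Fin.append_right]⟩
    · rintro ⟨i, hi⟩
      induction i using Fin.addCases with
      | left i => rw [Fin.append_left] at hi; exact Or.inl ⟨i, hi⟩
      | right i => rw [Fin.append_right] at hi; exact Or.inr ⟨i, hi⟩
  · induction i using Fin.addCases with
    | left i => rw [Fin.append_left, Fin.append_left]; exact h2 i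
    | right i => rw [Fin.append_right, Fin.append_right]; exact h2' i

lemma Blk.of_piece {V : Finset ι} {m : ℕ} {f : MvPolynomial ι ℚ} {P : Set (ι → ℚ)} {O : Set (ι → ℝ)}
    (h : Piece V m f P O) : Blk V m f P :=
  ⟨1, fun _ => P, fun _ => O, fun z => by simp, fun _ => h⟩

lemma Blk.biUnion {V : Finset ι} {m : ℕ} {f : MvPolynomial ι ℚ} {α : Type*} {E : Set α} (hE : E.Finite)
    {Q : α → Set (ι → ℚ)} (h : ∀ a ∈ E, Blk V m f (Q a)) : Blk V m f (⋃ a ∈ E, Q a) := by
  induction E, hE using Set.Finite.induction_on with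
  | empty => simpa using Blk.empty V m f
  | insert ha hs ih =>
    rw [Set.biUnion_insert]
    exact (h _ (by simp)).union (ih fun b hb => h b (by simp [hb]))

lemma Blk.congr {V : Finset ι} {m : ℕ} {f : MvPolynomial ι ℚ} {Q Q' : Set (ι → ℚ)} (h : Blk V m f Q)
    (hQ : Q = Q') : Blk V m f Q' := hQ ▸ h

/-- **The closure of the set of the points with values in a stable set.** -/
theorem blk_SA {Q : β → Set (ι → ℚ)} (hd : ∀ b c, b ≠ c → Disjoint (V b) (V c))
    (h : ∀ b, Blk (V b) (m b) (f b) (Q b)) (hD : Stb m D) : SA (closure (rl (As f Q D))) := by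
  classical
  choose k P O h1 h2 using h
  have e : As f Q D = ⋃ c ∈ (Set.univ : Set (∀ b, Fin (k b))), As f (fun b => P b (c b)) D := by
    ext z
    simp only [Set.mem_iUnion, Set.mem_univ, exists_true_left]
    constructor
    · rintro ⟨hz, hzD⟩
      choose c hc using fun b => (h1 b z).1 (hz b)
      exact ⟨c, hc, hzD⟩
    · rintro ⟨c, hc, hzD⟩
      exact ⟨fun b => (h1 b z).2 ⟨c b, hc b⟩, hzD⟩
  rw [e]
  exact biUnion_SA Set.finite_univ fun c _ => piece_SA hd (fun b => h2 b (c b)) hD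

end main

end Pool.Agent.NH8.K
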