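import Pool.Agent.NH8.KA
import Pool.Agent.Y718.GY
import Pool.Agent.Y720.MZ.Tw

/-!
# Pieces for the exponent two
-/

set_option autoImplicit false
set_option linter.unusedSectionVars false
set_option linter.unusedVariables false

open Set Filter Topology Pool.Agent.H581R2 Pool.Agent.TH729.SQ Pool.Agent.Y718
  Pool.Agent.Y718.X Pool.Agent.Y720.MZ

namespace Pool.Agent.NH8.K

section gen

variable {ι : Type} [Fintype ι]

/-- the zeros -/
lemma piece_zero {V : Finset ι} (m : ℕ) {f : MvPolynomial ι ℚ} (hv : f.vars ⊆ V)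
    (hf : SA (closure (rl {z : ι → ℚ | MvPolynomial.eval z f = 0}))) :
    Piece V m f {z | MvPolynomial.eval z f = 0}
      (closure (rl {z : ι → ℚ | MvPolynomial.eval z f = 0})) where
  vars := hv
  cyl := fun z z' hz h => by
    have e : MvPolynomial.eval z' f = MvPolynomial.eval z f :=
      eval_congr' fun i hi => h i (hv hi)
    exact e.trans hz
  sa := hf
  sub := fun z hz => subset_closure ⟨z, hz, rfl⟩
  move := by
    classical
    intro x _
    refine ⟨1, one_pos, fun z hz _ y hy _ ε hε => ?_⟩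
    obtain ⟨_, ⟨z'', hz'', rfl⟩, hd⟩ := Metric.mem_closure_iff.1 hy ε hε
    have e : MvPolynomial.eval (fun i => if i ∈ V then z'' i else z i) f =
        MvPolynomial.eval z'' f := eval_congr' fun i hi => by
      simp only [if_pos (hv hi)]
    refine ⟨fun i => if i ∈ V then z'' i else z i, e.trans hz'', fun i hi => if_neg hi,
      fun i hi => ?_, 1, one_ne_zero, ?_⟩
    · simp only [if_pos hi]
      have := (dist_pi_lt_iff hε).1 hd i
      rwa [dist_comm, Real.dist_eq] at this
    · have e1 : MvPolynomial.eval z'' f = 0 := hz''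
      have e2 : MvPolynomial.eval z f = 0 := hz
      rw [e, e1, e2, mul_zero]

/-- one value of the only variable -/
lemma piece_pt (m : ℕ) {f : MvPolynomial ι ℚ} {i : ι} (hv : f.vars ⊆ {i}) (t : ℚ) :
    Piece {i} m f {z | z i = t} {x | x i = (t : ℝ)} where
  vars := hv
  cyl := fun z z' hz h => (h i (Finset.mem_singleton_self i)).trans hz
  sa := SAP.eq (PF.coord i) (PF.const t)
  sub := fun z hz => by
    have e : z i = t := hz
    show ((z i : ℚ) : ℝ) = t
    rw [e]
  move := by
    intro x _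
    refine ⟨1, one_pos, fun z hz _ y hy _ ε hε => ⟨z, hz, fun _ _ => rfl, fun k hk => ?_, 1,
      one_ne_zero, by rw [one_pow, one_mul]⟩⟩
    rw [Finset.mem_singleton] at hk
    subst hk
    have e : z k = t := hz
    have e2 : y k = (t : ℝ) := hy
    rw [e, e2, sub_self, abs_zero]
    exact hε

/-- constant polynomials -/
lemma piece_const {V : Finset ι} (m : ℕ) {f : MvPolynomial ι ℚ} (hv : f.vars = ∅) :
    Piece V m f univ univ where
  vars := by rw [hv]; exact Finset.empty_subset V
  cyl := fun _ _ _ _ => mem_univ _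
  sa := SA.univ
  sub := fun _ _ => mem_univ _
  move := by
    classical
    intro x _
    refine ⟨1, one_pos, fun z hz _ y hy _ ε hε => ?_⟩
    choose q hq using fun i => exists_rat_near (y i) ε hε
    refine ⟨fun i => if i ∈ V then q i else z i, mem_univ _, fun i hi => if_neg hi,
      fun i hi => ?_, 1, one_ne_zero, ?_⟩
    · simp only [if_pos hi]
      exact hq i
    · rw [one_pow, one_mul]
      refine eval_congr' fun i hi => ?_
      rw [hv] at hi
      exact absurd hi (Finset.notMem_empty i)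

/-- multiplication by a square -/
lemma piece_sq {V : Finset ι} {f g h : MvPolynomial ι ℚ} {P : Set (ι → ℚ)} {O : Set (ι → ℝ)}
    (hp : Piece V 2 h P O) (hg : g.vars ⊆ V) (hfv : f.vars ⊆ V)
    (hf : ∀ z : ι → ℚ, MvPolynomial.eval z f = MvPolynomial.eval z g ^ 2 * MvPolynomial.eval z h) :
    Piece V 2 f (P ∩ {z | MvPolynomial.eval z g ≠ 0}) (O ∩ {x | (MvPolynomial.aeval x g : ℝ) ≠ 0})
    where
  vars := hfv
  cyl := fun z z' hz h' => ⟨hp.cyl z z' hz.1 h', by
    have e : MvPolynomial.eval z' g = MvPolynomial.eval z g :=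
      eval_congr' fun i hi => h' i (hg hi)
    have : MvPolynomial.eval z g ≠ 0 := hz.2
    rwa [← e] at this⟩
  sa := hp.sa.inter (SAP.eq_zero (PF.aeval g)).not
  sub := fun z hz => ⟨hp.sub z hz.1, by
    have : MvPolynomial.eval z g ≠ 0 := hz.2
    show (MvPolynomial.aeval (fun i => (z i : ℝ)) g : ℝ) ≠ 0
    rw [Pool.Agent.TH729.SQ.aeval_cast]
    exact_mod_cast this⟩
  move := by
    classical
    intro x hx
    obtain ⟨r, hr, hmove⟩ := hp.move x hx.1
    refine ⟨r, hr, fun z hz hzx y hy hyx ε hε => ?_⟩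
    have hyg : (MvPolynomial.aeval y g : ℝ) ≠ 0 := hy.2
    have hopen : IsOpen {u : ι → ℝ | (MvPolynomial.aeval u g : ℝ) ≠ 0} :=
      isOpen_ne_fun (continuous_aeval g) continuous_const
    obtain ⟨δ, hδ, hball⟩ := Metric.isOpen_iff.1 hopen y hyg
    obtain ⟨z', hz', h1, h2, s, hs, h3⟩ := hmove z hz.1 hzx y hy.1 hyx (min ε δ) (lt_min hε hδ)
    have hzg : MvPolynomial.eval z g ≠ 0 := hz.2
    have hz'g : MvPolynomial.eval z' g ≠ 0 := by
      set u : ι → ℝ := fun i => if i ∈ V then (z' i : ℝ) else y i with hu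
      have hub : u ∈ Metric.ball y δ := by
        rw [Metric.mem_ball, dist_pi_lt_iff hδ]
        intro i
        by_cases hi : i ∈ V
        · simp only [hu, if_pos hi]
          rw [Real.dist_eq]
          exact lt_of_lt_of_le (h2 i hi) (min_le_right _ _)
        · simp only [hu, if_neg hi, dist_self]
          exact hδ
      have h4 : (MvPolynomial.aeval u g : ℝ) ≠ 0 := hball hub
      intro h0
      apply h4
      have e : (MvPolynomial.aeval u g : ℝ) = MvPolynomial.aeval (fun i => (z' i : ℝ)) g :=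
        eval_congr fun i hi => by simp only [hu, if_pos (hg hi)]
      rw [e, Pool.Agent.TH729.SQ.aeval_cast, h0, Rat.cast_zero]
    refine ⟨z', ⟨hz', hz'g⟩, h1, fun i hi => lt_of_lt_of_le (h2 i hi) (min_le_left _ _),
      MvPolynomial.eval z' g * s / MvPolynomial.eval z g,
      div_ne_zero (mul_ne_zero hz'g hs) hzg, ?_⟩
    rw [hf, hf, h3]
    field_simp

end gen

section tn

variable {n : ℕ}

/-- the nondegenerate points on the twists of the double cover `w² = f(z)` -/
def NT (f : MvPolynomial (Fin n) ℚ) : Set (Fin n → ℚ) :=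
  {z | ∃ c : ℚ, c ≠ 0 ∧ z ∈ TN (MvPolynomial.C c * f)}

lemma lk_congr {f : MvPolynomial (Fin n) ℚ} {z z' : Fin n → ℚ} (u : Fin n → ℚ)
    (h : ∀ i ∈ f.vars, z i = z' i) : lk f z u = lk f z' u := by
  unfold lk
  refine eval_congr fun i hi => ?_
  rw [h i hi]

lemma lk_C_mul (c : ℚ) (f : MvPolynomial (Fin n) ℚ) (z u : Fin n → ℚ) :
    lk (MvPolynomial.C c * f) z u = Polynomial.C c * lk f z u := by
  unfold lk
  rw [map_mul, MvPolynomial.aeval_C]
  rfl

lemma NT_cyl {f : MvPolynomial (Fin n) ℚ} {z z' : Fin n → ℚ} (hz : z ∈ NT f)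
    (h : ∀ i ∈ f.vars, z' i = z i) : z' ∈ NT f := by
  obtain ⟨c, hc, ⟨w, hw0, hw⟩, b, hb, hbd⟩ := hz
  refine ⟨c, hc, ⟨w, hw0, ?_⟩, b, hb, fun k => ⟨(hbd k).1, ?_⟩⟩
  · rw [hw, map_mul, map_mul, eval_congr' h, MvPolynomial.eval_C, MvPolynomial.eval_C]
  · rcases (hbd k).2 with h1 | ⟨e, he, h1⟩
    · exact Or.inl h1
    · refine Or.inr ⟨e, he, ?_⟩
      rw [lk_C_mul] at h1 ⊢
      rwa [lk_congr (b k) (z := z' + ∑ j, e j • b j) (z' := z + ∑ j, e j • b j)]
      intro i hi
      rw [Pi.add_apply, Pi.add_apply, h i hi]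

lemma NT_ne {f : MvPolynomial (Fin n) ℚ} {z : Fin n → ℚ} (hz : z ∈ NT f) :
    MvPolynomial.eval z f ≠ 0 := by
  obtain ⟨c, hc, ⟨w, hw0, hw⟩, -⟩ := hz
  intro h0
  rw [map_mul, h0, mul_zero] at hw
  exact hw0 (pow_eq_zero_iff two_ne_zero |>.1 hw)

/-- **the nondegenerate points form a piece** -/
theorem piece_TN {V : Finset (Fin n)} {f : MvPolynomial (Fin n) ℚ} (hv : f.vars ⊆ V) :
    Piece V 2 f (NT f) {x | (MvPolynomial.aeval x f : ℝ) ≠ 0} where
  vars := hv
  cyl := fun z z' hz h => NT_cyl hz fun i hi => h i (hv hi)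
  sa := (SAP.eq_zero (PF.aeval f)).not
  sub := fun z hz => by
    show (MvPolynomial.aeval (fun i => (z i : ℝ)) f : ℝ) ≠ 0
    rw [Pool.Agent.TH729.SQ.aeval_cast]
    exact_mod_cast NT_ne hz
  move := by
    classical
    intro x hx
    have hx0 : (MvPolynomial.aeval x f : ℝ) ≠ 0 := hx
    have hopen : IsOpen {u : Fin n → ℝ | (0 : ℝ) < MvPolynomial.aeval u f *
        MvPolynomial.aeval x f} :=
      isOpen_lt continuous_const ((continuous_aeval f).mul continuous_const)
    obtain ⟨r, hr, hball⟩ := Metric.isOpen_iff.1 hopen x (by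
      show (0 : ℝ) < MvPolynomial.aeval x f * MvPolynomial.aeval x f
      exact mul_self_pos.2 hx0)
    refine ⟨r, hr, fun z hz hzx y hy hyx ε hε => ?_⟩
    have hz0 := NT_ne hz
    obtain ⟨c, hc, hzT⟩ := hz
    obtain ⟨⟨w, hw0, hw⟩, -⟩ := id hzT
    have hfz : (MvPolynomial.aeval (fun i => (z i : ℝ)) (MvPolynomial.C c * f) : ℝ) =
        (w : ℝ) ^ 2 := by
      rw [Pool.Agent.TH729.SQ.aeval_cast, ← hw]
      push_cast
      rfl
    have hpos : ∀ u ∈ Metric.ball x r, (0 : ℝ) < MvPolynomial.aeval u (MvPolynomial.C c * f) := by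
      intro u hu
      have h1 : (0 : ℝ) < MvPolynomial.aeval u f * MvPolynomial.aeval x f := hball hu
      have h2 : (0 : ℝ) < MvPolynomial.aeval (fun i => (z i : ℝ)) f * MvPolynomial.aeval x f :=
        hball hzx
      have h3 : (0 : ℝ) < (w : ℝ) ^ 2 := by
        have : (w : ℝ) ≠ 0 := by exact_mod_cast hw0
        positivity
      rw [← hfz] at h3
      rw [map_mul, MvPolynomial.aeval_C] at h3 ⊢
      set a := (MvPolynomial.aeval u f : ℝ)
      set b := (MvPolynomial.aeval (fun i => (z i : ℝ)) f : ℝ)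
      set d := (MvPolynomial.aeval x f : ℝ)
      have h4 : 0 < a * b := by
        have h5 : 0 < (a * b) * d ^ 2 := by nlinarith
        exact pos_of_mul_pos_left h5 (sq_nonneg d)
      have h6 : 0 < (algebraMap ℚ ℝ c * a) * (algebraMap ℚ ℝ c * b) := by
        have hc' : (algebraMap ℚ ℝ c) ≠ 0 := by
          rw [eq_ratCast]; exact_mod_cast hc
        have : (algebraMap ℚ ℝ c * a) * (algebraMap ℚ ℝ c * b) =
          (algebraMap ℚ ℝ c) ^ 2 * (a * b) := by ring
        rw [this]
        positivity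
      exact pos_of_mul_pos_left h6 h3.le
    have hsub := TN_conn hzT (convex_ball x r).isPreconnected hpos hzx
    obtain ⟨_, ⟨z'', hz'', rfl⟩, hd⟩ := Metric.mem_closure_iff.1 (hsub hyx) ε hε
    obtain ⟨⟨w'', hw''0, hw''⟩, -⟩ := id hz''
    have e : MvPolynomial.eval (fun i => if i ∈ V then z'' i else z i) f =
        MvPolynomial.eval z'' f := eval_congr' fun i hi => by
      simp only [if_pos (hv hi)]
    refine ⟨fun i => if i ∈ V then z'' i else z i, NT_cyl (z := z'') ⟨c, hc, hz''⟩ fun i hi => by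
      simp only [if_pos (hv hi)], fun i hi => if_neg hi, fun i hi => ?_, w'' / w,
      div_ne_zero hw''0 hw0, ?_⟩
    · simp only [if_pos hi]
      have := (dist_pi_lt_iff hε).1 hd i
      rwa [dist_comm, Real.dist_eq] at this
    · rw [e]
      rw [map_mul, MvPolynomial.eval_C] at hw hw''
      field_simp
      have : c * (MvPolynomial.eval z'' f * w ^ 2) = c * (w'' ^ 2 * MvPolynomial.eval z f) := by
        rw [hw, hw'']; ring
      exact mul_left_cancel₀ hc (by linarith)

/-- degree at most two in each variable -/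
lemma NT_two {f : MvPolynomial (Fin n) ℚ} (hf : ∀ i, f.degreeOf i ≤ 2) :
    NT f = {z | MvPolynomial.eval z f ≠ 0} := by
  apply Subset.antisymm
  · intro z hz; exact NT_ne hz
  · intro z hz
    have hz0 : MvPolynomial.eval z f ≠ 0 := hz
    have hd : ∀ k, DegLe (MvPolynomial.C (MvPolynomial.eval z f)⁻¹ * f) (Pi.single k 1) 2 := by
      intro k y
      refine (lk_natDegree _ y k).trans ?_
      exact (MvPolynomial.degreeOf_C_mul_le f k _).trans (hf k)
    refine ⟨(MvPolynomial.eval z f)⁻¹, inv_ne_zero hz0, ⟨1, one_ne_zero, ?_⟩,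
      fun k => Pi.single k 1, ?_, fun k => ⟨fun y => (hd k y).trans (by norm_num), Or.inl (hd k)⟩⟩
    · rw [map_mul, MvPolynomial.eval_C, inv_mul_cancel₀ hz0, one_pow]
    · have := (Pi.basisFun ℚ (Fin n)).linearIndependent
      refine cast ?_ this
      congr 1
      funext k
      exact Pi.basisFun_apply ℚ (Fin n) k

/-- **Polynomials of degree at most two in each variable.** -/
theorem blk_two {V : Finset (Fin n)} {f : MvPolynomial (Fin n) ℚ} (hv : f.vars ⊆ V)
    (hf : ∀ i, f.degreeOf i ≤ 2)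
    (h0 : SA (closure (rl {z : Fin n → ℚ | MvPolynomial.eval z f = 0}))) : Blk V 2 f univ := by
  refine ((Blk.of_piece (piece_TN hv)).union (Blk.of_piece (piece_zero 2 hv h0))).congr ?_
  rw [NT_two hf]
  ext z
  simp only [mem_union, mem_univ, iff_true]
  exact ne_or_eq _ _

end tn

end Pool.Agent.NH8.K
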