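import Pool.Agent.NH8.CM
import Pool.Agent.Y718.QuartB

/-!
# Smooth quartic forms are blocks for the exponent two
-/

set_option autoImplicit false
set_option linter.unusedSectionVars false
set_option linter.unusedVariables false
set_option linter.unusedSimpArgs false
set_option linter.deprecated false

open Set Filter Topology Pool.Agent.H581R2 Pool.Agent.TH729.SQ Pool.Agent.Y718 Pool.Agent.NH8.K

namespace Pool.Agent.NH8.Q

variable {n : ℕ}

/-- the nondegenerate points on the twists -/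
def NS (f : MvPolynomial (Fin n) ℚ) : Set (Fin n → ℚ) :=
  {z | ∃ c : ℚ, c ≠ 0 ∧ z ∈ SG2 (MvPolynomial.C c * f)}

lemma NS_ne {f : MvPolynomial (Fin n) ℚ} {z : Fin n → ℚ} (hz : z ∈ NS f) :
    MvPolynomial.eval z f ≠ 0 := by
  obtain ⟨c, hc, -, w, hw0, hw⟩ := hz
  intro h0
  rw [map_mul, h0, mul_zero] at hw
  exact hw0 (pow_eq_zero_iff two_ne_zero |>.1 hw)

/-- **the nondegenerate points form a piece** -/
theorem piece_NS {f : MvPolynomial (Fin n) ℚ} (hf : ∀ i, f.degreeOf i ≤ 4) :
    Piece Finset.univ 2 f (NS f) {x | (MvPolynomial.aeval x f : ℝ) ≠ 0} where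
  vars := Finset.subset_univ _
  cyl := fun z z' hz h => by
    have : z' = z := funext fun i => h i (Finset.mem_univ i)
    rw [this]
    exact hz
  sa := (SAP.eq_zero (PF.aeval f)).not
  sub := fun z hz => by
    show (MvPolynomial.aeval (fun i => (z i : ℝ)) f : ℝ) ≠ 0
    rw [Pool.Agent.TH729.SQ.aeval_cast]
    exact_mod_cast NS_ne hz
  move := by
    classical
    intro x hx
    have hx0 : (MvPolynomial.aeval x f : ℝ) ≠ 0 := hx
    have hopen : IsOpen {u : Fin n → ℝ | (0 : ℝ) < MvPolynomial.aeval u f *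
        MvPolynomial.aeval x f} :=
      isOpen_lt continuous_const ((continuous_aeval f).mul continuous_const)
    obtain ⟨r, hr, hball⟩ := Metric.isOpen_iff.1 hopen x (by
      show (0 : ℝ) < MvPolynomial.aeval x f * MvPolynomial.aeval x f
      exact mul_self_pos.2 hx0)
    refine ⟨r, hr, fun z hz hzx y hy hyx ε hε => ?_⟩
    have hz0 := NS_ne hz
    obtain ⟨c, hc, hzT⟩ := hz
    obtain ⟨-, w, hw0, hw⟩ := id hzT
    have hfz : (MvPolynomial.aeval (fun i => (z i : ℝ)) (MvPolynomial.C c * f) : ℝ) =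
        (w : ℝ) ^ 2 := by
      rw [Pool.Agent.TH729.SQ.aeval_cast, ← hw]
      push_cast
      rfl
    have hpos : ∀ u ∈ Metric.ball x r, (0 : ℝ) < MvPolynomial.aeval u (MvPolynomial.C c * f) := by
      intro u hu
      have h1 : (0 : ℝ) < MvPolynomial.aeval u f * MvPolynomial.aeval x f := hball hu
      have h2 : (0 : ℝ) < MvPolynomial.aeval (fun i => (z i : ℝ)) f * MvPolynomial.aeval x f :=
        hball hzx
      have h3 : (0 : ℝ) < (w : ℝ) ^ 2 := by
        have : (w : ℝ) ≠ 0 := by exact_mod_cast hw0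
        positivity
      rw [← hfz] at h3
      rw [map_mul, MvPolynomial.aeval_C] at h3 ⊢
      set a := (MvPolynomial.aeval u f : ℝ)
      set b := (MvPolynomial.aeval (fun i => (z i : ℝ)) f : ℝ)
      set d := (MvPolynomial.aeval x f : ℝ)
      have h4 : 0 < a * b := by
        have h5 : 0 < (a * b) * d ^ 2 := by nlinarith
        exact pos_of_mul_pos_left h5 (sq_nonneg d)
      have h6 : 0 < (algebraMap ℚ ℝ c * a) * (algebraMap ℚ ℝ c * b) := by
        have hc' : (algebraMap ℚ ℝ c) ≠ 0 := by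
          rw [eq_ratCast]; exact_mod_cast hc
        have : (algebraMap ℚ ℝ c * a) * (algebraMap ℚ ℝ c * b) =
          (algebraMap ℚ ℝ c) ^ 2 * (a * b) := by ring
        rw [this]
        positivity
      exact pos_of_mul_pos_left h6 h3.le
    have hbox : ∀ b : Fin n → ℝ, (∀ i, |b i - x i| < r) →
        (0 : ℝ) < MvPolynomial.aeval b (MvPolynomial.C c * f) := by
      intro b hb
      refine hpos b ?_
      rw [Metric.mem_ball, dist_pi_lt_iff hr]
      exact hb
    obtain ⟨z'', hz'', -, hd⟩ := g2move_all (fun i => (MvPolynomial.degreeOf_C_mul_le f i c).trans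
      (hf i)) hbox hzT (fun i => (dist_pi_lt_iff hr).1 hzx i)
      (fun i => (dist_pi_lt_iff hr).1 hyx i) hε Finset.univ
    obtain ⟨-, w'', hw''0, hw''⟩ := id hz''
    refine ⟨z'', ⟨c, hc, hz''⟩, fun i hi => absurd (Finset.mem_univ i) hi, fun i hi => hd i hi,
      w'' / w, div_ne_zero hw''0 hw0, ?_⟩
    rw [map_mul, MvPolynomial.eval_C] at hw hw''
    field_simp
    have : c * (MvPolynomial.eval z'' f * w ^ 2) = c * (w'' ^ 2 * MvPolynomial.eval z f) := by
      rw [hw, hw'']; ring
    exact mul_left_cancel₀ hc (by linarith)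

/-! ### The nondegenerate planes and twists -/

lemma lp_C_mul (c : ℚ) (f : MvPolynomial (Fin n) ℚ) (z v : Fin n → ℚ) :
    lp (MvPolynomial.C c * f) z v = Polynomial.C c * lp f z v := by
  apply Polynomial.funext
  intro t
  rw [lp_eval, Polynomial.eval_mul, Polynomial.eval_C, lp_eval, map_mul, MvPolynomial.eval_C]

lemma covB_C (c : ℚ) (q : Polynomial ℚ) : covB (Polynomial.C c * q) = c ^ 3 * covB q := by
  simp only [covB, cB, Polynomial.coeff_C_mul]
  ring

lemma covT_C (c : ℚ) (q : Polynomial ℚ) : covT (Polynomial.C c * q) = c ^ 4 * covT q := by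
  simp only [covT, cT, Polynomial.coeff_C_mul]
  ring

lemma NDP_C {c : ℚ} (hc : c ≠ 0) {f : MvPolynomial (Fin n) ℚ} {z v u : Fin n → ℚ}
    (h : NDP f z v u) : NDP (MvPolynomial.C c * f) z v u := by
  intro α β γ hst
  have h1 := h α β (γ * c) fun s t => by
    have h2 := hst s t
    rw [lp_C_mul, covB_C, covT_C] at h2
    have h3 : c ^ 3 * ((α * s + β * t) * covB (lp f z (s • v + t • u))) =
        c ^ 3 * (γ * c * covT (lp f z (s • v + t • u))) := by linear_combination h2
    exact mul_left_cancel₀ (pow_ne_zero 3 hc) h3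
  refine ⟨h1.1, h1.2.1, ?_⟩
  rcases mul_eq_zero.1 h1.2.2 with h | h
  · exact h
  · exact absurd h hc

lemma NS_of_NDP {f : MvPolynomial (Fin n) ℚ} (hq : QuarticAlong f ⊤) {z v u : Fin n → ℚ}
    (hz : MvPolynomial.eval z f ≠ 0) (h : NDP f z v u) : z ∈ NS f := by
  have hc : (MvPolynomial.eval z f)⁻¹ ≠ 0 := inv_ne_zero hz
  refine ⟨(MvPolynomial.eval z f)⁻¹, hc, fun i => Or.inr ⟨⊤, trivial, ?_, v, trivial, u, trivial,
    NDP_C hc h⟩, 1, one_ne_zero, ?_⟩
  · intro z' v' hv'
    rw [lp_C_mul]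
    exact (Polynomial.natDegree_C_mul_le _ _).trans (hq z' v' hv')
  · rw [map_mul, MvPolynomial.eval_C, inv_mul_cancel₀ hz, one_pow]

/-! ### Cones -/

lemma ic_div {F : MvPolynomial (Fin (n + 1)) ℚ} (hF : F.IsHomogeneous 4) {p : Fin (n + 1)}
    {Z : Fin (n + 1) → ℚ} (hZ : Z p ≠ 0) :
    MvPolynomial.eval Z F = Z p ^ 4 * MvPolynomial.eval (fun j => Z (p.succAbove j) / Z p)
      (deh F p) := by
  have h1 : Z = fun i => Z p * ic p 1 (fun j => Z (p.succAbove j) / Z p) i := by
    funext i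
    rcases Fin.eq_self_or_eq_succAbove p i with h | ⟨j, rfl⟩
    · rw [h, ic_same, mul_one]
    · rw [ic_above]
      field_simp
  rw [deh_eval]
  conv_lhs => rw [h1]
  exact Pool.Agent.NH8.C.eval_form hF _ _

/-- **the nondegenerate points of a chart** -/
theorem piece_cone {F : MvPolynomial (Fin (n + 1)) ℚ} (hF : F.IsHomogeneous 4)
    (p : Fin (n + 1)) : Piece Finset.univ 2 F
      {Z | Z p ≠ 0 ∧ (fun j => Z (p.succAbove j) / Z p) ∈ NS (deh F p)}
      {x | x p ≠ 0 ∧ (MvPolynomial.aeval x F : ℝ) ≠ 0} where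
  vars := Finset.subset_univ _
  cyl := fun z z' hz h => by
    have : z' = z := funext fun i => h i (Finset.mem_univ i)
    rw [this]
    exact hz
  sa := SAP.and (SAP.eq_zero (PF.coord p)).not (SAP.eq_zero (PF.aeval F)).not
  sub := fun Z hZ => by
    refine ⟨?_, ?_⟩
    · show ((Z p : ℚ) : ℝ) ≠ 0
      exact_mod_cast hZ.1
    rw [Pool.Agent.TH729.SQ.aeval_cast, ic_div hF hZ.1]
    exact_mod_cast mul_ne_zero (pow_ne_zero 4 hZ.1) (NS_ne hZ.2)
  move := by
    classical
    rintro x ⟨hxp, hxF⟩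
    -- the real chart
    set μ : (Fin (n + 1) → ℝ) → (Fin n → ℝ) := fun v j => v (p.succAbove j) / v p with hμ
    have hμc : ∀ v : Fin (n + 1) → ℝ, v p ≠ 0 → ContinuousAt μ v := fun v hv =>
      continuousAt_pi.2 fun j => (continuous_apply _).continuousAt.div
        (continuous_apply _).continuousAt hv
    have hval : ∀ v : Fin (n + 1) → ℝ, v p ≠ 0 → (MvPolynomial.aeval v F : ℝ) ≠ 0 →
        (MvPolynomial.aeval (μ v) (deh F p) : ℝ) ≠ 0 := by
      intro v hv hvF h0
      apply hvF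
      rw [deh_aeval] at h0
      have h1 : v = fun i => v p * ic p 1 (μ v) i := by
        funext i
        rcases Fin.eq_self_or_eq_succAbove p i with h | ⟨j, rfl⟩
        · rw [h, ic_same, mul_one]
        · rw [ic_above]
          simp only [hμ]
          field_simp
      have h2 : (MvPolynomial.aeval (fun i => v p * ic p 1 (μ v) i) F : ℝ) =
          v p ^ 4 * MvPolynomial.aeval (ic p 1 (μ v)) F := by
        have h3 : (MvPolynomial.map (algebraMap ℚ ℝ) F).IsHomogeneous 4 := hF.map _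
        have h4 := SF.hom_smul h3 (v p) (ic p 1 (μ v))
        rw [MvPolynomial.eval_map, MvPolynomial.eval_map] at h4
        rw [MvPolynomial.aeval_def, MvPolynomial.aeval_def]
        exact h4
      rw [h1, h2, h0, mul_zero]
    obtain ⟨r, hr, hm⟩ := (piece_NS (deh_degree hF p)).move (μ x) (hval x hxp hxF)
    obtain ⟨ρ, hρ, hρ'⟩ := Metric.continuousAt_iff.1 (hμc x hxp) r hr
    refine ⟨ρ, hρ, ?_⟩
    rintro z ⟨hzp, hzN⟩ hzx y ⟨hyp, hyF⟩ hyx ε hε
    have hμz : μ (fun i => (z i : ℝ)) = fun j => ((z (p.succAbove j) / z p : ℚ) : ℝ) := by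
      funext j
      simp only [hμ]
      push_cast
      rfl
    -- the map back
    have hback : ContinuousAt (fun a : ℝ × (Fin n → ℝ) => fun i => a.1 * ic p 1 a.2 i)
        (y p, μ y) := by
      refine continuousAt_pi.2 fun i => ?_
      rcases Fin.eq_self_or_eq_succAbove p i with h | ⟨j, rfl⟩
      · have e : (fun a : ℝ × (Fin n → ℝ) => a.1 * ic p 1 a.2 i) = fun a => a.1 := by
          funext a
          rw [h, ic_same, mul_one]
        rw [e]
        exact continuousAt_fst
      · have e : (fun a : ℝ × (Fin n → ℝ) => a.1 * ic p 1 a.2 (p.succAbove j)) =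
            fun a => a.1 * a.2 j := by
          funext a
          rw [ic_above]
        rw [e]
        exact continuousAt_fst.mul (((continuous_apply j).comp continuous_snd).continuousAt)
    have hbacky : (fun i => y p * ic p 1 (μ y) i) = y := by
      funext i
      rcases Fin.eq_self_or_eq_succAbove p i with h | ⟨j, rfl⟩
      · rw [h, ic_same, mul_one]
      · rw [ic_above]
        simp only [hμ]
        field_simp
    obtain ⟨δ, hδ, hδ'⟩ := Metric.continuousAt_iff.1 hback ε hε
    obtain ⟨t, ht, -, htd, s, hs, hst⟩ := hm _ hzN (by rw [← hμz]; exact hρ' hzx) (μ y)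
      (hval y hyp hyF) (hρ' hyx) δ hδ
    obtain ⟨l, hl⟩ := exists_rat_near (y p) (min δ |y p|) (lt_min hδ (abs_pos.2 hyp))
    have hl0 : l ≠ 0 := by
      rintro rfl
      rw [Rat.cast_zero, zero_sub, abs_neg] at hl
      exact absurd (lt_of_lt_of_le hl (min_le_right _ _)) (lt_irrefl _)
    have hZp : (fun i => l * ic p 1 t i) p = l := by
      show l * ic p 1 t p = l
      rw [ic_same, mul_one]
    have hZc : (fun j => (fun i => l * ic p 1 t i) (p.succAbove j) / (fun i => l * ic p 1 t i) p) =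
        t := by
      funext j
      rw [hZp]
      show l * ic p 1 t (p.succAbove j) / l = t j
      rw [ic_above, mul_div_cancel_left₀ _ hl0]
    refine ⟨fun i => l * ic p 1 t i, ⟨by rw [hZp]; exact hl0, by rw [hZc]; exact ht⟩,
      fun i hi => absurd (Finset.mem_univ i) hi, fun i _ => ?_, l ^ 2 * s / z p ^ 2,
      div_ne_zero (mul_ne_zero (pow_ne_zero 2 hl0) hs) (pow_ne_zero 2 hzp), ?_⟩
    · have h1 : dist ((l : ℝ), fun j => (t j : ℝ)) (y p, μ y) < δ := by
        rw [Prod.dist_eq, max_lt_iff]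
        refine ⟨lt_of_lt_of_le hl (min_le_left _ _), ?_⟩
        show dist (fun j => (t j : ℝ)) (μ y) < δ
        rw [dist_pi_lt_iff hδ]
        exact fun j => htd j (Finset.mem_univ j)
      have h2 := hδ' h1
      rw [hbacky] at h2
      have h3 := (dist_pi_lt_iff hε).1 h2 i
      rw [Real.dist_eq] at h3
      refine lt_of_eq_of_lt ?_ h3
      congr 2
      show ((l * ic p 1 t i : ℚ) : ℝ) = (l : ℝ) * ic p 1 (fun j => (t j : ℝ)) i
      rcases Fin.eq_self_or_eq_succAbove p i with h | ⟨j, rfl⟩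
      · rw [h, ic_same, ic_same, mul_one, mul_one]
      · rw [ic_above, ic_above]
        push_cast
        rfl
    · have hZp' : (fun i => l * ic p 1 t i) p ≠ 0 := by rw [hZp]; exact hl0
      have hlp : l * ic p 1 t p = l := hZp
      rw [ic_div hF hZp', hZc]
      show (l * ic p 1 t p) ^ 4 * _ = _
      rw [hlp, hst, ic_div hF hzp]
      field_simp

/-- **rays** -/
theorem piece_ray {F : MvPolynomial (Fin (n + 1)) ℚ} (hF : F.IsHomogeneous 4)
    {p : Fin (n + 1)} {Y : Fin (n + 1) → ℚ} (hY : Y p = 1) : Piece Finset.univ 2 F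
      {Z | Z p ≠ 0 ∧ ∀ i, Z i = Z p * Y i} {x | x p ≠ 0 ∧ ∀ i, x i = x p * (Y i : ℝ)} where
  vars := Finset.subset_univ _
  cyl := fun z z' hz h => by
    have : z' = z := funext fun i => h i (Finset.mem_univ i)
    rw [this]
    exact hz
  sa := SAP.and (SAP.eq_zero (PF.coord p)).not (SAP.forall_fin fun i =>
    SAP.eq (PF.coord i) ((PF.coord p).mul (PF.const (Y i))))
  sub := fun Z hZ => by
    refine ⟨?_, fun i => ?_⟩
    · show ((Z p : ℚ) : ℝ) ≠ 0
      exact_mod_cast hZ.1
    · show ((Z i : ℚ) : ℝ) = ((Z p : ℚ) : ℝ) * (Y i : ℝ)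
      exact_mod_cast hZ.2 i
  move := by
    rintro x -
    refine ⟨1, one_pos, ?_⟩
    rintro z ⟨hzp, hz⟩ - y ⟨hyp, hy⟩ - ε hε
    set M : ℝ := 1 + ∑ i, |(Y i : ℝ)| with hM
    have hM0 : 0 < M := by
      have : 0 ≤ ∑ i, |(Y i : ℝ)| := Finset.sum_nonneg fun i _ => abs_nonneg _
      linarith
    obtain ⟨l, hl⟩ := exists_rat_near (y p) (min (ε / M) |y p|)
      (lt_min (by positivity) (abs_pos.2 hyp))
    have hl0 : l ≠ 0 := by
      rintro rfl
      rw [Rat.cast_zero, zero_sub, abs_neg] at hl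
      exact absurd (lt_of_lt_of_le hl (min_le_right _ _)) (lt_irrefl _)
    refine ⟨fun i => l * Y i, ⟨?_, fun i => ?_⟩, fun i hi => absurd (Finset.mem_univ i) hi,
      fun i _ => ?_, l ^ 2 / z p ^ 2, div_ne_zero (pow_ne_zero 2 hl0) (pow_ne_zero 2 hzp), ?_⟩
    · show l * Y p ≠ 0
      rw [hY, mul_one]
      exact hl0
    · show l * Y i = l * Y p * Y i
      rw [hY, mul_one]
    · have h1 : ((l * Y i : ℚ) : ℝ) - y i = ((l : ℝ) - y p) * (Y i : ℝ) := by
        rw [hy i]
        push_cast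
        ring
      rw [h1, abs_mul]
      have h2 : |(Y i : ℝ)| ≤ M := by
        have := Finset.single_le_sum (f := fun i => |(Y i : ℝ)|) (fun i _ => abs_nonneg _)
          (Finset.mem_univ i)
        linarith
      have h3 : |(l : ℝ) - y p| < ε / M := lt_of_lt_of_le hl (min_le_left _ _)
      calc |(l : ℝ) - y p| * |(Y i : ℝ)| ≤ |(l : ℝ) - y p| * M := by gcongr
        _ < ε / M * M := by gcongr
        _ = ε := by field_simp
    · have hz' : z = fun i => z p * Y i := funext hz
      have h1 : MvPolynomial.eval z F = z p ^ 4 * MvPolynomial.eval Y F := by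
        conv_lhs => rw [hz']
        exact Pool.Agent.NH8.C.eval_form hF _ _
      rw [Pool.Agent.NH8.C.eval_form hF, h1]
      field_simp

/-- **smooth quartic forms are blocks** -/
theorem blk_smooth {F : MvPolynomial (Fin (n + 1)) ℚ} (hF : F.IsHomogeneous 4)
    (hsm : SF.Smooth (FC F)) (hn : 2 ≤ n) :
    Blk Finset.univ 2 F {Z | MvPolynomial.eval Z F ≠ 0} := by
  have h1 : ∀ p : Fin (n + 1), Blk Finset.univ 2 F
      ({Z | Z p ≠ 0 ∧ (fun j => Z (p.succAbove j) / Z p) ∈ NS (deh F p)} ∪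
        ⋃ e ∈ {e ∈ Exc F p | MvPolynomial.eval (ic p 1 e) F ≠ 0},
          {Z | Z p ≠ 0 ∧ ∀ i, Z i = Z p * ic p 1 e i}) := fun p =>
    (Blk.of_piece (piece_cone hF p)).union
      (Blk.biUnion ((Exc_finite hF hsm hn p).subset fun e he => he.1)
        fun e _ => Blk.of_piece (piece_ray hF (ic_same p 1 e)))
  have h2 := Blk.biUnion (Set.finite_univ (α := Fin (n + 1))) (fun p _ => h1 p)
  refine h2.congr ?_
  ext Z
  simp only [Set.mem_iUnion, Set.mem_univ, exists_true_left, Set.mem_union, Set.mem_ofPred_eq]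
  constructor
  · rintro ⟨p, ⟨hp, hN⟩ | ⟨e, ⟨-, he⟩, hp, hZ⟩⟩
    · rw [ic_div hF hp]
      exact mul_ne_zero (pow_ne_zero 4 hp) (NS_ne hN)
    · have hZ' : Z = fun i => Z p * ic p 1 e i := funext hZ
      rw [hZ', Pool.Agent.NH8.C.eval_form hF]
      exact mul_ne_zero (pow_ne_zero 4 hp) he
  · intro hZ
    obtain ⟨p, hp⟩ : ∃ p, Z p ≠ 0 := by
      by_contra hne
      push Not at hne
      apply hZ
      have h3 : Z = fun i => 0 * Z i := by
        funext i
        rw [hne i, zero_mul]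
      rw [h3, Pool.Agent.NH8.C.eval_form hF]
      ring
    refine ⟨p, ?_⟩
    set e : Fin n → ℚ := fun j => Z (p.succAbove j) / Z p with he
    have hv := ic_div hF hp
    have he0 : MvPolynomial.eval e (deh F p) ≠ 0 := by
      intro h0
      apply hZ
      rw [hv, h0, mul_zero]
    by_cases hN : ∀ v u, ¬ NDP (deh F p) e v u
    · right
      have he1 : MvPolynomial.eval (ic p 1 e) F ≠ 0 := by rwa [← deh_eval]
      refine ⟨e, ⟨exceptional hF p he1 hN, he1⟩, hp, fun i => ?_⟩
      rcases Fin.eq_self_or_eq_succAbove p i with h | ⟨j, rfl⟩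
      · rw [h, ic_same, mul_one]
      · rw [ic_above, he]
        field_simp
    · left
      push Not at hN
      obtain ⟨v, u, hN⟩ := hN
      exact ⟨hp, NS_of_NDP (deh_quartic hF p) he0 hN⟩

end Pool.Agent.NH8.Q
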