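import Pool.Agent.NH8.QA

/-!
# Systems with smooth quartic forms
-/

set_option autoImplicit false
set_option linter.unusedSectionVars false
set_option linter.unusedVariables false
set_option linter.unusedSimpArgs false
set_option linter.deprecated false

open Set Filter Topology Pool.Agent.H581R2 Pool.Agent.TH729.SQ Pool.Agent.Y718 Pool.Agent.NH8.K
  Pool.Agent.NH8.C

namespace Pool.Agent.NH8.Q

lemma Blk_rename' {ι τ : Type} [Fintype ι] [Fintype τ] {V : Finset ι} {m : ℕ}
    {f : MvPolynomial ι ℚ} (g : ι ↪ τ) {Q : Set (ι → ℚ)} (h : Blk V m f Q) :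
    Blk (V.map g) m (MvPolynomial.rename g f) {z | (fun a => z (g a)) ∈ Q} := by
  obtain ⟨k, P, O, h1, h2⟩ := h
  exact ⟨k, fun i => {z | (fun a => z (g a)) ∈ P i}, fun i => {x | (fun a => x (g a)) ∈ O i},
    fun z => h1 _, fun i => Piece_rename g (h2 i)⟩

/-- **Smooth quartic forms in the variables `V`.** -/
theorem blk_quartic {ι : Type} [Fintype ι] {V : Finset ι} {f : MvPolynomial ι ℚ}
    (hv : f.vars ⊆ V) (hf : f.IsHomogeneous 4) (hV : 3 ≤ V.card)
    (hsm : ∀ z : ι → ℂ, (∀ i, MvPolynomial.aeval z (MvPolynomial.pderiv i f) = 0) →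
      ∀ i ∈ V, z i = 0) : Blk V 2 f {z | MvPolynomial.eval z f ≠ 0} := by
  classical
  obtain ⟨n, hn⟩ : ∃ n, V.card = n + 1 := ⟨V.card - 1, by omega⟩
  have hn2 : 2 ≤ n := by omega
  let e : V ≃ Fin (n + 1) := Fintype.equivFinOfCardEq (by rw [Fintype.card_coe, hn])
  let g : Fin (n + 1) ↪ ι := ⟨fun k => ((e.symm k : V) : ι),
    Subtype.val_injective.comp e.symm.injective⟩
  have hgk : ∀ k, g k = ((e.symm k : V) : ι) := fun k => rfl
  obtain ⟨F, hF⟩ := MvPolynomial.exists_rename_eq_of_vars_subset_range f g g.injective (by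
    intro i hi
    refine ⟨e ⟨i, hv hi⟩, ?_⟩
    rw [hgk, e.symm_apply_apply])
  have hFh : F.IsHomogeneous 4 := by
    rw [← MvPolynomial.IsHomogeneous.rename_isHomogeneous_iff g.injective, hF]
    exact hf
  have hVg : Finset.univ.map g = V := by
    ext i
    rw [Finset.mem_map]
    constructor
    · rintro ⟨k, -, rfl⟩
      exact (e.symm k).2
    · intro hi
      refine ⟨e ⟨i, hi⟩, Finset.mem_univ _, ?_⟩
      rw [hgk, e.symm_apply_apply]
  have hs : SF.Smooth (FC F) := by
    refine smooth_of fun y hy => ?_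
    set z : ι → ℂ := fun i => if hi : i ∈ V then y (e ⟨i, hi⟩) else 0 with hz
    have hzg : ∀ k, z (g k) = y k := by
      intro k
      simp only [hz]
      rw [dif_pos (show g k ∈ V from (e.symm k).2)]
      congr 1
      exact e.apply_symm_apply k
    have h1 := hsm z (fun i => by
      by_cases hi : ∃ k, g k = i
      · obtain ⟨k, rfl⟩ := hi
        rw [← hF, MvPolynomial.pderiv_rename g.injective, MvPolynomial.aeval_rename]
        rw [show z ∘ g = y from funext hzg]
        exact hy k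
      · rw [← hF]
        rw [MvPolynomial.pderiv_eq_zero_of_notMem_vars, map_zero]
        intro hi'
        obtain ⟨k, -, hk⟩ := Finset.mem_image.1 (MvPolynomial.vars_rename g F hi')
        exact hi ⟨k, hk⟩)
    funext k
    rw [← hzg]
    exact h1 _ (e.symm k).2
  have h2 := Blk_rename' g (blk_smooth hFh hs hn2)
  rw [hVg, hF] at h2
  refine h2.congr ?_
  ext z
  simp only [Set.mem_ofPred_eq]
  rw [← hF, MvPolynomial.eval_rename]
  rfl

variable {ι σ β κ : Type} [Fintype ι] [Fintype σ] [Fintype β] [Fintype κ] [DecidableEq κ]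

/-- **The closure of the set of the rational points of the system, values different from zero.** -/
theorem Sx_SA0 {V : β → Finset ι} {f : β → MvPolynomial ι ℚ} {m : β → ℕ}
    (hd : ∀ b c, b ≠ c → Disjoint (V b) (V c))
    (h : ∀ b, Blk (V b) (m b) (f b) {z | MvPolynomial.eval z (f b) ≠ 0})
    {e : σ → κ} {g : κ → MvPolynomial σ ℚ} (hv : ∀ j, ∀ i ∈ (g j).vars, e i = j)
    {k : κ → ℕ} (hk : ∀ j, k j ≠ 0) (hg : ∀ j, (g j).IsHomogeneous (k j))
    (hgB : ∀ j, Blk (Finset.univ.filter fun i => e i = j) (k j) (g j) univ)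
    {c : κ → ℚ} {E : κ → β → ℕ} (hE : ∀ j b, k j ∣ m b * E j b) {D : Set (β → ℚ)}
    (hD : Stb m D) (hD0 : ∀ d ∈ D, ∀ b, d b ≠ 0) : SA (closure (rl (Sx f g c E D))) := by
  classical
  have e1 : Sx f g c E D = {w | w ∈ Sx f g c E D ∧
        ∀ b, MvPolynomial.eval (fun i => w (Sum.inl i)) (f b) = 0 ↔ b ∈ (∅ : Set β)} := by
    ext w
    constructor
    · intro hw
      refine ⟨hw, fun b => ?_⟩
      have := hD0 _ hw.1 b
      simp only [this, Set.mem_empty_iff_false]
    · rintro ⟨hw, -⟩
      exact hw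
  rw [e1, Sx_closure hv hk hg]
  refine Pool.Agent.TH729.SQ.SA.closure (Yx_SA c E ∅ ?_)
  have e2 : As (Fa f g) (fun _ => univ) (Dc D k c E ∅) = As (Fa f g)
      (Sum.elim (fun b => {w | (fun i => w (Function.Embedding.inl i)) ∈
        {z : ι → ℚ | MvPolynomial.eval z (f b) ≠ 0}}) (fun _ => univ)) (Dc D k c E ∅) := by
    ext w
    constructor
    · rintro ⟨-, hw⟩
      refine ⟨?_, hw⟩
      rintro (b | j)
      · have h1 := hD0 _ hw.1 b
        have h2 : MvPolynomial.eval w (MvPolynomial.rename Sum.inl (f b)) ≠ 0 := h1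
        rw [MvPolynomial.eval_rename] at h2
        exact h2
      · exact mem_univ _
    · rintro ⟨-, hw⟩
      exact ⟨fun _ => mem_univ _, hw⟩
  rw [e2]
  refine blk_SA (V := Sum.elim (fun b => (V b).map Function.Embedding.inl)
    (fun j => (Finset.univ.filter fun i => e i = j).map Function.Embedding.inr))
    (m := Sum.elim m k) ?_ ?_ (Dc_Stb hD hE ∅)
  · rintro (b | j) (b' | j') hne
    · refine (Finset.disjoint_map _).2 (hd b b' fun h => hne (by rw [h]))
    · rw [Finset.disjoint_left]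
      intro a ha ha'
      obtain ⟨i, -, rfl⟩ := Finset.mem_map.1 ha
      obtain ⟨i', -, h⟩ := Finset.mem_map.1 ha'
      exact Sum.inr_ne_inl h
    · rw [Finset.disjoint_left]
      intro a ha ha'
      obtain ⟨i, -, rfl⟩ := Finset.mem_map.1 ha
      obtain ⟨i', -, h⟩ := Finset.mem_map.1 ha'
      exact Sum.inl_ne_inr h
    · refine (Finset.disjoint_map _).2 ?_
      rw [Finset.disjoint_left]
      intro i hi hi'
      rw [Finset.mem_filter] at hi hi'
      exact hne (by rw [← hi.2, ← hi'.2])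
  · rintro (b | j)
    · exact Blk_rename' Function.Embedding.inl (h b)
    · exact Blk_rename Function.Embedding.inr (hgB j)

end Pool.Agent.NH8.Q
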