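import Pool.Agent.Y718.Quartic
import Mathlib.NumberTheory.Height.MvPolynomial
import Mathlib.NumberTheory.Height.Northcott
import Mathlib.NumberTheory.Height.NumberField

/-!
# Points of infinite order on the quartic and sextic twists
-/

set_option autoImplicit false
set_option linter.unusedSectionVars false
set_option linter.unusedVariables false

open Height

namespace Pool.Agent.NH8.R

open MvPolynomial in
/-- lower bound for the height of the values of a rational function of degree four -/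
lemma ht_lower (P Q A B A' B' : MvPolynomial (Fin 2) ℚ) (hA : A.IsHomogeneous 3)
    (hB : B.IsHomogeneous 3) (hA' : A'.IsHomogeneous 3) (hB' : B'.IsHomogeneous 3)
    (h0 : A * P + B * Q = X 0 ^ 7) (h1 : A' * P + B' * Q = X 1 ^ 7) :
    ∃ C : ℝ, ∀ u : ℚ, C + 4 * logHeight₁ u ≤ logHeight ![eval ![u, 1] P, eval ![u, 1] Q] := by
  let q : Fin 2 × Fin 2 → MvPolynomial (Fin 2) ℚ := fun a => ![![A, B], ![A', B']] a.1 a.2
  have hq : ∀ a, (q a).IsHomogeneous 3 := by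
    rintro ⟨i, j⟩
    fin_cases i <;> fin_cases j
    · exact hA
    · exact hB
    · exact hA'
    · exact hB'
  obtain ⟨C, hC⟩ := logHeight_eval_ge' (K := ℚ) (N := 4) hq
  refine ⟨C, fun u => ?_⟩
  have h2 := hC ![P, Q] (x := ![u, 1]) (fun k => by
    fin_cases k
    · have := congrArg (eval ![u, 1]) h0
      rw [map_add, map_mul, map_mul, map_pow, eval_X] at this
      rw [Fin.sum_univ_two]
      exact this
    · have := congrArg (eval ![u, 1]) h1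
      rw [map_add, map_mul, map_mul, map_pow, eval_X] at this
      rw [Fin.sum_univ_two]
      exact this)
  rw [← logHeight₁_eq_logHeight] at h2
  refine (le_of_eq ?_).trans (h2.trans (le_of_eq ?_))
  · norm_num
  · congr 1
    funext i
    fin_cases i <;> rfl

/-- the heights increase -/
lemma dbl (N D : ℚ → ℚ) (h : ∃ C : ℝ, ∀ u : ℚ, C + 4 * logHeight₁ u ≤ logHeight ![N u, D u]) :
    ∃ B : ℝ, ∀ u : ℚ, (D u = 0 → logHeight₁ u ≤ B) ∧
      (D u ≠ 0 → B < logHeight₁ u → logHeight₁ u < logHeight₁ (N u / D u)) := by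
  obtain ⟨C, hC⟩ := h
  have hnn : ∀ x : ℚ, 0 ≤ logHeight₁ x := fun x => by
    rw [logHeight₁_eq_logHeight]
    exact logHeight_nonneg _
  have hC1 := neg_abs_le C
  refine ⟨|C|, fun u => ⟨fun h0 => ?_, fun h0 hB => ?_⟩⟩
  · have h1 := hC u
    have h2 : logHeight ![N u, D u] = 0 := by
      rw [h0]
      by_cases hN : N u = 0
      · rw [hN]
        have : (![0, 0] : Fin 2 → ℚ) = 0 := by
          funext i; fin_cases i <;> rfl
        rw [this, logHeight_zero]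
      · have e : (![N u, (0 : ℚ)] : Fin 2 → ℚ) = N u • ![1, 0] := by
          funext i; fin_cases i <;> simp
        rw [e, logHeight_smul_eq_logHeight _ hN, logHeight_swap, ← logHeight₁_eq_logHeight,
          logHeight₁_zero]
    rw [h2] at h1
    linarith [hnn u]
  · have h1 := hC u
    have h2 : logHeight ![N u, D u] = logHeight₁ (N u / D u) := by
      have e : (![N u, D u] : Fin 2 → ℚ) = D u • ![N u / D u, 1] := by
        funext i; fin_cases i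
        · simp [mul_div_cancel₀ _ h0]
        · simp
      rw [e, logHeight_smul_eq_logHeight _ h0, ← logHeight₁_eq_logHeight]
    rw [h2] at h1
    have := hnn u
    linarith

section E4

open MvPolynomial

/-- the height for the duplication on the quartic twists -/
lemma dbl4 : ∃ B : ℝ, ∀ u : ℚ, (16 * u * (u + 1) ^ 2 = 0 → logHeight₁ u ≤ B) ∧
    (16 * u * (u + 1) ^ 2 ≠ 0 → B < logHeight₁ u →
      logHeight₁ u < logHeight₁ ((u - 1) ^ 4 / (16 * u * (u + 1) ^ 2))) := by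
  refine dbl (fun u => (u - 1) ^ 4) (fun u => 16 * u * (u + 1) ^ 2) ?_
  have hX : ∀ i : Fin 2, (X i : MvPolynomial (Fin 2) ℚ).IsHomogeneous 1 := fun i =>
    isHomogeneous_X _ _
  have h3 : ∀ (c : ℚ) (a b : ℕ), a + b = 3 →
      (C c * (X 0 : MvPolynomial (Fin 2) ℚ) ^ a * X 1 ^ b).IsHomogeneous 3 := by
    intro c a b hab
    have := ((isHomogeneous_C (Fin 2) c).mul ((hX 0).pow a)).mul ((hX 1).pow b)
    rw [← hab]
    refine cast ?_ this
    congr 1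
    ring
  obtain ⟨K, hK⟩ := ht_lower ((X 0 - X 1) ^ 4) (C 16 * X 0 * X 1 * (X 0 + X 1) ^ 2)
    (C (13 / 16) * X 0 ^ 1 * X 1 ^ 2 + C (7 / 4) * X 0 ^ 2 * X 1 ^ 1 + C 1 * X 0 ^ 3 * X 1 ^ 0)
    (C (-13 / 256) * X 0 ^ 0 * X 1 ^ 3 + C (25 / 128) * X 0 ^ 1 * X 1 ^ 2 +
      C (-69 / 256) * X 0 ^ 2 * X 1 ^ 1 + C (9 / 64) * X 0 ^ 3 * X 1 ^ 0)
    (C 1 * X 0 ^ 0 * X 1 ^ 3 + C (7 / 4) * X 0 ^ 1 * X 1 ^ 2 + C (13 / 16) * X 0 ^ 2 * X 1 ^ 1)
    (C (9 / 64) * X 0 ^ 0 * X 1 ^ 3 + C (-69 / 256) * X 0 ^ 1 * X 1 ^ 2 +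
      C (25 / 128) * X 0 ^ 2 * X 1 ^ 1 + C (-13 / 256) * X 0 ^ 3 * X 1 ^ 0)
    (((h3 _ _ _ rfl).add (h3 _ _ _ rfl)).add (h3 _ _ _ rfl))
    ((((h3 _ _ _ rfl).add (h3 _ _ _ rfl)).add (h3 _ _ _ rfl)).add (h3 _ _ _ rfl))
    (((h3 _ _ _ rfl).add (h3 _ _ _ rfl)).add (h3 _ _ _ rfl))
    ((((h3 _ _ _ rfl).add (h3 _ _ _ rfl)).add (h3 _ _ _ rfl)).add (h3 _ _ _ rfl))
    (by
      apply MvPolynomial.funext
      intro x
      simp only [map_add, map_mul, map_pow, map_sub, eval_C, eval_X]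
      ring)
    (by
      apply MvPolynomial.funext
      intro x
      simp only [map_add, map_mul, map_pow, map_sub, eval_C, eval_X]
      ring)
  refine ⟨K, fun u => (hK u).trans (le_of_eq ?_)⟩
  congr 1
  funext i
  fin_cases i
  · simp
  · simp

/-- **Infinitely many points on the quartic twists.** -/
theorem inf4 : ∃ Ξ : Set ℚ, Ξ.Finite ∧ ∀ D x y : ℚ, D ≠ 0 → y ^ 2 = x ^ 3 + D * x →
    x ^ 2 / D ∉ Ξ → {z : ℚ × ℚ | z.2 ^ 2 = z.1 ^ 3 + D * z.1}.Infinite := by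
  obtain ⟨B, hB⟩ := dbl4
  refine ⟨{u : ℚ | logHeight₁ u ≤ B}, NumberField.finite_setOfPred_logHeight₁_le ℚ B, ?_⟩
  intro D x y hD hxy hu hfin
  have hu' : B < logHeight₁ (x ^ 2 / D) := not_le.1 hu
  obtain ⟨z, ⟨hz1, hz2⟩, hmax⟩ := Set.exists_max_image
    ({z : ℚ × ℚ | z.2 ^ 2 = z.1 ^ 3 + D * z.1} ∩ {z | B < logHeight₁ (z.1 ^ 2 / D)})
    (fun z => logHeight₁ (z.1 ^ 2 / D)) (hfin.subset Set.inter_subset_left) ⟨(x, y), hxy, hu'⟩
  obtain ⟨X, Y⟩ := z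
  have hXY : Y ^ 2 = X ^ 3 + D * X := hz1
  have hz : B < logHeight₁ (X ^ 2 / D) := hz2
  have hd : 16 * (X ^ 2 / D) * (X ^ 2 / D + 1) ^ 2 ≠ 0 := fun h0 =>
    absurd ((hB _).1 h0) (not_le.2 hz)
  have hX0 : X ≠ 0 := by
    rintro rfl
    apply hd
    simp
  have hX1 : X ^ 2 + D ≠ 0 := by
    intro h0
    apply hd
    have : X ^ 2 / D + 1 = 0 := by
      field_simp
      rw [h0, mul_zero]
    rw [this]
    ring
  have hY : Y ≠ 0 := by
    rintro rfl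
    have : X * (X ^ 2 + D) = 0 := by linear_combination -hXY
    exact (mul_ne_zero hX0 hX1) this
  set l := (3 * X ^ 2 + D) / (2 * Y) with hl
  set X' := l ^ 2 - 2 * X with hX'
  have hlY : 2 * Y * l = 3 * X ^ 2 + D := by
    rw [hl]
    field_simp
  have hX'e : X' = (X ^ 2 - D) ^ 2 / (4 * (X * (X ^ 2 + D))) := by
    rw [eq_div_iff (mul_ne_zero four_ne_zero (mul_ne_zero hX0 hX1)), hX']
    have e1 : 4 * (X * (X ^ 2 + D)) = 4 * Y ^ 2 := by rw [hXY]; ring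
    rw [e1]
    linear_combination (2 * Y * l + 3 * X ^ 2 + D) * hlY - 8 * X * hXY
  have hcur : (-(Y + l * (X' - X))) ^ 2 = X' ^ 3 + D * X' := by
    have e1 : X' + 2 * X = l ^ 2 := by rw [hX']; ring
    linear_combination (X' - X) ^ 2 * (-1) * e1 + hXY + (X' - X) * hlY
  have hstep := (hB _).2 hd hz
  have hue : X' ^ 2 / D = (X ^ 2 / D - 1) ^ 4 / (16 * (X ^ 2 / D) * (X ^ 2 / D + 1) ^ 2) := by
    rw [hX'e]
    field_simp
    ring
  rw [← hue] at hstep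
  have h2 := hmax (X', -(Y + l * (X' - X))) ⟨hcur, lt_trans hz hstep⟩
  exact absurd hstep (not_lt.2 h2)

/-- the height for the duplication on the sextic twists -/
lemma dbl6 : ∃ B : ℝ, ∀ u : ℚ, (64 * (u + 1) ^ 3 = 0 → logHeight₁ u ≤ B) ∧
    (64 * (u + 1) ^ 3 ≠ 0 → B < logHeight₁ u →
      logHeight₁ u < logHeight₁ (u * (u - 8) ^ 3 / (64 * (u + 1) ^ 3))) := by
  refine dbl (fun u => u * (u - 8) ^ 3) (fun u => 64 * (u + 1) ^ 3) ?_
  have hX : ∀ i : Fin 2, (X i : MvPolynomial (Fin 2) ℚ).IsHomogeneous 1 := fun i =>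
    isHomogeneous_X _ _
  have h3 : ∀ (c : ℚ) (a b : ℕ), a + b = 3 →
      (C c * (X 0 : MvPolynomial (Fin 2) ℚ) ^ a * X 1 ^ b).IsHomogeneous 3 := by
    intro c a b hab
    have := ((isHomogeneous_C (Fin 2) c).mul ((hX 0).pow a)).mul ((hX 1).pow b)
    rw [← hab]
    refine cast ?_ this
    congr 1
    ring
  obtain ⟨K, hK⟩ := ht_lower (X 0 * (X 0 - C 8 * X 1) ^ 3) (C 64 * X 1 * (X 0 + X 1) ^ 3)
    (C (19456 / 19683) * X 0 ^ 0 * X 1 ^ 3 + C (58496 / 19683) * X 0 ^ 1 * X 1 ^ 2 +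
      C (58696 / 19683) * X 0 ^ 2 * X 1 ^ 1 + C 1 * X 0 ^ 3 * X 1 ^ 0)
    (C 0 * X 0 ^ 0 * X 1 ^ 3 + C (155648 / 19683) * X 0 ^ 1 * X 1 ^ 2 +
      C (-57344 / 19683) * X 0 ^ 2 * X 1 ^ 1 + C (6464 / 19683) * X 0 ^ 3 * X 1 ^ 0)
    (C (101 / 19683) * X 0 ^ 0 * X 1 ^ 3 + C (112 / 19683) * X 0 ^ 1 * X 1 ^ 2 +
      C (38 / 19683) * X 0 ^ 2 * X 1 ^ 1 + C 0 * X 0 ^ 3 * X 1 ^ 0)
    (C (1 / 64) * X 0 ^ 0 * X 1 ^ 3 + C (-7337 / 1259712) * X 0 ^ 1 * X 1 ^ 2 +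
      C (457 / 629856) * X 0 ^ 2 * X 1 ^ 1 + C (-19 / 629856) * X 0 ^ 3 * X 1 ^ 0)
    ((((h3 _ _ _ rfl).add (h3 _ _ _ rfl)).add (h3 _ _ _ rfl)).add (h3 _ _ _ rfl))
    ((((h3 _ _ _ rfl).add (h3 _ _ _ rfl)).add (h3 _ _ _ rfl)).add (h3 _ _ _ rfl))
    ((((h3 _ _ _ rfl).add (h3 _ _ _ rfl)).add (h3 _ _ _ rfl)).add (h3 _ _ _ rfl))
    ((((h3 _ _ _ rfl).add (h3 _ _ _ rfl)).add (h3 _ _ _ rfl)).add (h3 _ _ _ rfl))
    (by
      apply MvPolynomial.funext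
      intro x
      simp only [map_add, map_mul, map_pow, map_sub, eval_C, eval_X]
      ring)
    (by
      apply MvPolynomial.funext
      intro x
      simp only [map_add, map_mul, map_pow, map_sub, eval_C, eval_X]
      ring)
  refine ⟨K, fun u => (hK u).trans (le_of_eq ?_)⟩
  congr 1
  funext i
  fin_cases i
  · simp
  · simp

/-- **Infinitely many points on the sextic twists.** -/
theorem inf6 : ∃ Ξ : Set ℚ, Ξ.Finite ∧ ∀ D x y : ℚ, D ≠ 0 → y ^ 2 = x ^ 3 + D →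
    x ^ 3 / D ∉ Ξ → {z : ℚ × ℚ | z.2 ^ 2 = z.1 ^ 3 + D}.Infinite := by
  obtain ⟨B, hB⟩ := dbl6
  refine ⟨{u : ℚ | logHeight₁ u ≤ B}, NumberField.finite_setOfPred_logHeight₁_le ℚ B, ?_⟩
  intro D x y hD hxy hu hfin
  have hu' : B < logHeight₁ (x ^ 3 / D) := not_le.1 hu
  obtain ⟨z, ⟨hz1, hz2⟩, hmax⟩ := Set.exists_max_image
    ({z : ℚ × ℚ | z.2 ^ 2 = z.1 ^ 3 + D} ∩ {z | B < logHeight₁ (z.1 ^ 3 / D)})
    (fun z => logHeight₁ (z.1 ^ 3 / D)) (hfin.subset Set.inter_subset_left) ⟨(x, y), hxy, hu'⟩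
  obtain ⟨X, Y⟩ := z
  have hXY : Y ^ 2 = X ^ 3 + D := hz1
  have hz : B < logHeight₁ (X ^ 3 / D) := hz2
  have hd : 64 * (X ^ 3 / D + 1) ^ 3 ≠ 0 := fun h0 =>
    absurd ((hB _).1 h0) (not_le.2 hz)
  have hX1 : X ^ 3 + D ≠ 0 := by
    intro h0
    apply hd
    have : X ^ 3 / D + 1 = 0 := by
      field_simp
      rw [h0, mul_zero]
    rw [this]
    ring
  have hY : Y ≠ 0 := by
    rintro rfl
    exact hX1 (by linear_combination -hXY)
  set l := (3 * X ^ 2) / (2 * Y) with hl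
  set X' := l ^ 2 - 2 * X with hX'
  have hlY : 2 * Y * l = 3 * X ^ 2 := by
    rw [hl]
    field_simp
  have hX'e : X' = (X ^ 4 - 8 * D * X) / (4 * (X ^ 3 + D)) := by
    rw [eq_div_iff (mul_ne_zero four_ne_zero hX1), hX']
    have e1 : 4 * (X ^ 3 + D) = 4 * Y ^ 2 := by rw [hXY]
    rw [e1]
    linear_combination (2 * Y * l + 3 * X ^ 2) * hlY - 8 * X * hXY
  have hcur : (-(Y + l * (X' - X))) ^ 2 = X' ^ 3 + D := by
    have e1 : X' + 2 * X = l ^ 2 := by rw [hX']; ring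
    linear_combination (X' - X) ^ 2 * (-1) * e1 + hXY + (X' - X) * hlY
  have hstep := (hB _).2 hd hz
  have hue : X' ^ 3 / D = (X ^ 3 / D) * (X ^ 3 / D - 8) ^ 3 / (64 * (X ^ 3 / D + 1) ^ 3) := by
    rw [hX'e]
    field_simp
    ring
  rw [← hue] at hstep
  have h2 := hmax (X', -(Y + l * (X' - X))) ⟨hcur, lt_trans hz hstep⟩
  exact absurd hstep (not_lt.2 h2)

end E4

end Pool.Agent.NH8.R
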