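import Pool.Agent.NH8.RA
import Pool.Agent.Y718.Den
import Pool.Agent.Y718.Line

/-!
# Moves on the curves `w⁴ = q(t)`, `w⁶ = l₁(t) l₂(t)²`
-/

set_option autoImplicit false
set_option linter.unusedSectionVars false
set_option linter.unusedVariables false

open Set Filter Topology Pool.Agent.Y718

namespace Pool.Agent.NH8.R

open Polynomial in
/-- **moves for the exponent four** -/
theorem mv4 : ∃ Ξ : Set ℚ, Ξ.Finite ∧ ∀ a b c : ℚ, c ≠ 0 → b ≠ 0 → a * c / b ^ 2 ∉ Ξ → ∀ y : ℝ,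
    0 < ((a : ℝ) * y ^ 2 + b * y + c) * c → ∀ ε : ℝ, 0 < ε → ∃ t : ℚ, |(t : ℝ) - y| < ε ∧
      ∃ s : ℚ, s ≠ 0 ∧ a * t ^ 2 + b * t + c = s ^ 4 * c := by
  obtain ⟨Ξ, hΞ, h4⟩ := inf4
  refine ⟨{0, 1 / 4} ∪ {ρ | -16 * ρ * (1 - 4 * ρ) ∈ Ξ}, ?_, ?_⟩
  · refine (Set.toFinite _).union ?_
    have h1 : {ρ : ℚ | -16 * ρ * (1 - 4 * ρ) ∈ Ξ} ⊆ ⋃ ξ ∈ Ξ,
        {ρ : ℚ | (C 64 * X ^ 2 - C 16 * X - C ξ : Polynomial ℚ).eval ρ = 0} := by
      intro ρ hρ
      simp only [Set.mem_iUnion]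
      refine ⟨_, hρ, ?_⟩
      simp only [Set.mem_ofPred_eq, eval_sub, eval_mul, eval_pow, eval_X, eval_C]
      ring
    refine (hΞ.biUnion fun ξ _ => Fam.roots_fin ?_).subset h1
    intro h0
    have := congrArg (fun p => Polynomial.coeff p 2) h0
    simp at this
  intro a b c hc hb hρ y hy ε hε
  rw [Set.mem_union, not_or] at hρ
  obtain ⟨hρ1, hρ2⟩ := hρ
  have ha : a ≠ 0 := by
    rintro rfl
    apply hρ1
    left
    simp
  obtain ⟨Δ, hΔ⟩ : ∃ Δ, Δ = b ^ 2 - 4 * a * c := ⟨_, rfl⟩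
  have hΔ0 : Δ ≠ 0 := by
    intro h0
    apply hρ1
    right
    have : b ^ 2 = 4 * a * c := by linear_combination h0 - hΔ
    show a * c / b ^ 2 = 1 / 4
    rw [this]
    field_simp
  obtain ⟨A, hA⟩ : ∃ A, A = 4 * a * c := ⟨_, rfl⟩
  have hA0 : A ≠ 0 := hA ▸ mul_ne_zero (mul_ne_zero four_ne_zero ha) hc
  have hAΔ : A + Δ = b ^ 2 := by rw [hΔ, hA]; ring
  have hinf := h4 (-4 * A * Δ) (-4 * A * Δ / b ^ 2) (4 * A * Δ * (A - Δ) / b ^ 3)
    (mul_ne_zero (mul_ne_zero (by norm_num) hA0) hΔ0) (by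
      have hb2 : b ^ 2 ≠ 0 := pow_ne_zero 2 hb
      field_simp
      linear_combination (A + Δ + b ^ 2) * hAΔ) (by
      have h1 : (-4 * A * Δ / b ^ 2) ^ 2 / (-4 * A * Δ) =
          -16 * (a * c / b ^ 2) * (1 - 4 * (a * c / b ^ 2)) := by
        have h2 : 1 - 4 * (a * c / b ^ 2) = Δ / b ^ 2 := by
          rw [hΔ]
          field_simp
        rw [h2]
        field_simp
        rw [hA]
        ring
      rw [h1]
      exact hρ2)
  -- the quartic polynomial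
  set q : Polynomial ℚ := C A * X ^ 4 + C Δ with hq
  have hqe : ∀ w, q.eval w = A * w ^ 4 + Δ := fun w => by
    simp [hq]
  have hqa : ∀ w : ℝ, aeval w q = (A : ℝ) * w ^ 4 + Δ := fun w => by
    simp [hq]
  have hqd : q.natDegree ≤ 4 := by
    rw [hq]
    exact natDegree_add_le_of_degree_le ((natDegree_C_mul_X_pow_le _ _)) (by simp)
  have hsq := inf_sq (4 * A) (6 * A) (4 * A) A b hb (by
    have h1 := hinf.image (f := fun z : ℚ × ℚ => (z.1 - 2 * A, z.2)) (by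
      rintro ⟨x1, y1⟩ - ⟨x2, y2⟩ - h
      simp only [Prod.mk.injEq] at h
      exact Prod.ext (by linarith [h.1]) h.2)
    refine h1.mono ?_
    rintro _ ⟨⟨x1, y1⟩, h, rfl⟩
    have h' : y1 ^ 2 = x1 ^ 3 + (-4 * A * Δ) * x1 := h
    show y1 ^ 2 = (x1 - 2 * A) ^ 3 + 6 * A * (x1 - 2 * A) ^ 2 + (4 * A * (4 * A) - 4 * b ^ 2 * A) *
      (x1 - 2 * A) + (b ^ 2 * (4 * A) ^ 2 + (4 * A) ^ 2 * A - 4 * b ^ 2 * (6 * A) * A)
    rw [h', ← hAΔ]
    ring)
  have hsqi : (Sq q).Infinite := by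
    have h1 := hsq.image (f := fun τ : ℚ => 1 + τ) (fun _ _ _ _ h => by simpa using h)
    refine h1.mono ?_
    rintro _ ⟨τ, ⟨w, hw⟩, rfl⟩
    refine ⟨w, ?_⟩
    rw [hw, hqe, qv, ← hAΔ]
    ring
  -- the main case
  have main : ∀ y : ℝ, 2 * (a : ℝ) * y + b ≠ 0 → 0 < ((a : ℝ) * y ^ 2 + b * y + c) * c →
      ∀ ε : ℝ, 0 < ε → ∃ t : ℚ, |(t : ℝ) - y| < ε ∧
      ∃ s : ℚ, s ≠ 0 ∧ a * t ^ 2 + b * t + c = s ^ 4 * c := by
    intro y hys hy ε hε
    have hcR : (c : ℝ) ≠ 0 := by exact_mod_cast hc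
    have haR : (a : ℝ) ≠ 0 := by exact_mod_cast ha
    set r : ℝ := ((a : ℝ) * y ^ 2 + b * y + c) / c with hr
    have hr0 : 0 < r := by
      rw [hr, div_eq_mul_inv]
      have : (((a : ℝ) * y ^ 2 + b * y + c) * c) * ((c : ℝ)⁻¹) ^ 2 =
          ((a : ℝ) * y ^ 2 + b * y + c) * (c : ℝ)⁻¹ := by field_simp
      rw [← this]
      positivity
    set ω : ℝ := r ^ (((4 : ℕ) : ℝ)⁻¹) with hω
    have hω0 : 0 < ω := Real.rpow_pos_of_pos hr0 _
    have hω4 : ω ^ 4 = r := Real.rpow_inv_natCast_pow hr0.le four_ne_zero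
    have hS : (A : ℝ) * ω ^ 4 + Δ = (2 * (a : ℝ) * y + b) ^ 2 := by
      rw [hω4, hr, hA, hΔ]
      push_cast
      field_simp
      ring
    have hSpos : 0 < (A : ℝ) * ω ^ 4 + Δ := by rw [hS]; positivity
    have h1pos : 0 < (A : ℝ) * 1 ^ 4 + Δ := by
      have : (A : ℝ) + Δ = (b : ℝ) ^ 2 := by exact_mod_cast hAΔ
      have hbR : (b : ℝ) ≠ 0 := by exact_mod_cast hb
      rw [one_pow, mul_one, this]
      positivity
    have hJ : ∀ w ∈ Set.uIcc 1 ω, 0 < (A : ℝ) * w ^ 4 + Δ := by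
      intro w hw
      rcases le_total 1 ω with h | h
      · rw [Set.uIcc_of_le h] at hw
        have e1 : (1 : ℝ) ^ 4 ≤ w ^ 4 := pow_le_pow_left₀ zero_le_one hw.1 4
        have e2 : w ^ 4 ≤ ω ^ 4 := pow_le_pow_left₀ (zero_le_one.trans hw.1) hw.2 4
        rcases le_total 0 (A : ℝ) with hA' | hA'
        · nlinarith
        · nlinarith
      · rw [Set.uIcc_of_ge h] at hw
        have e1 : ω ^ 4 ≤ w ^ 4 := pow_le_pow_left₀ hω0.le hw.1 4
        have e2 : w ^ 4 ≤ 1 ^ 4 := pow_le_pow_left₀ (hω0.le.trans hw.1) hw.2 4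
        rcases le_total 0 (A : ℝ) with hA' | hA'
        · nlinarith
        · nlinarith
    have hrc : ω ∈ rc (Sq q) := by
      refine den_conn hqd hsqi (J := Set.uIcc 1 ω) isPreconnected_uIcc ?_
        (x0 := 1) Set.left_mem_uIcc ?_ Set.right_mem_uIcc
      · intro w hw
        rw [hqa]
        exact (hJ w hw).ne'
      · have h1 : (1 : ℚ) ∈ Sq q := ⟨b, by rw [hqe, ← hAΔ]; ring⟩
        have := mem_rc h1
        rwa [Rat.cast_one] at this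
    obtain ⟨σ, hσ1, hσ2⟩ : ∃ σ : ℚ, σ ^ 2 = 1 ∧ (σ : ℝ) * |2 * (a : ℝ) * y + b| =
        2 * (a : ℝ) * y + b := by
      rcases le_total 0 (2 * (a : ℝ) * y + b) with h | h
      · exact ⟨1, by norm_num, by rw [abs_of_nonneg h]; simp⟩
      · exact ⟨-1, by norm_num, by rw [abs_of_nonpos h]; push_cast; ring⟩
    set g : ℝ → ℝ := fun w => ((σ : ℝ) * Real.sqrt ((A : ℝ) * w ^ 4 + Δ) - b) / (2 * a) with hg
    have hgω : g ω = y := by
      simp only [hg]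
      rw [hS, Real.sqrt_sq_eq_abs, hσ2]
      field_simp
      ring
    have hgc : ContinuousAt g ω := by
      refine Continuous.continuousAt ?_
      simp only [hg]
      fun_prop
    obtain ⟨δ, hδ, hδ'⟩ := Metric.continuousAt_iff.1 hgc ε hε
    obtain ⟨_, ⟨w, ⟨S, hSw⟩, rfl⟩, hwd⟩ := Metric.mem_closure_iff.1 hrc (min δ ω) (lt_min hδ hω0)
    rw [hqe] at hSw
    have hw0 : w ≠ 0 := by
      rintro rfl
      have h1 : dist ω ((0 : ℚ) : ℝ) < ω := lt_of_lt_of_le hwd (min_le_right _ _)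
      rw [Rat.cast_zero, Real.dist_eq, sub_zero, abs_of_pos hω0] at h1
      exact lt_irrefl _ h1
    have h2 := hδ' (x := (w : ℝ)) (by rw [dist_comm]; exact lt_of_lt_of_le hwd (min_le_left _ _))
    rw [hgω, Real.dist_eq] at h2
    refine ⟨(σ * |S| - b) / (2 * a), ?_, w, hw0, ?_⟩
    · have h3 : g w = (((σ * |S| - b) / (2 * a) : ℚ) : ℝ) := by
        simp only [hg]
        have h4 : (A : ℝ) * (w : ℝ) ^ 4 + Δ = (S : ℝ) ^ 2 := by exact_mod_cast hSw.symm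
        rw [h4, Real.sqrt_sq_eq_abs]
        push_cast
        rfl
      rw [← h3]
      exact h2
    · have h3 : (2 * a * ((σ * |S| - b) / (2 * a)) + b) ^ 2 = A * w ^ 4 + Δ := by
        rw [← hSw]
        have : 2 * a * ((σ * |S| - b) / (2 * a)) + b = σ * |S| := by
          field_simp
          ring
        rw [this, mul_pow, hσ1, one_mul, sq_abs]
      set t := (σ * |S| - b) / (2 * a)
      have h4 : 4 * a * (a * t ^ 2 + b * t + c) = 4 * a * (w ^ 4 * c) := by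
        rw [hΔ, hA] at h3
        linear_combination h3
      exact mul_left_cancel₀ (mul_ne_zero four_ne_zero ha) h4
  by_cases hys : 2 * (a : ℝ) * y + b = 0
  · -- a point nearby
    have hcont : Continuous fun y : ℝ => ((a : ℝ) * y ^ 2 + b * y + c) * c := by fun_prop
    obtain ⟨δ, hδ, hball⟩ := Metric.isOpen_iff.1 (isOpen_lt continuous_const hcont) y hy
    set y1 : ℝ := y + min δ ε / 2 with hy1
    have hm : 0 < min δ ε := lt_min hδ hε
    have h1 : y1 ∈ Metric.ball y δ := by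
      rw [Metric.mem_ball, Real.dist_eq, hy1, add_sub_cancel_left, abs_of_pos (by positivity)]
      have := min_le_left δ ε
      linarith
    have haR : (a : ℝ) ≠ 0 := by exact_mod_cast ha
    have h2 : 2 * (a : ℝ) * y1 + b ≠ 0 := by
      have : 2 * (a : ℝ) * y1 + b = (a : ℝ) * min δ ε := by
        rw [hy1]
        linear_combination hys
      rw [this]
      exact mul_ne_zero haR hm.ne'
    obtain ⟨t, ht, hs⟩ := main y1 h2 (hball h1) (ε / 2) (by positivity)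
    refine ⟨t, ?_, hs⟩
    have h3 : |(t : ℝ) - y| ≤ |(t : ℝ) - y1| + |y1 - y| := by
      have := abs_add_le ((t : ℝ) - y1) (y1 - y)
      rwa [show (t : ℝ) - y1 + (y1 - y) = t - y by ring] at this
    have h4 : |y1 - y| ≤ ε / 2 := by
      rw [hy1, add_sub_cancel_left, abs_of_pos (by positivity)]
      have := min_le_right δ ε
      linarith
    linarith
  · exact main y hys hy ε hε

/-- **moves for powers** -/
theorem mvp {k j : ℕ} (hk : k ≠ 0) (hj : j ≠ 0) {l : ℚ} {y : ℝ} (hy : 0 < y ^ k * (l : ℝ) ^ k)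
    {ε : ℝ} (hε : 0 < ε) : ∃ t : ℚ, |(t : ℝ) - y| < ε ∧
      ∃ s : ℚ, s ≠ 0 ∧ t ^ k = s ^ (k * j) * l ^ k := by
  have hl : (l : ℝ) ≠ 0 := by
    intro h0
    rw [h0, zero_pow hk, mul_zero] at hy
    exact lt_irrefl _ hy
  have hy0 : y ≠ 0 := by
    intro h0
    rw [h0, zero_pow hk, zero_mul] at hy
    exact lt_irrefl _ hy
  set r : ℝ := |y / l| with hr
  have hr0 : 0 < r := abs_pos.2 (div_ne_zero hy0 hl)
  set ω : ℝ := r ^ ((j : ℝ)⁻¹) with hω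
  have hω0 : 0 < ω := Real.rpow_pos_of_pos hr0 _
  have hωj : ω ^ j = r := Real.rpow_inv_natCast_pow hr0.le hj
  obtain ⟨σ, hσ1, hσ2⟩ : ∃ σ : ℚ, σ ^ k = 1 ∧ (σ : ℝ) * r = y / l := by
    rcases le_total 0 (y / l) with h | h
    · exact ⟨1, one_pow _, by rw [hr, abs_of_nonneg h]; simp⟩
    · refine ⟨-1, ?_, by rw [hr, abs_of_nonpos h]; push_cast; ring⟩
      rcases Nat.even_or_odd k with he | ho
      · exact he.neg_one_pow
      · exfalso
        have h1 : (y / l) ^ k ≤ 0 := ho.pow_nonpos_iff.2 h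
        have h2 : y ^ k * (l : ℝ) ^ k = (y / l) ^ k * ((l : ℝ) ^ k) ^ 2 := by
          rw [div_pow]
          field_simp
        rw [h2] at hy
        have h3 : (0 : ℝ) ≤ ((l : ℝ) ^ k) ^ 2 := sq_nonneg _
        nlinarith
  have hgc : ContinuousAt (fun w : ℝ => (σ : ℝ) * w ^ j * l) ω :=
    Continuous.continuousAt (by fun_prop)
  obtain ⟨δ, hδ, hδ'⟩ := Metric.continuousAt_iff.1 hgc ε hε
  obtain ⟨w, hw1, hw2⟩ := exists_rat_btwn (show ω < ω + δ by linarith)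
  have hw0 : w ≠ 0 := by
    rintro rfl
    rw [Rat.cast_zero] at hw1
    linarith
  have h2 := hδ' (x := (w : ℝ)) (by rw [Real.dist_eq, abs_of_pos (by linarith)]; linarith)
  have hωy : (σ : ℝ) * ω ^ j * l = y := by
    rw [hωj, hσ2]
    field_simp
  rw [hωy, Real.dist_eq] at h2
  refine ⟨σ * w ^ j * l, ?_, w, hw0, ?_⟩
  · push_cast
    exact h2
  · rw [mul_pow, mul_pow, hσ1, one_mul, ← pow_mul, mul_comm j k]

open Polynomial in
/-- infinitely many square values of a cubic polynomial -/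
lemma sq_cub {D : ℚ} (h : {z : ℚ × ℚ | z.2 ^ 2 = z.1 ^ 3 + D}.Infinite) :
    (Sq (X ^ 3 + C D)).Infinite := by
  intro hfin
  apply h
  refine Set.Finite.subset (s := ⋃ x ∈ Sq (X ^ 3 + C D),
    {z : ℚ × ℚ | z.1 = x ∧ z.2 ^ 2 = x ^ 3 + D}) (hfin.biUnion fun x _ => ?_) ?_
  · by_cases hne : ∃ w0 : ℚ, w0 ^ 2 = x ^ 3 + D
    · obtain ⟨w0, hw0⟩ := hne
      refine ((Set.finite_singleton (x, w0)).union (Set.finite_singleton (x, -w0))).subset ?_
      rintro ⟨a, w⟩ ⟨h1, h2⟩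
      have h1' : a = x := h1
      have h2' : w ^ 2 = x ^ 3 + D := h2
      rw [← hw0] at h2'
      rcases sq_eq_sq_iff_eq_or_eq_neg.mp h2' with h3 | h3
      · left; rw [h1', h3]; rfl
      · right; rw [h1', h3]; rfl
    · refine Set.finite_empty.subset ?_
      rintro ⟨a, w⟩ ⟨h1, h2⟩
      exact absurd ⟨w, h2⟩ hne
  · rintro ⟨x, y⟩ hxy
    have hxy' : y ^ 2 = x ^ 3 + D := hxy
    simp only [Set.mem_iUnion]
    refine ⟨x, ⟨y, ?_⟩, rfl, hxy'⟩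
    rw [hxy']
    simp

open Polynomial in
/-- **moves for the exponent six** -/
theorem mv6 : ∃ Ξ : Set ℚ, Ξ.Finite ∧ ∀ α β x₀ : ℚ, α ≠ 0 → β ≠ 0 → x₀ ≠ 0 → α * x₀ + β ≠ 0 →
    -(α * x₀) / (α * x₀ + β) ∉ Ξ → ∀ y : ℝ,
    0 < (((α : ℝ) * y + β) * y ^ 2) * ((α * x₀ + β) * x₀ ^ 2) → ∀ ε : ℝ, 0 < ε →
    ∃ t : ℚ, |(t : ℝ) - y| < ε ∧ ∃ s : ℚ, s ≠ 0 ∧
      (α * t + β) * t ^ 2 = s ^ 6 * ((α * x₀ + β) * x₀ ^ 2) := by
  obtain ⟨Ξ, hΞ, h6⟩ := inf6
  refine ⟨Ξ, hΞ, ?_⟩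
  intro α β x₀ hα hβ hx₀ hl hu y hy ε hε
  obtain ⟨d, hd⟩ : ∃ d, d = (α * x₀ + β) * x₀ ^ 2 := ⟨_, rfl⟩
  have hd0 : d ≠ 0 := hd ▸ mul_ne_zero hl (pow_ne_zero 2 hx₀)
  obtain ⟨D, hD⟩ : ∃ D, D = d * α ^ 2 * β ^ 3 := ⟨_, rfl⟩
  have hD0 : D ≠ 0 := hD ▸ mul_ne_zero (mul_ne_zero hd0 (pow_ne_zero 2 hα)) (pow_ne_zero 3 hβ)
  have hinf := h6 D (-(α * β * x₀)) (α * β ^ 2 * x₀) hD0 (by rw [hD, hd]; ring) (by
    have h1 : (-(α * β * x₀)) ^ 3 / D = -(α * x₀) / (α * x₀ + β) := by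
      rw [hD, hd]
      field_simp
    rw [h1]
    exact hu)
  have hsq := sq_cub hinf
  set q : Polynomial ℚ := X ^ 3 + C D with hq
  have hqe : ∀ w, q.eval w = w ^ 3 + D := fun w => by simp [hq]
  have hqa : ∀ w : ℝ, aeval w q = w ^ 3 + D := fun w => by simp [hq]
  have hqd : q.natDegree ≤ 4 := by
    rw [hq]
    exact natDegree_add_le_of_degree_le ((natDegree_X_pow_le _).trans (by norm_num)) (by simp)
  have hαR : (α : ℝ) ≠ 0 := by exact_mod_cast hα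
  have hβR : (β : ℝ) ≠ 0 := by exact_mod_cast hβ
  have hdR : (d : ℝ) ≠ 0 := by exact_mod_cast hd0
  have hx₀R : (x₀ : ℝ) ≠ 0 := by exact_mod_cast hx₀
  have hy' : 0 < (((α : ℝ) * y + β) * y ^ 2) * d := by
    rw [hd]
    push_cast
    exact hy
  have hy0 : y ≠ 0 := by
    rintro rfl
    simp at hy'
  set r : ℝ := (((α : ℝ) * y + β) * y ^ 2) / d with hr
  have hr0 : 0 < r := by
    rw [hr, div_eq_mul_inv]
    have : ((((α : ℝ) * y + β) * y ^ 2) * d) * ((d : ℝ)⁻¹) ^ 2 =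
        (((α : ℝ) * y + β) * y ^ 2) * (d : ℝ)⁻¹ := by field_simp
    rw [← this]
    positivity
  set ω : ℝ := r ^ (((6 : ℕ) : ℝ)⁻¹) with hω
  have hω0 : 0 < ω := Real.rpow_pos_of_pos hr0 _
  have hω6 : ω ^ 6 = r := Real.rpow_inv_natCast_pow hr0.le (by norm_num)
  have hdω : (d : ℝ) * ω ^ 6 = ((α : ℝ) * y + β) * y ^ 2 := by
    rw [hω6, hr]
    field_simp
  set Xy : ℝ := -(α * β * y / ω ^ 2) with hXy
  have hDR : (D : ℝ) = d * α ^ 2 * β ^ 3 := by exact_mod_cast hD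
  have hRy : Xy ^ 3 + D = (α * β ^ 2 * y / ω ^ 3) ^ 2 := by
    rw [hXy, hDR]
    field_simp
    linear_combination hdω
  have hRpos : 0 < Xy ^ 3 + D := by
    rw [hRy]
    positivity
  obtain ⟨X₁, hX₁⟩ : ∃ X₁ : ℚ, X₁ = -(α * β * x₀) := ⟨_, rfl⟩
  have h1sq : (α * β ^ 2 * x₀) ^ 2 = X₁ ^ 3 + D := by rw [hX₁, hD, hd]; ring
  have h1pos : 0 < (X₁ : ℝ) ^ 3 + D := by
    have : ((α : ℝ) * β ^ 2 * x₀) ^ 2 = (X₁ : ℝ) ^ 3 + D := by exact_mod_cast h1sq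
    rw [← this]
    positivity
  have hJ : ∀ w ∈ Set.uIcc (X₁ : ℝ) Xy, 0 < w ^ 3 + D := by
    intro w hw
    have hodd : Odd 3 := by decide
    rcases le_total (X₁ : ℝ) Xy with h | h
    · rw [Set.uIcc_of_le h] at hw
      have := hodd.pow_le_pow.2 hw.1
      linarith
    · rw [Set.uIcc_of_ge h] at hw
      have := hodd.pow_le_pow.2 hw.1
      linarith
  have hrc : Xy ∈ rc (Sq q) := by
    refine den_conn hqd hsq (J := Set.uIcc (X₁ : ℝ) Xy) isPreconnected_uIcc ?_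
      (x0 := (X₁ : ℝ)) Set.left_mem_uIcc ?_ Set.right_mem_uIcc
    · intro w hw
      rw [hqa]
      exact (hJ w hw).ne'
    · exact mem_rc ⟨α * β ^ 2 * x₀, by rw [hqe, ← h1sq]⟩
  set g : ℝ → ℝ := fun w => -(β * w ^ 3) / (α * (w ^ 3 + D)) with hg
  have hXy0 : Xy ≠ 0 := by
    rw [hXy, neg_ne_zero]
    exact div_ne_zero (mul_ne_zero (mul_ne_zero hαR hβR) hy0) (pow_ne_zero 2 hω0.ne')
  have hgX : g Xy = y := by
    simp only [hg]
    rw [hRy, hXy]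
    field_simp
  have hgc : ContinuousAt g Xy := by
    refine ContinuousAt.div (by fun_prop) (by fun_prop) ?_
    exact mul_ne_zero hαR hRpos.ne'
  have hpos : ∀ᶠ w in 𝓝 Xy, w ≠ 0 ∧ 0 < w ^ 3 + (D : ℝ) := by
    have hc : Continuous fun w : ℝ => w ^ 3 + (D : ℝ) := by fun_prop
    have h1 : ∀ᶠ w in 𝓝 Xy, w ≠ 0 := isOpen_ne.mem_nhds hXy0
    exact h1.and (hc.continuousAt.eventually_const_lt hRpos)
  obtain ⟨_, ⟨hw1, hw0, hw2⟩, w, ⟨S, hSw⟩, rfl⟩ := mem_closure_iff_nhds.1 hrc _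
    ((hgc.eventually (Metric.ball_mem_nhds (g Xy) hε)).and hpos)
  rw [hqe] at hSw
  have hwR : (w : ℝ) ≠ 0 := hw0
  have hw0' : w ≠ 0 := by exact_mod_cast hwR
  have hw3 : w ^ 3 + D ≠ 0 := by
    have h1 : (0 : ℝ) < (w : ℝ) ^ 3 + D := hw2
    have h2 : ((w ^ 3 + D : ℚ) : ℝ) ≠ 0 := by
      push_cast
      exact h1.ne'
    exact_mod_cast h2
  have hS0 : S ≠ 0 := by
    rintro rfl
    apply hw3
    rw [← hSw]
    ring
  refine ⟨-(β * w ^ 3) / (α * (w ^ 3 + D)), ?_, β * w / S, div_ne_zero (mul_ne_zero hβ hw0') hS0,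
    ?_⟩
  · rw [hgX] at hw1
    have hw1' : dist (g (w : ℝ)) y < ε := hw1
    rw [Real.dist_eq] at hw1'
    have h1 : g (w : ℝ) = ((-(β * w ^ 3) / (α * (w ^ 3 + D)) : ℚ) : ℝ) := by
      simp only [hg]
      push_cast
      rfl
    rw [← h1]
    exact hw1'
  · rw [← hd]
    have e1 : α * (-(β * w ^ 3) / (α * (w ^ 3 + D))) + β = β * D / (w ^ 3 + D) := by
      field_simp
      ring
    rw [e1, ← hSw, hD]
    field_simp

end Pool.Agent.NH8.R
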