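import Pool.Agent.NH8.RB
import Pool.Agent.NH8.QB

/-!
# Polynomials in one variable with moves
-/

set_option autoImplicit false
set_option linter.unusedSectionVars false
set_option linter.unusedVariables false

open Set Filter Topology Pool.Agent.H581R2 Pool.Agent.TH729.SQ Pool.Agent.Y718 Pool.Agent.NH8.K
  Pool.Agent.NH8.C

namespace Pool.Agent.NH8.R

/-- moves off a finite set -/
def GMf (m : ℕ) (f : ℚ → ℚ) (F : ℝ → ℝ) : Prop :=
  ∃ T : Set ℚ, T.Finite ∧ ∀ t, t ∉ T → f t ≠ 0 → ∀ y : ℝ, 0 < F y * (f t : ℝ) → ∀ ε : ℝ, 0 < ε →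
    ∃ t' : ℚ, |(t' : ℝ) - y| < ε ∧ ∃ s : ℚ, s ≠ 0 ∧ f t' = s ^ m * f t

lemma GMf.congr {m : ℕ} {f f' : ℚ → ℚ} {F F' : ℝ → ℝ} (h : GMf m f F) (hf : ∀ t, f t = f' t)
    (hF : ∀ y, F y = F' y) : GMf m f' F' := by
  rw [show f' = f from (funext hf).symm, show F' = F from (funext hF).symm]
  exact h

lemma GM_const (m : ℕ) (c : ℚ) : GMf m (fun _ => c) (fun _ => (c : ℝ)) := by
  refine ⟨∅, Set.finite_empty, fun t _ _ y _ ε hε => ?_⟩
  obtain ⟨t', ht'⟩ := exists_rat_near y ε hε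
  exact ⟨t', ht', 1, one_ne_zero, by rw [one_pow, one_mul]⟩

lemma GM_cpow {m k j : ℕ} (hm : m = k * j) (hk : k ≠ 0) (hj : j ≠ 0) (a e : ℚ) :
    GMf m (fun t => a * (t + e) ^ k) (fun y => (a : ℝ) * (y + e) ^ k) := by
  subst hm
  refine ⟨∅, Set.finite_empty, fun t _ ht y hy ε hε => ?_⟩
  have ha : (a : ℝ) ≠ 0 := by
    have := left_ne_zero_of_mul ht
    exact_mod_cast this
  have h1 : 0 < (y + e) ^ k * ((t + e : ℚ) : ℝ) ^ k := by
    push_cast at hy ⊢
    have h2 : (a : ℝ) * (y + e) ^ k * (a * ((t : ℝ) + e) ^ k) =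
        (a : ℝ) ^ 2 * ((y + e) ^ k * ((t : ℝ) + e) ^ k) := by ring
    rw [h2] at hy
    exact pos_of_mul_pos_right hy (sq_nonneg _)
  obtain ⟨t', ht', s, hs, hst⟩ := mvp hk hj h1 hε
  refine ⟨t' - e, ?_, s, hs, ?_⟩
  · have : ((t' - e : ℚ) : ℝ) - y = (t' : ℝ) - (y + e) := by push_cast; ring
    rw [this]
    exact ht'
  · simp only [sub_add_cancel]
    rw [hst]
    ring

lemma GM_lin {m : ℕ} (hm : m ≠ 0) (b c : ℚ) :
    GMf m (fun t => b * t + c) (fun y => (b : ℝ) * y + c) := by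
  by_cases hb : b = 0
  · subst hb
    refine (GM_const m c).congr (fun t => by ring) (fun y => ?_)
    rw [Rat.cast_zero]
    ring
  · have hbR : (b : ℝ) ≠ 0 := by exact_mod_cast hb
    refine (GM_cpow (m := m) (k := 1) (j := m) (by rw [one_mul]) one_ne_zero hm b (c / b)).congr
      (fun t => ?_) (fun y => ?_)
    · field_simp
    · push_cast
      field_simp

open Polynomial in
lemma GM_quad (a b c : ℚ) : GMf 4 (fun t => a * t ^ 2 + b * t + c)
    (fun y => (a : ℝ) * y ^ 2 + b * y + c) := by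
  by_cases ha : a = 0
  · subst ha
    refine (GM_lin four_ne_zero b c).congr (fun t => by ring) (fun y => ?_)
    rw [Rat.cast_zero]
    ring
  have haR : (a : ℝ) ≠ 0 := by exact_mod_cast ha
  by_cases hΔ : b ^ 2 - 4 * a * c = 0
  · have hΔR : (b : ℝ) ^ 2 - 4 * a * c = 0 := by exact_mod_cast hΔ
    refine (GM_cpow (m := 4) (k := 2) (j := 2) rfl two_ne_zero two_ne_zero a
      (b / (2 * a))).congr (fun t => ?_) (fun y => ?_)
    · field_simp
      linear_combination hΔ
    · push_cast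
      field_simp
      linear_combination hΔR
  obtain ⟨Ξ, hΞ, hmv⟩ := mv4
  refine ⟨{t | 2 * a * t + b = 0} ∪ ⋃ ξ ∈ Ξ, {t | a * (a * t ^ 2 + b * t + c) =
    ξ * (2 * a * t + b) ^ 2}, ?_, ?_⟩
  · refine Set.Finite.union ?_ (hΞ.biUnion fun ξ _ => ?_)
    · refine (Set.finite_singleton (-b / (2 * a))).subset ?_
      intro t ht
      have ht' : 2 * a * t + b = 0 := ht
      rw [Set.mem_singleton_iff]
      field_simp
      linear_combination ht'
    · have h1 : {t : ℚ | a * (a * t ^ 2 + b * t + c) = ξ * (2 * a * t + b) ^ 2} ⊆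
          {t : ℚ | (C a * (C a * X ^ 2 + C b * X + C c) - C ξ * (C (2 * a) * X + C b) ^ 2 :
            Polynomial ℚ).eval t = 0} := by
        intro t ht
        have ht' : a * (a * t ^ 2 + b * t + c) = ξ * (2 * a * t + b) ^ 2 := ht
        simp only [Set.mem_ofPred_eq, eval_sub, eval_mul, eval_add, eval_pow, eval_X, eval_C]
        linear_combination ht'
      refine (Fam.roots_fin ?_).subset h1
      intro h0
      have h2 := congrArg (fun p => Polynomial.eval (-b / (2 * a)) p) h0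
      simp only [eval_sub, eval_mul, eval_add, eval_pow, eval_X, eval_C, eval_zero] at h2
      have h3 : 2 * a * (-b / (2 * a)) + b = 0 := by field_simp; ring
      rw [h3] at h2
      apply hΔ
      have h4 : 4 * (a * (a * (-b / (2 * a)) ^ 2 + b * (-b / (2 * a)) + c)) =
          -(b ^ 2 - 4 * a * c) := by
        field_simp
        ring
      linear_combination -4 * h2 + h4
  · intro t ht hft y hy ε hε
    rw [Set.mem_union, not_or] at ht
    obtain ⟨ht1, ht2⟩ := ht
    have hb' : 2 * a * t + b ≠ 0 := ht1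
    obtain ⟨τ, hτ, s, hs, hst⟩ := hmv a (2 * a * t + b) (a * t ^ 2 + b * t + c) hft hb' (by
      intro hmem
      apply ht2
      simp only [Set.mem_iUnion]
      refine ⟨_, hmem, ?_⟩
      exact (div_mul_cancel₀ _ (pow_ne_zero 2 hb')).symm) (y - t) (by
      push_cast at hy ⊢
      convert hy using 2
      ring) ε hε
    refine ⟨t + τ, ?_, s, hs, ?_⟩
    · push_cast
      rwa [show (t : ℝ) + τ - y = τ - (y - t) by ring]
    · rw [← hst]
      ring

open Polynomial in
lemma GM_six (α β : ℚ) : GMf 6 (fun t => (α * t + β) * t ^ 2)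
    (fun y => ((α : ℝ) * y + β) * y ^ 2) := by
  by_cases hα : α = 0
  · subst hα
    refine (GM_cpow (m := 6) (k := 2) (j := 3) rfl two_ne_zero three_ne_zero β 0).congr
      (fun t => by ring) (fun y => ?_)
    rw [Rat.cast_zero]
    ring
  by_cases hβ : β = 0
  · subst hβ
    refine (GM_cpow (m := 6) (k := 3) (j := 2) rfl three_ne_zero two_ne_zero α 0).congr
      (fun t => by ring) (fun y => ?_)
    rw [Rat.cast_zero]
    ring
  obtain ⟨Ξ, hΞ, hmv⟩ := mv6
  refine ⟨⋃ ξ ∈ Ξ, {t | -(α * t) = ξ * (α * t + β)}, hΞ.biUnion fun ξ _ => ?_, ?_⟩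
  · have h1 : {t : ℚ | -(α * t) = ξ * (α * t + β)} ⊆
        {t : ℚ | (C (α * (1 + ξ)) * X + C (ξ * β) : Polynomial ℚ).eval t = 0} := by
      intro t ht
      have ht' : -(α * t) = ξ * (α * t + β) := ht
      simp only [Set.mem_ofPred_eq, eval_mul, eval_add, eval_X, eval_C]
      linear_combination -ht'
    refine (Fam.roots_fin ?_).subset h1
    intro h0
    have h2 := congrArg (fun p => Polynomial.eval 0 p) h0
    have h3 := congrArg (fun p => Polynomial.eval 1 p) h0
    simp only [eval_mul, eval_add, eval_X, eval_C, eval_zero, mul_zero, zero_add, mul_one] at h2 h3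
    have h4 : ξ = 0 := by
      rcases mul_eq_zero.1 h2 with h | h
      · exact h
      · exact absurd h hβ
    rw [h4] at h3
    apply hα
    linear_combination h3
  · intro t ht hft y hy ε hε
    have ht0 : t ≠ 0 := by
      rintro rfl
      exact hft (by ring)
    have hl : α * t + β ≠ 0 := left_ne_zero_of_mul hft
    refine hmv α β t hα hβ ht0 hl ?_ y (by push_cast at hy ⊢; exact hy) ε hε
    intro hmem
    apply ht
    simp only [Set.mem_iUnion]
    refine ⟨_, hmem, ?_⟩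
    show -(α * t) = -(α * t) / (α * t + β) * (α * t + β)
    field_simp

lemma GM_aff {m : ℕ} {f : ℚ → ℚ} {F : ℝ → ℝ} (h : GMf m f F) {u : ℚ} (hu : u ≠ 0) (v : ℚ) :
    GMf m (fun t => f (u * t + v)) (fun y => F (u * y + v)) := by
  obtain ⟨T, hT, hm⟩ := h
  have huR : (u : ℝ) ≠ 0 := by exact_mod_cast hu
  refine ⟨(fun t => u * t + v) ⁻¹' T, hT.preimage (fun a _ b _ hab => ?_), ?_⟩
  · have : u * a + v = u * b + v := hab
    exact mul_left_cancel₀ hu (by linarith)
  · intro t ht hft y hy ε hε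
    obtain ⟨t', ht', s, hs, hst⟩ := hm (u * t + v) ht hft (u * y + v) hy (ε * |(u : ℝ)|)
      (mul_pos hε (abs_pos.2 huR))
    refine ⟨(t' - v) / u, ?_, s, hs, ?_⟩
    · have h1 : (((t' - v) / u : ℚ) : ℝ) - y = ((t' : ℝ) - (u * y + v)) / u := by
        push_cast
        field_simp
        ring
      rw [h1, abs_div, div_lt_iff₀ (abs_pos.2 huR)]
      exact ht'
    · have : u * ((t' - v) / u) + v = t' := by field_simp; ring
      simp only [this]
      exact hst

lemma GM_six' (a₁ a₀ b₁ b₀ : ℚ) : GMf 6 (fun t => (a₁ * t + a₀) * (b₁ * t + b₀) ^ 2)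
    (fun y => ((a₁ : ℝ) * y + a₀) * (b₁ * y + b₀) ^ 2) := by
  by_cases hb : b₁ = 0
  · subst hb
    refine (GM_lin (m := 6) (by norm_num) (a₁ * b₀ ^ 2) (a₀ * b₀ ^ 2)).congr (fun t => by ring)
      (fun y => ?_)
    push_cast
    ring
  · have hbR : (b₁ : ℝ) ≠ 0 := by exact_mod_cast hb
    refine (GM_aff (GM_six (a₁ / b₁) (a₀ - a₁ * b₀ / b₁)) hb b₀).congr (fun t => ?_) (fun y => ?_)
    · field_simp
      ring
    · push_cast
      field_simp
      ring

/-- a point of the projective line at infinity -/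
lemma GM_moeb {k : ℕ} {f₀ f : ℚ → ℚ} {F₀ F : ℝ → ℝ} (h : GMf (2 * k) f₀ F₀) {u : ℚ}
    (hu : u ≠ 0) (v : ℚ) (hf0 : ∀ t, u * t + v = 0 → f t = 0)
    (hf : ∀ t, u * t + v ≠ 0 → f t = (u * t + v) ^ (2 * k) * f₀ (1 / (u * t + v)))
    (hF0 : ∀ y : ℝ, u * y + v = 0 → F y = 0)
    (hF : ∀ y : ℝ, u * y + v ≠ 0 → F y = (u * y + v) ^ (2 * k) * F₀ (1 / (u * y + v))) :
    GMf (2 * k) f F := by
  obtain ⟨T, hT, hm⟩ := h
  have huR : (u : ℝ) ≠ 0 := by exact_mod_cast hu
  refine ⟨(fun t => 1 / (u * t + v)) ⁻¹' T, hT.preimage (fun a _ b _ hab => ?_), ?_⟩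
  · have h1 : 1 / (u * a + v) = 1 / (u * b + v) := hab
    rw [one_div, one_div, inv_inj] at h1
    exact mul_left_cancel₀ hu (by linarith)
  · intro t ht hft y hy ε hε
    have hlt : u * t + v ≠ 0 := fun h0 => hft (hf0 t h0)
    have hFy : F y ≠ 0 := by
      intro h0
      rw [h0, zero_mul] at hy
      exact lt_irrefl _ hy
    have hly : (u : ℝ) * y + v ≠ 0 := fun h0 => hFy (hF0 y h0)
    have hltR : (u : ℝ) * t + v ≠ 0 := by exact_mod_cast hlt
    have h1 : 0 < F₀ (1 / (u * y + v)) * (f₀ (1 / (u * t + v)) : ℝ) := by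
      rw [hF y hly, hf t hlt] at hy
      push_cast at hy
      have h2 : ((u : ℝ) * y + v) ^ (2 * k) * F₀ (1 / (u * y + v)) *
          ((u * t + v) ^ (2 * k) * (f₀ (1 / (u * t + v)) : ℝ)) =
          (((u : ℝ) * y + v) ^ k * (u * t + v) ^ k) ^ 2 *
            (F₀ (1 / (u * y + v)) * (f₀ (1 / (u * t + v)) : ℝ)) := by
        have e : ∀ x : ℝ, x ^ (2 * k) = (x ^ k) ^ 2 := fun x => by rw [mul_comm, pow_mul]
        rw [e, e]
        ring
      rw [h2] at hy
      exact pos_of_mul_pos_right hy (sq_nonneg _)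
    have hf₀ : f₀ (1 / (u * t + v)) ≠ 0 := by
      intro h0
      rw [h0, Rat.cast_zero, mul_zero] at h1
      exact lt_irrefl _ h1
    have hτy : (1 : ℝ) / (u * y + v) ≠ 0 := div_ne_zero one_ne_zero hly
    have hgc : ContinuousAt (fun τ : ℝ => (1 / τ - v) / u) (1 / (u * y + v)) :=
      ((continuousAt_const.div continuousAt_id hτy).sub continuousAt_const).div_const _
    obtain ⟨δ, hδ, hδ'⟩ := Metric.continuousAt_iff.1 hgc ε hε
    obtain ⟨τ, hτ, s, hs, hst⟩ := hm _ ht hf₀ _ h1 (min δ |1 / ((u : ℝ) * y + v)|)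
      (lt_min hδ (abs_pos.2 hτy))
    have hτ0 : τ ≠ 0 := by
      rintro rfl
      rw [Rat.cast_zero, zero_sub, abs_neg] at hτ
      exact absurd (lt_of_lt_of_le hτ (min_le_right _ _)) (lt_irrefl _)
    have h3 := hδ' (x := (τ : ℝ)) (by
      rw [Real.dist_eq]
      exact lt_of_lt_of_le hτ (min_le_left _ _))
    have h4 : (1 / (1 / ((u : ℝ) * y + v)) - v) / u = y := by
      rw [one_div_one_div]
      field_simp
      ring
    rw [h4, Real.dist_eq] at h3
    have h5 : u * ((1 / τ - v) / u) + v = 1 / τ := by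
      field_simp
      ring
    refine ⟨(1 / τ - v) / u, ?_, s / (τ * (u * t + v)),
      div_ne_zero hs (mul_ne_zero hτ0 hlt), ?_⟩
    · push_cast
      exact h3
    · rw [hf _ (by rw [h5]; exact div_ne_zero one_ne_zero hτ0), h5, one_div_one_div, hst,
        hf t hlt]
      have h6 : (1 / τ) ^ (2 * k) * s ^ (2 * k) =
          (s / (τ * (u * t + v))) ^ (2 * k) * (u * t + v) ^ (2 * k) := by
        rw [← mul_pow, ← mul_pow]
        congr 1
        field_simp
      rw [← mul_assoc, h6, mul_assoc]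

lemma GM_four (a b c u v : ℚ) : GMf 4 (fun t => (a * t ^ 2 + b * t + c) * (u * t + v) ^ 2)
    (fun y => ((a : ℝ) * y ^ 2 + b * y + c) * (u * y + v) ^ 2) := by
  by_cases hu : u = 0
  · subst hu
    refine (GM_quad (a * v ^ 2) (b * v ^ 2) (c * v ^ 2)).congr (fun t => by ring) (fun y => ?_)
    push_cast
    ring
  · have huR : (u : ℝ) ≠ 0 := by exact_mod_cast hu
    refine GM_moeb (k := 2) (GM_quad ((a * v ^ 2 - b * u * v + c * u ^ 2) / u ^ 2)
      ((b * u - 2 * a * v) / u ^ 2) (a / u ^ 2)) hu v (fun t h0 => ?_) (fun t h0 => ?_)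
      (fun t h0 => ?_) (fun t h0 => ?_)
    · simp only [h0]
      ring
    · obtain ⟨L, hL⟩ : ∃ L, L = u * t + v := ⟨_, rfl⟩
      have ht : t = (L - v) / u := by rw [hL]; field_simp; ring
      rw [← hL] at h0 ⊢
      rw [ht]
      field_simp
      ring
    · simp only [h0]
      ring
    · obtain ⟨L, hL⟩ : ∃ L, L = (u : ℝ) * t + v := ⟨_, rfl⟩
      have ht : t = (L - v) / u := by rw [hL]; field_simp; ring
      rw [← hL] at h0 ⊢
      rw [ht]
      push_cast
      field_simp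
      ring

lemma GM_six3 (a₁ a₀ b₁ b₀ u v : ℚ) :
    GMf 6 (fun t => (a₁ * t + a₀) * (b₁ * t + b₀) ^ 2 * (u * t + v) ^ 3)
    (fun y => ((a₁ : ℝ) * y + a₀) * (b₁ * y + b₀) ^ 2 * (u * y + v) ^ 3) := by
  by_cases hu : u = 0
  · subst hu
    refine (GM_six' (a₁ * v ^ 3) (a₀ * v ^ 3) b₁ b₀).congr (fun t => by ring) (fun y => ?_)
    push_cast
    ring
  · have huR : (u : ℝ) ≠ 0 := by exact_mod_cast hu
    refine GM_moeb (k := 3) (GM_six' (a₀ - a₁ * v / u) (a₁ / u) (b₀ - b₁ * v / u) (b₁ / u)) hu v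
      (fun t h0 => ?_) (fun t h0 => ?_) (fun t h0 => ?_) (fun t h0 => ?_)
    · simp only [h0]
      ring
    · obtain ⟨L, hL⟩ : ∃ L, L = u * t + v := ⟨_, rfl⟩
      have ht : t = (L - v) / u := by rw [hL]; field_simp; ring
      rw [← hL] at h0 ⊢
      rw [ht]
      field_simp
      ring
    · simp only [h0]
      ring
    · obtain ⟨L, hL⟩ : ∃ L, L = (u : ℝ) * t + v := ⟨_, rfl⟩
      have ht : t = (L - v) / u := by rw [hL]; field_simp; ring
      rw [← hL] at h0 ⊢
      rw [ht]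
      push_cast
      field_simp
      ring

end Pool.Agent.NH8.R
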