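import Pool.Agent.NH8.RC

/-!
# Blocks from polynomials in one variable and from linear polynomials
-/

set_option autoImplicit false
set_option linter.unusedSectionVars false
set_option linter.unusedVariables false

open Set Filter Topology Pool.Agent.H581R2 Pool.Agent.TH729.SQ Pool.Agent.Y718 Pool.Agent.NH8.K
  Pool.Agent.NH8.C

namespace Pool.Agent.NH8.R

/-- moves which avoid a finite set -/
lemma GM_avoid {m : ℕ} {φ : ℚ → ℚ} {Φ : ℝ → ℝ} {t : ℚ}
    (h : ∀ y : ℝ, 0 < Φ y * (φ t : ℝ) → ∀ ε : ℝ, 0 < ε →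
      ∃ t' : ℚ, |(t' : ℝ) - y| < ε ∧ ∃ s : ℚ, s ≠ 0 ∧ φ t' = s ^ m * φ t)
    (hΦ : Continuous Φ) {S : Set ℚ} (hS : S.Finite) {y : ℝ} (hy : 0 < Φ y * (φ t : ℝ)) {ε : ℝ}
    (hε : 0 < ε) :
    ∃ t' : ℚ, t' ∉ S ∧ |(t' : ℝ) - y| < ε ∧ ∃ s : ℚ, s ≠ 0 ∧ φ t' = s ^ m * φ t := by
  have hSR : ((fun t : ℚ => (t : ℝ)) '' S).Finite := hS.image _
  have hop : IsOpen ({l : ℝ | 0 < Φ l * (φ t : ℝ)} ∩ Metric.ball y ε) :=
    (isOpen_lt continuous_const (hΦ.mul continuous_const)).inter Metric.isOpen_ball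
  obtain ⟨l, hl, hlS⟩ := (hSR.countable.dense_compl ℝ).inter_open_nonempty _ hop
    ⟨y, hy, Metric.mem_ball_self hε⟩
  obtain ⟨δ, hδ, hball⟩ := Metric.isOpen_iff.1 (hop.inter hSR.isClosed.isOpen_compl) l ⟨hl, hlS⟩
  obtain ⟨t', ht', hs⟩ := h l hl.1 δ hδ
  have h1 := hball (show (t' : ℝ) ∈ Metric.ball l δ by rwa [Metric.mem_ball, Real.dist_eq])
  refine ⟨t', fun h => h1.2 ⟨t', h, rfl⟩, ?_, hs⟩
  have := h1.1.2
  rwa [Metric.mem_ball, Real.dist_eq] at this

section lin

variable {ι : Type} [Fintype ι] {V : Finset ι}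

/-- solving a linear equation near a point -/
lemma lift_lin {a : ι → ℚ} {e : ℚ} {j : ι} (hj : j ∈ V) (haj : a j ≠ 0)
    (haV : ∀ i, i ∉ V → a i = 0) (z : ι → ℚ) (y : ι → ℝ) {ε : ℝ} (hε : 0 < ε) :
    ∃ δ : ℝ, 0 < δ ∧ ∀ t : ℚ, |(t : ℝ) - (∑ i, (a i : ℝ) * y i + e)| < δ →
      ∃ z' : ι → ℚ, (∀ i, i ∉ V → z' i = z i) ∧ (∀ i ∈ V, |(z' i : ℝ) - y i| < ε) ∧
        ∑ i, a i * z' i + e = t := by
  classical
  have hajR : 0 < |(a j : ℝ)| := abs_pos.2 (by exact_mod_cast haj)
  set M : ℝ := ∑ i, |(a i : ℝ)| with hM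
  have hM0 : 0 ≤ M := Finset.sum_nonneg fun i _ => abs_nonneg _
  set η : ℝ := ε * |(a j : ℝ)| / (|(a j : ℝ)| + M + 1) with hη
  have hη0 : 0 < η := by positivity
  have hηe : η + (M + 1) * η / |(a j : ℝ)| = ε := by
    rw [hη]
    field_simp
    ring
  refine ⟨η, hη0, fun t ht => ?_⟩
  choose q hq using fun i => exists_rat_near (y i) η hη0
  set z1 : ι → ℚ := fun i => if i ∈ V then q i else z i with hz1
  set d : ℚ := (t - (∑ i, a i * z1 i + e)) / a j with hd
  have hdaj : a j * d = t - (∑ i, a i * z1 i + e) := by rw [hd]; field_simp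
  have hest : |(d : ℝ)| * |(a j : ℝ)| ≤ (M + 1) * η := by
    rw [← abs_mul]
    have h1 : (d : ℝ) * a j = ((t : ℝ) - (∑ i, (a i : ℝ) * y i + e)) +
        ∑ i, (a i : ℝ) * (y i - z1 i) := by
      have h2 : (a j : ℝ) * d = t - (∑ i, (a i : ℝ) * z1 i + e) := by exact_mod_cast hdaj
      have h3 : ∑ i, (a i : ℝ) * (y i - z1 i) = ∑ i, (a i : ℝ) * y i - ∑ i, (a i : ℝ) * z1 i := by
        rw [← Finset.sum_sub_distrib]
        exact Finset.sum_congr rfl fun i _ => by ring
      rw [h3]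
      linear_combination h2
    rw [h1]
    refine (abs_add_le _ _).trans ?_
    have h4 : |∑ i, (a i : ℝ) * (y i - z1 i)| ≤ M * η := by
      refine (Finset.abs_sum_le_sum_abs _ _).trans ?_
      rw [hM, Finset.sum_mul]
      refine Finset.sum_le_sum fun i _ => ?_
      rw [abs_mul]
      by_cases hi : i ∈ V
      · have : |y i - z1 i| ≤ η := by
          simp only [hz1, if_pos hi]
          rw [abs_sub_comm]
          exact (hq i).le
        gcongr
      · rw [haV i hi]
        simp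
    linarith
  have hd' : |(d : ℝ)| ≤ (M + 1) * η / |(a j : ℝ)| := by
    rw [le_div_iff₀ hajR]
    exact hest
  refine ⟨Function.update z1 j (z1 j + d), fun i hi => ?_, fun i hi => ?_, ?_⟩
  · rw [Function.update_of_ne (by rintro rfl; exact hi hj)]
    simp only [hz1, if_neg hi]
  · by_cases hij : i = j
    · subst hij
      rw [Function.update_self]
      simp only [hz1, if_pos hi]
      push_cast
      have h1 : |(q i : ℝ) + d - y i| ≤ |(q i : ℝ) - y i| + |(d : ℝ)| := by
        have := abs_add_le ((q i : ℝ) - y i) (d : ℝ)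
        rwa [show (q i : ℝ) - y i + d = q i + d - y i by ring] at this
      have h2 := hq i
      linarith
    · rw [Function.update_of_ne hij]
      simp only [hz1, if_pos hi]
      have h2 := hq i
      have h3 : 0 ≤ (M + 1) * η / |(a j : ℝ)| := by positivity
      linarith
  · have h1 : ∑ i, a i * Function.update z1 j (z1 j + d) i = ∑ i, a i * z1 i + a j * d := by
      have h2 : ∀ i, a i * Function.update z1 j (z1 j + d) i =
          a i * z1 i + if i = j then a j * d else 0 := by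
        intro i
        by_cases hij : i = j
        · subst hij
          rw [Function.update_self, if_pos rfl]
          ring
        · rw [Function.update_of_ne hij, if_neg hij, add_zero]
      rw [Finset.sum_congr rfl fun i _ => h2 i, Finset.sum_add_distrib]
      simp
    rw [h1, hdaj]
    ring

variable {f : MvPolynomial ι ℚ} {a : ι → ℚ} {e : ℚ} {j : ι} {m : ℕ} {φ : ℚ → ℚ} {Φ : ℝ → ℝ}

lemma lin_cyl (haV : ∀ i, i ∉ V → a i = 0) {z z' : ι → ℚ} (h : ∀ i ∈ V, z' i = z i) :
    ∑ i, a i * z' i + e = ∑ i, a i * z i + e := by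
  congr 1
  refine Finset.sum_congr rfl fun i _ => ?_
  by_cases hi : i ∈ V
  · rw [h i hi]
  · rw [haV i hi, zero_mul, zero_mul]

/-- one value of the linear polynomial -/
lemma piece_lev (hv : f.vars ⊆ V) (hj : j ∈ V) (haj : a j ≠ 0) (haV : ∀ i, i ∉ V → a i = 0)
    (he : ∀ z : ι → ℚ, MvPolynomial.eval z f = φ (∑ i, a i * z i + e)) (t : ℚ) :
    Piece V m f {z | ∑ i, a i * z i + e = t} {x | ∑ i, (a i : ℝ) * x i + e = (t : ℝ)} where
  vars := hv
  cyl := fun z z' hz h => (lin_cyl haV h).trans hz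
  sa := SAP.eq ((PF.sum _ fun i _ => (PF.const (a i)).mul (PF.coord i)).add (PF.const e))
    (PF.const t)
  sub := fun z hz => by
    show ∑ i, (a i : ℝ) * (z i : ℝ) + e = (t : ℝ)
    have : ∑ i, a i * z i + e = t := hz
    exact_mod_cast this
  move := by
    intro x _
    refine ⟨1, one_pos, fun z hz _ y hy _ ε hε => ?_⟩
    obtain ⟨δ, hδ, hl⟩ := lift_lin (e := e) hj haj haV z y hε
    have hy' : ∑ i, (a i : ℝ) * y i + e = (t : ℝ) := hy
    obtain ⟨z', h1, h2, h3⟩ := hl t (by rw [hy', sub_self, abs_zero]; exact hδ)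
    refine ⟨z', h3, h1, h2, 1, one_ne_zero, ?_⟩
    have hz' : ∑ i, a i * z i + e = t := hz
    rw [he, he, h3, hz', one_pow, one_mul]

/-- **functions of a linear polynomial** -/
theorem blk_lin (hv : f.vars ⊆ V) (hj : j ∈ V) (haj : a j ≠ 0) (haV : ∀ i, i ∉ V → a i = 0)
    (h : GMf m φ Φ) (he : ∀ z : ι → ℚ, MvPolynomial.eval z f = φ (∑ i, a i * z i + e))
    (ha : ∀ x : ι → ℝ, MvPolynomial.aeval x f = Φ (∑ i, (a i : ℝ) * x i + e))
    (hΦ : Continuous Φ) (hR : {t | φ t = 0}.Finite) : Blk V m f univ := by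
  classical
  obtain ⟨T, hT, hm⟩ := h
  set S : Set ℚ := T ∪ {t | φ t = 0} with hS
  have hSf : S.Finite := hT.union hR
  refine Blk.congr (Q := {z | ∑ i, a i * z i + e ∉ S} ∪ ⋃ t ∈ S, {z | ∑ i, a i * z i + e = t})
    (Blk.union (Blk.of_piece (O := {x | (MvPolynomial.aeval x f : ℝ) ≠ 0}) ?_)
      (Blk.biUnion hSf fun t _ => Blk.of_piece (piece_lev hv hj haj haV he t))) ?_
  · refine ⟨hv, fun z z' hz h => ?_, (SAP.eq_zero (PF.aeval f)).not, fun z hz => ?_, ?_⟩
    · show ∑ i, a i * z' i + e ∉ S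
      rw [lin_cyl haV h]
      exact hz
    · show (MvPolynomial.aeval (fun i => (z i : ℝ)) f : ℝ) ≠ 0
      rw [Pool.Agent.TH729.SQ.aeval_cast, he]
      have : φ (∑ i, a i * z i + e) ≠ 0 := fun h0 => hz (Or.inr h0)
      exact_mod_cast this
    · intro x hx
      have hx0 : (MvPolynomial.aeval x f : ℝ) ≠ 0 := hx
      have hopen : IsOpen {u : ι → ℝ | (0 : ℝ) < MvPolynomial.aeval u f *
          MvPolynomial.aeval x f} :=
        isOpen_lt continuous_const ((continuous_aeval f).mul continuous_const)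
      obtain ⟨r, hr, hball⟩ := Metric.isOpen_iff.1 hopen x (by
        show (0 : ℝ) < MvPolynomial.aeval x f * MvPolynomial.aeval x f
        exact mul_self_pos.2 hx0)
      refine ⟨r, hr, fun z hz hzx y hy hyx ε hε => ?_⟩
      have h1 : (0 : ℝ) < MvPolynomial.aeval y f * MvPolynomial.aeval x f := hball hyx
      have h2 : (0 : ℝ) < MvPolynomial.aeval (fun i => (z i : ℝ)) f * MvPolynomial.aeval x f :=
        hball hzx
      have h3 : (0 : ℝ) < MvPolynomial.aeval y f * MvPolynomial.aeval (fun i => (z i : ℝ)) f := by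
        have h5 : (0 : ℝ) < (MvPolynomial.aeval y f * MvPolynomial.aeval (fun i => (z i : ℝ)) f) *
            (MvPolynomial.aeval x f) ^ 2 := by nlinarith
        exact pos_of_mul_pos_left h5 (sq_nonneg _)
      rw [ha, Pool.Agent.TH729.SQ.aeval_cast, he] at h3
      have hzS : ∑ i, a i * z i + e ∉ S := hz
      obtain ⟨δ, hδ, hl⟩ := lift_lin (e := e) hj haj haV z y hε
      obtain ⟨t', ht'S, ht', s, hs, hst⟩ := GM_avoid (m := m) (φ := φ) (Φ := Φ)
        (t := ∑ i, a i * z i + e) (hm _ (fun h => hzS (Or.inl h)) (fun h => hzS (Or.inr h)))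
        hΦ hSf h3 hδ
      obtain ⟨z', k1, k2, k3⟩ := hl t' ht'
      refine ⟨z', ?_, k1, k2, s, hs, ?_⟩
      · show ∑ i, a i * z' i + e ∉ S
        rw [k3]
        exact ht'S
      · rw [he, he, k3, hst]
  · ext z
    simp only [Set.mem_union, Set.mem_ofPred_eq, Set.mem_iUnion, Set.mem_univ, iff_true]
    by_cases hz : ∑ i, a i * z i + e ∈ S
    · exact Or.inr ⟨_, hz, rfl⟩
    · exact Or.inl hz

end lin

section uni

variable {ι : Type} [Fintype ι]

lemma eval_aevalX (p : Polynomial ℚ) (i : ι) (z : ι → ℚ) :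
    MvPolynomial.eval z (Polynomial.aeval (MvPolynomial.X i : MvPolynomial ι ℚ) p) =
      p.eval (z i) := by
  induction p using Polynomial.induction_on' with
  | add p q hp hq => simp [hp, hq]
  | monomial n a => simp

lemma aeval_aevalX (p : Polynomial ℚ) (i : ι) (x : ι → ℝ) :
    (MvPolynomial.aeval x (Polynomial.aeval (MvPolynomial.X i : MvPolynomial ι ℚ) p) : ℝ) =
      Polynomial.aeval (x i) p := by
  induction p using Polynomial.induction_on' with
  | add p q hp hq => simp only [map_add, hp, hq]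
  | monomial n a => simp

lemma vars_aevalX (p : Polynomial ℚ) (i : ι) :
    (Polynomial.aeval (MvPolynomial.X i : MvPolynomial ι ℚ) p).vars ⊆ {i} := by
  classical
  induction p using Polynomial.induction_on' with
  | add p q hp hq =>
    rw [map_add]
    exact (MvPolynomial.vars_add_subset _ _).trans (Finset.union_subset hp hq)
  | monomial n a =>
    rw [Polynomial.aeval_monomial, MvPolynomial.algebraMap_eq]
    refine (MvPolynomial.vars_mul _ _).trans (Finset.union_subset ?_ ?_)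
    · rw [MvPolynomial.vars_C]
      exact Finset.empty_subset _
    · refine (MvPolynomial.vars_pow _ _).trans ?_
      rw [MvPolynomial.vars_X]

/-- **polynomials in one variable with moves** -/
theorem blk_uniGM {m : ℕ} {p : Polynomial ℚ}
    (h : GMf m (fun t => p.eval t) (fun y => Polynomial.aeval y p)) (i : ι) :
    Blk {i} m (Polynomial.aeval (MvPolynomial.X i : MvPolynomial ι ℚ) p) univ := by
  classical
  by_cases hp : p = 0
  · subst hp
    rw [map_zero]
    exact Blk.of_piece (piece_const m MvPolynomial.vars_0)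
  have hsum : ∀ z : ι → ℚ, ∑ k, (if k = i then (1 : ℚ) else 0) * z k + 0 = z i := by
    intro z
    simp
  have hsumR : ∀ x : ι → ℝ, ∑ k, (((if k = i then (1 : ℚ) else 0) : ℚ) : ℝ) * x k + ((0 : ℚ) : ℝ) =
      x i := by
    intro x
    rw [Rat.cast_zero, add_zero, Finset.sum_eq_single i]
    · simp
    · intro b _ hb
      simp [hb]
    · intro h
      exact absurd (Finset.mem_univ i) h
  refine blk_lin (a := fun k => if k = i then 1 else 0) (e := 0) (j := i) (vars_aevalX p i)
    (Finset.mem_singleton_self i) (by simp) (fun k hk => ?_) h (fun z => ?_) (fun x => ?_)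
    (Polynomial.continuous_aeval p) (Fam.roots_fin hp)
  · rw [Finset.mem_singleton] at hk
    exact if_neg hk
  · rw [eval_aevalX, hsum]
  · rw [aeval_aevalX, hsumR]

end uni

end Pool.Agent.NH8.R
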