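import Pool.Agent.NH8.RD

/-!
# Polynomials of degree at most two are blocks for the exponent four
-/

set_option autoImplicit false
set_option linter.unusedSectionVars false
set_option linter.unusedVariables false

open Set Filter Topology Pool.Agent.H581R2 Pool.Agent.TH729.SQ Pool.Agent.Y718 Pool.Agent.NH8.K
  Pool.Agent.NH8.C

namespace Pool.Agent.NH8.R

open MvPolynomial in
/-- explicit form of the polynomials of degree at most two -/
lemma rep2 {n : ℕ} (f : MvPolynomial (Fin n) ℚ) (hf : f.totalDegree ≤ 2) :
    ∃ (α : Fin n → Fin n → ℚ) (β : Fin n → ℚ) (γ : ℚ),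
      f = ∑ i, ∑ j, C (α i j) * X i * X j + ∑ i, C (β i) * X i + C γ := by
  classical
  have key : ∀ s : Finset (Fin n →₀ ℕ), (∀ d ∈ s, Multiset.card d.toMultiset ≤ 2) →
      ∃ (α : Fin n → Fin n → ℚ) (β : Fin n → ℚ) (γ : ℚ),
      ∑ d ∈ s, monomial d (coeff d f) =
        ∑ i, ∑ j, C (α i j) * X i * X j + ∑ i, C (β i) * X i + C γ := by
    intro s
    induction s using Finset.induction_on with
    | empty =>
      intro _
      refine ⟨fun _ _ => 0, fun _ => 0, 0, ?_⟩
      simp
    | insert d s hd ih =>
      intro h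
      obtain ⟨α, β, γ, hs⟩ := ih fun d' hd' => h d' (Finset.mem_insert_of_mem hd')
      have hcard := h d (Finset.mem_insert_self _ _)
      rw [Finset.sum_insert hd, hs]
      have h0 : Multiset.card d.toMultiset = 0 ∨ Multiset.card d.toMultiset = 1 ∨
          Multiset.card d.toMultiset = 2 := by omega
      have hmon : ∀ c : ℚ, monomial d c = C c * (d.toMultiset.map X).prod := by
        intro c
        rw [monomial_eq, Pool.Agent.TH729.CC.prod_map_toMultiset]
      rw [hmon]
      rcases h0 with h0 | h0 | h0
      · rw [Multiset.card_eq_zero] at h0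
        refine ⟨α, β, γ + coeff d f, ?_⟩
        rw [h0, Multiset.map_zero, Multiset.prod_zero, C_add]
        ring
      · obtain ⟨i, hi⟩ := Multiset.card_eq_one.1 h0
        refine ⟨α, fun k => β k + if k = i then coeff d f else 0, γ, ?_⟩
        rw [hi, Multiset.map_singleton, Multiset.prod_singleton]
        have : ∑ k, C (β k + if k = i then coeff d f else 0) * X k =
            ∑ k, C (β k) * X k + C (coeff d f) * (X i : MvPolynomial (Fin n) ℚ) := by
          have e : ∀ k, C (β k + if k = i then coeff d f else 0) * X k =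
              C (β k) * X k + if k = i then C (coeff d f) * (X i : MvPolynomial (Fin n) ℚ)
                else 0 := by
            intro k
            by_cases hk : k = i
            · subst hk
              rw [if_pos rfl, if_pos rfl, C_add]
              ring
            · rw [if_neg hk, if_neg hk, add_zero, add_zero]
          rw [Finset.sum_congr rfl fun k _ => e k, Finset.sum_add_distrib]
          simp
        rw [this]
        ring
      · obtain ⟨i, i', hi⟩ := Multiset.card_eq_two.1 h0
        refine ⟨fun k l => α k l + if k = i ∧ l = i' then coeff d f else 0, β, γ, ?_⟩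
        rw [hi, Multiset.insert_eq_cons, Multiset.map_cons, Multiset.map_singleton,
          Multiset.prod_cons, Multiset.prod_singleton]
        have : ∑ k, ∑ l, C (α k l + if k = i ∧ l = i' then coeff d f else 0) * X k * X l =
            ∑ k, ∑ l, C (α k l) * X k * X l +
              C (coeff d f) * ((X i : MvPolynomial (Fin n) ℚ) * X i') := by
          have e : ∀ k l, C (α k l + if k = i ∧ l = i' then coeff d f else 0) * X k * X l =
              C (α k l) * X k * X l + if k = i then (if l = i' then C (coeff d f) *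
                ((X i : MvPolynomial (Fin n) ℚ) * X i') else 0) else 0 := by
            intro k l
            by_cases hk : k = i
            · by_cases hl : l = i'
              · subst hk hl
                rw [if_pos ⟨rfl, rfl⟩, if_pos rfl, if_pos rfl, C_add]
                ring
              · rw [if_neg (by rintro ⟨-, h⟩; exact hl h), if_pos hk, if_neg hl, add_zero,
                  add_zero]
            · rw [if_neg (by rintro ⟨h, -⟩; exact hk h), if_neg hk, add_zero, add_zero]
          rw [Finset.sum_congr rfl fun k _ => Finset.sum_congr rfl fun l _ => e k l]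
          simp only [Finset.sum_add_distrib]
          simp
        rw [this]
        ring
  obtain ⟨α, β, γ, h⟩ := key f.support fun d hd => by
    rw [Finsupp.card_toMultiset]
    exact (le_totalDegree hd).trans hf
  exact ⟨α, β, γ, (as_sum f).trans h⟩

section quad

variable {n : ℕ} (α : Fin n → Fin n → ℚ) (β : Fin n → ℚ) (γ : ℚ)

/-- the polynomial function -/
def qf (z : Fin n → ℚ) : ℚ := ∑ i, ∑ j, α i j * z i * z j + ∑ i, β i * z i + γ

/-- the quadratic part -/
def qA (v : Fin n → ℚ) : ℚ := ∑ i, ∑ j, α i j * v i * v j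

/-- the gradient -/
def qb (z : Fin n → ℚ) (k : Fin n) : ℚ := ∑ i, (α i k + α k i) * z i + β k

/-- the derivative -/
def qB (z v : Fin n → ℚ) : ℚ := ∑ k, qb α β z k * v k

variable {α β γ}

lemma qB_eq (z v : Fin n → ℚ) : qB α β z v =
    ∑ i, ∑ j, α i j * (z i * v j + v i * z j) + ∑ i, β i * v i := by
  have h1 : ∑ i, ∑ j, α i j * (z i * v j + v i * z j) =
      ∑ i, ∑ j, α i j * z i * v j + ∑ i, ∑ j, α i j * v i * z j := by
    rw [← Finset.sum_add_distrib]
    refine Finset.sum_congr rfl fun i _ => ?_
    rw [← Finset.sum_add_distrib]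
    exact Finset.sum_congr rfl fun j _ => by ring
  rw [h1, Finset.sum_comm (f := fun i j => α i j * z i * v j), ← Finset.sum_add_distrib,
    ← Finset.sum_add_distrib]
  unfold qB qb
  refine Finset.sum_congr rfl fun k _ => ?_
  rw [add_mul, Finset.sum_mul, ← Finset.sum_add_distrib]
  congr 1
  exact Finset.sum_congr rfl fun i _ => by ring

lemma q_line (z v : Fin n → ℚ) (s : ℚ) : qf α β γ (z + s • v) =
    qA α v * s ^ 2 + qB α β z v * s + qf α β γ z := by
  rw [qB_eq]
  unfold qf qA
  simp only [Pi.add_apply, Pi.smul_apply, smul_eq_mul]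
  have h1 : ∑ i, ∑ j, α i j * (z i + s * v i) * (z j + s * v j) =
      ∑ i, ∑ j, α i j * z i * z j + (∑ i, ∑ j, α i j * (z i * v j + v i * z j)) * s +
        (∑ i, ∑ j, α i j * v i * v j) * s ^ 2 := by
    rw [Finset.sum_mul, Finset.sum_mul, ← Finset.sum_add_distrib, ← Finset.sum_add_distrib]
    refine Finset.sum_congr rfl fun i _ => ?_
    rw [Finset.sum_mul, Finset.sum_mul, ← Finset.sum_add_distrib, ← Finset.sum_add_distrib]
    exact Finset.sum_congr rfl fun j _ => by ring
  have h2 : ∑ i, β i * (z i + s * v i) = ∑ i, β i * z i + (∑ i, β i * v i) * s := by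
    rw [Finset.sum_mul, ← Finset.sum_add_distrib]
    exact Finset.sum_congr rfl fun j _ => by ring
  rw [h1, h2]
  ring

lemma qB_line (z v : Fin n → ℚ) (s : ℚ) : qB α β (z + s • v) v =
    qB α β z v + 2 * s * qA α v := by
  rw [qB_eq, qB_eq]
  unfold qA
  simp only [Pi.add_apply, Pi.smul_apply, smul_eq_mul]
  have h1 : ∑ i, ∑ j, α i j * ((z i + s * v i) * v j + v i * (z j + s * v j)) =
      ∑ i, ∑ j, α i j * (z i * v j + v i * z j) + 2 * s * ∑ i, ∑ j, α i j * v i * v j := by
    rw [Finset.mul_sum, ← Finset.sum_add_distrib]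
    refine Finset.sum_congr rfl fun i _ => ?_
    rw [Finset.mul_sum, ← Finset.sum_add_distrib]
    exact Finset.sum_congr rfl fun j _ => by ring
  rw [h1]
  ring

end quad

/-- rational points at which a polynomial is not zero are dense -/
lemma near_ne {n : ℕ} {p : MvPolynomial (Fin n) ℚ} (hp : p ≠ 0) (y : Fin n → ℝ) {ε : ℝ}
    (hε : 0 < ε) : ∃ v : Fin n → ℚ, (∀ i, |(v i : ℝ) - y i| < ε) ∧ MvPolynomial.eval v p ≠ 0 := by
  by_contra hcon
  push Not at hcon
  apply hp
  refine MvPolynomial.funext_set (fun i => {q : ℚ | |(q : ℝ) - y i| < ε}) (fun i => ?_)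
    fun x hx => ?_
  · have h1 : (Set.Ioo (y i - ε) (y i + ε)).Nonempty := ⟨y i, by constructor <;> linarith⟩
    intro hfin
    obtain ⟨q1, hq1, hq2⟩ := exists_rat_btwn (show y i < y i + ε by linarith)
    have hcl : (((fun q : ℚ => (q : ℝ)) '' {q : ℚ | |(q : ℝ) - y i| < ε})).Finite :=
      hfin.image _
    have hop : IsOpen (Set.Ioo (y i - ε) (y i + ε) \
        ((fun q : ℚ => (q : ℝ)) '' {q : ℚ | |(q : ℝ) - y i| < ε})) :=
      isOpen_Ioo.sdiff hcl.isClosed
    obtain ⟨x, hx⟩ : (Set.Ioo (y i - ε) (y i + ε) \
        ((fun q : ℚ => (q : ℝ)) '' {q : ℚ | |(q : ℝ) - y i| < ε})).Nonempty := by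
      by_contra hne
      rw [Set.not_nonempty_iff_eq_empty, Set.sdiff_eq_empty] at hne
      exact (Set.Ioo_infinite (show y i - ε < y i + ε by linarith)) (hcl.subset hne)
    obtain ⟨_, hx2, q, rfl⟩ := Rat.denseRange_cast.inter_open_nonempty _ hop ⟨x, hx⟩
    exact hx2.2 ⟨q, by
      show |(q : ℝ) - y i| < ε
      rw [abs_lt]
      constructor <;> linarith [hx2.1.1, hx2.1.2], rfl⟩
  · rw [map_zero]
    exact hcon x fun i => hx i (Set.mem_univ i)

end Pool.Agent.NH8.R
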