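import Pool.Agent.NH8.RE

/-!
# Polynomials of degree at most two are blocks for the exponent four: the proof
-/

set_option autoImplicit false
set_option linter.unusedSectionVars false
set_option linter.unusedVariables false

open Set Filter Topology Pool.Agent.H581R2 Pool.Agent.TH729.SQ Pool.Agent.Y718 Pool.Agent.NH8.K
  Pool.Agent.NH8.C

namespace Pool.Agent.NH8.R

variable {n : ℕ} {f : MvPolynomial (Fin n) ℚ} {α : Fin n → Fin n → ℚ} {β : Fin n → ℚ} {γ : ℚ}

/-- critical points -/
lemma piece_crit (m : ℕ) (hf : ∀ z, MvPolynomial.eval z f = qf α β γ z) :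
    Piece Finset.univ m f {z | ∀ k, qb α β z k = 0}
      (closure (rl {z : Fin n → ℚ | ∀ k, qb α β z k = 0})) where
  vars := Finset.subset_univ _
  cyl := fun z z' hz h => by
    have : z' = z := funext fun i => h i (Finset.mem_univ i)
    rw [this]
    exact hz
  sa := by
    set G : MvPolynomial (Fin n) ℚ := ∑ k, (∑ i, MvPolynomial.C (α i k + α k i) *
      MvPolynomial.X i + MvPolynomial.C (β k)) ^ 2 with hG
    have h1 : {z : Fin n → ℚ | ∀ k, qb α β z k = 0} = {z | MvPolynomial.eval z G = 0} := by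
      ext z
      have h2 : MvPolynomial.eval z G = ∑ k, qb α β z k ^ 2 := by
        rw [hG, map_sum]
        refine Finset.sum_congr rfl fun k _ => ?_
        rw [map_pow, map_add, map_sum, MvPolynomial.eval_C]
        unfold qb
        congr 2
        refine Finset.sum_congr rfl fun i _ => ?_
        rw [map_mul, MvPolynomial.eval_C, MvPolynomial.eval_X]
      rw [Set.mem_ofPred_eq, Set.mem_ofPred_eq, h2,
        Finset.sum_eq_zero_iff_of_nonneg fun k _ => sq_nonneg _]
      constructor
      · intro h k _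
        rw [h k]
        ring
      · intro h k
        exact pow_eq_zero_iff two_ne_zero |>.1 (h k (Finset.mem_univ k))
    rw [h1]
    refine poly_SA G ((MvPolynomial.totalDegree_finsetSum_le fun k _ => ?_).trans
      (show 2 ≤ 3 by norm_num))
    refine (MvPolynomial.totalDegree_pow _ _).trans ?_
    have h3 : (∑ i, MvPolynomial.C (α i k + α k i) * MvPolynomial.X i + MvPolynomial.C (β k) :
        MvPolynomial (Fin n) ℚ).totalDegree ≤ 1 := by
      refine (MvPolynomial.totalDegree_add _ _).trans (max_le ?_ ?_)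
      · refine MvPolynomial.totalDegree_finsetSum_le fun i _ => ?_
        refine (MvPolynomial.totalDegree_mul _ _).trans ?_
        rw [MvPolynomial.totalDegree_C, MvPolynomial.totalDegree_X]
      · rw [MvPolynomial.totalDegree_C]
        norm_num
    omega
  sub := fun z hz => subset_closure ⟨z, hz, rfl⟩
  move := by
    intro x _
    refine ⟨1, one_pos, fun z hz _ y hy _ ε hε => ?_⟩
    obtain ⟨_, ⟨z', hz', rfl⟩, hd⟩ := Metric.mem_closure_iff.1 hy ε hε
    refine ⟨z', hz', fun i hi => absurd (Finset.mem_univ i) hi, fun i _ => ?_, 1, one_ne_zero, ?_⟩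
    · have := (dist_pi_lt_iff hε).1 hd i
      rwa [dist_comm, Real.dist_eq] at this
    · have hB : ∀ w : Fin n → ℚ, (∀ k, qb α β w k = 0) → ∀ v, qB α β w v = 0 := by
        intro w hw v
        unfold qB
        exact Finset.sum_eq_zero fun k _ => by rw [hw k, zero_mul]
      have e : z' = z + (1 : ℚ) • (z' - z) := by
        rw [one_smul, add_sub_cancel]
      have h1 := qB_line (α := α) (β := β) z (z' - z) 1
      rw [← e, hB z hz, hB z' hz'] at h1
      have h2 := q_line (α := α) (β := β) (γ := γ) z (z' - z) 1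
      rw [← e, hB z hz] at h2
      rw [hf, hf, h2]
      have h3 : qA α (z' - z) = 0 := by linarith
      rw [h3]
      ring

/-- **the generic piece** -/
lemma piece_gen {Ξ : Set ℚ} (hΞ : Ξ.Finite) (hmv : ∀ a b c : ℚ, c ≠ 0 → b ≠ 0 →
      a * c / b ^ 2 ∉ Ξ → ∀ y : ℝ, 0 < ((a : ℝ) * y ^ 2 + b * y + c) * c → ∀ ε : ℝ, 0 < ε →
      ∃ t : ℚ, |(t : ℝ) - y| < ε ∧ ∃ s : ℚ, s ≠ 0 ∧ a * t ^ 2 + b * t + c = s ^ 4 * c)
    (hf : ∀ z, MvPolynomial.eval z f = qf α β γ z)
    (hg : ∀ z, qf α β γ z ≠ 0 → (∃ k, qb α β z k ≠ 0) → ∀ ρ : ℚ, ∃ v,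
      qA α v * qf α β γ z ≠ ρ * qB α β z v ^ 2) :
    Piece Finset.univ 4 f {z | qf α β γ z ≠ 0 ∧ ∃ k, qb α β z k ≠ 0}
      {x | (MvPolynomial.aeval x f : ℝ) ≠ 0} where
  vars := Finset.subset_univ _
  cyl := fun z z' hz h => by
    have : z' = z := funext fun i => h i (Finset.mem_univ i)
    rw [this]
    exact hz
  sa := (SAP.eq_zero (PF.aeval f)).not
  sub := fun z hz => by
    show (MvPolynomial.aeval (fun i => (z i : ℝ)) f : ℝ) ≠ 0
    rw [Pool.Agent.TH729.SQ.aeval_cast, hf]
    exact_mod_cast hz.1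
  move := by
    classical
    intro x hx
    have hx0 : (MvPolynomial.aeval x f : ℝ) ≠ 0 := hx
    have hopen : IsOpen {u : Fin n → ℝ | (0 : ℝ) < MvPolynomial.aeval u f *
        MvPolynomial.aeval x f} :=
      isOpen_lt continuous_const ((continuous_aeval f).mul continuous_const)
    obtain ⟨r, hr, hball⟩ := Metric.isOpen_iff.1 hopen x (by
      show (0 : ℝ) < MvPolynomial.aeval x f * MvPolynomial.aeval x f
      exact mul_self_pos.2 hx0)
    refine ⟨r, hr, fun z hz hzx y hy hyx ε hε => ?_⟩
    obtain ⟨hz0, hzk⟩ := hz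
    -- the polynomial whose nonvanishing is needed
    set pA : MvPolynomial (Fin n) ℚ := ∑ i, ∑ j, MvPolynomial.C (α i j) * MvPolynomial.X i *
      MvPolynomial.X j with hpA
    set pB : MvPolynomial (Fin n) ℚ := ∑ k, MvPolynomial.C (qb α β z k) * MvPolynomial.X k with hpB
    have hAe : ∀ v, MvPolynomial.eval v pA = qA α v := by
      intro v
      rw [hpA, map_sum]
      unfold qA
      refine Finset.sum_congr rfl fun i _ => ?_
      rw [map_sum]
      refine Finset.sum_congr rfl fun j _ => ?_
      simp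
    have hBe : ∀ v, MvPolynomial.eval v pB = qB α β z v := by
      intro v
      rw [hpB, map_sum]
      unfold qB
      refine Finset.sum_congr rfl fun i _ => ?_
      simp
    have hB0 : pB ≠ 0 := by
      intro h0
      obtain ⟨k, hk⟩ := hzk
      have h1 := hBe (Pi.single k 1)
      rw [h0, map_zero] at h1
      apply hk
      have h2 : qB α β z (Pi.single k 1) = qb α β z k := by
        unfold qB
        rw [Finset.sum_eq_single k]
        · simp
        · intro b _ hb
          simp [Pi.single_eq_of_ne hb]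
        · intro h
          exact absurd (Finset.mem_univ k) h
      rw [← h2, ← h1]
    have hρ0 : ∀ ρ : ℚ, MvPolynomial.C (qf α β γ z) * pA - MvPolynomial.C ρ * pB ^ 2 ≠ 0 := by
      intro ρ h0
      obtain ⟨v, hv⟩ := hg z hz0 hzk ρ
      apply hv
      have h1 := congrArg (MvPolynomial.eval v) h0
      rw [map_sub, map_mul, map_mul, map_pow, MvPolynomial.eval_C, MvPolynomial.eval_C, hAe, hBe,
        map_zero] at h1
      linear_combination h1
    have hGne : pB * ∏ ρ ∈ hΞ.toFinset,
        (MvPolynomial.C (qf α β γ z) * pA - MvPolynomial.C ρ * pB ^ 2) ≠ 0 :=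
      mul_ne_zero hB0 (Finset.prod_ne_zero_iff.2 fun ρ _ => hρ0 ρ)
    -- the direction
    set η : ℝ := min (ε / 2) (r - dist y x) with hη
    have hη0 : 0 < η := lt_min (by positivity) (by linarith)
    obtain ⟨v, hv, hvG⟩ := near_ne hGne (fun i => y i - z i) hη0
    rw [map_mul, map_prod] at hvG
    have hvB : qB α β z v ≠ 0 := by
      rw [← hBe]
      exact left_ne_zero_of_mul hvG
    have hvρ : qA α v * qf α β γ z / qB α β z v ^ 2 ∉ Ξ := by
      intro hmem
      have h1 := Finset.prod_ne_zero_iff.1 (right_ne_zero_of_mul hvG) _ (hΞ.mem_toFinset.2 hmem)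
      apply h1
      rw [map_sub, map_mul, map_mul, map_pow, MvPolynomial.eval_C, MvPolynomial.eval_C, hAe, hBe]
      field_simp
      ring
    -- the point `z + v`
    have hzv : ∀ i, |((z i : ℝ) + v i) - y i| < η := by
      intro i
      have := hv i
      rwa [show (z i : ℝ) + v i - y i = v i - (y i - z i) by ring]
    have hzvx : (fun i => (z i : ℝ) + v i) ∈ Metric.ball x r := by
      rw [Metric.mem_ball, dist_pi_lt_iff hr]
      intro i
      have h1 := hzv i
      have h2 : dist (y i) (x i) ≤ dist y x := dist_le_pi_dist y x i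
      have h3 : dist ((z i : ℝ) + v i) (x i) ≤ dist ((z i : ℝ) + v i) (y i) + dist (y i) (x i) :=
        dist_triangle _ _ _
      rw [Real.dist_eq ((z i : ℝ) + v i) (y i)] at h3
      have h4 : η ≤ r - dist y x := min_le_right _ _
      linarith
    -- the polynomial on the line
    set P : ℝ → ℝ := fun τ => (qA α v : ℝ) * τ ^ 2 + (qB α β z v : ℝ) * τ + (qf α β γ z : ℝ) with hP
    have hP1 : 0 < P 1 * (qf α β γ z : ℝ) := by
      have h1 : (MvPolynomial.aeval (fun i => (z i : ℝ) + v i) f : ℝ) = P 1 := by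
        have e1 : (fun i => (z i : ℝ) + v i) = fun i => (((z + (1 : ℚ) • v) i : ℚ) : ℝ) := by
          funext i
          simp
        rw [e1, Pool.Agent.TH729.SQ.aeval_cast, hf, q_line]
        simp only [hP]
        push_cast
        ring
      have h2 : (0 : ℝ) < P 1 * MvPolynomial.aeval x f := by
        rw [← h1]
        exact hball hzvx
      have h3 : (0 : ℝ) < (qf α β γ z : ℝ) * MvPolynomial.aeval x f := by
        have := hball hzx
        have e2 : (MvPolynomial.aeval (fun i => (z i : ℝ)) f : ℝ) = (qf α β γ z : ℝ) := by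
          rw [Pool.Agent.TH729.SQ.aeval_cast, hf]
        rw [← e2]
        exact this
      have h5 : (0 : ℝ) < (P 1 * (qf α β γ z : ℝ)) * (MvPolynomial.aeval x f) ^ 2 := by nlinarith
      exact pos_of_mul_pos_left h5 (sq_nonneg _)
    have hPc : Continuous P := by
      simp only [hP]
      fun_prop
    set M : ℝ := 1 + ∑ i, |(v i : ℝ)| with hM
    have hM0 : 0 < M := by
      have : 0 ≤ ∑ i, |(v i : ℝ)| := Finset.sum_nonneg fun i _ => abs_nonneg _
      linarith
    -- the critical parameter
    have hbad : ({τ : ℚ | qB α β z v + 2 * τ * qA α v = 0} : Set ℚ).Finite := by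
      by_cases hA0 : qA α v = 0
      · refine Set.finite_empty.subset fun τ hτ => hvB ?_
        have : qB α β z v + 2 * τ * qA α v = 0 := hτ
        rwa [hA0, mul_zero, add_zero] at this
      · refine (Set.finite_singleton (-qB α β z v / (2 * qA α v))).subset fun τ hτ => ?_
        have : qB α β z v + 2 * τ * qA α v = 0 := hτ
        rw [Set.mem_singleton_iff]
        field_simp
        linear_combination this
    obtain ⟨τ, hτS, hτ, s, hs, hst⟩ := GM_avoid (m := 4)
      (φ := fun τ => qA α v * τ ^ 2 + qB α β z v * τ + qf α β γ z) (Φ := P) (t := 0)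
      (fun y' hy' ε' hε' => by
        have e0 : qA α v * 0 ^ 2 + qB α β z v * 0 + qf α β γ z = qf α β γ z := by ring
        simp only [e0] at hy' ⊢
        exact hmv _ _ _ hz0 hvB hvρ y' hy' ε' hε') hPc hbad (y := 1) (by
        have e0 : qA α v * 0 ^ 2 + qB α β z v * 0 + qf α β γ z = qf α β γ z := by ring
        simp only [e0]
        exact hP1) (show 0 < ε / (2 * M) by positivity)
    have e0 : qA α v * 0 ^ 2 + qB α β z v * 0 + qf α β γ z = qf α β γ z := by ring
    simp only [e0] at hst
    have hfz' : qf α β γ (z + τ • v) = s ^ 4 * qf α β γ z := by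
      rw [q_line]
      exact hst
    refine ⟨z + τ • v, ⟨?_, ?_⟩, fun i hi => absurd (Finset.mem_univ i) hi, fun i _ => ?_, s, hs, ?_⟩
    · rw [hfz']
      exact mul_ne_zero (pow_ne_zero 4 hs) hz0
    · by_contra hne
      push Not at hne
      apply hτS
      have h1 := qB_line (α := α) (β := β) z v τ
      have h2 : qB α β (z + τ • v) v = 0 := by
        unfold qB
        exact Finset.sum_eq_zero fun k _ => by rw [hne k, zero_mul]
      rw [h2] at h1
      exact h1.symm
    · have e1 : (((z + τ • v) i : ℚ) : ℝ) - y i = ((z i : ℝ) + v i - y i) + ((τ : ℝ) - 1) * v i := by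
        rw [Pi.add_apply, Pi.smul_apply, smul_eq_mul]
        push_cast
        ring
      rw [e1]
      refine (abs_add_le _ _).trans_lt ?_
      have h1 : |((τ : ℝ) - 1) * v i| ≤ ε / (2 * M) * M := by
        rw [abs_mul]
        have h2 : |(v i : ℝ)| ≤ M := by
          have := Finset.single_le_sum (f := fun i => |(v i : ℝ)|) (fun i _ => abs_nonneg _)
            (Finset.mem_univ i)
          linarith
        have h3 := hτ.le
        gcongr
      have h2 : ε / (2 * M) * M = ε / 2 := by field_simp
      have h3 := hzv i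
      have h4 : η ≤ ε / 2 := min_le_left _ _
      linarith
    · rw [hf, hf, hfz']

/-- **Polynomials of degree at most two, all variables.** -/
theorem blk_quad_univ (f : MvPolynomial (Fin n) ℚ) (hfd : f.totalDegree ≤ 2) :
    Blk Finset.univ 4 f univ := by
  classical
  obtain ⟨α, β, γ, hrep⟩ := rep2 f hfd
  have hf : ∀ z, MvPolynomial.eval z f = qf α β γ z := by
    intro z
    rw [hrep]
    unfold qf
    simp
  obtain ⟨Ξ, hΞ, hmv⟩ := mv4
  by_cases hc : ∃ z₁, qf α β γ z₁ ≠ 0 ∧ (∃ k, qb α β z₁ k ≠ 0) ∧ ∃ ρ : ℚ, ∀ v,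
      qA α v * qf α β γ z₁ = ρ * qB α β z₁ v ^ 2
  · -- a function of a linear polynomial
    obtain ⟨z₁, hz₁, ⟨j, hj⟩, ρ, hρ⟩ := hc
    obtain ⟨f₁, hf₁⟩ : ∃ f₁, f₁ = qf α β γ z₁ := ⟨_, rfl⟩
    have hf₁0 : f₁ ≠ 0 := hf₁ ▸ hz₁
    set e : ℚ := -∑ k, qb α β z₁ k * z₁ k with he
    have hval : ∀ z : Fin n → ℚ, MvPolynomial.eval z f = ρ / f₁ *
        (∑ k, qb α β z₁ k * z k + e) ^ 2 + 1 * (∑ k, qb α β z₁ k * z k + e) + f₁ := by
      intro z
      have h1 : qB α β z₁ (z - z₁) = ∑ k, qb α β z₁ k * z k + e := by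
        unfold qB
        rw [he, ← sub_eq_add_neg, ← Finset.sum_sub_distrib]
        exact Finset.sum_congr rfl fun k _ => by rw [Pi.sub_apply]; ring
      have h2 := q_line (α := α) (β := β) (γ := γ) z₁ (z - z₁) 1
      rw [one_smul, add_sub_cancel, h1] at h2
      have h3 := hρ (z - z₁)
      rw [h1, ← hf₁] at h3
      rw [hf, h2, ← hf₁]
      have h4 : qA α (z - z₁) = ρ / f₁ * (∑ k, qb α β z₁ k * z k + e) ^ 2 := by
        field_simp
        linear_combination h3
      rw [h4]
      ring
    have hpoly : f = MvPolynomial.C (ρ / f₁) * (∑ k, MvPolynomial.C (qb α β z₁ k) *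
        MvPolynomial.X k + MvPolynomial.C e) ^ 2 + MvPolynomial.C 1 *
        (∑ k, MvPolynomial.C (qb α β z₁ k) * MvPolynomial.X k + MvPolynomial.C e) +
        MvPolynomial.C f₁ := by
      apply MvPolynomial.funext
      intro z
      rw [hval]
      simp
    refine blk_lin (V := Finset.univ) (a := qb α β z₁) (e := e) (j := j) (m := 4)
      (φ := fun t => ρ / f₁ * t ^ 2 + 1 * t + f₁)
      (Φ := fun y => ((ρ / f₁ : ℚ) : ℝ) * y ^ 2 + ((1 : ℚ) : ℝ) * y + (f₁ : ℝ))
      (Finset.subset_univ _) (Finset.mem_univ j) hj (fun i hi => absurd (Finset.mem_univ i) hi)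
      (GM_quad _ _ _) hval (fun x => ?_) (by fun_prop) ?_
    · conv_lhs => rw [hpoly]
      simp only [map_add, map_mul, map_pow, map_sum, MvPolynomial.aeval_C, MvPolynomial.aeval_X,
        eq_ratCast]
    · have h1 : {t : ℚ | ρ / f₁ * t ^ 2 + 1 * t + f₁ = 0} ⊆
          {t : ℚ | (Polynomial.C (ρ / f₁) * Polynomial.X ^ 2 + Polynomial.X + Polynomial.C f₁ :
            Polynomial ℚ).eval t = 0} := by
        intro t ht
        have ht' : ρ / f₁ * t ^ 2 + 1 * t + f₁ = 0 := ht
        simp only [Set.mem_ofPred_eq, Polynomial.eval_add, Polynomial.eval_mul,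
          Polynomial.eval_pow, Polynomial.eval_X, Polynomial.eval_C]
        linear_combination ht'
      refine (Fam.roots_fin ?_).subset h1
      intro h0
      have h2 := congrArg (fun p => Polynomial.coeff p 1) h0
      simp [Polynomial.coeff_X] at h2
  · push Not at hc
    refine Blk.congr (Q := {z | qf α β γ z ≠ 0 ∧ ∃ k, qb α β z k ≠ 0} ∪
      ({z | ∀ k, qb α β z k = 0} ∪ {z | MvPolynomial.eval z f = 0}))
      (Blk.union (Blk.of_piece (piece_gen hΞ hmv hf fun z h1 h2 ρ => ?_))
        (Blk.union (Blk.of_piece (piece_crit 4 hf))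
          (Blk.of_piece (piece_zero 4 (Finset.subset_univ _)
            (poly_SA f (hfd.trans (by norm_num))))))) ?_
    · exact hc z h1 h2 ρ
    · ext z
      simp only [Set.mem_union, Set.mem_ofPred_eq, Set.mem_univ, iff_true]
      by_cases h1 : qf α β γ z = 0
      · right; right
        rw [hf, h1]
      · by_cases h2 : ∃ k, qb α β z k ≠ 0
        · exact Or.inl ⟨h1, h2⟩
        · right; left
          push Not at h2
          exact h2

end Pool.Agent.NH8.R
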