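import Pool.Agent.NH8.RF
import Pool.Agent.NH8.KC

/-!
# The blocks for the exponents four and six
-/

set_option autoImplicit false
set_option linter.unusedSectionVars false
set_option linter.unusedVariables false

open Set Filter Topology Pool.Agent.H581R2 Pool.Agent.TH729.SQ Pool.Agent.Y718 Pool.Agent.NH8.K
  Pool.Agent.NH8.C

namespace Pool.Agent.NH8.R

variable {ι : Type} [Fintype ι]

/-- multiplication by a power -/
lemma piece_pow {V : Finset ι} {m : ℕ} {f g h : MvPolynomial ι ℚ} {P : Set (ι → ℚ)}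
    {O : Set (ι → ℝ)} (hp : Piece V m h P O) (hg : g.vars ⊆ V) (hfv : f.vars ⊆ V)
    (hf : ∀ z : ι → ℚ, MvPolynomial.eval z f = MvPolynomial.eval z g ^ m * MvPolynomial.eval z h) :
    Piece V m f (P ∩ {z | MvPolynomial.eval z g ≠ 0}) (O ∩ {x | (MvPolynomial.aeval x g : ℝ) ≠ 0})
    where
  vars := hfv
  cyl := fun z z' hz h' => ⟨hp.cyl z z' hz.1 h', by
    have e : MvPolynomial.eval z' g = MvPolynomial.eval z g :=
      eval_congr' fun i hi => h' i (hg hi)
    have : MvPolynomial.eval z g ≠ 0 := hz.2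
    rwa [← e] at this⟩
  sa := hp.sa.inter (SAP.eq_zero (PF.aeval g)).not
  sub := fun z hz => ⟨hp.sub z hz.1, by
    have : MvPolynomial.eval z g ≠ 0 := hz.2
    show (MvPolynomial.aeval (fun i => (z i : ℝ)) g : ℝ) ≠ 0
    rw [Pool.Agent.TH729.SQ.aeval_cast]
    exact_mod_cast this⟩
  move := by
    classical
    intro x hx
    obtain ⟨r, hr, hmove⟩ := hp.move x hx.1
    refine ⟨r, hr, fun z hz hzx y hy hyx ε hε => ?_⟩
    have hyg : (MvPolynomial.aeval y g : ℝ) ≠ 0 := hy.2
    have hopen : IsOpen {u : ι → ℝ | (MvPolynomial.aeval u g : ℝ) ≠ 0} :=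
      isOpen_ne_fun (continuous_aeval g) continuous_const
    obtain ⟨δ, hδ, hball⟩ := Metric.isOpen_iff.1 hopen y hyg
    obtain ⟨z', hz', h1, h2, s, hs, h3⟩ := hmove z hz.1 hzx y hy.1 hyx (min ε δ) (lt_min hε hδ)
    have hzg : MvPolynomial.eval z g ≠ 0 := hz.2
    have hz'g : MvPolynomial.eval z' g ≠ 0 := by
      set u : ι → ℝ := fun i => if i ∈ V then (z' i : ℝ) else y i with hu
      have hub : u ∈ Metric.ball y δ := by
        rw [Metric.mem_ball, dist_pi_lt_iff hδ]
        intro i
        by_cases hi : i ∈ V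
        · simp only [hu, if_pos hi]
          rw [Real.dist_eq]
          exact lt_of_lt_of_le (h2 i hi) (min_le_right _ _)
        · simp only [hu, if_neg hi, dist_self]
          exact hδ
      have h4 : (MvPolynomial.aeval u g : ℝ) ≠ 0 := hball hub
      intro h0
      apply h4
      have e : (MvPolynomial.aeval u g : ℝ) = MvPolynomial.aeval (fun i => (z' i : ℝ)) g :=
        eval_congr fun i hi => by simp only [hu, if_pos (hg hi)]
      rw [e, Pool.Agent.TH729.SQ.aeval_cast, h0, Rat.cast_zero]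
    refine ⟨z', ⟨hz', hz'g⟩, h1, fun i hi => lt_of_lt_of_le (h2 i hi) (min_le_left _ _),
      MvPolynomial.eval z' g * s / MvPolynomial.eval z g,
      div_ne_zero (mul_ne_zero hz'g hs) hzg, ?_⟩
    rw [hf, hf, h3, div_pow, mul_pow]
    field_simp

/-- the set of variables can be made smaller -/
lemma blk_vars {i : ι} {m : ℕ} {f : MvPolynomial ι ℚ} (hv : f.vars ⊆ {i})
    (h : Blk {i} m f univ) : Blk f.vars m f univ := by
  rcases Finset.subset_singleton_iff.1 hv with h0 | h0
  · exact Blk.of_piece (piece_const m h0)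
  · rw [h0]
    exact h

/-- multiplication by a power, one variable -/
lemma blk_pow {m : ℕ} {g h : Polynomial ℚ} {i : ι}
    (hb : Blk {i} m (Polynomial.aeval (MvPolynomial.X i : MvPolynomial ι ℚ) h) univ) :
    Blk {i} m (Polynomial.aeval (MvPolynomial.X i : MvPolynomial ι ℚ) (g ^ m * h)) univ := by
  classical
  by_cases hg : g = 0
  · by_cases hm : m = 0
    · subst hm
      rw [pow_zero, one_mul]
      exact hb
    · subst hg
      rw [zero_pow hm, zero_mul, map_zero]
      exact Blk.of_piece (piece_const m MvPolynomial.vars_0)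
  obtain ⟨k, P, O, h1, h2⟩ := hb
  refine Blk.congr (Q := (⋃ a ∈ (Set.univ : Set (Fin k)), P a ∩
    {z | MvPolynomial.eval z (Polynomial.aeval (MvPolynomial.X i : MvPolynomial ι ℚ) g) ≠ 0}) ∪
    ⋃ t ∈ {t : ℚ | g.eval t = 0}, {z | z i = t}) (Blk.union ?_ ?_) ?_
  · refine Blk.biUnion Set.finite_univ fun a _ => Blk.of_piece
      (piece_pow (h2 a) (vars_aevalX g i) (vars_aevalX _ i) fun z => ?_)
    simp only [eval_aevalX, Polynomial.eval_mul, Polynomial.eval_pow]
  · exact Blk.biUnion (Fam.roots_fin hg) fun t _ => Blk.of_piece (piece_pt m (vars_aevalX _ i) t)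
  · ext z
    simp only [Set.mem_union, Set.mem_iUnion, Set.mem_univ, exists_true_left, iff_true,
      Set.mem_inter_iff, Set.mem_ofPred_eq, eval_aevalX]
    by_cases h0 : g.eval (z i) = 0
    · exact Or.inr ⟨z i, h0, rfl⟩
    · obtain ⟨a, ha⟩ := (h1 z).1 (mem_univ z)
      exact Or.inl ⟨a, ha, h0⟩

lemma eval_two {p : Polynomial ℚ} (hp : p.natDegree ≤ 2) (t : ℚ) :
    p.eval t = p.coeff 2 * t ^ 2 + p.coeff 1 * t + p.coeff 0 := by
  rw [Polynomial.eval_eq_sum_range' (Nat.lt_succ_of_le hp), Finset.sum_range_succ,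
    Finset.sum_range_succ, Finset.sum_range_one]
  ring

lemma aeval_two {p : Polynomial ℚ} (hp : p.natDegree ≤ 2) (y : ℝ) :
    Polynomial.aeval y p = (p.coeff 2 : ℝ) * y ^ 2 + p.coeff 1 * y + p.coeff 0 := by
  rw [Polynomial.aeval_eq_sum_range' (Nat.lt_succ_of_le hp), Finset.sum_range_succ,
    Finset.sum_range_succ, Finset.sum_range_one]
  simp only [Rat.smul_def]
  ring

lemma eval_one' {p : Polynomial ℚ} (hp : p.natDegree ≤ 1) (t : ℚ) :
    p.eval t = p.coeff 1 * t + p.coeff 0 := by
  rw [Polynomial.eval_eq_sum_range' (Nat.lt_succ_of_le hp), Finset.sum_range_succ,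
    Finset.sum_range_one]
  ring

lemma aeval_one' {p : Polynomial ℚ} (hp : p.natDegree ≤ 1) (y : ℝ) :
    Polynomial.aeval y p = (p.coeff 1 : ℝ) * y + p.coeff 0 := by
  rw [Polynomial.aeval_eq_sum_range' (Nat.lt_succ_of_le hp), Finset.sum_range_succ,
    Finset.sum_range_one]
  simp only [Rat.smul_def]
  ring

/-- **exponent four, one variable** -/
theorem blk_four {q l : Polynomial ℚ} (hq : q.natDegree ≤ 2) (hl : l.natDegree ≤ 1) (i : ι) :
    Blk {i} 4 (Polynomial.aeval (MvPolynomial.X i : MvPolynomial ι ℚ) (q * l ^ 2)) univ := by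
  refine blk_uniGM ((GM_four (q.coeff 2) (q.coeff 1) (q.coeff 0) (l.coeff 1)
    (l.coeff 0)).congr (fun t => ?_) (fun y => ?_)) i
  · rw [Polynomial.eval_mul, Polynomial.eval_pow, eval_two hq, eval_one' hl]
  · rw [map_mul, map_pow, aeval_two hq, aeval_one' hl]

/-- **exponent six, one variable** -/
theorem blk_six {l₁ l₂ l₃ : Polynomial ℚ} (h₁ : l₁.natDegree ≤ 1) (h₂ : l₂.natDegree ≤ 1)
    (h₃ : l₃.natDegree ≤ 1) (i : ι) : Blk {i} 6 (Polynomial.aeval
      (MvPolynomial.X i : MvPolynomial ι ℚ) (l₁ * l₂ ^ 2 * l₃ ^ 3)) univ := by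
  refine blk_uniGM ((GM_six3 (l₁.coeff 1) (l₁.coeff 0) (l₂.coeff 1) (l₂.coeff 0) (l₃.coeff 1)
    (l₃.coeff 0)).congr (fun t => ?_) (fun y => ?_)) i
  · rw [Polynomial.eval_mul, Polynomial.eval_mul, Polynomial.eval_pow, Polynomial.eval_pow,
      eval_one' h₁, eval_one' h₂, eval_one' h₃]
  · rw [map_mul, map_mul, map_pow, map_pow, aeval_one' h₁, aeval_one' h₂, aeval_one' h₃]

/-- **powers of a variable** -/
theorem blk_var {m : ℕ} (hm : m ≠ 0) (i : ι) :
    Blk {i} m ((MvPolynomial.X i : MvPolynomial ι ℚ) ^ m) univ := by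
  have h1 : GMf m (fun t => (Polynomial.X ^ m : Polynomial ℚ).eval t)
      (fun y => Polynomial.aeval y (Polynomial.X ^ m : Polynomial ℚ)) := by
    refine (GM_cpow (m := m) (k := m) (j := 1) (by rw [mul_one]) hm one_ne_zero 1 0).congr
      (fun t => ?_) (fun y => ?_)
    · simp
    · simp
  have h2 := blk_uniGM h1 i
  rwa [map_pow, Polynomial.aeval_X] at h2

/-! ### Several variables -/

/-- transport to a set of variables -/
lemma blk_of_univ {V : Finset ι} {f : MvPolynomial ι ℚ} (hv : f.vars ⊆ V) {m : ℕ}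
    (h : ∀ F : MvPolynomial (Fin V.card) ℚ, F.totalDegree ≤ f.totalDegree →
      Blk Finset.univ m F univ) : Blk V m f univ := by
  classical
  let e : V ≃ Fin V.card := Fintype.equivFinOfCardEq (Fintype.card_coe V)
  let g : Fin V.card ↪ ι := ⟨fun k => ((e.symm k : V) : ι),
    Subtype.val_injective.comp e.symm.injective⟩
  have hgk : ∀ k, g k = ((e.symm k : V) : ι) := fun k => rfl
  obtain ⟨F, hF⟩ := MvPolynomial.exists_rename_eq_of_vars_subset_range f g g.injective (by
    intro i hi
    refine ⟨e ⟨i, hv hi⟩, ?_⟩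
    rw [hgk, e.symm_apply_apply])
  have hVg : Finset.univ.map g = V := by
    ext i
    rw [Finset.mem_map]
    constructor
    · rintro ⟨k, -, rfl⟩
      exact (e.symm k).2
    · intro hi
      refine ⟨e ⟨i, hi⟩, Finset.mem_univ _, ?_⟩
      rw [hgk, e.symm_apply_apply]
  have h2 := Blk_rename g (h F (by
    refine (totalDegree_le_rename g.injective F).trans ?_
    rw [hF]))
  rwa [hVg, hF] at h2

/-- **exponent four, degree at most two** -/
theorem blk_quad {V : Finset ι} {f : MvPolynomial ι ℚ} (hv : f.vars ⊆ V)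
    (hf : f.totalDegree ≤ 2) : Blk V 4 f univ :=
  blk_of_univ hv fun F hF => blk_quad_univ F (hF.trans hf)

theorem blk_one_univ {n : ℕ} (F : MvPolynomial (Fin n) ℚ) (hF : F.totalDegree ≤ 1) {m : ℕ}
    (hm : m ≠ 0) : Blk Finset.univ m F univ := by
  classical
  set a : Fin n → ℚ := fun k => MvPolynomial.coeff (Finsupp.single k 1) F with ha
  set e : ℚ := MvPolynomial.coeff 0 F with he
  have hrep : F = ∑ k, MvPolynomial.C (a k) * MvPolynomial.X k + MvPolynomial.C e := by
    ext d
    rw [MvPolynomial.coeff_add, MvPolynomial.coeff_sum, MvPolynomial.coeff_C]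
    have h1 : ∀ k, MvPolynomial.coeff d (MvPolynomial.C (a k) * MvPolynomial.X k) =
        if Finsupp.single k 1 = d then a k else 0 := by
      intro k
      rw [MvPolynomial.coeff_C_mul, MvPolynomial.coeff_X]
      split_ifs
      · rw [mul_one]
      · rw [mul_zero]
    rw [Finset.sum_congr rfl fun k _ => h1 k]
    by_cases hd0 : d = 0
    · subst hd0
      rw [if_pos rfl, Finset.sum_eq_zero, zero_add]
      intro k _
      rw [if_neg]
      intro h
      have := DFunLike.congr_fun h k
      simp at this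
    · rw [if_neg (fun h => hd0 h.symm), add_zero]
      by_cases hd1 : ∃ k, Finsupp.single k 1 = d
      · obtain ⟨k, rfl⟩ := hd1
        rw [Finset.sum_eq_single k]
        · rw [if_pos rfl]
        · intro b _ hb
          rw [if_neg]
          intro h
          exact hb ((Finsupp.single_left_inj one_ne_zero).1 h)
        · intro h
          exact absurd (Finset.mem_univ k) h
      · push Not at hd1
        rw [Finset.sum_eq_zero fun k _ => if_neg (hd1 k)]
        by_contra hne
        have h2 := (MvPolynomial.le_totalDegree (MvPolynomial.mem_support_iff.2 hne)).trans hF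
        have h3 : Multiset.card d.toMultiset ≤ 1 := by
          rw [Finsupp.card_toMultiset]
          exact h2
        have h4 : Multiset.card d.toMultiset = 0 ∨ Multiset.card d.toMultiset = 1 := by omega
        rcases h4 with h4 | h4
        · rw [Multiset.card_eq_zero] at h4
          apply hd0
          have h5 := congrArg Multiset.toFinsupp h4
          rwa [Finsupp.toMultiset_toFinsupp, map_zero] at h5
        · obtain ⟨k, hk⟩ := Multiset.card_eq_one.1 h4
          apply hd1 k
          have h5 := congrArg Multiset.toFinsupp hk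
          rw [Finsupp.toMultiset_toFinsupp, Multiset.toFinsupp_singleton] at h5
          exact h5.symm
  by_cases ha0 : ∀ k, a k = 0
  · have hF0 : F = MvPolynomial.C e := by
      rw [hrep, Finset.sum_eq_zero, zero_add]
      intro k _
      rw [ha0 k, MvPolynomial.C_0, zero_mul]
    rw [hF0]
    exact Blk.of_piece (piece_const m MvPolynomial.vars_C)
  · push Not at ha0
    obtain ⟨j, hj⟩ := ha0
    refine blk_lin (V := Finset.univ) (a := a) (e := e) (j := j) (m := m)
      (φ := fun t => 1 * t + 0) (Φ := fun y => ((1 : ℚ) : ℝ) * y + ((0 : ℚ) : ℝ))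
      (Finset.subset_univ _) (Finset.mem_univ j) hj (fun i hi => absurd (Finset.mem_univ i) hi)
      (GM_lin hm 1 0) (fun z => ?_) (fun x => ?_) (by fun_prop) ?_
    · conv_lhs => rw [hrep]
      simp
    · conv_lhs => rw [hrep]
      simp
    · refine (Set.finite_singleton (0 : ℚ)).subset fun t ht => ?_
      have ht' : 1 * t + 0 = 0 := ht
      rw [Set.mem_singleton_iff]
      linarith

/-- **degree at most one** -/
theorem blk_one {V : Finset ι} {f : MvPolynomial ι ℚ} (hv : f.vars ⊆ V)
    (hf : f.totalDegree ≤ 1) {m : ℕ} (hm : m ≠ 0) : Blk V m f univ :=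
  blk_of_univ hv fun F hF => blk_one_univ F (hF.trans hf) hm

end Pool.Agent.NH8.R
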