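import Mathlib
import Pool.Agent.NH8.UA

/-!
# Deformations of configurations of points on a plane curve
-/

set_option autoImplicit false

open MvPolynomial

namespace Pool.Agent.NH8.UC

open Pool.Agent.NH8.UA

/-- if all maximal minors vanish, there is a linear relation -/
theorem exists_rel {K I J : Type} [Field K] [Fintype I] [DecidableEq I] (E : J → I → K)
    (h : ∀ f : I → J, Matrix.det (Matrix.of fun i p => E (f i) p) = 0) :
    ∃ c : I → K, c ≠ 0 ∧ ∀ j, ∑ p, c p * E j p = 0 := by
  by_cases hW : Submodule.span K (Set.range E) = ⊤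
  · exfalso
    obtain ⟨b, hb, hspan, hli⟩ := exists_linearIndependent K (Set.range E)
    rw [hW] at hspan
    let B : Module.Basis b K (I → K) := Module.Basis.mk hli (by
      rw [Subtype.range_coe_subtype, Set.ofPred_mem_eq, hspan])
    have hfin : Finite b := Module.Finite.finite_basis B
    have : Fintype b := Fintype.ofFinite b
    have hcard : Fintype.card b = Fintype.card I := by
      rw [← Module.finrank_eq_card_basis B, Module.finrank_fintype_fun_eq_card]
    obtain ⟨σ⟩ : Nonempty (I ≃ b) := ⟨Fintype.equivOfCardEq hcard.symm⟩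
    have hf : ∀ i : I, ∃ j, E j = (σ i).1 := fun i => hb (σ i).2
    choose f hf using hf
    obtain ⟨v, hv0, hv⟩ := Matrix.exists_vecMul_eq_zero_iff.2 (h f)
    apply hv0
    have h1 : ∑ i, v i • ((σ i : b) : I → K) = 0 := by
      funext p
      have h2 := congrFun hv p
      simp only [Matrix.vecMul, dotProduct, Matrix.of_apply, Pi.zero_apply] at h2
      rw [Finset.sum_apply, Pi.zero_apply, ← h2]
      refine Finset.sum_congr rfl fun i _ => ?_
      rw [Pi.smul_apply, smul_eq_mul, hf]
    have h3 : LinearIndependent K (fun i : I => ((σ i : b) : I → K)) :=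
      hli.comp σ σ.injective
    funext i
    exact Fintype.linearIndependent_iff.1 h3 v h1 i
  · obtain ⟨φ, hφ0, hφ⟩ := Submodule.exists_le_ker_of_lt_top _ (lt_top_iff_ne_top.2 hW)
    have key : ∀ w : I → K, φ w = ∑ p, φ (Pi.single p 1) * w p := by
      intro w
      conv_lhs => rw [pi_eq_sum_univ' w]
      rw [map_sum]
      refine Finset.sum_congr rfl fun p _ => ?_
      rw [map_smul, smul_eq_mul, mul_comm]
    refine ⟨fun p => φ (Pi.single p 1), ?_, ?_⟩
    · intro h0
      apply hφ0
      refine LinearMap.ext fun w => ?_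
      rw [key w, LinearMap.zero_apply]
      refine Finset.sum_eq_zero fun p _ => ?_
      have h1 : φ (Pi.single p 1) = 0 := congrFun h0 p
      rw [h1, zero_mul]
    · intro j
      rw [← key]
      exact hφ (Submodule.subset_span ⟨j, rfl⟩)

/-- the field of generalised power series -/
abbrev KK : Type := HahnSeries ℝ ℚ

theorem prod_single {I : Type} (s : Finset I) (ψ : I → ℝ) (v : I → ℚ) :
    ∏ p ∈ s, (HahnSeries.single (ψ p) (v p) : KK) =
      HahnSeries.single (∑ p ∈ s, ψ p) (∏ p ∈ s, v p) := by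
  classical
  induction s using Finset.induction_on with
  | empty => simp only [Finset.prod_empty, Finset.sum_empty]; rfl
  | insert p s hp ih =>
    rw [Finset.prod_insert hp, Finset.sum_insert hp, Finset.prod_insert hp, ih,
      HahnSeries.single_mul_single]

/-- graded vanishing minors give a relation between generalised power series -/
theorem hahn {I J : Type} [Fintype I] [DecidableEq I] (V : J → I → ℚ) (ψ : J → I → ℝ)
    (h : ∀ (f : I → J) (s : ℝ), ∑ σ : Equiv.Perm I, (if ∑ p, ψ (f (σ p)) p = s then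
      ((Equiv.Perm.sign σ : ℤ) : ℚ) * ∏ p, V (f (σ p)) p else 0) = 0) :
    ∃ c : I → KK, c ≠ 0 ∧ ∀ j, ∑ p, c p * HahnSeries.single (ψ j p) (V j p) = 0 := by
  refine exists_rel (fun j p => HahnSeries.single (ψ j p) (V j p)) fun f => ?_
  rw [Matrix.det_apply]
  simp only [Matrix.of_apply, prod_single]
  ext s
  rw [HahnSeries.coeff_sum, HahnSeries.coeff_zero, ← h f s]
  refine Finset.sum_congr rfl fun σ _ => ?_
  rw [Units.smul_def, ← Int.cast_smul_eq_zsmul ℚ, HahnSeries.coeff_smul, smul_eq_mul]
  by_cases hs : ∑ p, ψ (f (σ p)) p = s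
  · rw [if_pos hs, ← hs, HahnSeries.coeff_single_same]
  · rw [if_neg hs, HahnSeries.coeff_single_of_ne (fun h => hs h.symm), mul_zero]

/-! ### Polynomials of bounded degree -/

/-- the exponents of the monomials of degree at most `e` -/
abbrev Ix (e : ℕ) : Type := {p : Fin (e + 1) × Fin (e + 1) // (p.1 : ℕ) + (p.2 : ℕ) ≤ e}

variable {e : ℕ}

/-- the first exponent -/
def ea (p : Ix e) : ℕ := (p.1.1 : ℕ)
/-- the second exponent -/
def eb (p : Ix e) : ℕ := (p.1.2 : ℕ)

theorem e_le (p : Ix e) : ea p + eb p ≤ e := p.2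

theorem e_ext {p q : Ix e} (h1 : ea p = ea q) (h2 : eb p = eb q) : p = q :=
  Subtype.ext (Prod.ext (Fin.ext h1) (Fin.ext h2))

/-- the monomial -/
noncomputable def mon (p : Ix e) : Fin 2 →₀ ℕ := Finsupp.single 0 (ea p) + Finsupp.single 1 (eb p)

theorem mon_zero (p : Ix e) : mon p 0 = ea p := by
  unfold mon
  simp

theorem mon_one (p : Ix e) : mon p 1 = eb p := by
  unfold mon
  simp

theorem mon_inj : Function.Injective (mon : Ix e → Fin 2 →₀ ℕ) := by
  intro p q h
  refine e_ext ?_ ?_
  · rw [← mon_zero, ← mon_zero, h]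
  · rw [← mon_one, ← mon_one, h]

/-- the polynomial with given coefficients -/
noncomputable def pol (c : Ix e → ℚ) : MvPolynomial (Fin 2) ℚ := ∑ p, monomial (mon p) (c p)

theorem pol_coeff (c : Ix e → ℚ) (p : Ix e) : (pol c).coeff (mon p) = c p := by
  classical
  unfold pol
  rw [coeff_sum, Finset.sum_eq_single p]
  · rw [coeff_monomial, if_pos rfl]
  · intro q _ hq
    rw [coeff_monomial, if_neg fun h => hq (mon_inj h)]
  · intro h
    exact absurd (Finset.mem_univ p) h

theorem pol_eval (c : Ix e → ℚ) (x y : ℚ) :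
    eval ![x, y] (pol c) = ∑ p, c p * (x ^ ea p * y ^ eb p) := by
  unfold pol
  rw [map_sum]
  refine Finset.sum_congr rfl fun p _ => ?_
  rw [eval_monomial, Finsupp.prod_fintype _ _ (fun _ => pow_zero _), Fin.prod_univ_two, mon_zero,
    mon_one]
  rfl

theorem pol_deg (c : Ix e → ℚ) : (pol c).totalDegree ≤ e := by
  unfold pol
  refine totalDegree_finsetSum_le fun p _ => ?_
  refine (totalDegree_monomial_le _ _).trans ?_
  rw [Finsupp.sum_fintype _ _ (fun _ => rfl), Fin.sum_univ_two, mon_zero, mon_one]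
  exact e_le p

theorem eq_pol {F : MvPolynomial (Fin 2) ℚ} (hF : F.totalDegree ≤ e) :
    F = pol (fun p : Ix e => F.coeff (mon p)) := by
  classical
  ext m
  unfold pol
  rw [coeff_sum]
  simp only [coeff_monomial]
  by_cases hm : m 0 + m 1 ≤ e
  · obtain ⟨p, hp⟩ : ∃ p : Ix e, mon p = m := by
      refine ⟨⟨(⟨m 0, by omega⟩, ⟨m 1, by omega⟩), hm⟩, ?_⟩
      ext i
      fin_cases i
      · exact mon_zero _
      · exact mon_one _
    rw [Finset.sum_eq_single p]
    · rw [if_pos hp, hp]
    · intro q _ hq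
      rw [if_neg fun h => hq (mon_inj (h.trans hp.symm))]
    · intro h
      exact absurd (Finset.mem_univ p) h
  · rw [Finset.sum_eq_zero]
    · by_contra h
      have h1 : m ∈ F.support := mem_support_iff.2 h
      have h2 := le_totalDegree h1
      rw [Finsupp.sum_fintype _ _ (fun _ => rfl), Fin.sum_univ_two] at h2
      omega
    · intro p _
      rw [if_neg]
      rintro rfl
      rw [mon_zero, mon_one] at hm
      exact hm (e_le p)

theorem eval_eq {F : MvPolynomial (Fin 2) ℚ} (hF : F.totalDegree ≤ e) (x y : ℚ) :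
    eval ![x, y] F = ∑ p : Ix e, F.coeff (mon p) * (x ^ ea p * y ^ eb p) := by
  conv_lhs => rw [eq_pol hF]
  exact pol_eval _ _ _

/-- polynomials with many common zeros with `F` are multiples of `F` -/
theorem smul_of {F : MvPolynomial (Fin 2) ℚ} (hF : Irreducible F) (hFe : F.totalDegree = e)
    {J : Type} (S : Finset J) (x y : J → ℚ) (hinj : Set.InjOn (fun j => (x j, y j)) (S : Set J))
    (hFj : ∀ j ∈ S, eval ![x j, y j] F = 0) (hc : e ^ 2 < S.card) (c : Ix e → ℚ)
    (hcj : ∀ j ∈ S, ∑ p, c p * (x j ^ ea p * y j ^ eb p) = 0) :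
    ∃ k : ℚ, ∀ p, c p = k * F.coeff (mon p) := by
  classical
  obtain ⟨k, hk⟩ := smul_of_zeros hF hFe (pol_deg c) (S.image fun j => (![x j, y j] : Fin 2 → ℚ)) (by
    intro z hz
    obtain ⟨j, hj, rfl⟩ := Finset.mem_image.1 hz
    exact ⟨hFj j hj, by rw [pol_eval]; exact hcj j hj⟩) (by
    rw [Finset.card_image_of_injOn]
    · exact hc
    · intro j hj j' hj' h
      refine hinj hj hj' ?_
      have h0 := congrFun h 0
      have h1 := congrFun h 1
      exact Prod.ext h0 h1)
  refine ⟨k, fun p => ?_⟩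
  rw [← pol_coeff c p, hk, coeff_C_mul]

end Pool.Agent.NH8.UC
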