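import Mathlib
import Pool.Agent.NH8.UC

/-!
# A deformation of many points on a curve is constant
-/

set_option autoImplicit false

open MvPolynomial

namespace Pool.Agent.NH8.UC

open Pool.Agent.NH8.UA

variable {e : ℕ}

/-- a polynomial vanishing on a one-parameter subgroup is a binomial -/
theorem no_subgroup {F : MvPolynomial (Fin 2) ℚ} (hF : Irreducible F) (hFe : F.totalDegree = e)
    (h3 : 3 ≤ F.support.card) (w1 w2 : ℝ)
    (h : ∀ s : ℝ, ∑ p : Ix e, (if (ea p : ℝ) * w1 + (eb p : ℝ) * w2 = s then F.coeff (mon p) else 0) = 0) :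
    w1 = 0 ∧ w2 = 0 := by
  classical
  by_contra hw
  -- two monomials with the same weight
  obtain ⟨p0, hp0⟩ : ∃ p0 : Ix e, F.coeff (mon p0) ≠ 0 := by
    by_contra h0
    push Not at h0
    apply hF.ne_zero
    rw [eq_pol (e := e) hFe.le]
    unfold pol
    simp [h0]
  obtain ⟨p1, hp1, hw1⟩ : ∃ p1 : Ix e, p1 ≠ p0 ∧ (ea p1 : ℝ) * w1 + (eb p1 : ℝ) * w2 =
      (ea p0 : ℝ) * w1 + (eb p0 : ℝ) * w2 := by
    by_contra h0
    push Not at h0
    have h1 := h ((ea p0 : ℝ) * w1 + (eb p0 : ℝ) * w2)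
    rw [Finset.sum_eq_single p0 (fun p _ hp => if_neg (h0 p hp))
      (fun h => absurd (Finset.mem_univ p0) h), if_pos rfl] at h1
    exact hp0 h1
  obtain ⟨α, hα⟩ : ∃ α : ℤ, α = (ea p1 : ℤ) - ea p0 := ⟨_, rfl⟩
  obtain ⟨β, hβ⟩ : ∃ β : ℤ, β = (eb p1 : ℤ) - eb p0 := ⟨_, rfl⟩
  have hαβ : α ≠ 0 ∨ β ≠ 0 := by
    by_contra h0
    push Not at h0
    exact hp1 (e_ext (by omega) (by omega))
  have hαr : (α : ℝ) = ea p1 - ea p0 := by rw [hα]; push_cast; ring
  have hβr : (β : ℝ) = eb p1 - eb p0 := by rw [hβ]; push_cast; ring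
  have hrel : (α : ℝ) * w1 + β * w2 = 0 := by rw [hαr, hβr]; linarith
  obtain ⟨τ, hτ1, hτ2⟩ : ∃ τ : ℝ, w1 = τ * (-β) ∧ w2 = τ * α := by
    rcases hαβ with h0 | h0
    · have h0' : (α : ℝ) ≠ 0 := by exact_mod_cast h0
      refine ⟨w2 / α, ?_, ?_⟩
      · field_simp
        linarith
      · field_simp
    · have h0' : (β : ℝ) ≠ 0 := by exact_mod_cast h0
      refine ⟨-w1 / β, ?_, ?_⟩
      · field_simp
      · field_simp
        linarith
  have hτ0 : τ ≠ 0 := by
    rintro rfl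
    exact hw ⟨by rw [hτ1, zero_mul], by rw [hτ2, zero_mul]⟩
  -- the integral weight
  obtain ⟨ℓ, hℓ⟩ : ∃ ℓ : Ix e → ℤ, ∀ p, ℓ p = -β * ea p + α * eb p := ⟨_, fun _ => rfl⟩
  have hℓw : ∀ p, (ea p : ℝ) * w1 + (eb p : ℝ) * w2 = τ * (ℓ p : ℝ) := by
    intro p
    rw [hℓ, hτ1, hτ2]
    push_cast
    ring
  have hlev : ∀ k : ℤ, ∑ p : Ix e, (if ℓ p = k then F.coeff (mon p) else 0) = 0 := by
    intro k
    refine Eq.trans ?_ (h (τ * k))
    refine Finset.sum_congr rfl fun p _ => ?_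
    rw [hℓw]
    by_cases hk : ℓ p = k
    · rw [if_pos hk, if_pos (by rw [hk])]
    · rw [if_neg hk, if_neg]
      intro h0
      exact hk (by exact_mod_cast mul_left_cancel₀ hτ0 h0)
  -- the points
  obtain ⟨pt, hpt⟩ : ∃ pt : ℕ → Fin 2 → ℚ, ∀ n, pt n = ![((n + 1 : ℕ) : ℚ) ^ (-β), ((n + 1 : ℕ) : ℚ) ^ α] :=
    ⟨_, fun _ => rfl⟩
  have hpos : ∀ n : ℕ, ((n + 1 : ℕ) : ℚ) ≠ 0 := fun n => by positivity
  have hmonp : ∀ (n : ℕ) (p : Ix e), (((n + 1 : ℕ) : ℚ) ^ (-β)) ^ ea p * (((n + 1 : ℕ) : ℚ) ^ α) ^ eb p =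
      ((n + 1 : ℕ) : ℚ) ^ (ℓ p) := by
    intro n p
    rw [← zpow_natCast, ← zpow_natCast, ← zpow_mul, ← zpow_mul, ← zpow_add₀ (hpos n), hℓ]
  have hFpt : ∀ n, eval (pt n) F = 0 := by
    intro n
    rw [hpt, eval_eq hFe.le]
    simp only [hmonp]
    have h1 : ∀ p : Ix e, F.coeff (mon p) * ((n + 1 : ℕ) : ℚ) ^ (ℓ p) =
        ∑ k ∈ Finset.univ.image ℓ, (if ℓ p = k then F.coeff (mon p) else 0) * ((n + 1 : ℕ) : ℚ) ^ k := by
      intro p
      rw [Finset.sum_eq_single (ℓ p)]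
      · rw [if_pos rfl]
      · intro k _ hk
        rw [if_neg (Ne.symm hk), zero_mul]
      · intro h0
        exact absurd (Finset.mem_image_of_mem ℓ (Finset.mem_univ p)) h0
    rw [Finset.sum_congr rfl fun p _ => h1 p, Finset.sum_comm]
    refine Finset.sum_eq_zero fun k _ => ?_
    rw [← Finset.sum_mul, hlev, zero_mul]
  have hbin : ∀ n, eval (pt n) (monomial (mon p0) (1 : ℚ) - monomial (mon p1) 1) = 0 := by
    intro n
    have h1 : ∀ p : Ix e, eval (pt n) (monomial (mon p) (1 : ℚ)) = ((n + 1 : ℕ) : ℚ) ^ (ℓ p) := by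
      intro p
      rw [eval_monomial, Finsupp.prod_fintype _ _ (fun _ => pow_zero _), Fin.prod_univ_two, mon_zero,
        mon_one, hpt, one_mul, ← hmonp]
      rfl
    rw [map_sub, h1, h1, sub_eq_zero]
    congr 1
    rw [hℓ, hℓ, hα, hβ]
    ring
  have hinj : Function.Injective pt := by
    intro n n' hnn
    rw [hpt, hpt] at hnn
    have h0 : ((n + 1 : ℕ) : ℚ) ^ (-β) = ((n' + 1 : ℕ) : ℚ) ^ (-β) := congrFun hnn 0
    have h1 : ((n + 1 : ℕ) : ℚ) ^ α = ((n' + 1 : ℕ) : ℚ) ^ α := congrFun hnn 1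
    have key : ((n + 1 : ℕ) : ℚ) = ((n' + 1 : ℕ) : ℚ) := by
      rcases hαβ with h2 | h2
      · exact (zpow_left_inj₀ (by positivity) (by positivity) h2).1 h1
      · exact (zpow_left_inj₀ (by positivity) (by positivity) (neg_ne_zero.2 h2)).1 h0
    have : n + 1 = n' + 1 := by exact_mod_cast key
    omega
  have hmne : mon p0 ≠ mon p1 := fun h0 => hp1 (mon_inj h0).symm
  have hdeg : (monomial (mon p0) (1 : ℚ) - monomial (mon p1) 1).totalDegree ≤ e := by
    refine (totalDegree_sub _ _).trans (max_le ?_ ?_)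
    · refine (totalDegree_monomial_le _ _).trans ?_
      rw [Finsupp.sum_fintype _ _ (fun _ => rfl), Fin.sum_univ_two, mon_zero, mon_one]
      exact e_le p0
    · refine (totalDegree_monomial_le _ _).trans ?_
      rw [Finsupp.sum_fintype _ _ (fun _ => rfl), Fin.sum_univ_two, mon_zero, mon_one]
      exact e_le p1
  obtain ⟨k, hk⟩ := smul_of_zeros hF hFe hdeg ((Finset.range (e ^ 2 + 1)).image pt) (by
    intro z hz
    obtain ⟨n, _, rfl⟩ := Finset.mem_image.1 hz
    exact ⟨hFpt n, hbin n⟩) (by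
    rw [Finset.card_image_of_injective _ hinj, Finset.card_range]
    omega)
  have hk0 : k ≠ 0 := by
    rintro rfl
    rw [map_zero, zero_mul] at hk
    have h1 := congrArg (coeff (mon p0)) hk
    rw [coeff_sub, coeff_monomial, if_pos rfl, coeff_monomial, if_neg hmne.symm, sub_zero,
      coeff_zero] at h1
    exact one_ne_zero h1
  have hsup : F.support ⊆ {mon p0, mon p1} := by
    intro m hm
    rw [mem_support_iff] at hm
    by_contra h0
    rw [Finset.mem_insert, Finset.mem_singleton, not_or] at h0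
    have h1 := congrArg (coeff m) hk
    rw [coeff_sub, coeff_monomial, if_neg (Ne.symm h0.1), coeff_monomial, if_neg (Ne.symm h0.2),
      sub_zero, coeff_C_mul] at h1
    rcases mul_eq_zero.1 h1.symm with h2 | h2
    · exact hk0 h2
    · exact hm h2
  have h4 := (Finset.card_le_card hsup).trans Finset.card_le_two
  omega

/-- the leading terms of a relation between generalised power series -/
theorem leading (x y : ℚ) (ξ η : ℝ) (c : Ix e → KK) (hc : c ≠ 0)
    (h : ∑ p, c p * HahnSeries.single ((ea p : ℝ) * ξ + (eb p : ℝ) * η) (x ^ ea p * y ^ eb p) = 0) :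
    ∃ (s : ℝ) (A : Finset (Ix e)), A.Nonempty ∧
      (∀ p ∈ A, c p ≠ 0 ∧ (c p).order + ((ea p : ℝ) * ξ + (eb p : ℝ) * η) = s) ∧
      ∑ p, (if p ∈ A then (c p).leadingCoeff else 0) * (x ^ ea p * y ^ eb p) = 0 := by
  classical
  obtain ⟨w, hw⟩ : ∃ w : Ix e → ℝ, ∀ p, w p = (ea p : ℝ) * ξ + (eb p : ℝ) * η := ⟨_, fun _ => rfl⟩
  simp only [← hw] at h ⊢
  obtain ⟨N, hN⟩ : ∃ N : Finset (Ix e), N = Finset.univ.filter (fun p => c p ≠ 0) := ⟨_, rfl⟩
  have hNm : ∀ p, p ∈ N ↔ c p ≠ 0 := fun p => by rw [hN, Finset.mem_filter]; simp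
  have hNne : N.Nonempty := by
    obtain ⟨p, hp⟩ := Function.ne_iff.1 hc
    exact ⟨p, (hNm p).2 hp⟩
  obtain ⟨q, hq, hmin⟩ := Finset.exists_min_image N (fun p => (c p).order + w p) hNne
  obtain ⟨s, hs⟩ : ∃ s, s = (c q).order + w q := ⟨_, rfl⟩
  refine ⟨s, N.filter (fun p => (c p).order + w p = s), ⟨q, Finset.mem_filter.2 ⟨hq, hs.symm⟩⟩,
    fun p hp => ⟨(hNm p).1 (Finset.mem_filter.1 hp).1, (Finset.mem_filter.1 hp).2⟩, ?_⟩
  have h1 := congrArg (fun z : KK => z.coeff s) h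
  simp only [HahnSeries.coeff_sum, HahnSeries.coeff_zero] at h1
  refine Eq.trans ?_ h1
  refine Finset.sum_congr rfl fun p _ => ?_
  have h2 : (c p * HahnSeries.single (w p) (x ^ ea p * y ^ eb p)).coeff s =
      (c p).coeff (s - w p) * (x ^ ea p * y ^ eb p) := by
    have h3 := HahnSeries.coeff_mul_single_add (r := x ^ ea p * y ^ eb p) (x := c p) (a := s - w p)
      (b := w p)
    rwa [sub_add_cancel] at h3
  rw [h2]
  congr 1
  by_cases hp : p ∈ N.filter (fun p => (c p).order + w p = s)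
  · rw [if_pos hp]
    have h3 := (Finset.mem_filter.1 hp).2
    rw [show s - w p = (c p).order by linarith]
    exact HahnSeries.leadingCoeff_eq
  · rw [if_neg hp]
    by_cases hcp : c p = 0
    · rw [hcp, HahnSeries.coeff_zero]
    · symm
      apply HahnSeries.coeff_eq_zero_of_lt_order
      have h3 := hmin p ((hNm p).2 hcp)
      have h4 : (c p).order + w p ≠ s := fun h0 =>
        hp (Finset.mem_filter.2 ⟨(hNm p).2 hcp, h0⟩)
      have h5 : s < (c p).order + w p := lt_of_le_of_ne (by rw [hs]; exact h3) h4.symm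
      linarith

/-- **Main lemma.** A deformation of many points on a curve which lie on a moving curve, with one
point fixed, fixes many points. -/
theorem main {F : MvPolynomial (Fin 2) ℚ} (hF : Irreducible F) (hFe : F.totalDegree = e)
    (h3 : 3 ≤ F.support.card) {J : Type} (j0 : J) (x y : J → ℚ) (ξ η : J → ℝ)
    (hx0 : x j0 = 1) (hy0 : y j0 = 1) (hξ0 : ξ j0 = 0) (hη0 : η j0 = 0) (S : Finset J)
    (hinj : Set.InjOn (fun j => (x j, y j)) (S : Set J)) (hFj : ∀ j ∈ S, eval ![x j, y j] F = 0)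
    (hF0 : eval ![1, 1] F = 0) (hcard : 2 ^ Fintype.card (Ix e) * e ^ 2 < S.card)
    (c : Ix e → KK) (hc : c ≠ 0)
    (hcj : ∀ j, ∑ p, c p * HahnSeries.single ((ea p : ℝ) * ξ j + (eb p : ℝ) * η j)
      (x j ^ ea p * y j ^ eb p) = 0) :
    ∃ S' ⊆ S, e ^ 2 < S'.card ∧ ∀ j ∈ S', ξ j = 0 ∧ η j = 0 := by
  classical
  choose s A hA1 hA2 hA3 using fun j => leading (x j) (y j) (ξ j) (η j) c hc (hcj j)
  obtain ⟨A0, -, hA0⟩ := Finset.exists_lt_card_fiber_of_mul_lt_card_of_maps_to (s := S)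
    (t := (Finset.univ : Finset (Finset (Ix e)))) (f := A) (n := e ^ 2)
    (fun j _ => Finset.mem_univ _) (by
      rw [Finset.card_univ, Fintype.card_finset]
      exact hcard)
  obtain ⟨S', hS'⟩ : ∃ S', S' = S.filter (fun j => A j = A0) := ⟨_, rfl⟩
  rw [← hS'] at hA0
  have hS'm : ∀ j ∈ S', j ∈ S ∧ A j = A0 := fun j hj => by
    rw [hS'] at hj
    exact Finset.mem_filter.1 hj
  have hinj' : Set.InjOn (fun j => (x j, y j)) (S' : Set J) := fun i hi j hj h =>
    hinj (hS'm i hi).1 (hS'm j hj).1 h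
  have hFj' : ∀ j ∈ S', eval ![x j, y j] F = 0 := fun j hj => hFj j (hS'm j hj).1
  have hne : S'.Nonempty := Finset.card_pos.1 (by omega)
  obtain ⟨j1, hj1⟩ := hne
  refine ⟨S', fun j hj => (hS'm j hj).1, hA0, ?_⟩
  -- the leading terms are proportional to the coefficients of `F`
  obtain ⟨k, hk⟩ := smul_of hF hFe S' x y hinj' hFj' hA0
    (fun p => if p ∈ A0 then (c p).leadingCoeff else 0) (fun j hj => by
      have h1 := hA3 j
      rw [(hS'm j hj).2] at h1
      exact h1)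
  have hk0 : k ≠ 0 := by
    rintro rfl
    obtain ⟨p, hp⟩ := hA1 j1
    have h1 := hk p
    rw [zero_mul, if_pos ((hS'm j1 hj1).2 ▸ hp)] at h1
    exact (hA2 j1 p hp).1 (HahnSeries.leadingCoeff_eq_zero.1 h1)
  have hmem : ∀ p : Ix e, F.coeff (mon p) ≠ 0 → ∀ j ∈ S',
      (c p).order + ((ea p : ℝ) * ξ j + (eb p : ℝ) * η j) = s j := by
    intro p hp j hj
    have h1 : p ∈ A0 := by
      by_contra h0
      have h1 := hk p
      rw [if_neg h0] at h1
      exact mul_ne_zero hk0 hp h1.symm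
    exact (hA2 j p ((hS'm j hj).2.symm ▸ h1)).2
  have hsumF : ∑ p : Ix e, F.coeff (mon p) = 0 := by
    rw [eval_eq hFe.le] at hF0
    simpa using hF0
  have hconst : ∀ j ∈ S', ξ j = ξ j1 ∧ η j = η j1 := by
    intro j hj
    have h1 := no_subgroup hF hFe h3 (ξ j - ξ j1) (η j - η j1) (fun r => by
      have h2 : ∀ p : Ix e, (if (ea p : ℝ) * (ξ j - ξ j1) + (eb p : ℝ) * (η j - η j1) = r then
          F.coeff (mon p) else 0) = if s j - s j1 = r then F.coeff (mon p) else 0 := by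
        intro p
        by_cases hp : F.coeff (mon p) = 0
        · rw [hp]; simp
        · have e1 := hmem p hp j hj
          have e2 := hmem p hp j1 hj1
          rw [show (ea p : ℝ) * (ξ j - ξ j1) + (eb p : ℝ) * (η j - η j1) = s j - s j1 by linarith]
      rw [Finset.sum_congr rfl fun p _ => h2 p]
      by_cases hr : s j - s j1 = r
      · simp only [if_pos hr]
        exact hsumF
      · simp only [if_neg hr]
        exact Finset.sum_const_zero)
    exact ⟨by linarith [h1.1], by linarith [h1.2]⟩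
  -- the relation after a translation
  obtain ⟨c', hc'⟩ : ∃ c' : Ix e → KK, ∀ p, c' p =
      c p * HahnSeries.single ((ea p : ℝ) * ξ j1 + (eb p : ℝ) * η j1) (1 : ℚ) := ⟨_, fun _ => rfl⟩
  have hmul : ∀ r : ℝ, ∃ m : ℚ, ∀ p, (c' p).coeff r = m * F.coeff (mon p) := by
    intro r
    refine smul_of hF hFe S' x y hinj' hFj' hA0 (fun p => (c' p).coeff r) (fun j hj => ?_)
    have h1 := hcj j
    rw [(hconst j hj).1, (hconst j hj).2] at h1
    have h2 := congrArg (fun z : KK => z.coeff r) h1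
    simp only [HahnSeries.coeff_sum, HahnSeries.coeff_zero] at h2
    refine Eq.trans ?_ h2
    refine Finset.sum_congr rfl fun p _ => ?_
    have h4 : ∀ v : ℚ, (c p * HahnSeries.single ((ea p : ℝ) * ξ j1 + (eb p : ℝ) * η j1) v).coeff r =
        (c p).coeff (r - ((ea p : ℝ) * ξ j1 + (eb p : ℝ) * η j1)) * v := by
      intro v
      have h3 := HahnSeries.coeff_mul_single_add (r := v) (x := c p)
        (a := r - ((ea p : ℝ) * ξ j1 + (eb p : ℝ) * η j1)) (b := (ea p : ℝ) * ξ j1 + (eb p : ℝ) * η j1)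
      rwa [sub_add_cancel] at h3
    rw [hc', h4, h4, mul_one]
  choose m hm using hmul
  obtain ⟨p0, hp0⟩ : ∃ p0 : Ix e, F.coeff (mon p0) ≠ 0 := by
    by_contra h0
    push Not at h0
    apply hF.ne_zero
    rw [eq_pol (e := e) hFe.le]
    unfold pol
    simp [h0]
  obtain ⟨μ, hμ⟩ : ∃ μ : KK, μ = (F.coeff (mon p0))⁻¹ • c' p0 := ⟨_, rfl⟩
  have hμc : ∀ p, c' p = F.coeff (mon p) • μ := by
    intro p
    ext r
    rw [hμ, HahnSeries.coeff_smul, HahnSeries.coeff_smul, hm, hm, smul_eq_mul, smul_eq_mul]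
    field_simp
  have hunit : ∀ p, c p = c' p *
      HahnSeries.single (-((ea p : ℝ) * ξ j1 + (eb p : ℝ) * η j1)) (1 : ℚ) := by
    intro p
    rw [hc', mul_assoc, HahnSeries.single_mul_single, add_neg_cancel, mul_one]
    exact (mul_one _).symm
  have hμ0 : μ ≠ 0 := by
    intro h0
    apply hc
    funext p
    rw [hunit, hμc, h0, smul_zero, zero_mul]
    rfl
  have hz : ∑ p : Ix e, (HahnSeries.single (-((ea p : ℝ) * ξ j1 + (eb p : ℝ) * η j1))
      (F.coeff (mon p)) : KK) = 0 := by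
    have h1 := hcj j0
    rw [hx0, hy0, hξ0, hη0] at h1
    have h2 : μ * ∑ p : Ix e, (HahnSeries.single (-((ea p : ℝ) * ξ j1 + (eb p : ℝ) * η j1))
        (F.coeff (mon p)) : KK) = 0 := by
      rw [← h1, Finset.mul_sum]
      refine Finset.sum_congr rfl fun p _ => ?_
      rw [one_pow, one_pow, mul_zero, mul_zero, add_zero, mul_one]
      have e1 : (HahnSeries.single (0 : ℝ) (1 : ℚ) : KK) = 1 := rfl
      rw [e1, mul_one, hunit p, hμc, smul_mul_assoc, ← mul_smul_comm]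
      congr 1
      ext r
      rw [HahnSeries.coeff_smul, HahnSeries.coeff_single, HahnSeries.coeff_single]
      split_ifs
      · rw [smul_eq_mul, mul_one]
      · rw [smul_zero]
    rcases mul_eq_zero.1 h2 with h4 | h4
    · exact absurd h4 hμ0
    · exact h4
  have hfin := no_subgroup hF hFe h3 (ξ j1) (η j1) (fun r => by
    have h1 := congrArg (fun z : KK => z.coeff (-r)) hz
    simp only [HahnSeries.coeff_sum, HahnSeries.coeff_zero, HahnSeries.coeff_single] at h1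
    refine Eq.trans ?_ h1
    refine Finset.sum_congr rfl fun p _ => ?_
    by_cases hr : (ea p : ℝ) * ξ j1 + (eb p : ℝ) * η j1 = r
    · rw [if_pos hr, if_pos (by rw [hr])]
    · rw [if_neg hr, if_neg]
      intro h0
      exact hr (neg_injective h0.symm))
  intro j hj
  obtain ⟨h1, h2⟩ := hconst j hj
  exact ⟨h1.trans hfin.1, h2.trans hfin.2⟩

end Pool.Agent.NH8.UC
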