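import Mathlib
import Pool.Agent.NH8.UB
import Pool.Agent.NH8.UD

/-!
# Few curves with many points, for given exponents and degree
-/

set_option autoImplicit false

open MvPolynomial

namespace Pool.Agent.NH8.UE

open Pool.Agent.NH8.UA Pool.Agent.NH8.UB Pool.Agent.NH8.UC

/-- the height of `q` is at most `B` -/
def HtLe (B : ℕ) (q : ℚ) : Prop := |q.num| ≤ (B : ℤ) ∧ q.den ≤ B

/-- the number of points -/
def Bn (e : ℕ) : ℕ := 2 ^ Fintype.card (Ix e) * e ^ 2 + 1

/-- the indices of the points; `none` is the base point -/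
abbrev Jx (e : ℕ) : Type := Option (Fin (Bn e))

/-- the data of a curve with many points -/
structure Dat (e d m n Y : ℕ) (F : MvPolynomial (Fin 2) ℚ) (x y : Jx e → ℚ) : Prop where
  irr : Irreducible F
  deg : F.totalDegree = e
  sup : 3 ≤ F.support.card
  one : eval ![1, 1] F = 0
  hx : ∀ j, x j ≠ 0 ∧ HtLe Y (x j)
  hy : ∀ j, y j ≠ 0 ∧ HtLe Y (y j)
  x0 : x none = 1
  y0 : y none = 1
  on : ∀ j, eval ![x j ^ (m * d), y j ^ (n * d)] F = 0
  inj : Function.Injective fun i : Fin (Bn e) => (x (some i) ^ (m * d), y (some i) ^ (n * d))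

variable {e : ℕ}

/-- the exponents of the numerators and denominators -/
def ex (m n : ℕ) (p : Ix e) : Fin 4 → ℕ := ![m * ea p, m * (e - ea p), n * eb p, n * (e - eb p)]

/-- the integers -/
def tt (x y : Jx e → ℚ) (q : Jx e × Fin 4) : ℤ :=
  (![(x q.1).num, (x q.1).den, (y q.1).num, (y q.1).den] : Fin 4 → ℤ) q.2

/-- the monomial in the row `j` and the column `p` -/
def mp (m n : ℕ) (x y : Jx e → ℚ) (j : Jx e) (p : Ix e) : ℤ := ∏ c, tt x y (j, c) ^ ex m n p c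

/-- the exponents of the monomials in the determinants -/
def gg (m n : ℕ) (k : (Ix e → Jx e) × Equiv.Perm (Ix e)) (q : Jx e × Fin 4) : ℕ :=
  ∑ p, if k.1 (k.2 p) = q.1 then ex m n p q.2 else 0

theorem prod_gg (m n : ℕ) (x y : Jx e → ℚ) (k : (Ix e → Jx e) × Equiv.Perm (Ix e)) :
    ∏ q, tt x y q ^ gg m n k q = ∏ p, mp m n x y (k.1 (k.2 p)) p := by
  classical
  unfold gg mp
  have h1 : ∀ q : Jx e × Fin 4, tt x y q ^ (∑ p, if k.1 (k.2 p) = q.1 then ex m n p q.2 else 0) =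
      ∏ p, (if k.1 (k.2 p) = q.1 then tt x y q ^ ex m n p q.2 else 1) := by
    intro q
    rw [← Finset.prod_pow_eq_pow_sum]
    refine Finset.prod_congr rfl fun p _ => ?_
    split_ifs
    · rfl
    · exact pow_zero _
  rw [Finset.prod_congr rfl fun q _ => h1 q, Finset.prod_comm]
  refine Finset.prod_congr rfl fun p _ => ?_
  rw [Fintype.prod_prod_type, Finset.prod_eq_single (k.1 (k.2 p))]
  · refine Finset.prod_congr rfl fun c _ => ?_
    rw [if_pos rfl]
  · intro j _ hj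
    exact Finset.prod_eq_one fun c _ => if_neg (Ne.symm hj)
  · intro h
    exact absurd (Finset.mem_univ _) h

/-- the weight of the entry in the row `j` and the column `p` -/
noncomputable def ψ (m n : ℕ) (x y x' y' : Jx e → ℚ) (j : Jx e) (p : Ix e) : ℝ :=
  ∑ c, (ex m n p c : ℝ) * (Real.log (tt x y (j, c)) - Real.log (tt x' y' (j, c)))

theorem Lg_gg (m n : ℕ) (x y x' y' : Jx e → ℚ) (k : (Ix e → Jx e) × Equiv.Perm (Ix e)) :
    Lg (gg m n k) (tt x y) (tt x' y') = ∑ p, ψ m n x y x' y' (k.1 (k.2 p)) p := by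
  classical
  unfold Lg gg ψ
  have h1 : ∀ q : Jx e × Fin 4, (((∑ p, if k.1 (k.2 p) = q.1 then ex m n p q.2 else 0 : ℕ) : ℕ) : ℝ) *
      (Real.log (tt x y q) - Real.log (tt x' y' q)) =
      ∑ p, (if k.1 (k.2 p) = q.1 then (ex m n p q.2 : ℝ) *
        (Real.log (tt x y q) - Real.log (tt x' y' q)) else 0) := by
    intro q
    rw [Nat.cast_sum, Finset.sum_mul]
    refine Finset.sum_congr rfl fun p _ => ?_
    split_ifs
    · rfl
    · rw [Nat.cast_zero, zero_mul]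
  rw [Finset.sum_congr rfl fun q _ => h1 q, Finset.sum_comm]
  refine Finset.sum_congr rfl fun p _ => ?_
  rw [Fintype.sum_prod_type, Finset.sum_eq_single (k.1 (k.2 p))]
  · refine Finset.sum_congr rfl fun c _ => ?_
    rw [if_pos rfl]
  · intro j _ hj
    exact Finset.sum_eq_zero fun c _ => if_neg (Ne.symm hj)
  · intro h
    exact absurd (Finset.mem_univ _) h

/-- the logarithm of the absolute value of a rational number -/
theorem log_rat (x : ℚ) (hx : x ≠ 0) :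
    Real.log (x : ℝ) = Real.log ((x.num : ℤ) : ℝ) - Real.log (((x.den : ℕ) : ℤ) : ℝ) := by
  have h1 : ((x.num : ℤ) : ℝ) ≠ 0 := by exact_mod_cast Rat.num_ne_zero.2 hx
  have h2 : (((x.den : ℕ) : ℤ) : ℝ) ≠ 0 := by exact_mod_cast x.den_nz
  rw [← Real.log_div h1 h2]
  congr 1
  have := Rat.num_div_den x
  conv_lhs => rw [← this]
  push_cast
  rfl

theorem ψ_eq (m n : ℕ) (x y x' y' : Jx e → ℚ) (hx : ∀ j, x j ≠ 0) (hy : ∀ j, y j ≠ 0)
    (hx' : ∀ j, x' j ≠ 0) (hy' : ∀ j, y' j ≠ 0) (j : Jx e) (p : Ix e) :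
    ψ m n x y x' y' j p = ((ea p : ℝ) * (m * (Real.log (x j) - Real.log (x' j))) +
      (eb p : ℝ) * (n * (Real.log (y j) - Real.log (y' j)))) +
      e * (m * (Real.log (((x j).den : ℕ) : ℤ) - Real.log (((x' j).den : ℕ) : ℤ)) +
        n * (Real.log (((y j).den : ℕ) : ℤ) - Real.log (((y' j).den : ℕ) : ℤ))) := by
  unfold ψ
  rw [Fin.sum_univ_four, log_rat _ (hx j), log_rat _ (hy j), log_rat _ (hx' j), log_rat _ (hy' j)]
  have ha : ea p ≤ e := by have := e_le p; omega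
  have hb : eb p ≤ e := by have := e_le p; omega
  have e0 : ((ex m n p 0 : ℕ) : ℝ) = m * ea p := by
    show ((m * ea p : ℕ) : ℝ) = _
    push_cast; ring
  have e1 : ((ex m n p 1 : ℕ) : ℝ) = m * (e - ea p) := by
    show ((m * (e - ea p) : ℕ) : ℝ) = _
    push_cast [Nat.cast_sub ha]; ring
  have e2 : ((ex m n p 2 : ℕ) : ℝ) = n * eb p := by
    show ((n * eb p : ℕ) : ℝ) = _
    push_cast; ring
  have e3 : ((ex m n p 3 : ℕ) : ℝ) = n * (e - eb p) := by
    show ((n * (e - eb p) : ℕ) : ℝ) = _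
    push_cast [Nat.cast_sub hb]; ring
  rw [e0, e1, e2, e3]
  show (m * ea p : ℝ) * (Real.log ((x j).num : ℤ) - Real.log ((x' j).num : ℤ)) +
    (m * (e - ea p) : ℝ) * (Real.log (((x j).den : ℕ) : ℤ) - Real.log (((x' j).den : ℕ) : ℤ)) +
    (n * eb p : ℝ) * (Real.log ((y j).num : ℤ) - Real.log ((y' j).num : ℤ)) +
    (n * (e - eb p) : ℝ) * (Real.log (((y j).den : ℕ) : ℤ) - Real.log (((y' j).den : ℕ) : ℤ)) = _
  ring

/-- the common factor of a row -/
def Dn (m n : ℕ) (x y : Jx e → ℚ) (j : Jx e) : ℚ := ((x j).den : ℚ) ^ (m * e) * ((y j).den : ℚ) ^ (n * e)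

theorem Dn_ne (m n : ℕ) (x y : Jx e → ℚ) (j : Jx e) : Dn m n x y j ≠ 0 := by
  unfold Dn
  have h1 : ((x j).den : ℚ) ≠ 0 := by exact_mod_cast (x j).den_nz
  have h2 : ((y j).den : ℚ) ≠ 0 := by exact_mod_cast (y j).den_nz
  positivity

theorem mp_eq (m n d : ℕ) (x y : Jx e → ℚ) (j : Jx e) (p : Ix e) :
    ((mp m n x y j p : ℤ) : ℚ) ^ d = Dn m n x y j ^ d *
      ((x j ^ (m * d)) ^ ea p * (y j ^ (n * d)) ^ eb p) := by
  have ha : ea p ≤ e := by have := e_le p; omega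
  have hb : eb p ≤ e := by have := e_le p; omega
  have key : ∀ (z : ℚ) (k a : ℕ), a ≤ e → (z.num : ℚ) ^ (k * a) * ((z.den : ℕ) : ℚ) ^ (k * (e - a)) =
      ((z.den : ℕ) : ℚ) ^ (k * e) * z ^ (k * a) := by
    intro z k a hae
    have h1 : (z.num : ℚ) = z * (z.den : ℚ) := (Rat.mul_den_eq_num z).symm
    rw [h1, mul_pow, show k * e = k * a + k * (e - a) by rw [← mul_add]; congr 1; omega, pow_add]
    ring
  have h1 : ((mp m n x y j p : ℤ) : ℚ) = Dn m n x y j * (x j ^ (m * ea p) * y j ^ (n * eb p)) := by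
    unfold mp Dn
    rw [Fin.prod_univ_four]
    push_cast
    show ((x j).num : ℚ) ^ (m * ea p) * (((x j).den : ℤ) : ℚ) ^ (m * (e - ea p)) *
      ((y j).num : ℚ) ^ (n * eb p) * (((y j).den : ℤ) : ℚ) ^ (n * (e - eb p)) = _
    rw [Int.cast_natCast, Int.cast_natCast, key _ _ _ ha, mul_assoc, key _ _ _ hb]
    ring
  rw [h1, mul_pow, mul_pow, ← pow_mul, ← pow_mul, ← pow_mul, ← pow_mul]
  congr 3
  · ring
  · ring

end Pool.Agent.NH8.UE
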