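import Mathlib
import Pool.Agent.NH8.UE

/-!
# Few curves with many points, for given exponents and degree: the theorem
-/

set_option autoImplicit false

open MvPolynomial

namespace Pool.Agent.NH8.UE

open Pool.Agent.NH8.UA Pool.Agent.NH8.UB Pool.Agent.NH8.UC

variable {e : ℕ}

theorem tt_bd {Y : ℕ} {x y : Jx e → ℚ} (hx : ∀ j, x j ≠ 0 ∧ HtLe Y (x j))
    (hy : ∀ j, y j ≠ 0 ∧ HtLe Y (y j)) (q : Jx e × Fin 4) :
    tt x y q ≠ 0 ∧ |tt x y q| ≤ (Y : ℤ) := by
  have key : ∀ z : ℚ, z ≠ 0 ∧ HtLe Y z → (z.num ≠ 0 ∧ |z.num| ≤ (Y : ℤ)) ∧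
      (((z.den : ℕ) : ℤ) ≠ 0 ∧ |((z.den : ℕ) : ℤ)| ≤ (Y : ℤ)) := by
    intro z hz
    refine ⟨⟨Rat.num_ne_zero.2 hz.1, hz.2.1⟩, by exact_mod_cast z.den_nz, ?_⟩
    rw [abs_of_nonneg (by positivity)]
    exact_mod_cast hz.2.2
  obtain ⟨j, c⟩ := q
  fin_cases c
  · exact (key _ (hx j)).1
  · exact (key _ (hx j)).2
  · exact (key _ (hy j)).1
  · exact (key _ (hy j)).2

/-- the coefficients of the relations -/
noncomputable def uu (e : ℕ) (f : Ix e → Jx e) (k : (Ix e → Jx e) × Equiv.Perm (Ix e)) : ℤ :=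
  haveI := Classical.dec (f = k.1)
  if f = k.1 then (Equiv.Perm.sign k.2 : ℤ) else 0

theorem uu_abs (f : Ix e → Jx e) (k : (Ix e → Jx e) × Equiv.Perm (Ix e)) : |uu e f k| ≤ 1 := by
  unfold uu
  split_ifs
  · rcases Int.units_eq_one_or (Equiv.Perm.sign k.2) with h | h <;> rw [h] <;> simp
  · simp

theorem sum_uu (f : Ix e → Jx e) (G : (Ix e → Jx e) × Equiv.Perm (Ix e) → ℤ)
    (W : (Ix e → Jx e) × Equiv.Perm (Ix e) → Prop) [DecidablePred W] :
    ∑ k, (if W k then uu e f k * G k else 0) =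
      ∑ σ : Equiv.Perm (Ix e), (if W (f, σ) then (Equiv.Perm.sign σ : ℤ) * G (f, σ) else 0) := by
  classical
  rw [Fintype.sum_prod_type, Finset.sum_eq_single f]
  · refine Finset.sum_congr rfl fun σ _ => ?_
    unfold uu
    simp only [if_true]
  · intro f' _ hf
    refine Finset.sum_eq_zero fun σ _ => ?_
    unfold uu
    simp only [if_neg (Ne.symm hf), zero_mul, ite_self]
  · intro h
    exact absurd (Finset.mem_univ f) h

/-- the determinants vanish -/
theorem Dat.det {d m n Y : ℕ} {F : MvPolynomial (Fin 2) ℚ} {x y : Jx e → ℚ}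
    (h : Dat e d m n Y F x y) (f : Ix e → Jx e) :
    ∑ σ : Equiv.Perm (Ix e), (Equiv.Perm.sign σ : ℤ) * ∏ p, mp m n x y (f (σ p)) p ^ d = 0 := by
  classical
  obtain ⟨M, hM⟩ : ∃ M : Matrix (Ix e) (Ix e) ℚ, ∀ i p, M i p = ((mp m n x y (f i) p : ℤ) : ℚ) ^ d :=
    ⟨_, fun _ _ => rfl⟩
  have hdet : M.det = 0 := by
    rw [← Matrix.exists_mulVec_eq_zero_iff]
    refine ⟨fun p => F.coeff (mon p), ?_, ?_⟩
    · intro h0
      apply h.irr.ne_zero
      rw [eq_pol (e := e) h.deg.le]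
      unfold pol
      refine Finset.sum_eq_zero fun p _ => ?_
      have h1 : F.coeff (mon p) = 0 := congrFun h0 p
      show monomial (mon p) (F.coeff (mon p)) = 0
      rw [h1, monomial_zero]
    · funext i
      rw [Matrix.mulVec, dotProduct, Pi.zero_apply]
      have h1 := h.on (f i)
      rw [eval_eq h.deg.le] at h1
      have h2 : ∑ p : Ix e, M i p * F.coeff (mon p) = Dn m n x y (f i) ^ d *
          ∑ p : Ix e, F.coeff (mon p) * ((x (f i) ^ (m * d)) ^ ea p * (y (f i) ^ (n * d)) ^ eb p) := by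
        rw [Finset.mul_sum]
        refine Finset.sum_congr rfl fun p _ => ?_
        rw [hM, mp_eq]
        ring
      rw [h2, h1, mul_zero]
  rw [Matrix.det_apply] at hdet
  have h3 : ((∑ σ : Equiv.Perm (Ix e), (Equiv.Perm.sign σ : ℤ) * ∏ p, mp m n x y (f (σ p)) p ^ d : ℤ) : ℚ)
      = 0 := by
    rw [← hdet]
    push_cast
    refine Finset.sum_congr rfl fun σ _ => ?_
    rw [Units.smul_def, ← Int.cast_smul_eq_zsmul ℚ, smul_eq_mul]
    congr 1
    exact Finset.prod_congr rfl fun p _ => (hM _ _).symm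
  exact_mod_cast h3

/-- a relation over the field of generalised power series -/
theorem graded_rel {d m n Y : ℕ} {F : MvPolynomial (Fin 2) ℚ} {x y x' y' : Jx e → ℚ}
    (h : Dat e d m n Y F x y) (hx' : ∀ j, x' j ≠ 0) (hy' : ∀ j, y' j ≠ 0)
    (hg : ∀ (f : Ix e → Jx e) (s : ℝ), ∑ σ : Equiv.Perm (Ix e),
      (if ∑ p, ψ m n x y x' y' (f (σ p)) p = s then (Equiv.Perm.sign σ : ℤ) *
        ∏ p, mp m n x y (f (σ p)) p ^ d else 0) = 0) :
    ∃ c : Ix e → KK, c ≠ 0 ∧ ∀ j, ∑ p, c p * HahnSeries.single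
      ((ea p : ℝ) * (m * (Real.log (x j) - Real.log (x' j))) +
        (eb p : ℝ) * (n * (Real.log (y j) - Real.log (y' j))))
      ((x j ^ (m * d)) ^ ea p * (y j ^ (n * d)) ^ eb p) = 0 := by
  classical
  obtain ⟨c, hc, hcj⟩ := hahn (fun j p => ((mp m n x y j p : ℤ) : ℚ) ^ d) (ψ m n x y x' y')
    (fun f s => by
      have h1 := hg f s
      have h2 : ((∑ σ : Equiv.Perm (Ix e), (if ∑ p, ψ m n x y x' y' (f (σ p)) p = s then
          (Equiv.Perm.sign σ : ℤ) * ∏ p, mp m n x y (f (σ p)) p ^ d else 0) : ℤ) : ℚ) = 0 := by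
        rw [h1, Int.cast_zero]
      refine Eq.trans ?_ h2
      push_cast
      rfl)
  refine ⟨c, hc, fun j => ?_⟩
  obtain ⟨ζ, hζ⟩ : ∃ ζ : ℝ, ζ = e * (m * (Real.log (((x j).den : ℕ) : ℤ) -
      Real.log (((x' j).den : ℕ) : ℤ)) +
        n * (Real.log (((y j).den : ℕ) : ℤ) - Real.log (((y' j).den : ℕ) : ℤ))) := ⟨_, rfl⟩
  have h1 := hcj j
  have h2 : (HahnSeries.single (-ζ) ((Dn m n x y j ^ d)⁻¹) : KK) * ∑ p, c p *
      HahnSeries.single (ψ m n x y x' y' j p) (((mp m n x y j p : ℤ) : ℚ) ^ d) = 0 := by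
    rw [h1, mul_zero]
  refine Eq.trans ?_ h2
  rw [Finset.mul_sum]
  refine Finset.sum_congr rfl fun p _ => ?_
  rw [mul_left_comm (HahnSeries.single (-ζ) _) (c p) _, HahnSeries.single_mul_single]
  have hD : Dn m n x y j ^ d ≠ 0 := pow_ne_zero _ (Dn_ne m n x y j)
  have g1 : -ζ + ψ m n x y x' y' j p = (ea p : ℝ) * (m * (Real.log (x j) - Real.log (x' j))) +
      (eb p : ℝ) * (n * (Real.log (y j) - Real.log (y' j))) := by
    rw [ψ_eq m n x y x' y' (fun j => (h.hx j).1) (fun j => (h.hy j).1) hx' hy' j p, ← hζ]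
    ring
  have g2 : (Dn m n x y j ^ d)⁻¹ * ((mp m n x y j p : ℤ) : ℚ) ^ d =
      (x j ^ (m * d)) ^ ea p * (y j ^ (n * d)) ^ eb p := by
    rw [mp_eq, ← mul_assoc, inv_mul_cancel₀ hD, one_mul]
  rw [g1, g2]

/-- two curves with many common points are equal -/
theorem same_span {F F' : MvPolynomial (Fin 2) ℚ} (hF : Irreducible F) (hFe : F.totalDegree = e)
    (hF' : Irreducible F') (hFe' : F'.totalDegree = e) {J : Type} (S : Finset J) (x y : J → ℚ)
    (hinj : Set.InjOn (fun j => (x j, y j)) (S : Set J)) (hFj : ∀ j ∈ S, eval ![x j, y j] F = 0)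
    (hFj' : ∀ j ∈ S, eval ![x j, y j] F' = 0) (hc : e ^ 2 < S.card) :
    Ideal.span {F} = Ideal.span {F'} := by
  classical
  obtain ⟨k, hk⟩ := smul_of_zeros hF hFe hFe'.le (S.image fun j => (![x j, y j] : Fin 2 → ℚ)) (by
    intro z hz
    obtain ⟨j, hj, rfl⟩ := Finset.mem_image.1 hz
    exact ⟨hFj j hj, hFj' j hj⟩) (by
    rw [Finset.card_image_of_injOn]
    · exact hc
    · intro j hj j' hj' h
      refine hinj hj hj' ?_
      have h0 := congrFun h 0
      have h1 := congrFun h 1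
      exact Prod.ext h0 h1)
  have hk0 : k ≠ 0 := by
    rintro rfl
    rw [map_zero, zero_mul] at hk
    exact hF'.ne_zero hk
  rw [hk, Ideal.span_singleton_eq_span_singleton]
  exact (associated_unit_mul_left _ _ ((isUnit_iff_ne_zero.2 hk0).map C)).symm

/-- the number of signs -/
def Kn (e : ℕ) : ℕ := Fintype.card (Jx e → Bool × Bool)

theorem ex_le (m n : ℕ) (p : Ix e) (c : Fin 4) : ex m n p c ≤ e * (m + n) := by
  have h := e_le p
  have h1 : ea p ≤ e := by omega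
  have h2 : eb p ≤ e := by omega
  have h3 : e - ea p ≤ e := by omega
  have h4 : e - eb p ≤ e := by omega
  fin_cases c
  · show m * ea p ≤ _
    nlinarith
  · show m * (e - ea p) ≤ _
    nlinarith
  · show n * eb p ≤ _
    nlinarith
  · show n * (e - eb p) ≤ _
    nlinarith

theorem gg_le (m n : ℕ) (k : (Ix e → Jx e) × Equiv.Perm (Ix e)) (q : Jx e × Fin 4) :
    gg m n k q ≤ Fintype.card (Ix e) * (e * (m + n)) := by
  unfold gg
  calc ∑ p, (if k.1 (k.2 p) = q.1 then ex m n p q.2 else 0) ≤ ∑ _p : Ix e, e * (m + n) := by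
        refine Finset.sum_le_sum fun p _ => ?_
        split_ifs
        · exact ex_le m n p q.2
        · exact Nat.zero_le _
    _ = _ := by rw [Finset.sum_const, Finset.card_univ, smul_eq_mul]

theorem eq_of_log {x x' : ℚ} (hx : x ≠ 0) (hx' : x' ≠ 0) (h : Real.log x = Real.log x')
    (hs : decide (0 < x) = decide (0 < x')) : x = x' := by
  have h1 : |(x : ℝ)| = |(x' : ℝ)| := by
    rw [← Real.log_abs, ← Real.log_abs (x' : ℝ)] at h
    exact Real.log_injOn_pos (Set.mem_Ioi.2 (abs_pos.2 (by exact_mod_cast hx)))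
      (Set.mem_Ioi.2 (abs_pos.2 (by exact_mod_cast hx'))) h
  have h2 : |x| = |x'| := by exact_mod_cast h1
  have h3 : (0 < x ↔ 0 < x') := by simpa using hs
  rcases abs_eq_abs.1 h2 with h4 | h4
  · exact h4
  · exfalso
    rcases lt_or_gt_of_ne hx with h5 | h5
    · exact absurd (h3.2 (by linarith)) (by linarith)
    · exact absurd (h3.1 h5) (by linarith)

/-- **Few curves with many points, for given exponents and degree.** -/
theorem few_exact (e : ℕ) (ε : ℝ) (hε : 0 < ε) : ∃ (R : ℕ) (δ : ℝ), 0 < δ ∧ ∀ Y : ℕ, 1 ≤ Y →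
    ∀ d m n : ℕ, R ≤ d → (d : ℝ) ≤ (Y : ℝ) ^ δ → 1 ≤ m → 1 ≤ n → (m : ℝ) ≤ (Y : ℝ) ^ δ →
      (n : ℝ) ≤ (Y : ℝ) ^ δ → ∀ T : Finset (Ideal (MvPolynomial (Fin 2) ℚ)),
      (∀ I ∈ T, ∃ F x y, Ideal.span {F} = I ∧ Dat e d m n Y F x y) →
      (T.card : ℝ) ≤ Kn e * (Y : ℝ) ^ ε := by
  classical
  obtain ⟨R, δ, hδ, H⟩ := graded (Jx e × Fin 4) ((Ix e → Jx e) × Equiv.Perm (Ix e)) (Ix e → Jx e) ε hε
  obtain ⟨C, hC⟩ : ∃ C : ℕ, C = Fintype.card (Ix e) * (e * 2) := ⟨_, rfl⟩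
  refine ⟨max R C, δ / 2, by positivity, fun Y hY d m n hd hdY hm hn hmY hnY T hT => ?_⟩
  have hY1 : (1 : ℝ) ≤ (Y : ℝ) := by exact_mod_cast hY
  have hmono : (Y : ℝ) ^ (δ / 2) ≤ (Y : ℝ) ^ δ :=
    Real.rpow_le_rpow_of_exponent_le hY1 (by linarith)
  have hmul : (Y : ℝ) ^ (δ / 2) * (Y : ℝ) ^ (δ / 2) = (Y : ℝ) ^ δ := by
    rw [← Real.rpow_add (by positivity)]
    congr 1
    ring
  have hCY : (C : ℝ) ≤ (Y : ℝ) ^ (δ / 2) := by
    refine le_trans ?_ hdY
    exact_mod_cast (le_max_right R C).trans hd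
  choose! F x y hFI hDat using hT
  by_contra hcon
  push Not at hcon
  -- equal signs
  obtain ⟨sg, hsg⟩ : ∃ sg : Ideal (MvPolynomial (Fin 2) ℚ) → Jx e → Bool × Bool,
    ∀ I j, sg I j = (decide (0 < x I j), decide (0 < y I j)) := ⟨_, fun _ _ => rfl⟩
  obtain ⟨s0, -, hs0⟩ := Finset.exists_lt_card_fiber_of_nsmul_lt_card_of_maps_to
    (s := T) (t := (Finset.univ : Finset (Jx e → Bool × Bool))) (f := sg) (b := (Y : ℝ) ^ ε)
    (fun I _ => Finset.mem_univ _) (by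
      rw [Finset.card_univ, nsmul_eq_mul]
      exact hcon)
  obtain ⟨T', hT'⟩ : ∃ T', T' = T.filter (fun I => sg I = s0) := ⟨_, rfl⟩
  rw [← hT'] at hs0
  have hT'm : ∀ I ∈ T', I ∈ T ∧ sg I = s0 := fun I hI => by
    rw [hT'] at hI
    exact Finset.mem_filter.1 hI
  obtain ⟨I, hI, I', hI', hne, hgr⟩ := H Y hY d ((le_max_left R C).trans hd) (hdY.trans hmono) (uu e)
    uu_abs (gg m n) (fun k q => by
      calc ((gg m n k q : ℕ) : ℝ) ≤ ((Fintype.card (Ix e) * (e * (m + n)) : ℕ) : ℝ) := by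
            exact_mod_cast gg_le m n k q
        _ = (Fintype.card (Ix e) : ℝ) * (e * (m + n)) := by push_cast; ring
        _ ≤ (Fintype.card (Ix e) : ℝ) * (e * ((Y : ℝ) ^ (δ / 2) + (Y : ℝ) ^ (δ / 2))) := by
            gcongr
        _ = (C : ℝ) * (Y : ℝ) ^ (δ / 2) := by rw [hC]; push_cast; ring
        _ ≤ (Y : ℝ) ^ (δ / 2) * (Y : ℝ) ^ (δ / 2) :=
            mul_le_mul_of_nonneg_right hCY (by positivity)
        _ = (Y : ℝ) ^ δ := hmul) T' (fun I => tt (x I) (y I))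
    (fun I hI q => tt_bd (hDat I (hT'm I hI).1).hx (hDat I (hT'm I hI).1).hy q)
    (fun I hI f => by
      have h1 := (hDat I (hT'm I hI).1).det f
      have h2 := sum_uu f (fun k => (∏ q, tt (x I) (y I) q ^ gg m n k q) ^ d) (fun _ => True)
      simp only [if_true] at h2
      rw [h2]
      refine Eq.trans ?_ h1
      refine Finset.sum_congr rfl fun σ _ => ?_
      rw [prod_gg, ← Finset.prod_pow]) hs0
  have hD := hDat I (hT'm I hI).1
  have hD' := hDat I' (hT'm I' hI').1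
  obtain ⟨c, hc, hcj⟩ := graded_rel hD (x' := x I') (y' := y I') (fun j => (hD'.hx j).1)
    (fun j => (hD'.hy j).1) (fun f s => by
      have h1 := hgr f s
      have h2 := sum_uu f (fun k => (∏ q, tt (x I) (y I) q ^ gg m n k q) ^ d)
        (fun k => Lg (gg m n k) (tt (x I) (y I)) (tt (x I') (y I')) = s)
      rw [h2] at h1
      refine Eq.trans ?_ h1
      refine Finset.sum_congr rfl fun σ _ => ?_
      rw [prod_gg, ← Finset.prod_pow, Lg_gg])
  obtain ⟨S', hS'1, hS'2, hS'3⟩ := main hD.irr hD.deg hD.sup none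
    (fun j => x I j ^ (m * d)) (fun j => y I j ^ (n * d))
    (fun j => m * (Real.log (x I j) - Real.log (x I' j)))
    (fun j => n * (Real.log (y I j) - Real.log (y I' j)))
    (by simp only [hD.x0, one_pow]) (by simp only [hD.y0, one_pow])
    (by simp only [hD.x0, hD'.x0, sub_self, mul_zero])
    (by simp only [hD.y0, hD'.y0, sub_self, mul_zero])
    ((Finset.univ : Finset (Fin (Bn e))).image some) (by
      intro j hj j' hj' h
      obtain ⟨i, _, rfl⟩ := Finset.mem_image.1 (Finset.mem_coe.1 hj)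
      obtain ⟨i', _, rfl⟩ := Finset.mem_image.1 (Finset.mem_coe.1 hj')
      rw [hD.inj h])
    (fun j _ => hD.on j) hD.one (by
      rw [Finset.card_image_of_injective _ (Option.some_injective _), Finset.card_univ,
        Fintype.card_fin, Bn]
      omega) c hc hcj
  have hpts : ∀ j ∈ S', x I j = x I' j ∧ y I j = y I' j := by
    intro j hj
    obtain ⟨h1, h2⟩ := hS'3 j hj
    have hsj : sg I j = sg I' j := by rw [(hT'm I hI).2, (hT'm I' hI').2]
    rw [hsg, hsg] at hsj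
    obtain ⟨hs1, hs2⟩ := Prod.mk.inj hsj
    have hm0 : (m : ℝ) ≠ 0 := by exact_mod_cast (by omega : m ≠ 0)
    have hn0 : (n : ℝ) ≠ 0 := by exact_mod_cast (by omega : n ≠ 0)
    refine ⟨eq_of_log (hD.hx j).1 (hD'.hx j).1 ?_ hs1, eq_of_log (hD.hy j).1 (hD'.hy j).1 ?_ hs2⟩
    · rcases mul_eq_zero.1 h1 with h3 | h3
      · exact absurd h3 hm0
      · linarith
    · rcases mul_eq_zero.1 h2 with h3 | h3
      · exact absurd h3 hn0
      · linarith
  apply hne
  rw [← hFI I (hT'm I hI).1, ← hFI I' (hT'm I' hI').1]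
  refine same_span hD.irr hD.deg hD'.irr hD'.deg S' (fun j => x I j ^ (m * d))
    (fun j => y I j ^ (n * d)) ?_ (fun j _ => hD.on j) (fun j hj => ?_) hS'2
  · intro j hj j' hj' h
    obtain ⟨i, _, rfl⟩ := Finset.mem_image.1 (hS'1 (Finset.mem_coe.1 hj))
    obtain ⟨i', _, rfl⟩ := Finset.mem_image.1 (hS'1 (Finset.mem_coe.1 hj'))
    rw [hD.inj h]
  · show eval ![x I j ^ (m * d), y I j ^ (n * d)] (F I') = 0
    rw [(hpts j hj).1, (hpts j hj).2]
    exact hD'.on j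

end Pool.Agent.NH8.UE
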