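import Mathlib
import Pool.Agent.NH8.UF

/-!
# Kummer coverings of plane curves: translation of the base point and selection of the points
-/

set_option autoImplicit false

open MvPolynomial

namespace Pool.Agent.NH8.UG

open Pool.Agent.NH8.UA Pool.Agent.NH8.UC Pool.Agent.NH8.UE

/-! ### Scaling of the coordinates -/

/-- the polynomial `F (u X, v Y)` -/
noncomputable def scale (u v : ℚ) : MvPolynomial (Fin 2) ℚ →ₐ[ℚ] MvPolynomial (Fin 2) ℚ :=
  aeval ![C u * X 0, C v * X 1]

theorem scale_monomial (u v : ℚ) (s : Fin 2 →₀ ℕ) (a : ℚ) :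
    scale u v (monomial s a) = monomial s (u ^ s 0 * v ^ s 1 * a) := by
  unfold scale
  rw [aeval_monomial, Finsupp.prod_fintype _ _ (fun _ => pow_zero _), Fin.prod_univ_two,
    monomial_eq (s := s) (a := u ^ s 0 * v ^ s 1 * a),
    Finsupp.prod_fintype _ _ (fun _ => pow_zero _), Fin.prod_univ_two]
  show C a * ((C u * X 0) ^ s 0 * (C v * X 1) ^ s 1) = _
  rw [mul_pow, mul_pow, C_mul, C_mul, C_pow, C_pow]
  ring

theorem scale_coeff (u v : ℚ) (F : MvPolynomial (Fin 2) ℚ) (s : Fin 2 →₀ ℕ) :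
    (scale u v F).coeff s = u ^ s 0 * v ^ s 1 * F.coeff s := by
  classical
  induction F using MvPolynomial.induction_on' with
  | monomial t a =>
    rw [scale_monomial, coeff_monomial, coeff_monomial]
    by_cases h : t = s
    · rw [if_pos h, if_pos h, h]
    · rw [if_neg h, if_neg h, mul_zero]
  | add p q hp hq => rw [map_add, coeff_add, hp, hq, coeff_add, mul_add]

theorem scale_support {u v : ℚ} (hu : u ≠ 0) (hv : v ≠ 0) (F : MvPolynomial (Fin 2) ℚ) :
    (scale u v F).support = F.support := by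
  ext s
  rw [mem_support_iff, mem_support_iff, scale_coeff]
  constructor
  · exact fun h h0 => h (by rw [h0, mul_zero])
  · exact fun h => mul_ne_zero (mul_ne_zero (pow_ne_zero _ hu) (pow_ne_zero _ hv)) h

theorem scale_degree {u v : ℚ} (hu : u ≠ 0) (hv : v ≠ 0) (F : MvPolynomial (Fin 2) ℚ) :
    (scale u v F).totalDegree = F.totalDegree := by
  unfold totalDegree
  rw [scale_support hu hv]

theorem scale_eval (u v x y : ℚ) (F : MvPolynomial (Fin 2) ℚ) :
    eval ![x, y] (scale u v F) = eval ![u * x, v * y] F := by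
  induction F using MvPolynomial.induction_on' with
  | monomial s a =>
    rw [scale_monomial, eval_monomial, eval_monomial,
      Finsupp.prod_fintype _ _ (fun _ => pow_zero _), Fin.prod_univ_two,
      Finsupp.prod_fintype _ _ (fun _ => pow_zero _), Fin.prod_univ_two]
    show u ^ s 0 * v ^ s 1 * a * (x ^ s 0 * y ^ s 1) = a * ((u * x) ^ s 0 * (v * y) ^ s 1)
    rw [mul_pow, mul_pow]
    ring
  | add p q hp hq => rw [map_add, map_add, hp, hq, map_add]

theorem scale_scale (u v u' v' : ℚ) (F : MvPolynomial (Fin 2) ℚ) :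
    scale u v (scale u' v' F) = scale (u * u') (v * v') F := by
  ext s
  rw [scale_coeff, scale_coeff, scale_coeff, mul_pow, mul_pow]
  ring

theorem scale_one (F : MvPolynomial (Fin 2) ℚ) : scale 1 1 F = F := by
  ext s
  rw [scale_coeff, one_pow, one_pow, one_mul, one_mul]

/-- scaling as an automorphism -/
noncomputable def scaleEquiv {u v : ℚ} (hu : u ≠ 0) (hv : v ≠ 0) :
    MvPolynomial (Fin 2) ℚ ≃ₐ[ℚ] MvPolynomial (Fin 2) ℚ :=
  AlgEquiv.ofAlgHom (scale u v) (scale u⁻¹ v⁻¹)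
    (AlgHom.ext fun F => by
      rw [AlgHom.comp_apply, scale_scale, mul_inv_cancel₀ hu, mul_inv_cancel₀ hv, scale_one,
        AlgHom.id_apply])
    (AlgHom.ext fun F => by
      rw [AlgHom.comp_apply, scale_scale, inv_mul_cancel₀ hu, inv_mul_cancel₀ hv, scale_one,
        AlgHom.id_apply])

theorem scale_irreducible {u v : ℚ} (hu : u ≠ 0) (hv : v ≠ 0) {F : MvPolynomial (Fin 2) ℚ}
    (hF : Irreducible F) : Irreducible (scale u v F) :=
  (MulEquiv.irreducible_iff (scaleEquiv hu hv).toMulEquiv).2 hF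

/-! ### The number of monomials -/

theorem card_Ix (e : ℕ) : 2 * Fintype.card (Ix e) ≤ (e + 1) * (e + 2) := by
  classical
  rw [← card_tri e]
  refine Nat.mul_le_mul_left _ ?_
  rw [← Finset.card_univ]
  refine Finset.card_le_card_of_injOn (fun p : Ix e => (ea p, eb p)) ?_ ?_
  · intro p _
    rw [Finset.mem_coe, Finset.mem_biUnion]
    refine ⟨ea p + eb p, ?_, ?_⟩
    · rw [Finset.mem_range]
      have := e_le p
      omega
    · rw [Finset.HasAntidiagonal.mem_antidiagonal]
  · intro p _ q _ h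
    obtain ⟨h1, h2⟩ := Prod.mk.inj h
    exact e_ext h1 h2

theorem card_Ix' (e : ℕ) : Fintype.card (Ix e) ≤ (e + 1) * (e + 2) / 2 := by
  have := card_Ix e
  omega

/-- the bound for the number of points -/
def bound (D : ℕ) : ℕ := 4 * (2 ^ ((D + 1) * (D + 2) / 2) * D ^ 2)

theorem Bn_le {e D : ℕ} (h : e ≤ D) : 4 * (2 ^ Fintype.card (Ix e) * e ^ 2) ≤ bound D := by
  unfold bound
  refine Nat.mul_le_mul_left _ (Nat.mul_le_mul ?_ (Nat.pow_le_pow_left h 2))
  refine Nat.pow_le_pow_right (by norm_num) ((card_Ix' e).trans ?_)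
  exact Nat.div_le_div_right (Nat.mul_le_mul (by omega) (by omega))

/-! ### Selection of the points -/

theorem pow_eq_abs {x y : ℚ} {n : ℕ} (hn : n ≠ 0) (h : x ^ n = y ^ n) : x = y ∨ x = -y := by
  have h1 : |x| ^ n = |y| ^ n := by rw [← abs_pow, ← abs_pow, h]
  have h2 : |x| = |y| := (pow_left_inj₀ (abs_nonneg x) (abs_nonneg y) hn).1 h1
  exact abs_eq_abs.1 h2

/-- many points have many different powers -/
theorem exists_points {m n B : ℕ} (hm : m ≠ 0) (hn : n ≠ 0) (Z : Set (ℚ × ℚ))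
    (hZ : ((4 * B : ℕ) : ℕ∞) < Z.encard) : ∃ P : Fin (B + 1) → ℚ × ℚ, (∀ i, P i ∈ Z) ∧
      Function.Injective fun i => ((P i).1 ^ m, (P i).2 ^ n) := by
  classical
  obtain ⟨Z0, hZ0, hZc⟩ : ∃ Z0 : Finset (ℚ × ℚ), (Z0 : Set (ℚ × ℚ)) ⊆ Z ∧ 4 * B < Z0.card := by
    obtain ⟨t, ht, htc⟩ := Set.exists_subset_encard_eq (s := Z) (k := ((4 * B + 1 : ℕ) : ℕ∞))
      (by
        have := Order.add_one_le_of_lt hZ
        exact_mod_cast this)
    have hfin : t.Finite := Set.finite_of_encard_eq_coe htc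
    refine ⟨hfin.toFinset, by rwa [Set.Finite.coe_toFinset], ?_⟩
    have h1 : ((hfin.toFinset.card : ℕ) : ℕ∞) = ((4 * B + 1 : ℕ) : ℕ∞) := by
      rw [← htc, ← Set.encard_coe_eq_coe_finsetCard, Set.Finite.coe_toFinset]
    have h2 : hfin.toFinset.card = 4 * B + 1 := by exact_mod_cast h1
    omega
  obtain ⟨f, hf⟩ : ∃ f : ℚ × ℚ → ℚ × ℚ, ∀ p, f p = (p.1 ^ m, p.2 ^ n) := ⟨_, fun _ => rfl⟩
  have himg : B < (Z0.image f).card := by
    by_contra h
    push Not at h
    have h1 : Z0.card ≤ 4 * (Z0.image f).card := by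
      refine Finset.card_le_mul_card_image Z0 4 fun b hb => ?_
      obtain ⟨q, _, rfl⟩ := Finset.mem_image.1 hb
      have h2 : Z0.filter (fun p => f p = f q) ⊆
          {(q.1, q.2), (q.1, -q.2), (-q.1, q.2), (-q.1, -q.2)} := by
        intro p hp
        have h3 := (Finset.mem_filter.1 hp).2
        rw [hf, hf] at h3
        obtain ⟨h4, h5⟩ := Prod.mk.inj h3
        obtain ⟨p1, p2⟩ := p
        simp only [Finset.mem_insert, Finset.mem_singleton, Prod.mk.injEq]
        rcases pow_eq_abs hm h4 with h6 | h6 <;> rcases pow_eq_abs hn h5 with h7 | h7 <;>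
          simp only at h6 h7 <;> rw [h6, h7] <;> simp
      exact (Finset.card_le_card h2).trans Finset.card_le_four
    omega
  obtain ⟨W, hW1, hW2⟩ := Finset.exists_subset_card_eq (show B + 1 ≤ (Z0.image f).card by omega)
  have hsel : ∀ w ∈ W, ∃ p ∈ Z0, f p = w := fun w hw => Finset.mem_image.1 (hW1 hw)
  choose! g hg1 hg2 using hsel
  obtain ⟨E⟩ : Nonempty (Fin (B + 1) ≃ W) := ⟨(Fintype.equivFinOfCardEq (by
    rw [Fintype.card_coe, hW2])).symm⟩
  refine ⟨fun i => g (E i).1, fun i => hZ0 (hg1 _ (E i).2), fun i j hij => ?_⟩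
  have h1 : f (g (E i).1) = f (g (E j).1) := by rw [hf, hf]; exact hij
  rw [hg2 _ (E i).2, hg2 _ (E j).2] at h1
  exact E.injective (Subtype.ext h1)

end Pool.Agent.NH8.UG
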