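import Mathlib
import Pool.Agent.NH8.UG
import Pool.Agent.Y902.GN.FinB

/-!
# Kummer coverings of plane curves: few classes with many points
-/

set_option autoImplicit false

open MvPolynomial

namespace Pool.Agent.NH8.UG

open Pool.Agent.NH8.UA Pool.Agent.NH8.UC Pool.Agent.NH8.UE

/-- the rational points with nonzero coordinates of the curve `F (x ^ m, y ^ n) = 0` -/
def pts (m n : ℕ) (F : MvPolynomial (Fin 2) ℚ) : Set (ℚ × ℚ) :=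
  {P | P.1 ≠ 0 ∧ P.2 ≠ 0 ∧ eval ![P.1 ^ m, P.2 ^ n] F = 0}

/-- the points near the base point -/
def nr (m n Y : ℕ) (F : MvPolynomial (Fin 2) ℚ) (P₀ : ℚ × ℚ) : Set (ℚ × ℚ) :=
  {P | P ∈ pts m n F ∧ HtLe Y (P.1 / P₀.1) ∧ HtLe Y (P.2 / P₀.2)}

/-- the data from a curve with many points near a base point -/
theorem to_dat {D m n Y e : ℕ} (hY : 1 ≤ Y) (hm : m ≠ 0) (hn : n ≠ 0) {F : MvPolynomial (Fin 2) ℚ}
    (hF : Irreducible F) (he : F.totalDegree = e) (hD : F.totalDegree ≤ D) (h3 : 3 ≤ F.support.card) {P₀ : ℚ × ℚ}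
    (hP₀ : P₀ ∈ pts m n F) (hb : ((bound D : ℕ) : ℕ∞) < (nr m n Y F P₀).encard) :
    ∃ x y, Dat e (Nat.gcd m n) (m / Nat.gcd m n) (n / Nat.gcd m n) Y
      (scale (P₀.1 ^ m) (P₀.2 ^ n) F) x y := by
  subst he
  obtain ⟨hx0, hy0, hP⟩ := hP₀
  have e1 : m / Nat.gcd m n * Nat.gcd m n = m := Nat.div_mul_cancel (Nat.gcd_dvd_left m n)
  have e2 : n / Nat.gcd m n * Nat.gcd m n = n := Nat.div_mul_cancel (Nat.gcd_dvd_right m n)
  have hu : P₀.1 ^ m ≠ 0 := pow_ne_zero _ hx0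
  have hv : P₀.2 ^ n ≠ 0 := pow_ne_zero _ hy0
  obtain ⟨P, hP1, hP2⟩ := exists_points (B := 2 ^ Fintype.card (Ix F.totalDegree) * F.totalDegree ^ 2)
    hm hn (nr m n Y F P₀) (lt_of_le_of_lt (by exact_mod_cast Bn_le hD) hb)
  have h1 : HtLe Y (1 : ℚ) := by
    refine ⟨?_, ?_⟩
    · simpa using hY
    · simpa using hY
  refine ⟨fun j => j.elim 1 (fun i => (P i).1 / P₀.1), fun j => j.elim 1 (fun i => (P i).2 / P₀.2),
    { irr := scale_irreducible hu hv hF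
      deg := scale_degree hu hv F
      sup := by rw [scale_support hu hv]; exact h3
      one := by rw [scale_eval, mul_one, mul_one]; exact hP
      hx := ?_
      hy := ?_
      x0 := rfl
      y0 := rfl
      on := ?_
      inj := ?_ }⟩
  · rintro (_ | i)
    · exact ⟨one_ne_zero, h1⟩
    · exact ⟨div_ne_zero (hP1 i).1.1 hx0, (hP1 i).2.1⟩
  · rintro (_ | i)
    · exact ⟨one_ne_zero, h1⟩
    · exact ⟨div_ne_zero (hP1 i).1.2.1 hy0, (hP1 i).2.2⟩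
  · rw [e1, e2]
    rintro (_ | i)
    · show eval ![(1 : ℚ) ^ m, (1 : ℚ) ^ n] (scale (P₀.1 ^ m) (P₀.2 ^ n) F) = 0
      rw [one_pow, one_pow, scale_eval, mul_one, mul_one]
      exact hP
    · show eval ![((P i).1 / P₀.1) ^ m, ((P i).2 / P₀.2) ^ n] (scale (P₀.1 ^ m) (P₀.2 ^ n) F) = 0
      rw [scale_eval, ← mul_pow, ← mul_pow, mul_div_cancel₀ _ hx0, mul_div_cancel₀ _ hy0]
      exact (hP1 i).1.2.2
  · intro i j hij
    obtain ⟨h4, h5⟩ := Prod.mk.inj hij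
    rw [e1] at h4
    rw [e2] at h5
    have h6 : ((P i).1 / P₀.1) ^ m = ((P j).1 / P₀.1) ^ m := h4
    have h7 : ((P i).2 / P₀.2) ^ n = ((P j).2 / P₀.2) ^ n := h5
    rw [div_pow, div_pow, div_left_inj' hu] at h6
    rw [div_pow, div_pow, div_left_inj' hv] at h7
    exact hP2 (Prod.ext h6 h7)

/-- **Few classes.** -/
theorem few_classes (D : ℕ) (ε : ℝ) (hε : 0 < ε) : ∃ (g₀ : ℕ) (δ : ℝ), 0 < δ ∧ ∀ Y : ℕ, 1 ≤ Y →
    ∀ T : Finset (ℕ × ℕ × Ideal (MvPolynomial (Fin 2) ℚ)),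
      (∀ t ∈ T, g₀ ≤ Nat.gcd t.1 t.2.1 ∧ 1 ≤ t.1 ∧ 1 ≤ t.2.1 ∧ (t.1 : ℝ) ≤ (Y : ℝ) ^ δ ∧
        (t.2.1 : ℝ) ≤ (Y : ℝ) ^ δ ∧ ∃ F : MvPolynomial (Fin 2) ℚ, Irreducible F ∧
        F.totalDegree ≤ D ∧ 3 ≤ F.support.card ∧ ∃ P₀ ∈ pts t.1 t.2.1 F,
          Ideal.span {scale (P₀.1 ^ t.1) (P₀.2 ^ t.2.1) F} = t.2.2 ∧
          ((bound D : ℕ) : ℕ∞) < (nr t.1 t.2.1 Y F P₀).encard) →
      (T.card : ℝ) ≤ (Y : ℝ) ^ ε := by
  classical
  choose R δ hδ H using fun e : ℕ => few_exact e (ε / 2) (by positivity)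
  obtain ⟨K, hK⟩ : ∃ K : ℕ, K = (D + 1) * (∑ e ∈ Finset.range (D + 1), Kn e) := ⟨_, rfl⟩
  have hne : (Finset.range (D + 1)).Nonempty := ⟨0, by simp⟩
  obtain ⟨δ0, hδ0⟩ : ∃ δ0 : ℝ, δ0 = (Finset.range (D + 1)).inf' hne δ := ⟨_, rfl⟩
  have hδ0pos : 0 < δ0 := by
    rw [hδ0]
    exact (Finset.lt_inf'_iff hne).2 fun e _ => hδ e
  have hδ0le : ∀ e ∈ Finset.range (D + 1), δ0 ≤ δ e := fun e he => by
    rw [hδ0]
    exact Finset.inf'_le _ he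
  refine ⟨max ((Finset.range (D + 1)).sup R) K, min δ0 (ε / 6), lt_min hδ0pos (by positivity),
    fun Y hY T hT => ?_⟩
  rcases Finset.eq_empty_or_nonempty T with rfl | hTne
  · rw [Finset.card_empty, Nat.cast_zero]
    positivity
  obtain ⟨Δ, hΔ⟩ : ∃ Δ : ℝ, Δ = min δ0 (ε / 6) := ⟨_, rfl⟩
  rw [← hΔ] at hT
  have hΔ1 : Δ ≤ δ0 := hΔ ▸ min_le_left _ _
  have hΔ2 : Δ ≤ ε / 6 := hΔ ▸ min_le_right _ _
  have hY1 : (1 : ℝ) ≤ (Y : ℝ) := by exact_mod_cast hY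
  have hY0 : (0 : ℝ) < (Y : ℝ) := by linarith
  have hmono : ∀ e ∈ Finset.range (D + 1), (Y : ℝ) ^ Δ ≤ (Y : ℝ) ^ (δ e) := fun e he =>
    Real.rpow_le_rpow_of_exponent_le hY1 (hΔ1.trans (hδ0le e he))
  -- the size of the constants
  have hKY : (K : ℝ) ≤ (Y : ℝ) ^ Δ := by
    obtain ⟨t, ht⟩ := hTne
    obtain ⟨h1, h2, -, h4, -⟩ := hT t ht
    refine le_trans ?_ h4
    exact_mod_cast ((le_max_right _ K).trans h1).trans (Nat.gcd_le_left _ h2)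
  choose! F hF1 hF2 hF3 P₀ hF4 hF5 hF6 using fun t (ht : t ∈ T) => (hT t ht).2.2.2.2.2
  obtain ⟨N, hN⟩ : ∃ N : ℕ, N = ⌊(Y : ℝ) ^ Δ⌋₊ := ⟨_, rfl⟩
  have hN' : (N : ℝ) ≤ (Y : ℝ) ^ Δ := by
    rw [hN]
    exact Nat.floor_le (by positivity)
  obtain ⟨f, hf⟩ : ∃ f : (ℕ × ℕ × Ideal (MvPolynomial (Fin 2) ℚ)) → (ℕ × ℕ) × ℕ,
    ∀ t, f t = ((t.1, t.2.1), (F t).totalDegree) := ⟨_, fun _ => rfl⟩
  obtain ⟨W, hW⟩ : ∃ W : Finset ((ℕ × ℕ) × ℕ), W =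
    (Finset.Icc 1 N ×ˢ Finset.Icc 1 N) ×ˢ Finset.range (D + 1) := ⟨_, rfl⟩
  have hmaps : ∀ t ∈ T, f t ∈ W := by
    intro t ht
    obtain ⟨h1, h2, h3, h4, h5, -⟩ := hT t ht
    rw [hf, hW]
    simp only [Finset.mem_product, Finset.mem_Icc, Finset.mem_range]
    refine ⟨⟨⟨h2, ?_⟩, h3, ?_⟩, ?_⟩
    · rw [hN]
      exact Nat.le_floor h4
    · rw [hN]
      exact Nat.le_floor h5
    · have := hF2 t ht
      omega
  have hfib : ∀ w ∈ W, ((T.filter (fun t => f t = w)).card : ℝ) ≤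
      (∑ e ∈ Finset.range (D + 1), Kn e : ℕ) * (Y : ℝ) ^ (ε / 2) := by
    rintro ⟨⟨m, n⟩, e⟩ hw
    rw [hW] at hw
    simp only [Finset.mem_product, Finset.mem_range] at hw
    have he : e ∈ Finset.range (D + 1) := Finset.mem_range.2 hw.2
    obtain ⟨T1, hT1⟩ : ∃ T1, T1 = T.filter (fun t => f t = ((m, n), e)) := ⟨_, rfl⟩
    rw [← hT1]
    have hT1m : ∀ t ∈ T1, t ∈ T ∧ t.1 = m ∧ t.2.1 = n ∧ (F t).totalDegree = e := by
      intro t ht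
      rw [hT1] at ht
      obtain ⟨h1, h2⟩ := Finset.mem_filter.1 ht
      rw [hf] at h2
      simp only [Prod.mk.injEq] at h2
      exact ⟨h1, h2.1.1, h2.1.2, h2.2⟩
    have hinj : Set.InjOn (fun t : ℕ × ℕ × Ideal (MvPolynomial (Fin 2) ℚ) => t.2.2) (T1 : Set _) := by
      intro t ht t' ht' h
      obtain ⟨-, a1, a2, -⟩ := hT1m t ht
      obtain ⟨-, b1, b2, -⟩ := hT1m t' ht'
      exact Prod.ext (a1.trans b1.symm) (Prod.ext (a2.trans b2.symm) h)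
    have hKe : (Kn e : ℝ) ≤ ((∑ e ∈ Finset.range (D + 1), Kn e : ℕ) : ℝ) := by
      exact_mod_cast Finset.single_le_sum (f := Kn) (fun _ _ => Nat.zero_le _) he
    rcases Finset.eq_empty_or_nonempty T1 with h0 | ⟨t0, ht0⟩
    · rw [h0, Finset.card_empty, Nat.cast_zero]
      positivity
    have hc := H e Y hY (Nat.gcd m n) (m / Nat.gcd m n) (n / Nat.gcd m n)
    obtain ⟨c1, c2, c3, c4⟩ := hT1m t0 ht0
    obtain ⟨d1, d2, d3, d4, d5, -⟩ := hT t0 c1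
    rw [c2, c3] at d1
    rw [c2] at d2 d4
    rw [c3] at d3 d5
    have hgpos : 0 < Nat.gcd m n := Nat.gcd_pos_of_pos_left _ d2
    have hgm : Nat.gcd m n ≤ m := Nat.gcd_le_left _ d2
    have hc' := hc ((Finset.le_sup (f := R) he).trans ((le_max_left _ K).trans d1))
      (le_trans (by exact_mod_cast hgm) (d4.trans (hmono e he)))
      (Nat.div_pos hgm hgpos) (Nat.div_pos (Nat.gcd_le_right _ d3) hgpos)
      (le_trans (by exact_mod_cast Nat.div_le_self m _) (d4.trans (hmono e he)))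
      (le_trans (by exact_mod_cast Nat.div_le_self n _) (d5.trans (hmono e he)))
      (T1.image fun t => t.2.2) (by
        intro I hI
        obtain ⟨t, ht, rfl⟩ := Finset.mem_image.1 hI
        obtain ⟨a1, a2, a3, a4⟩ := hT1m t ht
        have b4 := hF4 t a1
        have b6 := hF6 t a1
        have b5 := hF5 t a1
        rw [a2, a3] at b4 b5 b6
        obtain ⟨x, y, hxy⟩ := to_dat hY (by omega) (by omega) (hF1 t a1) a4 (hF2 t a1) (hF3 t a1)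
          b4 b6
        exact ⟨_, x, y, b5, hxy⟩)
    rw [Finset.card_image_of_injOn hinj] at hc'
    exact hc'.trans (mul_le_mul_of_nonneg_right hKe (by positivity))
  have hWc : (W.card : ℝ) ≤ (Y : ℝ) ^ Δ * (Y : ℝ) ^ Δ * (D + 1) := by
    rw [hW, Finset.card_product, Finset.card_product, Nat.card_Icc, Finset.card_range,
      Nat.add_sub_cancel]
    push_cast
    gcongr
  calc (T.card : ℝ) = ∑ w ∈ W, ((T.filter (fun t => f t = w)).card : ℝ) := by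
        rw [Finset.card_eq_sum_card_fiberwise hmaps]
        push_cast
        rfl
    _ ≤ ∑ _w ∈ W, ((∑ e ∈ Finset.range (D + 1), Kn e : ℕ) * (Y : ℝ) ^ (ε / 2)) :=
        Finset.sum_le_sum hfib
    _ = W.card * ((∑ e ∈ Finset.range (D + 1), Kn e : ℕ) * (Y : ℝ) ^ (ε / 2)) := by
        rw [Finset.sum_const, nsmul_eq_mul]
    _ ≤ ((Y : ℝ) ^ Δ * (Y : ℝ) ^ Δ * (D + 1)) *
        ((∑ e ∈ Finset.range (D + 1), Kn e : ℕ) * (Y : ℝ) ^ (ε / 2)) :=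
        mul_le_mul_of_nonneg_right hWc (by positivity)
    _ = (Y : ℝ) ^ Δ * (Y : ℝ) ^ Δ * (K : ℝ) * (Y : ℝ) ^ (ε / 2) := by
        rw [hK]
        push_cast
        ring
    _ ≤ (Y : ℝ) ^ Δ * (Y : ℝ) ^ Δ * (Y : ℝ) ^ Δ * (Y : ℝ) ^ (ε / 2) := by gcongr
    _ = (Y : ℝ) ^ (Δ + Δ + Δ + ε / 2) := by
        rw [← Real.rpow_add hY0, ← Real.rpow_add hY0, ← Real.rpow_add hY0]
    _ ≤ (Y : ℝ) ^ ε := Real.rpow_le_rpow_of_exponent_le hY1 (by linarith)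

end Pool.Agent.NH8.UG
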