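import Mathlib
import Pool.Agent.NH8.UB

/-!
# Relations between high powers of monomials with small coefficients are graded
-/

set_option autoImplicit false

namespace Pool.Agent.NH8.VA

open Pool.Agent.Y902.GN Pool.Agent.NH8.UB

/-- the sum over the terms of given degree vanishes -/
theorem level_zero {N M r : ℕ} {u : Fin r → Fin M → ℤ} {g : Fin M → Fin N → ℕ} {d : ℕ}
    {s : Fin r → Fin M → ℤ}
    {t t' : Fin N → ℤ} (ht : ∀ q, t q ≠ 0) (ht' : ∀ q, t' q ≠ 0)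
    {P : Fin r → Finset (Finset (Fin M))}
    (hP : ∀ k, MPat (u k) g d (s k) t (P k))
    (hr : mrat P g t = mrat P g t') (k : Fin r) (l : ℝ) :
    ∑ i ∈ Finset.univ.filter (fun i => Lg (g i) t t' = l), u k i * (s k i * mm (g i) t ^ d) = 0 := by
  classical
  obtain ⟨f, hf⟩ : ∃ f : Fin M → ℤ, f = fun i => u k i * (s k i * mm (g i) t ^ d) := ⟨_, rfl⟩
  have hf' : ∀ i, u k i * (s k i * mm (g i) t ^ d) = f i := fun i => by rw [hf]
  -- the ratio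
  have hconst : ∀ K ∈ P k, ∀ i ∈ K, ∀ i' ∈ K, Lg (g i) t t' = Lg (g i') t t' := by
    intro K hK i hi i' hi'
    have hs : Same P i i' := ⟨k, K, hK, hi, hi'⟩
    have h1 := congrFun (congrFun hr i) i'
    unfold mrat at h1
    rw [if_pos hs, if_pos hs] at h1
    have a1 : ((mm (g i) t : ℤ) : ℝ) ≠ 0 := by exact_mod_cast mm_ne _ ht
    have a2 : ((mm (g i') t : ℤ) : ℝ) ≠ 0 := by exact_mod_cast mm_ne _ ht
    have a3 : ((mm (g i) t' : ℤ) : ℝ) ≠ 0 := by exact_mod_cast mm_ne _ ht'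
    have a4 : ((mm (g i') t' : ℤ) : ℝ) ≠ 0 := by exact_mod_cast mm_ne _ ht'
    have h2 : ((mm (g i) t : ℤ) : ℝ) / ((mm (g i') t : ℤ) : ℝ) =
        ((mm (g i) t' : ℤ) : ℝ) / ((mm (g i') t' : ℤ) : ℝ) := by exact_mod_cast h1
    have h3 := congrArg Real.log h2
    rw [Real.log_div a1 a2, Real.log_div a3 a4] at h3
    rw [Lg_mm _ ht ht', Lg_mm _ ht ht']
    linarith
  -- the sum over the blocks
  have hsum : ∑ i ∈ Finset.univ.filter (fun i => Lg (g i) t t' = l), f i =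
      ∑ K ∈ (P k).filter (fun K => ∃ i ∈ K, Lg (g i) t t' = l), ∑ i ∈ K, f i := by
    rw [← Finset.sum_biUnion]
    · symm
      apply Finset.sum_subset
      · intro i hi
        obtain ⟨K, hK, hi⟩ := Finset.mem_biUnion.1 hi
        obtain ⟨hK1, i', hi', hs⟩ := Finset.mem_filter.1 hK
        exact Finset.mem_filter.2 ⟨Finset.mem_univ _, (hconst K hK1 i hi i' hi').trans hs⟩
      · intro i hi hni
        by_contra h0
        have h1 : u k i * (s k i * mm (g i) t ^ d) ≠ 0 := by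
          rw [hf']
          exact h0
        obtain ⟨K, hK, hiK⟩ := Finset.mem_biUnion.1 (((hP k).un i).2 h1)
        exact hni (Finset.mem_biUnion.2 ⟨K, Finset.mem_filter.2 ⟨hK, i, hiK,
          (Finset.mem_filter.1 hi).2⟩, hiK⟩)
    · intro K hK K' hK' hne
      exact (hP k).dis (Finset.mem_filter.1 hK).1 (Finset.mem_filter.1 hK').1 hne
  have e1 : ∑ i ∈ Finset.univ.filter (fun i => Lg (g i) t t' = l),
      (u k i * (s k i * mm (g i) t ^ d)) =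
      ∑ i ∈ Finset.univ.filter (fun i => Lg (g i) t t' = l), f i := by rw [hf]
  rw [e1, hsum]
  refine Finset.sum_eq_zero fun K hK => ?_
  have h1 := ((hP k).blk K (Finset.mem_filter.1 hK).1).2.1
  rw [← h1]
  exact Finset.sum_congr rfl fun i _ => (hf' i).symm

/-- **Graded relations.** -/
theorem graded0 (N M r E : ℕ) (ε : ℝ) (hε : 0 < ε) : ∃ (R : ℕ) (δ : ℝ), 0 < δ ∧
    ∀ (Y : ℕ), 1 ≤ Y → ∀ d : ℕ, R ≤ d → (d : ℝ) ≤ (Y : ℝ) ^ δ → ∀ (u : Fin r → Fin M → ℤ),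
      (∀ k i, |u k i| ≤ 1) → ∀ (g : Fin M → Fin N → ℕ), (∀ i j, (g i j : ℝ) ≤ (Y : ℝ) ^ δ) →
      ∀ {α : Type} (T : Finset α) (t : α → Fin N → ℤ) (s : α → Fin r → Fin M → ℤ),
        (∀ a ∈ T, ∀ q, t a q ≠ 0 ∧ |t a q| ≤ (Y : ℤ)) →
        (∀ a ∈ T, ∀ k i, |s a k i| ≤ (Y : ℤ) ^ E) →
        (∀ a ∈ T, ∀ k, ∑ i, u k i * (s a k i * mm (g i) (t a) ^ d) = 0) → (Y : ℝ) ^ ε < T.card →
      ∃ a ∈ T, ∃ b ∈ T, a ≠ b ∧ ∀ (k : Fin r) (l : ℝ),
        ∑ i ∈ Finset.univ.filter (fun i => Lg (g i) (t a) (t b) = l),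
          u k i * (s a k i * mm (g i) (t a) ^ d) = 0 := by
  classical
  obtain ⟨R, δ, hδ, H⟩ := monk N M r E ε hε
  refine ⟨R, δ, hδ, fun Y hY d hd1 hd2 u hu g hg α T t s ht hs h0 hT => ?_⟩
  have hpat : ∀ a ∈ T, ∀ k, ∃ P, MPat (u k) g d (s a k) (t a) P := by
    intro a ha k
    exact MPat.ex (h0 a ha k)
  choose! P hP using hpat
  obtain ⟨κ, hκ⟩ : ∃ κ : α → (Fin r → Finset (Finset (Fin M))) × (Fin M → Fin M → ℚ),
    κ = fun a => (P a, mrat (P a) g (t a)) := ⟨_, rfl⟩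
  have hYr : (0 : ℝ) ≤ (Y : ℝ) ^ δ := by positivity
  have hcard := H Y hY d hd1 hd2 u (fun k i => by
      refine le_trans ?_ (Real.one_le_exp hYr)
      exact_mod_cast hu k i) g hg (T.image κ) (by
      intro K hK
      obtain ⟨a, ha, rfl⟩ := Finset.mem_image.1 hK
      refine ⟨t a, s a, ht a ha, hs a ha, fun k => ?_, ?_⟩
      · rw [hκ]
        exact hP a ha k
      · rw [hκ])
  have hlt : (T.image κ).card < T.card := by
    have := lt_of_le_of_lt hcard hT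
    exact_mod_cast this
  obtain ⟨a, ha, b, hb, hab, hk⟩ := Finset.exists_ne_map_eq_of_card_lt_of_maps_to hlt
    (fun a ha => Finset.mem_coe.2 (Finset.mem_image_of_mem κ (Finset.mem_coe.1 ha)))
  refine ⟨a, ha, b, hb, hab, fun k l => ?_⟩
  rw [hκ] at hk
  obtain ⟨k1, k2⟩ := Prod.mk.inj hk
  refine level_zero (P := P a) (fun q => (ht a ha q).1) (fun q => (ht b hb q).1) (hP a ha) ?_ k l
  rw [k2, k1]

/-- **Graded relations**, for arbitrary finite index sets -/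
theorem graded (ι κ ρ : Type) [Fintype ι] [Fintype κ] [Fintype ρ] (E : ℕ) (ε : ℝ) (hε : 0 < ε) :
    ∃ (R : ℕ) (δ : ℝ), 0 < δ ∧
    ∀ (Y : ℕ), 1 ≤ Y → ∀ d : ℕ, R ≤ d → (d : ℝ) ≤ (Y : ℝ) ^ δ → ∀ (u : ρ → κ → ℤ),
      (∀ k i, |u k i| ≤ 1) → ∀ (g : κ → ι → ℕ), (∀ i j, (g i j : ℝ) ≤ (Y : ℝ) ^ δ) →
      ∀ {α : Type} (T : Finset α) (t : α → ι → ℤ) (s : α → ρ → κ → ℤ),
        (∀ a ∈ T, ∀ q, t a q ≠ 0 ∧ |t a q| ≤ (Y : ℤ)) →
        (∀ a ∈ T, ∀ k i, |s a k i| ≤ (Y : ℤ) ^ E) →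
        (∀ a ∈ T, ∀ k, ∑ i, u k i * (s a k i * (∏ q, t a q ^ g i q) ^ d) = 0) →
          (Y : ℝ) ^ ε < T.card →
      ∃ a ∈ T, ∃ b ∈ T, a ≠ b ∧ ∀ (k : ρ) (l : ℝ),
        ∑ i : κ, (if Lg (g i) (t a) (t b) = l then
          u k i * (s a k i * (∏ q, t a q ^ g i q) ^ d) else 0) = 0 := by
  classical
  obtain ⟨R, δ, hδ, H⟩ := graded0 (Fintype.card ι) (Fintype.card κ) (Fintype.card ρ) E ε hε
  refine ⟨R, δ, hδ, fun Y hY d hd1 hd2 u hu g hg α T t s ht hs h0 hT => ?_⟩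
  obtain ⟨eι⟩ : Nonempty (ι ≃ Fin (Fintype.card ι)) := ⟨Fintype.equivFin ι⟩
  obtain ⟨eκ⟩ : Nonempty (κ ≃ Fin (Fintype.card κ)) := ⟨Fintype.equivFin κ⟩
  obtain ⟨eρ⟩ : Nonempty (ρ ≃ Fin (Fintype.card ρ)) := ⟨Fintype.equivFin ρ⟩
  have hmm : ∀ (i : Fin (Fintype.card κ)) (a : α),
      mm (fun q => g (eκ.symm i) (eι.symm q)) (fun q => t a (eι.symm q)) =
        ∏ q, t a q ^ g (eκ.symm i) q := by
    intro i a
    unfold mm
    exact Fintype.prod_equiv eι.symm _ _ fun q => rfl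
  have hLg : ∀ (i : Fin (Fintype.card κ)) (a b : α),
      Lg (fun q => g (eκ.symm i) (eι.symm q)) (fun q => t a (eι.symm q)) (fun q => t b (eι.symm q)) =
        Lg (g (eκ.symm i)) (t a) (t b) := by
    intro i a b
    unfold Lg
    exact Fintype.sum_equiv eι.symm _ _ fun q => rfl
  obtain ⟨a, ha, b, hb, hab, h⟩ := H Y hY d hd1 hd2 (fun k i => u (eρ.symm k) (eκ.symm i))
    (fun k i => hu _ _) (fun i q => g (eκ.symm i) (eι.symm q)) (fun i q => hg _ _) T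
    (fun a q => t a (eι.symm q)) (fun a k i => s a (eρ.symm k) (eκ.symm i))
    (fun a ha q => ht a ha _) (fun a ha k i => hs a ha _ _) (fun a ha k => by
      rw [← h0 a ha (eρ.symm k)]
      refine Fintype.sum_equiv eκ.symm _ _ fun i => ?_
      rw [hmm]) hT
  refine ⟨a, ha, b, hb, hab, fun k l => ?_⟩
  have h1 := h (eρ k) l
  rw [Finset.sum_filter] at h1
  refine Eq.trans ?_ h1
  symm
  refine Fintype.sum_equiv eκ.symm _ _ fun i => ?_
  rw [hmm, hLg, Equiv.symm_apply_apply]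

end Pool.Agent.NH8.VA
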