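import Mathlib
import Pool.Agent.NH8.VA
import Pool.Agent.NH8.UE

/-!
# Deformations of points which satisfy linear relations between monomials
-/

set_option autoImplicit false

namespace Pool.Agent.NH8.VB

open Pool.Agent.NH8.UB Pool.Agent.NH8.UC Pool.Agent.NH8.UE

section

variable {I J : Type} [Fintype I] [DecidableEq I] [Fintype J] [DecidableEq J]

/-- the exponents of the numerators and denominators -/
def ex (β : I → ℕ) (A : ℕ) (p : I) : Fin 2 → ℕ := ![β p, A - β p]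

/-- the integers -/
def tt (y : J → ℚ) (q : J × Fin 2) : ℤ := (![(y q.1).num, (y q.1).den] : Fin 2 → ℤ) q.2

/-- the coefficient in the row `j` and the column `p` -/
def xp (α : I → ℕ) (A : ℕ) (x : J → ℚ) (j : J) (p : I) : ℤ :=
  (x j).num ^ α p * ((x j).den : ℤ) ^ (A - α p)

/-- the monomial in the row `j` and the column `p` -/
def mp (β : I → ℕ) (A : ℕ) (y : J → ℚ) (j : J) (p : I) : ℤ := ∏ c, tt y (j, c) ^ ex β A p c

/-- the exponents of the monomials in the determinants -/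
def gg (β : I → ℕ) (A : ℕ) (k : (I → J) × Equiv.Perm I) (q : J × Fin 2) : ℕ :=
  ∑ p, if k.1 (k.2 p) = q.1 then ex β A p q.2 else 0

/-- the coefficients -/
def ss (α : I → ℕ) (A : ℕ) (x : J → ℚ) (_f : I → J) (k : (I → J) × Equiv.Perm I) : ℤ :=
  ∏ p, xp α A x (k.1 (k.2 p)) p

omit [DecidableEq I] in
theorem prod_gg (β : I → ℕ) (A : ℕ) (y : J → ℚ) (k : (I → J) × Equiv.Perm I) :
    ∏ q, tt y q ^ gg β A k q = ∏ p, mp β A y (k.1 (k.2 p)) p := by
  unfold gg mp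
  have h1 : ∀ q : J × Fin 2, tt y q ^ (∑ p, if k.1 (k.2 p) = q.1 then ex β A p q.2 else 0) =
      ∏ p, (if k.1 (k.2 p) = q.1 then tt y q ^ ex β A p q.2 else 1) := by
    intro q
    rw [← Finset.prod_pow_eq_pow_sum]
    refine Finset.prod_congr rfl fun p _ => ?_
    split_ifs
    · rfl
    · exact pow_zero _
  rw [Finset.prod_congr rfl fun q _ => h1 q, Finset.prod_comm]
  refine Finset.prod_congr rfl fun p _ => ?_
  rw [Fintype.prod_prod_type, Finset.prod_eq_single (k.1 (k.2 p))]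
  · refine Finset.prod_congr rfl fun c _ => ?_
    rw [if_pos rfl]
  · intro j _ hj
    exact Finset.prod_eq_one fun c _ => if_neg (Ne.symm hj)
  · intro h
    exact absurd (Finset.mem_univ _) h

/-- the weight of the entry in the row `j` and the column `p` -/
noncomputable def ψ (β : I → ℕ) (A : ℕ) (y y' : J → ℚ) (j : J) (p : I) : ℝ :=
  ∑ c, (ex β A p c : ℝ) * (Real.log (tt y (j, c)) - Real.log (tt y' (j, c)))

omit [DecidableEq I] in
theorem Lg_gg (β : I → ℕ) (A : ℕ) (y y' : J → ℚ) (k : (I → J) × Equiv.Perm I) :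
    Lg (gg β A k) (tt y) (tt y') = ∑ p, ψ β A y y' (k.1 (k.2 p)) p := by
  unfold Lg gg ψ
  have h1 : ∀ q : J × Fin 2,
      (((∑ p, if k.1 (k.2 p) = q.1 then ex β A p q.2 else 0 : ℕ) : ℕ) : ℝ) *
      (Real.log (tt y q) - Real.log (tt y' q)) =
      ∑ p, (if k.1 (k.2 p) = q.1 then (ex β A p q.2 : ℝ) *
        (Real.log (tt y q) - Real.log (tt y' q)) else 0) := by
    intro q
    rw [Nat.cast_sum, Finset.sum_mul]
    refine Finset.sum_congr rfl fun p _ => ?_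
    split_ifs
    · rfl
    · rw [Nat.cast_zero, zero_mul]
  rw [Finset.sum_congr rfl fun q _ => h1 q, Finset.sum_comm]
  refine Finset.sum_congr rfl fun p _ => ?_
  rw [Fintype.sum_prod_type, Finset.sum_eq_single (k.1 (k.2 p))]
  · refine Finset.sum_congr rfl fun c _ => ?_
    rw [if_pos rfl]
  · intro j _ hj
    exact Finset.sum_eq_zero fun c _ => if_neg (Ne.symm hj)
  · intro h
    exact absurd (Finset.mem_univ _) h

omit [Fintype I] [DecidableEq I] [Fintype J] [DecidableEq J] in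
theorem ψ_eq (β : I → ℕ) (A : ℕ) (hβ : ∀ p, β p ≤ A) (y y' : J → ℚ) (hy : ∀ j, y j ≠ 0)
    (hy' : ∀ j, y' j ≠ 0) (j : J) (p : I) :
    ψ β A y y' j p = (β p : ℝ) * (Real.log (y j) - Real.log (y' j)) +
      A * (Real.log (((y j).den : ℕ) : ℤ) - Real.log (((y' j).den : ℕ) : ℤ)) := by
  unfold ψ
  rw [Fin.sum_univ_two, log_rat _ (hy j), log_rat _ (hy' j)]
  have e0 : ((ex β A p 0 : ℕ) : ℝ) = β p := rfl
  have e1 : ((ex β A p 1 : ℕ) : ℝ) = A - β p := by
    show ((A - β p : ℕ) : ℝ) = _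
    push_cast [Nat.cast_sub (hβ p)]; ring
  rw [e0, e1]
  show (β p : ℝ) * (Real.log ((y j).num : ℤ) - Real.log ((y' j).num : ℤ)) +
    (A - β p : ℝ) * (Real.log (((y j).den : ℕ) : ℤ) - Real.log (((y' j).den : ℕ) : ℤ)) = _
  ring

/-- the common factor of a row -/
def Dn (A d : ℕ) (x y : J → ℚ) (j : J) : ℚ := ((x j).den : ℚ) ^ A * (((y j).den : ℚ) ^ A) ^ d

omit [Fintype J] [DecidableEq J] in
theorem Dn_ne (A d : ℕ) (x y : J → ℚ) (j : J) : Dn A d x y j ≠ 0 := by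
  unfold Dn
  have h1 : ((x j).den : ℚ) ≠ 0 := by exact_mod_cast (x j).den_nz
  have h2 : ((y j).den : ℚ) ≠ 0 := by exact_mod_cast (y j).den_nz
  positivity

theorem num_den (z : ℚ) (a A : ℕ) (h : a ≤ A) :
    (z.num : ℚ) ^ a * ((z.den : ℕ) : ℚ) ^ (A - a) = ((z.den : ℕ) : ℚ) ^ A * z ^ a := by
  have h1 : (z.num : ℚ) = z * (z.den : ℚ) := (Rat.mul_den_eq_num z).symm
  have h2 : ((z.den : ℕ) : ℚ) ^ A = ((z.den : ℕ) : ℚ) ^ a * ((z.den : ℕ) : ℚ) ^ (A - a) := by
    rw [← pow_add, Nat.add_sub_cancel' h]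
  rw [h1, mul_pow, h2]
  ring

omit [Fintype I] [DecidableEq I] [Fintype J] [DecidableEq J] in
theorem entry_eq (α β : I → ℕ) (A d : ℕ) (hα : ∀ p, α p ≤ A) (hβ : ∀ p, β p ≤ A) (x y : J → ℚ)
    (j : J) (p : I) :
    ((xp α A x j p * mp β A y j p ^ d : ℤ) : ℚ) = Dn A d x y j *
      (x j ^ α p * (y j ^ d) ^ β p) := by
  have h1 : ((mp β A y j p : ℤ) : ℚ) = ((y j).den : ℚ) ^ A * y j ^ β p := by
    unfold mp
    rw [Fin.prod_univ_two]
    push_cast
    show ((y j).num : ℚ) ^ (β p) * (((y j).den : ℤ) : ℚ) ^ (A - β p) = _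
    rw [Int.cast_natCast, num_den _ _ _ (hβ p)]
  have h2 : ((xp α A x j p : ℤ) : ℚ) = ((x j).den : ℚ) ^ A * x j ^ α p := by
    unfold xp
    push_cast
    rw [num_den _ _ _ (hα p)]
  push_cast
  rw [h1, h2, Dn, mul_pow, ← pow_mul, ← pow_mul (y j), mul_comm (β p) d]
  ring

/-- the coefficients of the relations -/
noncomputable def uu (f : I → J) (k : (I → J) × Equiv.Perm I) : ℤ :=
  haveI := Classical.dec (f = k.1)
  if f = k.1 then (Equiv.Perm.sign k.2 : ℤ) else 0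

omit [Fintype J] [DecidableEq J] in
theorem uu_abs (f : I → J) (k : (I → J) × Equiv.Perm I) : |uu f k| ≤ 1 := by
  unfold uu
  split_ifs
  · rcases Int.units_eq_one_or (Equiv.Perm.sign k.2) with h | h <;> rw [h] <;> simp
  · simp

theorem sum_uu (f : I → J) (G : (I → J) × Equiv.Perm I → ℤ)
    (W : (I → J) × Equiv.Perm I → Prop) [DecidablePred W] :
    ∑ k, (if W k then uu f k * G k else 0) =
      ∑ σ : Equiv.Perm I, (if W (f, σ) then (Equiv.Perm.sign σ : ℤ) * G (f, σ) else 0) := by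
  classical
  rw [Fintype.sum_prod_type, Finset.sum_eq_single f]
  · refine Finset.sum_congr rfl fun σ _ => ?_
    unfold uu
    simp only [if_true]
  · intro f' _ hf
    refine Finset.sum_eq_zero fun σ _ => ?_
    unfold uu
    simp only [if_neg (Ne.symm hf), zero_mul, ite_self]
  · intro h
    exact absurd (Finset.mem_univ f) h

omit [Fintype J] [DecidableEq J] in
/-- the determinants vanish -/
theorem det_zero (α β : I → ℕ) (A d : ℕ) (hα : ∀ p, α p ≤ A) (hβ : ∀ p, β p ≤ A) (x y : J → ℚ)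
    (v : I → ℚ) (hv : v ≠ 0) (h : ∀ j, ∑ p, v p * (x j ^ α p * (y j ^ d) ^ β p) = 0) (f : I → J) :
    ∑ σ : Equiv.Perm I, (Equiv.Perm.sign σ : ℤ) *
      ∏ p, (xp α A x (f (σ p)) p * mp β A y (f (σ p)) p ^ d) = 0 := by
  obtain ⟨M, hM⟩ : ∃ M : Matrix I I ℚ, ∀ i p, M i p =
    ((xp α A x (f i) p * mp β A y (f i) p ^ d : ℤ) : ℚ) := ⟨_, fun _ _ => rfl⟩
  have hdet : M.det = 0 := by
    rw [← Matrix.exists_mulVec_eq_zero_iff]
    refine ⟨v, hv, ?_⟩
    funext i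
    rw [Matrix.mulVec, dotProduct, Pi.zero_apply]
    have h2 : ∑ p : I, M i p * v p = Dn A d x y (f i) *
        ∑ p : I, v p * (x (f i) ^ α p * (y (f i) ^ d) ^ β p) := by
      rw [Finset.mul_sum]
      refine Finset.sum_congr rfl fun p _ => ?_
      rw [hM, entry_eq α β A d hα hβ]
      ring
    rw [h2, h, mul_zero]
  rw [Matrix.det_apply] at hdet
  have h3 : ((∑ σ : Equiv.Perm I, (Equiv.Perm.sign σ : ℤ) *
      ∏ p, (xp α A x (f (σ p)) p * mp β A y (f (σ p)) p ^ d) : ℤ) : ℚ) = 0 := by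
    rw [← hdet]
    rw [Int.cast_sum]
    refine Finset.sum_congr rfl fun σ _ => ?_
    rw [Units.smul_def, ← Int.cast_smul_eq_zsmul ℚ, smul_eq_mul, Int.cast_mul, Int.cast_prod]
    congr 1
    exact Finset.prod_congr rfl fun p _ => (hM _ _).symm
  exact_mod_cast h3

omit [Fintype I] [DecidableEq I] [Fintype J] [DecidableEq J] in
theorem ex_le (β : I → ℕ) (A : ℕ) (hβ : ∀ p, β p ≤ A) (p : I) (c : Fin 2) : ex β A p c ≤ A := by
  fin_cases c
  · exact hβ p
  · exact Nat.sub_le _ _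

omit [DecidableEq I] [Fintype J] in
theorem gg_le (β : I → ℕ) (A : ℕ) (hβ : ∀ p, β p ≤ A) (k : (I → J) × Equiv.Perm I)
    (q : J × Fin 2) : gg β A k q ≤ Fintype.card I * A := by
  unfold gg
  calc ∑ p, (if k.1 (k.2 p) = q.1 then ex β A p q.2 else 0) ≤ ∑ _p : I, A := by
        refine Finset.sum_le_sum fun p _ => ?_
        split_ifs
        · exact ex_le β A hβ p q.2
        · exact Nat.zero_le _
    _ = _ := by rw [Finset.sum_const, Finset.card_univ, smul_eq_mul]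

omit [Fintype I] [DecidableEq I] [Fintype J] [DecidableEq J] in
theorem xp_le {Y : ℕ} (hY : 1 ≤ Y) (α : I → ℕ) (A : ℕ) (hα : ∀ p, α p ≤ A) {x : J → ℚ}
    (hx : ∀ j, HtLe Y (x j)) (j : J) (p : I) : |xp α A x j p| ≤ (Y : ℤ) ^ A := by
  unfold xp
  rw [abs_mul, abs_pow, abs_pow, Nat.abs_cast]
  calc |(x j).num| ^ α p * ((x j).den : ℤ) ^ (A - α p) ≤ (Y : ℤ) ^ α p * (Y : ℤ) ^ (A - α p) := by
        refine mul_le_mul (pow_le_pow_left₀ (abs_nonneg _) (hx j).1 _)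
          (pow_le_pow_left₀ (by positivity) (by exact_mod_cast (hx j).2) _) (by positivity)
          (by positivity)
    _ = _ := by rw [← pow_add, Nat.add_sub_cancel' (hα p)]

omit [DecidableEq I] [Fintype J] [DecidableEq J] in
theorem ss_le {Y : ℕ} (hY : 1 ≤ Y) (α : I → ℕ) (A : ℕ) (hα : ∀ p, α p ≤ A) {x : J → ℚ}
    (hx : ∀ j, HtLe Y (x j)) (f : I → J) (k : (I → J) × Equiv.Perm I) :
    |ss α A x f k| ≤ (Y : ℤ) ^ (A * Fintype.card I) := by
  unfold ss
  rw [Finset.abs_prod, pow_mul]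
  calc ∏ p, |xp α A x (k.1 (k.2 p)) p| ≤ ∏ _p : I, (Y : ℤ) ^ A :=
        Finset.prod_le_prod (fun p _ => abs_nonneg _) fun p _ => xp_le hY α A hα hx _ _
    _ = _ := by rw [Finset.prod_const, Finset.card_univ]

omit [Fintype J] [DecidableEq J] in
theorem tt_bd {Y : ℕ} {y : J → ℚ} (hy : ∀ j, y j ≠ 0 ∧ HtLe Y (y j)) (q : J × Fin 2) :
    tt y q ≠ 0 ∧ |tt y q| ≤ (Y : ℤ) := by
  obtain ⟨j, c⟩ := q
  fin_cases c
  · exact ⟨Rat.num_ne_zero.2 (hy j).1, (hy j).2.1⟩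
  · refine ⟨?_, ?_⟩
    · show (((y j).den : ℕ) : ℤ) ≠ 0
      exact_mod_cast (y j).den_nz
    show |(((y j).den : ℕ) : ℤ)| ≤ (Y : ℤ)
    rw [abs_of_nonneg (by positivity)]
    exact_mod_cast (hy j).2.2

end

/-- **Deformations.** Among many configurations of points which satisfy linear relations between
the monomials `x ^ α (y ^ d) ^ β` there are two such that the points of the first one, with the
second coordinates multiplied by powers of a variable whose exponents are the logarithms of the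
quotients of the second coordinates, satisfy a linear relation between the monomials. -/
theorem deform (I J : Type) [Fintype I] [DecidableEq I] [Fintype J] [DecidableEq J]
    (α β : I → ℕ) (A : ℕ) (hα : ∀ p, α p ≤ A) (hβ : ∀ p, β p ≤ A) (ε : ℝ) (hε : 0 < ε) :
    ∃ (R : ℕ) (δ : ℝ), 0 < δ ∧ ∀ Y : ℕ, 1 ≤ Y → ∀ d : ℕ, R ≤ d → (d : ℝ) ≤ (Y : ℝ) ^ δ →
      ∀ {ω : Type} (T : Finset ω) (x y : ω → J → ℚ),
        (∀ a ∈ T, ∀ j, HtLe Y (x a j) ∧ y a j ≠ 0 ∧ HtLe Y (y a j)) →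
        (∀ a ∈ T, ∃ v : I → ℚ, v ≠ 0 ∧ ∀ j, ∑ p, v p * (x a j ^ α p * (y a j ^ d) ^ β p) = 0) →
        (Y : ℝ) ^ ε < T.card →
      ∃ a ∈ T, ∃ b ∈ T, a ≠ b ∧ ∃ c : I → KK, c ≠ 0 ∧ ∀ j, ∑ p, c p *
        HahnSeries.single ((β p : ℝ) * (Real.log (y a j) - Real.log (y b j)))
          (x a j ^ α p * (y a j ^ d) ^ β p) = 0 := by
  classical
  obtain ⟨R, δ, hδ, H⟩ := VA.graded (J × Fin 2) ((I → J) × Equiv.Perm I) (I → J)
    (A * Fintype.card I) ε hε
  refine ⟨max R (Fintype.card I * A), δ, hδ, fun Y hY d hd1 hd2 ω T x y hT hv hc => ?_⟩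
  have hg : ∀ (k : (I → J) × Equiv.Perm I) (q : J × Fin 2), ((gg β A k q : ℕ) : ℝ) ≤ (Y : ℝ) ^ δ := by
    intro k q
    refine le_trans ?_ hd2
    exact_mod_cast (gg_le β A hβ k q).trans ((le_max_right _ _).trans hd1)
  obtain ⟨a, ha, b, hb, hab, h⟩ := H Y hY d ((le_max_left _ _).trans hd1) hd2 uu (fun f k => uu_abs f k)
    (gg β A) hg T (fun a => tt (y a)) (fun a => ss α A (x a))
    (fun a ha q => tt_bd (fun j => (hT a ha j).2) q)
    (fun a ha f k => ss_le hY α A hα (fun j => (hT a ha j).1) f k) (fun a ha f => by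
      obtain ⟨v, hv0, hv1⟩ := hv a ha
      have h1 := sum_uu f (fun k => ss α A (x a) f k * (∏ q, tt (y a) q ^ gg β A k q) ^ d)
        (fun _ => True)
      simp only [if_true] at h1
      rw [h1, ← det_zero α β A d hα hβ (x a) (y a) v hv0 hv1 f]
      refine Finset.sum_congr rfl fun σ _ => ?_
      rw [prod_gg, ← Finset.prod_pow, ss, ← Finset.prod_mul_distrib]) hc
  refine ⟨a, ha, b, hb, hab, ?_⟩
  obtain ⟨c, hc0, hcj⟩ := hahn (fun j p => ((xp α A (x a) j p * mp β A (y a) j p ^ d : ℤ) : ℚ))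
    (ψ β A (y a) (y b)) (fun f s => by
      have h1 := h f s
      rw [sum_uu f (fun k => ss α A (x a) f k * (∏ q, tt (y a) q ^ gg β A k q) ^ d)
        (fun k => Lg (gg β A k) (tt (y a)) (tt (y b)) = s)] at h1
      have h2 : ((∑ σ : Equiv.Perm I, (if Lg (gg β A (f, σ)) (tt (y a)) (tt (y b)) = s then
          (Equiv.Perm.sign σ : ℤ) * (ss α A (x a) f (f, σ) *
            (∏ q, tt (y a) q ^ gg β A (f, σ) q) ^ d) else 0) : ℤ) : ℚ) = 0 := by
        rw [h1, Int.cast_zero]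
      rw [Int.cast_sum] at h2
      refine Eq.trans ?_ h2
      refine Finset.sum_congr rfl fun σ _ => ?_
      rw [Lg_gg]
      by_cases hs : ∑ p, ψ β A (y a) (y b) (f (σ p)) p = s
      · rw [if_pos hs, if_pos hs, prod_gg, ← Finset.prod_pow, ss, ← Finset.prod_mul_distrib,
          Int.cast_mul, Int.cast_prod]
      · rw [if_neg hs, if_neg hs, Int.cast_zero])
  refine ⟨c, hc0, fun j => ?_⟩
  obtain ⟨ζ, hζ⟩ : ∃ ζ : ℝ, ζ = A * (Real.log (((y a j).den : ℕ) : ℤ) -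
      Real.log (((y b j).den : ℕ) : ℤ)) := ⟨_, rfl⟩
  have h1 := hcj j
  have h2 : (HahnSeries.single (-ζ) ((Dn A d (x a) (y a) j)⁻¹) : KK) * ∑ p, c p *
      HahnSeries.single (ψ β A (y a) (y b) j p)
        (((xp α A (x a) j p * mp β A (y a) j p ^ d : ℤ) : ℚ)) = 0 := by
    rw [h1, mul_zero]
  refine Eq.trans ?_ h2
  rw [Finset.mul_sum]
  refine Finset.sum_congr rfl fun p _ => ?_
  rw [mul_left_comm (HahnSeries.single (-ζ) _) (c p) _, HahnSeries.single_mul_single]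
  have hD : Dn A d (x a) (y a) j ≠ 0 := Dn_ne A d (x a) (y a) j
  have g1 : -ζ + ψ β A (y a) (y b) j p = (β p : ℝ) * (Real.log (y a j) - Real.log (y b j)) := by
    rw [ψ_eq β A hβ (y a) (y b) (fun j => (hT a ha j).2.1) (fun j => (hT b hb j).2.1) j p, ← hζ]
    ring
  have g2 : (Dn A d (x a) (y a) j)⁻¹ * ((xp α A (x a) j p * mp β A (y a) j p ^ d : ℤ) : ℚ) =
      x a j ^ α p * (y a j ^ d) ^ β p := by
    rw [entry_eq α β A d hα hβ, ← mul_assoc, inv_mul_cancel₀ hD, one_mul]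
  rw [g1, g2]

end Pool.Agent.NH8.VB
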