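import Mathlib
import Pool.Agent.NH8.UD

/-!
# Deformations of the second coordinates of many points on a plane curve
-/

set_option autoImplicit false

open MvPolynomial

namespace Pool.Agent.NH8.VC

open Pool.Agent.NH8.UA Pool.Agent.NH8.UC

variable {e : ℕ}

/-- the leading terms of a relation between generalised power series -/
theorem leading {I : Type} [Fintype I] (ea eb : I → ℕ) (x z : ℚ) (η : ℝ) (c : I → KK) (hc : c ≠ 0)
    (h : ∑ p, c p * HahnSeries.single ((eb p : ℝ) * η) (x ^ ea p * z ^ eb p) = 0) :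
    ∃ (s : ℝ) (A : Finset (I)), A.Nonempty ∧
      (∀ p, c p ≠ 0 → s ≤ (c p).order + (eb p : ℝ) * η) ∧
      (∀ p, p ∈ A ↔ c p ≠ 0 ∧ (c p).order + (eb p : ℝ) * η = s) ∧
      ∑ p ∈ A, (c p).leadingCoeff * (x ^ ea p * z ^ eb p) = 0 := by
  classical
  obtain ⟨w, hw⟩ : ∃ w : I → ℝ, ∀ p, w p = (eb p : ℝ) * η := ⟨_, fun _ => rfl⟩
  simp only [← hw] at h ⊢
  obtain ⟨N, hN⟩ : ∃ N : Finset (I), N = Finset.univ.filter (fun p => c p ≠ 0) := ⟨_, rfl⟩
  have hNm : ∀ p, p ∈ N ↔ c p ≠ 0 := fun p => by rw [hN, Finset.mem_filter]; simp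
  have hNne : N.Nonempty := by
    obtain ⟨p, hp⟩ := Function.ne_iff.1 hc
    exact ⟨p, (hNm p).2 hp⟩
  obtain ⟨q, hq, hmin⟩ := Finset.exists_min_image N (fun p => (c p).order + w p) hNne
  obtain ⟨s, hs⟩ : ∃ s, s = (c q).order + w q := ⟨_, rfl⟩
  obtain ⟨A, hA⟩ : ∃ A, A = N.filter (fun p => (c p).order + w p = s) := ⟨_, rfl⟩
  have hAm : ∀ p, p ∈ A ↔ c p ≠ 0 ∧ (c p).order + w p = s := fun p => by
    rw [hA, Finset.mem_filter, hNm]
  refine ⟨s, A, ⟨q, (hAm q).2 ⟨(hNm q).1 hq, hs.symm⟩⟩, fun p hp => hs ▸ hmin p ((hNm p).2 hp),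
    hAm, ?_⟩
  have h1 := congrArg (fun z : KK => z.coeff s) h
  simp only [HahnSeries.coeff_sum, HahnSeries.coeff_zero] at h1
  have hz : ∀ p, p ∉ A → (c p * HahnSeries.single (w p) (x ^ ea p * z ^ eb p)).coeff s = 0 := by
    intro p hp'
    have h3 := HahnSeries.coeff_mul_single_add (r := x ^ ea p * z ^ eb p) (x := c p)
      (a := s - w p) (b := w p)
    rw [sub_add_cancel] at h3
    rw [h3]
    by_cases hcp : c p = 0
    · rw [hcp, HahnSeries.coeff_zero, zero_mul]
    · rw [HahnSeries.coeff_eq_zero_of_lt_order, zero_mul]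
      have h4 := hmin p ((hNm p).2 hcp)
      have h5 : (c p).order + w p ≠ s := fun h0 => hp' ((hAm p).2 ⟨hcp, h0⟩)
      have h6 : s < (c p).order + w p := lt_of_le_of_ne (by rw [hs]; exact h4) h5.symm
      linarith
  have hn : ∀ p, p ∈ A → (c p * HahnSeries.single (w p) (x ^ ea p * z ^ eb p)).coeff s =
      (c p).leadingCoeff * (x ^ ea p * z ^ eb p) := by
    intro p hp
    have h3 := HahnSeries.coeff_mul_single_add (r := x ^ ea p * z ^ eb p) (x := c p)
      (a := s - w p) (b := w p)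
    rw [sub_add_cancel] at h3
    rw [h3, show s - w p = (c p).order by linarith [((hAm p).1 hp).2]]
    congr 1
    exact HahnSeries.leadingCoeff_eq.symm
  refine Eq.trans ?_ h1
  rw [← Finset.sum_subset (Finset.subset_univ A) (fun p _ hp => hz p hp)]
  exact Finset.sum_congr rfl fun p hp => (hn p hp).symm

/-- `F` does not vanish on a vertical line -/
theorem not_line {F : MvPolynomial (Fin 2) ℚ} (hF : Irreducible F) (hFe : F.totalDegree = e)
    {p : Ix e} (hp : F.coeff (mon p) ≠ 0) (hp1 : eb p ≠ 0) (ξ : ℚ)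
    (h : ∀ n : ℕ, eval ![ξ, (n : ℚ)] F = 0) : False := by
  classical
  have he : 1 ≤ e := by
    have := e_le p
    omega
  obtain ⟨k, hk⟩ := smul_of_zeros hF hFe (G := X 0 - C ξ) (by
    refine (totalDegree_sub _ _).trans ?_
    simp [he]) ((Finset.range (e ^ 2 + 1)).image fun n : ℕ => (![ξ, (n : ℚ)] : Fin 2 → ℚ)) (by
    intro w hw
    obtain ⟨n, _, rfl⟩ := Finset.mem_image.1 hw
    refine ⟨h n, ?_⟩
    simp) (by
    rw [Finset.card_image_of_injective, Finset.card_range]
    · omega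
    · intro a b hab
      have := congrFun hab 1
      simpa using this)
  have h1 := congrArg (coeff (mon p)) hk
  have h2 : mon p 1 ≠ 0 := by rw [mon_one]; exact hp1
  rw [coeff_sub, coeff_X, if_neg, coeff_C, if_neg, coeff_C_mul, sub_zero] at h1
  · rcases mul_eq_zero.1 h1.symm with h3 | h3
    · rw [h3, map_zero, zero_mul] at hk
      have h4 := congrArg (eval ![ξ + 1, 0]) hk
      simp at h4
    · exact hp h3
  · intro h0
    rw [← h0] at h2
    simp at h2
  · intro h0
    rw [← h0] at h2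
    simp at h2

/-- the restriction to a vertical line -/
noncomputable def lin (F : MvPolynomial (Fin 2) ℚ) (e : ℕ) (ξ : ℚ) : Polynomial ℚ :=
  ∑ p : Ix e, Polynomial.C (F.coeff (mon p) * ξ ^ ea p) * Polynomial.X ^ eb p

theorem lin_eval {F : MvPolynomial (Fin 2) ℚ} (hFe : F.totalDegree = e) (ξ z : ℚ) :
    (lin F e ξ).eval z = eval ![ξ, z] F := by
  rw [eval_eq hFe.le, lin, Polynomial.eval_finsetSum]
  refine Finset.sum_congr rfl fun p _ => ?_
  simp
  ring

theorem lin_deg (F : MvPolynomial (Fin 2) ℚ) (ξ : ℚ) : (lin F e ξ).natDegree ≤ e := by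
  refine Polynomial.natDegree_sum_le_of_forall_le _ _ fun p _ => ?_
  refine (Polynomial.natDegree_C_mul_X_pow_le _ _).trans ?_
  have := e_le p
  omega

/-- few points on a vertical line -/
theorem card_line {F : MvPolynomial (Fin 2) ℚ} (hF : Irreducible F) (hFe : F.totalDegree = e)
    {p : Ix e} (hp : F.coeff (mon p) ≠ 0) (hp1 : eb p ≠ 0) {J : Type} (x z : J → ℚ) (S : Finset J)
    (hinj : Set.InjOn (fun j => (x j, z j)) (S : Set J)) (hFj : ∀ j ∈ S, eval ![x j, z j] F = 0)
    (ξ : ℚ) (hS : ∀ j ∈ S, x j = ξ) : S.card ≤ e := by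
  classical
  have h0 : lin F e ξ ≠ 0 := by
    intro h0
    refine not_line hF hFe hp hp1 ξ fun n => ?_
    rw [← lin_eval hFe, h0, Polynomial.eval_zero]
  have h1 : (S.image z) ⊆ (lin F e ξ).roots.toFinset := by
    intro w hw
    obtain ⟨j, hj, rfl⟩ := Finset.mem_image.1 hw
    rw [Multiset.mem_toFinset, Polynomial.mem_roots h0, Polynomial.IsRoot.def, lin_eval hFe,
      ← hS j hj]
    exact hFj j hj
  have h2 : (S.image z).card = S.card := by
    refine Finset.card_image_of_injOn fun i hi j hj hij => hinj hi hj ?_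
    exact Prod.ext ((hS i hi).trans (hS j hj).symm) hij
  rw [← h2]
  exact (Finset.card_le_card h1).trans ((Multiset.toFinset_card_le _).trans
    ((Polynomial.card_roots' _).trans (lin_deg F ξ)))

end Pool.Agent.NH8.VC
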