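import Mathlib
import Pool.Agent.NH8.VC

/-!
# A deformation of the second coordinates of many points on a curve is a scaling
-/

set_option autoImplicit false

open MvPolynomial

namespace Pool.Agent.NH8.VC

open Pool.Agent.NH8.UA Pool.Agent.NH8.UC

variable {e : ℕ}

open Classical in
/-- the terms of smallest order with the second exponent `b` -/
noncomputable def Lb (c : Ix e → KK) (b : ℕ) : Finset (Ix e) :=
  Finset.univ.filter fun p => c p ≠ 0 ∧ eb p = b ∧
    ∀ q, c q ≠ 0 → eb q = b → (c p).order ≤ (c q).order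

theorem mem_Lb {c : Ix e → KK} {b : ℕ} {p : Ix e} : p ∈ Lb c b ↔ c p ≠ 0 ∧ eb p = b ∧
    ∀ q, c q ≠ 0 → eb q = b → (c p).order ≤ (c q).order := by
  classical
  unfold Lb
  rw [Finset.mem_filter]
  simp

/-- the smallest order -/
noncomputable def vb (c : Ix e → KK) (b : ℕ) : ℝ :=
  haveI := Classical.dec (Lb c b).Nonempty
  if h : (Lb c b).Nonempty then (c h.choose).order else 0

theorem vb_eq {c : Ix e → KK} {b : ℕ} {p : Ix e} (hp : p ∈ Lb c b) : (c p).order = vb c b := by
  have h : (Lb c b).Nonempty := ⟨p, hp⟩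
  unfold vb
  rw [dif_pos h]
  have h1 := mem_Lb.1 hp
  have h2 := mem_Lb.1 h.choose_spec
  exact le_antisymm (h1.2.2 _ h2.1 h2.2.1) (h2.2.2 _ h1.1 h1.2.1)

/-- the polynomial in the first coordinate -/
noncomputable def gb (c : Ix e → KK) (b : ℕ) : Polynomial ℚ :=
  ∑ p ∈ Lb c b, Polynomial.C (c p).leadingCoeff * Polynomial.X ^ ea p

theorem gb_deg (c : Ix e → KK) (b : ℕ) : (gb c b).natDegree ≤ e - b := by
  refine Polynomial.natDegree_sum_le_of_forall_le _ _ fun p hp => ?_
  refine (Polynomial.natDegree_C_mul_X_pow_le _ _).trans ?_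
  have h1 := e_le p
  have h2 := (mem_Lb.1 hp).2.1
  omega

theorem gb_ne {c : Ix e → KK} {b : ℕ} {p : Ix e} (hp : p ∈ Lb c b) : gb c b ≠ 0 := by
  intro h0
  have h1 := congrArg (fun f : Polynomial ℚ => f.coeff (ea p)) h0
  simp only [gb, Polynomial.finsetSum_coeff, Polynomial.coeff_C_mul, Polynomial.coeff_X_pow,
    Polynomial.coeff_zero] at h1
  rw [Finset.sum_eq_single p] at h1
  · rw [if_pos rfl, mul_one] at h1
    exact (mem_Lb.1 hp).1 (HahnSeries.leadingCoeff_eq_zero.1 h1)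
  · intro q hq hqp
    rw [if_neg, mul_zero]
    intro h
    exact hqp (e_ext h.symm ((mem_Lb.1 hq).2.1.trans (mem_Lb.1 hp).2.1.symm))
  · intro h
    exact absurd hp h

theorem sum_range_sub (e : ℕ) : 2 * ∑ b ∈ Finset.range (e + 1), (e - b) * e = e ^ 2 * (e + 1) := by
  rw [← Finset.sum_mul]
  have h1 : ∑ b ∈ Finset.range (e + 1), (e - b) = ∑ b ∈ Finset.range (e + 1), b := by
    have := Finset.sum_range_reflect (fun b => b) (e + 1)
    rw [← this]
    refine Finset.sum_congr rfl fun b hb => ?_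
    have := Finset.mem_range.1 hb
    omega
  rw [h1]
  have h2 := Finset.sum_range_id_mul_two (e + 1)
  rw [Nat.add_sub_cancel] at h2
  nlinarith

/-- many points have the same weight -/
theorem popular {F : MvPolynomial (Fin 2) ℚ} (hF : Irreducible F) (hFe : F.totalDegree = e)
    {p0 : Ix e} (hp0 : F.coeff (mon p0) ≠ 0) (hp1 : eb p0 ≠ 0) {J : Type} (x z : J → ℚ) (η : J → ℝ)
    (hz : ∀ j, z j ≠ 0) (S : Finset J)
    (hinj : Set.InjOn (fun j => (x j, z j)) (S : Set J)) (hFj : ∀ j ∈ S, eval ![x j, z j] F = 0)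
    (hcard : e ^ 2 * (e + 1) ^ 2 < 2 * S.card) (c : Ix e → KK) (hc : c ≠ 0)
    (hcj : ∀ j, ∑ p, c p * HahnSeries.single ((eb p : ℝ) * η j) (x j ^ ea p * z j ^ eb p) = 0) :
    ∃ S' ⊆ S, e ^ 2 < S'.card ∧ ∃ l : ℝ, ∀ j ∈ S', η j = l := by
  classical
  choose s A hA0 hA1 hA2 hA3 using fun j => leading ea eb (x j) (z j) (η j) c hc (hcj j)
  -- the terms belong to `Lb`
  have hAL : ∀ j, ∀ p ∈ A j, p ∈ Lb c (eb p) := by
    intro j p hp
    obtain ⟨h1, h2⟩ := (hA2 j p).1 hp
    refine mem_Lb.2 ⟨h1, rfl, fun q hq hqb => ?_⟩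
    have h3 := hA1 j q hq
    rw [hqb] at h3
    linarith
  have hLA : ∀ j, ∀ p ∈ A j, Lb c (eb p) ⊆ A j := by
    intro j p hp q hq
    obtain ⟨h1, h2⟩ := (hA2 j p).1 hp
    obtain ⟨h3, h4, h5⟩ := mem_Lb.1 hq
    refine (hA2 j q).2 ⟨h3, le_antisymm ?_ (hA1 j q h3)⟩
    have h6 := h5 p h1 rfl
    rw [h4]
    linarith
  obtain ⟨S1, hS1⟩ : ∃ S1, S1 = S.filter (fun j => ∃ b, ∀ p ∈ A j, eb p = b) := ⟨_, rfl⟩
  obtain ⟨S2, hS2⟩ : ∃ S2, S2 = S.filter (fun j => ¬ ∃ b, ∀ p ∈ A j, eb p = b) := ⟨_, rfl⟩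
  have hcs : S1.card + S2.card = S.card := by
    rw [hS1, hS2]
    exact Finset.card_filter_add_card_filter_not _
  -- the first case
  have hc1 : S1.card ≤ ∑ b ∈ Finset.range (e + 1), (e - b) * e := by
    have hsub : S1 ⊆ (Finset.range (e + 1)).biUnion fun b =>
        ((gb c b).roots.toFinset).biUnion fun ξ => S.filter (fun j => x j = ξ) := by
      intro j hj
      rw [hS1] at hj
      obtain ⟨hjS, b, hb⟩ := Finset.mem_filter.1 hj
      obtain ⟨p, hp⟩ := hA0 j
      have hpb := hb p hp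
      have hpL : p ∈ Lb c b := hpb ▸ hAL j p hp
      have hAe : A j = Lb c b := by
        refine Finset.Subset.antisymm (fun q hq => ?_) (hpb ▸ hLA j p hp)
        exact (hb q hq) ▸ hAL j q hq
      have hroot : (gb c b).eval (x j) = 0 := by
        have h1 := hA3 j
        rw [hAe] at h1
        have h2 : ∑ p ∈ Lb c b, (c p).leadingCoeff * (x j ^ ea p * z j ^ eb p) =
            z j ^ b * (gb c b).eval (x j) := by
          rw [gb, Polynomial.eval_finsetSum, Finset.mul_sum]
          refine Finset.sum_congr rfl fun q hq => ?_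
          rw [(mem_Lb.1 hq).2.1]
          simp
          ring
        rw [h2] at h1
        rcases mul_eq_zero.1 h1 with h3 | h3
        · exact absurd h3 (pow_ne_zero _ (hz j))
        · exact h3
      refine Finset.mem_biUnion.2 ⟨b, ?_, Finset.mem_biUnion.2 ⟨x j, ?_, ?_⟩⟩
      · rw [Finset.mem_range, ← hpb]
        have := e_le p
        omega
      · rw [Multiset.mem_toFinset, Polynomial.mem_roots (gb_ne hpL)]
        exact hroot
      · exact Finset.mem_filter.2 ⟨hjS, rfl⟩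
    refine (Finset.card_le_card hsub).trans (Finset.card_biUnion_le.trans ?_)
    refine Finset.sum_le_sum fun b _ => ?_
    refine (Finset.card_biUnion_le_card_mul _ _ e fun ξ _ => ?_).trans ?_
    · refine card_line hF hFe hp0 hp1 x z _ (fun i hi j hj h => hinj ?_ ?_ h) (fun j hj => ?_) ξ
        (fun j hj => (Finset.mem_filter.1 hj).2)
      · exact (Finset.mem_filter.1 (Finset.mem_coe.1 hi)).1
      · exact (Finset.mem_filter.1 (Finset.mem_coe.1 hj)).1
      · exact hFj j (Finset.mem_filter.1 hj).1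
    · refine Nat.mul_le_mul_right _ ?_
      exact (Multiset.toFinset_card_le _).trans ((Polynomial.card_roots' _).trans (gb_deg c b))
  -- the second case
  have h2nd : ∀ j ∈ S2, ∃ q : Σ _ : ℕ, ℕ, q.2 < q.1 ∧ q.1 ≤ e ∧
      vb c q.2 + (q.2 : ℝ) * η j = vb c q.1 + (q.1 : ℝ) * η j := by
    intro j hj
    rw [hS2] at hj
    obtain ⟨hjS, hb⟩ := Finset.mem_filter.1 hj
    have key : ∃ p ∈ A j, ∃ q ∈ A j, eb p < eb q := by
      by_contra hcon
      push Not at hcon
      obtain ⟨p, hp⟩ := hA0 j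
      exact hb ⟨eb p, fun q hq => le_antisymm (hcon p hp q hq) (hcon q hq p hp)⟩
    obtain ⟨p, hp, q, hq, hpq⟩ := key
    refine ⟨⟨eb q, eb p⟩, hpq, ?_, ?_⟩
    · have := e_le q
      show eb q ≤ e
      omega
    · show vb c (eb p) + (eb p : ℝ) * η j = vb c (eb q) + (eb q : ℝ) * η j
      rw [← vb_eq (hAL j p hp), ← vb_eq (hAL j q hq), ((hA2 j p).1 hp).2, ((hA2 j q).1 hq).2]
  choose! f hf1 hf2 hf3 using h2nd
  obtain ⟨T, hT⟩ : ∃ T : Finset (Σ _ : ℕ, ℕ), T = (Finset.range (e + 1)).sigma fun b => Finset.range b :=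
    ⟨_, rfl⟩
  have hTc : 2 * T.card = e * (e + 1) := by
    rw [hT, Finset.card_sigma]
    simp only [Finset.card_range]
    have h2 := Finset.sum_range_id_mul_two (e + 1)
    rw [Nat.add_sub_cancel] at h2
    linarith
  obtain ⟨w, -, hw⟩ := Finset.exists_lt_card_fiber_of_mul_lt_card_of_maps_to (s := S2) (t := T)
    (f := f) (n := e ^ 2) (fun j hj => by
      rw [hT, Finset.mem_sigma, Finset.mem_range, Finset.mem_range]
      have := hf2 j hj
      exact ⟨by omega, hf1 j hj⟩) (by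
      have h1 := sum_range_sub e
      by_contra h2
      push Not at h2
      have h3 : 2 * (T.card * e ^ 2) = e ^ 3 * (e + 1) := by
        rw [← mul_assoc, hTc]
        ring
      have h4 : e ^ 2 * (e + 1) ^ 2 = e ^ 2 * (e + 1) + e ^ 3 * (e + 1) := by ring
      omega)
  obtain ⟨S', hS'⟩ : ∃ S', S' = S2.filter (fun j => f j = w) := ⟨_, rfl⟩
  rw [← hS'] at hw
  have hS'm : ∀ j ∈ S', j ∈ S2 ∧ f j = w := fun j hj => by
    rw [hS'] at hj
    exact Finset.mem_filter.1 hj
  refine ⟨S', fun j hj => ?_, hw, (vb c w.2 - vb c w.1) / ((w.1 : ℝ) - w.2), fun j hj => ?_⟩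
  · have h1 := (hS'm j hj).1
    rw [hS2] at h1
    exact (Finset.mem_filter.1 h1).1
  · obtain ⟨h1, h2⟩ := hS'm j hj
    have h3 := hf1 j h1
    have h4 := hf3 j h1
    rw [h2] at h3 h4
    have h5 : (0 : ℝ) < (w.1 : ℝ) - w.2 := by
      have : (w.2 : ℝ) < w.1 := by exact_mod_cast h3
      linarith
    rw [eq_div_iff h5.ne']
    linarith

/-- **Main lemma.** A deformation of the second coordinates of many points on a curve which lie on
a moving curve is a scaling. -/
theorem const {F : MvPolynomial (Fin 2) ℚ} (hF : Irreducible F) (hFe : F.totalDegree = e)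
    {p0 : Ix e} (hp0 : F.coeff (mon p0) ≠ 0) (hp1 : eb p0 ≠ 0) {J : Type} (x z : J → ℚ) (η : J → ℝ)
    (hz : ∀ j, z j ≠ 0) (S : Finset J)
    (hinj : Set.InjOn (fun j => (x j, z j)) (S : Set J)) (hFj : ∀ j, eval ![x j, z j] F = 0)
    (hcard : e ^ 2 * (e + 1) ^ 2 < 2 * S.card) (c : Ix e → KK) (hc : c ≠ 0)
    (hcj : ∀ j, ∑ p, c p * HahnSeries.single ((eb p : ℝ) * η j) (x j ^ ea p * z j ^ eb p) = 0) :
    ∃ l : ℝ, ∀ j, η j = l := by
  classical
  obtain ⟨S', hS'S, hS'c, l, hl⟩ := popular hF hFe hp0 hp1 x z η hz S hinj (fun j _ => hFj j) hcard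
    c hc hcj
  refine ⟨l, ?_⟩
  obtain ⟨c', hc'⟩ : ∃ c' : Ix e → KK, ∀ p, c' p =
      c p * HahnSeries.single ((eb p : ℝ) * l) (1 : ℚ) := ⟨_, fun _ => rfl⟩
  have hmul : ∀ r : ℝ, ∃ m : ℚ, ∀ p, (c' p).coeff r = m * F.coeff (mon p) := by
    intro r
    refine smul_of hF hFe S' x z (fun i hi j hj h => hinj (hS'S hi) (hS'S hj) h)
      (fun j _ => hFj j) hS'c (fun p => (c' p).coeff r) (fun j hj => ?_)
    have h1 := hcj j
    rw [hl j hj] at h1
    have h2 := congrArg (fun z : KK => z.coeff r) h1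
    simp only [HahnSeries.coeff_sum, HahnSeries.coeff_zero] at h2
    refine Eq.trans ?_ h2
    refine Finset.sum_congr rfl fun p _ => ?_
    have h4 : ∀ v : ℚ, (c p * HahnSeries.single ((eb p : ℝ) * l) v).coeff r =
        (c p).coeff (r - (eb p : ℝ) * l) * v := by
      intro v
      have h3 := HahnSeries.coeff_mul_single_add (r := v) (x := c p)
        (a := r - (eb p : ℝ) * l) (b := (eb p : ℝ) * l)
      rwa [sub_add_cancel] at h3
    rw [hc', h4, h4, mul_one]
  choose m hm using hmul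
  obtain ⟨μ, hμ⟩ : ∃ μ : KK, μ = (F.coeff (mon p0))⁻¹ • c' p0 := ⟨_, rfl⟩
  have hμc : ∀ p, c' p = F.coeff (mon p) • μ := by
    intro p
    ext r
    rw [hμ, HahnSeries.coeff_smul, HahnSeries.coeff_smul, hm, hm, smul_eq_mul, smul_eq_mul]
    field_simp
  have hunit : ∀ p, c p = c' p * HahnSeries.single (-((eb p : ℝ) * l)) (1 : ℚ) := by
    intro p
    rw [hc', mul_assoc, HahnSeries.single_mul_single, add_neg_cancel, mul_one]
    exact (mul_one _).symm
  have hμ0 : μ ≠ 0 := by
    intro h0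
    apply hc
    funext p
    rw [hunit, hμc, h0, smul_zero, zero_mul]
    rfl
  intro j
  by_contra hne
  have hz' : ∑ p : Ix e, (HahnSeries.single ((eb p : ℝ) * (η j - l))
      (F.coeff (mon p) * (x j ^ ea p * z j ^ eb p)) : KK) = 0 := by
    have h1 := hcj j
    have h2 : μ * ∑ p : Ix e, (HahnSeries.single ((eb p : ℝ) * (η j - l))
        (F.coeff (mon p) * (x j ^ ea p * z j ^ eb p)) : KK) = 0 := by
      rw [← h1, Finset.mul_sum]
      refine Finset.sum_congr rfl fun p _ => ?_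
      rw [hunit p, hμc, mul_assoc, HahnSeries.single_mul_single, smul_mul_assoc, ← mul_smul_comm,
        one_mul]
      congr 1
      ext r
      rw [HahnSeries.coeff_smul, HahnSeries.coeff_single, HahnSeries.coeff_single]
      have h3 : (eb p : ℝ) * (η j - l) = -((eb p : ℝ) * l) + (eb p : ℝ) * η j := by ring
      rw [h3]
      split_ifs
      · rw [smul_eq_mul]
      · rw [smul_zero]
    rcases mul_eq_zero.1 h2 with h4 | h4
    · exact absurd h4 hμ0
    · exact h4
  -- so `F` vanishes on a vertical line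
  have hb : ∀ b : ℕ, ∑ p : Ix e, (if eb p = b then F.coeff (mon p) * x j ^ ea p else 0) = 0 := by
    intro b
    have h1 := congrArg (fun z : KK => z.coeff ((b : ℝ) * (η j - l))) hz'
    simp only [HahnSeries.coeff_sum, HahnSeries.coeff_zero, HahnSeries.coeff_single] at h1
    have h2 : ∑ p : Ix e, (if (b : ℝ) * (η j - l) = (eb p : ℝ) * (η j - l) then
        F.coeff (mon p) * (x j ^ ea p * z j ^ eb p) else 0) =
        z j ^ b * ∑ p : Ix e, (if eb p = b then F.coeff (mon p) * x j ^ ea p else 0) := by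
      rw [Finset.mul_sum]
      refine Finset.sum_congr rfl fun p _ => ?_
      by_cases hpb : eb p = b
      · rw [if_pos (by rw [hpb]), if_pos hpb, hpb]
        ring
      · rw [if_neg, if_neg hpb, mul_zero]
        intro h3
        have h4 := mul_right_cancel₀ (sub_ne_zero.2 hne) h3
        exact hpb (by exact_mod_cast h4.symm)
    rw [h2] at h1
    rcases mul_eq_zero.1 h1 with h3 | h3
    · exact absurd h3 (pow_ne_zero _ (hz j))
    · exact h3
  refine not_line hF hFe hp0 hp1 (x j) fun n => ?_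
  rw [eval_eq hFe.le]
  have h1 : ∀ p : Ix e, F.coeff (mon p) * (x j ^ ea p * (n : ℚ) ^ eb p) =
      ∑ b ∈ Finset.range (e + 1), (if eb p = b then F.coeff (mon p) * x j ^ ea p else 0) * (n : ℚ) ^ b := by
    intro p
    rw [Finset.sum_eq_single (eb p)]
    · rw [if_pos rfl]
      ring
    · intro b _ hb
      rw [if_neg (Ne.symm hb), zero_mul]
    · intro h0
      exact absurd (Finset.mem_range.2 (by have := e_le p; omega)) h0
  rw [Finset.sum_congr rfl fun p _ => h1 p, Finset.sum_comm]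
  refine Finset.sum_eq_zero fun b _ => ?_
  rw [← Finset.sum_mul, hb, zero_mul]

end Pool.Agent.NH8.VC
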