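import Mathlib
import Pool.Agent.NH8.VC

/-!
# Deformations of the points of a superelliptic curve
-/

set_option autoImplicit false

open MvPolynomial

namespace Pool.Agent.NH8.VC

open Pool.Agent.NH8.UC

/-- the exponents of the first coordinate -/
def sa {D : ℕ} : Option (Fin (D + 1)) → ℕ
  | none => 0
  | some i => i

/-- the exponents of the second coordinate -/
def sb {D : ℕ} : Option (Fin (D + 1)) → ℕ
  | none => 1
  | some _ => 0

variable {D : ℕ}

/-- the polynomial with given coefficients -/
noncomputable def pl {K : Type} [Field K] (c : Fin (D + 1) → K) : Polynomial K :=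
  ∑ i, Polynomial.C (c i) * Polynomial.X ^ (i : ℕ)

theorem pl_coeff {K : Type} [Field K] (c : Fin (D + 1) → K) (i : Fin (D + 1)) :
    (pl c).coeff i = c i := by
  simp only [pl, Polynomial.finsetSum_coeff, Polynomial.coeff_C_mul, Polynomial.coeff_X_pow]
  rw [Finset.sum_eq_single i]
  · simp
  · intro j _ hj
    rw [if_neg, mul_zero]
    intro h
    exact hj (Fin.ext h.symm)
  · intro h
    exact absurd (Finset.mem_univ i) h

theorem pl_deg {K : Type} [Field K] (c : Fin (D + 1) → K) : (pl c).natDegree ≤ D := by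
  refine Polynomial.natDegree_sum_le_of_forall_le _ _ fun i _ => ?_
  refine (Polynomial.natDegree_C_mul_X_pow_le _ _).trans ?_
  have := i.2
  omega

theorem pl_eval {K : Type} [Field K] (c : Fin (D + 1) → K) (x : K) :
    (pl c).eval x = ∑ i, c i * x ^ (i : ℕ) := by
  simp [pl, Polynomial.eval_finsetSum]

/-- a polynomial with many zeros vanishes -/
theorem eq_zero_of {K : Type} [Field K] {J : Type} (S : Finset J) (x : J → K)
    (hinj : Set.InjOn x (S : Set J)) (P : Polynomial K) (hP : P.natDegree ≤ D) (hS : D < S.card)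
    (h : ∀ j ∈ S, P.eval (x j) = 0) : P = 0 := by
  classical
  refine Polynomial.eq_zero_of_natDegree_lt_card_of_eval_eq_zero' P (S.image x) (fun w hw => ?_) ?_
  · obtain ⟨j, hj, rfl⟩ := Finset.mem_image.1 hw
    exact h j hj
  · rw [Finset.card_image_of_injOn hinj]
    omega

/-- the constants -/
noncomputable def ic : ℚ →+* KK := HahnSeries.C

theorem ic_single (q : ℚ) : ic q = HahnSeries.single (0 : ℝ) q := rfl

/-- the smallest order argument -/
theorem popular_s {J : Type} (x z : J → ℚ) (η : J → ℝ)
    (hz : ∀ j, z j ≠ 0) (S : Finset J) (hinj : Set.InjOn x (S : Set J))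
    (hcard : 2 * D < S.card) (c : Option (Fin (D + 1)) → KK) (hc : c ≠ 0)
    (hcj : ∀ j, ∑ p, c p * HahnSeries.single ((sb p : ℝ) * η j) (x j ^ sa p * z j ^ sb p) = 0) :
    ∃ S' ⊆ S, D < S'.card ∧ ∃ l : ℝ, ∀ j ∈ S', η j = l := by
  classical
  choose s A hA0 hA1 hA2 hA3 using fun j => leading sa sb (x j) (z j) (η j) c hc (hcj j)
  -- some coefficient of the polynomial is not zero
  obtain ⟨i0, hi0⟩ : ∃ i, c (some i) ≠ 0 := by
    by_contra hcon
    push Not at hcon
    obtain ⟨j, hj⟩ : S.Nonempty := Finset.card_pos.1 (by omega)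
    have h1 := hA3 j
    have h2 : A j = {none} := by
      ext p
      rw [Finset.mem_singleton]
      constructor
      · intro hp
        rcases p with _ | i
        · rfl
        · exact absurd (hcon i) ((hA2 j _).1 hp).1
      · rintro rfl
        obtain ⟨p, hp⟩ := hA0 j
        rcases p with _ | i
        · exact hp
        · exact absurd (hcon i) ((hA2 j _).1 hp).1
    rw [h2, Finset.sum_singleton] at h1
    have h3 : c none ≠ 0 := ((hA2 j none).1 (h2 ▸ Finset.mem_singleton_self _)).1
    refine mul_ne_zero (fun h => h3 (HahnSeries.leadingCoeff_eq_zero.1 h)) ?_ h1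
    show x j ^ 0 * z j ^ 1 ≠ 0
    rw [pow_zero, pow_one, one_mul]
    exact hz j
  obtain ⟨L, hL⟩ : ∃ L : Finset (Fin (D + 1)), L = Finset.univ.filter (fun i => c (some i) ≠ 0 ∧
      ∀ k, c (some k) ≠ 0 → (c (some i)).order ≤ (c (some k)).order) := ⟨_, rfl⟩
  have hLm : ∀ i, i ∈ L ↔ c (some i) ≠ 0 ∧
      ∀ k, c (some k) ≠ 0 → (c (some i)).order ≤ (c (some k)).order := fun i => by
    rw [hL, Finset.mem_filter]
    simp
  have hLne : L.Nonempty := by
    obtain ⟨q, hq, hmin⟩ := Finset.exists_min_image (Finset.univ.filter fun i => c (some i) ≠ 0)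
      (fun i => (c (some i)).order) ⟨i0, Finset.mem_filter.2 ⟨Finset.mem_univ _, hi0⟩⟩
    exact ⟨q, (hLm q).2 ⟨(Finset.mem_filter.1 hq).2, fun k hk =>
      hmin k (Finset.mem_filter.2 ⟨Finset.mem_univ _, hk⟩)⟩⟩
  obtain ⟨i1, hi1⟩ := hLne
  obtain ⟨g, hg⟩ : ∃ g : Polynomial ℚ, g = pl (fun i => if i ∈ L then (c (some i)).leadingCoeff else 0) :=
    ⟨_, rfl⟩
  have hg0 : g ≠ 0 := by
    intro h0
    have h1 := congrArg (fun f : Polynomial ℚ => f.coeff i1) h0
    simp only [hg, pl_coeff, if_pos hi1, Polynomial.coeff_zero] at h1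
    exact ((hLm i1).1 hi1).1 (HahnSeries.leadingCoeff_eq_zero.1 h1)
  have hsb : ∀ i : Fin (D + 1), ((sb (some i) : ℕ) : ℝ) = 0 := fun i => Nat.cast_zero
  have hsn : ((sb (none : Option (Fin (D + 1))) : ℕ) : ℝ) = 1 := Nat.cast_one
  -- the two cases
  have key : ∀ j, g.eval (x j) ≠ 0 → η j = (c (some i1)).order - (c none).order := by
    intro j hj
    -- a term of the polynomial belongs to `A j`
    have h1 : ∃ i, some i ∈ A j := by
      by_contra hcon
      push Not at hcon
      obtain ⟨p, hp⟩ := hA0 j
      have h2 : A j = {none} := by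
        ext q
        rw [Finset.mem_singleton]
        constructor
        · intro hq
          rcases q with _ | i
          · rfl
          · exact absurd hq (hcon i)
        · rintro rfl
          rcases p with _ | i
          · exact hp
          · exact absurd hp (hcon i)
      have h3 := hA3 j
      rw [h2, Finset.sum_singleton] at h3
      have h4 : c none ≠ 0 := ((hA2 j none).1 (h2 ▸ Finset.mem_singleton_self _)).1
      refine mul_ne_zero (fun h => h4 (HahnSeries.leadingCoeff_eq_zero.1 h)) ?_ h3
      show x j ^ 0 * z j ^ 1 ≠ 0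
      rw [pow_zero, pow_one, one_mul]
      exact hz j
    obtain ⟨i2, hi2⟩ := h1
    obtain ⟨b1, b2⟩ := (hA2 j _).1 hi2
    rw [hsb, zero_mul, add_zero] at b2
    have b3 : (c (some i1)).order = s j := by
      refine le_antisymm ?_ ?_
      · rw [← b2]
        exact ((hLm i1).1 hi1).2 i2 b1
      · have := hA1 j (some i1) ((hLm i1).1 hi1).1
        rwa [hsb, zero_mul, add_zero] at this
    have hiff : ∀ i, some i ∈ A j ↔ i ∈ L := by
      intro i
      rw [hA2, hLm, hsb, zero_mul, add_zero]
      constructor
      · rintro ⟨h5, h6⟩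
        refine ⟨h5, fun k hk => ?_⟩
        have := hA1 j (some k) hk
        rw [hsb, zero_mul, add_zero] at this
        linarith
      · rintro ⟨h5, h6⟩
        refine ⟨h5, le_antisymm ?_ ?_⟩
        · rw [← b2]
          exact h6 i2 b1
        · have := hA1 j (some i) h5
          rwa [hsb, zero_mul, add_zero] at this
    have hnone : none ∈ A j := by
      by_contra hn
      apply hj
      have h3 := hA3 j
      rw [hg, pl_eval]
      have h4 : ∑ p ∈ A j, (c p).leadingCoeff * (x j ^ sa p * z j ^ sb p) =
          ∑ p : Option (Fin (D + 1)), (if p ∈ A j then (c p).leadingCoeff else 0) *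
            (x j ^ sa p * z j ^ sb p) := by
        rw [← Finset.sum_subset (Finset.subset_univ (A j)) (fun p _ hp => by rw [if_neg hp, zero_mul])]
        exact Finset.sum_congr rfl fun p hp => by rw [if_pos hp]
      rw [h4, Fintype.sum_option, if_neg hn, zero_mul, zero_add] at h3
      refine Eq.trans ?_ h3
      refine Finset.sum_congr rfl fun i _ => ?_
      simp only [hiff]
      show _ = _ * (x j ^ (i : ℕ) * z j ^ 0)
      rw [pow_zero, mul_one]
    have h5 := ((hA2 j none).1 hnone).2
    rw [hsn, one_mul] at h5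
    linarith
  refine ⟨S.filter (fun j => g.eval (x j) ≠ 0), Finset.filter_subset _ _, ?_,
    (c (some i1)).order - (c none).order, fun j hj => key j (Finset.mem_filter.1 hj).2⟩
  have h1 : (S.filter (fun j => ¬ g.eval (x j) ≠ 0)).card ≤ D := by
    by_contra hcon
    push Not at hcon
    apply hg0
    refine eq_zero_of (S.filter (fun j => g.eval (x j) = 0)) x (fun i hi j hj h => hinj ?_ ?_ h) g
      (hg ▸ pl_deg _) hcon (fun j hj => (Finset.mem_filter.1 hj).2)
    · exact (Finset.mem_filter.1 (Finset.mem_coe.1 hi)).1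
    · exact (Finset.mem_filter.1 (Finset.mem_coe.1 hj)).1
  have h2 := Finset.card_filter_add_card_filter_not (s := S) (fun j => g.eval (x j) ≠ 0)
  omega

/-- **Main lemma** for superelliptic curves. -/
theorem const_s {F : Polynomial ℚ} (hF : F.natDegree ≤ D) {J : Type} (x z : J → ℚ) (η : J → ℝ)
    (hz : ∀ j, z j ≠ 0) (S : Finset J) (hinj : Set.InjOn x (S : Set J))
    (hFj : ∀ j, z j = F.eval (x j)) (hcard : 2 * D < S.card) (c : Option (Fin (D + 1)) → KK)
    (hc : c ≠ 0)
    (hcj : ∀ j, ∑ p, c p * HahnSeries.single ((sb p : ℝ) * η j) (x j ^ sa p * z j ^ sb p) = 0) :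
    ∃ l : ℝ, ∀ j, η j = l := by
  classical
  obtain ⟨S', hS'S, hS'c, l, hl⟩ := popular_s x z η hz S hinj hcard c hc hcj
  refine ⟨l, ?_⟩
  have hrel : ∀ j, (pl (fun i => c (some i))).eval (ic (x j)) =
      - (c none * HahnSeries.single (η j) (z j)) := by
    intro j
    have h1 := hcj j
    rw [Fintype.sum_option] at h1
    have h2 : c none * (HahnSeries.single ((sb (none : Option (Fin (D + 1))) : ℝ) * η j)
        (x j ^ sa (none : Option (Fin (D + 1))) * z j ^ sb (none : Option (Fin (D + 1)))) : KK) =
        c none * HahnSeries.single (η j) (z j) := by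
      show c none * (HahnSeries.single (((1 : ℕ) : ℝ) * η j) (x j ^ 0 * z j ^ 1) : KK) = _
      rw [Nat.cast_one, one_mul, pow_zero, pow_one, one_mul]
    have h3 : ∑ i : Fin (D + 1), c (some i) * (HahnSeries.single ((sb (some i) : ℝ) * η j)
        (x j ^ sa (some i) * z j ^ sb (some i)) : KK) =
        (pl (fun i => c (some i))).eval (ic (x j)) := by
      rw [pl_eval]
      refine Finset.sum_congr rfl fun i _ => ?_
      show c (some i) * (HahnSeries.single (((0 : ℕ) : ℝ) * η j) (x j ^ (i : ℕ) * z j ^ 0) : KK) = _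
      rw [Nat.cast_zero, zero_mul, pow_zero, mul_one, ← map_pow, ic_single]
    rw [h2, h3] at h1
    exact eq_neg_of_add_eq_zero_right h1
  -- the coefficient of the second coordinate is not zero
  have hcn : c none ≠ 0 := by
    intro h0
    have h1 : pl (fun i => c (some i)) = 0 := by
      refine eq_zero_of (D := D) S (fun j => (ic (x j))) (fun i hi j hj h => hinj hi hj ?_) _
        (pl_deg _) (by omega) (fun j _ => ?_)
      · exact ic.injective h
      · rw [hrel, h0, zero_mul, neg_zero]
    apply hc
    funext p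
    rcases p with _ | i
    · exact h0
    · have h2 := pl_coeff (fun i => c (some i)) i
      rw [h1, Polynomial.coeff_zero] at h2
      exact h2.symm
  -- the polynomial is proportional to `F`
  obtain ⟨G, hG⟩ : ∃ G : Polynomial KK, G = pl (fun i => c (some i)) +
      Polynomial.C (c none * HahnSeries.single l (1 : ℚ)) * F.map ic := ⟨_, rfl⟩
  have hGe : ∀ j, G.eval (ic (x j)) = c none * (HahnSeries.single l (z j) -
      HahnSeries.single (η j) (z j)) := by
    intro j
    have h1 : (F.map ic).eval (ic (x j)) = HahnSeries.single (0 : ℝ) (z j) := by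
      rw [Polynomial.eval_map_apply, ← hFj, ic_single]
    rw [hG, Polynomial.eval_add, Polynomial.eval_mul, Polynomial.eval_C, hrel, h1, mul_assoc,
      HahnSeries.single_mul_single, add_zero, one_mul, mul_sub]
    ring
  have hG0 : G = 0 := by
    refine eq_zero_of (D := D) S' (fun j => (ic (x j)))
      (fun i hi j hj h => hinj (hS'S hi) (hS'S hj) ?_) _ ?_ hS'c (fun j hj => ?_)
    · exact ic.injective h
    · rw [hG]
      refine (Polynomial.natDegree_add_le _ _).trans (max_le (pl_deg _) ?_)
      refine (Polynomial.natDegree_C_mul_le _ _).trans ?_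
      exact Polynomial.natDegree_map_le.trans hF
    · rw [hGe, hl j hj, sub_self, mul_zero]
  intro j
  by_contra hne
  have h1 := hGe j
  rw [hG0, Polynomial.eval_zero] at h1
  rcases mul_eq_zero.1 h1.symm with h2 | h2
  · exact hcn h2
  · have h3 := congrArg (fun w : KK => w.coeff l) h2
    simp only [HahnSeries.coeff_sub, HahnSeries.coeff_single_same, HahnSeries.coeff_zero] at h3
    rw [HahnSeries.coeff_single_of_ne (fun h => hne h.symm), sub_zero] at h3
    exact hz j h3

end Pool.Agent.NH8.VC
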