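import Mathlib
import Pool.Agent.NH8.VB
import Pool.Agent.NH8.VD
import Pool.Agent.NH8.VE
import Pool.Agent.NH8.UG

/-!
# Cyclic coverings of plane curves: few ratios
-/

set_option autoImplicit false

open MvPolynomial

namespace Pool.Agent.NH8.VF

open Pool.Agent.NH8.UA Pool.Agent.NH8.UC Pool.Agent.NH8.UE Pool.Agent.NH8.VB Pool.Agent.NH8.VC

/-- a configuration of points of height at most `Y` which satisfies a relation and has only trivial
deformations, with a given ratio of two of the second coordinates -/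
def Cfg {I J : Type} [Fintype I] (α β : I → ℕ) (d Y : ℕ) (j1 j2 : J) (r : ℚ) : Prop :=
  ∃ x y : J → ℚ, (∀ j, HtLe Y (x j) ∧ y j ≠ 0 ∧ HtLe Y (y j)) ∧
    (∃ v : I → ℚ, v ≠ 0 ∧ ∀ j, ∑ p, v p * (x j ^ α p * (y j ^ d) ^ β p) = 0) ∧
    (∀ (η : J → ℝ) (c : I → KK), c ≠ 0 → (∀ j, ∑ p, c p *
      HahnSeries.single ((β p : ℝ) * η j) (x j ^ α p * (y j ^ d) ^ β p) = 0) → ∃ l, ∀ j, η j = l) ∧
    |y j1 / y j2| = r

theorem few (I J : Type) [Fintype I] [Fintype J]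
    (α β : I → ℕ) (A : ℕ) (hα : ∀ p, α p ≤ A) (hβ : ∀ p, β p ≤ A) (j1 j2 : J) (ε : ℝ) (hε : 0 < ε) :
    ∃ (R : ℕ) (δ : ℝ), 0 < δ ∧ ∀ Y : ℕ, 1 ≤ Y → ∀ d : ℕ, R ≤ d → (d : ℝ) ≤ (Y : ℝ) ^ δ →
      ∃ E : Finset ℚ, (E.card : ℝ) ≤ (Y : ℝ) ^ ε ∧ ∀ r, Cfg α β d Y j1 j2 r → r ∈ E := by
  classical
  obtain ⟨R, δ, hδ, H⟩ := deform I J α β A hα hβ ε hε
  refine ⟨R, δ, hδ, fun Y hY d hd1 hd2 => ?_⟩
  have key : ∀ T : Finset ℚ, (∀ r ∈ T, Cfg α β d Y j1 j2 r) → (T.card : ℝ) ≤ (Y : ℝ) ^ ε := by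
    intro T hT
    by_contra hcon
    push Not at hcon
    choose! x y h1 h2 h3 h4 using hT
    obtain ⟨a, ha, b, hb, hab, c, hc0, hcj⟩ := H Y hY d hd1 hd2 T x y h1 h2 hcon
    obtain ⟨l, hl⟩ := h3 a ha (fun j => Real.log (y a j) - Real.log (y b j)) c hc0 hcj
    apply hab
    have e1 := (hl j1).trans (hl j2).symm
    have n : ∀ w ∈ T, ∀ j, ((y w j : ℚ) : ℝ) ≠ 0 := fun w hw j => by exact_mod_cast (h1 w hw j).2.1
    have e2 : Real.log |((y a j1 : ℚ) : ℝ) / ((y a j2 : ℚ) : ℝ)| =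
        Real.log |((y b j1 : ℚ) : ℝ) / ((y b j2 : ℚ) : ℝ)| := by
      rw [Real.log_abs, Real.log_abs, Real.log_div (n a ha j1) (n a ha j2),
        Real.log_div (n b hb j1) (n b hb j2)]
      linarith
    have e3 := Real.log_injOn_pos (Set.mem_Ioi.2 (abs_pos.2 (div_ne_zero (n a ha j1) (n a ha j2))))
      (Set.mem_Ioi.2 (abs_pos.2 (div_ne_zero (n b hb j1) (n b hb j2)))) e2
    have e4 : |y a j1 / y a j2| = |y b j1 / y b j2| := by exact_mod_cast e3
    rw [h4 a ha, h4 b hb] at e4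
    exact e4
  have hfin : {r : ℚ | Cfg α β d Y j1 j2 r}.Finite := by
    by_contra hinf
    obtain ⟨T, hT1, hT2⟩ := (Set.not_finite.1 hinf).exists_subset_card_eq (⌈(Y : ℝ) ^ ε⌉₊ + 1)
    have h1 := key T fun r hr => hT1 hr
    rw [hT2] at h1
    have h2 := Nat.le_ceil ((Y : ℝ) ^ ε)
    push_cast at h1
    linarith
  refine ⟨hfin.toFinset, key _ fun r hr => ?_, fun r hr => ?_⟩
  · exact (Set.Finite.mem_toFinset hfin).1 hr
  · exact (Set.Finite.mem_toFinset hfin).2 hr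

/-- selection of points with different values of a function with small fibres -/
theorem select {γ : Type} (f : ℚ × ℚ → γ) (k B : ℕ) (Z : Set (ℚ × ℚ))
    (hfib : ∀ q ∈ Z, ∃ s : Finset (ℚ × ℚ), s.card ≤ k ∧ ∀ p ∈ Z, f p = f q → p ∈ s)
    (hZ : ((k * B : ℕ) : ℕ∞) < Z.encard) : ∃ P : Fin (B + 1) → ℚ × ℚ, (∀ i, P i ∈ Z) ∧
      Function.Injective fun i => f (P i) := by
  classical
  obtain ⟨Z0, hZ0, hZc⟩ : ∃ Z0 : Finset (ℚ × ℚ), (Z0 : Set (ℚ × ℚ)) ⊆ Z ∧ k * B < Z0.card := by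
    obtain ⟨t, ht, htc⟩ := Set.exists_subset_encard_eq (s := Z) (k := ((k * B + 1 : ℕ) : ℕ∞))
      (by
        have := Order.add_one_le_of_lt hZ
        exact_mod_cast this)
    have hfin : t.Finite := Set.finite_of_encard_eq_coe htc
    refine ⟨hfin.toFinset, by rwa [Set.Finite.coe_toFinset], ?_⟩
    have h1 : ((hfin.toFinset.card : ℕ) : ℕ∞) = ((k * B + 1 : ℕ) : ℕ∞) := by
      rw [← htc, ← Set.encard_coe_eq_coe_finsetCard, Set.Finite.coe_toFinset]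
    have h2 : hfin.toFinset.card = k * B + 1 := by exact_mod_cast h1
    omega
  have himg : B < (Z0.image f).card := by
    by_contra h
    push Not at h
    have h1 : Z0.card ≤ k * (Z0.image f).card := by
      refine Finset.card_le_mul_card_image Z0 k fun b hb => ?_
      obtain ⟨q, hq, rfl⟩ := Finset.mem_image.1 hb
      obtain ⟨s, hs1, hs2⟩ := hfib q (hZ0 hq)
      refine (Finset.card_le_card fun p hp => ?_).trans hs1
      obtain ⟨hp1, hp2⟩ := Finset.mem_filter.1 hp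
      exact hs2 p (hZ0 hp1) hp2
    have h2 : k * (Z0.image f).card ≤ k * B := Nat.mul_le_mul_left _ h
    omega
  obtain ⟨W, hW1, hW2⟩ := Finset.exists_subset_card_eq (show B + 1 ≤ (Z0.image f).card by omega)
  have hsel : ∀ w ∈ W, ∃ p ∈ Z0, f p = w := fun w hw => Finset.mem_image.1 (hW1 hw)
  choose! g hg1 hg2 using hsel
  obtain ⟨E⟩ : Nonempty (Fin (B + 1) ≃ W) := ⟨(Fintype.equivFinOfCardEq (by
    rw [Fintype.card_coe, hW2])).symm⟩
  refine ⟨fun i => g (E i).1, fun i => hZ0 (hg1 _ (E i).2), fun i j hij => ?_⟩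
  have h1 : f (g (E i).1) = f (g (E j).1) := hij
  rw [hg2 _ (E i).2, hg2 _ (E j).2] at h1
  exact E.injective (Subtype.ext h1)

/-- the rational points of height at most `Y` with nonzero second coordinate on `y ^ n = F (x)` -/
def sp (n Y : ℕ) (F : Polynomial ℚ) : Set (ℚ × ℚ) :=
  {P | P.2 ≠ 0 ∧ HtLe Y P.1 ∧ HtLe Y P.2 ∧ P.2 ^ n = F.eval P.1}

/-- the rational points of height at most `Y` with nonzero second coordinate on
`G (x, y ^ n) = 0` -/
def cp (n Y : ℕ) (G : MvPolynomial (Fin 2) ℚ) : Set (ℚ × ℚ) :=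
  {P | P.2 ≠ 0 ∧ HtLe Y P.1 ∧ HtLe Y P.2 ∧ eval ![P.1, P.2 ^ n] G = 0}

/-- the configuration of points -/
def cf {B : ℕ} (P Q : ℚ × ℚ) (W : Fin (B + 1) → ℚ × ℚ) : Option (Option (Fin (B + 1))) → ℚ × ℚ
  | none => P
  | some none => Q
  | some (some i) => W i

theorem cf_mem {B : ℕ} {P Q : ℚ × ℚ} {W : Fin (B + 1) → ℚ × ℚ} {Z : Set (ℚ × ℚ)} (hP : P ∈ Z)
    (hQ : Q ∈ Z) (hW : ∀ i, W i ∈ Z) (j : Option (Option (Fin (B + 1)))) : cf P Q W j ∈ Z := by
  rcases j with _ | _ | i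
  · exact hP
  · exact hQ
  · exact hW i

/-- the indices of the points -/
def Sx (B : ℕ) : Finset (Option (Option (Fin (B + 1)))) :=
  Finset.univ.map ⟨fun i => some (some i), fun _ _ h => Option.some.inj (Option.some.inj h)⟩

theorem Sx_card (B : ℕ) : (Sx B).card = B + 1 := by
  unfold Sx
  rw [Finset.card_map, Finset.card_univ, Fintype.card_fin]

theorem Sx_inj {B : ℕ} {P Q : ℚ × ℚ} {W : Fin (B + 1) → ℚ × ℚ} {γ : Type} (f : ℚ × ℚ → γ)
    (h : Function.Injective fun i => f (W i)) :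
    Set.InjOn (fun j => f (cf P Q W j)) (Sx B : Set (Option (Option (Fin (B + 1))))) := by
  intro i hi j hj hij
  unfold Sx at hi hj
  rw [Finset.mem_coe, Finset.mem_map] at hi hj
  obtain ⟨i', -, rfl⟩ := hi
  obtain ⟨j', -, rfl⟩ := hj
  have h1 : i' = j' := h hij
  rw [h1]

/-- superelliptic curves with many points give configurations -/
theorem cfg_s {D n Y : ℕ} (hn : n ≠ 0) {F : Polynomial ℚ} (hF : F.natDegree ≤ D) {P Q : ℚ × ℚ}
    (hP : P ∈ sp n Y F) (hQ : Q ∈ sp n Y F) (hc : ((4 * D : ℕ) : ℕ∞) < (sp n Y F).encard) :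
    Cfg (I := Option (Fin (D + 1))) (J := Option (Option (Fin (2 * D + 1)))) sa sb n Y none
      (some none) |P.2 / Q.2| := by
  classical
  obtain ⟨W, hW1, hW2⟩ := select (fun p => p.1) 2 (2 * D) (sp n Y F) (fun q hq => by
    refine ⟨{(q.1, q.2), (q.1, -q.2)}, Finset.card_le_two, fun p hp hpq => ?_⟩
    have h1 : p.1 = q.1 := hpq
    have h2 : p.2 ^ n = q.2 ^ n := by rw [hp.2.2.2, hq.2.2.2, h1]
    rw [Finset.mem_insert, Finset.mem_singleton]
    rcases UG.pow_eq_abs hn h2 with h3 | h3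
    · exact Or.inl (Prod.ext h1 h3)
    · exact Or.inr (Prod.ext h1 h3)) (by
    rw [← mul_assoc]
    exact hc)
  have hmem := cf_mem hP hQ hW1
  refine ⟨fun j => (cf P Q W j).1, fun j => (cf P Q W j).2, fun j => ⟨(hmem j).2.1, (hmem j).1,
    (hmem j).2.2.1⟩, ⟨fun p => p.elim (-1) (fun i => F.coeff i), ?_, fun j => ?_⟩, ?_, rfl⟩
  · intro h0
    have := congrFun h0 none
    simp at this
  · rw [Fintype.sum_option]
    show (-1 : ℚ) * ((cf P Q W j).1 ^ 0 * ((cf P Q W j).2 ^ n) ^ 1) +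
      ∑ i : Fin (D + 1), F.coeff i * ((cf P Q W j).1 ^ (i : ℕ) * ((cf P Q W j).2 ^ n) ^ 0) = 0
    rw [pow_zero, pow_one, one_mul, (hmem j).2.2.2,
      Polynomial.eval_eq_sum_range' (Nat.lt_succ_of_le hF), Finset.sum_range]
    simp only [pow_zero, mul_one]
    ring
  · intro η c hc0 hcj
    refine const_s hF (fun j => (cf P Q W j).1) (fun j => (cf P Q W j).2 ^ n) η
      (fun j => pow_ne_zero _ (hmem j).1) (Sx (2 * D)) (Sx_inj (fun p => p.1) hW2)
      (fun j => (hmem j).2.2.2) ?_ c hc0 hcj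
    rw [Sx_card]
    omega

/-- curves with many points give configurations -/
theorem cfg_c {e n Y : ℕ} (hn : n ≠ 0) {G : MvPolynomial (Fin 2) ℚ} (hG : Irreducible G)
    (hGe : G.totalDegree = e) (hG1 : 0 < G.degreeOf 1) {P Q : ℚ × ℚ}
    (hP : P ∈ cp n Y G) (hQ : Q ∈ cp n Y G)
    (hc : ((e ^ 2 * (e + 1) ^ 2 : ℕ) : ℕ∞) < (cp n Y G).encard) :
    Cfg (I := Ix e) (J := Option (Option (Fin (e ^ 2 * (e + 1) ^ 2 / 2 + 1)))) ea eb n Y none
      (some none) |P.2 / Q.2| := by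
  classical
  obtain ⟨p0, hp0, hp1⟩ : ∃ p0 : Ix e, G.coeff (mon p0) ≠ 0 ∧ eb p0 ≠ 0 := by
    by_contra hcon
    push Not at hcon
    have h1 : G.degreeOf 1 = 0 := by
      rw [degreeOf_eq_sup]
      refine Nat.le_zero.1 (Finset.sup_le fun s hs => ?_)
      have h2 := le_totalDegree hs
      rw [Finsupp.sum_fintype _ _ (fun _ => rfl), Fin.sum_univ_two, hGe] at h2
      have h3 : mon (⟨(⟨s 0, by omega⟩, ⟨s 1, by omega⟩), h2⟩ : Ix e) = s := by
        ext i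
        fin_cases i
        · exact mon_zero _
        · exact mon_one _
      have h4 := hcon ⟨(⟨s 0, by omega⟩, ⟨s 1, by omega⟩), h2⟩ (by
        rw [h3]
        exact mem_support_iff.1 hs)
      exact h4.le
    omega
  obtain ⟨W, hW1, hW2⟩ := select (fun p => (p.1, p.2 ^ n)) 2 (e ^ 2 * (e + 1) ^ 2 / 2) (cp n Y G)
    (fun q hq => by
      refine ⟨{(q.1, q.2), (q.1, -q.2)}, Finset.card_le_two, fun p hp hpq => ?_⟩
      obtain ⟨h1, h2⟩ := Prod.mk.inj hpq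
      rw [Finset.mem_insert, Finset.mem_singleton]
      rcases UG.pow_eq_abs hn h2 with h3 | h3
      · exact Or.inl (Prod.ext h1 h3)
      · exact Or.inr (Prod.ext h1 h3)) (by
      refine lt_of_le_of_lt ?_ hc
      exact_mod_cast Nat.mul_div_le _ 2)
  have hmem := cf_mem hP hQ hW1
  have hrel : ∀ j, ∑ p : Ix e, G.coeff (mon p) *
      ((cf P Q W j).1 ^ ea p * ((cf P Q W j).2 ^ n) ^ eb p) = 0 := by
    intro j
    have h1 := (hmem j).2.2.2
    rwa [eval_eq hGe.le] at h1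
  refine ⟨fun j => (cf P Q W j).1, fun j => (cf P Q W j).2, fun j => ⟨(hmem j).2.1, (hmem j).1,
    (hmem j).2.2.1⟩, ⟨fun p => G.coeff (mon p), ?_, hrel⟩, ?_, rfl⟩
  · intro h0
    exact hp0 (congrFun h0 p0)
  · intro η c hc0 hcj
    refine const hG hGe hp0 hp1 (fun j => (cf P Q W j).1) (fun j => (cf P Q W j).2 ^ n) η
      (fun j => pow_ne_zero _ (hmem j).1) (Sx _) (Sx_inj (fun p => (p.1, p.2 ^ n)) hW2)
      (fun j => (hmem j).2.2.2) ?_ c hc0 hcj
    rw [Sx_card]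
    omega

end Pool.Agent.NH8.VF

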