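import Mathlib
import Pool.Agent.NH8.VF

/-!
# Cyclic coverings of plane curves: the theorem
-/

set_option autoImplicit false

open MvPolynomial

namespace Pool.Agent.NH8.VF

open Pool.Agent.NH8.UA Pool.Agent.NH8.UC Pool.Agent.NH8.UE Pool.Agent.NH8.VB Pool.Agent.NH8.VC

/-- **Cyclic coverings with many points.** -/
theorem main (D : ℕ) (ε : ℝ) (hε : 0 < ε) : ∃ (R : ℕ) (δ : ℝ), 0 < δ ∧ ∀ Y : ℕ, 1 ≤ Y →
    ∃ E : Finset ℚ, (E.card : ℝ) ≤ (Y : ℝ) ^ ε ∧ ∀ n : ℕ, R ≤ n → (n : ℝ) ≤ (Y : ℝ) ^ δ →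
      (∀ F : Polynomial ℚ, F.natDegree ≤ D → ∀ P ∈ sp n Y F, ∀ Q ∈ sp n Y F, |P.2 / Q.2| ∉ E →
        (sp n Y F).encard ≤ ((4 * D : ℕ) : ℕ∞)) ∧
      (∀ G : MvPolynomial (Fin 2) ℚ, Irreducible G → G.totalDegree ≤ D → 0 < G.degreeOf 1 →
        ∀ P ∈ cp n Y G, ∀ Q ∈ cp n Y G, |P.2 / Q.2| ∉ E →
          (cp n Y G).encard ≤ ((D ^ 2 * (D + 1) ^ 2 : ℕ) : ℕ∞)) := by
  classical
  obtain ⟨Rs, δs, hδs, Hs⟩ := few (Option (Fin (D + 1))) (Option (Option (Fin (2 * D + 1)))) sa sb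
    (D + 1) (fun p => by
      rcases p with _ | i
      · exact Nat.zero_le _
      · exact i.2.le) (fun p => by
      rcases p with _ | i
      · exact Nat.succ_le_succ (Nat.zero_le _)
      · exact Nat.zero_le _) none (some none) (ε / 2) (by positivity)
  choose Rc δc hδc Hc using fun e : ℕ => few (Ix e) (Option (Option (Fin (e ^ 2 * (e + 1) ^ 2 / 2 + 1))))
    ea eb e (fun p => by have := e_le p; omega) (fun p => by have := e_le p; omega) none (some none)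
    (ε / 2) (by positivity)
  have hne : (Finset.range (D + 1)).Nonempty := ⟨0, by simp⟩
  obtain ⟨δ0, hδ0⟩ : ∃ δ0 : ℝ, δ0 = (Finset.range (D + 1)).inf' hne δc := ⟨_, rfl⟩
  have hδ0pos : 0 < δ0 := by
    rw [hδ0]
    exact (Finset.lt_inf'_iff hne).2 fun e _ => hδc e
  have hδ0le : ∀ e ∈ Finset.range (D + 1), δ0 ≤ δc e := fun e he => by
    rw [hδ0]
    exact Finset.inf'_le _ he
  obtain ⟨Δ, hΔ⟩ : ∃ Δ : ℝ, Δ = min (min δ0 δs) (ε / 4) := ⟨_, rfl⟩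
  have hΔ0 : 0 < Δ := by
    rw [hΔ]
    exact lt_min (lt_min hδ0pos hδs) (by positivity)
  have hΔ1 : Δ ≤ δ0 := hΔ ▸ (min_le_left _ _).trans (min_le_left _ _)
  have hΔ2 : Δ ≤ δs := hΔ ▸ (min_le_left _ _).trans (min_le_right _ _)
  have hΔ3 : Δ ≤ ε / 4 := hΔ ▸ min_le_right _ _
  refine ⟨max (max ((Finset.range (D + 1)).sup Rc) Rs) (D + 3), Δ, hΔ0, fun Y hY => ?_⟩
  have hY1 : (1 : ℝ) ≤ (Y : ℝ) := by exact_mod_cast hY
  have hY0 : (0 : ℝ) < (Y : ℝ) := by linarith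
  obtain ⟨N, hN⟩ : ∃ N : ℕ, N = ⌊(Y : ℝ) ^ Δ⌋₊ := ⟨_, rfl⟩
  have hN' : (N : ℝ) ≤ (Y : ℝ) ^ Δ := by
    rw [hN]
    exact Nat.floor_le (by positivity)
  by_cases hsmall : (Y : ℝ) ^ Δ < ((D + 3 : ℕ) : ℝ)
  · refine ⟨∅, ?_, fun n hn1 hn2 => ?_⟩
    · rw [Finset.card_empty, Nat.cast_zero]
      positivity
    · exfalso
      have h1 : ((D + 3 : ℕ) : ℝ) ≤ (n : ℝ) := by exact_mod_cast (le_max_right _ _).trans hn1
      linarith
  push Not at hsmall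
  -- the sets of ratios
  have hs : ∀ n : ℕ, ∃ E : Finset ℚ, (E.card : ℝ) ≤ (Y : ℝ) ^ (ε / 2) ∧ (Rs ≤ n →
      (n : ℝ) ≤ (Y : ℝ) ^ Δ → ∀ r, Cfg (I := Option (Fin (D + 1)))
        (J := Option (Option (Fin (2 * D + 1)))) sa sb n Y none (some none) r → r ∈ E) := by
    intro n
    by_cases h : Rs ≤ n ∧ (n : ℝ) ≤ (Y : ℝ) ^ Δ
    · obtain ⟨E, hE1, hE2⟩ := Hs Y hY n h.1
        (h.2.trans (Real.rpow_le_rpow_of_exponent_le hY1 hΔ2))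
      exact ⟨E, hE1, fun _ _ => hE2⟩
    · refine ⟨∅, ?_, fun h1 h2 => absurd ⟨h1, h2⟩ h⟩
      rw [Finset.card_empty, Nat.cast_zero]
      positivity
  have hc : ∀ n e : ℕ, ∃ E : Finset ℚ, (E.card : ℝ) ≤ (Y : ℝ) ^ (ε / 2) ∧ (Rc e ≤ n →
      (n : ℝ) ≤ (Y : ℝ) ^ Δ → e ∈ Finset.range (D + 1) → ∀ r, Cfg (I := Ix e)
        (J := Option (Option (Fin (e ^ 2 * (e + 1) ^ 2 / 2 + 1)))) ea eb n Y none (some none) r →
          r ∈ E) := by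
    intro n e
    by_cases h : Rc e ≤ n ∧ (n : ℝ) ≤ (Y : ℝ) ^ Δ ∧ e ∈ Finset.range (D + 1)
    · obtain ⟨E, hE1, hE2⟩ := Hc e Y hY n h.1
        (h.2.1.trans (Real.rpow_le_rpow_of_exponent_le hY1 (hΔ1.trans (hδ0le e h.2.2))))
      exact ⟨E, hE1, fun _ _ _ => hE2⟩
    · refine ⟨∅, ?_, fun h1 h2 h3 => absurd ⟨h1, h2, h3⟩ h⟩
      rw [Finset.card_empty, Nat.cast_zero]
      positivity
  choose Es hEs1 hEs2 using hs
  choose Ec hEc1 hEc2 using hc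
  obtain ⟨U, hU⟩ : ∃ U : ℕ → Finset ℚ, ∀ n, U n =
    Es n ∪ (Finset.range (D + 1)).biUnion (fun e => Ec n e) := ⟨_, fun _ => rfl⟩
  have hUc : ∀ n, ((U n).card : ℝ) ≤ ((D + 2 : ℕ) : ℝ) * (Y : ℝ) ^ (ε / 2) := by
    intro n
    have h1 : ((U n).card : ℝ) ≤ ((Es n).card : ℝ) + ∑ e ∈ Finset.range (D + 1), ((Ec n e).card : ℝ) := by
      rw [hU]
      exact_mod_cast (Finset.card_union_le _ _).trans (Nat.add_le_add_left Finset.card_biUnion_le _)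
    have h2 : ∑ e ∈ Finset.range (D + 1), ((Ec n e).card : ℝ) ≤
        ∑ _e ∈ Finset.range (D + 1), (Y : ℝ) ^ (ε / 2) := Finset.sum_le_sum fun e _ => hEc1 n e
    rw [Finset.sum_const, Finset.card_range, nsmul_eq_mul] at h2
    have h3 := hEs1 n
    push_cast at h2 ⊢
    linarith
  have hYε : (1 : ℝ) ≤ (Y : ℝ) ^ (ε / 2) := Real.one_le_rpow hY1 (by positivity)
  have hYΔ : (1 : ℝ) ≤ (Y : ℝ) ^ Δ := Real.one_le_rpow hY1 hΔ0.le
  refine ⟨insert 1 ((Finset.Icc 1 N).biUnion U), ?_, fun n hn1 hn2 => ?_⟩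
  · have h1 : (((insert 1 ((Finset.Icc 1 N).biUnion U) : Finset ℚ).card : ℕ) : ℝ) ≤
        1 + ∑ n ∈ Finset.Icc 1 N, ((U n).card : ℝ) := by
      have := (Finset.card_insert_le (1 : ℚ) ((Finset.Icc 1 N).biUnion U)).trans
        (Nat.add_le_add_right Finset.card_biUnion_le 1)
      rw [add_comm (1 : ℝ)]
      exact_mod_cast this
    have h2 : ∑ n ∈ Finset.Icc 1 N, ((U n).card : ℝ) ≤
        ∑ _n ∈ Finset.Icc 1 N, ((D + 2 : ℕ) : ℝ) * (Y : ℝ) ^ (ε / 2) :=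
      Finset.sum_le_sum fun n _ => hUc n
    rw [Finset.sum_const, Nat.card_Icc, Nat.add_sub_cancel, nsmul_eq_mul] at h2
    have h3 : (N : ℝ) * (((D + 2 : ℕ) : ℝ) * (Y : ℝ) ^ (ε / 2)) ≤
        (Y : ℝ) ^ Δ * (((D + 2 : ℕ) : ℝ) * (Y : ℝ) ^ (ε / 2)) := by gcongr
    have h4 : (1 : ℝ) ≤ (Y : ℝ) ^ Δ * (Y : ℝ) ^ (ε / 2) := by
      have := mul_le_mul hYΔ hYε zero_le_one (by positivity)
      linarith
    calc (((insert 1 ((Finset.Icc 1 N).biUnion U) : Finset ℚ).card : ℕ) : ℝ)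
        ≤ (Y : ℝ) ^ Δ * (Y : ℝ) ^ (ε / 2) + (Y : ℝ) ^ Δ * (((D + 2 : ℕ) : ℝ) * (Y : ℝ) ^ (ε / 2)) := by
          linarith
      _ = (Y : ℝ) ^ Δ * ((D + 3 : ℕ) : ℝ) * (Y : ℝ) ^ (ε / 2) := by push_cast; ring
      _ ≤ (Y : ℝ) ^ Δ * (Y : ℝ) ^ Δ * (Y : ℝ) ^ (ε / 2) := by gcongr
      _ = (Y : ℝ) ^ (Δ + Δ + ε / 2) := by
          rw [← Real.rpow_add hY0, ← Real.rpow_add hY0]
      _ ≤ (Y : ℝ) ^ ε := Real.rpow_le_rpow_of_exponent_le hY1 (by linarith)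
  have hn0 : n ≠ 0 := by
    have : D + 3 ≤ n := (le_max_right _ _).trans hn1
    omega
  have hnN : n ∈ Finset.Icc 1 N := by
    rw [Finset.mem_Icc, hN]
    exact ⟨Nat.one_le_iff_ne_zero.2 hn0, Nat.le_floor hn2⟩
  constructor
  · intro F hF P hP Q hQ hr
    by_contra hcon
    push Not at hcon
    apply hr
    refine Finset.mem_insert_of_mem (Finset.mem_biUnion.2 ⟨n, hnN, ?_⟩)
    rw [hU]
    exact Finset.mem_union_left _ (hEs2 n ((le_max_right _ _).trans ((le_max_left _ _).trans hn1)) hn2 _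
      (cfg_s hn0 hF hP hQ hcon))
  · intro G hG hGD hG1 P hP Q hQ hr
    by_contra hcon
    push Not at hcon
    apply hr
    refine Finset.mem_insert_of_mem (Finset.mem_biUnion.2 ⟨n, hnN, ?_⟩)
    rw [hU]
    have he : G.totalDegree ∈ Finset.range (D + 1) := Finset.mem_range.2 (by omega)
    refine Finset.mem_union_right _ (Finset.mem_biUnion.2 ⟨G.totalDegree, he, ?_⟩)
    refine hEc2 n G.totalDegree ((Finset.le_sup (f := Rc) he).trans ((le_max_left _ _).trans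
      ((le_max_left _ _).trans hn1))) hn2 he _ (cfg_c hn0 hG rfl hG1 hP hQ (lt_of_le_of_lt ?_ hcon))
    exact_mod_cast Nat.mul_le_mul (Nat.pow_le_pow_left hGD 2) (Nat.pow_le_pow_left (by omega) 2)

end Pool.Agent.NH8.VF
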