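import Mathlib

/-!
# Small integral solutions of linear systems, up to a common factor
-/

set_option autoImplicit false

namespace Pool.Agent.NH8.WA

open Matrix

/-- If no minor of size `r + 1` is nonzero, every row is a rational combination of the rows `σ`
of a nonzero minor of size `r`. (See also NH58.SmallSol.) -/
theorem row_combination {R C : Type} (A : Matrix R C ℤ) {r : ℕ}
    (hmax : ∀ (σ : Fin (r + 1) → R) (β : Fin (r + 1) → C), (A.submatrix σ β).det = 0)
    (σ : Fin r → R) (β : Fin r → C) (hdet : (A.submatrix σ β).det ≠ 0) (ρ : R) :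
    ∃ w : Fin r → ℚ, ∀ c, (A ρ c : ℚ) = ∑ j, w j * (A (σ j) c : ℚ) := by
  classical
  set Bq : Matrix (Fin r) (Fin r) ℚ := (A.submatrix σ β).map (Int.cast : ℤ → ℚ) with hBq
  have hBdet : Bq.det = ((A.submatrix σ β).det : ℚ) := by
    rw [hBq]; exact (Int.cast_det _).symm
  have hBunit : IsUnit Bq.det := by
    rw [hBdet]; exact isUnit_iff_ne_zero.mpr (by exact_mod_cast hdet)
  have : Invertible Bq := Matrix.invertibleOfIsUnitDet Bq hBunit
  refine ⟨(fun i => (A ρ (β i) : ℚ)) ᵥ* Bq⁻¹, fun c => ?_⟩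
  -- bordered determinant
  have h0 : (Matrix.fromBlocks Bq (Matrix.of fun (i : Fin r) (_ : Unit) => (A (σ i) c : ℚ))
      (Matrix.of fun (_ : Unit) (j : Fin r) => (A ρ (β j) : ℚ))
      (Matrix.of fun (_ : Unit) (_ : Unit) => (A ρ c : ℚ))).det = 0 := by
    have e : Fin r ⊕ Unit ≃ Fin (r + 1) := Fintype.equivFinOfCardEq (by simp)
    have h1 := hmax ((Sum.elim σ (fun _ : Unit => ρ)) ∘ e.symm) ((Sum.elim β (fun _ : Unit => c)) ∘ e.symm)
    have h2 : ((A.submatrix (Sum.elim σ (fun _ : Unit => ρ)) (Sum.elim β (fun _ : Unit => c)))).det = 0 := by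
      rw [← Matrix.det_submatrix_equiv_self e.symm]
      exact h1
    have h3 : (Matrix.fromBlocks Bq (Matrix.of fun (i : Fin r) (_ : Unit) => (A (σ i) c : ℚ))
      (Matrix.of fun (_ : Unit) (j : Fin r) => (A ρ (β j) : ℚ))
      (Matrix.of fun (_ : Unit) (_ : Unit) => (A ρ c : ℚ))) =
        (A.submatrix (Sum.elim σ (fun _ : Unit => ρ)) (Sum.elim β (fun _ : Unit => c))).map
          (Int.cast : ℤ → ℚ) := by
      ext i j
      rcases i with i | i <;> rcases j with j | j <;> simp [Bq]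
    rw [h3, ← Int.cast_det, h2]; simp
  rw [Matrix.det_fromBlocks₁₁] at h0
  have h4 := (mul_eq_zero.mp h0).resolve_left hBunit.ne_zero
  rw [Matrix.det_unique] at h4
  simp only [Matrix.sub_apply, Matrix.of_apply] at h4
  have h5 := sub_eq_zero.mp h4
  rw [h5, Matrix.mul_apply]
  apply Finset.sum_congr rfl
  intro j _
  rw [Matrix.of_apply]
  congr 1
  rw [Matrix.invOf_eq_nonsing_inv]
  rfl

/-- the bound for the minors -/
def Mb (n H : ℕ) : ℕ := n.factorial * H ^ n

theorem det_le {n r H : ℕ} (hr : r ≤ n) (hH : 1 ≤ H) (B : Matrix (Fin r) (Fin r) ℤ)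
    (hB : ∀ i j, |B i j| ≤ (H : ℤ)) : |B.det| ≤ (Mb n H : ℤ) := by
  have h1 := Matrix.det_le (A := B) (abv := AbsoluteValue.abs) (x := (H : ℤ)) hB
  rw [Fintype.card_fin] at h1
  have h2 : |B.det| ≤ ((r.factorial * H ^ r : ℕ) : ℤ) := by
    refine le_trans h1 ?_
    push_cast
    rw [nsmul_eq_mul]
  refine h2.trans ?_
  unfold Mb
  exact_mod_cast Nat.mul_le_mul (Nat.factorial_le hr) (Nat.pow_le_pow_right hH hr)

/-- **Small integral solutions up to a factor.** -/
theorem int_solution {R C : Type} [Fintype C] [DecidableEq C] (A : Matrix R C ℤ) (b : R → ℤ)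
    (H : ℕ) (hH : 1 ≤ H) (hA : ∀ r c, |A r c| ≤ (H : ℤ)) (hb : ∀ r, |b r| ≤ (H : ℤ))
    (x : C → ℚ) (hx : ∀ ρ, ∑ c, (A ρ c : ℚ) * x c = (b ρ : ℚ)) :
    ∃ (D0 : ℤ) (y : C → ℤ), D0 ≠ 0 ∧ |D0| ≤ (Mb (Fintype.card C) H : ℤ) ∧
      (∀ c, |y c| ≤ (Mb (Fintype.card C) H : ℤ)) ∧ ∀ ρ, ∑ c, A ρ c * y c = D0 * b ρ := by
  classical
  have hinj : ∀ (r : ℕ) (σ : Fin r → R) (β : Fin r → C), (A.submatrix σ β).det ≠ 0 →
      Function.Injective β := by
    intro r σ β h i j hij
    by_contra hne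
    apply h
    apply Matrix.det_zero_of_column_eq hne
    intro k
    simp [hij]
  have hle : ∀ (r : ℕ), (∃ (σ : Fin r → R) (β : Fin r → C), (A.submatrix σ β).det ≠ 0) →
      r ≤ Fintype.card C := by
    rintro r ⟨σ, β, h⟩
    simpa using Fintype.card_le_of_injective β (hinj r σ β h)
  set P : ℕ → Prop := fun r => ∃ (σ : Fin r → R) (β : Fin r → C), (A.submatrix σ β).det ≠ 0
    with hP
  have hP0 : P 0 := ⟨Fin.elim0, Fin.elim0, by simp⟩
  obtain ⟨r, hPr, hPr1⟩ : ∃ r, P r ∧ ¬ P (r + 1) := by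
    refine ⟨Nat.findGreatest P (Fintype.card C), Nat.findGreatest_spec (Nat.zero_le _) hP0, ?_⟩
    intro h
    have := Nat.le_findGreatest (hle _ h) h
    omega
  have hmax : ∀ (σ : Fin (r + 1) → R) (β : Fin (r + 1) → C), (A.submatrix σ β).det = 0 := by
    intro σ β
    by_contra h
    exact hPr1 ⟨σ, β, h⟩
  have hrC := hle r hPr
  obtain ⟨σ, β, hdet⟩ := hPr
  have hβ := hinj r σ β hdet
  set B := A.submatrix σ β with hBdef
  -- the integral vector `det B • B⁻¹ b`
  set v : Fin r → ℤ := Matrix.cramer B (fun i => b (σ i)) with hv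
  have hBv : B *ᵥ v = B.det • (fun i => b (σ i)) := Matrix.mulVec_cramer _ _
  have hvb : ∀ i, |v i| ≤ (Mb (Fintype.card C) H : ℤ) := by
    intro i
    rw [hv, Matrix.cramer_apply]
    refine det_le hrC hH _ fun k l => ?_
    by_cases hl : l = i
    · subst hl
      rw [Matrix.updateCol_self]
      exact hb _
    · rw [Matrix.updateCol_ne hl]
      exact hA _ _
  let y : C → ℤ := fun c => if h : ∃ i, β i = c then v h.choose else 0
  have hyβ : ∀ j, y (β j) = v j := by
    intro j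
    have h : ∃ i, β i = β j := ⟨j, rfl⟩
    have : h.choose = j := hβ h.choose_spec
    simp only [y]
    rw [dif_pos h, this]
  have hyN : ∀ c, (¬ ∃ i, β i = c) → y c = 0 := by
    intro c h
    simp only [y]
    rw [dif_neg h]
  have hyσ : ∀ i, ∑ c, A (σ i) c * y c = B.det * b (σ i) := by
    intro i
    have h1 : ∑ c, A (σ i) c * y c = ∑ j, A (σ i) (β j) * y (β j) := by
      rw [← Finset.sum_image (s := Finset.univ) (g := β) (f := fun c => A (σ i) c * y c)
        (fun a _ b _ h => hβ h)]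
      symm
      apply Finset.sum_subset (Finset.subset_univ _)
      intro c _ hc
      rw [hyN c, mul_zero]
      rintro ⟨j, rfl⟩
      exact hc (Finset.mem_image_of_mem _ (Finset.mem_univ j))
    rw [h1]
    have h2 := congrFun hBv i
    simp only [Matrix.mulVec, dotProduct, Pi.smul_apply, smul_eq_mul] at h2
    rw [← h2]
    refine Finset.sum_congr rfl fun j _ => ?_
    rw [hyβ]
    rfl
  refine ⟨B.det, y, hdet, det_le hrC hH _ fun i j => hA _ _, fun c => ?_, fun ρ => ?_⟩
  · by_cases h : ∃ i, β i = c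
    · obtain ⟨i, rfl⟩ := h
      rw [hyβ]
      exact hvb i
    · rw [hyN c h, abs_zero]
      positivity
  · obtain ⟨w, hw⟩ := row_combination A hmax σ β hdet ρ
    have key : ∑ c, (A ρ c : ℚ) * (y c : ℚ) = ∑ j, w j * (∑ c, (A (σ j) c : ℚ) * (y c : ℚ)) := by
      simp only [hw, Finset.sum_mul, Finset.mul_sum]
      rw [Finset.sum_comm]
      refine Finset.sum_congr rfl fun j _ => Finset.sum_congr rfl fun c _ => by ring
    have keyx : ∑ c, (A ρ c : ℚ) * x c = ∑ j, w j * (∑ c, (A (σ j) c : ℚ) * x c) := by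
      simp only [hw, Finset.sum_mul, Finset.mul_sum]
      rw [Finset.sum_comm]
      refine Finset.sum_congr rfl fun j _ => Finset.sum_congr rfl fun c _ => by ring
    simp only [hx] at keyx
    have h6 : ∀ j, ∑ c, (A (σ j) c : ℚ) * (y c : ℚ) = (B.det : ℚ) * (b (σ j) : ℚ) := by
      intro j
      exact_mod_cast hyσ j
    simp only [h6] at key
    have h7 : ∑ c, (A ρ c : ℚ) * (y c : ℚ) = (B.det : ℚ) * (b ρ : ℚ) := by
      rw [key, keyx, Finset.mul_sum]
      exact Finset.sum_congr rfl fun j _ => by ring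
    exact_mod_cast h7

end Pool.Agent.NH8.WA
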