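import Mathlib
import Pool.Agent.NH8.WA
import Pool.Agent.NH8.UE

/-!
# Heights and interpolation
-/

set_option autoImplicit false

namespace Pool.Agent.NH8.WB

open Pool.Agent.NH8.WA Pool.Agent.NH8.UE

theorem ht_mono {A B : ℕ} {q : ℚ} (h : HtLe A q) (hAB : A ≤ B) : HtLe B q :=
  ⟨h.1.trans (by exact_mod_cast hAB), h.2.trans hAB⟩

theorem ht_of_div {a b : ℤ} {B : ℕ} (hb : b ≠ 0) (h1 : |a| ≤ (B : ℤ)) (h2 : |b| ≤ (B : ℤ)) :
    HtLe B ((a : ℚ) / (b : ℚ)) := by
  constructor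
  · by_cases ha : a = 0
    · subst ha
      simp only [Int.cast_zero, zero_div, Rat.num_zero, abs_zero]
      positivity
    · have h3 : ((a : ℚ) / (b : ℚ)).num ∣ a := by
        rw [← Rat.divInt_eq_div]
        exact Rat.num_dvd a hb
      have h4 := Int.le_of_dvd (abs_pos.2 ha) ((abs_dvd_abs _ _).2 h3)
      exact h4.trans h1
  · have h3 : ((((a : ℚ) / (b : ℚ)).den : ℕ) : ℤ) ∣ b := by
      rw [← Rat.divInt_eq_div]
      exact Rat.den_dvd a b
    have h4 := Int.le_of_dvd (abs_pos.2 hb) ((dvd_abs _ _).2 h3)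
    exact_mod_cast h4.trans h2

theorem ht_nd {A : ℕ} {p : ℚ} (h : HtLe A p) : |p.num| ≤ (A : ℤ) ∧ |(p.den : ℤ)| ≤ (A : ℤ) := by
  refine ⟨h.1, ?_⟩
  rw [Nat.abs_cast]
  exact_mod_cast h.2

theorem den_ne (p : ℚ) : ((p.den : ℕ) : ℤ) ≠ 0 := by exact_mod_cast p.den_nz

theorem ht_mul {A B : ℕ} {p q : ℚ} (hp : HtLe A p) (hq : HtLe B q) : HtLe (A * B) (p * q) := by
  have h : p * q = ((p.num * q.num : ℤ) : ℚ) / (((p.den : ℤ) * (q.den : ℤ) : ℤ) : ℚ) := by
    conv_lhs => rw [← Rat.num_div_den p, ← Rat.num_div_den q]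
    push_cast
    rw [div_mul_div_comm]
  rw [h]
  refine ht_of_div (mul_ne_zero (den_ne p) (den_ne q)) ?_ ?_
  · rw [abs_mul]
    push_cast
    exact mul_le_mul (ht_nd hp).1 (ht_nd hq).1 (abs_nonneg _) (by positivity)
  · rw [abs_mul]
    push_cast
    exact mul_le_mul (ht_nd hp).2 (ht_nd hq).2 (abs_nonneg _) (by positivity)

theorem ht_div {A B : ℕ} {p q : ℚ} (hp : HtLe A p) (hq : HtLe B q) (hq0 : q ≠ 0) :
    HtLe (A * B) (p / q) := by
  have hqn : ((q.num : ℤ) : ℚ) ≠ 0 := by exact_mod_cast Rat.num_ne_zero.2 hq0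
  have hqd : ((q.den : ℕ) : ℚ) ≠ 0 := by exact_mod_cast q.den_nz
  have hpd : ((p.den : ℕ) : ℚ) ≠ 0 := by exact_mod_cast p.den_nz
  have h : p / q = ((p.num * (q.den : ℤ) : ℤ) : ℚ) / (((p.den : ℤ) * q.num : ℤ) : ℚ) := by
    conv_lhs => rw [← Rat.num_div_den p, ← Rat.num_div_den q]
    push_cast
    field_simp
  rw [h]
  refine ht_of_div (mul_ne_zero (den_ne p) (Rat.num_ne_zero.2 hq0)) ?_ ?_
  · rw [abs_mul]
    push_cast
    exact mul_le_mul (ht_nd hp).1 (ht_nd hq).2 (abs_nonneg _) (by positivity)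
  · rw [abs_mul]
    push_cast
    exact mul_le_mul (ht_nd hp).2 (ht_nd hq).1 (abs_nonneg _) (by positivity)

theorem ht_sub {A B : ℕ} {p q : ℚ} (hp : HtLe A p) (hq : HtLe B q) :
    HtLe (2 * (A * B)) (p - q) := by
  have hqd : ((q.den : ℕ) : ℚ) ≠ 0 := by exact_mod_cast q.den_nz
  have hpd : ((p.den : ℕ) : ℚ) ≠ 0 := by exact_mod_cast p.den_nz
  have h : p - q = ((p.num * (q.den : ℤ) - q.num * (p.den : ℤ) : ℤ) : ℚ) /
      (((p.den : ℤ) * (q.den : ℤ) : ℤ) : ℚ) := by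
    conv_lhs => rw [← Rat.num_div_den p, ← Rat.num_div_den q]
    push_cast
    field_simp
  rw [h]
  refine ht_of_div (mul_ne_zero (den_ne p) (den_ne q)) ?_ ?_
  · refine (abs_sub _ _).trans ?_
    rw [abs_mul, abs_mul]
    push_cast
    have h1 := mul_le_mul (ht_nd hp).1 (ht_nd hq).2 (abs_nonneg _) (by positivity : (0 : ℤ) ≤ (A : ℤ))
    have h2 := mul_le_mul (ht_nd hq).1 (ht_nd hp).2 (abs_nonneg _) (by positivity : (0 : ℤ) ≤ (B : ℤ))
    nlinarith
  · rw [abs_mul]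
    push_cast
    have h1 := mul_le_mul (ht_nd hp).2 (ht_nd hq).2 (abs_nonneg _) (by positivity : (0 : ℤ) ≤ (A : ℤ))
    nlinarith [abs_nonneg ((p.den : ℤ)), abs_nonneg ((q.den : ℤ)), mul_nonneg (abs_nonneg ((p.den : ℤ))) (abs_nonneg ((q.den : ℤ)))]

theorem ht_one {B : ℕ} (hB : 1 ≤ B) : HtLe B (1 : ℚ) := by
  constructor
  · simpa using hB
  · simpa using hB

theorem ht_zero {B : ℕ} (hB : 1 ≤ B) : HtLe B (0 : ℚ) := by
  constructor
  · simp
  · simpa using hB

theorem ht_prod {ι : Type} {B : ℕ} (s : Finset ι) (f : ι → ℚ)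
    (h : ∀ i ∈ s, HtLe B (f i)) : HtLe (B ^ s.card) (∏ i ∈ s, f i) := by
  classical
  induction s using Finset.induction_on with
  | empty =>
    rw [Finset.card_empty, pow_zero, Finset.prod_empty]
    exact ht_one le_rfl
  | insert a s ha ih =>
    rw [Finset.prod_insert ha, Finset.card_insert_of_notMem ha, pow_succ, mul_comm (B ^ s.card)]
    exact ht_mul (h a (Finset.mem_insert_self _ _))
      (ih fun i hi => h i (Finset.mem_insert_of_mem hi))

/-- clearing denominators -/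
theorem exists_int {m : ℕ} (c : Fin m → ℚ) (B : ℕ) (h : ∀ j, HtLe B (c j)) :
    ∃ (T : ℤ) (a : Fin m → ℤ), T ≠ 0 ∧ (∀ j, ((a j : ℤ) : ℚ) = (T : ℚ) * c j) ∧
      ∀ j, |a j| ≤ ((B ^ m : ℕ) : ℤ) := by
  classical
  refine ⟨∏ i, ((c i).den : ℤ), fun j => (c j).num * ∏ i ∈ Finset.univ.erase j, ((c i).den : ℤ),
    Finset.prod_ne_zero_iff.2 fun i _ => den_ne _, fun j => ?_, fun j => ?_⟩
  · rw [← Finset.mul_prod_erase _ _ (Finset.mem_univ j)]
    push_cast
    have := Rat.mul_den_eq_num (c j)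
    rw [← this]
    ring
  · rw [abs_mul, Finset.abs_prod]
    have h1 : ∏ i ∈ Finset.univ.erase j, |((c i).den : ℤ)| ≤ ((B ^ (m - 1) : ℕ) : ℤ) := by
      calc ∏ i ∈ Finset.univ.erase j, |((c i).den : ℤ)| ≤ ∏ _i ∈ (Finset.univ.erase j : Finset (Fin m)), (B : ℤ) :=
            Finset.prod_le_prod (fun i _ => abs_nonneg _) fun i _ => (ht_nd (h i)).2
        _ = ((B ^ (m - 1) : ℕ) : ℤ) := by
            rw [Finset.prod_const, Finset.card_erase_of_mem (Finset.mem_univ j), Finset.card_univ,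
              Fintype.card_fin]
            push_cast
            rfl
    calc |(c j).num| * ∏ i ∈ Finset.univ.erase j, |((c i).den : ℤ)| ≤
          (B : ℤ) * ((B ^ (m - 1) : ℕ) : ℤ) :=
          mul_le_mul (h j).1 h1 (Finset.prod_nonneg fun i _ => abs_nonneg _) (by positivity)
      _ = ((B ^ m : ℕ) : ℤ) := by
          have : m = (m - 1) + 1 := by
            have := j.2
            omega
          conv_rhs => rw [this, pow_succ]
          push_cast
          ring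

/-! ### Interpolation -/

/-- the value of the Lagrange polynomial -/
noncomputable def lg {D : ℕ} (u : Fin (D + 1) → ℚ) (j : Fin (D + 1)) (z : ℚ) : ℚ :=
  ∏ i ∈ Finset.univ.erase j, (z - u i) / (u j - u i)

theorem lg_eq {D : ℕ} (u : Fin (D + 1) → ℚ) (j : Fin (D + 1)) (z : ℚ) :
    (Lagrange.basis Finset.univ u j).eval z = lg u j z := by
  unfold Lagrange.basis lg
  rw [Polynomial.eval_prod]
  refine Finset.prod_congr rfl fun i _ => ?_
  unfold Lagrange.basisDivisor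
  simp only [Polynomial.eval_mul, Polynomial.eval_C, Polynomial.eval_sub, Polynomial.eval_X]
  rw [div_eq_inv_mul]

theorem lg_ht {D Y : ℕ} (hY : 2 ≤ Y) (u : Fin (D + 1) → ℚ) (hinj : Function.Injective u)
    (hu : ∀ j, HtLe Y (u j)) (j : Fin (D + 1)) {z : ℚ} (hz : HtLe Y z) :
    HtLe (Y ^ (6 * D)) (lg u j z) := by
  have h1 : ∀ p q : ℚ, HtLe Y p → HtLe Y q → HtLe (Y ^ 3) (p - q) := fun p q hp hq =>
    ht_mono (ht_sub hp hq) (by
      calc 2 * (Y * Y) ≤ Y * (Y * Y) := Nat.mul_le_mul_right _ hY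
        _ = Y ^ 3 := by ring)
  have h2 : HtLe ((Y ^ 3 * Y ^ 3) ^ ((Finset.univ : Finset (Fin (D + 1))).erase j).card) (lg u j z) := by
    unfold lg
    refine ht_prod _ _ fun i hi => ht_div (h1 _ _ hz (hu i)) (h1 _ _ (hu j) (hu i)) ?_
    rw [sub_ne_zero]
    exact fun h0 => (Finset.ne_of_mem_erase hi) (hinj h0).symm
  rw [Finset.card_erase_of_mem (Finset.mem_univ j), Finset.card_univ, Fintype.card_fin,
    Nat.add_sub_cancel, ← pow_add, ← pow_mul] at h2
  exact h2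

theorem interp {D : ℕ} (u : Fin (D + 1) → ℚ) (hinj : Function.Injective u)
    (P : Polynomial ℚ) (hP : P.natDegree ≤ D) (z : ℚ) :
    P.eval z = ∑ j, P.eval (u j) * lg u j z := by
  have hdeg : P.degree < ((Finset.univ : Finset (Fin (D + 1))).card : ℕ) := by
    rw [Finset.card_univ, Fintype.card_fin]
    exact lt_of_le_of_lt Polynomial.degree_le_natDegree (by exact_mod_cast Nat.lt_succ_of_le hP)
  have h1 := Lagrange.eq_interpolate (s := Finset.univ) (v := u) (hinj.injOn) hdeg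
  have h2 := congrArg (Polynomial.eval z) h1
  rw [Lagrange.interpolate_apply, Polynomial.eval_finsetSum] at h2
  rw [h2]
  refine Finset.sum_congr rfl fun j _ => ?_
  rw [Polynomial.eval_mul, Polynomial.eval_C, lg_eq]

theorem exists_poly {D : ℕ} (u : Fin (D + 1) → ℚ) (hinj : Function.Injective u)
    (v : Fin (D + 1) → ℚ) : ∃ P : Polynomial ℚ, P.natDegree ≤ D ∧ (∀ j, P.eval (u j) = v j) ∧
      ∀ z, P.eval z = ∑ j, v j * lg u j z := by
  refine ⟨Lagrange.interpolate Finset.univ u v, ?_, fun j => ?_, fun z => ?_⟩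
  · have h1 := Lagrange.degree_interpolate_lt (s := Finset.univ) (v := u) (r := v) (hinj.injOn)
    rw [Finset.card_univ, Fintype.card_fin] at h1
    by_cases h0 : Lagrange.interpolate Finset.univ u v = 0
    · rw [h0, Polynomial.natDegree_zero]
      exact Nat.zero_le _
    · exact Nat.lt_succ_iff.1 ((Polynomial.natDegree_lt_iff_degree_lt h0).2 h1)
  · exact Lagrange.eval_interpolate_at_node v hinj.injOn (Finset.mem_univ j)
  · rw [Lagrange.interpolate_apply, Polynomial.eval_finsetSum]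
    refine Finset.sum_congr rfl fun j _ => ?_
    rw [Polynomial.eval_mul, Polynomial.eval_C, lg_eq]

end Pool.Agent.NH8.WB
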