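import Mathlib
import Pool.Agent.NH8.WB
import Pool.Agent.R323.SE.N

/-!
# Small values and small polynomials
-/

set_option autoImplicit false

namespace Pool.Agent.NH8.WB

open Pool.Agent.NH8.WA Pool.Agent.NH8.UE Pool.Agent.R323.SE

/-- the exponent of the bound for the values -/
def E1 (D : ℕ) : ℕ := (12 * D + 1) * (D + 1)

/-- small values -/
theorem small_mu {m D Y : ℕ} (hY : 2 ≤ Y) (h : D + 1 ≤ m) {ω : Type} (w0 : ω) (x : ω → Fin m → ℚ)
    (hinj : ∀ a, Function.Injective (x a)) (hx : ∀ a j, HtLe Y (x a j)) (v : Fin m → ℚ)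
    (P : ω → Polynomial ℚ) (hP : ∀ a, (P a).natDegree ≤ D) (hv : ∀ a j, (P a).eval (x a j) = v j)
    (i0 i1 : Fin (D + 1)) (hne : v (Fin.castLE h i0) ≠ v (Fin.castLE h i1)) :
    ∃ (μ : Fin m → ℚ) (μ0 : Fin (D + 1) → ℤ), (∀ j, μ (Fin.castLE h j) = ((μ0 j : ℤ) : ℚ)) ∧
      μ0 i0 ≠ μ0 i1 ∧ (∀ j, |μ0 j| ≤ (Mb (D + 1) (Y ^ E1 D) : ℤ)) ∧
      ∀ a, ∃ Q : Polynomial ℚ, Q.natDegree ≤ D ∧ ∀ k, Q.eval (x a k) = μ k := by
  classical
  obtain ⟨u, hu⟩ : ∃ u : ω → Fin (D + 1) → ℚ, ∀ a j, u a j = x a (Fin.castLE h j) :=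
    ⟨_, fun _ _ => rfl⟩
  have huinj : ∀ a, Function.Injective (u a) := by
    intro a i j hij
    rw [hu, hu] at hij
    exact Fin.castLE_injective h (hinj a hij)
  have huht : ∀ a j, HtLe Y (u a j) := fun a j => by rw [hu]; exact hx _ _
  obtain ⟨cc, hcc⟩ : ∃ cc : (ω × ω × Fin m) → Fin (D + 1) → ℚ, ∀ p j, cc p j =
    lg (u p.1) j (x p.1 p.2.2) - lg (u p.2.1) j (x p.2.1 p.2.2) := ⟨_, fun _ _ => rfl⟩
  have hccht : ∀ p j, HtLe (Y ^ (12 * D + 1)) (cc p j) := by
    intro p j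
    rw [hcc]
    refine ht_mono (ht_sub (lg_ht hY _ (huinj _) (huht _) j (hx _ _))
      (lg_ht hY _ (huinj _) (huht _) j (hx _ _))) ?_
    calc 2 * (Y ^ (6 * D) * Y ^ (6 * D)) ≤ Y * (Y ^ (6 * D) * Y ^ (6 * D)) :=
          Nat.mul_le_mul_right _ hY
      _ = Y ^ (12 * D + 1) := by ring
  have hrow : ∀ p : ω × ω × Fin m, ∃ (T : ℤ) (a : Fin (D + 1) → ℤ), T ≠ 0 ∧
      (∀ j, ((a j : ℤ) : ℚ) = (T : ℚ) * cc p j) ∧
      ∀ j, |a j| ≤ (((Y ^ (12 * D + 1)) ^ (D + 1) : ℕ) : ℤ) := fun p =>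
    exists_int _ _ fun j => hccht p j
  choose T a hT ha hab using hrow
  obtain ⟨H, hH⟩ : ∃ H : ℕ, H = Y ^ E1 D := ⟨_, rfl⟩
  have hH' : (Y ^ (12 * D + 1)) ^ (D + 1) = H := by rw [hH, E1, pow_mul]
  rw [hH'] at hab
  have hH1 : 1 ≤ H := by
    rw [hH]
    exact Nat.one_le_pow _ _ (by omega)
  rw [← hH]
  obtain ⟨A, hA⟩ : ∃ A : Matrix (Option (ω × ω × Fin m)) (Fin (D + 1)) ℤ, A = Matrix.of fun r j =>
      r.elim (if j = i0 then 1 else if j = i1 then -1 else 0) (fun p => a p j) := ⟨_, rfl⟩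
  have hAn : ∀ j, A none j = if j = i0 then 1 else if j = i1 then -1 else 0 := fun j => by
    rw [hA]
    rfl
  have hAs : ∀ p j, A (some p) j = a p j := fun p j => by
    rw [hA]
    rfl
  obtain ⟨b, hb⟩ : ∃ b : Option (ω × ω × Fin m) → ℤ, b = fun r => r.elim 1 (fun _ => 0) := ⟨_, rfl⟩
  have hbn : b none = 1 := by rw [hb]; rfl
  have hbs : ∀ p, b (some p) = 0 := fun p => by rw [hb]; rfl
  have hii : i0 ≠ i1 := fun h0 => hne (by rw [h0])
  have hdif : ∀ (K : Type) [CommRing K] (w : Fin (D + 1) → K),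
      ∑ j, ((if j = i0 then (1 : K) else if j = i1 then -1 else 0)) * w j = w i0 - w i1 := by
    intro K _ w
    have h1 : ∀ j, (if j = i0 then (1 : K) else if j = i1 then -1 else 0) * w j =
        (if j = i0 then w j else 0) + (if j = i1 then - w j else 0) := by
      intro j
      by_cases h2 : j = i0
      · have h3 : j ≠ i1 := fun h4 => hii (h2.symm.trans h4)
        rw [if_pos h2, if_pos h2, if_neg h3]
        ring
      · rw [if_neg h2, if_neg h2]
        by_cases h3 : j = i1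
        · rw [if_pos h3, if_pos h3]
          ring
        · rw [if_neg h3, if_neg h3]
          ring
    rw [Finset.sum_congr rfl fun j _ => h1 j, Finset.sum_add_distrib]
    simp
    ring
  obtain ⟨v0, hv0⟩ : ∃ v0 : Fin (D + 1) → ℚ, ∀ j, v0 j = v (Fin.castLE h j) := ⟨_, fun _ => rfl⟩
  rw [← hv0, ← hv0] at hne
  have hval : ∀ w k, ∑ j, v0 j * lg (u w) j (x w k) = v k := by
    intro w k
    rw [← hv w k, interp (u w) (huinj w) (P w) (hP w)]
    refine Finset.sum_congr rfl fun j _ => ?_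
    rw [hv0, hu, hv]
  obtain ⟨D0, y, hD0, -, hy, hAy⟩ := int_solution A b H hH1 (fun r j => by
      rcases r with _ | p
      · rw [hAn]
        have : (1 : ℤ) ≤ (H : ℤ) := by exact_mod_cast hH1
        split_ifs
        · simpa using this
        · simpa using this
        · simp
      · rw [hAs]
        exact hab p j) (fun r => by
      rcases r with _ | p
      · rw [hbn]
        simpa using hH1
      · rw [hbs]
        simp) (fun j => v0 j / (v0 i0 - v0 i1)) (fun r => by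
      rcases r with _ | p
      · rw [hbn]
        have h1 := hdif ℚ (fun j => v0 j / (v0 i0 - v0 i1))
        have h2 : v0 i0 / (v0 i0 - v0 i1) - v0 i1 / (v0 i0 - v0 i1) = 1 := by
          rw [← sub_div]
          exact div_self (sub_ne_zero.2 hne)
        rw [h2] at h1
        rw [Int.cast_one, ← h1]
        refine Finset.sum_congr rfl fun j _ => ?_
        rw [hAn]
        congr 1
        split_ifs <;> simp
      · rw [hbs, Int.cast_zero]
        have h2 : ∑ j, ((A (some p) j : ℤ) : ℚ) * (v0 j / (v0 i0 - v0 i1)) =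
            (T p : ℚ) / (v0 i0 - v0 i1) * (∑ j, v0 j * lg (u p.1) j (x p.1 p.2.2) -
              ∑ j, v0 j * lg (u p.2.1) j (x p.2.1 p.2.2)) := by
          rw [← Finset.sum_sub_distrib, Finset.mul_sum]
          refine Finset.sum_congr rfl fun j _ => ?_
          rw [hAs, ha, hcc]
          ring
        rw [h2, hval, hval, sub_self, mul_zero])
  rw [Fintype.card_fin] at hy
  have heq : ∀ w w' k, ∑ j, ((y j : ℤ) : ℚ) * lg (u w) j (x w k) =
      ∑ j, ((y j : ℤ) : ℚ) * lg (u w') j (x w' k) := by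
    intro w w' k
    have h1 := hAy (some (w, w', k))
    rw [hbs, mul_zero] at h1
    have h2 : (T (w, w', k) : ℚ) * (∑ j, ((y j : ℤ) : ℚ) * lg (u w) j (x w k) -
        ∑ j, ((y j : ℤ) : ℚ) * lg (u w') j (x w' k)) = 0 := by
      have h3 : ((∑ j, A (some (w, w', k)) j * y j : ℤ) : ℚ) = 0 := by rw [h1, Int.cast_zero]
      rw [← h3, ← Finset.sum_sub_distrib, Finset.mul_sum]
      push_cast
      refine Finset.sum_congr rfl fun j _ => ?_
      rw [hAs, ha, hcc]
      ring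
    rcases mul_eq_zero.1 h2 with h3 | h3
    · exact absurd (by exact_mod_cast h3) (hT (w, w', k))
    · exact sub_eq_zero.1 h3
  refine ⟨fun k => ∑ j, ((y j : ℤ) : ℚ) * lg (u w0) j (x w0 k), y, fun j => ?_, ?_, hy, fun w => ?_⟩
  · obtain ⟨Q, -, hQ1, hQ2⟩ := exists_poly (u w0) (huinj w0) (fun j => ((y j : ℤ) : ℚ))
    show ∑ i, ((y i : ℤ) : ℚ) * lg (u w0) i (x w0 (Fin.castLE h j)) = _
    rw [← hQ2, ← hu, hQ1]
  · have h1 := hAy none
    rw [hbn, mul_one] at h1
    have h2 := hdif ℤ y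
    have h3 : ∑ j, A none j * y j = y i0 - y i1 := by
      rw [← h2]
      exact Finset.sum_congr rfl fun j _ => by rw [hAn]
    rw [h3] at h1
    intro h4
    apply hD0
    rw [← h1, h4, sub_self]
  · obtain ⟨Q, hQ0, -, hQ2⟩ := exists_poly (u w) (huinj w) (fun j => ((y j : ℤ) : ℚ))
    exact ⟨Q, hQ0, fun k => by rw [hQ2]; exact heq w w0 k⟩

theorem pol_snoc {d : ℕ} (y : Fin (d + 1) → ℤ) (D0 : ℤ) :
    pol (Fin.snoc (α := fun _ => ℤ) y D0) = ∑ k : Fin (d + 1),
      Polynomial.C ((y k : ℚ) / (D0 : ℚ)) * Polynomial.X ^ (k : ℕ) := by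
  unfold pol
  refine Finset.sum_congr rfl fun k _ => ?_
  rw [Fin.snoc_castSucc, Fin.snoc_last]

/-- small polynomials -/
theorem small_poly {m Y M d : ℕ} (hY : 1 ≤ Y) (hM : 1 ≤ M) (hd : d < m) (x : Fin m → ℚ)
    (hinj : Function.Injective x) (hx : ∀ j, HtLe Y (x j)) (μ : Fin m → ℤ)
    (hμ : ∀ j, |μ j| ≤ (M : ℤ)) (Q : Polynomial ℚ) (hQ : Q.natDegree = d) (hQ0 : Q ≠ 0)
    (hQx : ∀ j, Q.eval (x j) = ((μ j : ℤ) : ℚ)) :
    ∃ t : Fin (d + 2) → ℤ, pol t = Q ∧ (∀ j, |t j| ≤ (Mb (d + 1) (Y ^ d * M) : ℤ)) ∧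
      t (Fin.last d).castSucc ≠ 0 ∧ t (Fin.last (d + 1)) ≠ 0 := by
  classical
  obtain ⟨D0, y, hD0, hD0b, hy, hAy⟩ := int_solution (R := Fin m) (C := Fin (d + 1))
    (Matrix.of fun j k => (x j).num ^ (k : ℕ) * ((x j).den : ℤ) ^ (d - (k : ℕ)))
    (fun j => μ j * ((x j).den : ℤ) ^ d) (Y ^ d * M)
    (Nat.mul_pos (Nat.one_le_pow _ _ (by omega)) hM) (fun j k => by
      rw [Matrix.of_apply, abs_mul, abs_pow, abs_pow]
      have hk : (k : ℕ) ≤ d := by
        have := k.2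
        omega
      have h1 : |(x j).num| ^ (k : ℕ) * |((x j).den : ℤ)| ^ (d - (k : ℕ)) ≤
          (Y : ℤ) ^ (k : ℕ) * (Y : ℤ) ^ (d - (k : ℕ)) :=
        mul_le_mul (pow_le_pow_left₀ (abs_nonneg _) (hx j).1 _)
          (pow_le_pow_left₀ (abs_nonneg _) (ht_nd (hx j)).2 _) (by positivity) (by positivity)
      rw [← pow_add, Nat.add_sub_cancel' hk] at h1
      refine h1.trans ?_
      have h2 : (1 : ℤ) ≤ (M : ℤ) := by exact_mod_cast hM
      have h3 : (0 : ℤ) ≤ (Y : ℤ) ^ d := by positivity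
      push_cast
      nlinarith) (fun j => by
      rw [abs_mul, abs_pow]
      push_cast
      rw [mul_comm]
      exact mul_le_mul (pow_le_pow_left₀ (abs_nonneg _) (ht_nd (hx j)).2 _) (hμ j) (abs_nonneg _)
        (by positivity)) (fun k => Q.coeff k) (fun j => by
      have h1 := hQx j
      rw [Polynomial.eval_eq_sum_range' (n := d + 1) (by omega), Finset.sum_range] at h1
      have h2 : ∑ k : Fin (d + 1), (((Matrix.of fun (j : Fin m) (k : Fin (d + 1)) => (x j).num ^ (k : ℕ) *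
          ((x j).den : ℤ) ^ (d - (k : ℕ))) j k : ℤ) : ℚ) * Q.coeff k =
          ((x j).den : ℚ) ^ d * ∑ k : Fin (d + 1), Q.coeff k * x j ^ (k : ℕ) := by
        rw [Finset.mul_sum]
        refine Finset.sum_congr rfl fun k _ => ?_
        rw [Matrix.of_apply]
        push_cast
        have hk : (k : ℕ) ≤ d := by
          have := k.2
          omega
        have h3 : ((x j).num : ℚ) ^ (k : ℕ) * ((x j).den : ℚ) ^ (d - (k : ℕ)) =
            ((x j).den : ℚ) ^ d * x j ^ (k : ℕ) := by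
          have h4 : ((x j).num : ℚ) = x j * ((x j).den : ℚ) := (Rat.mul_den_eq_num (x j)).symm
          have h5 : ((x j).den : ℚ) ^ d = ((x j).den : ℚ) ^ (k : ℕ) * ((x j).den : ℚ) ^ (d - (k : ℕ)) := by
            rw [← pow_add, Nat.add_sub_cancel' hk]
          rw [h4, mul_pow, h5]
          ring
        rw [h3]
        ring
      rw [h2, h1]
      push_cast
      ring)
  rw [Fintype.card_fin] at hD0b hy
  have hD0q : (D0 : ℚ) ≠ 0 := by exact_mod_cast hD0
  have hpol : pol (Fin.snoc (α := fun _ => ℤ) y D0) = Q := by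
    rw [← sub_eq_zero]
    refine Polynomial.eq_zero_of_natDegree_lt_card_of_eval_eq_zero _ hinj (fun j => ?_) ?_
    · rw [Polynomial.eval_sub, hQx, pol_snoc, Polynomial.eval_finsetSum, sub_eq_zero]
      have h1 := hAy j
      have hden : ((x j).den : ℚ) ≠ 0 := by exact_mod_cast (x j).den_nz
      have h2 : ((∑ k : Fin (d + 1), (Matrix.of fun (j : Fin m) (k : Fin (d + 1)) =>
          (x j).num ^ (k : ℕ) * ((x j).den : ℤ) ^ (d - (k : ℕ))) j k * y k : ℤ) : ℚ) =
          ((D0 * (μ j * ((x j).den : ℤ) ^ d) : ℤ) : ℚ) := by rw [h1]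
      have h3 : ((∑ k : Fin (d + 1), (Matrix.of fun (j : Fin m) (k : Fin (d + 1)) =>
          (x j).num ^ (k : ℕ) * ((x j).den : ℤ) ^ (d - (k : ℕ))) j k * y k : ℤ) : ℚ) =
          ((x j).den : ℚ) ^ d * ∑ k : Fin (d + 1), (y k : ℚ) * x j ^ (k : ℕ) := by
        rw [Int.cast_sum, Finset.mul_sum]
        refine Finset.sum_congr rfl fun k _ => ?_
        rw [Matrix.of_apply]
        push_cast
        have hk : (k : ℕ) ≤ d := by
          have := k.2
          omega
        have h4 : ((x j).num : ℚ) = x j * ((x j).den : ℚ) := (Rat.mul_den_eq_num (x j)).symm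
        have h5 : ((x j).den : ℚ) ^ d = ((x j).den : ℚ) ^ (k : ℕ) * ((x j).den : ℚ) ^ (d - (k : ℕ)) := by
          rw [← pow_add, Nat.add_sub_cancel' hk]
        rw [h4, mul_pow, h5]
        ring
      rw [h3] at h2
      push_cast at h2
      have h4 : ∑ k : Fin (d + 1), (y k : ℚ) * x j ^ (k : ℕ) = D0 * μ j := by
        have h5 : ((x j).den : ℚ) ^ d ≠ 0 := pow_ne_zero _ hden
        apply mul_left_cancel₀ h5
        rw [h2]
        ring
      have h5 : ∑ k : Fin (d + 1), (Polynomial.C ((y k : ℚ) / (D0 : ℚ)) *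
          Polynomial.X ^ (k : ℕ) : Polynomial ℚ).eval (x j) =
          (∑ k : Fin (d + 1), (y k : ℚ) * x j ^ (k : ℕ)) / D0 := by
        rw [Finset.sum_div]
        refine Finset.sum_congr rfl fun k _ => ?_
        rw [Polynomial.eval_mul, Polynomial.eval_C, Polynomial.eval_pow, Polynomial.eval_X]
        ring
      rw [h5, h4]
      field_simp
    · rw [Fintype.card_fin]
      refine lt_of_le_of_lt (Polynomial.natDegree_sub_le _ _) ?_
      rw [hQ]
      exact max_lt (lt_of_le_of_lt (pol_natDegree _) hd) hd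
  refine ⟨Fin.snoc (α := fun _ => ℤ) y D0, hpol, fun j => ?_, ?_, ?_⟩
  · refine Fin.lastCases ?_ (fun j => ?_) j
    · rw [Fin.snoc_last]
      exact hD0b
    · rw [Fin.snoc_castSucc]
      exact hy j
  · rw [Fin.snoc_castSucc]
    intro h0
    have h1 : Q.coeff d = 0 := by
      rw [← hpol, pol_snoc, Polynomial.finsetSum_coeff]
      rw [Finset.sum_eq_single (Fin.last d)]
      · rw [h0]
        simp
      · intro k _ hk
        rw [Polynomial.coeff_C_mul, Polynomial.coeff_X_pow, if_neg, mul_zero]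
        intro h2
        exact hk (Fin.ext h2.symm)
      · intro h2
        exact absurd (Finset.mem_univ _) h2
    rw [← hQ] at h1
    exact hQ0 (Polynomial.leadingCoeff_eq_zero.1 h1)
  · rw [Fin.snoc_last]
    exact hD0

end Pool.Agent.NH8.WB
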