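import Mathlib
import Pool.Agent.NH8.WC

/-!
# Few polynomials with proportional values
-/

set_option autoImplicit false

namespace Pool.Agent.NH8.WB

open Pool.Agent.NH8.WA Pool.Agent.NH8.UE Pool.Agent.R323.SE

/-- isomorphism of superelliptic curves -/
def Iso (n : ℕ) (F G : Polynomial ℚ) : Prop :=
  ∃ a b c : ℚ, a ≠ 0 ∧ c ≠ 0 ∧
    G = Polynomial.C (c ^ n) * F.comp (Polynomial.C a * Polynomial.X + Polynomial.C b)

theorem aff_refl (f : Polynomial ℚ) : Aff f f :=
  ⟨1, 0, one_ne_zero, by simp⟩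

theorem aff_symm {f g : Polynomial ℚ} (h : Aff f g) : Aff g f := by
  obtain ⟨a, b, ha, hg⟩ := h
  refine ⟨a⁻¹, -(b / a), inv_ne_zero ha, ?_⟩
  rw [hg, Polynomial.comp_assoc]
  have h1 : (Polynomial.C a * Polynomial.X + Polynomial.C b : Polynomial ℚ).comp
      (Polynomial.C a⁻¹ * Polynomial.X + Polynomial.C (-(b / a))) = Polynomial.X := by
    simp only [Polynomial.add_comp, Polynomial.mul_comp, Polynomial.C_comp, Polynomial.X_comp]
    rw [mul_add, ← mul_assoc, ← Polynomial.C_mul, ← Polynomial.C_mul, mul_inv_cancel₀ ha,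
      Polynomial.C_1, one_mul, add_assoc, ← Polynomial.C_add]
    have : a * -(b / a) + b = 0 := by field_simp; ring
    rw [this, Polynomial.C_0, add_zero]
  rw [h1, Polynomial.comp_X]

/-- the number of polynomials with an affinely equivalent auxiliary polynomial -/
theorem fiber {D m n : ℕ} (h : D + 1 ≤ m) (v : Fin m → ℚ) (S : Finset (Polynomial ℚ))
    (x : Polynomial ℚ → Fin m → ℚ) (c : Polynomial ℚ → ℚ)
    (hS : ∀ F ∈ S, F.natDegree ≤ D ∧ Function.Injective (x F) ∧ c F ≠ 0 ∧
      ∀ j, F.eval (x F j) = (c F) ^ n * v j)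
    (hI : ∀ F ∈ S, ∀ G ∈ S, F ≠ G → ¬ Iso n F G) (μ : Fin m → ℚ) (Q : Polynomial ℚ → Polynomial ℚ)
    (hQ : ∀ F ∈ S, ∀ k, (Q F).eval (x F k) = μ k) (q : Polynomial ℚ) (hq : q.natDegree ≤ D)
    (hq1 : 1 ≤ q.natDegree) (hA : ∀ F ∈ S, Aff q (Q F)) : S.card ≤ D ^ (D + 1) := by
  classical
  choose! a b ha hab using hA
  obtain ⟨W, hW⟩ : ∃ W : Finset (Fin (D + 1) → ℚ), W = Fintype.piFinset fun j : Fin (D + 1) =>
      (q - Polynomial.C (μ (Fin.castLE h j))).roots.toFinset := ⟨_, rfl⟩
  have hne : ∀ z : ℚ, q - Polynomial.C z ≠ 0 := by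
    intro z h0
    have h1 : q = Polynomial.C z := sub_eq_zero.1 h0
    rw [h1, Polynomial.natDegree_C] at hq1
    omega
  have hWc : W.card ≤ D ^ (D + 1) := by
    rw [hW, Fintype.card_piFinset]
    calc ∏ j : Fin (D + 1), ((q - Polynomial.C (μ (Fin.castLE h j))).roots.toFinset).card ≤
          ∏ _j : Fin (D + 1), D := by
          refine Finset.prod_le_prod (fun _ _ => Nat.zero_le _) fun j _ => ?_
          refine (Multiset.toFinset_card_le _).trans ((Polynomial.card_roots' _).trans ?_)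
          refine (Polynomial.natDegree_sub_le _ _).trans (max_le hq ?_)
          rw [Polynomial.natDegree_C]
          exact Nat.zero_le _
      _ = D ^ (D + 1) := by rw [Finset.prod_const, Finset.card_univ, Fintype.card_fin]
  refine le_trans ?_ hWc
  refine Finset.card_le_card_of_injOn
    (fun G => fun j : Fin (D + 1) => a G * x G (Fin.castLE h j) + b G) ?_ ?_
  · intro G hG
    rw [hW, Finset.mem_coe, Fintype.mem_piFinset]
    intro j
    rw [Multiset.mem_toFinset, Polynomial.mem_roots (hne _), Polynomial.IsRoot.def,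
      Polynomial.eval_sub, Polynomial.eval_C, sub_eq_zero, ← hQ G hG, hab G hG]
    simp
  · intro G hG G' hG' hGG
    by_contra hne'
    rw [Finset.mem_coe] at hG hG'
    obtain ⟨g1, g2, g3, g4⟩ := hS G hG
    obtain ⟨g1', g2', g3', g4'⟩ := hS G' hG'
    have ha1 := ha G hG
    have ha2 := ha G' hG'
    apply hI G' hG' G hG (Ne.symm hne')
    refine ⟨a G / a G', (b G - b G') / a G', c G / c G', div_ne_zero ha1 ha2,
      div_ne_zero g3 g3', ?_⟩
    rw [← sub_eq_zero]
    refine Polynomial.eq_zero_of_natDegree_lt_card_of_eval_eq_zero _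
      (f := fun j : Fin (D + 1) => x G (Fin.castLE h j)) ?_ (fun j => ?_) ?_
    · intro i j hij
      exact Fin.castLE_injective h (g2 hij)
    · have h1 : a G * x G (Fin.castLE h j) + b G = a G' * x G' (Fin.castLE h j) + b G' :=
        congrFun hGG j
      have h2 : a G / a G' * x G (Fin.castLE h j) + (b G - b G') / a G' = x G' (Fin.castLE h j) := by
        field_simp
        linarith
      simp only [Polynomial.eval_sub, Polynomial.eval_mul, Polynomial.eval_C, Polynomial.eval_comp,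
        Polynomial.eval_add, Polynomial.eval_X]
      rw [h2, g4, g4', div_pow]
      field_simp
      ring
    · rw [Fintype.card_fin]
      refine lt_of_le_of_lt (Polynomial.natDegree_sub_le _ _) (max_lt (by omega) ?_)
      refine lt_of_le_of_lt (Polynomial.natDegree_C_mul_le _ _) ?_
      refine lt_of_le_of_lt Polynomial.natDegree_comp_le ?_
      have h1 : (Polynomial.C (a G / a G') * Polynomial.X +
          Polynomial.C ((b G - b G') / a G') : Polynomial ℚ).natDegree ≤ 1 :=
        Polynomial.natDegree_linear_le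
      calc G'.natDegree * _ ≤ G'.natDegree * 1 := Nat.mul_le_mul_left _ h1
        _ < D + 1 := by omega

/-- the exponent for the height of the auxiliary polynomials -/
def E2 (D : ℕ) : ℕ := 1 + (D + (E1 D * (D + 1) + 1)) * (D + 1)

theorem E2_bound {D d Y : ℕ} (hd : d ≤ D) (hY : (D + 1).factorial ≤ Y) :
    Mb (d + 1) (Y ^ d * Mb (D + 1) (Y ^ E1 D)) ≤ Y ^ E2 D := by
  have hY1 : 1 ≤ Y := le_trans (Nat.one_le_iff_ne_zero.2 (Nat.factorial_ne_zero _)) hY
  have h1 : Mb (D + 1) (Y ^ E1 D) ≤ Y ^ (E1 D * (D + 1) + 1) := by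
    unfold Mb
    rw [← pow_mul, pow_succ, mul_comm]
    exact Nat.mul_le_mul_left _ hY
  have h2 : Y ^ d * Mb (D + 1) (Y ^ E1 D) ≤ Y ^ (D + (E1 D * (D + 1) + 1)) := by
    rw [pow_add]
    exact Nat.mul_le_mul (Nat.pow_le_pow_right hY1 hd) h1
  unfold E2
  rw [pow_add, pow_one, pow_mul]
  unfold Mb at h2 ⊢
  refine Nat.mul_le_mul ((Nat.factorial_le (by omega)).trans hY) ?_
  refine (Nat.pow_le_pow_left h2 _).trans ?_
  exact Nat.pow_le_pow_right (Nat.one_le_pow _ _ (by omega)) (by omega)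

end Pool.Agent.NH8.WB
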