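import Mathlib
import Pool.Agent.NH8.WD

/-!
# Few polynomials with proportional values: the theorem
-/

set_option autoImplicit false

namespace Pool.Agent.NH8.WB

open Pool.Agent.NH8.WA Pool.Agent.NH8.UE Pool.Agent.R323.SE

/-- a maximal subset of pairwise unrelated elements -/
theorem exists_rep {α : Type} (S : Finset α) (r : α → α → Prop) (hr : ∀ a, r a a)
    (hs : ∀ a b, r a b → r b a) :
    ∃ S0 ⊆ S, (∀ a ∈ S0, ∀ b ∈ S0, a ≠ b → ¬ r a b) ∧ ∀ b ∈ S, ∃ a ∈ S0, r a b := by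
  classical
  obtain ⟨P, hP⟩ : ∃ P : Finset α → Prop, ∀ T, P T ↔ ∀ a ∈ T, ∀ b ∈ T, a ≠ b → ¬ r a b :=
    ⟨_, fun _ => Iff.rfl⟩
  obtain ⟨S0, h0, hmax⟩ := Finset.exists_max_image (S.powerset.filter P) Finset.card
    ⟨∅, Finset.mem_filter.2 ⟨Finset.mem_powerset.2 (Finset.empty_subset _), (hP _).2 (by simp)⟩⟩
  rw [Finset.mem_filter, Finset.mem_powerset, hP] at h0
  refine ⟨S0, h0.1, h0.2, fun b hb => ?_⟩
  by_cases hb0 : b ∈ S0
  · exact ⟨b, hb0, hr b⟩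
  by_contra hcon
  push Not at hcon
  have h1 := hmax (insert b S0) (Finset.mem_filter.2
    ⟨Finset.mem_powerset.2 (Finset.insert_subset hb h0.1), (hP _).2 (fun a ha a' ha' hne => by
      rw [Finset.mem_insert] at ha ha'
      rcases ha with h2 | h2
      · rcases ha' with h3 | h3
        · exact absurd (h2.trans h3.symm) hne
        · rw [h2]
          exact fun h => hcon a' h3 (hs _ _ h)
      · rcases ha' with h3 | h3
        · rw [h3]
          exact fun h => hcon a h2 h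
        · exact h0.2 a h2 a' h3 hne)⟩)
  rw [Finset.card_insert_of_notMem hb0] at h1
  omega

theorem exists_low (f : ℕ → ℝ) (hf : ∀ d, 0 < f d) (D : ℕ) : ∃ δ : ℝ, 0 < δ ∧ ∀ d < D, δ ≤ f d := by
  induction D with
  | zero => exact ⟨1, one_pos, fun d hd => absurd hd (Nat.not_lt_zero _)⟩
  | succ D ih =>
    obtain ⟨δ, h1, h2⟩ := ih
    refine ⟨min δ (f D), lt_min h1 (hf D), fun d hd => ?_⟩
    rcases Nat.lt_succ_iff_lt_or_eq.1 hd with h | rfl
    · exact (min_le_left _ _).trans (h2 d h)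
    · exact min_le_right _ _

theorem Mb_pos (k H : ℕ) (hH : 1 ≤ H) : 1 ≤ Mb k H := by
  unfold Mb
  exact Nat.mul_pos (Nat.factorial_pos _) (Nat.one_le_pow _ _ (by omega))

theorem E2_pos (D : ℕ) : 1 ≤ E2 D := by
  unfold E2
  omega

/-- the auxiliary polynomials of a given degree -/
theorem one_degree {D d : ℕ} (hd1 : 1 ≤ d) (hdD : d ≤ D) {ε δ C : ℝ} {N : ℕ} (hδ : 0 ≤ δ)
    (hsv : ∀ Y : ℕ, 1 ≤ Y → ∀ V : Finset ℚ, (V.card : ℝ) ≤ (Y : ℝ) ^ δ →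
      ∀ S : Finset (Fin (d + 2) → ℤ),
      (∀ t ∈ S, (∀ j, |t j| ≤ (Y : ℤ)) ∧ t (Fin.last d).castSucc ≠ 0 ∧
        t (Fin.last (d + 1)) ≠ 0 ∧ Many N Y V (pol t)) →
      (∀ t ∈ S, ∀ t' ∈ S, t ≠ t' → ¬ Aff (pol t) (pol t')) →
      (S.card : ℝ) ≤ C * (Y : ℝ) ^ (ε / (E2 D : ℝ)))
    {m Y n : ℕ} (hm : D + 1 ≤ m) (hN : N < m) (hmY : (m : ℝ) ≤ (Y : ℝ) ^ δ)
    (hY : (D + 1).factorial ≤ Y) (v : Fin m → ℚ) (S : Finset (Polynomial ℚ))
    (x : Polynomial ℚ → Fin m → ℚ) (c : Polynomial ℚ → ℚ)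
    (hS : ∀ F ∈ S, F.natDegree ≤ D ∧ Function.Injective (x F) ∧ c F ≠ 0 ∧
      ∀ j, F.eval (x F j) = (c F) ^ n * v j)
    (hx : ∀ F ∈ S, ∀ j, HtLe Y (x F j))
    (hI : ∀ F ∈ S, ∀ G ∈ S, F ≠ G → ¬ Iso n F G) (μ : Fin m → ℚ) (μ0 : Fin (D + 1) → ℤ)
    (hμ : ∀ j, μ (Fin.castLE hm j) = ((μ0 j : ℤ) : ℚ))
    (hμ0 : ∀ j, |μ0 j| ≤ (Mb (D + 1) (Y ^ E1 D) : ℤ))
    (Q : Polynomial ℚ → Polynomial ℚ) (hQd : ∀ F ∈ S, (Q F).natDegree = d)
    (hQ : ∀ F ∈ S, ∀ k, (Q F).eval (x F k) = μ k) :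
    (S.card : ℝ) ≤ C * (Y : ℝ) ^ ε * (D : ℝ) ^ (D + 1) := by
  classical
  have hY1 : 1 ≤ Y := le_trans (Nat.one_le_iff_ne_zero.2 (Nat.factorial_ne_zero _)) hY
  have hYR : (1 : ℝ) ≤ (Y : ℝ) := by exact_mod_cast hY1
  have hQ0 : ∀ F ∈ S, Q F ≠ 0 := by
    intro F hF h0
    have := hQd F hF
    rw [h0, Polynomial.natDegree_zero] at this
    omega
  obtain ⟨S0, hS0, hS1, hS2⟩ := exists_rep S (fun F G => Aff (Q F) (Q G)) (fun F => aff_refl _)
    (fun F G h => aff_symm h)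
  have ht : ∀ F ∈ S, ∃ t : Fin (d + 2) → ℤ, pol t = Q F ∧
      (∀ j, |t j| ≤ (Mb (d + 1) (Y ^ d * Mb (D + 1) (Y ^ E1 D)) : ℤ)) ∧
      t (Fin.last d).castSucc ≠ 0 ∧ t (Fin.last (d + 1)) ≠ 0 := by
    intro F hF
    refine small_poly hY1 (Mb_pos _ _ (Nat.one_le_pow _ _ (by omega))) (by omega : d < D + 1)
      (fun j => x F (Fin.castLE hm j)) ?_ (fun j => hx F hF _) μ0 hμ0 (Q F) (hQd F hF) (hQ0 F hF)
      (fun j => by rw [hQ F hF, hμ])
    intro i j hij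
    exact Fin.castLE_injective hm ((hS F hF).2.1 hij)
  choose! t ht1 ht2 ht3 ht4 using ht
  have hZ1 : 1 ≤ Y ^ E2 D := Nat.one_le_pow _ _ (by omega)
  have hYZ : Y ≤ Y ^ E2 D := Nat.le_self_pow (by have := E2_pos D; omega) Y
  have hb : Mb (d + 1) (Y ^ d * Mb (D + 1) (Y ^ E1 D)) ≤ Y ^ E2 D := E2_bound hdD hY
  have hcard : ((Finset.univ.image μ).card : ℝ) ≤ ((Y ^ E2 D : ℕ) : ℝ) ^ δ := by
    have h1 : (Finset.univ.image μ).card ≤ m := by
      refine Finset.card_image_le.trans ?_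
      rw [Finset.card_univ, Fintype.card_fin]
    calc ((Finset.univ.image μ).card : ℝ) ≤ (m : ℝ) := by exact_mod_cast h1
      _ ≤ (Y : ℝ) ^ δ := hmY
      _ ≤ ((Y ^ E2 D : ℕ) : ℝ) ^ δ :=
        Real.rpow_le_rpow (by linarith) (by exact_mod_cast hYZ) hδ
  have hinj : Set.InjOn t (S0 : Set (Polynomial ℚ)) := by
    intro F hF G hG h
    by_contra hne
    refine hS1 F hF G hG hne ?_
    rw [← ht1 F (hS0 hF), ← ht1 G (hS0 hG), h]
    exact aff_refl _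
  have h1 := hsv (Y ^ E2 D) hZ1 (Finset.univ.image μ) hcard (S0.image t) (fun s hs => by
    obtain ⟨F, hF, rfl⟩ := Finset.mem_image.1 hs
    have hFS := hS0 hF
    refine ⟨fun j => (ht2 F hFS j).trans (by exact_mod_cast hb), ht3 F hFS, ht4 F hFS,
      Finset.univ.image (x F), ?_, fun z hz => ?_⟩
    · rw [Finset.card_image_of_injective _ (hS F hFS).2.1, Finset.card_univ, Fintype.card_fin]
      exact hN
    · obtain ⟨j, -, rfl⟩ := Finset.mem_image.1 hz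
      have h2 := hx F hFS j
      refine ⟨h2.1.trans (by exact_mod_cast hYZ), by exact_mod_cast h2.2.trans hYZ, ?_⟩
      rw [ht1 F hFS, hQ F hFS]
      exact Finset.mem_image_of_mem _ (Finset.mem_univ _)) (fun s hs s' hs' hne => by
    obtain ⟨F, hF, rfl⟩ := Finset.mem_image.1 hs
    obtain ⟨G, hG, rfl⟩ := Finset.mem_image.1 hs'
    rw [ht1 F (hS0 hF), ht1 G (hS0 hG)]
    exact hS1 F hF G hG fun h => hne (by rw [h]))
  rw [Finset.card_image_of_injOn hinj] at h1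
  have h2 : S.card ≤ S0.card * D ^ (D + 1) := by
    have h3 : S ⊆ S0.biUnion fun F => S.filter fun G => Aff (Q F) (Q G) := by
      intro G hG
      obtain ⟨F, hF, hFG⟩ := hS2 G hG
      exact Finset.mem_biUnion.2 ⟨F, hF, Finset.mem_filter.2 ⟨hG, hFG⟩⟩
    refine (Finset.card_le_card h3).trans (Finset.card_biUnion_le_card_mul _ _ _ fun F hF => ?_)
    have hFS := hS0 hF
    refine fiber hm v (S.filter fun G => Aff (Q F) (Q G)) x c
      (fun G hG => hS G (Finset.mem_filter.1 hG).1)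
      (fun G hG G' hG' => hI G (Finset.mem_filter.1 hG).1 G' (Finset.mem_filter.1 hG').1) μ Q
      (fun G hG => hQ G (Finset.mem_filter.1 hG).1) (Q F) ?_ ?_
      (fun G hG => (Finset.mem_filter.1 hG).2)
    · rw [hQd F hFS]
      exact hdD
    · rw [hQd F hFS]
      exact hd1
  have h3 : (((Y ^ E2 D : ℕ) : ℝ)) ^ (ε / (E2 D : ℝ)) = (Y : ℝ) ^ ε := by
    have h4 : ((E2 D : ℕ) : ℝ) ≠ 0 := by
      have := E2_pos D
      positivity
    push_cast
    rw [← Real.rpow_natCast, ← Real.rpow_mul (by linarith)]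
    congr 1
    field_simp
  rw [h3] at h1
  calc (S.card : ℝ) ≤ (S0.card : ℝ) * (D : ℝ) ^ (D + 1) := by exact_mod_cast h2
    _ ≤ C * (Y : ℝ) ^ ε * (D : ℝ) ^ (D + 1) := mul_le_mul_of_nonneg_right h1 (by positivity)

/-- **Few polynomials with proportional values.** -/
theorem few_common (D : ℕ) (ε : ℝ) (hε : 0 < ε) : ∃ (m0 : ℕ) (δ : ℝ) (K : ℕ), D + 1 ≤ m0 ∧ 0 < δ ∧
    ∀ m, m0 ≤ m → ∀ Y : ℕ, K ≤ Y → (m : ℝ) ≤ (Y : ℝ) ^ δ → ∀ (n : ℕ) (v : Fin m → ℚ)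
    (S : Finset (Polynomial ℚ)) (x : Polynomial ℚ → Fin m → ℚ) (c : Polynomial ℚ → ℚ),
    (∀ F ∈ S, 1 ≤ F.natDegree ∧ F.natDegree ≤ D ∧ Function.Injective (x F) ∧
      (∀ j, HtLe Y (x F j)) ∧ c F ≠ 0 ∧ ∀ j, F.eval (x F j) = (c F) ^ n * v j) →
    (∀ F ∈ S, ∀ G ∈ S, F ≠ G → ¬ Iso n F G) → (S.card : ℝ) ≤ K * (Y : ℝ) ^ ε := by
  classical
  have hE2 : (0 : ℝ) < (E2 D : ℝ) := by
    have := E2_pos D
    positivity
  choose N δ C hδ hsv using fun d : ℕ => small_values (d + 1) (by omega) (ε / (E2 D : ℝ))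
    (div_pos hε hE2)
  obtain ⟨δ0, hδ0, hδd⟩ := exists_low δ hδ D
  obtain ⟨K, hK⟩ : ∃ K : ℕ, K = (D + 1).factorial + 2 +
      ⌈∑ d ∈ Finset.range D, C d * (D : ℝ) ^ (D + 1)⌉₊ := ⟨_, rfl⟩
  refine ⟨D + 1 + ∑ d ∈ Finset.range D, N d, δ0, K, by omega, hδ0, ?_⟩
  intro m hm0 Y hKY hmY n v S x c hS hI
  have hYf : (D + 1).factorial ≤ Y := by omega
  have hY2 : 2 ≤ Y := by omega
  have hYR : (1 : ℝ) ≤ (Y : ℝ) := by exact_mod_cast (by omega : 1 ≤ Y)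
  have hm : D + 1 ≤ m := by omega
  rcases S.eq_empty_or_nonempty with hSe | ⟨F0, hF0⟩
  · rw [hSe, Finset.card_empty, Nat.cast_zero]
    positivity
  -- the values are not constant
  obtain ⟨i0, i1, hne⟩ : ∃ i0 i1 : Fin (D + 1), v (Fin.castLE hm i0) ≠ v (Fin.castLE hm i1) := by
    by_contra hcon
    push Not at hcon
    obtain ⟨h1, h2, h3, h4, h5, h6⟩ := hS F0 hF0
    have h7 : F0 - Polynomial.C ((c F0) ^ n * v (Fin.castLE hm 0)) = 0 := by
      refine Polynomial.eq_zero_of_natDegree_lt_card_of_eval_eq_zero _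
        (f := fun j : Fin (D + 1) => x F0 (Fin.castLE hm j)) ?_ (fun j => ?_) ?_
      · intro i j hij
        exact Fin.castLE_injective hm (h3 hij)
      · rw [Polynomial.eval_sub, Polynomial.eval_C, h6, hcon j 0, sub_self]
      · rw [Fintype.card_fin]
        refine lt_of_le_of_lt (Polynomial.natDegree_sub_le _ _) (max_lt (by omega) ?_)
        rw [Polynomial.natDegree_C]
        omega
    rw [sub_eq_zero.1 h7, Polynomial.natDegree_C] at h1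
    omega
  obtain ⟨μ, μ0, hμ, hμne, hμ0, hQ⟩ := small_mu hY2 hm (ω := {F // F ∈ S}) ⟨F0, hF0⟩
    (fun F => x F.1) (fun F => (hS F.1 F.2).2.2.1) (fun F => (hS F.1 F.2).2.2.2.1) v
    (fun F => Polynomial.C (((c F.1) ^ n)⁻¹) * F.1)
    (fun F => (Polynomial.natDegree_C_mul_le _ _).trans (hS F.1 F.2).2.1) (fun F j => by
      have h1 := (hS F.1 F.2).2.2.2.2.2 j
      have h2 : (c F.1) ^ n ≠ 0 := pow_ne_zero _ (hS F.1 F.2).2.2.2.2.1
      rw [Polynomial.eval_mul, Polynomial.eval_C, h1, ← mul_assoc, inv_mul_cancel₀ h2, one_mul])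
    i0 i1 hne
  have hQ' : ∀ F ∈ S, ∃ Q : Polynomial ℚ, Q.natDegree ≤ D ∧ ∀ k, Q.eval (x F k) = μ k :=
    fun F hF => hQ ⟨F, hF⟩
  choose! Q hQD hQe using hQ'
  have hQ1 : ∀ F ∈ S, 1 ≤ (Q F).natDegree := by
    intro F hF
    by_contra hcon
    have h1 : (Q F).natDegree = 0 := by omega
    have h2 := Polynomial.eq_C_of_natDegree_eq_zero h1
    apply hμne
    have h3 := hQe F hF (Fin.castLE hm i0)
    have h4 := hQe F hF (Fin.castLE hm i1)
    rw [h2, Polynomial.eval_C, hμ] at h3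
    rw [h2, Polynomial.eval_C, hμ] at h4
    exact_mod_cast h3.symm.trans h4
  have hsub : S ⊆ (Finset.range D).biUnion fun d => S.filter fun F => (Q F).natDegree = d + 1 := by
    intro F hF
    have h1 := hQ1 F hF
    have h2 := hQD F hF
    exact Finset.mem_biUnion.2 ⟨(Q F).natDegree - 1, Finset.mem_range.2 (by omega),
      Finset.mem_filter.2 ⟨hF, by omega⟩⟩
  have hone : ∀ d ∈ Finset.range D, ((S.filter fun F => (Q F).natDegree = d + 1).card : ℝ) ≤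
      C d * (Y : ℝ) ^ ε * (D : ℝ) ^ (D + 1) := by
    intro d hd
    rw [Finset.mem_range] at hd
    have hNd : N d ≤ ∑ d ∈ Finset.range D, N d :=
      Finset.single_le_sum (f := N) (fun _ _ => Nat.zero_le _) (Finset.mem_range.2 hd)
    refine one_degree (by omega) (by omega) (hδ d).le (hsv d) hm (by omega) (hmY.trans
      (Real.rpow_le_rpow_of_exponent_le hYR (hδd d hd))) hYf v _ x c
      (fun F hF => ?_) (fun F hF => (hS F (Finset.mem_filter.1 hF).1).2.2.2.1)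
      (fun F hF G hG => hI F (Finset.mem_filter.1 hF).1 G (Finset.mem_filter.1 hG).1) μ μ0 hμ hμ0 Q
      (fun F hF => (Finset.mem_filter.1 hF).2) (fun F hF => hQe F (Finset.mem_filter.1 hF).1)
    obtain ⟨h1, h2, h3, h4, h5, h6⟩ := hS F (Finset.mem_filter.1 hF).1
    exact ⟨h2, h3, h5, h6⟩
  calc (S.card : ℝ) ≤ ∑ d ∈ Finset.range D, ((S.filter fun F => (Q F).natDegree = d + 1).card : ℝ) := by
        exact_mod_cast (Finset.card_le_card hsub).trans Finset.card_biUnion_le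
    _ ≤ ∑ d ∈ Finset.range D, C d * (Y : ℝ) ^ ε * (D : ℝ) ^ (D + 1) := Finset.sum_le_sum hone
    _ = (∑ d ∈ Finset.range D, C d * (D : ℝ) ^ (D + 1)) * (Y : ℝ) ^ ε := by
        rw [Finset.sum_mul]
        exact Finset.sum_congr rfl fun d _ => by ring
    _ ≤ K * (Y : ℝ) ^ ε := by
        refine mul_le_mul_of_nonneg_right ?_ (by positivity)
        refine (Nat.le_ceil _).trans ?_
        exact_mod_cast (by omega : ⌈∑ d ∈ Finset.range D, C d * (D : ℝ) ^ (D + 1)⌉₊ ≤ K)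

end Pool.Agent.NH8.WB
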