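import Mathlib
import Pool.Agent.NH8.WE
import Pool.Agent.NH8.VF

/-!
# Few superelliptic curves with many points
-/

set_option autoImplicit false

namespace Pool.Agent.NH8.WB

open Pool.Agent.NH8.WA Pool.Agent.NH8.UE Pool.Agent.NH8.UC Pool.Agent.NH8.VB Pool.Agent.NH8.VC
  Pool.Agent.NH8.VF

/-- the rational points of height at most `Y` on the superelliptic curve `y ^ n = F (x)` -/
def pts (n Y : ℕ) (F : Polynomial ℚ) : Set (ℚ × ℚ) :=
  {P | HtLe Y P.1 ∧ HtLe Y P.2 ∧ P.2 ^ n = F.eval P.1}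

/-- few vectors of ratios -/
theorem few_ratios (D m : ℕ) (hm0 : 0 < m) (hm : 2 * D < m) (ε : ℝ) (hε : 0 < ε) :
    ∃ (R : ℕ) (δ : ℝ), 0 < δ ∧ ∀ Y : ℕ, 1 ≤ Y → ∀ n : ℕ, R ≤ n → (n : ℝ) ≤ (Y : ℝ) ^ δ → n ≠ 0 →
      ∀ T : Finset (Fin m → ℚ), (∀ r ∈ T, ∃ (F : Polynomial ℚ) (x y : Fin m → ℚ), F.natDegree ≤ D ∧
        Function.Injective x ∧ (∀ j, HtLe Y (x j) ∧ y j ≠ 0 ∧ HtLe Y (y j)) ∧
        (∀ j, (y j) ^ n = F.eval (x j)) ∧ ∀ j, r j = |y j / y ⟨0, hm0⟩|) →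
      (T.card : ℝ) ≤ (Y : ℝ) ^ ε := by
  classical
  obtain ⟨R, δ, hδ, H⟩ := deform (Option (Fin (D + 1))) (Fin m) sa sb (D + 1) (fun p => by
      rcases p with _ | i
      · exact Nat.zero_le _
      · exact i.2.le) (fun p => by
      rcases p with _ | i
      · exact Nat.succ_le_succ (Nat.zero_le _)
      · exact Nat.zero_le _) ε hε
  refine ⟨R, δ, hδ, fun Y hY n hn1 hn2 hn0 T hT => ?_⟩
  by_contra hcon
  push Not at hcon
  choose! F x y hF hxi hxy hFe hr using hT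
  obtain ⟨a, ha, b, hb, hab, c, hc0, hcj⟩ := H Y hY n hn1 hn2 T x y hxy (fun a ha => by
    refine ⟨fun p => p.elim (-1) (fun i => (F a).coeff i), ?_, fun j => ?_⟩
    · intro h0
      have := congrFun h0 none
      simp at this
    · rw [Fintype.sum_option]
      show (-1 : ℚ) * ((x a j) ^ 0 * ((y a j) ^ n) ^ 1) +
        ∑ i : Fin (D + 1), (F a).coeff i * ((x a j) ^ (i : ℕ) * ((y a j) ^ n) ^ 0) = 0
      rw [pow_zero, pow_one, one_mul, hFe a ha,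
        Polynomial.eval_eq_sum_range' (Nat.lt_succ_of_le (hF a ha)), Finset.sum_range]
      simp only [pow_zero, mul_one]
      ring) hcon
  obtain ⟨l, hl⟩ := const_s (hF a ha) (x a) (fun j => (y a j) ^ n)
    (fun j => Real.log (y a j) - Real.log (y b j)) (fun j => pow_ne_zero _ (hxy a ha j).2.1)
    Finset.univ (hxi a ha).injOn (hFe a ha) (by rw [Finset.card_univ, Fintype.card_fin]; exact hm)
    c hc0 hcj
  apply hab
  have n' : ∀ w ∈ T, ∀ j, ((y w j : ℚ) : ℝ) ≠ 0 := fun w hw j => by exact_mod_cast (hxy w hw j).2.1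
  funext j
  have e1 := (hl j).trans (hl ⟨0, hm0⟩).symm
  have e2 : Real.log |((y a j : ℚ) : ℝ) / ((y a ⟨0, hm0⟩ : ℚ) : ℝ)| =
      Real.log |((y b j : ℚ) : ℝ) / ((y b ⟨0, hm0⟩ : ℚ) : ℝ)| := by
    rw [Real.log_abs, Real.log_abs, Real.log_div (n' a ha j) (n' a ha _),
      Real.log_div (n' b hb j) (n' b hb _)]
    linarith
  have e3 := Real.log_injOn_pos (Set.mem_Ioi.2 (abs_pos.2 (div_ne_zero (n' a ha j) (n' a ha _))))
    (Set.mem_Ioi.2 (abs_pos.2 (div_ne_zero (n' b hb j) (n' b hb _)))) e2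
  rw [hr a ha, hr b hb]
  exact_mod_cast e3

theorem eq_of_abs {a b : ℚ} (h1 : |a| = |b|) (h2 : decide (0 < a) = decide (0 < b)) : a = b := by
  have h3 : 0 < a ↔ 0 < b := by
    constructor
    · intro h
      have : decide (0 < a) = true := decide_eq_true h
      rw [h2] at this
      exact of_decide_eq_true this
    · intro h
      have : decide (0 < b) = true := decide_eq_true h
      rw [← h2] at this
      exact of_decide_eq_true this
  by_cases h : 0 < a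
  · rwa [abs_of_pos h, abs_of_pos (h3.1 h)] at h1
  · have h4 : ¬ 0 < b := fun h5 => h (h3.2 h5)
    push Not at h h4
    rw [abs_of_nonpos h, abs_of_nonpos h4] at h1
    linarith

/-- many points give a configuration -/
theorem many {D n Y m : ℕ} (hn : n ≠ 0) {F : Polynomial ℚ} (hF1 : 1 ≤ F.natDegree)
    (hF : F.natDegree ≤ D) (hc : ((2 * m + D : ℕ) : ℕ∞) < (pts n Y F).encard) :
    ∃ x y : Fin m → ℚ, Function.Injective x ∧ (∀ j, HtLe Y (x j) ∧ y j ≠ 0 ∧ HtLe Y (y j)) ∧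
      ∀ j, (y j) ^ n = F.eval (x j) := by
  classical
  have hF0 : F ≠ 0 := by
    rintro rfl
    rw [Polynomial.natDegree_zero] at hF1
    omega
  have hsub : pts n Y F ⊆ sp n Y F ∪
      (((F.roots.toFinset.image fun z => (z, (0 : ℚ))) : Finset (ℚ × ℚ)) : Set (ℚ × ℚ)) := by
    intro P hP
    obtain ⟨h1, h2, h3⟩ := hP
    by_cases h : P.2 = 0
    · right
      rw [h, zero_pow hn] at h3
      rw [Finset.mem_coe, Finset.mem_image]
      refine ⟨P.1, ?_, Prod.ext rfl h.symm⟩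
      rw [Multiset.mem_toFinset, Polynomial.mem_roots hF0]
      exact h3.symm
    · left
      exact ⟨h, h1, h2, h3⟩
  have h1 : (((F.roots.toFinset.image fun z => (z, (0 : ℚ))) : Finset (ℚ × ℚ)) :
      Set (ℚ × ℚ)).encard ≤ ((D : ℕ) : ℕ∞) := by
    rw [Set.encard_coe_eq_coe_finsetCard]
    exact_mod_cast Finset.card_image_le.trans ((Multiset.toFinset_card_le _).trans
      ((Polynomial.card_roots' _).trans hF))
  have h2 : ((2 * m : ℕ) : ℕ∞) < (sp n Y F).encard := by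
    by_contra hcon
    push Not at hcon
    have h3 := (Set.encard_le_encard hsub).trans ((Set.encard_union_le _ _).trans
      (add_le_add hcon h1))
    have h4 := lt_of_lt_of_le hc h3
    rw [← Nat.cast_add] at h4
    exact lt_irrefl _ h4
  obtain ⟨W, hW1, hW2⟩ := select (fun p => p.1) 2 m (sp n Y F) (fun q hq => by
    refine ⟨{(q.1, q.2), (q.1, -q.2)}, Finset.card_le_two, fun p hp hpq => ?_⟩
    have h1 : p.1 = q.1 := hpq
    have h2 : p.2 ^ n = q.2 ^ n := by rw [hp.2.2.2, hq.2.2.2, h1]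
    rw [Finset.mem_insert, Finset.mem_singleton]
    rcases UG.pow_eq_abs hn h2 with h3 | h3
    · exact Or.inl (Prod.ext h1 h3)
    · exact Or.inr (Prod.ext h1 h3)) h2
  refine ⟨fun j => (W j.castSucc).1, fun j => (W j.castSucc).2, fun i j hij => ?_, fun j => ?_,
    fun j => ?_⟩
  · exact Fin.castSucc_injective _ (hW2 hij)
  · exact ⟨(hW1 _).2.1, (hW1 _).1, (hW1 _).2.2.1⟩
  · exact (hW1 _).2.2.2

/-- **Few superelliptic curves with many points.** -/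
theorem few_curves (D : ℕ) (ε : ℝ) (hε : 0 < ε) : ∃ (B R : ℕ) (δ : ℝ), 0 < δ ∧
    ∀ Y : ℕ, 1 ≤ Y → ∀ S : Finset (ℕ × Polynomial ℚ),
      (∀ p ∈ S, R ≤ p.1 ∧ (p.1 : ℝ) ≤ (Y : ℝ) ^ δ ∧ 1 ≤ p.2.natDegree ∧ p.2.natDegree ≤ D ∧
        (B : ℕ∞) < (pts p.1 Y p.2).encard) →
      (∀ p ∈ S, ∀ q ∈ S, p ≠ q → p.1 = q.1 → ¬ Iso p.1 p.2 q.2) →
      (S.card : ℝ) ≤ (Y : ℝ) ^ ε := by
  classical
  obtain ⟨m0, δ1, K, hm0, hδ1, H1⟩ := few_common D (ε / 8) (by positivity)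
  obtain ⟨m, hm⟩ : ∃ m : ℕ, m = max m0 (2 * D + 1) := ⟨_, rfl⟩
  have hmm0 : m0 ≤ m := hm ▸ le_max_left _ _
  have hmD : 2 * D < m := by
    have : 2 * D + 1 ≤ m := hm ▸ le_max_right _ _
    omega
  have hmpos : 0 < m := by omega
  obtain ⟨R2, δ2, hδ2, H2⟩ := few_ratios D m hmpos hmD (ε / 8) (by positivity)
  obtain ⟨Δ, hΔ⟩ : ∃ Δ : ℝ, Δ = min (min δ1 δ2) (min (ε / 8) 1) := ⟨_, rfl⟩
  have hΔ0 : 0 < Δ := by
    rw [hΔ]
    exact lt_min (lt_min hδ1 hδ2) (lt_min (by positivity) one_pos)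
  have hΔ1 : Δ ≤ δ1 := hΔ ▸ (min_le_left _ _).trans (min_le_left _ _)
  have hΔ2 : Δ ≤ δ2 := hΔ ▸ (min_le_left _ _).trans (min_le_right _ _)
  have hΔ3 : Δ ≤ ε / 8 := hΔ ▸ (min_le_right _ _).trans (min_le_left _ _)
  have hΔ4 : Δ ≤ 1 := hΔ ▸ (min_le_right _ _).trans (min_le_right _ _)
  obtain ⟨R, hR⟩ : ∃ R : ℕ, R = R2 + m + K * 2 ^ m + K + 1 := ⟨_, rfl⟩
  refine ⟨2 * m + D, R, Δ, hΔ0, fun Y hY S hS hI => ?_⟩
  have hY1 : (1 : ℝ) ≤ (Y : ℝ) := by exact_mod_cast hY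
  have hY0 : (0 : ℝ) < (Y : ℝ) := by linarith
  rcases S.eq_empty_or_nonempty with hSe | ⟨p0, hp0⟩
  · rw [hSe, Finset.card_empty, Nat.cast_zero]
    positivity
  have hRY : (R : ℝ) ≤ (Y : ℝ) ^ Δ := by
    obtain ⟨h1, h2, -⟩ := hS p0 hp0
    exact le_trans (by exact_mod_cast h1) h2
  have hmul : (K : ℝ) * 2 ^ m ≤ (Y : ℝ) ^ (ε / 8) := by
    refine le_trans ?_ (hRY.trans (Real.rpow_le_rpow_of_exponent_le hY1 hΔ3))
    have : K * 2 ^ m ≤ R := by omega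
    exact_mod_cast this
  have hKY : K ≤ Y := by
    have h1 : (K : ℝ) ≤ (Y : ℝ) := by
      refine le_trans ?_ (hRY.trans ((Real.rpow_le_rpow_of_exponent_le hY1 hΔ4).trans
        (Real.rpow_one _).le))
      have : K ≤ R := by omega
      exact_mod_cast this
    exact_mod_cast h1
  have hmY : (m : ℝ) ≤ (Y : ℝ) ^ δ1 := by
    refine le_trans ?_ (hRY.trans (Real.rpow_le_rpow_of_exponent_le hY1 hΔ1))
    have : m ≤ R := by omega
    exact_mod_cast this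
  -- a single exponent
  have hone : ∀ n : ℕ, R ≤ n → (n : ℝ) ≤ (Y : ℝ) ^ Δ → ∀ S : Finset (Polynomial ℚ),
      (∀ F ∈ S, 1 ≤ F.natDegree ∧ F.natDegree ≤ D ∧
        (((2 * m + D : ℕ)) : ℕ∞) < (pts n Y F).encard) →
      (∀ F ∈ S, ∀ G ∈ S, F ≠ G → ¬ Iso n F G) →
      (S.card : ℝ) ≤ (K : ℝ) * (Y : ℝ) ^ (ε / 8) * (2 ^ m * (Y : ℝ) ^ (ε / 8)) := by
    intro n hn1 hn2 S hS hI
    have hn0 : n ≠ 0 := by omega
    have hsel : ∀ F ∈ S, ∃ x y : Fin m → ℚ, Function.Injective x ∧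
        (∀ j, HtLe Y (x j) ∧ y j ≠ 0 ∧ HtLe Y (y j)) ∧ ∀ j, (y j) ^ n = F.eval (x j) :=
      fun F hF => many hn0 (hS F hF).1 (hS F hF).2.1 (hS F hF).2.2
    choose! x y hxi hxy hFe using hsel
    obtain ⟨ρ, hρ⟩ : ∃ ρ : Polynomial ℚ → Fin m → ℚ, ∀ F j, ρ F j = y F j / y F ⟨0, hmpos⟩ :=
      ⟨_, fun _ _ => rfl⟩
    obtain ⟨A, hA⟩ : ∃ A : Finset (Fin m → ℚ), A = S.image fun F => fun j => |ρ F j| := ⟨_, rfl⟩
    have hAc : (A.card : ℝ) ≤ (Y : ℝ) ^ (ε / 8) := by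
      refine H2 Y hY n (by omega) (hn2.trans (Real.rpow_le_rpow_of_exponent_le hY1 hΔ2)) hn0 A
        fun r hr => ?_
      rw [hA] at hr
      obtain ⟨F, hF, rfl⟩ := Finset.mem_image.1 hr
      exact ⟨F, x F, y F, (hS F hF).2.1, hxi F hF, hxy F hF, hFe F hF, fun j => by
        show |ρ F j| = _
        rw [hρ]⟩
    obtain ⟨g, hg⟩ : ∃ g : Polynomial ℚ → (Fin m → ℚ) × (Fin m → Bool), ∀ F,
      g F = (fun j => |ρ F j|, fun j => decide (0 < ρ F j)) := ⟨_, fun _ => rfl⟩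
    have himg : (S.image g).card ≤ A.card * 2 ^ m := by
      have h1 : S.image g ⊆ A ×ˢ (Finset.univ : Finset (Fin m → Bool)) := by
        intro z hz
        obtain ⟨F, hF, rfl⟩ := Finset.mem_image.1 hz
        rw [Finset.mem_product, hg, hA]
        exact ⟨Finset.mem_image_of_mem _ hF, Finset.mem_univ _⟩
      refine (Finset.card_le_card h1).trans (le_of_eq ?_)
      rw [Finset.card_product, Finset.card_univ, Fintype.card_fun, Fintype.card_bool,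
        Fintype.card_fin]
    have hfib : ∀ z ∈ S.image g, ((S.filter fun F => g F = z).card : ℝ) ≤
        (K : ℝ) * (Y : ℝ) ^ (ε / 8) := by
      intro z hz
      obtain ⟨F0, hF0, rfl⟩ := Finset.mem_image.1 hz
      refine H1 m hmm0 Y hKY hmY n (fun j => (ρ F0 j) ^ n) _ x (fun F => y F ⟨0, hmpos⟩)
        (fun F hF => ?_) (fun F hF G hG => hI F (Finset.mem_filter.1 hF).1 G
          (Finset.mem_filter.1 hG).1)
      obtain ⟨hFS, hFg⟩ := Finset.mem_filter.1 hF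
      refine ⟨(hS F hFS).1, (hS F hFS).2.1, hxi F hFS, fun j => (hxy F hFS j).1,
        (hxy F hFS _).2.1, fun j => ?_⟩
      rw [hg, hg, Prod.mk.injEq] at hFg
      have h1 : ρ F j = ρ F0 j := eq_of_abs (congrFun hFg.1 j) (congrFun hFg.2 j)
      rw [← h1, hρ, ← mul_pow, mul_div_cancel₀ _ (hxy F hFS _).2.1, hFe F hFS]
    have hK : (S.card : ℝ) ≤ ∑ _z ∈ S.image g, (K : ℝ) * (Y : ℝ) ^ (ε / 8) := by
      rw [Finset.card_eq_sum_card_image g S]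
      push_cast
      exact Finset.sum_le_sum hfib
    rw [Finset.sum_const, nsmul_eq_mul] at hK
    refine hK.trans ?_
    have h2 : ((S.image g).card : ℝ) ≤ 2 ^ m * (Y : ℝ) ^ (ε / 8) := by
      have h3 : ((S.image g).card : ℝ) ≤ (A.card : ℝ) * 2 ^ m := by exact_mod_cast himg
      refine h3.trans ?_
      rw [mul_comm]
      exact mul_le_mul_of_nonneg_left hAc (by positivity)
    rw [mul_comm]
    exact mul_le_mul_of_nonneg_left h2 (by positivity)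
  -- all exponents
  obtain ⟨N, hN⟩ : ∃ N : ℕ, N = ⌊(Y : ℝ) ^ Δ⌋₊ := ⟨_, rfl⟩
  have hN' : (N : ℝ) ≤ (Y : ℝ) ^ Δ := by
    rw [hN]
    exact Nat.floor_le (by positivity)
  have hfst : (S.image Prod.fst).card ≤ N := by
    have h1 : S.image Prod.fst ⊆ Finset.Icc 1 N := by
      intro n hn
      obtain ⟨p, hp, rfl⟩ := Finset.mem_image.1 hn
      obtain ⟨h1, h2, -⟩ := hS p hp
      rw [Finset.mem_Icc, hN]
      exact ⟨by omega, Nat.le_floor h2⟩
    have h2 := Finset.card_le_card h1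
    rwa [Nat.card_Icc, Nat.add_sub_cancel] at h2
  have hfn : ∀ n ∈ S.image Prod.fst, ((S.filter fun p => p.1 = n).card : ℝ) ≤
      (K : ℝ) * (Y : ℝ) ^ (ε / 8) * (2 ^ m * (Y : ℝ) ^ (ε / 8)) := by
    intro n hn
    obtain ⟨p, hp, rfl⟩ := Finset.mem_image.1 hn
    obtain ⟨h1, h2, -⟩ := hS p hp
    have hinj : Set.InjOn Prod.snd ((S.filter fun q => q.1 = p.1 : Finset (ℕ × Polynomial ℚ)) :
        Set (ℕ × Polynomial ℚ)) := by
      intro q hq q' hq' hqq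
      rw [Finset.mem_coe, Finset.mem_filter] at hq hq'
      exact Prod.ext (hq.2.trans hq'.2.symm) hqq
    rw [← Finset.card_image_of_injOn hinj]
    refine hone p.1 h1 h2 _ (fun F hF => ?_) (fun F hF G hG hne => ?_)
    · obtain ⟨q, hq, rfl⟩ := Finset.mem_image.1 hF
      obtain ⟨hq1, hq2⟩ := Finset.mem_filter.1 hq
      obtain ⟨-, -, h3, h4, h5⟩ := hS q hq1
      rw [hq2] at h5
      exact ⟨h3, h4, h5⟩
    · obtain ⟨q, hq, rfl⟩ := Finset.mem_image.1 hF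
      obtain ⟨q', hq', rfl⟩ := Finset.mem_image.1 hG
      obtain ⟨hq1, hq2⟩ := Finset.mem_filter.1 hq
      obtain ⟨hq1', hq2'⟩ := Finset.mem_filter.1 hq'
      have := hI q hq1 q' hq1' (fun h => hne (by rw [h])) (hq2.trans hq2'.symm)
      rwa [hq2] at this
  have hK : (S.card : ℝ) ≤ ∑ _n ∈ S.image Prod.fst,
      (K : ℝ) * (Y : ℝ) ^ (ε / 8) * (2 ^ m * (Y : ℝ) ^ (ε / 8)) := by
    rw [Finset.card_eq_sum_card_image Prod.fst S]
    push_cast
    exact Finset.sum_le_sum hfn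
  rw [Finset.sum_const, nsmul_eq_mul] at hK
  have h5 : ((S.image Prod.fst).card : ℝ) ≤ (Y : ℝ) ^ (ε / 8) := by
    have h6 : ((S.image Prod.fst).card : ℝ) ≤ (N : ℝ) := by exact_mod_cast hfst
    exact h6.trans (hN'.trans (Real.rpow_le_rpow_of_exponent_le hY1 hΔ3))
  have hp : 0 < (Y : ℝ) ^ (ε / 8) := Real.rpow_pos_of_pos hY0 _
  calc (S.card : ℝ) ≤ ((S.image Prod.fst).card : ℝ) *
        ((K : ℝ) * (Y : ℝ) ^ (ε / 8) * (2 ^ m * (Y : ℝ) ^ (ε / 8))) := hK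
    _ ≤ (Y : ℝ) ^ (ε / 8) * ((K : ℝ) * (Y : ℝ) ^ (ε / 8) * (2 ^ m * (Y : ℝ) ^ (ε / 8))) :=
        mul_le_mul_of_nonneg_right h5 (by positivity)
    _ = ((K : ℝ) * 2 ^ m) * ((Y : ℝ) ^ (ε / 8) * (Y : ℝ) ^ (ε / 8) * (Y : ℝ) ^ (ε / 8)) := by ring
    _ ≤ (Y : ℝ) ^ (ε / 8) * ((Y : ℝ) ^ (ε / 8) * (Y : ℝ) ^ (ε / 8) * (Y : ℝ) ^ (ε / 8)) :=
        mul_le_mul_of_nonneg_right hmul (by positivity)
    _ = (Y : ℝ) ^ (ε / 8 + (ε / 8 + ε / 8 + ε / 8)) := by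
        rw [← Real.rpow_add hY0, ← Real.rpow_add hY0, ← Real.rpow_add hY0]
    _ ≤ (Y : ℝ) ^ ε := Real.rpow_le_rpow_of_exponent_le hY1 (by linarith)

end Pool.Agent.NH8.WB
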