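import Mathlib
import Pool.Agent.NH8.XS

/-!
# Small rational points on Kummer coverings: few classes from few ratios
-/

set_option autoImplicit false

namespace Pool.Agent.NH8.X

open Pool.Agent.NH8.UC

namespace Cls

/-- the exponent vectors -/
abbrev NN (s B : ℕ) : Type := (Fin 0 ⊕ Fin s) → Fin (B + 1)

/-- the coordinates of the point -/
def crd {s : ℕ} (n : Fin s → ℕ) (P : (Fin 0 → ℚ) × (Fin s → ℚ)) : Fin 0 ⊕ Fin s → ℚ :=
  Sum.elim P.1 fun i => P.2 i ^ n i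

/-- the monomial functions -/
def mon {s : ℕ} (B : ℕ) (n : Fin s → ℕ) (p : NN s B) (P : (Fin 0 → ℚ) × (Fin s → ℚ)) : ℚ :=
  ∏ i, crd n P i ^ (p i : ℕ)

theorem eval_mon {s B : ℕ} (G : MvPolynomial (Fin 0 ⊕ Fin s) ℚ) (hG : G.totalDegree ≤ B) :
    ∃ h : NN s B → ℚ, ∀ (n : Fin s → ℕ) (P : (Fin 0 → ℚ) × (Fin s → ℚ)),
      MvPolynomial.eval (crd n P) G = ∑ p, h p * mon B n p P := by
  classical
  let φ : NN s B → (Fin 0 ⊕ Fin s →₀ ℕ) := fun p =>
    Finsupp.equivFunOnFinite.symm (fun i => (p i : ℕ))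
  have hφ : ∀ p i, φ p i = (p i : ℕ) := fun p i => rfl
  have hinj : Function.Injective φ := by
    intro p p' h
    funext i
    apply Fin.ext
    rw [← hφ p i, ← hφ p' i, h]
  refine ⟨fun p => MvPolynomial.coeff (φ p) G, fun n P => ?_⟩
  rw [MvPolynomial.eval_eq']
  have h1 : ∑ p : NN s B, MvPolynomial.coeff (φ p) G * mon B n p P =
      ∑ d ∈ Finset.univ.image φ, MvPolynomial.coeff d G * ∏ i, crd n P i ^ d i := by
    rw [Finset.sum_image (fun p _ p' _ h => hinj h)]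
    rfl
  rw [h1]
  apply Finset.sum_subset
  · intro d hd
    rw [Finset.mem_image]
    have hle : ∀ i, d i < B + 1 := by
      intro i
      have h2 : d.sum (fun _ e => e) ≤ G.totalDegree := MvPolynomial.le_totalDegree hd
      have h3 : d i ≤ d.sum (fun _ e => e) := by
        rw [Finsupp.sum_fintype _ _ (fun _ => rfl)]
        exact Finset.single_le_sum (f := fun j => d j) (fun _ _ => Nat.zero_le _)
          (Finset.mem_univ i)
      omega
    refine ⟨fun i => ⟨d i, hle i⟩, Finset.mem_univ _, ?_⟩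
    ext i
    rfl
  · intro d _ hd
    rw [MvPolynomial.notMem_support_iff.1 hd, zero_mul]

end Cls

open Cls in
theorem s_classes : S_sel → S_ratios → S_classes := by
  classical
  intro hsel hrat s D
  obtain ⟨B0, hB0⟩ := hrat 0 s D
  set B : ℕ := max B0 D with hB
  set c : ℕ := Fintype.card (NN s B) with hc
  refine ⟨B, ?_⟩
  intro ε hε
  set ε' : ℝ := ε / (4 * (c + 1)) with hε'
  have hε'0 : 0 < ε' := by positivity
  obtain ⟨R0, δ0, hR0, hδ0, hY⟩ := hB0 ε' hε'0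
  set δ : ℝ := min δ0 (ε / (4 * (s + 1))) with hδ
  have hδpos : 0 < δ := lt_min hδ0 (by positivity)
  set R : ℕ := max R0 (2 ^ (s * c)) with hR
  refine ⟨R, δ, lt_of_lt_of_le hR0 (le_max_left _ _), hδpos, ?_⟩
  intro Y hY1
  obtain ⟨E, hE, hEr⟩ := hY Y hY1
  intro S hS
  have hYr : (1:ℝ) ≤ Y := by exact_mod_cast hY1
  rcases S.eq_empty_or_nonempty with rfl | ⟨t0, ht0⟩
  · simp only [Finset.card_empty, Nat.cast_zero]
    positivity
  set b0 : (Fin 0 → ℚ) × (Fin s → ℚ) := (fun i => i.elim0, fun _ => 1) with hb0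
  -- the selected points
  have hQ : ∀ t : (Fin s → ℕ) × Ideal (MvPolynomial (Fin 0 ⊕ Fin s) ℚ), t ∈ S →
      ∃ Q : NN s B → (Fin 0 → ℚ) × (Fin s → ℚ), (∀ k, Q k ∈ points t.1 Y t.2) ∧
        ∀ G : MvPolynomial (Fin 0 ⊕ Fin s) ℚ, G.totalDegree ≤ D →
          (G ∈ t.2 ↔ ∀ k, MvPolynomial.eval (crd t.1 (Q k)) G = 0) := by
    intro t ht
    obtain ⟨h1, h2, h3, h4, h5⟩ := hS t ht
    obtain ⟨Q, hQ1, hQ2⟩ := hsel (NN s B) ((Fin 0 → ℚ) × (Fin s → ℚ)) (mon B t.1)
      (points t.1 Y t.2) ⟨_, h4⟩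
    refine ⟨Q, hQ1, fun G hG => ⟨fun hGt k => (hQ1 k).2.2.1 G hGt, fun hk => ?_⟩⟩
    by_contra hGt
    apply h5
    refine ⟨G, hG.trans (le_max_right _ _), hGt, fun P hP => ?_⟩
    obtain ⟨h, hh⟩ := eval_mon (B := B) G (hG.trans (le_max_right _ _))
    have := hQ2 h (fun k => by rw [← hh]; exact hk k) P hP
    rw [← hh] at this
    exact this
  choose! Q hQ1 hQ2 using hQ
  -- the finite sets
  let A : Finset (Fin s → ℕ) := Fintype.piFinset fun _ => Finset.Icc 1 ⌊(Y:ℝ) ^ δ⌋₊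
  let F : Finset (Fin s → ℚ) := (E ×ˢ (Finset.univ : Finset (Fin s → Bool))).image
    (fun x i => if x.2 i then x.1 i else - x.1 i)
  let T : Finset ((Fin s → ℕ) × (NN s B → Fin s → ℚ)) := A ×ˢ Fintype.piFinset fun _ => F
  have hmaps : ∀ t ∈ S, (t.1, fun k => (Q t k).2) ∈ T := by
    intro t ht
    obtain ⟨h1, h2, h3, h4, h5⟩ := hS t ht
    have hex : Exps R0 δ0 Y t.1 := by
      refine ⟨(le_max_left _ _).trans h1.1, fun i => ⟨(h1.2 i).1, (h1.2 i).2.trans ?_⟩⟩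
      exact Real.rpow_le_rpow_of_exponent_le hYr (min_le_left _ _)
    have hnd : ¬ Degenerate B0 t.1 Y t.2 := by
      rintro ⟨H, a1, a2, a3⟩
      exact h5 ⟨H, a1.trans (le_max_left _ _), a2, a3⟩
    have hr := (hEr t.1 hex t.2 h2 h3).resolve_left hnd
    rw [Finset.mem_product]
    refine ⟨?_, ?_⟩
    · rw [Fintype.mem_piFinset]
      intro i
      rw [Finset.mem_Icc]
      exact ⟨(h1.2 i).1, Nat.le_floor (h1.2 i).2⟩
    · rw [Fintype.mem_piFinset]
      intro k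
      rw [Finset.mem_image]
      have hk := hr (Q t k) (hQ1 t ht k) _ h4
      refine ⟨(fun i => |(Q t k).2 i|, fun i => decide (0 ≤ (Q t k).2 i)), ?_, ?_⟩
      · rw [Finset.mem_product]
        refine ⟨?_, Finset.mem_univ _⟩
        simpa [hb0] using hk
      · funext i
        by_cases hi : 0 ≤ (Q t k).2 i
        · simp [hi, abs_of_nonneg hi]
        · simp [hi, abs_of_neg (not_le.1 hi)]
  have hinj : Set.InjOn (fun t => ((t.1, fun k => (Q t k).2) :
      (Fin s → ℕ) × (NN s B → Fin s → ℚ))) (S : Set _) := by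
    intro t ht t' ht' heq
    simp only [Prod.mk.injEq] at heq
    obtain ⟨e1, e2⟩ := heq
    have eQ : ∀ k, Q t k = Q t' k := by
      intro k
      apply Prod.ext
      · exact Subsingleton.elim _ _
      · exact congrFun e2 k
    obtain ⟨-, -, h3, -, -⟩ := hS t ht
    obtain ⟨-, -, h3', -, -⟩ := hS t' ht'
    have hset : {G | G ∈ t.2 ∧ G.totalDegree ≤ D} = {G | G ∈ t'.2 ∧ G.totalDegree ≤ D} := by
      ext G
      simp only [Set.mem_ofPred_eq]
      constructor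
      · rintro ⟨a, b⟩
        refine ⟨(hQ2 t' ht' G b).2 fun k => ?_, b⟩
        rw [← eQ, ← e1]
        exact (hQ2 t ht G b).1 a k
      · rintro ⟨a, b⟩
        refine ⟨(hQ2 t ht G b).2 fun k => ?_, b⟩
        rw [eQ, e1]
        exact (hQ2 t' ht' G b).1 a k
    apply Prod.ext e1
    rw [h3, h3', hset]
  have hcard : S.card ≤ T.card := Finset.card_le_card_of_injOn _ hmaps hinj
  have hYδ : (1:ℝ) ≤ (Y:ℝ) ^ δ := Real.one_le_rpow hYr hδpos.le
  -- `s ≥ 1`
  have hs : 0 < s := by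
    rcases Nat.eq_zero_or_pos s with h0 | h0
    · exfalso
      subst h0
      have h1 := (hS t0 ht0).1.1
      simp only [Finset.univ_eq_empty, Finset.gcd_empty] at h1
      have : 0 < R := lt_of_lt_of_le hR0 (le_max_left _ _)
      omega
    · exact h0
  have hpow : ((2:ℝ) ^ (s * c)) ≤ (Y:ℝ) ^ δ := by
    have h1 := (hS t0 ht0).1
    have h2 := h1.2 ⟨0, hs⟩
    have h3 : Finset.univ.gcd t0.1 ≤ t0.1 ⟨0, hs⟩ :=
      Nat.le_of_dvd h2.1 (Finset.gcd_dvd (Finset.mem_univ _))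
    have h4 : 2 ^ (s * c) ≤ t0.1 ⟨0, hs⟩ := ((le_max_right _ _).trans h1.1).trans h3
    calc ((2:ℝ) ^ (s * c)) = ((2 ^ (s * c) : ℕ) : ℝ) := by push_cast; rfl
      _ ≤ (t0.1 ⟨0, hs⟩ : ℝ) := by exact_mod_cast h4
      _ ≤ _ := h2.2
  have hA : (A.card : ℝ) ≤ ((Y:ℝ) ^ δ) ^ s := by
    have : A.card = (⌊(Y:ℝ) ^ δ⌋₊) ^ s := by
      simp [A]
    rw [this]
    push_cast
    gcongr
    exact Nat.floor_le (by positivity)
  have hF : (F.card : ℝ) ≤ (Y:ℝ) ^ ε' * 2 ^ s := by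
    have h1 : F.card ≤ E.card * 2 ^ s := by
      refine Finset.card_image_le.trans ?_
      rw [Finset.card_product]
      simp
    calc (F.card : ℝ) ≤ ((E.card * 2 ^ s : ℕ) : ℝ) := by exact_mod_cast h1
      _ = E.card * 2 ^ s := by push_cast; rfl
      _ ≤ _ := by gcongr
  have hT : (T.card : ℝ) ≤ ((Y:ℝ) ^ δ) ^ s * ((Y:ℝ) ^ ε' * 2 ^ s) ^ c := by
    have : T.card = A.card * F.card ^ c := by
      have h1 : (Fintype.piFinset fun _ : NN s B => F).card = F.card ^ c := by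
        rw [Fintype.card_piFinset, Finset.prod_const, Finset.card_univ]
      rw [← h1]
      exact Finset.card_product _ _
    rw [this]
    push_cast
    gcongr
  have hY0 : (0:ℝ) < Y := by linarith
  calc (S.card : ℝ) ≤ T.card := by exact_mod_cast hcard
    _ ≤ ((Y:ℝ) ^ δ) ^ s * ((Y:ℝ) ^ ε' * 2 ^ s) ^ c := hT
    _ = ((Y:ℝ) ^ δ) ^ s * ((Y:ℝ) ^ ε') ^ c * 2 ^ (s * c) := by
        rw [mul_pow, ← pow_mul]; ring
    _ ≤ ((Y:ℝ) ^ δ) ^ s * ((Y:ℝ) ^ ε') ^ c * (Y:ℝ) ^ δ := by gcongr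
    _ = (Y:ℝ) ^ (δ * s + ε' * c + δ) := by
        rw [← Real.rpow_natCast, ← Real.rpow_natCast, ← Real.rpow_mul hY0.le,
          ← Real.rpow_mul hY0.le, ← Real.rpow_add hY0, ← Real.rpow_add hY0]
    _ ≤ (Y:ℝ) ^ ε := by
        apply Real.rpow_le_rpow_of_exponent_le hYr
        have h1 : δ * (s + 1) ≤ ε / 4 := by
          have : δ ≤ ε / (4 * (s + 1)) := min_le_right _ _
          calc δ * (s + 1) ≤ ε / (4 * (s + 1)) * (s + 1) := by gcongr
            _ = ε / 4 := by field_simp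
        have h2 : ε' * c ≤ ε / 4 := by
          calc ε' * c ≤ ε' * (c + 1) := by
                apply mul_le_mul_of_nonneg_left _ hε'0.le
                linarith
            _ = ε / 4 := by rw [hε']; field_simp
        nlinarith

end Pool.Agent.NH8.X
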